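import Mathlib

/-!
# The circle of angles

Normalised Lebesgue measure on `(0, 2π]`, characters, orthogonality, lacunary sums.
-/

set_option autoImplicit false

namespace Pool.Agent.H439.MC

open Complex Set Topology Filter MeasureTheory

/-- normalised Lebesgue measure on the angles -/
noncomputable def Pm : Measure ℝ :=
  (ENNReal.ofReal (2 * Real.pi))⁻¹ • volume.restrict (Ioc 0 (2 * Real.pi))

theorem two_pi_pos' : (0 : ℝ) < 2 * Real.pi := by positivity

instance : IsProbabilityMeasure Pm := ⟨by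
  unfold Pm
  rw [Measure.smul_apply, Measure.restrict_apply MeasurableSet.univ, univ_inter, Real.volume_Ioc,
    sub_zero, smul_eq_mul]
  exact ENNReal.inv_mul_cancel (by simpa using Real.pi_pos) ENNReal.ofReal_ne_top⟩

theorem integral_Pm {E : Type*} [NormedAddCommGroup E] [NormedSpace ℝ E] (f : ℝ → E) :
    ∫ θ, f θ ∂Pm = (2 * Real.pi)⁻¹ • ∫ θ in (0 : ℝ)..2 * Real.pi, f θ := by
  unfold Pm
  rw [integral_smul_measure, intervalIntegral.integral_of_le two_pi_pos'.le]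
  congr 1
  rw [ENNReal.toReal_inv, ENNReal.toReal_ofReal two_pi_pos'.le]

theorem integrable_Pm_iff {E : Type*} [NormedAddCommGroup E] {f : ℝ → E} :
    Integrable f Pm ↔ IntervalIntegrable f volume 0 (2 * Real.pi) := by
  unfold Pm
  rw [integrable_smul_measure (ENNReal.inv_ne_zero.2 ENNReal.ofReal_ne_top)
    (ENNReal.inv_ne_top.2 (ENNReal.ofReal_pos.2 two_pi_pos').ne'),
    intervalIntegrable_iff_integrableOn_Ioc_of_le two_pi_pos'.le]
  rfl

theorem Continuous.integrable_Pm {E : Type*} [NormedAddCommGroup E] {f : ℝ → E}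
    (hf : Continuous f) : Integrable f Pm :=
  integrable_Pm_iff.2 (hf.intervalIntegrable _ _)

/-- the characters -/
noncomputable def ex (m : ℤ) (θ : ℝ) : ℂ := exp ((m : ℂ) * θ * I)

theorem ex_cont (m : ℤ) : Continuous (ex m) := by unfold ex; fun_prop

theorem norm_ex (m : ℤ) (θ : ℝ) : ‖ex m θ‖ = 1 := by
  unfold ex
  rw [show ((m : ℂ) * θ * I) = ((m * θ : ℝ) : ℂ) * I by push_cast; ring, norm_exp_ofReal_mul_I]

theorem ex_zero (θ : ℝ) : ex 0 θ = 1 := by simp [ex]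

theorem ex_add (m n : ℤ) (θ : ℝ) : ex (m + n) θ = ex m θ * ex n θ := by
  unfold ex
  rw [← exp_add]; congr 1; push_cast; ring

theorem ex_conj (m : ℤ) (θ : ℝ) : (starRingEnd ℂ) (ex m θ) = ex (-m) θ := by
  unfold ex
  rw [← exp_conj]
  congr 1
  simp

theorem ex_mul (m : ℤ) (c : ℕ) (θ : ℝ) : ex m (c * θ) = ex (m * c) θ := by
  unfold ex
  congr 1
  push_cast
  ring

theorem ex_period (m : ℤ) (θ : ℝ) : ex m (θ + 2 * Real.pi) = ex m θ := by
  unfold ex
  have : ((m : ℂ) * ((θ + 2 * Real.pi : ℝ) : ℂ) * I) = (m : ℂ) * θ * I + m * (2 * Real.pi * I) := by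
    push_cast; ring
  rw [this, exp_add, exp_int_mul_two_pi_mul_I, mul_one]

theorem integral_ex (m : ℤ) : ∫ θ, ex m θ ∂Pm = if m = 0 then 1 else 0 := by
  rw [integral_Pm]
  split_ifs with h
  · subst h
    simp only [ex_zero, intervalIntegral.integral_const, sub_zero]
    rw [smul_smul, inv_mul_cancel₀ two_pi_pos'.ne', one_smul]
  · have h1 : ((m : ℂ) * I) ≠ 0 := mul_ne_zero (by exact_mod_cast h) I_ne_zero
    have h2 : ∀ θ : ℝ, ex m θ = exp ((m : ℂ) * I * θ) := fun θ => by unfold ex; congr 1; ring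
    simp only [h2]
    rw [integral_exp_mul_complex h1]
    have h3 : exp ((m : ℂ) * I * ((2 * Real.pi : ℝ) : ℂ)) = 1 := by
      rw [show ((m : ℂ) * I * ((2 * Real.pi : ℝ) : ℂ)) = m * (2 * Real.pi * I) by push_cast; ring,
        exp_int_mul_two_pi_mul_I]
    rw [h3]
    simp

/-- orthogonality -/
theorem sq_norm_sum {ι : Type*} (J : Finset ι) (w : ι → ℂ) (ν : ι → ℤ)
    (hν : ∀ i ∈ J, ∀ j ∈ J, ν i = ν j → i = j) :
    ∫ θ, ‖∑ j ∈ J, w j * ex (ν j) θ‖ ^ 2 ∂Pm = ∑ j ∈ J, ‖w j‖ ^ 2 := by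
  classical
  have h1 : ∀ θ : ℝ, ((‖∑ j ∈ J, w j * ex (ν j) θ‖ ^ 2 : ℝ) : ℂ) =
      ∑ i ∈ J, ∑ j ∈ J, w i * (starRingEnd ℂ) (w j) * ex (ν i - ν j) θ := by
    intro θ
    rw [← Complex.normSq_eq_norm_sq, Complex.normSq_eq_conj_mul_self, mul_comm, map_sum,
      Finset.sum_mul_sum]
    apply Finset.sum_congr rfl
    intro i _
    apply Finset.sum_congr rfl
    intro j _
    rw [map_mul, ex_conj, sub_eq_add_neg, ex_add]
    ring
  have h2 : ((∫ θ, ‖∑ j ∈ J, w j * ex (ν j) θ‖ ^ 2 ∂Pm : ℝ) : ℂ) = ∑ j ∈ J, ((‖w j‖ ^ 2 : ℝ) : ℂ) := by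
    rw [← integral_complex_ofReal]
    simp only [h1]
    rw [integral_finsetSum _ (fun i _ => Continuous.integrable_Pm (by
      have := ex_cont; fun_prop))]
    apply Finset.sum_congr rfl
    intro i hi
    rw [integral_finsetSum _ (fun j _ => Continuous.integrable_Pm (by
      have := ex_cont; fun_prop))]
    rw [Finset.sum_eq_single i]
    · rw [integral_const_mul, integral_ex, if_pos (sub_self _), mul_one, Complex.mul_conj,
        Complex.normSq_eq_norm_sq]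
    · intro j hj hji
      rw [integral_const_mul, integral_ex, if_neg, mul_zero]
      intro h
      exact hji (hν i hi j hj (sub_eq_zero.1 h)).symm
    · intro h; exact absurd hi h
  exact_mod_cast h2

/-- lacunary sums with weights -/
noncomputable def Lam (d : ℕ) (J : Finset ℕ) (w : ℕ → ℂ) (m : ℤ) (θ : ℝ) : ℂ :=
  ∑ j ∈ J, w j * ex (m * (d : ℤ) ^ j) θ

theorem Lam_cont (d : ℕ) (J : Finset ℕ) (w : ℕ → ℂ) (m : ℤ) : Continuous (Lam d J w m) := by
  unfold Lam
  have := ex_cont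
  fun_prop

theorem pow_inj' {d : ℕ} (hd : 2 ≤ d) {i j : ℕ} (h : (d : ℤ) ^ i = (d : ℤ) ^ j) : i = j := by
  have h1 : d ^ i = d ^ j := by exact_mod_cast h
  exact Nat.pow_right_injective hd h1

theorem Lam_sq {d : ℕ} (hd : 2 ≤ d) (J : Finset ℕ) (w : ℕ → ℂ) {m : ℤ} (hm : m ≠ 0) :
    ∫ θ, ‖Lam d J w m θ‖ ^ 2 ∂Pm = ∑ j ∈ J, ‖w j‖ ^ 2 := by
  unfold Lam
  apply sq_norm_sum
  intro i _ j _ h
  exact pow_inj' hd (mul_left_cancel₀ hm h)

theorem diff_inj {d : ℕ} (hd : 2 ≤ d) {i j i' j' : ℕ} (hij : i ≠ j) (hij' : i' ≠ j')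
    (h : (d : ℤ) ^ i - (d : ℤ) ^ j = (d : ℤ) ^ i' - (d : ℤ) ^ j') : i = i' ∧ j = j' := by
  -- the identity `d^i + d^j' = d^i' + d^j` in natural numbers
  have h1 : d ^ i + d ^ j' = d ^ i' + d ^ j := by
    have : ((d ^ i + d ^ j' : ℕ) : ℤ) = ((d ^ i' + d ^ j : ℕ) : ℤ) := by push_cast; linarith
    exact_mod_cast this
  have key : ∀ a b e f : ℕ, d ^ a + d ^ b = d ^ e + d ^ f → a ≤ b → e ≤ f → a = e ∧ b = f := by
    intro a b e f h2 hab hef
    have hbf : ∀ a b e f : ℕ, d ^ a + d ^ b = d ^ e + d ^ f → a ≤ b → e ≤ f → ¬ b < f := by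
      intro a b e f h2 hab hef hlt
      have h3 : d ^ a + d ^ b ≤ 2 * d ^ b := by
        have := Nat.pow_le_pow_right (by omega : 0 < d) hab
        omega
      have h4 : 2 * d ^ b ≤ d ^ f := by
        obtain ⟨g, rfl⟩ := Nat.exists_eq_add_of_lt hlt
        calc 2 * d ^ b ≤ d * d ^ b := Nat.mul_le_mul_right _ hd
          _ = d ^ (b + 1) := by rw [pow_succ, mul_comm]
          _ ≤ d ^ (b + g + 1) := Nat.pow_le_pow_right (by omega) (by omega)
      have h5 : 1 ≤ d ^ e := Nat.one_le_pow _ _ (by omega)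
      omega
    have hb : b = f := by
      rcases lt_trichotomy b f with hlt | heq | hgt
      · exact absurd hlt (hbf a b e f h2 hab hef)
      · exact heq
      · exact absurd hgt (hbf e f a b h2.symm hef hab)
    subst hb
    refine ⟨?_, rfl⟩
    have : d ^ a = d ^ e := by omega
    exact Nat.pow_right_injective hd this
  rcases le_total i j' with h2 | h2 <;> rcases le_total i' j with h3 | h3
  · obtain ⟨e1, e2⟩ := key i j' i' j h1 h2 h3
    exact ⟨e1, e2.symm⟩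
  · obtain ⟨e1, e2⟩ := key i j' j i' (by rw [h1, add_comm]) h2 h3
    exact absurd e1 hij
  · obtain ⟨e1, e2⟩ := key j' i i' j (by rw [add_comm, h1]) h2 h3
    exact absurd e1.symm hij'
  · obtain ⟨e1, e2⟩ := key j' i j i' (by rw [add_comm, h1, add_comm]) h2 h3
    exact ⟨e2, e1.symm⟩

/-- fourth moment -/
theorem Lam_four {d : ℕ} (hd : 2 ≤ d) (J : Finset ℕ) (w : ℕ → ℂ) (hw : ∀ j ∈ J, ‖w j‖ ≤ 1) {m : ℤ}
    (hm : m ≠ 0) : ∫ θ, ‖Lam d J w m θ‖ ^ 4 ∂Pm ≤ 4 * (J.card : ℝ) ^ 2 := by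
  classical
  set c : ℝ := ∑ j ∈ J, ‖w j‖ ^ 2 with hc
  have hc1 : c ≤ J.card := by
    rw [hc]
    refine (Finset.sum_le_sum (fun j hj => pow_le_one₀ (n := 2) (norm_nonneg _) (hw j hj))).trans ?_
    simp
  have hc0 : 0 ≤ c := Finset.sum_nonneg fun _ _ => by positivity
  -- off-diagonal part
  set OD : ℝ → ℂ := fun θ => ∑ p ∈ J.offDiag, (w p.1 * (starRingEnd ℂ) (w p.2)) *
    ex (m * ((d : ℤ) ^ p.1 - (d : ℤ) ^ p.2)) θ with hOD
  have h1 : ∀ θ, ((‖Lam d J w m θ‖ ^ 2 : ℝ) : ℂ) = c + OD θ := by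
    intro θ
    rw [← Complex.normSq_eq_norm_sq, Complex.normSq_eq_conj_mul_self, mul_comm]
    unfold Lam
    rw [map_sum, Finset.sum_mul_sum, ← Finset.sum_product', ← Finset.diag_union_offDiag,
      Finset.sum_union (Finset.disjoint_diag_offDiag J)]
    congr 1
    · rw [Finset.sum_diag, hc]
      push_cast
      apply Finset.sum_congr rfl
      intro j _
      rw [map_mul, ex_conj, mul_mul_mul_comm, ← ex_add, add_neg_cancel, ex_zero, mul_one,
        Complex.mul_conj, Complex.normSq_eq_norm_sq]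
      push_cast
      rfl
    · rw [hOD]
      apply Finset.sum_congr rfl
      intro p _
      rw [map_mul, ex_conj, mul_mul_mul_comm, ← ex_add]
      congr 2
      ring
  have hODc : Continuous OD := by
    rw [hOD]
    have := ex_cont
    fun_prop
  have h2 : ∫ θ, ‖OD θ‖ ^ 2 ∂Pm ≤ (J.card : ℝ) ^ 2 := by
    rw [hOD]
    rw [sq_norm_sum]
    · have h3 : ∀ p ∈ J.offDiag, ‖w p.1 * (starRingEnd ℂ) (w p.2)‖ ^ 2 ≤ 1 := by
        intro p hp
        rw [Finset.mem_offDiag] at hp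
        rw [norm_mul, Complex.norm_conj]
        apply pow_le_one₀ (by positivity)
        exact mul_le_one₀ (hw _ hp.1) (norm_nonneg _) (hw _ hp.2.1)
      refine (Finset.sum_le_sum h3).trans ?_
      rw [Finset.sum_const, nsmul_eq_mul, mul_one, Finset.offDiag_card]
      have : (J.card * J.card - J.card : ℕ) ≤ J.card ^ 2 := by
        rw [sq]; omega
      exact_mod_cast this
    · intro p hp q hq h
      rw [Finset.mem_offDiag] at hp hq
      obtain ⟨e1, e2⟩ := diff_inj hd hp.2.2 hq.2.2 (mul_left_cancel₀ hm h)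
      exact Prod.ext e1 e2
  have h3 : ∀ θ, ‖Lam d J w m θ‖ ^ 4 ≤ 2 * c ^ 2 + 2 * ‖OD θ‖ ^ 2 := by
    intro θ
    have h4 : ‖Lam d J w m θ‖ ^ 2 ≤ c + ‖OD θ‖ := by
      have h5 := congrArg norm (h1 θ)
      rw [Complex.norm_real, Real.norm_of_nonneg (by positivity)] at h5
      rw [h5]
      refine (norm_add_le _ _).trans ?_
      rw [Complex.norm_real, Real.norm_of_nonneg hc0]
    have h5 : ‖Lam d J w m θ‖ ^ 4 = (‖Lam d J w m θ‖ ^ 2) ^ 2 := by ring
    rw [h5]
    have h6 : (‖Lam d J w m θ‖ ^ 2) ^ 2 ≤ (c + ‖OD θ‖) ^ 2 := pow_le_pow_left₀ (by positivity) h4 2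
    nlinarith [sq_nonneg (c - ‖OD θ‖)]
  have h4 : ∫ θ, ‖Lam d J w m θ‖ ^ 4 ∂Pm ≤ ∫ θ, (2 * c ^ 2 + 2 * ‖OD θ‖ ^ 2) ∂Pm := by
    apply integral_mono
    · exact Continuous.integrable_Pm ((Lam_cont d J w m).norm.pow 4)
    · exact Continuous.integrable_Pm (by fun_prop)
    · exact h3
  refine h4.trans ?_
  rw [integral_add (integrable_const _) (Continuous.integrable_Pm (by fun_prop)), integral_const,
    integral_const_mul]
  simp only [probReal_univ, one_smul]
  nlinarith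

/-- first moments are bounded by second moments -/
theorem av_norm_le {f : ℝ → ℂ} (hf : Continuous f) {A : ℝ} (hA : 0 ≤ A)
    (h : ∫ θ, ‖f θ‖ ^ 2 ∂Pm ≤ A ^ 2) : ∫ θ, ‖f θ‖ ∂Pm ≤ A := by
  have key : ∀ c : ℝ, 0 < c → ∫ θ, ‖f θ‖ ∂Pm ≤ c / 2 + A ^ 2 / (2 * c) := by
    intro c hc
    have h1 : ∀ θ, ‖f θ‖ ≤ c / 2 + ‖f θ‖ ^ 2 / (2 * c) := by
      intro θ
      rw [div_add_div _ _ two_ne_zero (by positivity), le_div_iff₀ (by positivity)]
      nlinarith [sq_nonneg (c - ‖f θ‖)]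
    have h2 : ∫ θ, ‖f θ‖ ∂Pm ≤ ∫ θ, (c / 2 + ‖f θ‖ ^ 2 / (2 * c)) ∂Pm := by
      apply integral_mono
      · exact Continuous.integrable_Pm hf.norm
      · exact Continuous.integrable_Pm (by fun_prop)
      · exact h1
    refine h2.trans ?_
    rw [integral_add (integrable_const _) (Continuous.integrable_Pm (by fun_prop)), integral_const,
      integral_div]
    simp only [probReal_univ, one_smul]
    gcongr
  rcases hA.lt_or_eq with h0 | h0
  · have := key A h0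
    have h3 : A / 2 + A ^ 2 / (2 * A) = A := by field_simp; ring
    linarith
  · rw [← h0] at key ⊢
    apply le_of_forall_pos_le_add
    intro ε hε
    have := key ε hε
    simp at this
    linarith

/-- trigonometric polynomials with mean value zero, along powers -/
theorem lln {d : ℕ} (hd : 2 ≤ d) {ι : Type*} (S : Finset ι) (c : ι → ℂ) (m : ι → ℤ) (J : Finset ℕ) :
    ∫ θ, |∑ j ∈ J, (∑ s ∈ S, c s * ex (m s) (((d ^ j : ℕ) : ℝ) * θ)).re -
      J.card * (∫ θ, (∑ s ∈ S, c s * ex (m s) θ).re ∂Pm)| ∂Pm ≤ (∑ s ∈ S, ‖c s‖) * √J.card := by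
  classical
  have h0 : (∫ θ, (∑ s ∈ S, c s * ex (m s) θ).re ∂Pm) =
      (∑ s ∈ S.filter (fun s => m s = 0), c s).re := by
    have h1 : (∫ θ, (∑ s ∈ S, c s * ex (m s) θ).re ∂Pm) =
        (∫ θ, (∑ s ∈ S, c s * ex (m s) θ) ∂Pm).re := by
      have := ex_cont
      have h2 := integral_re (𝕜 := ℂ) (μ := Pm) (f := fun θ => ∑ s ∈ S, c s * ex (m s) θ)
        (Continuous.integrable_Pm (by fun_prop))
      exact h2
    rw [h1, integral_finsetSum _ (fun i _ => Continuous.integrable_Pm (by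
      have := ex_cont; fun_prop)), Finset.sum_filter]
    congr 1
    apply Finset.sum_congr rfl
    intro s _
    rw [integral_const_mul, integral_ex]
    split_ifs <;> simp
  have h1 : ∀ θ, ∑ j ∈ J, (∑ s ∈ S, c s * ex (m s) (((d ^ j : ℕ) : ℝ) * θ)).re -
      J.card * (∑ s ∈ S.filter (fun s => m s = 0), c s).re =
      (∑ s ∈ S.filter (fun s => ¬ m s = 0), c s * Lam d J (fun _ => 1) (m s) θ).re := by
    intro θ
    have h2 : (∑ s ∈ S.filter (fun s => ¬ m s = 0), c s * Lam d J (fun _ => 1) (m s) θ) =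
        ∑ j ∈ J, (∑ s ∈ S, c s * ex (m s) (((d ^ j : ℕ) : ℝ) * θ) -
          ∑ s ∈ S.filter (fun s => m s = 0), c s) := by
      unfold Lam
      simp only [Finset.mul_sum, one_mul]
      rw [Finset.sum_comm]
      apply Finset.sum_congr rfl
      intro j _
      rw [eq_sub_iff_add_eq, ← Finset.sum_filter_add_sum_filter_not S (fun s => m s = 0)
        (fun s => c s * ex (m s) (((d ^ j : ℕ) : ℝ) * θ)), add_comm]
      congr 1
      · apply Finset.sum_congr rfl
        intro s hs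
        rw [(Finset.mem_filter.1 hs).2, ex_zero, mul_one]
      · apply Finset.sum_congr rfl
        intro s _
        rw [ex_mul]
        push_cast
        rfl
    rw [h2, Finset.sum_sub_distrib, Finset.sum_const, sub_re, re_sum, nsmul_eq_mul, mul_re]
    simp
  rw [h0]
  have h2 : ∀ θ, |∑ j ∈ J, (∑ s ∈ S, c s * ex (m s) (((d ^ j : ℕ) : ℝ) * θ)).re -
      J.card * (∑ s ∈ S.filter (fun s => m s = 0), c s).re| ≤
      ∑ s ∈ S.filter (fun s => ¬ m s = 0), ‖c s‖ * ‖Lam d J (fun _ => 1) (m s) θ‖ := by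
    intro θ
    rw [h1]
    refine (abs_re_le_norm _).trans ((norm_sum_le _ _).trans (le_of_eq ?_))
    simp only [norm_mul]
  have h3 : ∫ θ, |∑ j ∈ J, (∑ s ∈ S, c s * ex (m s) (((d ^ j : ℕ) : ℝ) * θ)).re -
      J.card * (∑ s ∈ S.filter (fun s => m s = 0), c s).re| ∂Pm ≤
      ∫ θ, ∑ s ∈ S.filter (fun s => ¬ m s = 0), ‖c s‖ * ‖Lam d J (fun _ => 1) (m s) θ‖ ∂Pm := by
    apply integral_mono
    · apply Continuous.integrable_Pm
      have := ex_cont
      have h4 : Continuous fun θ : ℝ => ∑ j ∈ J, (∑ s ∈ S, c s * ex (m s) (((d ^ j : ℕ) : ℝ) * θ)).re := by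
        apply continuous_finsetSum
        intro j _
        apply continuous_re.comp
        fun_prop
      exact (h4.sub continuous_const).abs
    · apply Continuous.integrable_Pm
      have := Lam_cont d J (fun _ => 1)
      fun_prop
    · exact h2
  refine h3.trans ?_
  rw [integral_finsetSum _ (fun i _ => Continuous.integrable_Pm (by
    have := Lam_cont d J (fun _ => 1); fun_prop))]
  rw [Finset.sum_mul]
  refine le_trans ?_ (Finset.sum_le_sum_of_subset_of_nonneg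
    (Finset.filter_subset (fun s => ¬ m s = 0) S) (fun _ _ _ => by positivity))
  apply Finset.sum_le_sum
  intro s hs
  rw [integral_const_mul]
  apply mul_le_mul_of_nonneg_left _ (norm_nonneg _)
  apply av_norm_le (Lam_cont _ _ _ _) (Real.sqrt_nonneg _)
  rw [Lam_sq hd _ _ (Finset.mem_filter.1 hs).2, Real.sq_sqrt (Nat.cast_nonneg _)]
  simp

/-- **cells** -/
theorem cell {φ G : ℝ → ℂ} (hφ : Continuous φ) (hG : Continuous G) {D : ℕ} (hD : 0 < D)
    (hper : Function.Periodic G (2 * Real.pi / D)) {ω : ℝ}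
    (hω : ∀ x ∈ Icc 0 (2 * Real.pi), ∀ y ∈ Icc 0 (2 * Real.pi), |x - y| ≤ 2 * Real.pi / D →
      ‖φ x - φ y‖ ≤ ω) :
    ‖∫ θ, φ θ * G θ ∂Pm - (∫ θ, G θ ∂Pm) * ∫ θ, φ θ ∂Pm‖ ≤ 2 * ω * ∫ θ, ‖G θ‖ ∂Pm := by
  have hD0 : (0 : ℝ) < D := by exact_mod_cast hD
  set p : ℝ := 2 * Real.pi / D with hp
  have hp0 : 0 < p := by positivity
  have hDp : D * p = 2 * Real.pi := by rw [hp]; field_simp
  have hsum : ∀ f : ℝ → ℂ, Continuous f → ∫ θ in (0 : ℝ)..2 * Real.pi, f θ =
      ∑ m ∈ Finset.range D, ∫ θ in (m * p)..((m + 1 : ℕ) * p), f θ := by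
    intro f hf
    rw [intervalIntegral.sum_integral_adjacent_intervals (a := fun m : ℕ => (m : ℝ) * p)
      (fun k _ => hf.intervalIntegrable _ _)]
    simp [hDp]
  have hsumR : ∀ f : ℝ → ℝ, Continuous f → ∫ θ in (0 : ℝ)..2 * Real.pi, f θ =
      ∑ m ∈ Finset.range D, ∫ θ in (m * p)..((m + 1 : ℕ) * p), f θ := by
    intro f hf
    rw [intervalIntegral.sum_integral_adjacent_intervals (a := fun m : ℕ => (m : ℝ) * p)
      (fun k _ => hf.intervalIntegrable _ _)]
    simp [hDp]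
  set μ : ℂ := ∫ θ, G θ ∂Pm with hμ
  have hGc : ∀ m : ℕ, ∫ θ in (m * p)..((m + 1 : ℕ) * p), G θ = p * μ := by
    intro m
    have h1 : ∀ m : ℕ, ∫ θ in (m * p)..((m + 1 : ℕ) * p), G θ = ∫ θ in (0 : ℝ)..p, G θ := by
      intro m
      have := hper.intervalIntegral_add_eq (m * p) 0
      rw [zero_add] at this
      rw [← this]
      congr 1
      push_cast; ring
    rw [h1, hμ, integral_Pm, hsum G hG]
    simp only [h1]
    rw [Finset.sum_const, Finset.card_range, nsmul_eq_mul, Complex.real_smul, ← hDp]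
    push_cast
    have e1 : (D : ℂ) ≠ 0 := by exact_mod_cast hD0.ne'
    have e2 : (p : ℂ) ≠ 0 := by exact_mod_cast hp0.ne'
    field_simp
  have hcell : ∀ m ∈ Finset.range D, ‖(∫ θ in (m * p)..((m + 1 : ℕ) * p), φ θ * G θ) -
      μ * ∫ θ in (m * p)..((m + 1 : ℕ) * p), φ θ‖ ≤
      ω * (∫ θ in (m * p)..((m + 1 : ℕ) * p), ‖G θ‖) + ω * ‖μ‖ * p := by
    intro m hm
    have hm' := Finset.mem_range.1 hm
    have hmp : (m : ℝ) * p ≤ ((m + 1 : ℕ) : ℝ) * p := by push_cast; nlinarith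
    have hm1 : ((m + 1 : ℕ) : ℝ) * p ≤ 2 * Real.pi := by
      rw [← hDp]
      apply mul_le_mul_of_nonneg_right _ hp0.le
      exact_mod_cast hm'
    have hin : ∀ θ ∈ Ioc ((m : ℝ) * p) (((m + 1 : ℕ) : ℝ) * p), ‖φ θ - φ (m * p)‖ ≤ ω := by
      intro θ hθ
      have h0 : 0 ≤ (m : ℝ) * p := by positivity
      apply hω _ ⟨by linarith [hθ.1], by linarith [hθ.2]⟩ _ ⟨h0, by linarith⟩
      rw [abs_of_nonneg (by linarith [hθ.1])]
      have := hθ.2
      push_cast at this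
      linarith
    have h1 : (∫ θ in (m * p)..((m + 1 : ℕ) * p), φ θ * G θ) -
        μ * ∫ θ in (m * p)..((m + 1 : ℕ) * p), φ θ =
        (∫ θ in (m * p)..((m + 1 : ℕ) * p), (φ θ - φ (m * p)) * G θ) -
        μ * ∫ θ in (m * p)..((m + 1 : ℕ) * p), (φ θ - φ (m * p)) := by
      have e1 : (∫ θ in (m * p)..((m + 1 : ℕ) * p), (φ θ - φ (m * p)) * G θ) =
          (∫ θ in (m * p)..((m + 1 : ℕ) * p), φ θ * G θ) - φ (m * p) * (p * μ) := by
        rw [← hGc m, ← intervalIntegral.integral_const_mul, ← intervalIntegral.integral_sub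
          (Continuous.intervalIntegrable (by fun_prop) _ _)
          (Continuous.intervalIntegrable (by fun_prop) _ _)]
        congr 1
        funext θ
        ring
      have e2 : (∫ θ in (m * p)..((m + 1 : ℕ) * p), (φ θ - φ (m * p))) =
          (∫ θ in (m * p)..((m + 1 : ℕ) * p), φ θ) - p * φ (m * p) := by
        rw [intervalIntegral.integral_sub (hφ.intervalIntegrable _ _)
          (continuous_const.intervalIntegrable _ _), intervalIntegral.integral_const]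
        congr 1
        rw [Complex.real_smul]
        push_cast; ring
      rw [e1, e2]
      ring
    rw [h1]
    refine (norm_sub_le _ _).trans (add_le_add ?_ ?_)
    · rw [← intervalIntegral.integral_const_mul]
      apply intervalIntegral.norm_integral_le_of_norm_le hmp _
        (Continuous.intervalIntegrable (by fun_prop) _ _)
      refine Filter.Eventually.of_forall fun θ hθ => ?_
      rw [norm_mul]
      exact mul_le_mul_of_nonneg_right (hin θ hθ) (norm_nonneg _)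
    · rw [norm_mul]
      have h2 : ‖∫ θ in (m * p)..((m + 1 : ℕ) * p), (φ θ - φ (m * p))‖ ≤
          ω * |((m + 1 : ℕ) : ℝ) * p - m * p| := by
        apply intervalIntegral.norm_integral_le_of_norm_le_const
        intro θ hθ
        rw [uIoc_of_le hmp] at hθ
        exact hin θ hθ
      have h3 : |((m + 1 : ℕ) : ℝ) * p - m * p| = p := by
        rw [abs_of_nonneg (by linarith)]
        push_cast; ring
      rw [h3] at h2
      calc ‖μ‖ * ‖∫ θ in (m * p)..((m + 1 : ℕ) * p), (φ θ - φ (m * p))‖ ≤ ‖μ‖ * (ω * p) :=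
            mul_le_mul_of_nonneg_left h2 (norm_nonneg _)
        _ = ω * ‖μ‖ * p := by ring
  have hω0 : 0 ≤ ω := by
    have := hω 0 ⟨le_rfl, two_pi_pos'.le⟩ 0 ⟨le_rfl, two_pi_pos'.le⟩ (by simp [hp0.le])
    simpa using this
  have h1 : ∫ θ, φ θ * G θ ∂Pm - μ * ∫ θ, φ θ ∂Pm = ((2 * Real.pi)⁻¹ : ℝ) •
      ∑ m ∈ Finset.range D, ((∫ θ in (m * p)..((m + 1 : ℕ) * p), φ θ * G θ) -
        μ * ∫ θ in (m * p)..((m + 1 : ℕ) * p), φ θ) := by
    rw [integral_Pm, integral_Pm, hsum (fun θ => φ θ * G θ) (hφ.mul hG), hsum _ hφ, Finset.sum_sub_distrib,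
      ← Finset.mul_sum, smul_sub, mul_smul_comm]
  rw [h1, norm_smul, Real.norm_of_nonneg (by positivity)]
  have h2 := (norm_sum_le (Finset.range D) (fun m : ℕ => (∫ θ in (m * p)..((m + 1 : ℕ) * p), φ θ * G θ) -
        μ * ∫ θ in (m * p)..((m + 1 : ℕ) * p), φ θ)).trans (Finset.sum_le_sum hcell)
  rw [Finset.sum_add_distrib, ← Finset.mul_sum, ← hsumR _ hG.norm, Finset.sum_const,
    Finset.card_range, nsmul_eq_mul] at h2
  have h3 : ‖μ‖ ≤ ∫ θ, ‖G θ‖ ∂Pm := norm_integral_le_integral_norm _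
  have h4 : ∫ θ, ‖G θ‖ ∂Pm = (2 * Real.pi)⁻¹ * ∫ θ in (0 : ℝ)..2 * Real.pi, ‖G θ‖ := by
    rw [integral_Pm, smul_eq_mul]
  have h5 : (2 * Real.pi)⁻¹ * (D * (ω * ‖μ‖ * p)) = ω * ‖μ‖ := by
    rw [← hDp]; field_simp
  calc _ ≤ (2 * Real.pi)⁻¹ * (ω * (∫ θ in (0 : ℝ)..2 * Real.pi, ‖G θ‖) + D * (ω * ‖μ‖ * p)) :=
        mul_le_mul_of_nonneg_left h2 (by positivity)
    _ = ω * (∫ θ, ‖G θ‖ ∂Pm) + ω * ‖μ‖ := by rw [mul_add, h5, h4]; ring
    _ ≤ _ := by nlinarith [mul_le_mul_of_nonneg_left h3 hω0]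

end Pool.Agent.H439.MC
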