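import Mathlib
import Pool.Graph.R_pool_sql_team_seeded_ab47071d.TH653.MB.A7

/-!
# The critical orbit of `z ^ d + c` outside of the Multibrot set: lower bounds
-/

set_option autoImplicit false

namespace Pool.Agent.H439.MC

open Complex Set Topology Filter Metric MeasureTheory N62a1eb23 Pool.Agent.H712R2
  Pool.Agent.H713R2 Pool.Agent.TH653.MB

variable {d : ℕ} {β : ℂ → ℂ}

theorem root_mem (hd : 2 ≤ d) {i : ℕ} {c : ℂ} (hc : c ∈ (PP d (i + 1)).roots) :
    c ∈ multibrotSet d := by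
  by_contra h
  obtain ⟨m0, hm⟩ := exists_escape hd h
  have h0 := roots_P hc
  have hper : ∀ k : ℕ, P d ((k + 1) * (i + 1)) c = 0 := by
    intro k
    induction k with
    | zero => rw [zero_add, one_mul]; exact h0
    | succ k ih =>
      have h1 := P_periodic h0 ((k + 1) * (i + 1))
      rw [show (k + 1 + 1) * (i + 1) = i + 1 + (k + 1) * (i + 1) by ring, h1]
      exact ih
  obtain ⟨j, hj⟩ : ∃ j, m0 + j + 1 = (m0 + 1) * (i + 1) := by
    refine ⟨(m0 + 1) * (i + 1) - (m0 + 1), ?_⟩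
    have : m0 + 1 ≤ (m0 + 1) * (i + 1) := Nat.le_mul_of_pos_right _ (by omega)
    omega
  have h2 := hm j
  rw [hj, hper m0, norm_zero] at h2
  have : (0 : ℝ) < 2 ^ (d ^ j) := by positivity
  linarith

theorem BB_ne (hd : 2 ≤ d) (hβ : IsBeta d β) (i : ℕ) {x : ℂ} (hx : x ∈ ball (0 : ℂ) 1) :
    BB d β i x ≠ 0 := by
  rw [BB_prod hd hβ i x]
  apply Multiset.prod_ne_zero
  intro h
  obtain ⟨w, hw, h1⟩ := Multiset.mem_map.1 h
  exact hh_ne hβ (root_mem hd hw) hx h1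

theorem pow_sub_pow_norm (u v : ℂ) {R : ℝ} (hu : ‖u‖ ≤ R) (hv : ‖v‖ ≤ R) (n : ℕ) :
    ‖u ^ n - v ^ n‖ ≤ n * R ^ (n - 1) * ‖u - v‖ := by
  have hR : 0 ≤ R := (norm_nonneg u).trans hu
  induction n with
  | zero => simp
  | succ n ih =>
    have h1 : u ^ (n + 1) - v ^ (n + 1) = (u ^ n - v ^ n) * u + v ^ n * (u - v) := by ring
    rw [h1, Nat.add_sub_cancel]
    refine (norm_add_le _ _).trans ?_
    rw [norm_mul, norm_mul, norm_pow]
    have h2 : ‖v‖ ^ n ≤ R ^ n := pow_le_pow_left₀ (norm_nonneg v) hv n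
    have h3 : ‖u ^ n - v ^ n‖ * ‖u‖ ≤ n * R ^ n * ‖u - v‖ := by
      rcases Nat.eq_zero_or_pos n with h0 | h0
      · subst h0; simp
      · calc ‖u ^ n - v ^ n‖ * ‖u‖ ≤ (n * R ^ (n - 1) * ‖u - v‖) * R := by
              apply mul_le_mul ih hu (norm_nonneg _) (by positivity)
          _ = n * (R ^ (n - 1) * R) * ‖u - v‖ := by ring
          _ = n * R ^ n * ‖u - v‖ := by rw [← pow_succ, Nat.sub_add_cancel h0]
    have h4 : ‖v‖ ^ n * ‖u - v‖ ≤ R ^ n * ‖u - v‖ := by gcongr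
    push_cast
    nlinarith [h3, h4]

/-- the expansion constant -/
noncomputable def LC (d : ℕ) : ℝ := d * (2 * Real.exp d) ^ (d - 1)

theorem LC_ge (hd : 2 ≤ d) : Real.exp d ≤ LC d := by
  unfold LC
  have h1 : (1 : ℝ) ≤ 2 * Real.exp d := by
    have := Real.add_one_le_exp (d : ℝ)
    have : (0 : ℝ) ≤ d := Nat.cast_nonneg d
    linarith
  have h2 : 2 * Real.exp d ≤ (2 * Real.exp d) ^ (d - 1) := by
    calc 2 * Real.exp d = (2 * Real.exp d) ^ 1 := (pow_one _).symm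
      _ ≤ (2 * Real.exp d) ^ (d - 1) := pow_le_pow_right₀ h1 (by omega)
  have h3 : (1 : ℝ) ≤ d := by exact_mod_cast (by omega : 1 ≤ d)
  have h4 := Real.exp_pos (d : ℝ)
  nlinarith

theorem norm_P_eq (hd : 2 ≤ d) (n : ℕ) {x : ℂ} (hx0 : x ≠ 0) :
    ‖BB d β n x‖ = ‖x‖ ^ (d ^ n) * ‖P d (n + 1) (x⁻¹ * β x)‖ := by
  rw [BB_eq hd β n x hx0, norm_mul, norm_pow]

/-- Lower bound for `BB` near the circle: with `‖x‖ = exp (-t / d ^ (i + a + 1))`. -/
theorem BB_lower (hd : 2 ≤ d) (hβ : IsBeta d β) (i a : ℕ) {x : ℂ} {t : ℝ} (ht1 : 1 ≤ t)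
    (htd : t ≤ d) (hx : ‖x‖ = Real.exp (-(t / (d : ℝ) ^ (i + a + 1)))) :
    (LC d ^ (a + 2))⁻¹ ≤ ‖BB d β i x‖ ^ d := by
  have hd0 : (0 : ℝ) < d := by exact_mod_cast (by omega : 0 < d)
  have hd2 : (2 : ℝ) ≤ d := by exact_mod_cast hd
  have hd1 : (1 : ℝ) ≤ d := by linarith
  have ht0 : 0 < t := by linarith
  have hxn : 0 < ‖x‖ := by rw [hx]; exact Real.exp_pos _
  have hx0 : x ≠ 0 := norm_pos_iff.1 hxn
  have hx1 : ‖x‖ < 1 := by
    rw [hx, Real.exp_lt_one_iff]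
    have : 0 < t / (d : ℝ) ^ (i + a + 1) := by positivity
    linarith
  have hxb : x ∈ ball (0 : ℂ) 1 := mem_ball_zero_iff.2 hx1
  set c : ℂ := x⁻¹ * β x with hc
  -- powers of the modulus
  have hpow : ∀ m : ℕ, ‖x‖ ^ (d ^ m) = Real.exp (-(t * (d : ℝ) ^ m / (d : ℝ) ^ (i + a + 1))) := by
    intro m
    rw [hx, ← Real.exp_nat_mul]
    congr 1
    push_cast
    ring
  have hPn : ∀ m : ℕ, ‖P d (m + 1) c‖ =
      Real.exp (t * (d : ℝ) ^ m / (d : ℝ) ^ (i + a + 1)) * ‖BB d β m x‖ := by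
    intro m
    rw [norm_P_eq hd m hx0, hpow m, ← mul_assoc, ← Real.exp_add, add_neg_cancel, Real.exp_zero,
      one_mul]
  -- upper bounds
  have hup : ∀ m : ℕ, m ≤ i + a + 1 → ‖P d (m + 1) c‖ ≤ 2 * Real.exp d := by
    intro m hm
    rw [hPn m]
    have h1 := AR.BB_le_two hd hβ m hxb
    have h2 : t * (d : ℝ) ^ m / (d : ℝ) ^ (i + a + 1) ≤ d := by
      rw [div_le_iff₀ (by positivity)]
      have h3 : (d : ℝ) ^ m ≤ (d : ℝ) ^ (i + a + 1) := pow_le_pow_right₀ hd1 hm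
      exact mul_le_mul htd h3 (by positivity) hd0.le
    calc Real.exp (t * (d : ℝ) ^ m / (d : ℝ) ^ (i + a + 1)) * ‖BB d β m x‖
        ≤ Real.exp d * 2 := by
          apply mul_le_mul (Real.exp_le_exp.2 h2) h1 (norm_nonneg _) (Real.exp_pos _).le
      _ = 2 * Real.exp d := by ring
  have hup0 : ∀ m : ℕ, m ≤ i + a + 2 → ‖P d m c‖ ≤ 2 * Real.exp d := by
    intro m hm
    rcases Nat.eq_zero_or_pos m with h0 | h0
    · subst h0; rw [P_zero, norm_zero]; positivity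
    · obtain ⟨m', rfl⟩ := Nat.exists_eq_add_of_le' h0
      exact hup m' (by omega)
  -- the two orbits
  set z : ℂ := P d (i + 1) c with hz
  have hL0 : 0 < LC d := (Real.exp_pos _).trans_le (LC_ge hd)
  have hstep : ∀ j : ℕ, j ≤ a + 1 →
      ‖P d (i + 1 + (j + 1)) c - P d (j + 1) c‖ ≤ LC d ^ j * ‖z‖ ^ d := by
    intro j
    induction j with
    | zero =>
      intro _
      rw [zero_add, pow_zero, one_mul, P_succ d (i + 1) c, show (1 : ℕ) = 0 + 1 from rfl,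
        P_succ d 0 c, P_zero, zero_pow (by omega),
        show P d (i + (0 + 1)) c ^ d + c - (0 + c) = P d (i + (0 + 1)) c ^ d by ring, norm_pow]
    | succ j ih =>
      intro hj
      have ih' := ih (by omega)
      rw [show i + 1 + (j + 1 + 1) = (i + 1 + (j + 1)) + 1 by ring, P_succ, P_succ d (j + 1),
        add_sub_add_right_eq_sub]
      refine (pow_sub_pow_norm _ _ (R := 2 * Real.exp d) (hup0 _ (by omega)) (hup0 _ (by omega)) d).trans ?_
      calc (d : ℝ) * (2 * Real.exp d) ^ (d - 1) * ‖P d (i + 1 + (j + 1)) c - P d (j + 1) c‖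
          ≤ LC d * (LC d ^ j * ‖z‖ ^ d) := by
            apply mul_le_mul_of_nonneg_left ih' hL0.le
        _ = LC d ^ (j + 1) * ‖z‖ ^ d := by ring
  have hfin := hstep (a + 1) le_rfl
  -- the orbit of `z` is large
  have hbig : Real.exp (t * d) * (9 / 10) ≤ ‖P d (i + 1 + (a + 1 + 1)) c‖ := by
    rw [show i + 1 + (a + 1 + 1) = (i + a + 2) + 1 by ring, hPn]
    have h1 : t * (d : ℝ) ^ (i + a + 2) / (d : ℝ) ^ (i + a + 1) = t * d := by
      rw [show i + a + 2 = (i + a + 1) + 1 by ring, pow_succ]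
      field_simp
    rw [h1]
    apply mul_le_mul_of_nonneg_left _ (Real.exp_pos _).le
    have h2 := BB_sub_one_le hd hβ (i + a + 2) hxb
    have h3 : ‖x‖ ^ (d ^ (i + a + 2 + 1) - 1) ≤ Real.exp (-(7 / 2)) := by
      have h4 : 1 ≤ d ^ (i + a + 2 + 1) := Nat.one_le_pow _ _ (by omega)
      rw [hx, ← Real.exp_nat_mul]
      apply Real.exp_le_exp.2
      rw [Nat.cast_sub h4]
      push_cast
      have h5 : (0 : ℝ) < (d : ℝ) ^ (i + a + 1) := by positivity
      have h6 : ((d : ℝ) ^ (i + a + 2 + 1) - 1) * -(t / (d : ℝ) ^ (i + a + 1)) =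
          -(t * ((d : ℝ) ^ 2 - 1 / (d : ℝ) ^ (i + a + 1))) := by
        rw [show i + a + 2 + 1 = (i + a + 1) + 2 by ring, pow_add]
        field_simp
      rw [h6]
      have h7 : 1 / (d : ℝ) ^ (i + a + 1) ≤ 1 / 2 := by
        apply one_div_le_one_div_of_le (by norm_num)
        calc (2 : ℝ) ≤ d := hd2
          _ = (d : ℝ) ^ 1 := (pow_one _).symm
          _ ≤ (d : ℝ) ^ (i + a + 1) := pow_le_pow_right₀ hd1 (by omega)
      have h8 : (4 : ℝ) ≤ (d : ℝ) ^ 2 := by nlinarith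
      nlinarith
    have h4 : Real.exp (-(7 / 2)) ≤ 1 / 33 := by
      rw [Real.exp_neg, one_div]
      apply inv_anti₀ (by norm_num)
      have h5 := Real.exp_one_gt_d9
      have h6 : Real.exp (7 / 2) = Real.exp 1 * Real.exp 1 * Real.exp 1 * Real.exp (1 / 2) := by
        rw [← Real.exp_add, ← Real.exp_add, ← Real.exp_add]; norm_num
      have h7 := Real.add_one_le_exp (1 / 2 : ℝ)
      rw [h6]
      have h8 : (20 : ℝ) ≤ Real.exp 1 * Real.exp 1 * Real.exp 1 := by nlinarith [mul_pos (Real.exp_pos 1) (Real.exp_pos 1)]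
      have h9 : Real.exp (1/2) * Real.exp (1/2) = Real.exp 1 := by rw [← Real.exp_add]; norm_num
      have h10 : (33/20 : ℝ) ≤ Real.exp (1/2) * 1.01 := by nlinarith
      nlinarith
    have h5 : ‖(1 : ℂ)‖ - ‖BB d β (i + a + 2) x‖ ≤ ‖1 - BB d β (i + a + 2) x‖ := norm_sub_norm_le _ _
    rw [norm_one, norm_sub_rev] at h5
    linarith
  -- the critical orbit is smaller
  have hsmall : ‖P d (a + 1 + 1) c‖ ≤ 2 * Real.exp t := by
    rw [hPn]
    have h1 := AR.BB_le_two hd hβ (a + 1) hxb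
    have h2 : t * (d : ℝ) ^ (a + 1) / (d : ℝ) ^ (i + a + 1) ≤ t := by
      rw [div_le_iff₀ (by positivity)]
      apply mul_le_mul_of_nonneg_left _ ht0.le
      exact pow_le_pow_right₀ hd1 (by omega)
    calc Real.exp (t * (d : ℝ) ^ (a + 1) / (d : ℝ) ^ (i + a + 1)) * ‖BB d β (a + 1) x‖
        ≤ Real.exp t * 2 := mul_le_mul (Real.exp_le_exp.2 h2) h1 (norm_nonneg _) (Real.exp_pos _).le
      _ = 2 * Real.exp t := by ring
  have hgap : 1 ≤ Real.exp (t * d) * (9 / 10) - 2 * Real.exp t := by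
    have h1 : Real.exp t * Real.exp t ≤ Real.exp (t * d) := by
      rw [← Real.exp_add]
      apply Real.exp_le_exp.2
      nlinarith
    have h2 : Real.exp 1 ≤ Real.exp t := Real.exp_le_exp.2 ht1
    have h3 := Real.exp_one_gt_d9
    nlinarith [Real.exp_pos t]
  have h1 : (1 : ℝ) ≤ LC d ^ (a + 1) * ‖z‖ ^ d := by
    have h2 := norm_sub_norm_le (P d (i + 1 + (a + 1 + 1)) c) (P d (a + 1 + 1) c)
    linarith
  -- conclusion
  have hBi : ‖BB d β i x‖ ^ d = Real.exp (-(t / (d : ℝ) ^ a)) * ‖z‖ ^ d := by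
    rw [norm_P_eq hd i hx0, mul_pow, hpow i, ← Real.exp_nat_mul]
    congr 2
    rw [show i + a + 1 = i + 1 + a by ring, pow_add, pow_succ]
    field_simp
  rw [hBi]
  have h3 : (LC d)⁻¹ ≤ Real.exp (-(t / (d : ℝ) ^ a)) := by
    rw [Real.exp_neg]
    apply inv_anti₀ (Real.exp_pos _)
    refine le_trans ?_ (LC_ge hd)
    apply Real.exp_le_exp.2
    rw [div_le_iff₀ (by positivity)]
    have : (1 : ℝ) ≤ (d : ℝ) ^ a := one_le_pow₀ hd1
    nlinarith
  have h4 : (LC d ^ (a + 1))⁻¹ ≤ ‖z‖ ^ d := by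
    rw [inv_le_iff_one_le_mul₀ (by positivity), mul_comm]
    exact h1
  calc (LC d ^ (a + 2))⁻¹ = (LC d)⁻¹ * (LC d ^ (a + 1))⁻¹ := by
        rw [← mul_inv]; congr 1; ring
    _ ≤ Real.exp (-(t / (d : ℝ) ^ a)) * ‖z‖ ^ d :=
        mul_le_mul h3 h4 (by positivity) (Real.exp_pos _).le

end Pool.Agent.H439.MC
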