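import Mathlib
import Pool.Graph.R_seed8.H713R2.Area

/-!
# Change of variables with multiplicities
-/

set_option autoImplicit false

namespace Pool.Agent.H439.MC

open Complex Set Topology Filter Metric MeasureTheory Pool.Agent.H713R2
open scoped ENNReal

/-- local injectivity -/
theorem exists_inj_nhds {A : Set ℂ} (hA : IsOpen A) {h h' : ℂ → ℂ}
    (hd : ∀ x ∈ A, HasDerivAt h (h' x) x) {x : ℂ} (hx : x ∈ A) (hx' : h' x ≠ 0) :
    ∃ U : Set ℂ, IsOpen U ∧ x ∈ U ∧ InjOn h U := by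
  have hdiff : DifferentiableOn ℂ h A := fun y hy => (hd y hy).differentiableAt.differentiableWithinAt
  have han : AnalyticAt ℂ h x := hdiff.analyticAt (hA.mem_nhds hx)
  have hs : HasStrictDerivAt h (h' x) x := by
    have h1 := han.hasStrictDerivAt
    rwa [(hd x hx).deriv] at h1
  have hf := hs.hasStrictFDerivAt_equiv hx'
  obtain ⟨s, hxs, hso, happ⟩ := hf.approximates_deriv_on_open_nhds
  refine ⟨s, hso, hxs, ?_⟩
  apply happ.injOn
  right
  have hpos : 0 < ‖((ContinuousLinearEquiv.unitsEquivAut ℂ (Units.mk0 (h' x) hx')).symm : ℂ →L[ℂ] ℂ)‖₊⁻¹ := by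
    rw [inv_pos]
    rw [← NNReal.coe_pos, coe_nnnorm, norm_pos_iff]
    intro h0
    have h1 := congrArg (fun L : ℂ →L[ℂ] ℂ => L 1) h0
    simp only [zero_apply] at h1
    have h2 := (ContinuousLinearEquiv.unitsEquivAut ℂ (Units.mk0 (h' x) hx')).symm.injective.ne (one_ne_zero (α := ℂ))
    rw [map_zero] at h2
    exact h2 h1
  exact half_lt_self hpos

/-- change of variables on a piece where `h` is injective -/
theorem piece {s : Set ℂ} (hs : MeasurableSet s) {h h' : ℂ → ℂ}
    (hd : ∀ x ∈ s, HasDerivAt h (h' x) x) (hinj : InjOn h s) (φ : ℂ → ℝ≥0∞) :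
    ∫⁻ x in s, ENNReal.ofReal (‖h' x‖ ^ 2) * φ (h x) = ∫⁻ ζ in h '' s, φ ζ := by
  have h1 := lintegral_image_eq_lintegral_abs_det_fderiv_mul (volume : Measure ℂ) hs
    (f := h) (f' := fun x => (ContinuousLinearMap.toSpanSingleton ℂ (h' x)).restrictScalars ℝ)
    (fun x hx => ((hd x hx).hasFDerivAt.restrictScalars ℝ).hasFDerivWithinAt) hinj φ
  rw [h1]
  simp only [det_mul_real]
  apply lintegral_congr
  intro x
  rw [abs_of_nonneg (by positivity)]

/-- **change of variables with multiplicity** -/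
theorem mult {A : Set ℂ} (hA : IsOpen A) {h h' : ℂ → ℂ}
    (hd : ∀ x ∈ A, HasDerivAt h (h' x) x) (N : ℕ)
    (hN : ∀ ζ : ℂ, ∀ S : Finset ℂ, (↑S : Set ℂ) ⊆ A → (∀ x ∈ S, h x = ζ) → S.card ≤ N)
    (φ : ℂ → ℝ≥0∞) (hφ : Measurable φ) :
    ∫⁻ x in A, ENNReal.ofReal (‖h' x‖ ^ 2) * φ (h x) ≤ N * ∫⁻ ζ, φ ζ := by
  classical
  set A' : Set ℂ := {x | x ∈ A ∧ h' x ≠ 0} with hA'
  have hdiff : DifferentiableOn ℂ h A := fun y hy => (hd y hy).differentiableAt.differentiableWithinAt
  have hcont' : ContinuousOn (deriv h) A := (hdiff.deriv hA).continuousOn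
  have hA'e : A' = A ∩ (deriv h) ⁻¹' {0}ᶜ := by
    ext x
    constructor
    · rintro ⟨h1, h2⟩
      refine ⟨h1, ?_⟩
      simp only [mem_preimage, mem_compl_iff, mem_singleton_iff]
      rw [(hd x h1).deriv]; exact h2
    · rintro ⟨h1, h2⟩
      refine ⟨h1, ?_⟩
      simp only [mem_preimage, mem_compl_iff, mem_singleton_iff] at h2
      rw [(hd x h1).deriv] at h2; exact h2
  have hA'o : IsOpen A' := by
    rw [hA'e]
    exact hcont'.isOpen_inter_preimage hA isOpen_compl_singleton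
  -- reduce to `A'`
  have hred : ∫⁻ x in A, ENNReal.ofReal (‖h' x‖ ^ 2) * φ (h x) ≤
      ∫⁻ x in A', ENNReal.ofReal (‖h' x‖ ^ 2) * φ (h x) := by
    rw [← lintegral_indicator hA.measurableSet, ← lintegral_indicator hA'o.measurableSet]
    apply lintegral_mono
    intro x
    simp only [indicator]
    split_ifs with h1 h2 h2
    · exact le_rfl
    · have : h' x = 0 := by
        by_contra h3
        exact h2 ⟨h1, h3⟩
      rw [this]; simp
    · exact absurd h2.1 h1
    · exact le_rfl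
  refine hred.trans ?_
  -- countable cover
  have hloc : ∀ x : ℂ, ∃ U : Set ℂ, IsOpen U ∧ (x ∈ A' → x ∈ U) ∧ InjOn h U := by
    intro x
    by_cases hx : x ∈ A'
    · obtain ⟨U, hU, hxU, hi⟩ := exists_inj_nhds hA hd hx.1 hx.2
      exact ⟨U, hU, fun _ => hxU, hi⟩
    · exact ⟨∅, isOpen_empty, fun h => absurd h hx, injOn_empty _⟩
  choose U hUo hUx hUi using hloc
  obtain ⟨t, hts, htc, hcov⟩ := TopologicalSpace.countable_cover_nhdsWithin (f := U) (s := A')
    (fun x hx => mem_nhdsWithin_of_mem_nhds ((hUo x).mem_nhds (hUx x hx)))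
  obtain ⟨V, hV1, hV2, hV3⟩ : ∃ V : ℕ → Set ℂ, (∀ n, IsOpen (V n)) ∧ (∀ n, InjOn h (V n)) ∧
      A' ⊆ ⋃ n, V n := by
    rcases t.eq_empty_or_nonempty with h0 | h0
    · subst h0
      refine ⟨fun _ => ∅, fun _ => isOpen_empty, fun _ => injOn_empty _, ?_⟩
      simpa using hcov
    · obtain ⟨f, hf⟩ := htc.exists_eq_range h0
      refine ⟨fun n => U (f n), fun n => hUo _, fun n => hUi _, ?_⟩
      intro x hx
      obtain ⟨y, hy, hxy⟩ := mem_iUnion₂.1 (hcov hx)
      rw [hf] at hy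
      obtain ⟨n, rfl⟩ := hy
      exact mem_iUnion.2 ⟨n, hxy⟩
  set D : ℕ → Set ℂ := fun n => A' ∩ disjointed V n with hD
  have hDm : ∀ n, MeasurableSet (D n) := fun n =>
    hA'o.measurableSet.inter (MeasurableSet.disjointed (fun k => (hV1 k).measurableSet) n)
  have hDd : Pairwise (Function.onFun Disjoint D) := by
    intro m n hmn
    have h1 := disjoint_disjointed V hmn
    exact Disjoint.mono inter_subset_right inter_subset_right h1
  have hDu : A' = ⋃ n, D n := by
    rw [← inter_iUnion, iUnion_disjointed]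
    exact (inter_eq_left.2 hV3).symm
  have hDi : ∀ n, InjOn h (D n) := fun n =>
    (hV2 n).mono (inter_subset_right.trans (disjointed_subset V n))
  have hDA : ∀ n, D n ⊆ A := fun n x hx => hx.1.1
  rw [hDu, lintegral_iUnion hDm hDd]
  have hpc : ∀ n, ∫⁻ x in D n, ENNReal.ofReal (‖h' x‖ ^ 2) * φ (h x) = ∫⁻ ζ in h '' (D n), φ ζ :=
    fun n => piece (hDm n) (fun x hx => hd x (hDA n hx)) (hDi n) φ
  simp only [hpc]
  have hIm : ∀ n, MeasurableSet (h '' (D n)) := fun n =>
    (hDm n).image_of_continuousOn_injOn (hdiff.continuousOn.mono (hDA n)) (hDi n)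
  have h1 : ∀ n, ∫⁻ ζ in h '' (D n), φ ζ = ∫⁻ ζ, (h '' (D n)).indicator φ ζ := fun n =>
    (lintegral_indicator (hIm n) φ).symm
  simp only [h1]
  rw [← lintegral_tsum (fun n => (hφ.indicator (hIm n)).aemeasurable),
    ← lintegral_const_mul _ hφ]
  apply lintegral_mono
  intro ζ
  simp only
  rw [ENNReal.tsum_eq_iSup_sum]
  apply iSup_le
  intro T
  -- count
  have hind : ∀ n, (h '' (D n)).indicator φ ζ = (if ζ ∈ h '' (D n) then 1 else 0) * φ ζ := by
    intro n
    simp only [indicator]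
    split_ifs <;> simp
  simp only [hind]
  rw [← Finset.sum_mul]
  apply mul_le_mul_left
  rw [Finset.sum_boole]
  set T' := T.filter (fun n => ζ ∈ h '' (D n)) with hT'
  have hch : ∀ n, ∃ x, n ∈ T' → x ∈ D n ∧ h x = ζ := by
    intro n
    by_cases hn : n ∈ T'
    · obtain ⟨x, hx, hxe⟩ := (Finset.mem_filter.1 hn).2
      exact ⟨x, fun _ => ⟨hx, hxe⟩⟩
    · exact ⟨0, fun h => absurd h hn⟩
  choose p hp using hch
  have hcard := hN ζ (T'.image p) (by
    intro x hx
    rw [Finset.coe_image] at hx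
    obtain ⟨n, hn, rfl⟩ := hx
    exact hDA n (hp n hn).1) (by
    intro x hx
    obtain ⟨n, hn, rfl⟩ := Finset.mem_image.1 hx
    exact (hp n hn).2)
  rw [Finset.card_image_of_injOn] at hcard
  · exact_mod_cast hcard
  · intro m hm n hn hmn
    by_contra hne
    have h2 := hDd hne
    exact Set.disjoint_left.1 h2 (hp m hm).1 (by
      have := (hp n hn).1
      rwa [← hmn] at this)

end Pool.Agent.H439.MC
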