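import Mathlib
import Pool.Agent.H439.MC.Low
import Pool.Agent.H439.MC.Mult

/-!
# The area bound for the logarithms of the critical orbit
-/

set_option autoImplicit false

namespace Pool.Agent.H439.MC

open Complex Set Topology Filter Metric MeasureTheory N62a1eb23 Pool.Agent.H712R2
  Pool.Agent.H713R2 Pool.Agent.TH653.MB
open scoped ENNReal

/-- Bessel's inequality, integrated over an annulus -/
theorem annulus {G : ℂ → ℂ} (hG : DifferentiableOn ℂ G (ball 0 1)) {r0 r1 : ℝ} (h0 : 0 < r0)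
    (h01 : r0 < r1) (h1 : r1 < 1) (K : ℕ) :
    ENNReal.ofReal (2 * Real.pi * (r1 - r0) * ∑ k ∈ Finset.range K, ‖tc G k‖ ^ 2 * r0 ^ (2 * k + 1))
      ≤ ∫⁻ x in {x : ℂ | r0 < ‖x‖ ∧ ‖x‖ < r1}, ENNReal.ofReal (‖G x‖ ^ 2) := by
  have hpi := Real.pi_pos
  set A : Set ℂ := {x | r0 < ‖x‖ ∧ ‖x‖ < r1} with hA
  have hAo : IsOpen A := (isOpen_lt continuous_const continuous_norm).inter
    (isOpen_lt continuous_norm continuous_const)
  have hAm : MeasurableSet A := hAo.measurableSet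
  rw [← lintegral_indicator hAm, ← Complex.lintegral_comp_polarCoord_symm]
  set S : Set (ℝ × ℝ) := Ioo r0 r1 ×ˢ Ioo (-Real.pi) Real.pi with hS
  have hSm : MeasurableSet S := measurableSet_Ioo.prod measurableSet_Ioo
  have hST : S ⊆ polarCoord.target := by
    rw [polarCoord_target]
    apply prod_mono _ subset_rfl
    intro r hr
    exact lt_trans h0 hr.1
  have hmem : ∀ q ∈ S, circleMap 0 q.1 q.2 ∈ A ∧ ‖circleMap 0 q.1 q.2‖ = q.1 := by
    intro q hq
    have h3 : ‖circleMap 0 q.1 q.2‖ = q.1 := by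
      rw [norm_circleMap_zero, abs_of_pos (lt_trans h0 hq.1.1)]
    refine ⟨?_, h3⟩
    rw [hA]
    constructor
    · rw [h3]; exact hq.1.1
    · rw [h3]; exact hq.1.2
  refine le_trans ?_ (lintegral_mono_set hST)
  have h3 : ∫⁻ q in S, ENNReal.ofReal (q.1 * ‖G (circleMap 0 q.1 q.2)‖ ^ 2) ≤
      ∫⁻ p in S, ENNReal.ofReal p.1 • A.indicator (fun x => ENNReal.ofReal (‖G x‖ ^ 2))
        (Complex.polarCoord.symm p) := by
    apply setLIntegral_mono_ae' hSm
    refine Filter.Eventually.of_forall fun q hq => ?_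
    obtain ⟨h4, h5⟩ := hmem q hq
    have hq0 : 0 < q.1 := lt_trans h0 hq.1.1
    rw [polar_eq_circleMap, indicator_of_mem h4, smul_eq_mul, ← ENNReal.ofReal_mul hq0.le]
  refine le_trans ?_ h3
  -- Tonelli
  have hcont : ContinuousOn (fun q : ℝ × ℝ => q.1 * ‖G (circleMap 0 q.1 q.2)‖ ^ 2) S := by
    apply ContinuousOn.mul continuousOn_fst
    apply ContinuousOn.pow
    apply ContinuousOn.norm
    apply hG.continuousOn.comp
    · apply Continuous.continuousOn
      unfold circleMap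
      fun_prop
    · intro q hq
      obtain ⟨h4, h5⟩ := hmem q hq
      rw [mem_ball_zero_iff, h5]
      exact hq.1.2.trans h1
  have hae : AEMeasurable (fun q : ℝ × ℝ => ENNReal.ofReal (q.1 * ‖G (circleMap 0 q.1 q.2)‖ ^ 2))
      (((volume : Measure ℝ).prod (volume : Measure ℝ)).restrict S) :=
    (hcont.aemeasurable hSm).ennreal_ofReal
  rw [Measure.volume_eq_prod, hS, setLIntegral_prod _ hae]
  have h4 : ∫⁻ _ in Ioo r0 r1, ENNReal.ofReal (2 * Real.pi *
      ∑ k ∈ Finset.range K, ‖tc G k‖ ^ 2 * r0 ^ (2 * k + 1)) ≤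
      ∫⁻ x in Ioo r0 r1, ∫⁻ y in Ioo (-Real.pi) Real.pi,
        ENNReal.ofReal ((x, y).1 * ‖G (circleMap 0 (x, y).1 (x, y).2)‖ ^ 2) := by
    apply setLIntegral_mono_ae' measurableSet_Ioo
    refine Filter.Eventually.of_forall fun r hr => ?_
    have hr0 : 0 < r := lt_trans h0 hr.1
    have hc2 : Continuous (fun θ : ℝ => r * ‖G (circleMap 0 r θ)‖ ^ 2) := by
      apply continuous_const.mul
      apply Continuous.pow
      apply Continuous.norm
      apply hG.continuousOn.comp_continuous (continuous_circleMap 0 r)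
      intro θ
      rw [mem_ball_zero_iff, norm_circleMap_zero, abs_of_pos hr0]
      exact hr.2.trans h1
    have h5 : ∫⁻ θ in Ioo (-Real.pi) Real.pi, ENNReal.ofReal (r * ‖G (circleMap 0 r θ)‖ ^ 2) =
        ENNReal.ofReal (∫ θ in (-Real.pi)..Real.pi, r * ‖G (circleMap 0 r θ)‖ ^ 2) := by
      rw [restrict_Ioo_eq_restrict_Ioc, intervalIntegral.integral_of_le (by linarith)]
      rw [ofReal_integral_eq_lintegral_ofReal]
      · exact (hc2.intervalIntegrable _ _).1
      · exact Filter.Eventually.of_forall fun θ => by positivity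
    simp only
    rw [h5]
    apply ENNReal.ofReal_le_ofReal
    rw [intervalIntegral.integral_const_mul]
    have h6 := bessel hG hr0 (hr.2.trans h1) K
    calc 2 * Real.pi * ∑ k ∈ Finset.range K, ‖tc G k‖ ^ 2 * r0 ^ (2 * k + 1)
        ≤ 2 * Real.pi * ∑ k ∈ Finset.range K, ‖tc G k‖ ^ 2 * r ^ (2 * k + 1) := by
          apply mul_le_mul_of_nonneg_left _ (by positivity)
          apply Finset.sum_le_sum
          intro k _
          apply mul_le_mul_of_nonneg_left _ (by positivity)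
          exact pow_le_pow_left₀ h0.le hr.1.le _
      _ = r * (2 * Real.pi * ∑ k ∈ Finset.range K, ‖tc G k‖ ^ 2 * r ^ (2 * k)) := by
          rw [Finset.mul_sum, Finset.mul_sum, Finset.mul_sum]
          apply Finset.sum_congr rfl
          intro k _
          ring
      _ ≤ _ := mul_le_mul_of_nonneg_left h6 hr0.le
  refine le_trans ?_ h4
  rw [setLIntegral_const, Real.volume_Ioo, ← ENNReal.ofReal_mul (by positivity)]
  apply ENNReal.ofReal_le_ofReal
  apply le_of_eq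
  ring

/-- a majorant of `1 / ‖ζ‖ ^ 2` on an annulus -/
noncomputable def phi (m : ℝ) (J : ℕ) (ζ : ℂ) : ℝ≥0∞ :=
  ∑ k ∈ Finset.range J, (closedBall (0 : ℂ) (m * 2 ^ (k + 1))).indicator
    (fun _ => ENNReal.ofReal ((m * 2 ^ k)⁻¹ ^ 2)) ζ

theorem phi_meas (m : ℝ) (J : ℕ) : Measurable (phi m J) := by
  unfold phi
  apply Finset.measurable_fun_sum
  intro k _
  exact measurable_const.indicator measurableSet_closedBall

theorem phi_int {m : ℝ} (hm : 0 < m) (J : ℕ) :
    ∫⁻ ζ, phi m J ζ = ENNReal.ofReal (4 * Real.pi * J) := by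
  unfold phi
  rw [lintegral_finsetSum _ (fun k _ => measurable_const.indicator measurableSet_closedBall)]
  have h1 : ∀ k ∈ Finset.range J, ∫⁻ ζ : ℂ, (closedBall (0 : ℂ) (m * 2 ^ (k + 1))).indicator
      (fun _ => ENNReal.ofReal ((m * 2 ^ k)⁻¹ ^ 2)) ζ = ENNReal.ofReal (4 * Real.pi) := by
    intro k _
    rw [lintegral_indicator measurableSet_closedBall, setLIntegral_const,
      Complex.volume_closedBall]
    have h2 : (NNReal.pi : ℝ≥0∞) = ENNReal.ofReal Real.pi := by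
      rw [← NNReal.coe_real_pi, ENNReal.ofReal_coe_nnreal]
    rw [h2, ← ENNReal.ofReal_pow (by positivity), ← ENNReal.ofReal_mul (by positivity),
      ← ENNReal.ofReal_mul (by positivity)]
    congr 1
    rw [pow_succ]
    field_simp
    ring
  rw [Finset.sum_congr rfl h1, Finset.sum_const, Finset.card_range, nsmul_eq_mul,
    ← ENNReal.ofReal_natCast, ← ENNReal.ofReal_mul (by positivity), mul_comm]

theorem phi_ge {m : ℝ} (hm : 0 < m) {J : ℕ} {ζ : ℂ} (h1 : m ≤ ‖ζ‖) (h2 : ‖ζ‖ ≤ m * 2 ^ J)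
    (hJ : 1 ≤ J) : ENNReal.ofReal (‖ζ‖⁻¹ ^ 2) ≤ phi m J ζ := by
  obtain ⟨k, hk1, hk2, hk3⟩ : ∃ k < J, m * 2 ^ k ≤ ‖ζ‖ ∧ ‖ζ‖ ≤ m * 2 ^ (k + 1) := by
    classical
    have hex : ∃ n, ‖ζ‖ ≤ m * 2 ^ (n + 1) := ⟨J - 1, by rwa [Nat.sub_add_cancel hJ]⟩
    refine ⟨Nat.find hex, ?_, ?_, Nat.find_spec hex⟩
    · have := Nat.find_min' hex (show ‖ζ‖ ≤ m * 2 ^ (J - 1 + 1) by rwa [Nat.sub_add_cancel hJ])
      omega
    · rcases Nat.eq_zero_or_pos (Nat.find hex) with h0 | h0
      · rw [h0]; simpa using h1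
      · obtain ⟨n, hn⟩ : ∃ n, Nat.find hex = n + 1 := Nat.exists_eq_add_of_le' h0
        have := Nat.find_min hex (m := n) (by omega)
        rw [not_le] at this
        rw [hn]
        exact this.le
  unfold phi
  have h3 : (closedBall (0 : ℂ) (m * 2 ^ (k + 1))).indicator
    (fun _ => ENNReal.ofReal ((m * 2 ^ k)⁻¹ ^ 2)) ζ ≤ ∑ k ∈ Finset.range J,
      (closedBall (0 : ℂ) (m * 2 ^ (k + 1))).indicator
      (fun _ => ENNReal.ofReal ((m * 2 ^ k)⁻¹ ^ 2)) ζ :=
    Finset.single_le_sum (f := fun k => (closedBall (0 : ℂ) (m * 2 ^ (k + 1))).indicator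
      (fun _ => ENNReal.ofReal ((m * 2 ^ k)⁻¹ ^ 2)) ζ) (fun _ _ => zero_le) (Finset.mem_range.2 hk1)
  refine le_trans ?_ h3
  rw [indicator_of_mem (mem_closedBall_zero_iff.2 hk3)]
  apply ENNReal.ofReal_le_ofReal
  have h4 : 0 < m * 2 ^ k := by positivity
  exact pow_le_pow_left₀ (by positivity) (inv_anti₀ h4 hk2) 2

variable {d : ℕ} {β : ℂ → ℂ}

/-- the number of preimages -/
theorem count (hd : 2 ≤ d) (hβ : IsBeta d β) (i : ℕ) (ζ : ℂ) (S : Finset ℂ)
    (hS : ∀ x ∈ S, x ∈ ball (0 : ℂ) 1 ∧ x ≠ 0) (hS2 : ∀ x ∈ S, P d (i + 1) (x⁻¹ * β x) = ζ) :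
    S.card ≤ d ^ i := by
  classical
  have h1 : (S.image (fun x => x⁻¹ * β x)).card = S.card := by
    apply Finset.card_image_of_injOn
    intro x hx y hy hxy
    exact hβ.inj x (hS x hx).1 y (hS y hy).1 (hS x hx).2 (hS y hy).2 hxy
  rw [← h1]
  have hdeg : (PP d (i + 1) - Polynomial.C ζ).natDegree = d ^ i := by
    rw [Polynomial.natDegree_sub_C, natDegree_PP hd]
  have hne : PP d (i + 1) - Polynomial.C ζ ≠ 0 := by
    intro h0
    rw [h0, Polynomial.natDegree_zero] at hdeg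
    have : 1 ≤ d ^ i := Nat.one_le_pow _ _ (by omega)
    omega
  calc (S.image (fun x => x⁻¹ * β x)).card
      ≤ (PP d (i + 1) - Polynomial.C ζ).roots.toFinset.card := by
        apply Finset.card_le_card
        intro c hc
        obtain ⟨x, hx, rfl⟩ := Finset.mem_image.1 hc
        rw [Multiset.mem_toFinset, Polynomial.mem_roots hne, Polynomial.IsRoot, Polynomial.eval_sub,
          Polynomial.eval_C, eval_PP, hS2 x hx, sub_self]
    _ ≤ Multiset.card (PP d (i + 1) - Polynomial.C ζ).roots := Multiset.toFinset_card_le _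
    _ ≤ (PP d (i + 1) - Polynomial.C ζ).natDegree := Polynomial.card_roots' _
    _ = d ^ i := hdeg

noncomputable def rho (d s : ℕ) : ℝ := Real.exp (-(1 / (d : ℝ) ^ s))

theorem rho_pos (d s : ℕ) : 0 < rho d s := Real.exp_pos _

theorem rho_lt_one (hd : 2 ≤ d) (s : ℕ) : rho d s < 1 := by
  unfold rho
  rw [Real.exp_lt_one_iff]
  have : (0 : ℝ) < d := by exact_mod_cast (by omega : 0 < d)
  have : 0 < 1 / (d : ℝ) ^ s := by positivity
  linarith

theorem rho_lt (hd : 2 ≤ d) (s : ℕ) : rho d s < rho d (s + 1) := by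
  unfold rho
  apply Real.exp_lt_exp.2
  have hd2 : (2 : ℝ) ≤ d := by exact_mod_cast hd
  have h1 : (0 : ℝ) < (d : ℝ) ^ s := by positivity
  have h2 : 1 / (d : ℝ) ^ (s + 1) < 1 / (d : ℝ) ^ s := by
    apply one_div_lt_one_div_of_lt h1
    rw [pow_succ]
    nlinarith
  linarith

/-- there is a number `J₀` of halvings -/
theorem exists_J (d : ℕ) : ∃ J : ℕ, 1 ≤ J ∧ LC d ≤ 2 ^ J := by
  obtain ⟨n, hn⟩ := pow_unbounded_of_one_lt (LC d) (by norm_num : (1 : ℝ) < 2)
  refine ⟨n + 1, by omega, hn.le.trans ?_⟩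
  exact pow_le_pow_right₀ (by norm_num) (by omega)

/-- **the area bound** -/
theorem area_bound (hd : 2 ≤ d) (hβ : IsBeta d β) {J0 : ℕ} (hJ1 : 1 ≤ J0) (hJ : LC d ≤ 2 ^ J0)
    (i a : ℕ) {F : ℂ → ℂ}
    (hF : DifferentiableOn ℂ F (ball 0 1)) (hFe : ∀ x ∈ ball (0 : ℂ) 1, exp (F x) = BB d β i x) :
    ∫⁻ x in {x : ℂ | rho d (i + a) < ‖x‖ ∧ ‖x‖ < rho d (i + a + 1)},
      ENNReal.ofReal (‖x * deriv F x - (d ^ i : ℕ)‖ ^ 2) ≤
      ENNReal.ofReal ((d ^ i : ℕ) * (4 * Real.pi * ((a + 4) * J0 : ℕ))) := by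
  have hd0 : (0 : ℝ) < d := by exact_mod_cast (by omega : 0 < d)
  have hd1 : (1 : ℝ) ≤ d := by exact_mod_cast (by omega : 1 ≤ d)
  set A : Set ℂ := {x | rho d (i + a) < ‖x‖ ∧ ‖x‖ < rho d (i + a + 1)} with hA
  have hAo : IsOpen A := (isOpen_lt continuous_const continuous_norm).inter
    (isOpen_lt continuous_norm continuous_const)
  have hr1 := rho_lt_one hd (i + a + 1)
  have hmem : ∀ x ∈ A, x ∈ ball (0 : ℂ) 1 ∧ x ≠ 0 := by
    intro x hx
    refine ⟨mem_ball_zero_iff.2 (hx.2.trans hr1), ?_⟩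
    exact norm_pos_iff.1 ((rho_pos d _).trans hx.1)
  set N : ℕ := d ^ i with hN
  set h : ℂ → ℂ := fun x => exp (F x) * (x⁻¹) ^ N with hh
  set h' : ℂ → ℂ := fun x => h x * (deriv F x - N / x) with hh'
  have hder : ∀ x ∈ A, HasDerivAt h (h' x) x := by
    intro x hx
    obtain ⟨h1, h2⟩ := hmem x hx
    have h3 : HasDerivAt F (deriv F x) x :=
      (hF.differentiableAt (isOpen_ball.mem_nhds h1)).hasDerivAt
    have h4 : HasDerivAt h (cexp (F x) * deriv F x * (x⁻¹) ^ N + cexp (F x) *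
        (N * (x⁻¹) ^ (N - 1) * -(x ^ 2)⁻¹)) x := h3.cexp.mul ((hasDerivAt_inv h2).fun_pow N)
    refine h4.congr_deriv ?_
    simp only [hh', hh]
    rcases Nat.eq_zero_or_pos N with h0 | h0
    · simp [h0]
    · obtain ⟨k, hk⟩ : ∃ k, N = k + 1 := Nat.exists_eq_add_of_le' h0
      rw [hk, Nat.add_sub_cancel, pow_succ]
      push_cast
      field_simp
      ring
  have heq : ∀ x ∈ A, h x = P d (i + 1) (x⁻¹ * β x) := by
    intro x hx
    obtain ⟨h1, h2⟩ := hmem x hx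
    simp only [hh]
    rw [hFe x h1, BB_eq hd β i x h2, ← hN, mul_comm (x ^ N), mul_assoc, ← mul_pow,
      mul_inv_cancel₀ h2, one_pow, mul_one]
  set m : ℝ := (LC d ^ (a + 2))⁻¹ with hm
  have hL0 : 0 < LC d := (Real.exp_pos _).trans_le (LC_ge hd)
  have hL1 : 1 ≤ LC d := le_trans (Real.one_le_exp (by positivity)) (LC_ge hd)
  have hm0 : 0 < m := by positivity
  have hm1 : m ≤ 1 := by
    rw [hm]; exact inv_le_one_of_one_le₀ (one_le_pow₀ hL1)
  -- size of `h`
  have hsize : ∀ x ∈ A, m ≤ ‖h x‖ ∧ ‖h x‖ ≤ m * 2 ^ ((a + 4) * J0) := by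
    intro x hx
    obtain ⟨h1, h2⟩ := hmem x hx
    have hxn : 0 < ‖x‖ := norm_pos_iff.2 h2
    set t : ℝ := -Real.log ‖x‖ * (d : ℝ) ^ (i + a + 1) with ht
    have hpw : (0 : ℝ) < (d : ℝ) ^ (i + a + 1) := by positivity
    have hxt : ‖x‖ = Real.exp (-(t / (d : ℝ) ^ (i + a + 1))) := by
      rw [ht, mul_div_assoc, div_self hpw.ne', mul_one, neg_neg, Real.exp_log hxn]
    have ht1 : 1 ≤ t := by
      have h3 : Real.log ‖x‖ ≤ -(1 / (d : ℝ) ^ (i + a + 1)) := by
        rw [Real.log_le_iff_le_exp hxn]; exact hx.2.le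
      calc (1 : ℝ) = 1 / (d : ℝ) ^ (i + a + 1) * (d : ℝ) ^ (i + a + 1) := by field_simp
        _ ≤ t := by
          rw [ht]
          apply mul_le_mul_of_nonneg_right _ hpw.le
          linarith
    have htd : t ≤ d := by
      have h3 : -(1 / (d : ℝ) ^ (i + a)) ≤ Real.log ‖x‖ := by
        rw [Real.le_log_iff_exp_le hxn]; exact hx.1.le
      calc t ≤ 1 / (d : ℝ) ^ (i + a) * (d : ℝ) ^ (i + a + 1) := by
            rw [ht]
            apply mul_le_mul_of_nonneg_right _ hpw.le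
            linarith
        _ = d := by rw [pow_succ]; field_simp
    have h3 := BB_lower hd hβ i a ht1 htd hxt
    have hB0 := norm_nonneg (BB d β i x)
    have h4 : m ≤ ‖BB d β i x‖ := by
      by_contra hcon
      push Not at hcon
      have h5 : ‖BB d β i x‖ ^ d ≤ ‖BB d β i x‖ ^ 1 :=
        pow_le_pow_of_le_one hB0 (hcon.le.trans hm1) (by omega)
      rw [pow_one] at h5
      linarith
    have h5 : ‖h x‖ = ‖BB d β i x‖ * (‖x‖⁻¹) ^ N := by
      simp only [hh]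
      rw [norm_mul, hFe x h1, norm_pow, norm_inv]
    have h6 : 1 ≤ (‖x‖⁻¹) ^ N := by
      apply one_le_pow₀
      rw [one_le_inv₀ hxn]
      exact (mem_ball_zero_iff.1 h1).le
    have h7 : (‖x‖⁻¹) ^ N ≤ Real.exp d := by
      rw [hxt, ← Real.exp_neg, neg_neg, ← Real.exp_nat_mul]
      apply Real.exp_le_exp.2
      rw [hN]
      push_cast
      rw [mul_div_assoc', div_le_iff₀ hpw]
      have h8 : (d : ℝ) ^ i ≤ (d : ℝ) ^ (i + a + 1) := pow_le_pow_right₀ hd1 (by omega)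
      calc (d : ℝ) ^ i * t ≤ (d : ℝ) ^ (i + a + 1) * d :=
            mul_le_mul h8 htd (by linarith) (by positivity)
        _ = d * (d : ℝ) ^ (i + a + 1) := by ring
    rw [h5]
    constructor
    · calc m ≤ ‖BB d β i x‖ * 1 := by rw [mul_one]; exact h4
        _ ≤ _ := mul_le_mul_of_nonneg_left h6 hB0
    · have h8 := AR.BB_le_two hd hβ i h1
      have h9 : (2 : ℝ) ≤ LC d := by
        refine le_trans ?_ (LC_ge hd)
        have := Real.add_one_le_exp (d : ℝ)
        linarith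
      calc ‖BB d β i x‖ * (‖x‖⁻¹) ^ N ≤ 2 * Real.exp d :=
            mul_le_mul h8 h7 (by positivity) (by norm_num)
        _ ≤ LC d * LC d := mul_le_mul h9 (LC_ge hd) (Real.exp_pos _).le hL0.le
        _ = m * LC d ^ (a + 4) := by
            rw [hm, show a + 4 = (a + 2) + 2 by ring, pow_add (LC d) (a + 2) 2]
            field_simp
        _ ≤ m * 2 ^ ((a + 4) * J0) := by
            apply mul_le_mul_of_nonneg_left _ hm0.le
            rw [mul_comm (a + 4), pow_mul]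
            exact pow_le_pow_left₀ hL0.le hJ _
  have hmult := mult hAo hder N (fun ζ S hS1 hS2 => count hd hβ i ζ S (fun x hx => hmem x (hS1 hx))
    (fun x hx => by rw [← heq x (hS1 hx)]; exact hS2 x hx)) (phi m ((a + 4) * J0)) (phi_meas _ _)
  rw [phi_int hm0] at hmult
  have hfin : ∫⁻ x in A, ENNReal.ofReal (‖x * deriv F x - (N : ℕ)‖ ^ 2) ≤
      ∫⁻ x in A, ENNReal.ofReal (‖h' x‖ ^ 2) * phi m ((a + 4) * J0) (h x) := by
    apply setLIntegral_mono_ae' hAo.measurableSet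
    refine Filter.Eventually.of_forall fun x hx => ?_
    obtain ⟨h1, h2⟩ := hmem x hx
    obtain ⟨h3, h4⟩ := hsize x hx
    have h5 := phi_ge hm0 h3 h4 (Nat.mul_pos (by omega) hJ1)
    have hx1 : ‖x‖ < 1 := mem_ball_zero_iff.1 h1
    have hh0 : 0 < ‖h x‖ := hm0.trans_le h3
    calc ENNReal.ofReal (‖x * deriv F x - (N : ℕ)‖ ^ 2)
        ≤ ENNReal.ofReal (‖h' x‖ ^ 2) * ENNReal.ofReal (‖h x‖⁻¹ ^ 2) := by
          rw [← ENNReal.ofReal_mul (by positivity)]
          apply ENNReal.ofReal_le_ofReal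
          have h6 : ‖h' x‖ ^ 2 * ‖h x‖⁻¹ ^ 2 = ‖deriv F x - N / x‖ ^ 2 := by
            simp only [hh', norm_mul]
            field_simp
          have h7 : x * deriv F x - N = x * (deriv F x - N / x) := by field_simp
          rw [h6, h7, norm_mul, mul_pow]
          have h8 : ‖x‖ ^ 2 ≤ 1 := pow_le_one₀ (norm_nonneg _) hx1.le
          nlinarith [sq_nonneg ‖deriv F x - N / x‖]
      _ ≤ _ := mul_le_mul_right h5 _
  refine hfin.trans (hmult.trans (le_of_eq ?_))
  rw [← ENNReal.ofReal_natCast N, ← ENNReal.ofReal_mul (by positivity)]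

end Pool.Agent.H439.MC
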