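import Mathlib
import Pool.Agent.H439.MC.Ang

/-!
# From cells to test functions
-/

set_option autoImplicit false

namespace Pool.Agent.H439.MC

open Set Topology Filter MeasureTheory
open scoped ENNReal

theorem card_up (x : ℝ) (M : ℕ) (I : Finset ℤ) :
    ((I.filter (fun i : ℤ => (i : ℝ) < x ∧ x < i + M)).card : ℝ) ≤ M := by
  have h1 : I.filter (fun i : ℤ => (i : ℝ) < x ∧ x < i + M) ⊆ Finset.Icc (⌊x⌋ - M + 1) (⌈x⌉ - 1) := by
    intro i hi
    rw [Finset.mem_filter] at hi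
    obtain ⟨_, h2, h3⟩ := hi
    rw [Finset.mem_Icc]
    constructor
    · have h4 : (⌊x⌋ : ℝ) ≤ x := Int.floor_le x
      have h5 : (⌊x⌋ : ℝ) < i + M := by linarith
      have h6 : ⌊x⌋ < i + M := by exact_mod_cast h5
      omega
    · have h4 : x ≤ ⌈x⌉ := Int.le_ceil x
      have h5 : (i : ℝ) < ⌈x⌉ := by linarith
      have h6 : i < ⌈x⌉ := by exact_mod_cast h5
      omega
  have h2 := Finset.card_le_card h1
  rw [Int.card_Icc] at h2
  have h3 : ⌈x⌉ ≤ ⌊x⌋ + 1 := Int.ceil_le_floor_add_one x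
  have h4 : (⌈x⌉ - 1 + 1 - (⌊x⌋ - M + 1)).toNat ≤ M := by omega
  exact_mod_cast h2.trans h4

theorem card_lo {x : ℝ} {M K : ℕ} (h1 : x ≤ K) (h2 : -(K : ℝ) + M + 1 ≤ x) :
    (M : ℝ) - 1 ≤ (((Finset.Ico (-(K : ℤ)) K).filter (fun i : ℤ => (i : ℝ) + 1 / 2 ≤ x ∧ x ≤ i + M - 1 / 2)).card : ℝ) := by
  have h3 : Finset.Icc (⌊x - 1 / 2⌋ - M + 2) ⌊x - 1 / 2⌋ ⊆
      (Finset.Ico (-(K : ℤ)) K).filter (fun i : ℤ => (i : ℝ) + 1 / 2 ≤ x ∧ x ≤ i + M - 1 / 2) := by
    intro i hi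
    rw [Finset.mem_Icc] at hi
    have f1 : (⌊x - 1 / 2⌋ : ℝ) ≤ x - 1 / 2 := Int.floor_le _
    have f2 : x - 1 / 2 < ⌊x - 1 / 2⌋ + 1 := Int.lt_floor_add_one _
    have g1 : (i : ℝ) ≤ ⌊x - 1 / 2⌋ := by exact_mod_cast hi.2
    have g2 : (⌊x - 1 / 2⌋ : ℝ) - M + 2 ≤ i := by exact_mod_cast hi.1
    rw [Finset.mem_filter, Finset.mem_Ico]
    refine ⟨⟨?_, ?_⟩, by linarith, by linarith⟩
    · have : -(K : ℝ) ≤ i := by linarith
      exact_mod_cast this
    · have : (i : ℝ) < K := by linarith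
      exact_mod_cast this
  have h4 := Finset.card_le_card h3
  rw [Int.card_Icc] at h4
  have h5 : (M : ℤ) - 1 ≤ ((⌊x - 1 / 2⌋ + 1 - (⌊x - 1 / 2⌋ - M + 2)).toNat : ℤ) := by omega
  have h6 : (M : ℝ) - 1 ≤ ((⌊x - 1 / 2⌋ + 1 - (⌊x - 1 / 2⌋ - M + 2)).toNat : ℝ) := by exact_mod_cast h5
  exact h6.trans (by exact_mod_cast h4)

theorem assemble {μ : Measure ℝ} [IsFiniteMeasure μ] (hμ : μ.real univ ≤ 1) {X : ℝ → ℝ} (hX : AEMeasurable X μ) {Z : Finset ℂ} {Y : ℂ → ℝ} {D p L B η : ℝ}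
    (hD : 0 < D) (hp : 0 < p) (hL : 0 ≤ L) (hη : 0 ≤ η) {M K : ℕ} (hM : 1 ≤ M)
    (hK : B / p + M + 1 ≤ K) {F : ℝ → ℝ} (hFm : Measurable F) (hF0 : ∀ x, 0 ≤ F x) (hF1 : ∀ x, F x ≤ 1)
    (hFL : ∀ x y, |F x - F y| ≤ L * |x - y|)
    (hcell : ∀ i ∈ Finset.Ico (-(K : ℤ)) K,
      D * ((μ {θ | p * i + p / 2 ≤ X θ ∧ X θ ≤ p * (i + M) - p / 2}).toReal - η) ≤
      ((Z.filter (fun z => p * i < Y z ∧ Y z < p * (i + M))).card : ℝ)) :
    D * (∫ θ, F (X θ) ∂μ - 1 / M - (μ {θ | B < |X θ|}).toReal - 2 * L * (p * M) - 2 * K * η / M) ≤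
      ∑ z ∈ Z, F (Y z) := by
  classical
  set I := Finset.Ico (-(K : ℤ)) K with hI
  have hM0 : (0 : ℝ) < M := by exact_mod_cast hM
  obtain ⟨φ, hφ⟩ : ∃ φ : ℤ → ℝ, ∀ i, φ i = max 0 (F (p * i) - L * (p * M)) := ⟨_, fun _ => rfl⟩
  have hφ0 : ∀ i, 0 ≤ φ i := fun i => by rw [hφ]; exact le_max_left _ _
  have hφ1 : ∀ i, φ i ≤ 1 := fun i => by
    rw [hφ]
    apply max_le zero_le_one
    have : 0 ≤ L * (p * M) := by positivity
    linarith [hF1 (p * i)]
  -- comparison of the values on a cell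
  have hdist : ∀ (i : ℤ) (t : ℝ), p * i ≤ t → t ≤ p * (i + M) → |F t - F (p * i)| ≤ L * (p * M) := by
    intro i t h1 h2
    refine (hFL _ _).trans ?_
    apply mul_le_mul_of_nonneg_left _ hL
    rw [abs_of_nonneg (by linarith)]
    linarith
  -- step 1
  have hs1 : ∀ z ∈ Z, ∑ i ∈ I, (if p * i < Y z ∧ Y z < p * (i + M) then φ i else 0) ≤ M * F (Y z) := by
    intro z _
    rw [← Finset.sum_filter]
    have h1 : ∀ i ∈ I.filter (fun i : ℤ => p * i < Y z ∧ Y z < p * (i + M)), φ i ≤ F (Y z) := by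
      intro i hi
      rw [Finset.mem_filter] at hi
      rw [hφ]
      apply max_le (hF0 _)
      have := (abs_le.1 (hdist i (Y z) hi.2.1.le hi.2.2.le)).1
      linarith
    refine (Finset.sum_le_sum h1).trans ?_
    rw [Finset.sum_const, nsmul_eq_mul]
    apply mul_le_mul_of_nonneg_right _ (hF0 _)
    have e1 : I.filter (fun i : ℤ => p * i < Y z ∧ Y z < p * (i + M)) =
        I.filter (fun i : ℤ => (i : ℝ) < Y z / p ∧ Y z / p < i + M) := by
      apply Finset.filter_congr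
      intro i _
      rw [lt_div_iff₀ hp, div_lt_iff₀ hp, mul_comm p, mul_comm p]
    rw [e1]
    exact card_up _ _ _
  -- step 2
  have hs2 : ∑ i ∈ I, φ i * (D * ((μ {θ | p * i + p / 2 ≤ X θ ∧ X θ ≤ p * (i + M) - p / 2}).toReal - η)) ≤
      M * ∑ z ∈ Z, F (Y z) := by
    calc _ ≤ ∑ i ∈ I, φ i * ((Z.filter (fun z => p * i < Y z ∧ Y z < p * (i + M))).card : ℝ) := by
          apply Finset.sum_le_sum
          intro i hi
          exact mul_le_mul_of_nonneg_left (hcell i hi) (hφ0 i)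
      _ = ∑ i ∈ I, ∑ z ∈ Z, (if p * i < Y z ∧ Y z < p * (i + M) then φ i else 0) := by
          apply Finset.sum_congr rfl
          intro i _
          rw [← Finset.sum_filter, Finset.sum_const, nsmul_eq_mul, mul_comm]
      _ = ∑ z ∈ Z, ∑ i ∈ I, (if p * i < Y z ∧ Y z < p * (i + M) then φ i else 0) := Finset.sum_comm
      _ ≤ ∑ z ∈ Z, M * F (Y z) := Finset.sum_le_sum hs1
      _ = _ := by rw [Finset.mul_sum]
  -- step 3
  have hcardI : (I.card : ℝ) = 2 * K := by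
    rw [hI, Int.card_Ico]
    have : (((K : ℤ) - -(K : ℤ)).toNat : ℤ) = 2 * K := by omega
    exact_mod_cast this
  have hs3 : D * (∑ i ∈ I, φ i * (μ {θ | p * i + p / 2 ≤ X θ ∧ X θ ≤ p * (i + M) - p / 2}).toReal - 2 * K * η) ≤
      M * ∑ z ∈ Z, F (Y z) := by
    refine le_trans ?_ hs2
    have e1 : ∑ i ∈ I, φ i * (D * ((μ {θ | p * i + p / 2 ≤ X θ ∧ X θ ≤ p * (i + M) - p / 2}).toReal - η)) =
        D * (∑ i ∈ I, φ i * (μ {θ | p * i + p / 2 ≤ X θ ∧ X θ ≤ p * (i + M) - p / 2}).toReal - (∑ i ∈ I, φ i) * η) := by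
      rw [Finset.sum_mul, ← Finset.sum_sub_distrib, Finset.mul_sum]
      apply Finset.sum_congr rfl
      intro i _
      ring
    rw [e1]
    apply mul_le_mul_of_nonneg_left _ hD.le
    have h1 : ∑ i ∈ I, φ i ≤ 2 * K := by
      rw [← hcardI]
      refine (Finset.sum_le_card_nsmul _ _ 1 fun i _ => hφ1 i).trans (le_of_eq ?_)
      rw [nsmul_eq_mul, mul_one]
    have h2 := mul_le_mul_of_nonneg_right h1 hη
    linarith
  -- step 4
  have hset : ∀ i : ℤ, NullMeasurableSet {θ | p * i + p / 2 ≤ X θ ∧ X θ ≤ p * (i + M) - p / 2} μ := fun i =>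
    (nullMeasurableSet_le aemeasurable_const hX).inter (nullMeasurableSet_le hX aemeasurable_const)
  have hBset : NullMeasurableSet {θ | B < |X θ|} μ := nullMeasurableSet_lt aemeasurable_const hX.abs
  have hind : ∀ (A : Set ℝ), NullMeasurableSet A μ → Integrable (A.indicator fun _ => (1 : ℝ)) μ := by
    intro A hA
    exact (integrable_const (1 : ℝ)).indicator₀ hA
  have hindint : ∀ (A : Set ℝ), NullMeasurableSet A μ → ∫ θ, A.indicator (fun _ => (1 : ℝ)) θ ∂μ = (μ A).toReal := by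
    intro A hA
    rw [integral_indicator₀ hA, setIntegral_const, smul_eq_mul, mul_one]
    rfl
  have hFint : Integrable (fun θ => F (X θ)) μ := by
    apply Integrable.of_bound (hFm.comp_aemeasurable hX).aestronglyMeasurable 1
    refine Eventually.of_forall fun θ => ?_
    rw [Real.norm_eq_abs]
    change |F (X θ)| ≤ 1
    rw [abs_of_nonneg (hF0 _)]
    exact hF1 _
  have hs4 : ((M : ℝ) - 1) * ∫ θ, F (X θ) ∂μ - M * (μ {θ | B < |X θ|}).toReal - 2 * L * (p * M) * M ≤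
      ∑ i ∈ I, φ i * (μ {θ | p * i + p / 2 ≤ X θ ∧ X θ ≤ p * (i + M) - p / 2}).toReal := by
    have e1 : ∑ i ∈ I, φ i * (μ {θ | p * i + p / 2 ≤ X θ ∧ X θ ≤ p * (i + M) - p / 2}).toReal =
        ∫ θ, ∑ i ∈ I, φ i * ({θ | p * i + p / 2 ≤ X θ ∧ X θ ≤ p * (i + M) - p / 2}.indicator (fun _ => (1 : ℝ)) θ) ∂μ := by
      rw [integral_finsetSum _ fun i _ => (hind _ (hset i)).const_mul _]
      apply Finset.sum_congr rfl
      intro i _
      rw [integral_const_mul, hindint _ (hset i)]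
    have e2 : ((M : ℝ) - 1) * ∫ θ, F (X θ) ∂μ - M * (μ {θ | B < |X θ|}).toReal - 2 * L * (p * M) * M ≤
        ∫ θ, (((M : ℝ) - 1) * F (X θ) - M * ({θ | B < |X θ|}.indicator (fun _ => (1 : ℝ)) θ) - 2 * L * (p * M) * M) ∂μ := by
      have i1 : Integrable (fun θ => ((M : ℝ) - 1) * F (X θ)) μ := hFint.const_mul _
      have i2 : Integrable (fun θ => (M : ℝ) * ({θ | B < |X θ|}.indicator (fun _ => (1 : ℝ)) θ)) μ :=
        (hind _ hBset).const_mul _
      have i3 : Integrable (fun θ => ((M : ℝ) - 1) * F (X θ) -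
          (M : ℝ) * ({θ | B < |X θ|}.indicator (fun _ => (1 : ℝ)) θ)) μ := i1.sub i2
      rw [integral_sub i3 (integrable_const _), integral_sub i1 i2, integral_const_mul,
        integral_const_mul, hindint _ hBset, integral_const, smul_eq_mul]
      have h1 : μ.real univ * (2 * L * (p * M) * M) ≤ 1 * (2 * L * (p * M) * M) :=
        mul_le_mul_of_nonneg_right hμ (by positivity)
      linarith
    rw [e1]
    refine e2.trans ?_
    apply integral_mono
    · exact ((hFint.const_mul _).sub ((hind _ hBset).const_mul _)).sub (integrable_const _)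
    · exact integrable_finsetSum _ fun i _ => (hind _ (hset i)).const_mul _
    intro θ
    simp only
    have hnn : 0 ≤ ∑ i ∈ I, φ i * ({θ | p * i + p / 2 ≤ X θ ∧ X θ ≤ p * (i + M) - p / 2}.indicator (fun _ => (1 : ℝ)) θ) := by
      apply Finset.sum_nonneg
      intro i _
      exact mul_nonneg (hφ0 i) (Set.indicator_nonneg (fun _ _ => zero_le_one) θ)
    have hM1 : (0 : ℝ) ≤ (M : ℝ) - 1 := by
      have : (1 : ℝ) ≤ M := by exact_mod_cast hM
      linarith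
    have hLp : 0 ≤ L * (p * M) := by positivity
    by_cases hB : B < |X θ|
    · rw [Set.indicator_of_mem (show θ ∈ {θ | B < |X θ|} from hB)]
      have h1 : ((M : ℝ) - 1) * F (X θ) ≤ ((M : ℝ) - 1) * 1 := mul_le_mul_of_nonneg_left (hF1 _) hM1
      have h2 : 0 ≤ 2 * L * (p * M) * M := by positivity
      linarith
    · rw [Set.indicator_of_notMem (show θ ∉ {θ | B < |X θ|} from hB)]
      push Not at hB
      have hψ : ∀ i ∈ I, (if (i : ℝ) + 1 / 2 ≤ X θ / p ∧ X θ / p ≤ i + M - 1 / 2 then max 0 (F (X θ) - 2 * (L * (p * M))) else 0) ≤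
          φ i * ({θ | p * i + p / 2 ≤ X θ ∧ X θ ≤ p * (i + M) - p / 2}.indicator (fun _ => (1 : ℝ)) θ) := by
        intro i _
        split_ifs with h
        · rw [le_div_iff₀ hp, div_le_iff₀ hp] at h
          have h' : p * i + p / 2 ≤ X θ ∧ X θ ≤ p * (i + M) - p / 2 := ⟨by linarith [h.1], by linarith [h.2]⟩
          rw [Set.indicator_of_mem (show θ ∈ {θ | p * i + p / 2 ≤ X θ ∧ X θ ≤ p * (i + M) - p / 2} from h'), mul_one, hφ]
          apply max_le_max le_rfl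
          have := (abs_le.1 (hdist i (X θ) (by linarith [h'.1]) (by linarith [h'.2]))).2
          linarith
        · exact mul_nonneg (hφ0 i) (Set.indicator_nonneg (fun _ _ => zero_le_one) θ)
      refine le_trans ?_ (Finset.sum_le_sum hψ)
      rw [← Finset.sum_filter, Finset.sum_const, nsmul_eq_mul]
      have hXp : |X θ / p| ≤ B / p := by
        rw [abs_div, abs_of_pos hp]
        exact div_le_div_of_nonneg_right hB hp.le
      obtain ⟨x1, x2⟩ := abs_le.1 hXp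
      have hc := card_lo (x := X θ / p) (M := M) (K := K) (by linarith) (by linarith)
      have h3 : ((M : ℝ) - 1) * max 0 (F (X θ) - 2 * (L * (p * M))) ≤
          ((I.filter (fun i : ℤ => (i : ℝ) + 1 / 2 ≤ X θ / p ∧ X θ / p ≤ i + M - 1 / 2)).card : ℝ) *
            max 0 (F (X θ) - 2 * (L * (p * M))) :=
        mul_le_mul_of_nonneg_right hc (le_max_left _ _)
      refine le_trans ?_ h3
      have h4 : ((M : ℝ) - 1) * (F (X θ) - 2 * (L * (p * M))) ≤ ((M : ℝ) - 1) * max 0 (F (X θ) - 2 * (L * (p * M))) :=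
        mul_le_mul_of_nonneg_left (le_max_right _ _) hM1
      nlinarith
  -- conclusion
  have hEF1 : ∫ θ, F (X θ) ∂μ ≤ 1 := by
    have h1 : ∫ θ, F (X θ) ∂μ ≤ ∫ _θ, (1 : ℝ) ∂μ := integral_mono hFint (integrable_const _) fun θ => hF1 _
    refine h1.trans ?_
    rw [integral_const, smul_eq_mul, mul_one]
    exact hμ
  obtain ⟨E, hE⟩ : ∃ E, E = ∫ θ, F (X θ) ∂μ := ⟨_, rfl⟩
  obtain ⟨q, hq⟩ : ∃ q, q = (μ {θ | B < |X θ|}).toReal := ⟨_, rfl⟩
  obtain ⟨S, hS⟩ : ∃ S, S = ∑ z ∈ Z, F (Y z) := ⟨_, rfl⟩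
  obtain ⟨T, hT⟩ : ∃ T, T = ∑ i ∈ I, φ i * (μ {θ | p * i + p / 2 ≤ X θ ∧ X θ ≤ p * (i + M) - p / 2}).toReal := ⟨_, rfl⟩
  rw [← hE] at hEF1 hs4 ⊢
  rw [← hq] at hs4 ⊢
  rw [← hT] at hs3 hs4
  rw [← hS] at hs3 ⊢
  have h5 : D * (((M : ℝ) - 1) * E - M * q - 2 * L * (p * M) * M - 2 * K * η) ≤ M * S :=
    (mul_le_mul_of_nonneg_left (by linarith) hD.le).trans hs3
  have h6 : D * (M * (E - 1 / M - q - 2 * L * (p * M) - 2 * K * η / M)) ≤ M * S := by
    refine le_trans (mul_le_mul_of_nonneg_left ?_ hD.le) h5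
    have e1 : (M : ℝ) * (E - 1 / M - q - 2 * L * (p * M) - 2 * K * η / M) =
        M * E - 1 - M * q - 2 * L * (p * M) * M - 2 * K * η := by field_simp
    rw [e1]
    linarith
  have h7 : (M : ℝ) * (D * (E - 1 / M - q - 2 * L * (p * M) - 2 * K * η / M)) ≤ M * S := by
    calc _ = D * (M * (E - 1 / M - q - 2 * L * (p * M) - 2 * K * η / M)) := by ring
      _ ≤ _ := h6
  exact le_of_mul_le_mul_left h7 hM0

end Pool.Agent.H439.MC
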