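import Mathlib
import Pool.Agent.H439.MC.Ang

/-!
# The central limit theorem for lacunary trigonometric sums, with stable convergence
-/

set_option autoImplicit false

namespace Pool.Agent.H439.MC

open Complex Set Topology Filter MeasureTheory

variable {d : ℕ}

theorem ex_shift (m : ℤ) (θ p : ℝ) : ex m (θ + p) = ex m p * ex m θ := by
  unfold ex
  rw [← exp_add]; congr 1; push_cast; ring

/-- vanishing of the integrals of a character against a function of smaller period -/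
theorem shift_zero (hd : 2 ≤ d) {G : ℝ → ℂ} (hG : Continuous G) {j : ℕ}
    (hper : Function.Periodic G (2 * Real.pi / (d ^ (j + 1) : ℕ))) {m : ℤ} (hm : ¬ (d : ℤ) ∣ m) :
    ∫ θ, ex (m * (d : ℤ) ^ j) θ * G θ ∂Pm = 0 := by
  have hd0 : (0 : ℝ) < d := by exact_mod_cast (by omega : 0 < d)
  set p : ℝ := 2 * Real.pi / (d ^ (j + 1) : ℕ) with hp
  have hDp : ((d ^ (j + 1) : ℕ) : ℝ) * p = 2 * Real.pi := by
    rw [hp]; push_cast; field_simp
  set f : ℝ → ℂ := fun θ => ex (m * (d : ℤ) ^ j) θ * G θ with hf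
  have hGper : Function.Periodic G (2 * Real.pi) := by
    rw [← hDp]
    have := hper.nat_mul (d ^ (j + 1))
    exact_mod_cast this
  have hfper : Function.Periodic f (2 * Real.pi) := fun θ => by
    simp only [hf]
    rw [ex_period, hGper]
  have h1 : ∫ θ in (0 : ℝ)..2 * Real.pi, f (θ + p) = ∫ θ in (0 : ℝ)..2 * Real.pi, f θ := by
    rw [intervalIntegral.integral_comp_add_right]
    have := hfper.intervalIntegral_add_eq p 0
    rw [zero_add] at this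
    rw [← this]
    congr 1 <;> ring
  set ζ : ℂ := ex (m * (d : ℤ) ^ j) p with hζ
  have h2 : ∀ θ, f (θ + p) = ζ * f θ := by
    intro θ
    simp only [hf]
    rw [ex_shift, hper]
    ring
  have hζ1 : ζ ≠ 1 := by
    intro h
    rw [hζ] at h
    unfold ex at h
    rw [Complex.exp_eq_one_iff] at h
    obtain ⟨n, hn⟩ := h
    apply hm
    refine ⟨n, ?_⟩
    have h3 : ((m * (d : ℤ) ^ j : ℤ) : ℂ) * (p : ℂ) * I * (d : ℂ) = (m : ℂ) * (2 * Real.pi * I) := by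
      have h4 : (((d : ℝ) ^ j * d : ℝ) : ℂ) * (p : ℂ) = ((2 * Real.pi : ℝ) : ℂ) := by
        rw [← ofReal_mul, ← hDp]
        congr 2
        push_cast; ring
      push_cast at h4 ⊢
      linear_combination (m : ℂ) * I * h4
    rw [hn] at h3
    have h4 : (2 * Real.pi * I : ℂ) ≠ 0 := by
      apply mul_ne_zero _ I_ne_zero
      exact_mod_cast two_pi_pos'.ne'
    have h5 : (m : ℂ) = (d : ℂ) * n := by
      apply mul_right_cancel₀ h4
      rw [← h3]; ring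
    exact_mod_cast h5
  have h3 : ∫ θ in (0 : ℝ)..2 * Real.pi, f (θ + p) = ζ * ∫ θ in (0 : ℝ)..2 * Real.pi, f θ := by
    rw [← intervalIntegral.integral_const_mul]
    congr 1
    funext θ
    exact h2 θ
  rw [h1] at h3
  have h4 : (1 - ζ) * ∫ θ in (0 : ℝ)..2 * Real.pi, f θ = 0 := by linear_combination h3
  have h5 : ∫ θ in (0 : ℝ)..2 * Real.pi, f θ = 0 := by
    rcases mul_eq_zero.1 h4 with h | h
    · exact absurd (sub_eq_zero.1 h).symm hζ1
    · exact h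
  rw [integral_Pm, h5, smul_zero]

/-- the function of one step -/
noncomputable def hh (K : ℕ) (q : ℕ → ℤ) (a : ℕ → ℂ) (θ : ℝ) : ℝ :=
  (∑ k ∈ Finset.Icc 1 K, a k * ex (q k) θ).re

/-- the sum of the moduli of the coefficients -/
noncomputable def HH (K : ℕ) (a : ℕ → ℂ) : ℝ := ∑ k ∈ Finset.Icc 1 K, ‖a k‖

theorem HH_nonneg (K : ℕ) (a : ℕ → ℂ) : 0 ≤ HH K a := Finset.sum_nonneg fun _ _ => norm_nonneg _

theorem hh_cont (K : ℕ) (q : ℕ → ℤ) (a : ℕ → ℂ) : Continuous (hh K q a) := by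
  unfold hh
  have := ex_cont
  apply continuous_re.comp
  fun_prop

theorem hh_le (K : ℕ) (q : ℕ → ℤ) (a : ℕ → ℂ) (θ : ℝ) : |hh K q a θ| ≤ HH K a := by
  unfold hh HH
  refine (abs_re_le_norm _).trans ((norm_sum_le _ _).trans (le_of_eq ?_))
  simp [norm_ex]

theorem hh_period (K : ℕ) (q : ℕ → ℤ) (a : ℕ → ℂ) (θ : ℝ) : hh K q a (θ + 2 * Real.pi) = hh K q a θ := by
  unfold hh
  simp only [ex_period]

/-- the variance -/
noncomputable def vr (K : ℕ) (q : ℕ → ℤ) (a : ℕ → ℂ) : ℝ := ∫ θ, hh K q a θ ^ 2 ∂Pm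

theorem vr_nonneg (K : ℕ) (q : ℕ → ℤ) (a : ℕ → ℂ) : 0 ≤ vr K q a :=
  integral_nonneg fun _ => by positivity

theorem vr_le (K : ℕ) (q : ℕ → ℤ) (a : ℕ → ℂ) : vr K q a ≤ HH K a ^ 2 := by
  unfold vr
  have h1 : ∫ θ, hh K q a θ ^ 2 ∂Pm ≤ ∫ θ, HH K a ^ 2 ∂Pm := by
    apply integral_mono (Continuous.integrable_Pm ((hh_cont K q a).pow 2)) (integrable_const _)
    intro θ
    exact sq_le_sq.2 ((hh_le K q a θ).trans (le_abs_self _))
  refine h1.trans ?_
  simp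

/-- the steps -/
noncomputable def XX (d K : ℕ) (q : ℕ → ℤ) (a : ℕ → ℂ) (j : ℕ) (θ : ℝ) : ℝ :=
  hh K q a (((d ^ j : ℕ) : ℝ) * θ)

theorem XX_cont (K : ℕ) (q : ℕ → ℤ) (a : ℕ → ℂ) (j : ℕ) : Continuous (XX d K q a j) := by
  unfold XX
  exact (hh_cont K q a).comp (by fun_prop)

theorem XX_le (K : ℕ) (q : ℕ → ℤ) (a : ℕ → ℂ) (j : ℕ) (θ : ℝ) : |XX d K q a j θ| ≤ HH K a :=
  hh_le _ _ _ _

theorem XX_per (hd : 2 ≤ d) (K : ℕ) (q : ℕ → ℤ) (a : ℕ → ℂ) {i j : ℕ} (hij : i ≤ j) :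
    Function.Periodic (XX d K q a j) (2 * Real.pi / (d ^ i : ℕ)) := by
  intro θ
  unfold XX
  have hd0 : (d : ℝ) ≠ 0 := by exact_mod_cast (by omega : d ≠ 0)
  have h1 : ((d ^ j : ℕ) : ℝ) * (θ + 2 * Real.pi / (d ^ i : ℕ)) =
      ((d ^ j : ℕ) : ℝ) * θ + (d ^ (j - i) : ℕ) * (2 * Real.pi) := by
    have h2 : ((d ^ j : ℕ) : ℝ) = (d ^ (j - i) : ℕ) * (d ^ i : ℕ) := by
      push_cast
      rw [← pow_add]
      congr 1
      omega
    rw [mul_add, h2]
    push_cast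
    field_simp
  rw [h1]
  have h2 : Function.Periodic (hh K q a) (2 * Real.pi) := hh_period K q a
  exact h2.nat_mul (d ^ (j - i)) _

/-- the product -/
noncomputable def PP (d K : ℕ) (q : ℕ → ℤ) (a : ℕ → ℂ) (τ : ℝ) (i n : ℕ) (θ : ℝ) : ℂ :=
  ∏ j ∈ Finset.Ico i n, (1 + I * (τ * XX d K q a j θ : ℝ))

theorem PP_cont (K : ℕ) (q : ℕ → ℤ) (a : ℕ → ℂ) (τ : ℝ) (i n : ℕ) : Continuous (PP d K q a τ i n) := by
  unfold PP
  apply continuous_finsetProd
  intro j _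
  have := XX_cont (d := d) K q a j
  fun_prop

theorem PP_per (hd : 2 ≤ d) (K : ℕ) (q : ℕ → ℤ) (a : ℕ → ℂ) (τ : ℝ) (i n : ℕ) :
    Function.Periodic (PP d K q a τ i n) (2 * Real.pi / (d ^ i : ℕ)) := by
  intro θ
  unfold PP
  apply Finset.prod_congr rfl
  intro j hj
  rw [XX_per hd K q a (Finset.mem_Ico.1 hj).1]

theorem integral_XX_mul (hd : 2 ≤ d) {K : ℕ} {q : ℕ → ℤ} (hq : ∀ k ∈ Finset.Icc 1 K, ¬ (d : ℤ) ∣ q k)
    (a : ℕ → ℂ) {j : ℕ} {G : ℝ → ℂ} (hG : Continuous G)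
    (hper : Function.Periodic G (2 * Real.pi / (d ^ (j + 1) : ℕ))) :
    ∫ θ, (XX d K q a j θ : ℂ) * G θ ∂Pm = 0 := by
  have hexc := ex_cont
  have h1 : ∀ θ, (XX d K q a j θ : ℂ) * G θ = ∑ k ∈ Finset.Icc 1 K,
      (a k / 2 * (ex (q k * (d : ℤ) ^ j) θ * G θ) +
        (starRingEnd ℂ) (a k) / 2 * (ex (-q k * (d : ℤ) ^ j) θ * G θ)) := by
    intro θ
    unfold XX hh
    rw [Complex.re_eq_add_conj, map_sum, ← Finset.sum_add_distrib, Finset.sum_div, Finset.sum_mul]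
    apply Finset.sum_congr rfl
    intro k _
    rw [map_mul, ex_conj, ex_mul, ex_mul]
    push_cast
    ring
  simp only [h1]
  rw [integral_finsetSum _ (fun k _ => Continuous.integrable_Pm (by fun_prop))]
  apply Finset.sum_eq_zero
  intro k hk
  rw [integral_add (Continuous.integrable_Pm (by fun_prop)) (Continuous.integrable_Pm (by fun_prop)),
    integral_const_mul, integral_const_mul, shift_zero hd hG hper (hq k hk),
    shift_zero hd hG hper (by rw [dvd_neg]; exact hq k hk)]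
  simp

theorem integral_PP (hd : 2 ≤ d) {K : ℕ} {q : ℕ → ℤ} (hq : ∀ k ∈ Finset.Icc 1 K, ¬ (d : ℤ) ∣ q k)
    (a : ℕ → ℂ) (τ : ℝ) (l i : ℕ) : ∫ θ, PP d K q a τ i (i + l) θ ∂Pm = 1 := by
  induction l generalizing i with
  | zero =>
    unfold PP
    simp
  | succ l ih =>
    have h1 : ∀ θ, PP d K q a τ i (i + (l + 1)) θ = PP d K q a τ (i + 1) (i + 1 + l) θ +
        (I * τ) * ((XX d K q a i θ : ℂ) * PP d K q a τ (i + 1) (i + 1 + l) θ) := by
      intro θ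
      unfold PP
      rw [Finset.prod_eq_prod_Ico_succ_bot (by omega), show i + 1 + l = i + (l + 1) by ring]
      push_cast
      ring
    simp only [h1]
    have hc := PP_cont (d := d) K q a τ (i + 1) (i + 1 + l)
    have hX := XX_cont (d := d) K q a i
    rw [integral_add (Continuous.integrable_Pm (by fun_prop)) (Continuous.integrable_Pm (by fun_prop)),
      ih, integral_const_mul, integral_XX_mul hd hq a hc (PP_per hd K q a τ (i + 1) _), mul_zero, add_zero]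

theorem norm_PP_le (K : ℕ) (q : ℕ → ℤ) (a : ℕ → ℂ) (τ : ℝ) (i n : ℕ) (θ : ℝ) :
    ‖PP d K q a τ i n θ‖ ≤ Real.exp (n * (τ ^ 2 * HH K a ^ 2) / 2) := by
  unfold PP
  rw [norm_prod]
  have h1 : ∀ j ∈ Finset.Ico i n, ‖1 + I * ((τ * XX d K q a j θ : ℝ) : ℂ)‖ ≤
      Real.exp (τ ^ 2 * HH K a ^ 2 / 2) := by
    intro j _
    set x : ℝ := τ * XX d K q a j θ with hx
    have h2 : ‖1 + I * (x : ℂ)‖ ^ 2 = 1 + x ^ 2 := by
      rw [← Complex.normSq_eq_norm_sq, Complex.normSq_apply]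
      simp
      ring
    have h3 : x ^ 2 ≤ τ ^ 2 * HH K a ^ 2 := by
      rw [hx, mul_pow]
      apply mul_le_mul_of_nonneg_left _ (by positivity)
      exact sq_le_sq.2 ((XX_le K q a j θ).trans (le_abs_self _))
    have h4 : ‖1 + I * (x : ℂ)‖ ^ 2 ≤ Real.exp (τ ^ 2 * HH K a ^ 2 / 2) ^ 2 := by
      rw [h2, ← Real.exp_nat_mul]
      have := Real.add_one_le_exp (τ ^ 2 * HH K a ^ 2)
      have e1 : ((2 : ℕ) : ℝ) * (τ ^ 2 * HH K a ^ 2 / 2) = τ ^ 2 * HH K a ^ 2 := by push_cast; ring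
      rw [e1]
      linarith
    exact le_of_sq_le_sq h4 (Real.exp_pos _).le
  refine (Finset.prod_le_prod (fun _ _ => norm_nonneg _) h1).trans ?_
  rw [Finset.prod_const, Nat.card_Ico, ← Real.exp_nat_mul]
  apply Real.exp_le_exp.2
  have h2 : ((n - i : ℕ) : ℝ) ≤ n := by exact_mod_cast Nat.sub_le n i
  have h3 : 0 ≤ τ ^ 2 * HH K a ^ 2 / 2 := by positivity
  calc ((n - i : ℕ) : ℝ) * (τ ^ 2 * HH K a ^ 2 / 2) ≤ n * (τ ^ 2 * HH K a ^ 2 / 2) :=
        mul_le_mul_of_nonneg_right h2 h3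
    _ = _ := by ring

/-- the law of large numbers for the squares -/
theorem lln_sq (hd : 2 ≤ d) (K : ℕ) (q : ℕ → ℤ) (a : ℕ → ℂ) (J : Finset ℕ) :
    ∫ θ, |∑ j ∈ J, XX d K q a j θ ^ 2 - J.card * vr K q a| ∂Pm ≤ HH K a ^ 2 * √J.card := by
  set S : Finset (Bool × (ℕ × ℕ)) := (Finset.univ : Finset Bool) ×ˢ (Finset.Icc 1 K ×ˢ Finset.Icc 1 K) with hS
  set c : Bool × (ℕ × ℕ) → ℂ := fun s => if s.1 then a s.2.1 * a s.2.2 / 2
    else a s.2.1 * (starRingEnd ℂ) (a s.2.2) / 2 with hc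
  set m : Bool × (ℕ × ℕ) → ℤ := fun s => if s.1 then q s.2.1 + q s.2.2 else q s.2.1 - q s.2.2 with hm
  have h1 : ∀ θ, hh K q a θ ^ 2 = (∑ s ∈ S, c s * ex (m s) θ).re := by
    intro θ
    rw [hS, Finset.sum_product, Fintype.sum_bool]
    simp only [hc, hm, if_true, Bool.false_eq_true, if_false]
    unfold hh
    set W : ℂ := ∑ k ∈ Finset.Icc 1 K, a k * ex (q k) θ with hW
    have e1 : ∑ y ∈ Finset.Icc 1 K ×ˢ Finset.Icc 1 K, a y.1 * a y.2 / 2 * ex (q y.1 + q y.2) θ =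
        W * W / 2 := by
      rw [hW, Finset.sum_mul_sum, ← Finset.sum_product', Finset.sum_div]
      apply Finset.sum_congr rfl
      intro y _
      rw [ex_add]; ring
    have e2 : ∑ y ∈ Finset.Icc 1 K ×ˢ Finset.Icc 1 K,
        a y.1 * (starRingEnd ℂ) (a y.2) / 2 * ex (q y.1 - q y.2) θ = W * (starRingEnd ℂ) W / 2 := by
      rw [hW, map_sum, Finset.sum_mul_sum, ← Finset.sum_product', Finset.sum_div]
      apply Finset.sum_congr rfl
      intro y _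
      rw [sub_eq_add_neg, ex_add, map_mul, ex_conj]; ring
    rw [e1, e2, ← add_div, ← mul_add, Complex.add_conj]
    have e3 : W * (((2 * W.re : ℝ) : ℂ)) / 2 = W * (W.re : ℂ) := by push_cast; ring
    rw [e3, Complex.re_mul_ofReal]
    ring
  have h2 : ∑ s ∈ S, ‖c s‖ ≤ HH K a ^ 2 := by
    rw [hS, Finset.sum_product, Fintype.sum_bool]
    simp only [hc, if_true, Bool.false_eq_true, if_false, norm_div, norm_mul, Complex.norm_conj]
    have e1 : ∑ y ∈ Finset.Icc 1 K ×ˢ Finset.Icc 1 K, ‖a y.1‖ * ‖a y.2‖ / ‖(2 : ℂ)‖ = HH K a ^ 2 / 2 := by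
      unfold HH
      rw [sq, Finset.sum_mul_sum, ← Finset.sum_product', Finset.sum_div]
      simp
    rw [e1]
    linarith
  have h3 := lln hd S c m J
  simp only [← h1] at h3
  unfold XX vr
  refine h3.trans ?_
  exact mul_le_mul_of_nonneg_right h2 (Real.sqrt_nonneg _)

end Pool.Agent.H439.MC
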