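import Mathlib
import Pool.Agent.H439.MC.Lac

/-!
# The central limit theorem for lacunary trigonometric sums, with stable convergence, II
-/

set_option autoImplicit false

namespace Pool.Agent.H439.MC

open Complex Set Topology Filter MeasureTheory

variable {d : ℕ}

theorem log_taylor3 {x : ℝ} (hx : |x| ≤ 1 / 2) :
    ‖I * (x : ℂ) - log (1 + I * x) + ((x ^ 2 / 2 : ℝ) : ℂ)‖ ≤ |x| ^ 3 := by
  have hz : ‖I * (x : ℂ)‖ = |x| := by rw [norm_mul, norm_I, one_mul, Complex.norm_real, Real.norm_eq_abs]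
  have h1 := norm_log_sub_logTaylor_le 2 (z := I * (x : ℂ)) (by rw [hz]; linarith)
  have h2 : logTaylor (2 + 1) (I * (x : ℂ)) = I * x + ((x ^ 2 / 2 : ℝ) : ℂ) := by
    have e : (I * (x : ℂ)) ^ 2 = -(x : ℂ) ^ 2 := by rw [mul_pow, I_sq]; ring
    unfold logTaylor
    simp only [Finset.sum_range_succ, Finset.sum_range_zero]
    rw [e]
    push_cast
    ring
  rw [h2] at h1
  have h3 : I * (x : ℂ) - log (1 + I * x) + ((x ^ 2 / 2 : ℝ) : ℂ) =
      -(log (1 + I * x) - (I * x + ((x ^ 2 / 2 : ℝ) : ℂ))) := by ring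
  rw [h3, norm_neg]
  refine h1.trans ?_
  rw [hz]
  have h4 : (1 - |x|)⁻¹ ≤ 2 := by
    rw [inv_le_comm₀ (by linarith) two_pos]
    linarith
  have h5 : 0 ≤ |x| ^ 3 := by positivity
  calc |x| ^ (2 + 1) * (1 - |x|)⁻¹ / ((2 : ℕ) + 1) ≤ |x| ^ 3 * 2 / 3 := by
        push_cast
        have : |x| ^ 3 * (1 - |x|)⁻¹ ≤ |x| ^ 3 * 2 := mul_le_mul_of_nonneg_left h4 h5
        linarith
    _ ≤ |x| ^ 3 := by linarith

theorem exp_close (w b : ℂ) (hb : b.re ≤ 0) : ‖exp (b + w) - exp b‖ ≤ ‖w‖ * Real.exp ‖w‖ := by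
  have h1 : exp (b + w) - exp b = exp b * (exp w - 1) := by rw [exp_add]; ring
  rw [h1, norm_mul]
  have h2 : ‖exp b‖ ≤ 1 := by
    rw [Complex.norm_exp]
    exact Real.exp_le_one_iff.2 hb
  have h3 := norm_exp_sub_sum_le_norm_mul_exp w 1
  simp only [Finset.range_one, Finset.sum_singleton, pow_zero, Nat.factorial_zero, Nat.cast_one,
    div_one, pow_one] at h3
  calc ‖exp b‖ * ‖exp w - 1‖ ≤ 1 * (‖w‖ * Real.exp ‖w‖) :=
        mul_le_mul h2 h3 (norm_nonneg _) zero_le_one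
    _ = _ := one_mul _

theorem exp_I_lip (x y : ℝ) : ‖exp (I * (x : ℂ)) - exp (I * y)‖ ≤ |x - y| := by
  have h1 : exp (I * (x : ℂ)) - exp (I * y) = exp (I * y) * (exp (I * ((x - y : ℝ) : ℂ)) - 1) := by
    rw [mul_sub, ← exp_add, mul_one]
    congr 2
    push_cast; ring
  rw [h1, norm_mul, norm_exp_I_mul_ofReal, one_mul]
  exact Real.norm_exp_I_mul_ofReal_sub_one_le

/-- pointwise comparison -/
theorem pointwise (K : ℕ) (q : ℕ → ℤ) (a : ℕ → ℂ) {t : ℝ} {i n : ℕ} (hn : 1 ≤ n)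
    (hn2 : |t| * HH K a ≤ √n / 2) (θ : ℝ) :
    ‖exp (I * ((t / √n * ∑ j ∈ Finset.Ico i n, XX d K q a j θ : ℝ) : ℂ)) -
      PP d K q a (t / √n) i n θ * exp (((-(t ^ 2 * vr K q a / 2) : ℝ) : ℂ))‖ ≤
      Real.exp (t ^ 2 * HH K a ^ 2 / 2) * Real.exp (|t| ^ 3 * HH K a ^ 3 + t ^ 2 * HH K a ^ 2) *
      (|t| ^ 3 * HH K a ^ 3 / √n + t ^ 2 / 2 * (|∑ j ∈ Finset.Ico i n, XX d K q a j θ ^ 2 - n * vr K q a| / n)) := by
  have hn0 : (0 : ℝ) < n := by exact_mod_cast hn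
  have hsn : 0 < √(n : ℝ) := Real.sqrt_pos.2 hn0
  have hsn2 : √(n : ℝ) ^ 2 = n := Real.sq_sqrt hn0.le
  have hs1 : 1 ≤ √(n : ℝ) := by
    rw [Real.one_le_sqrt]; exact_mod_cast hn
  set H := HH K a with hH
  have hH0 : 0 ≤ H := HH_nonneg K a
  set v := vr K q a with hv
  have hv0 : 0 ≤ v := vr_nonneg K q a
  have hvH : v ≤ H ^ 2 := vr_le K q a
  set τ : ℝ := t / √n with hτ
  set X : ℕ → ℝ := fun j => XX d K q a j θ with hX
  have hXH : ∀ j, |X j| ≤ H := fun j => XX_le K q a j θ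
  have hτX : ∀ j, |τ * X j| ≤ |t| * H / √n := by
    intro j
    rw [abs_mul, hτ, abs_div, abs_of_pos hsn, div_mul_eq_mul_div]
    exact div_le_div_of_nonneg_right (mul_le_mul_of_nonneg_left (hXH j) (abs_nonneg _)) hsn.le
  have hτX2 : ∀ j, |τ * X j| ≤ 1 / 2 := by
    intro j
    refine (hτX j).trans ?_
    rw [div_le_iff₀ hsn]; linarith
  set Q : ℂ := ∑ j ∈ Finset.Ico i n, (I * ((τ * X j : ℝ) : ℂ) - log (1 + I * ((τ * X j : ℝ) : ℂ))) with hQ
  -- product formula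
  have h1 : exp (I * ((τ * ∑ j ∈ Finset.Ico i n, X j : ℝ) : ℂ)) = PP d K q a τ i n θ * exp Q := by
    have h2 : ∀ j, (1 + I * ((τ * X j : ℝ) : ℂ)) ≠ 0 := by
      intro j h
      have := congrArg Complex.re h
      simp at this
    rw [hQ, Complex.exp_sum]
    unfold PP
    rw [← Finset.prod_mul_distrib, Finset.mul_sum, ofReal_sum, Finset.mul_sum, Complex.exp_sum]
    apply Finset.prod_congr rfl
    intro j _
    rw [Complex.exp_sub, Complex.exp_log (h2 j)]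
    have h3 := h2 j
    change _ = (1 + I * ((τ * X j : ℝ) : ℂ)) * _
    exact ((mul_comm _ _).trans (div_mul_cancel₀ _ h3)).symm
  -- the exponent
  set b : ℂ := ((-(t ^ 2 * v / 2) : ℝ) : ℂ) with hb
  set E : ℝ := |∑ j ∈ Finset.Ico i n, X j ^ 2 - n * v| with hE
  have hQb : ‖Q - b‖ ≤ |t| ^ 3 * H ^ 3 / √n + t ^ 2 / 2 * (E / n) := by
    have h3 : Q - b = ∑ j ∈ Finset.Ico i n, (I * ((τ * X j : ℝ) : ℂ) -
        log (1 + I * ((τ * X j : ℝ) : ℂ)) + (((τ * X j) ^ 2 / 2 : ℝ) : ℂ)) -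
        ((t ^ 2 / 2 * ((∑ j ∈ Finset.Ico i n, X j ^ 2 - n * v) / n) : ℝ) : ℂ) := by
      rw [Finset.sum_add_distrib, ← hQ, hb]
      have h4 : ∑ j ∈ Finset.Ico i n, (((τ * X j) ^ 2 / 2 : ℝ) : ℂ) =
          ((t ^ 2 / 2 * ((∑ j ∈ Finset.Ico i n, X j ^ 2) / n) : ℝ) : ℂ) := by
        rw [← ofReal_sum]
        congr 1
        rw [← Finset.sum_div, Finset.sum_congr rfl (fun j _ => mul_pow τ (X j) 2), ← Finset.mul_sum,
          hτ, div_pow, hsn2]
        field_simp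
      rw [h4]
      have h5 : (n : ℂ) ≠ 0 := by exact_mod_cast hn0.ne'
      push_cast
      field_simp
      ring
    rw [h3]
    refine (norm_sub_le _ _).trans (add_le_add ?_ (le_of_eq ?_))
    · refine (norm_sum_le _ _).trans ?_
      have h4 : ∀ j ∈ Finset.Ico i n, ‖I * ((τ * X j : ℝ) : ℂ) -
          log (1 + I * ((τ * X j : ℝ) : ℂ)) + (((τ * X j) ^ 2 / 2 : ℝ) : ℂ)‖ ≤ (|t| * H / √n) ^ 3 :=
        fun j _ => (log_taylor3 (hτX2 j)).trans (pow_le_pow_left₀ (abs_nonneg _) (hτX j) 3)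
      refine (Finset.sum_le_sum h4).trans ?_
      rw [Finset.sum_const, Nat.card_Ico, nsmul_eq_mul]
      have h5 : ((n - i : ℕ) : ℝ) ≤ n := by exact_mod_cast Nat.sub_le n i
      calc ((n - i : ℕ) : ℝ) * (|t| * H / √n) ^ 3 ≤ n * (|t| * H / √n) ^ 3 :=
            mul_le_mul_of_nonneg_right h5 (by positivity)
        _ = |t| ^ 3 * H ^ 3 / √n := by
            rw [div_pow, mul_pow]
            have : (n : ℝ) = √n ^ 2 := hsn2.symm
            nth_rewrite 1 [this]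
            field_simp
    · rw [Complex.norm_real, Real.norm_eq_abs, abs_mul, abs_of_nonneg (by positivity : 0 ≤ t ^ 2 / 2),
        abs_div, abs_of_pos hn0]
  have hEle : E / n ≤ 2 * H ^ 2 := by
    rw [div_le_iff₀ hn0, hE]
    have h4 : ∑ j ∈ Finset.Ico i n, X j ^ 2 ≤ n * H ^ 2 := by
      have h5 : ∀ j ∈ Finset.Ico i n, X j ^ 2 ≤ H ^ 2 := fun j _ => by
        exact sq_le_sq.2 ((hXH j).trans (le_abs_self _))
      refine (Finset.sum_le_sum h5).trans ?_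
      rw [Finset.sum_const, Nat.card_Ico, nsmul_eq_mul]
      have h5 : ((n - i : ℕ) : ℝ) ≤ n := by exact_mod_cast Nat.sub_le n i
      exact mul_le_mul_of_nonneg_right h5 (by positivity)
    have h6 : 0 ≤ ∑ j ∈ Finset.Ico i n, X j ^ 2 := Finset.sum_nonneg fun _ _ => by positivity
    have h7 : n * v ≤ n * H ^ 2 := mul_le_mul_of_nonneg_left hvH hn0.le
    have h8 : 0 ≤ n * v := by positivity
    rw [abs_le]
    constructor <;> nlinarith
  have hQb2 : ‖Q - b‖ ≤ |t| ^ 3 * H ^ 3 + t ^ 2 * H ^ 2 := by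
    refine hQb.trans (add_le_add (div_le_self (by positivity) hs1) ?_)
    nlinarith [mul_le_mul_of_nonneg_left hEle (by positivity : 0 ≤ t ^ 2 / 2)]
  have h5 : ‖exp Q - exp b‖ ≤ ‖Q - b‖ * Real.exp ‖Q - b‖ := by
    have := exp_close (Q - b) b (by
      rw [hb, Complex.ofReal_re]
      have : 0 ≤ t ^ 2 * v / 2 := by positivity
      linarith)
    rwa [add_sub_cancel] at this
  rw [h1, ← mul_sub, norm_mul]
  have h6 : ‖PP d K q a τ i n θ‖ ≤ Real.exp (t ^ 2 * H ^ 2 / 2) := by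
    refine (norm_PP_le K q a τ i n θ).trans (le_of_eq ?_)
    congr 1
    rw [hτ, div_pow, hsn2]
    field_simp
    rfl
  have h7 : ‖exp Q - exp b‖ ≤ Real.exp (|t| ^ 3 * H ^ 3 + t ^ 2 * H ^ 2) *
      (|t| ^ 3 * H ^ 3 / √n + t ^ 2 / 2 * (E / n)) := by
    refine h5.trans ?_
    rw [mul_comm]
    exact mul_le_mul (Real.exp_le_exp.2 hQb2) hQb (norm_nonneg _) (Real.exp_pos _).le
  calc _ ≤ Real.exp (t ^ 2 * H ^ 2 / 2) * (Real.exp (|t| ^ 3 * H ^ 3 + t ^ 2 * H ^ 2) *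
        (|t| ^ 3 * H ^ 3 / √n + t ^ 2 / 2 * (E / n))) :=
        mul_le_mul h6 h7 (norm_nonneg _) (Real.exp_pos _).le
    _ = _ := by ring

/-- **the basic theorem**, continuous weights -/
theorem basic_cont (hd : 2 ≤ d) {K : ℕ} {q : ℕ → ℤ} (hq : ∀ k ∈ Finset.Icc 1 K, ¬ (d : ℤ) ∣ q k)
    (a : ℕ → ℂ) {φ : ℝ → ℂ} (hφ : Continuous φ) {M : ℝ} (hM : ∀ θ, ‖φ θ‖ ≤ M) (t : ℝ) :
    Tendsto (fun n : ℕ => ∫ θ, φ θ * exp (I * ((t / √n * ∑ j ∈ Finset.range n, XX d K q a j θ : ℝ) : ℂ)) ∂Pm)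
      atTop (𝓝 ((∫ θ, φ θ ∂Pm) * exp (((-(t ^ 2 * vr K q a / 2) : ℝ) : ℂ)))) := by
  set H := HH K a with hH
  have hH0 : 0 ≤ H := HH_nonneg K a
  set v := vr K q a with hv
  have hv0 : 0 ≤ v := vr_nonneg K q a
  have hM0 : 0 ≤ M := (norm_nonneg _).trans (hM 0)
  set C1 : ℝ := Real.exp (t ^ 2 * H ^ 2 / 2) with hC1
  set C2 : ℝ := Real.exp (|t| ^ 3 * H ^ 3 + t ^ 2 * H ^ 2) with hC2
  have hC10 : 0 < C1 := Real.exp_pos _
  have hC20 : 0 < C2 := Real.exp_pos _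
  rw [Metric.tendsto_atTop]
  intro ε hε
  -- uniform continuity
  have huc : UniformContinuousOn φ (Icc 0 (2 * Real.pi)) :=
    isCompact_Icc.uniformContinuousOn_of_continuous hφ.continuousOn
  obtain ⟨ω, hω0, hω⟩ : ∃ ω : ℝ, 0 < ω ∧ 2 * ω * C1 ≤ ε / 4 :=
    ⟨ε / (8 * C1), by positivity, le_of_eq (by field_simp; ring)⟩
  obtain ⟨δ, hδ0, hδ⟩ := Metric.uniformContinuousOn_iff.1 huc ω hω0
  obtain ⟨i, hi⟩ : ∃ i : ℕ, 2 * Real.pi / ((d ^ i : ℕ) : ℝ) < δ := by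
    obtain ⟨i, hi⟩ := pow_unbounded_of_one_lt (2 * Real.pi / δ) (by exact_mod_cast (by omega : 1 < d) : (1 : ℝ) < d)
    refine ⟨i, ?_⟩
    push_cast
    rw [div_lt_iff₀ (by positivity)]
    rw [div_lt_iff₀ hδ0] at hi
    linarith
  have hcell : ∀ n, i ≤ n → ‖∫ θ, φ θ * PP d K q a (t / √n) i n θ ∂Pm - ∫ θ, φ θ ∂Pm‖ ≤ ε / 4 := by
    intro n hin
    have hc := PP_cont (d := d) K q a (t / √n) i n
    have h1 := cell hφ hc (D := d ^ i) (by positivity) (PP_per hd K q a _ i n) (ω := ω) (by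
      intro x hx y hy hxy
      have := hδ x hx y hy (by rw [Real.dist_eq]; exact lt_of_le_of_lt hxy hi)
      rw [dist_eq_norm] at this
      exact this.le)
    obtain ⟨l, rfl⟩ := Nat.exists_eq_add_of_le hin
    rw [integral_PP hd hq, one_mul] at h1
    refine h1.trans (le_trans ?_ hω)
    apply mul_le_mul_of_nonneg_left _ (by positivity)
    have h2 : ∫ θ, ‖PP d K q a (t / √((i + l : ℕ) : ℝ)) i (i + l) θ‖ ∂Pm ≤ ∫ _θ, C1 ∂Pm := by
      apply integral_mono (Continuous.integrable_Pm hc.norm) (integrable_const _)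
      intro θ
      refine (norm_PP_le K q a _ i (i + l) θ).trans ?_
      rw [hC1]
      apply Real.exp_le_exp.2
      rw [div_pow, Real.sq_sqrt (Nat.cast_nonneg _)]
      rcases Nat.eq_zero_or_pos (i + l) with h0 | h0
      · rw [h0]; simp; positivity
      · have : ((i + l : ℕ) : ℝ) ≠ 0 := by exact_mod_cast h0.ne'
        apply le_of_eq
        field_simp
        rfl
    refine h2.trans ?_
    simp
  -- the rest
  have hlim : Tendsto (fun n : ℕ => M * (|t| * (i * H) / √n) + M * (C1 * C2 * (|t| ^ 3 * H ^ 3 / √n +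
      t ^ 2 / 2 * (H ^ 2 / √n + i * v / n)))) atTop (𝓝 0) := by
    have s1 : Tendsto (fun n : ℕ => √(n : ℝ)) atTop atTop :=
      Real.tendsto_sqrt_atTop.comp tendsto_natCast_atTop_atTop
    have e1 : Tendsto (fun n : ℕ => |t| * (i * H) / √n) atTop (𝓝 0) := tendsto_const_nhds.div_atTop s1
    have e2 : Tendsto (fun n : ℕ => |t| ^ 3 * H ^ 3 / √n) atTop (𝓝 0) := tendsto_const_nhds.div_atTop s1
    have e3 : Tendsto (fun n : ℕ => H ^ 2 / √n) atTop (𝓝 0) := tendsto_const_nhds.div_atTop s1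
    have e4 : Tendsto (fun n : ℕ => i * v / (n : ℝ)) atTop (𝓝 0) :=
      tendsto_const_nhds.div_atTop tendsto_natCast_atTop_atTop
    have := (e1.const_mul M).add (((e2.add ((e3.add e4).const_mul (t ^ 2 / 2))).const_mul (C1 * C2)).const_mul M)
    simpa using this
  have hlarge : ∀ᶠ n : ℕ in atTop, |t| * H ≤ √n / 2 := by
    have s1 : Tendsto (fun n : ℕ => √(n : ℝ)) atTop atTop :=
      Real.tendsto_sqrt_atTop.comp tendsto_natCast_atTop_atTop
    filter_upwards [s1.eventually_ge_atTop (2 * (|t| * H))] with n hn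
    linarith
  obtain ⟨n0, hn0⟩ := eventually_atTop.1 ((hlim.eventually (gt_mem_nhds (by positivity : (0 : ℝ) < ε / 4))).and
    (hlarge.and ((eventually_ge_atTop i).and (eventually_ge_atTop 1))))
  refine ⟨n0, fun n hn => ?_⟩
  obtain ⟨h1, h2, h3, h4⟩ := hn0 n hn
  have hnp : (0 : ℝ) < n := by exact_mod_cast h4
  have hsn : 0 < √(n : ℝ) := Real.sqrt_pos.2 hnp
  set b : ℂ := exp (((-(t ^ 2 * v / 2) : ℝ) : ℂ)) with hb
  have hb1 : ‖b‖ ≤ 1 := by
    rw [hb, Complex.norm_exp, Complex.ofReal_re, Real.exp_le_one_iff]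
    have : 0 ≤ t ^ 2 * v / 2 := by positivity
    linarith
  have hXc := fun j => XX_cont (d := d) K q a j
  have hPc := PP_cont (d := d) K q a (t / √n) i n
  have c1 : Continuous fun θ : ℝ => exp (I * ((t / √n * ∑ j ∈ Finset.range n, XX d K q a j θ : ℝ) : ℂ)) := by
    fun_prop
  have c2 : Continuous fun θ : ℝ => exp (I * ((t / √n * ∑ j ∈ Finset.Ico i n, XX d K q a j θ : ℝ) : ℂ)) := by
    fun_prop
  have i1 : Integrable (fun θ : ℝ => φ θ * exp (I * ((t / √n * ∑ j ∈ Finset.range n, XX d K q a j θ : ℝ) : ℂ))) Pm :=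
    Continuous.integrable_Pm (hφ.mul c1)
  have i2 : Integrable (fun θ : ℝ => φ θ * exp (I * ((t / √n * ∑ j ∈ Finset.Ico i n, XX d K q a j θ : ℝ) : ℂ))) Pm :=
    Continuous.integrable_Pm (hφ.mul c2)
  have i3 : Integrable (fun θ : ℝ => φ θ * PP d K q a (t / √n) i n θ * b) Pm :=
    Continuous.integrable_Pm ((hφ.mul hPc).mul continuous_const)
  -- first difference
  have d1 : ‖∫ θ, φ θ * exp (I * ((t / √n * ∑ j ∈ Finset.range n, XX d K q a j θ : ℝ) : ℂ)) ∂Pm -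
      ∫ θ, φ θ * exp (I * ((t / √n * ∑ j ∈ Finset.Ico i n, XX d K q a j θ : ℝ) : ℂ)) ∂Pm‖ ≤
      M * (|t| * (i * H) / √n) := by
    rw [← integral_sub i1 i2]
    refine (norm_integral_le_integral_norm _).trans ?_
    have e1 : ∫ θ, ‖φ θ * exp (I * ((t / √n * ∑ j ∈ Finset.range n, XX d K q a j θ : ℝ) : ℂ)) -
        φ θ * exp (I * ((t / √n * ∑ j ∈ Finset.Ico i n, XX d K q a j θ : ℝ) : ℂ))‖ ∂Pm ≤
        ∫ _θ, M * (|t| * (i * H) / √n) ∂Pm := by
      apply integral_mono (Continuous.integrable_Pm ((hφ.mul c1).sub (hφ.mul c2)).norm) (integrable_const _)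
      intro θ
      change ‖φ θ * exp (I * ((t / √n * ∑ j ∈ Finset.range n, XX d K q a j θ : ℝ) : ℂ)) -
        φ θ * exp (I * ((t / √n * ∑ j ∈ Finset.Ico i n, XX d K q a j θ : ℝ) : ℂ))‖ ≤ _
      rw [← mul_sub, norm_mul]
      apply mul_le_mul (hM θ) _ (norm_nonneg _) hM0
      refine (exp_I_lip _ _).trans ?_
      rw [← mul_sub, Finset.range_eq_Ico, ← Finset.sum_Ico_consecutive _ (Nat.zero_le i) h3,
        add_sub_cancel_right, abs_mul, abs_div, abs_of_pos hsn, div_mul_eq_mul_div]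
      apply div_le_div_of_nonneg_right _ hsn.le
      apply mul_le_mul_of_nonneg_left _ (abs_nonneg _)
      refine (Finset.abs_sum_le_sum_abs _ _).trans ?_
      refine (Finset.sum_le_sum fun j _ => XX_le (d := d) K q a j θ).trans ?_
      simp
      rfl
    refine e1.trans ?_
    simp
  -- second difference
  have d2 : ‖∫ θ, φ θ * exp (I * ((t / √n * ∑ j ∈ Finset.Ico i n, XX d K q a j θ : ℝ) : ℂ)) ∂Pm -
      (∫ θ, φ θ * PP d K q a (t / √n) i n θ ∂Pm) * b‖ ≤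
      M * (C1 * C2 * (|t| ^ 3 * H ^ 3 / √n + t ^ 2 / 2 * (H ^ 2 / √n + i * v / n))) := by
    rw [← integral_mul_const, ← integral_sub i2 i3]
    refine (norm_integral_le_integral_norm _).trans ?_
    set E : ℝ → ℝ := fun θ => |∑ j ∈ Finset.Ico i n, XX d K q a j θ ^ 2 - n * v| with hE
    have hEc : Continuous E := by
      rw [hE]
      exact (Continuous.sub (continuous_finsetSum _ fun j _ => (hXc j).pow 2) continuous_const).abs
    have e1 : ∫ θ, ‖φ θ * exp (I * ((t / √n * ∑ j ∈ Finset.Ico i n, XX d K q a j θ : ℝ) : ℂ)) -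
        φ θ * PP d K q a (t / √n) i n θ * b‖ ∂Pm ≤
        ∫ θ, M * (C1 * C2 * (|t| ^ 3 * H ^ 3 / √n + t ^ 2 / 2 * (E θ / n))) ∂Pm := by
      apply integral_mono (Continuous.integrable_Pm ((hφ.mul c2).sub ((hφ.mul hPc).mul continuous_const)).norm)
        (Continuous.integrable_Pm (by fun_prop))
      intro θ
      change ‖φ θ * exp (I * ((t / √n * ∑ j ∈ Finset.Ico i n, XX d K q a j θ : ℝ) : ℂ)) -
        φ θ * PP d K q a (t / √n) i n θ * b‖ ≤ _
      rw [mul_assoc, ← mul_sub, norm_mul]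
      exact mul_le_mul (hM θ) (pointwise K q a h4 h2 θ) (norm_nonneg _) hM0
    refine e1.trans ?_
    have hEi : Integrable E Pm := Continuous.integrable_Pm hEc
    rw [integral_const_mul, integral_const_mul, integral_add (integrable_const _)
      ((hEi.div_const _).const_mul _), integral_const_mul, integral_div, integral_const]
    simp only [probReal_univ, one_smul]
    have e2 : ∫ θ, E θ ∂Pm ≤ H ^ 2 * √n + i * v := by
      have e3 : ∀ θ, E θ ≤ |∑ j ∈ Finset.Ico i n, XX d K q a j θ ^ 2 - (Finset.Ico i n).card * v| + i * v := by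
        intro θ
        rw [hE]
        simp only
        have e4 : ∑ j ∈ Finset.Ico i n, XX d K q a j θ ^ 2 - n * v =
            (∑ j ∈ Finset.Ico i n, XX d K q a j θ ^ 2 - (Finset.Ico i n).card * v) + (-(i * v)) := by
          rw [Nat.card_Ico, Nat.cast_sub h3]; ring
        rw [e4]
        refine (abs_add_le _ _).trans ?_
        rw [abs_neg, abs_of_nonneg (by positivity : (0 : ℝ) ≤ i * v)]
      have e5 : ∫ θ, E θ ∂Pm ≤ ∫ θ, (|∑ j ∈ Finset.Ico i n, XX d K q a j θ ^ 2 -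
          (Finset.Ico i n).card * v| + i * v) ∂Pm := by
        apply integral_mono hEi _ e3
        apply Continuous.integrable_Pm
        exact (Continuous.sub (continuous_finsetSum _ fun j _ => (hXc j).pow 2) continuous_const).abs.add
          continuous_const
      refine e5.trans ?_
      have i4 : Integrable (fun θ => |∑ j ∈ Finset.Ico i n, XX d K q a j θ ^ 2 -
          (Finset.Ico i n).card * v|) Pm := by
        apply Continuous.integrable_Pm
        exact (Continuous.sub (continuous_finsetSum _ fun j _ => (hXc j).pow 2) continuous_const).abs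
      rw [integral_add i4 (integrable_const _), integral_const]
      simp only [probReal_univ, one_smul]
      have e6 := lln_sq hd K q a (Finset.Ico i n)
      refine (add_le_add_left (e6.trans ?_) _)
      apply mul_le_mul_of_nonneg_left _ (by positivity)
      apply Real.sqrt_le_sqrt
      rw [Nat.card_Ico]
      exact_mod_cast Nat.sub_le n i
    have e3 : (∫ θ, E θ ∂Pm) / n ≤ H ^ 2 / √n + i * v / n := by
      calc (∫ θ, E θ ∂Pm) / n ≤ (H ^ 2 * √n + i * v) / n := div_le_div_of_nonneg_right e2 hnp.le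
        _ = H ^ 2 / √n + i * v / n := by
            rw [add_div]
            congr 1
            have : (n : ℝ) = √n ^ 2 := (Real.sq_sqrt hnp.le).symm
            nth_rewrite 2 [this]
            field_simp
    gcongr
    rw [integral_div]
    exact e3
  -- third difference
  have d3 : ‖(∫ θ, φ θ * PP d K q a (t / √n) i n θ ∂Pm) * b - (∫ θ, φ θ ∂Pm) * b‖ ≤ ε / 4 := by
    rw [← sub_mul, norm_mul]
    calc _ ≤ ε / 4 * 1 := mul_le_mul (hcell n h3) hb1 (norm_nonneg _) (by positivity)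
      _ = ε / 4 := mul_one _
  rw [dist_eq_norm]
  calc _ = ‖(∫ θ, φ θ * exp (I * ((t / √n * ∑ j ∈ Finset.range n, XX d K q a j θ : ℝ) : ℂ)) ∂Pm -
      ∫ θ, φ θ * exp (I * ((t / √n * ∑ j ∈ Finset.Ico i n, XX d K q a j θ : ℝ) : ℂ)) ∂Pm) +
      ((∫ θ, φ θ * exp (I * ((t / √n * ∑ j ∈ Finset.Ico i n, XX d K q a j θ : ℝ) : ℂ)) ∂Pm -
      (∫ θ, φ θ * PP d K q a (t / √n) i n θ ∂Pm) * b) +
      ((∫ θ, φ θ * PP d K q a (t / √n) i n θ ∂Pm) * b - (∫ θ, φ θ ∂Pm) * b))‖ := by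
        congr 1; ring
    _ ≤ _ := norm_add_le _ _
    _ ≤ _ := add_le_add_right (norm_add_le _ _) _
    _ < ε := by linarith

/-- extension to integrable weights -/
theorem dense_ext {ι : Type*} {l : Filter ι} {F : ι → ℝ → ℂ} {G : ℝ → ℂ}
    (hF : ∀ i, AEStronglyMeasurable (F i) Pm) (hF1 : ∀ i θ, ‖F i θ‖ ≤ 1)
    (hG : AEStronglyMeasurable G Pm) (hG1 : ∀ θ, ‖G θ‖ ≤ 1)
    (h : ∀ φ : ℝ → ℂ, Continuous φ → (∃ M, ∀ θ, ‖φ θ‖ ≤ M) →
      Tendsto (fun i => ∫ θ, φ θ * F i θ ∂Pm) l (𝓝 (∫ θ, φ θ * G θ ∂Pm)))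
    {φ : ℝ → ℂ} (hφ : Integrable φ Pm) :
    Tendsto (fun i => ∫ θ, φ θ * F i θ ∂Pm) l (𝓝 (∫ θ, φ θ * G θ ∂Pm)) := by
  rw [Metric.tendsto_nhds]
  intro ε hε
  obtain ⟨g, hg, hgi⟩ := hφ.exists_boundedContinuous_integral_sub_le (by positivity : (0 : ℝ) < ε / 4)
  have hgb : ∀ θ, ‖g θ‖ ≤ ‖g‖ := g.norm_coe_le_norm
  have h1 := (Metric.tendsto_nhds.1 (h g g.continuous ⟨‖g‖, hgb⟩)) (ε / 4) (by positivity)
  have key : ∀ f : ℝ → ℂ, AEStronglyMeasurable f Pm → (∀ θ, ‖f θ‖ ≤ 1) →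
      ‖∫ θ, φ θ * f θ ∂Pm - ∫ θ, g θ * f θ ∂Pm‖ ≤ ε / 4 := by
    intro f hf hf1
    have i1 : Integrable (fun θ => φ θ * f θ) Pm := hφ.mul_bdd hf (Eventually.of_forall hf1)
    have i2 : Integrable (fun θ => g θ * f θ) Pm := hgi.mul_bdd hf (Eventually.of_forall hf1)
    rw [← integral_sub i1 i2]
    refine (norm_integral_le_integral_norm _).trans (le_trans ?_ hg)
    apply integral_mono_ae (i1.sub i2).norm (hφ.sub hgi).norm
    refine Eventually.of_forall fun θ => ?_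
    change ‖φ θ * f θ - g θ * f θ‖ ≤ ‖φ θ - g θ‖
    rw [← sub_mul, norm_mul]
    exact mul_le_of_le_one_right (norm_nonneg _) (hf1 θ)
  filter_upwards [h1] with i hi
  have k1 := key (F i) (hF i) (hF1 i)
  have k2 := key G hG hG1
  rw [dist_eq_norm] at hi ⊢
  calc _ = ‖(∫ θ, φ θ * F i θ ∂Pm - ∫ θ, g θ * F i θ ∂Pm) +
      ((∫ θ, g θ * F i θ ∂Pm - ∫ θ, g θ * G θ ∂Pm) - (∫ θ, φ θ * G θ ∂Pm - ∫ θ, g θ * G θ ∂Pm))‖ := by
        congr 1; ring
    _ ≤ _ := norm_add_le _ _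
    _ ≤ _ := add_le_add_right (norm_sub_le _ _) _
    _ < ε := by linarith

/-- **the basic theorem**, integrable weights -/
theorem basic (hd : 2 ≤ d) {K : ℕ} {q : ℕ → ℤ} (hq : ∀ k ∈ Finset.Icc 1 K, ¬ (d : ℤ) ∣ q k)
    (a : ℕ → ℂ) {φ : ℝ → ℂ} (hφ : Integrable φ Pm) (t : ℝ) :
    Tendsto (fun n : ℕ => ∫ θ, φ θ * exp (I * ((t / √n * ∑ j ∈ Finset.range n, XX d K q a j θ : ℝ) : ℂ)) ∂Pm)
      atTop (𝓝 (∫ θ, φ θ * exp (((-(t ^ 2 * vr K q a / 2) : ℝ) : ℂ)) ∂Pm)) := by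
  have hXc := fun j => XX_cont (d := d) K q a j
  apply dense_ext _ _ _ _ _ hφ
  · intro n
    have c1 : Continuous fun θ : ℝ => exp (I * ((t / √n * ∑ j ∈ Finset.range n, XX d K q a j θ : ℝ) : ℂ)) := by
      fun_prop
    exact c1.aestronglyMeasurable
  · intro n θ
    rw [norm_exp_I_mul_ofReal]
  · exact aestronglyMeasurable_const
  · intro θ
    rw [Complex.norm_exp, Complex.ofReal_re, Real.exp_le_one_iff]
    have := vr_nonneg K q a
    have : 0 ≤ t ^ 2 * vr K q a / 2 := by positivity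
    linarith
  · rintro ψ hψ ⟨M, hM⟩
    have := basic_cont hd hq a hψ hM t
    rwa [← integral_mul_const] at this

end Pool.Agent.H439.MC
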