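import Mathlib
import Pool.Agent.H439.MC.Clt

/-!
# Mixtures
-/

set_option autoImplicit false

namespace Pool.Agent.H439.MC

open Complex Set Topology Filter MeasureTheory

variable {d : ℕ}

theorem ae_Pm : ∀ᵐ θ ∂Pm, θ ∈ Ioc 0 (2 * Real.pi) := by
  unfold Pm
  exact Measure.ae_smul_measure (ae_restrict_mem measurableSet_Ioc) _

theorem exists_oq (hd : 2 ≤ d) : ∃ (q : ℕ → ℤ) (e : ℕ → ℕ), ∀ k, 1 ≤ k →
    ¬ (d : ℤ) ∣ q k ∧ (k : ℤ) = q k * (d : ℤ) ^ e k := by
  have h : ∀ k : ℕ, ∃ (q : ℤ) (e : ℕ), 1 ≤ k → ¬ (d : ℤ) ∣ q ∧ (k : ℤ) = q * (d : ℤ) ^ e := by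
    intro k
    by_cases hk : 1 ≤ k
    · obtain ⟨e, q, h1, h2⟩ := Nat.exists_eq_pow_mul_and_not_dvd (n := k) (by omega) d (by omega)
      refine ⟨q, e, fun _ => ⟨?_, ?_⟩⟩
      · intro h3
        exact h1 (by exact_mod_cast h3)
      · rw [h2]; push_cast; ring
    · exact ⟨0, 0, fun h => absurd h hk⟩
  choose q e h using h
  exact ⟨q, e, h⟩

/-- the sums with the frequencies `k d^i` -/
noncomputable def TK (d K : ℕ) (b : ℕ → ℂ) (n : ℕ) (θ : ℝ) : ℂ :=
  ∑ i ∈ Finset.range n, ∑ k ∈ Finset.Icc 1 K, b k * ex ((k : ℤ) * (d : ℤ) ^ i) θ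

theorem TK_eq (K : ℕ) (b : ℕ → ℂ) (n : ℕ) (θ : ℝ) :
    TK d K b n θ = ∑ k ∈ Finset.Icc 1 K, b k * Lam d (Finset.range n) (fun _ => 1) k θ := by
  unfold TK Lam
  rw [Finset.sum_comm]
  apply Finset.sum_congr rfl
  intro k _
  rw [Finset.mul_sum]
  simp

theorem shift_sum (f : ℕ → ℂ) (n e : ℕ) : ∑ i ∈ Finset.range n, f (i + e) - ∑ i ∈ Finset.range n, f i =
    ∑ i ∈ Finset.range e, f (n + i) - ∑ i ∈ Finset.range e, f i := by
  have h1 : ∑ i ∈ Finset.range (n + e), f i = ∑ i ∈ Finset.range n, f i + ∑ i ∈ Finset.range e, f (n + i) :=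
    Finset.sum_range_add f n e
  have h2 : ∑ i ∈ Finset.range (e + n), f i = ∑ i ∈ Finset.range e, f i + ∑ i ∈ Finset.range n, f (e + i) :=
    Finset.sum_range_add f e n
  rw [add_comm e n, h1] at h2
  have h3 : ∑ i ∈ Finset.range n, f (i + e) = ∑ i ∈ Finset.range n, f (e + i) := by
    apply Finset.sum_congr rfl
    intro i _
    rw [add_comm]
  rw [h3]
  linear_combination -h2

theorem regroup {K : ℕ} {q : ℕ → ℤ} {e : ℕ → ℕ}
    (hqe : ∀ k, 1 ≤ k → ¬ (d : ℤ) ∣ q k ∧ (k : ℤ) = q k * (d : ℤ) ^ e k) (a : ℕ → ℂ) (n : ℕ) (θ : ℝ) :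
    |(TK d K a n θ).re - ∑ j ∈ Finset.range n, XX d K q a j θ| ≤
      ∑ k ∈ Finset.Icc 1 K, ‖a k‖ * (2 * e k) := by
  have h1 : ∑ j ∈ Finset.range n, XX d K q a j θ =
      (∑ k ∈ Finset.Icc 1 K, a k * ∑ j ∈ Finset.range n, ex (q k * (d : ℤ) ^ j) θ).re := by
    unfold XX hh
    rw [← re_sum, Finset.sum_comm]
    congr 1
    apply Finset.sum_congr rfl
    intro k _
    rw [Finset.mul_sum]
    apply Finset.sum_congr rfl
    intro j _
    rw [ex_mul]
    push_cast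
    rfl
  have h2 : TK d K a n θ = ∑ k ∈ Finset.Icc 1 K, a k * ∑ j ∈ Finset.range n, ex (q k * (d : ℤ) ^ (j + e k)) θ := by
    rw [TK_eq]
    apply Finset.sum_congr rfl
    intro k hk
    unfold Lam
    congr 1
    apply Finset.sum_congr rfl
    intro j _
    rw [one_mul, (hqe k (Finset.mem_Icc.1 hk).1).2, mul_assoc, ← pow_add, add_comm]
  rw [h1, h2, ← sub_re, ← Finset.sum_sub_distrib]
  refine (abs_re_le_norm _).trans ((norm_sum_le _ _).trans (Finset.sum_le_sum fun k _ => ?_))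
  rw [← mul_sub, norm_mul, shift_sum (fun j => ex (q k * (d : ℤ) ^ j) θ)]
  apply mul_le_mul_of_nonneg_left _ (norm_nonneg _)
  refine (norm_sub_le _ _).trans ?_
  have h3 : ∀ f : ℕ → ℤ, ‖∑ i ∈ Finset.range (e k), ex (f i) θ‖ ≤ e k := by
    intro f
    refine (norm_sum_le _ _).trans ?_
    simp [norm_ex]
  have := h3 (fun i => q k * (d : ℤ) ^ (n + i))
  have := h3 (fun i => q k * (d : ℤ) ^ i)
  linarith

theorem TK_cont (K : ℕ) (b : ℕ → ℝ → ℂ) (hb : ∀ k, Continuous (b k)) (n : ℕ) :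
    Continuous fun θ => TK d K (fun k => b k θ) n θ := by
  unfold TK
  have := ex_cont
  fun_prop

/-- basic theorem with raw frequencies -/
theorem basic_raw (hd : 2 ≤ d) {K : ℕ} {q : ℕ → ℤ} {e : ℕ → ℕ}
    (hqe : ∀ k, 1 ≤ k → ¬ (d : ℤ) ∣ q k ∧ (k : ℤ) = q k * (d : ℤ) ^ e k)
    (a : ℕ → ℂ) {φ : ℝ → ℂ} (hφ : Continuous φ) {M : ℝ} (hM : ∀ θ, ‖φ θ‖ ≤ M) (t : ℝ) :
    Tendsto (fun n : ℕ => ∫ θ, φ θ * exp (I * ((t / √n * (TK d K a n θ).re : ℝ) : ℂ)) ∂Pm)
      atTop (𝓝 (∫ θ, φ θ * exp (((-(t ^ 2 * vr K q a / 2) : ℝ) : ℂ)) ∂Pm)) := by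
  have h1 := basic_cont hd (fun k hk => (hqe k (Finset.mem_Icc.1 hk).1).1) a hφ hM t (K := K)
  rw [← integral_mul_const] at h1
  have hM0 : 0 ≤ M := (norm_nonneg _).trans (hM 0)
  set R : ℝ := ∑ k ∈ Finset.Icc 1 K, ‖a k‖ * (2 * e k) with hR
  have hXc := fun j => XX_cont (d := d) K q a j
  have hTc : ∀ n, Continuous (TK d K a n) := fun n => TK_cont K (fun k _ => a k) (fun _ => continuous_const) n
  have h2 : Tendsto (fun n : ℕ => ∫ θ, φ θ * exp (I * ((t / √n * (TK d K a n θ).re : ℝ) : ℂ)) ∂Pm -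
      ∫ θ, φ θ * exp (I * ((t / √n * ∑ j ∈ Finset.range n, XX d K q a j θ : ℝ) : ℂ)) ∂Pm) atTop (𝓝 0) := by
    have s1 : Tendsto (fun n : ℕ => √(n : ℝ)) atTop atTop :=
      Real.tendsto_sqrt_atTop.comp tendsto_natCast_atTop_atTop
    have s2 : Tendsto (fun n : ℕ => M * (|t| * R) / √n) atTop (𝓝 0) := tendsto_const_nhds.div_atTop s1
    apply squeeze_zero_norm _ s2
    intro n
    have i1 : Integrable (fun θ => φ θ * exp (I * ((t / √n * (TK d K a n θ).re : ℝ) : ℂ))) Pm := by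
      apply Continuous.integrable_Pm
      have := hTc n
      fun_prop
    have i2 : Integrable (fun θ => φ θ * exp (I * ((t / √n * ∑ j ∈ Finset.range n, XX d K q a j θ : ℝ) : ℂ))) Pm := by
      apply Continuous.integrable_Pm
      fun_prop
    rw [← integral_sub i1 i2]
    refine (norm_integral_le_integral_norm _).trans ?_
    have e1 : ∫ θ, ‖φ θ * exp (I * ((t / √n * (TK d K a n θ).re : ℝ) : ℂ)) -
        φ θ * exp (I * ((t / √n * ∑ j ∈ Finset.range n, XX d K q a j θ : ℝ) : ℂ))‖ ∂Pm ≤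
        ∫ _θ, M * (|t| * R) / √n ∂Pm := by
      apply integral_mono (i1.sub i2).norm (integrable_const _)
      intro θ
      change ‖φ θ * exp (I * ((t / √n * (TK d K a n θ).re : ℝ) : ℂ)) -
        φ θ * exp (I * ((t / √n * ∑ j ∈ Finset.range n, XX d K q a j θ : ℝ) : ℂ))‖ ≤ _
      rw [← mul_sub, norm_mul, mul_div_assoc]
      apply mul_le_mul (hM θ) _ (norm_nonneg _) hM0
      refine (exp_I_lip _ _).trans ?_
      rw [← mul_sub, abs_mul, abs_div, abs_of_nonneg (Real.sqrt_nonneg _), div_mul_eq_mul_div]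
      apply div_le_div_of_nonneg_right _ (Real.sqrt_nonneg _)
      exact mul_le_mul_of_nonneg_left (regroup hqe a n θ) (abs_nonneg _)
    refine e1.trans ?_
    simp
  have h3 := h2.add h1
  simpa using h3

/-! ### the variance -/

theorem hh_sub (K : ℕ) (q : ℕ → ℤ) (a a' : ℕ → ℂ) (θ : ℝ) :
    hh K q (fun k => a k - a' k) θ = hh K q a θ - hh K q a' θ := by
  unfold hh
  rw [← sub_re, ← Finset.sum_sub_distrib]
  congr 1
  apply Finset.sum_congr rfl
  intro k _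
  ring

theorem vr_sub_le (K : ℕ) (q : ℕ → ℤ) (a a' : ℕ → ℂ) :
    |vr K q a - vr K q a'| ≤ (HH K a + HH K a') * HH K (fun k => a k - a' k) := by
  unfold vr
  have c1 := hh_cont K q a
  have c2 := hh_cont K q a'
  have i1 : Integrable (fun θ => hh K q a θ ^ 2) Pm := Continuous.integrable_Pm (c1.pow 2)
  have i2 : Integrable (fun θ => hh K q a' θ ^ 2) Pm := Continuous.integrable_Pm (c2.pow 2)
  rw [← integral_sub i1 i2, ← Real.norm_eq_abs]
  refine (norm_integral_le_integral_norm _).trans ?_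
  have h1 : ∫ θ, ‖hh K q a θ ^ 2 - hh K q a' θ ^ 2‖ ∂Pm ≤
      ∫ _θ, (HH K a + HH K a') * HH K (fun k => a k - a' k) ∂Pm := by
    apply integral_mono (Continuous.integrable_Pm (by fun_prop)) (integrable_const _)
    intro θ
    change ‖hh K q a θ ^ 2 - hh K q a' θ ^ 2‖ ≤ _
    rw [sq_sub_sq, norm_mul, Real.norm_eq_abs, Real.norm_eq_abs, ← hh_sub]
    apply mul_le_mul _ (hh_le _ _ _ _) (abs_nonneg _) (add_nonneg (HH_nonneg _ _) (HH_nonneg _ _))
    exact (abs_add_le _ _).trans (add_le_add (hh_le _ _ _ _) (hh_le _ _ _ _))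
  refine h1.trans ?_
  simp

theorem HH_cont (K : ℕ) {b : ℕ → ℝ → ℂ} (hb : ∀ k, Continuous (b k)) :
    Continuous fun θ => HH K (fun k => b k θ) := by
  unfold HH
  fun_prop

theorem vr_cont (K : ℕ) (q : ℕ → ℤ) {b : ℕ → ℝ → ℂ} (hb : ∀ k, Continuous (b k)) :
    Continuous fun θ => vr K q (fun k => b k θ) := by
  rw [continuous_iff_continuousAt]
  intro θ₀
  unfold ContinuousAt
  rw [tendsto_iff_dist_tendsto_zero]
  have h1 : Continuous fun θ => (HH K (fun k => b k θ) + HH K (fun k => b k θ₀)) *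
      HH K (fun k => b k θ - b k θ₀) :=
    ((HH_cont K hb).add continuous_const).mul (HH_cont K (b := fun k θ => b k θ - b k θ₀)
      (fun k => (hb k).sub continuous_const))
  have h2 := h1.tendsto θ₀
  have h3 : (HH K (fun k => b k θ₀) + HH K (fun k => b k θ₀)) * HH K (fun k => b k θ₀ - b k θ₀) = 0 := by
    have : HH K (fun k => b k θ₀ - b k θ₀) = 0 := by
      unfold HH
      apply Finset.sum_eq_zero
      intro k _
      simp
    rw [this, mul_zero]
  rw [h3] at h2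
  apply squeeze_zero (fun _ => dist_nonneg) _ h2
  intro θ
  rw [Real.dist_eq]
  exact vr_sub_le K q _ _

/-- the standard deviation -/
noncomputable def sg (K : ℕ) (q : ℕ → ℤ) (a : ℕ → ℂ) : ℝ := √(vr K q a)

theorem sg_nonneg (K : ℕ) (q : ℕ → ℤ) (a : ℕ → ℂ) : 0 ≤ sg K q a := Real.sqrt_nonneg _

theorem sg_sq (K : ℕ) (q : ℕ → ℤ) (a : ℕ → ℂ) : sg K q a ^ 2 = vr K q a := Real.sq_sqrt (vr_nonneg K q a)

theorem sg_triangle (K : ℕ) (q : ℕ → ℤ) (a a' : ℕ → ℂ) :
    sg K q a ≤ sg K q a' + sg K q (fun k => a k - a' k) := by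
  have c1 := hh_cont K q a'
  have c2 := hh_cont K q (fun k => a k - a' k)
  set x : ℝ := ∫ θ, hh K q a' θ * hh K q (fun k => a k - a' k) θ ∂Pm with hx
  have h1 : ∀ s : ℝ, 0 ≤ vr K q a' * (s * s) + (2 * x) * s + vr K q (fun k => a k - a' k) := by
    intro s
    have h2 : vr K q a' * (s * s) + (2 * x) * s + vr K q (fun k => a k - a' k) =
        ∫ θ, (s * hh K q a' θ + hh K q (fun k => a k - a' k) θ) ^ 2 ∂Pm := by
      unfold vr
      rw [hx, ← integral_mul_const, ← integral_const_mul, ← integral_mul_const,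
        ← integral_add (Continuous.integrable_Pm (by fun_prop)) (Continuous.integrable_Pm (by fun_prop)),
        ← integral_add (Continuous.integrable_Pm (by fun_prop)) (Continuous.integrable_Pm (by fun_prop))]
      congr 1
      funext θ
      ring
    rw [h2]
    exact integral_nonneg fun _ => by positivity
  have h2 := discrim_le_zero h1
  unfold discrim at h2
  have h3 : x ≤ sg K q a' * sg K q (fun k => a k - a' k) := by
    have h4 : x ^ 2 ≤ (sg K q a' * sg K q (fun k => a k - a' k)) ^ 2 := by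
      rw [mul_pow, sg_sq, sg_sq]
      nlinarith
    exact (abs_le_of_sq_le_sq' h4 (mul_nonneg (sg_nonneg _ _ _) (sg_nonneg _ _ _))).2
  have h4 : vr K q a = vr K q a' + 2 * x + vr K q (fun k => a k - a' k) := by
    unfold vr
    rw [hx, ← integral_const_mul,
      ← integral_add (Continuous.integrable_Pm (by fun_prop)) (Continuous.integrable_Pm (by fun_prop)),
      ← integral_add (Continuous.integrable_Pm (by fun_prop)) (Continuous.integrable_Pm (by fun_prop))]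
    congr 1
    funext θ
    rw [hh_sub]
    ring
  have h5 : sg K q a ^ 2 ≤ (sg K q a' + sg K q (fun k => a k - a' k)) ^ 2 := by
    rw [sg_sq, h4, ← sg_sq K q a', ← sg_sq K q (fun k => a k - a' k)]
    nlinarith
  exact le_of_sq_le_sq h5 (add_nonneg (sg_nonneg _ _ _) (sg_nonneg _ _ _))

theorem vr_neg (K : ℕ) (q : ℕ → ℤ) (a a' : ℕ → ℂ) :
    vr K q (fun k => a' k - a k) = vr K q (fun k => a k - a' k) := by
  unfold vr
  congr 1
  funext θ
  rw [hh_sub, hh_sub]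
  ring

theorem sg_sub (K : ℕ) (q : ℕ → ℤ) (a a' : ℕ → ℂ) :
    |sg K q a - sg K q a'| ≤ sg K q (fun k => a k - a' k) := by
  have h1 := sg_triangle K q a a'
  have h2 := sg_triangle K q a' a
  have h3 : sg K q (fun k => a' k - a k) = sg K q (fun k => a k - a' k) := by
    unfold sg
    rw [vr_neg]
  rw [h3] at h2
  rw [abs_le]
  constructor <;> linarith

end Pool.Agent.H439.MC
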