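import Mathlib
import Pool.Agent.H439.MC.Mix

/-!
# Mixtures, II: coefficients depending on the angle
-/

set_option autoImplicit false

namespace Pool.Agent.H439.MC

open Complex Set Topology Filter MeasureTheory

variable {d : ℕ}

/-- clamp -/
noncomputable def cl (x : ℝ) : ℝ := max 0 (min 1 x)

theorem cl_cont : Continuous cl := by unfold cl; fun_prop

theorem cl_mono : Monotone cl := fun _ _ h => max_le_max le_rfl (min_le_min le_rfl h)

theorem cl_nonneg (x : ℝ) : 0 ≤ cl x := le_max_left _ _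

theorem cl_le_one (x : ℝ) : cl x ≤ 1 := max_le zero_le_one (min_le_left _ _)

theorem cl_of_le {x : ℝ} (h : x ≤ 0) : cl x = 0 := by
  unfold cl
  exact max_eq_left ((min_le_right _ _).trans h)

theorem cl_of_ge {x : ℝ} (h : 1 ≤ x) : cl x = 1 := by
  unfold cl
  rw [min_eq_left h, max_eq_right zero_le_one]

/-- hat functions -/
noncomputable def hat (p : ℝ) (m : ℕ) (θ : ℝ) : ℝ := cl (θ / p - m + 1) - cl (θ / p - m)

theorem hat_cont (p : ℝ) (m : ℕ) : Continuous (hat p m) := by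
  unfold hat
  exact (cl_cont.comp (by fun_prop)).sub (cl_cont.comp (by fun_prop))

theorem hat_nonneg (p : ℝ) (m : ℕ) (θ : ℝ) : 0 ≤ hat p m θ :=
  sub_nonneg.2 (cl_mono (by linarith))

theorem hat_le_one (p : ℝ) (m : ℕ) (θ : ℝ) : hat p m θ ≤ 1 := by
  unfold hat
  linarith [cl_nonneg (θ / p - m), cl_le_one (θ / p - m + 1)]

theorem hat_sum {p : ℝ} (hp : 0 < p) {D : ℕ} {θ : ℝ} (h0 : 0 ≤ θ) (h1 : θ ≤ D * p) :
    ∑ m ∈ Finset.range (D + 1), hat p m θ = 1 := by
  have h2 : ∀ m : ℕ, hat p m θ = cl (θ / p + 1 - m) - cl (θ / p + 1 - (m + 1 : ℕ)) := by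
    intro m
    unfold hat
    congr 2
    · ring
    · push_cast; ring
  simp only [h2]
  rw [Finset.sum_range_sub']
  have h3 : θ / p ≤ D := by rw [div_le_iff₀ hp]; exact h1
  rw [cl_of_ge, cl_of_le, sub_zero]
  · push_cast; linarith
  · have : 0 ≤ θ / p := by positivity
    push_cast; linarith

theorem hat_supp {p : ℝ} (hp : 0 < p) {m : ℕ} {θ : ℝ} (h : hat p m θ ≠ 0) : |θ - m * p| ≤ p := by
  by_contra hcon
  push Not at hcon
  apply h
  unfold hat
  rcases lt_abs.1 hcon with h1 | h1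
  · have h2 : 1 ≤ θ / p - m := by
      rw [le_sub_iff_add_le, le_div_iff₀ hp]
      nlinarith
    rw [cl_of_ge h2, cl_of_ge (by linarith), sub_self]
  · have h2 : θ / p - m ≤ -1 := by
      rw [sub_le_iff_le_add, div_le_iff₀ hp]
      nlinarith
    rw [cl_of_le (by linarith), cl_of_le (by linarith), sub_self]

theorem osc {b : ℕ → ℝ → ℂ} (hb : ∀ k, Continuous (b k)) (K : ℕ) :
    (∃ Bd : ℝ, 0 < Bd ∧ ∀ θ ∈ Icc 0 (2 * Real.pi), ∀ k ∈ Finset.Icc 1 K, ‖b k θ‖ ≤ Bd) ∧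
    ∀ ω : ℝ, 0 < ω → ∃ δ : ℝ, 0 < δ ∧ ∀ x ∈ Icc 0 (2 * Real.pi), ∀ y ∈ Icc 0 (2 * Real.pi),
      |x - y| < δ → ∀ k ∈ Finset.Icc 1 K, ‖b k x - b k y‖ ≤ ω := by
  set g : ℝ → (Fin (K + 1) → ℂ) := fun θ k => b k θ with hg
  have hgc : Continuous g := continuous_pi fun k => hb k
  constructor
  · obtain ⟨C, hC⟩ := (isCompact_Icc (a := (0 : ℝ)) (b := 2 * Real.pi)).exists_bound_of_continuousOn hgc.continuousOn
    refine ⟨max C 1, by positivity, fun θ hθ k hk => ?_⟩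
    have h1 := norm_le_pi_norm (g θ) ⟨k, by have := (Finset.mem_Icc.1 hk).2; omega⟩
    exact (h1.trans (hC θ hθ)).trans (le_max_left _ _)
  · intro ω hω
    have huc : UniformContinuousOn g (Icc 0 (2 * Real.pi)) :=
      isCompact_Icc.uniformContinuousOn_of_continuous hgc.continuousOn
    obtain ⟨δ, hδ0, hδ⟩ := Metric.uniformContinuousOn_iff.1 huc ω hω
    refine ⟨δ, hδ0, fun x hx y hy hxy k hk => ?_⟩
    have h1 := (hδ x hx y hy hxy).le
    rw [dist_eq_norm] at h1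
    have h2 := norm_le_pi_norm (g x - g y) ⟨k, by have := (Finset.mem_Icc.1 hk).2; omega⟩
    exact h2.trans h1

theorem Lam_one (hd : 2 ≤ d) (n : ℕ) {k : ℕ} (hk : 1 ≤ k) :
    ∫ θ, ‖Lam d (Finset.range n) (fun _ => 1) k θ‖ ∂Pm ≤ √n := by
  apply av_norm_le (Lam_cont _ _ _ _) (Real.sqrt_nonneg _)
  rw [Lam_sq hd _ _ (by exact_mod_cast (by omega : k ≠ 0)), Real.sq_sqrt (Nat.cast_nonneg _)]
  simp

theorem gauss_lip {t x y : ℝ} (hx : 0 ≤ x) (hy : 0 ≤ y) :
    ‖exp (((-(t ^ 2 * x / 2) : ℝ) : ℂ)) - exp (((-(t ^ 2 * y / 2) : ℝ) : ℂ))‖ ≤ t ^ 2 / 2 * |x - y| := by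
  rw [← Complex.ofReal_exp, ← Complex.ofReal_exp, ← Complex.ofReal_sub, Complex.norm_real, Real.norm_eq_abs]
  have key : ∀ u v : ℝ, u ≤ v → v ≤ 0 → |Real.exp u - Real.exp v| ≤ v - u := by
    intro u v huv hv
    rw [abs_sub_comm, abs_of_nonneg (sub_nonneg.2 (Real.exp_le_exp.2 huv))]
    have h1 : Real.exp u = Real.exp v * Real.exp (u - v) := by rw [← Real.exp_add]; congr 1; ring
    have h2 := Real.add_one_le_exp (u - v)
    have h3 : Real.exp v ≤ 1 := Real.exp_le_one_iff.2 hv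
    have h4 := Real.exp_pos v
    rw [h1]
    nlinarith
  have hx' : -(t ^ 2 * x / 2) ≤ 0 := by
    have : 0 ≤ t ^ 2 * x / 2 := by positivity
    linarith
  have hy' : -(t ^ 2 * y / 2) ≤ 0 := by
    have : 0 ≤ t ^ 2 * y / 2 := by positivity
    linarith
  have h0 : 0 ≤ t ^ 2 := by positivity
  rcases le_total x y with h | h
  · rw [abs_sub_comm, abs_sub_comm x y, abs_of_nonneg (sub_nonneg.2 h)]
    rw [abs_sub_comm]
    have h2 : -(t ^ 2 * y / 2) ≤ -(t ^ 2 * x / 2) := by nlinarith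
    have := key _ _ h2 hx'
    rw [abs_sub_comm] at this
    linarith
  · rw [abs_of_nonneg (sub_nonneg.2 h)]
    have h2 : -(t ^ 2 * x / 2) ≤ -(t ^ 2 * y / 2) := by nlinarith
    have := key _ _ h2 hy'
    linarith

/-- **mixtures** -/
theorem mix_cont (hd : 2 ≤ d) {K : ℕ} {q : ℕ → ℤ} {e : ℕ → ℕ}
    (hqe : ∀ k, 1 ≤ k → ¬ (d : ℤ) ∣ q k ∧ (k : ℤ) = q k * (d : ℤ) ^ e k)
    {b : ℕ → ℝ → ℂ} (hb : ∀ k, Continuous (b k)) {φ : ℝ → ℂ} (hφ : Continuous φ) {M : ℝ}
    (hM : ∀ θ, ‖φ θ‖ ≤ M) (t : ℝ) :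
    Tendsto (fun n : ℕ => ∫ θ, φ θ * exp (I * ((t / √n * (TK d K (fun k => b k θ) n θ).re : ℝ) : ℂ)) ∂Pm)
      atTop (𝓝 (∫ θ, φ θ * exp (((-(t ^ 2 * vr K q (fun k => b k θ) / 2) : ℝ) : ℂ)) ∂Pm)) := by
  have hM0 : 0 ≤ M := (norm_nonneg _).trans (hM 0)
  obtain ⟨⟨Bd, hBd0, hBd⟩, hosc⟩ := osc hb K
  rw [Metric.tendsto_atTop]
  intro ε hε
  set A : ℝ := M * (|t| * K) + M * (t ^ 2 / 2 * (2 * (K * Bd) * K)) + 1 with hA
  have hA0 : 0 < A := by positivity
  set ω : ℝ := ε / (4 * A) with hω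
  have hω0 : 0 < ω := by positivity
  have hω1 : M * (|t| * K) * ω ≤ ε / 4 := by
    have : M * (|t| * K) ≤ A := by
      rw [hA]
      have : 0 ≤ M * (t ^ 2 / 2 * (2 * (K * Bd) * K)) := by positivity
      linarith
    calc M * (|t| * K) * ω ≤ A * ω := mul_le_mul_of_nonneg_right this hω0.le
      _ = ε / 4 := by rw [hω]; field_simp
  have hω2 : M * (t ^ 2 / 2 * (2 * (K * Bd) * K)) * ω ≤ ε / 4 := by
    have : M * (t ^ 2 / 2 * (2 * (K * Bd) * K)) ≤ A := by
      rw [hA]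
      have : 0 ≤ M * (|t| * K) := by positivity
      linarith
    calc _ ≤ A * ω := mul_le_mul_of_nonneg_right this hω0.le
      _ = ε / 4 := by rw [hω]; field_simp
  obtain ⟨δ, hδ0, hδ⟩ := hosc ω hω0
  obtain ⟨D, hD0, hD⟩ : ∃ D : ℕ, 0 < D ∧ 2 * Real.pi / D < δ := by
    obtain ⟨D, hD⟩ := exists_nat_gt (2 * Real.pi / δ)
    have h1 : (0 : ℝ) < D := lt_trans (by positivity) hD
    refine ⟨D, by exact_mod_cast h1, ?_⟩
    rw [div_lt_iff₀ h1]
    rw [div_lt_iff₀ hδ0] at hD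
    linarith
  set p : ℝ := 2 * Real.pi / D with hp
  have hDR : (0 : ℝ) < D := by exact_mod_cast hD0
  have hp0 : 0 < p := by positivity
  have hDp : D * p = 2 * Real.pi := by rw [hp]; field_simp
  have hloc : ∀ m ∈ Finset.range (D + 1), ∀ θ ∈ Ioc 0 (2 * Real.pi), hat p m θ ≠ 0 →
      ∀ k ∈ Finset.Icc 1 K, ‖b k θ - b k (m * p)‖ ≤ ω := by
    intro m hm θ hθ hne
    have hm' : (m : ℝ) ≤ D := by exact_mod_cast Nat.lt_succ_iff.1 (Finset.mem_range.1 hm)
    apply hδ θ ⟨hθ.1.le, hθ.2⟩ (m * p) ⟨by positivity, ?_⟩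
    · exact lt_of_le_of_lt (hat_supp hp0 hne) hD
    · rw [← hDp]
      exact mul_le_mul_of_nonneg_right hm' hp0.le
  have hmem : ∀ m ∈ Finset.range (D + 1), (m : ℝ) * p ∈ Icc 0 (2 * Real.pi) := by
    intro m hm
    have hm' : (m : ℝ) ≤ D := by exact_mod_cast Nat.lt_succ_iff.1 (Finset.mem_range.1 hm)
    refine ⟨by positivity, ?_⟩
    rw [← hDp]
    exact mul_le_mul_of_nonneg_right hm' hp0.le
  set G : ℕ → ℝ → ℂ := fun n θ => exp (I * ((t / √n * (TK d K (fun k => b k θ) n θ).re : ℝ) : ℂ)) with hG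
  set Gm : ℕ → ℕ → ℝ → ℂ := fun m n θ =>
    exp (I * ((t / √n * (TK d K (fun k => b k (m * p)) n θ).re : ℝ) : ℂ)) with hGm
  have hGc : ∀ n, Continuous (G n) := by
    intro n
    have := TK_cont (d := d) K b hb n
    simp only [hG]
    fun_prop
  have hGmc : ∀ m n, Continuous (Gm m n) := by
    intro m n
    have := TK_cont (d := d) K (fun k _ => b k (m * p)) (fun _ => continuous_const) n
    simp only [hGm]
    fun_prop
  set g : ℝ → ℂ := fun θ => exp (((-(t ^ 2 * vr K q (fun k => b k θ) / 2) : ℝ) : ℂ)) with hg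
  set gm : ℕ → ℂ := fun m => exp (((-(t ^ 2 * vr K q (fun k => b k (m * p)) / 2) : ℝ) : ℂ)) with hgm
  have hgc : Continuous g := by
    have := vr_cont K q hb
    simp only [hg]
    fun_prop
  have hhc := hat_cont p
  -- claim 2
  have hlim : Tendsto (fun n : ℕ => ∑ m ∈ Finset.range (D + 1), ∫ θ, (hat p m θ : ℂ) * φ θ * Gm m n θ ∂Pm)
      atTop (𝓝 (∑ m ∈ Finset.range (D + 1), ∫ θ, (hat p m θ : ℂ) * φ θ * gm m ∂Pm)) := by
    apply tendsto_finsetSum
    intro m _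
    apply basic_raw hd hqe (fun k => b k (m * p)) (φ := fun θ => (hat p m θ : ℂ) * φ θ) (by fun_prop) (M := M)
    intro θ
    rw [norm_mul, Complex.norm_real, Real.norm_of_nonneg (hat_nonneg _ _ _)]
    calc hat p m θ * ‖φ θ‖ ≤ 1 * M := mul_le_mul (hat_le_one _ _ _) (hM θ) (norm_nonneg _) zero_le_one
      _ = M := one_mul M
  -- decomposition
  have hdec : ∀ f : ℝ → ℂ, Continuous f → ∫ θ, φ θ * f θ ∂Pm =
      ∑ m ∈ Finset.range (D + 1), ∫ θ, (hat p m θ : ℂ) * φ θ * f θ ∂Pm := by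
    intro f hf
    rw [← integral_finsetSum _ (fun m _ => Continuous.integrable_Pm (by fun_prop))]
    apply integral_congr_ae
    filter_upwards [ae_Pm] with θ hθ
    rw [← Finset.sum_mul, ← Finset.sum_mul, ← Complex.ofReal_sum,
      hat_sum hp0 hθ.1.le (by rw [hDp]; exact hθ.2), Complex.ofReal_one, one_mul]
  -- claim 1
  have hc1 : ∀ n : ℕ, 1 ≤ n → ‖∫ θ, φ θ * G n θ ∂Pm -
      ∑ m ∈ Finset.range (D + 1), ∫ θ, (hat p m θ : ℂ) * φ θ * Gm m n θ ∂Pm‖ ≤ ε / 4 := by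
    intro n hn
    have hsn : 0 < √(n : ℝ) := Real.sqrt_pos.2 (by exact_mod_cast hn)
    rw [hdec _ (hGc n), ← Finset.sum_sub_distrib]
    have h1 : ∀ m ∈ Finset.range (D + 1), ‖∫ θ, (hat p m θ : ℂ) * φ θ * G n θ ∂Pm -
        ∫ θ, (hat p m θ : ℂ) * φ θ * Gm m n θ ∂Pm‖ ≤
        ∫ θ, hat p m θ * (M * (|t| / √n) * ω *
          ∑ k ∈ Finset.Icc 1 K, ‖Lam d (Finset.range n) (fun _ => 1) k θ‖) ∂Pm := by
      intro m hm
      have i1 : Integrable (fun θ => (hat p m θ : ℂ) * φ θ * G n θ) Pm := Continuous.integrable_Pm (by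
        have := hGc n; fun_prop)
      have i2 : Integrable (fun θ => (hat p m θ : ℂ) * φ θ * Gm m n θ) Pm := Continuous.integrable_Pm (by
        have := hGmc m n; fun_prop)
      rw [← integral_sub i1 i2]
      refine (norm_integral_le_integral_norm _).trans ?_
      apply integral_mono_ae (i1.sub i2).norm
      · apply Continuous.integrable_Pm
        have := Lam_cont d (Finset.range n) (fun _ => 1)
        fun_prop
      · filter_upwards [ae_Pm] with θ hθ
        by_cases hne : hat p m θ = 0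
        · simp [hne]
        · change ‖(hat p m θ : ℂ) * φ θ * G n θ - (hat p m θ : ℂ) * φ θ * Gm m n θ‖ ≤ _
          rw [← mul_sub, norm_mul, norm_mul, Complex.norm_real,
            Real.norm_of_nonneg (hat_nonneg _ _ _), mul_assoc]
          apply mul_le_mul_of_nonneg_left _ (hat_nonneg _ _ _)
          have h2 : ‖G n θ - Gm m n θ‖ ≤ |t| / √n * (ω * ∑ k ∈ Finset.Icc 1 K,
              ‖Lam d (Finset.range n) (fun _ => 1) k θ‖) := by
            simp only [hG, hGm]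
            refine (exp_I_lip _ _).trans ?_
            rw [← mul_sub, abs_mul, abs_div, abs_of_pos hsn]
            apply mul_le_mul_of_nonneg_left _ (by positivity)
            rw [← sub_re]
            refine (abs_re_le_norm _).trans ?_
            rw [TK_eq, TK_eq, ← Finset.sum_sub_distrib, Finset.mul_sum]
            refine (norm_sum_le _ _).trans (Finset.sum_le_sum fun k hk => ?_)
            rw [← sub_mul, norm_mul]
            exact mul_le_mul_of_nonneg_right (hloc m hm θ hθ hne k hk) (norm_nonneg _)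
          calc ‖φ θ‖ * ‖G n θ - Gm m n θ‖ ≤ M * (|t| / √n * (ω * ∑ k ∈ Finset.Icc 1 K,
              ‖Lam d (Finset.range n) (fun _ => 1) k θ‖)) := mul_le_mul (hM θ) h2 (norm_nonneg _) hM0
            _ = _ := by ring
    refine (norm_sum_le _ _).trans ((Finset.sum_le_sum h1).trans ?_)
    rw [← integral_finsetSum _ (fun m _ => Continuous.integrable_Pm (by
      have := Lam_cont d (Finset.range n) (fun _ => 1); fun_prop))]
    have h2 : ∫ θ, ∑ m ∈ Finset.range (D + 1), hat p m θ * (M * (|t| / √n) * ω *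
          ∑ k ∈ Finset.Icc 1 K, ‖Lam d (Finset.range n) (fun _ => 1) k θ‖) ∂Pm =
        ∫ θ, (M * (|t| / √n) * ω *
          ∑ k ∈ Finset.Icc 1 K, ‖Lam d (Finset.range n) (fun _ => 1) k θ‖) ∂Pm := by
      apply integral_congr_ae
      filter_upwards [ae_Pm] with θ hθ
      rw [← Finset.sum_mul, hat_sum hp0 hθ.1.le (by rw [hDp]; exact hθ.2), one_mul]
    rw [h2, integral_const_mul, integral_finsetSum _ (fun m _ => Continuous.integrable_Pm (by
      have := Lam_cont d (Finset.range n) (fun _ => 1); fun_prop))]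
    have h3 : ∑ k ∈ Finset.Icc 1 K, ∫ θ, ‖Lam d (Finset.range n) (fun _ => 1) k θ‖ ∂Pm ≤ K * √n := by
      refine (Finset.sum_le_sum fun k hk => Lam_one hd n (Finset.mem_Icc.1 hk).1).trans ?_
      simp
    calc M * (|t| / √n) * ω * ∑ k ∈ Finset.Icc 1 K, ∫ θ, ‖Lam d (Finset.range n) (fun _ => 1) k θ‖ ∂Pm
        ≤ M * (|t| / √n) * ω * (K * √n) := mul_le_mul_of_nonneg_left h3 (by positivity)
      _ = M * (|t| * K) * ω := by field_simp
      _ ≤ ε / 4 := hω1
  -- claim 3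
  have hc3 : ‖∑ m ∈ Finset.range (D + 1), ∫ θ, (hat p m θ : ℂ) * φ θ * gm m ∂Pm - ∫ θ, φ θ * g θ ∂Pm‖ ≤ ε / 4 := by
    rw [hdec _ hgc, ← Finset.sum_sub_distrib]
    have h1 : ∀ m ∈ Finset.range (D + 1), ‖∫ θ, (hat p m θ : ℂ) * φ θ * gm m ∂Pm -
        ∫ θ, (hat p m θ : ℂ) * φ θ * g θ ∂Pm‖ ≤
        ∫ θ, hat p m θ * (M * (t ^ 2 / 2 * (2 * (K * Bd) * K)) * ω) ∂Pm := by
      intro m hm
      have i1 : Integrable (fun θ => (hat p m θ : ℂ) * φ θ * gm m) Pm := Continuous.integrable_Pm (by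
        fun_prop)
      have i2 : Integrable (fun θ => (hat p m θ : ℂ) * φ θ * g θ) Pm := Continuous.integrable_Pm (by
        fun_prop)
      rw [← integral_sub i1 i2]
      refine (norm_integral_le_integral_norm _).trans ?_
      apply integral_mono_ae (i1.sub i2).norm (Continuous.integrable_Pm (by fun_prop))
      filter_upwards [ae_Pm] with θ hθ
      by_cases hne : hat p m θ = 0
      · simp [hne]
      · change ‖(hat p m θ : ℂ) * φ θ * gm m - (hat p m θ : ℂ) * φ θ * g θ‖ ≤ _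
        rw [← mul_sub, norm_mul, norm_mul, Complex.norm_real,
          Real.norm_of_nonneg (hat_nonneg _ _ _), mul_assoc]
        apply mul_le_mul_of_nonneg_left _ (hat_nonneg _ _ _)
        have hHH : ∀ x ∈ Icc 0 (2 * Real.pi), HH K (fun k => b k x) ≤ K * Bd := by
          intro x hx
          unfold HH
          refine (Finset.sum_le_sum fun k hk => hBd x hx k hk).trans ?_
          simp
        have hHd : HH K (fun k => b k (m * p) - b k θ) ≤ K * ω := by
          unfold HH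
          have h2 := hloc m hm θ hθ hne
          refine (Finset.sum_le_sum fun k hk => ?_).trans (b := ∑ k ∈ Finset.Icc 1 K, ω) ?_
          · rw [norm_sub_rev]; exact h2 k hk
          · simp
        have h2 : ‖gm m - g θ‖ ≤ t ^ 2 / 2 * ((2 * (K * Bd)) * (K * ω)) := by
          simp only [hg, hgm]
          refine (gauss_lip (vr_nonneg _ _ _) (vr_nonneg _ _ _)).trans ?_
          apply mul_le_mul_of_nonneg_left _ (by positivity)
          refine (vr_sub_le K q _ _).trans ?_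
          have e1 := hHH _ (hmem m hm)
          have e2 := hHH θ ⟨hθ.1.le, hθ.2⟩
          apply mul_le_mul (by linarith) hHd (HH_nonneg _ _) (by positivity)
        calc ‖φ θ‖ * ‖gm m - g θ‖ ≤ M * (t ^ 2 / 2 * ((2 * (K * Bd)) * (K * ω))) :=
              mul_le_mul (hM θ) h2 (norm_nonneg _) hM0
          _ = _ := by ring
    refine (norm_sum_le _ _).trans ((Finset.sum_le_sum h1).trans ?_)
    rw [← integral_finsetSum _ (fun m _ => Continuous.integrable_Pm (by fun_prop))]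
    have h2 : ∫ θ, ∑ m ∈ Finset.range (D + 1), hat p m θ * (M * (t ^ 2 / 2 * (2 * (K * Bd) * K)) * ω) ∂Pm =
        ∫ _θ, (M * (t ^ 2 / 2 * (2 * (K * Bd) * K)) * ω) ∂Pm := by
      apply integral_congr_ae
      filter_upwards [ae_Pm] with θ hθ
      rw [← Finset.sum_mul, hat_sum hp0 hθ.1.le (by rw [hDp]; exact hθ.2), one_mul]
    rw [h2]
    simpa using hω2
  obtain ⟨n0, hn0⟩ := Metric.tendsto_atTop.1 hlim (ε / 4) (by positivity)
  refine ⟨max n0 1, fun n hn => ?_⟩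
  have h1 := hn0 n ((le_max_left _ _).trans hn)
  have h2 := hc1 n ((le_max_right _ _).trans hn)
  rw [dist_eq_norm] at h1 ⊢
  calc _ = ‖(∫ θ, φ θ * G n θ ∂Pm -
      ∑ m ∈ Finset.range (D + 1), ∫ θ, (hat p m θ : ℂ) * φ θ * Gm m n θ ∂Pm) +
      ((∑ m ∈ Finset.range (D + 1), ∫ θ, (hat p m θ : ℂ) * φ θ * Gm m n θ ∂Pm -
        ∑ m ∈ Finset.range (D + 1), ∫ θ, (hat p m θ : ℂ) * φ θ * gm m ∂Pm) +
      (∑ m ∈ Finset.range (D + 1), ∫ θ, (hat p m θ : ℂ) * φ θ * gm m ∂Pm - ∫ θ, φ θ * g θ ∂Pm))‖ := by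
        congr 1; ring
    _ ≤ _ := norm_add_le _ _
    _ ≤ _ := add_le_add_right (norm_add_le _ _) _
    _ < ε := by linarith

/-- second moments bound the variance -/
theorem second (hd : 2 ≤ d) {K : ℕ} {q : ℕ → ℤ} {e : ℕ → ℕ}
    (hqe : ∀ k, 1 ≤ k → ¬ (d : ℤ) ∣ q k ∧ (k : ℤ) = q k * (d : ℤ) ^ e k)
    {b : ℕ → ℝ → ℂ} (hb : ∀ k, Continuous (b k)) {ι : Type*} {l : Filter ι} [l.NeBot] {N : ι → ℕ}
    (hN : Tendsto N l atTop) {A : ℝ}
    (hA : ∀ᶠ i in l, ∫ θ, (TK d K (fun k => b k θ) (N i) θ).re ^ 2 ∂Pm ≤ A * N i) :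
    ∫ θ, vr K q (fun k => b k θ) ∂Pm ≤ A := by
  obtain ⟨⟨Bd, hBd0, hBd⟩, -⟩ := osc hb K
  set V : ℝ → ℝ := fun θ => vr K q (fun k => b k θ) with hV
  have hVc : Continuous V := vr_cont K q hb
  have hV0 : ∀ θ, 0 ≤ V θ := fun θ => vr_nonneg _ _ _
  set W : ℝ := (K * Bd) ^ 2 with hW
  have hVW : ∀ᵐ θ ∂Pm, V θ ≤ W := by
    filter_upwards [ae_Pm] with θ hθ
    refine (vr_le K q _).trans ?_
    rw [hW]
    apply pow_le_pow_left₀ (HH_nonneg _ _)
    unfold HH
    refine (Finset.sum_le_sum fun k hk => hBd θ ⟨hθ.1.le, hθ.2⟩ k hk).trans ?_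
    simp
  -- main inequality
  have key : ∀ t : ℝ, 0 < t → ∫ θ, (1 - Real.exp (-(t ^ 2 * V θ / 2))) ∂Pm ≤ t ^ 2 / 2 * A := by
    intro t ht
    have h1 := (mix_cont hd (K := K) hqe hb (φ := fun _ => 1) continuous_const (M := 1) (by simp) t).comp hN
    have h2 : Tendsto (fun i => 1 - (∫ θ, (1 : ℂ) *
        exp (I * ((t / √(N i) * (TK d K (fun k => b k θ) (N i) θ).re : ℝ) : ℂ)) ∂Pm).re) l
        (𝓝 (1 - (∫ θ, (1 : ℂ) * exp (((-(t ^ 2 * vr K q (fun k => b k θ) / 2) : ℝ) : ℂ)) ∂Pm).re)) :=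
      tendsto_const_nhds.sub ((continuous_re.tendsto _).comp h1)
    have h3 : (1 - (∫ θ, (1 : ℂ) * exp (((-(t ^ 2 * vr K q (fun k => b k θ) / 2) : ℝ) : ℂ)) ∂Pm).re) =
        ∫ θ, (1 - Real.exp (-(t ^ 2 * V θ / 2))) ∂Pm := by
      have e1 : ∀ θ, (1 : ℂ) * exp (((-(t ^ 2 * vr K q (fun k => b k θ) / 2) : ℝ) : ℂ)) =
          ((Real.exp (-(t ^ 2 * V θ / 2)) : ℝ) : ℂ) := by
        intro θ
        rw [one_mul, Complex.ofReal_exp]
      simp only [e1]
      rw [integral_complex_ofReal, integral_sub (integrable_const _) (Continuous.integrable_Pm (by fun_prop))]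
      simp
    rw [h3] at h2
    apply le_of_tendsto h2
    filter_upwards [hA, hN.eventually_ge_atTop 1] with i hi hi1
    have hNi : (0 : ℝ) < N i := by exact_mod_cast hi1
    have hTc := TK_cont (d := d) K b hb (N i)
    have hc : Continuous fun θ => exp (I * ((t / √(N i) * (TK d K (fun k => b k θ) (N i) θ).re : ℝ) : ℂ)) := by
      fun_prop
    have e1 : (∫ θ, (1 : ℂ) *
        exp (I * ((t / √(N i) * (TK d K (fun k => b k θ) (N i) θ).re : ℝ) : ℂ)) ∂Pm).re =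
        ∫ θ, Real.cos (t / √(N i) * (TK d K (fun k => b k θ) (N i) θ).re) ∂Pm := by
      have e2 := integral_re (𝕜 := ℂ) (μ := Pm) (f := fun θ => (1 : ℂ) *
        exp (I * ((t / √(N i) * (TK d K (fun k => b k θ) (N i) θ).re : ℝ) : ℂ)))
        (Continuous.integrable_Pm (by fun_prop))
      refine e2.symm.trans ?_
      congr 1
      funext θ
      change ((1 : ℂ) * exp (I * ((t / √(N i) * (TK d K (fun k => b k θ) (N i) θ).re : ℝ) : ℂ))).re = _
      rw [one_mul, mul_comm, Complex.exp_ofReal_mul_I_re]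
    rw [e1]
    have e3 : ∀ θ, 1 - (t ^ 2 / (2 * N i)) * (TK d K (fun k => b k θ) (N i) θ).re ^ 2 ≤
        Real.cos (t / √(N i) * (TK d K (fun k => b k θ) (N i) θ).re) := by
      intro θ
      refine le_trans (le_of_eq ?_) (Real.one_sub_sq_div_two_le_cos)
      rw [mul_pow, div_pow, Real.sq_sqrt hNi.le]
      field_simp
    have e4 := integral_mono (μ := Pm) (Continuous.integrable_Pm (by fun_prop))
      (Continuous.integrable_Pm (by fun_prop)) e3
    rw [integral_sub (integrable_const _) (Continuous.integrable_Pm (by fun_prop)), integral_const_mul] at e4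
    simp only [integral_const, probReal_univ, one_smul] at e4
    have e5 : t ^ 2 / (2 * N i) * ∫ θ, (TK d K (fun k => b k θ) (N i) θ).re ^ 2 ∂Pm ≤ t ^ 2 / 2 * A := by
      calc _ ≤ t ^ 2 / (2 * N i) * (A * N i) := mul_le_mul_of_nonneg_left hi (by positivity)
        _ = _ := by field_simp
    linarith
  -- let `t → 0`
  have key2 : ∀ t : ℝ, 0 < t → ∫ θ, V θ ∂Pm ≤ A + t ^ 2 * (W ^ 2 / 4) := by
    intro t ht
    have h1 : ∀ᵐ θ ∂Pm, t ^ 2 / 2 * V θ - t ^ 4 * W ^ 2 / 8 ≤ 1 - Real.exp (-(t ^ 2 * V θ / 2)) := by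
      filter_upwards [hVW] with θ hθ
      have h2 := hV0 θ
      set y : ℝ := t ^ 2 * V θ / 2 with hy
      have hy0 : 0 ≤ y := by positivity
      have h3 : Real.exp (-y) ≤ 1 - y + y ^ 2 / 2 := by
        have h4 := Real.quadratic_le_exp_of_nonneg hy0
        have h5 : Real.exp (-y) * Real.exp y = 1 := by rw [← Real.exp_add]; simp
        have h6 : 0 < 1 - y + y ^ 2 / 2 := by nlinarith [sq_nonneg (y - 1)]
        have h7 : 1 ≤ (1 - y + y ^ 2 / 2) * (1 + y + y ^ 2 / 2) := by nlinarith [sq_nonneg (y ^ 2)]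
        have h8 : 1 ≤ (1 - y + y ^ 2 / 2) * Real.exp y :=
          h7.trans (mul_le_mul_of_nonneg_left h4 h6.le)
        have h9 := Real.exp_pos y
        by_contra hcon
        push Not at hcon
        have := mul_lt_mul_of_pos_right hcon h9
        linarith
      have h4 : y ^ 2 ≤ t ^ 4 * W ^ 2 / 4 := by
        have h5 : V θ ^ 2 ≤ W ^ 2 := pow_le_pow_left₀ h2 hθ 2
        have h6 : y ^ 2 = t ^ 4 / 4 * V θ ^ 2 := by rw [hy]; ring
        rw [h6]
        have : 0 ≤ t ^ 4 / 4 := by positivity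
        nlinarith
      have h5 : y = t ^ 2 / 2 * V θ := by rw [hy]; ring
      linarith
    have i1 : Integrable (fun θ => t ^ 2 / 2 * V θ - t ^ 4 * W ^ 2 / 8) Pm :=
      Continuous.integrable_Pm (by fun_prop)
    have i2 : Integrable (fun θ => 1 - Real.exp (-(t ^ 2 * V θ / 2))) Pm :=
      Continuous.integrable_Pm (by fun_prop)
    have h2 := (integral_mono_ae i1 i2 h1).trans (key t ht)
    rw [integral_sub (Continuous.integrable_Pm (by fun_prop)) (integrable_const _), integral_const_mul] at h2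
    simp only [integral_const, probReal_univ, one_smul] at h2
    have h3 : (0 : ℝ) < t ^ 2 / 2 := by positivity
    have h4 : t ^ 2 / 2 * ∫ θ, V θ ∂Pm ≤ t ^ 2 / 2 * (A + t ^ 2 * (W ^ 2 / 4)) := by
      have : t ^ 2 / 2 * (A + t ^ 2 * (W ^ 2 / 4)) = t ^ 2 / 2 * A + t ^ 4 * W ^ 2 / 8 := by ring
      rw [this]; linarith
    exact le_of_mul_le_mul_left h4 h3
  have hlim : Tendsto (fun t : ℝ => A + t ^ 2 * (W ^ 2 / 4)) (𝓝[>] 0) (𝓝 A) := by
    have : Continuous fun t : ℝ => A + t ^ 2 * (W ^ 2 / 4) := by fun_prop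
    have h := this.tendsto 0
    simp only [ne_eq, OfNat.ofNat_ne_zero, not_false_eq_true, zero_pow, zero_mul, add_zero] at h
    exact h.mono_left nhdsWithin_le_nhds
  apply ge_of_tendsto hlim
  filter_upwards [self_mem_nhdsWithin] with t ht
  exact key2 t ht

end Pool.Agent.H439.MC
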