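import Mathlib
import Pool.Agent.H439.MC.Area

/-!
# Blocks of Taylor coefficients
-/

set_option autoImplicit false

namespace Pool.Agent.H439.MC

open Complex Set Topology Filter Metric MeasureTheory N62a1eb23 Pool.Agent.H712R2
  Pool.Agent.H713R2 Pool.Agent.TH653.MB
open scoped ENNReal
open Real (circleAverage)

variable {d : ℕ} {β : ℂ → ℂ}

/-- logarithms of the functions `BB d β i` -/
structure IsLog (d : ℕ) (β : ℂ → ℂ) (F : ℕ → ℂ → ℂ) : Prop where
  diff : ∀ i, DifferentiableOn ℂ (F i) (ball 0 1)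
  exp : ∀ i, ∀ x ∈ ball (0 : ℂ) 1, Complex.exp (F i x) = BB d β i x
  zero : ∀ i, F i 0 = 0

theorem exists_isLog (hd : 2 ≤ d) (hβ : IsBeta d β) : ∃ F, IsLog d β F := by
  have h : ∀ i, ∃ g : ℂ → ℂ, DifferentiableOn ℂ g (ball 0 1) ∧
      (∀ x ∈ ball (0 : ℂ) 1, Complex.exp (g x) = BB d β i x) ∧ g 0 = 0 := by
    intro i
    obtain ⟨g, h1, h2, -⟩ := exists_log_ball one_pos (BB_diff (d := d) hβ.diff i)
      (fun x hx => BB_ne hd hβ i hx)
    refine ⟨fun x => g x - g 0, h1.sub_const _, ?_, sub_self _⟩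
    intro x hx
    rw [Complex.exp_sub, h2 x hx, h2 0 (mem_ball_self one_pos), BB_zero_val hd hβ, div_one]
  choose F h1 h2 h3 using h
  exact ⟨F, h1, h2, h3⟩

theorem deriv_F {F : ℕ → ℂ → ℂ} (hF : IsLog d β F) (i : ℕ) {x : ℂ} (hx : x ∈ ball (0 : ℂ) 1) :
    deriv (F i) x = logDeriv (BB d β i) x := by
  have h1 : HasDerivAt (F i) (deriv (F i) x) x :=
    ((hF.diff i).differentiableAt (isOpen_ball.mem_nhds hx)).hasDerivAt
  have h2 := h1.cexp
  have h3 : (fun y => Complex.exp (F i y)) =ᶠ[𝓝 x] BB d β i := by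
    filter_upwards [isOpen_ball.mem_nhds hx] with y hy using hF.exp i y hy
  have h4 : HasDerivAt (BB d β i) (Complex.exp (F i x) * deriv (F i) x) x := h2.congr_of_eventuallyEq h3.symm
  rw [logDeriv_apply, h4.deriv, hF.exp i x hx]
  have h5 : BB d β i x ≠ 0 := by rw [← hF.exp i x hx]; exact Complex.exp_ne_zero _
  field_simp

theorem tc_F_low (hd : 2 ≤ d) (hβ : IsBeta d β) {F : ℕ → ℂ → ℂ} (hF : IsLog d β F) {i m : ℕ}
    (hm : m < d ^ (i + 1) - 1) : tc (F i) m = 0 := by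
  rcases Nat.eq_zero_or_pos m with h0 | h0
  · subst h0
    rw [tc_zero, hF.zero]
  · obtain ⟨k, rfl⟩ : ∃ k, m = k + 1 := Nat.exists_eq_add_of_le' h0
    have h1 := tc_BB_low hd hβ (i := i) (k := k) hm
    have h2 : tc (deriv (F i)) k = tc (logDeriv (BB d β i)) k := by
      apply tc_congr
      filter_upwards [isOpen_ball.mem_nhds (mem_ball_self (x := (0 : ℂ)) one_pos)] with y hy using
        deriv_F hF i hy
    rw [h1, tc_deriv] at h2
    have h3 : ((k : ℂ) + 1) ≠ 0 := by exact_mod_cast Nat.succ_ne_zero k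
    exact (mul_eq_zero.1 h2).resolve_left h3

/-- the norm of a block of Taylor coefficients -/
noncomputable def bn (d s : ℕ) (F : ℂ → ℂ) : ℝ :=
  Real.sqrt (∑ m ∈ Finset.Ico (d ^ (s - 1)) (d ^ s), ‖tc F m‖ ^ 2)

theorem bn_nonneg (d s : ℕ) (F : ℂ → ℂ) : 0 ≤ bn d s F := Real.sqrt_nonneg _

theorem bn_sq (d s : ℕ) (F : ℂ → ℂ) :
    bn d s F ^ 2 = ∑ m ∈ Finset.Ico (d ^ (s - 1)) (d ^ s), ‖tc F m‖ ^ 2 :=
  Real.sq_sqrt (Finset.sum_nonneg fun _ _ => by positivity)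

/-- the constant of the block bound -/
noncomputable def CB (d J0 : ℕ) : ℝ := 16 * Real.exp 4 * d ^ 2 * J0

theorem block_sq (hd : 2 ≤ d) (hβ : IsBeta d β) {J0 : ℕ} (hJ1 : 1 ≤ J0) (hJ : LC d ≤ 2 ^ J0)
    {F : ℕ → ℂ → ℂ} (hF : IsLog d β F) (i a : ℕ) (ha : 1 ≤ a) :
    bn d (i + a) (F i) ^ 2 ≤ CB d J0 * (81 / 100) ^ a := by
  have hd0 : (0 : ℝ) < d := by exact_mod_cast (by omega : 0 < d)
  have hd2 : (2 : ℝ) ≤ d := by exact_mod_cast hd
  have hd1 : (1 : ℝ) ≤ d := by linarith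
  have hpi := Real.pi_pos
  set s := i + a with hs
  have hs1 : 1 ≤ s := by omega
  set N : ℕ := d ^ i with hN
  set G : ℂ → ℂ := fun x => x * deriv (F i) x - (N : ℂ) with hG
  have hxd : DifferentiableOn ℂ (fun x => x * deriv (F i) x) (ball 0 1) :=
    differentiableOn_id.mul ((hF.diff i).deriv isOpen_ball)
  have hGd : DifferentiableOn ℂ G (ball 0 1) := hxd.sub_const _
  have htc : ∀ m, 1 ≤ m → tc G m = m * tc (F i) m := by
    intro m hm
    obtain ⟨k, rfl⟩ : ∃ k, m = k + 1 := Nat.exists_eq_add_of_le' hm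
    rw [hG, tc_sub one_pos hxd (differentiableOn_const _), tc_id_mul_deriv (hF.diff i),
      tc_const_succ, sub_zero]
  have h1 := area_bound hd hβ hJ1 hJ i a (hF.diff i) (hF.exp i)
  rw [← hs, ← hN] at h1
  have h2 := annulus hGd (rho_pos d s) (rho_lt hd s) (rho_lt_one hd (s + 1)) (d ^ s)
  have h3 := h2.trans h1
  rw [ENNReal.ofReal_le_ofReal_iff (by positivity)] at h3
  -- lower bounds
  have hps : (0 : ℝ) < (d : ℝ) ^ s := by positivity
  have hgap : Real.exp (-1) * (1 / (2 * (d : ℝ) ^ s)) ≤ rho d (s + 1) - rho d s := by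
    unfold rho
    have h4 : 1 / (d : ℝ) ^ (s + 1) ≤ 1 / (2 * (d : ℝ) ^ s) := by
      apply one_div_le_one_div_of_le (by positivity)
      rw [pow_succ]
      nlinarith
    have h5 : Real.exp (-(1 / (d : ℝ) ^ s)) * (1 / (d : ℝ) ^ s - 1 / (d : ℝ) ^ (s + 1)) ≤
        Real.exp (-(1 / (d : ℝ) ^ (s + 1))) - Real.exp (-(1 / (d : ℝ) ^ s)) := by
      have h6 := Real.add_one_le_exp (1 / (d : ℝ) ^ s - 1 / (d : ℝ) ^ (s + 1))
      have h7 : Real.exp (-(1 / (d : ℝ) ^ (s + 1))) =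
          Real.exp (-(1 / (d : ℝ) ^ s)) * Real.exp (1 / (d : ℝ) ^ s - 1 / (d : ℝ) ^ (s + 1)) := by
        rw [← Real.exp_add]; congr 1; ring
      rw [h7]
      have h8 := Real.exp_pos (-(1 / (d : ℝ) ^ s))
      nlinarith
    refine le_trans ?_ h5
    have h6 : 1 / (d : ℝ) ^ s ≤ 1 := by
      rw [div_le_one hps]; exact one_le_pow₀ hd1
    have h7 : Real.exp (-1) ≤ Real.exp (-(1 / (d : ℝ) ^ s)) := Real.exp_le_exp.2 (by linarith)
    have h8 : 1 / (d : ℝ) ^ s = 1 / (2 * (d : ℝ) ^ s) + 1 / (2 * (d : ℝ) ^ s) := by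
      field_simp; norm_num
    apply mul_le_mul h7 (by linarith) (by positivity) (Real.exp_pos _).le
  have hsum : Real.exp (-3) * ((d : ℝ) ^ (s - 1)) ^ 2 * bn d s (F i) ^ 2 ≤
      ∑ k ∈ Finset.range (d ^ s), ‖tc G k‖ ^ 2 * rho d s ^ (2 * k + 1) := by
    rw [bn_sq, Finset.mul_sum]
    refine le_trans (Finset.sum_le_sum (g := fun k => ‖tc G k‖ ^ 2 * rho d s ^ (2 * k + 1)) ?_)
      (Finset.sum_le_sum_of_subset_of_nonneg ?_ ?_)
    · intro m hm
      rw [Finset.mem_Ico] at hm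
      have hm1 : 1 ≤ m := le_trans (Nat.one_le_pow _ _ (by omega)) hm.1
      rw [htc m hm1, norm_mul, Complex.norm_natCast]
      have h4 : (d : ℝ) ^ (s - 1) ≤ m := by exact_mod_cast hm.1
      have h5 : (m : ℝ) ≤ (d : ℝ) ^ s := by exact_mod_cast hm.2.le
      have h6 : Real.exp (-3) ≤ rho d s ^ (2 * m + 1) := by
        unfold rho
        rw [← Real.exp_nat_mul]
        apply Real.exp_le_exp.2
        push_cast
        have h7 : (2 * (m : ℝ) + 1) * (1 / (d : ℝ) ^ s) ≤ 3 := by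
          rw [mul_one_div, div_le_iff₀ hps]
          have : (1 : ℝ) ≤ m := by exact_mod_cast hm1
          linarith
        linarith
      have h7 : ((d : ℝ) ^ (s - 1)) ^ 2 ≤ (m : ℝ) ^ 2 := pow_le_pow_left₀ (by positivity) h4 2
      have h8 : (0 : ℝ) ≤ ‖tc (F i) m‖ ^ 2 := by positivity
      calc Real.exp (-3) * ((d : ℝ) ^ (s - 1)) ^ 2 * ‖tc (F i) m‖ ^ 2
          ≤ rho d s ^ (2 * m + 1) * (m : ℝ) ^ 2 * ‖tc (F i) m‖ ^ 2 := by
            apply mul_le_mul_of_nonneg_right _ h8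
            exact mul_le_mul h6 h7 (by positivity) (pow_nonneg (rho_pos d s).le _)
        _ = (m * ‖tc (F i) m‖) ^ 2 * rho d s ^ (2 * m + 1) := by ring
    · intro m hm
      rw [Finset.mem_Ico] at hm
      exact Finset.mem_range.2 hm.2
    · intro m _ _
      exact mul_nonneg (by positivity) (pow_nonneg (rho_pos d s).le _)
  set B : ℝ := bn d s (F i) ^ 2 with hB
  have hB0 : 0 ≤ B := by positivity
  have h4 : Real.exp (-1) * (1 / (2 * (d : ℝ) ^ s)) *
      (Real.exp (-3) * ((d : ℝ) ^ (s - 1)) ^ 2 * B) ≤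
      (rho d (s + 1) - rho d s) * ∑ k ∈ Finset.range (d ^ s), ‖tc G k‖ ^ 2 * rho d s ^ (2 * k + 1) :=
    mul_le_mul hgap hsum (by positivity) (by linarith [rho_lt hd s])
  have h5 : 2 * Real.pi * (Real.exp (-1) * (1 / (2 * (d : ℝ) ^ s)) *
      (Real.exp (-3) * ((d : ℝ) ^ (s - 1)) ^ 2 * B)) ≤ (N : ℝ) * (4 * Real.pi * ((a + 4) * J0 : ℕ)) := by
    refine le_trans ?_ h3
    rw [mul_assoc (2 * Real.pi)]
    exact mul_le_mul_of_nonneg_left h4 (by positivity)
  -- simplify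
  have h6 : Real.exp (-1) * Real.exp (-3) = (Real.exp 4)⁻¹ := by
    rw [← Real.exp_add, ← Real.exp_neg]; norm_num
  have h7 : (d : ℝ) ^ s = (d : ℝ) ^ (s - 1) * d := by
    rw [← pow_succ, Nat.sub_add_cancel hs1]
  have h8 : (d : ℝ) ^ s = (d : ℝ) ^ i * (d : ℝ) ^ a := by rw [hs, pow_add]
  have hN' : (N : ℝ) = (d : ℝ) ^ i := by rw [hN]; push_cast; rfl
  have he4 := Real.exp_pos 4
  have h9 : B ≤ 4 * Real.exp 4 * d ^ 2 * J0 * ((a + 4) * (1 / (d : ℝ) ^ a)) := by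
    have h10 : 2 * Real.pi * (Real.exp (-1) * (1 / (2 * (d : ℝ) ^ s)) *
        (Real.exp (-3) * ((d : ℝ) ^ (s - 1)) ^ 2 * B)) =
        Real.pi * (Real.exp 4)⁻¹ * ((d : ℝ) ^ i * (d : ℝ) ^ a) / d ^ 2 * B := by
      rw [← h6, ← h8, h7]
      field_simp
    rw [h10, hN'] at h5
    have hpi' : (0 : ℝ) < (d : ℝ) ^ i := by positivity
    have hpa : (0 : ℝ) < (d : ℝ) ^ a := by positivity
    have h11 : B = (Real.pi * (Real.exp 4)⁻¹ * ((d : ℝ) ^ i * (d : ℝ) ^ a) / d ^ 2 * B) *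
        (Real.exp 4 * d ^ 2 / (Real.pi * ((d : ℝ) ^ i * (d : ℝ) ^ a))) := by
      field_simp
    rw [h11]
    calc (Real.pi * (Real.exp 4)⁻¹ * ((d : ℝ) ^ i * (d : ℝ) ^ a) / d ^ 2 * B) *
        (Real.exp 4 * d ^ 2 / (Real.pi * ((d : ℝ) ^ i * (d : ℝ) ^ a)))
        ≤ ((d : ℝ) ^ i * (4 * Real.pi * ((a + 4) * J0 : ℕ))) *
          (Real.exp 4 * d ^ 2 / (Real.pi * ((d : ℝ) ^ i * (d : ℝ) ^ a))) :=
          mul_le_mul_of_nonneg_right h5 (by positivity)
      _ = _ := by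
          push_cast
          field_simp
  have h10 : ((a : ℝ) + 4) * (1 / (d : ℝ) ^ a) ≤ 4 * (81 / 100) ^ a := by
    have h11 : (a : ℝ) + 4 ≤ 4 * (8 / 5) ^ a := by
      have := one_add_mul_le_pow (show (-2 : ℝ) ≤ 3 / 5 by norm_num) a
      have h12 : (1 + 3 / 5 : ℝ) = 8 / 5 := by norm_num
      rw [h12] at this
      have : (0 : ℝ) ≤ a := Nat.cast_nonneg a
      linarith
    have h12 : 1 / (d : ℝ) ^ a ≤ (1 / 2) ^ a := by
      rw [one_div_pow]
      apply one_div_le_one_div_of_le (by positivity)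
      exact pow_le_pow_left₀ (by norm_num) hd2 a
    calc ((a : ℝ) + 4) * (1 / (d : ℝ) ^ a) ≤ (4 * (8 / 5) ^ a) * (1 / 2) ^ a :=
          mul_le_mul h11 h12 (by positivity) (by positivity)
      _ = 4 * (4 / 5) ^ a := by rw [mul_assoc, ← mul_pow]; norm_num
      _ ≤ 4 * (81 / 100) ^ a := by
          apply mul_le_mul_of_nonneg_left _ (by norm_num)
          exact pow_le_pow_left₀ (by norm_num) (by norm_num) a
  refine h9.trans ?_
  unfold CB
  calc 4 * Real.exp 4 * d ^ 2 * J0 * ((a + 4) * (1 / (d : ℝ) ^ a))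
      ≤ 4 * Real.exp 4 * d ^ 2 * J0 * (4 * (81 / 100) ^ a) :=
        mul_le_mul_of_nonneg_left h10 (by positivity)
    _ = _ := by ring

/-- the weights -/
noncomputable def ww (i s : ℕ) : ℝ := if i < s then (9 / 10) ^ (s - i) else 0

theorem ww_nonneg (i s : ℕ) : 0 ≤ ww i s := by unfold ww; split_ifs <;> positivity

theorem block_le (hd : 2 ≤ d) (hβ : IsBeta d β) {F : ℕ → ℂ → ℂ} (hF : IsLog d β F) :
    ∃ C : ℝ, 0 < C ∧ ∀ i s, bn d s (F i) ≤ C * ww i s := by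
  obtain ⟨J0, hJ1, hJ⟩ := exists_J d
  have hd0 : (0 : ℝ) < d := by exact_mod_cast (by omega : 0 < d)
  have hC : 0 < CB d J0 := by
    unfold CB
    have : (0 : ℝ) < J0 := by exact_mod_cast hJ1
    positivity
  refine ⟨Real.sqrt (CB d J0), Real.sqrt_pos.2 hC, ?_⟩
  intro i s
  unfold ww
  split_ifs with h
  · obtain ⟨a, rfl⟩ : ∃ a, s = i + a := ⟨s - i, by omega⟩
    have h1 := block_sq hd hβ hJ1 hJ hF i a (by omega)
    rw [Nat.add_sub_cancel_left]
    rw [← Real.sqrt_sq (bn_nonneg d (i + a) (F i))]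
    have h2 : Real.sqrt (CB d J0) * (9 / 10) ^ a = Real.sqrt (CB d J0 * (81 / 100) ^ a) := by
      rw [Real.sqrt_mul hC.le]
      congr 1
      rw [show (81 / 100 : ℝ) = (9 / 10) ^ 2 by norm_num, ← pow_mul, mul_comm 2 a, pow_mul,
        Real.sqrt_sq (by positivity)]
    rw [h2]
    exact Real.sqrt_le_sqrt h1
  · rw [mul_zero]
    apply le_of_eq
    unfold bn
    rw [Real.sqrt_eq_zero', Finset.sum_eq_zero]
    intro m hm
    rw [Finset.mem_Ico] at hm
    have h1 : d ^ s ≤ d ^ i := Nat.pow_le_pow_right (by omega) (by omega)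
    have h2 : 2 * d ^ i ≤ d ^ (i + 1) := by
      rw [pow_succ, mul_comm]
      exact Nat.mul_le_mul_left _ hd
    have h3 : 1 ≤ d ^ i := Nat.one_le_pow _ _ (by omega)
    rw [tc_F_low hd hβ hF (by omega)]
    simp

/-! ### sums -/

theorem bn_add {F G : ℂ → ℂ} (hF : DifferentiableOn ℂ F (ball 0 1))
    (hG : DifferentiableOn ℂ G (ball 0 1)) (s : ℕ) :
    bn d s (fun x => F x + G x) ≤ bn d s F + bn d s G := by
  have hA : 0 ≤ bn d s F + bn d s G := add_nonneg (bn_nonneg _ _ _) (bn_nonneg _ _ _)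
  rw [← Real.sqrt_sq hA]
  unfold bn at *
  apply Real.sqrt_le_sqrt
  rw [add_sq, Real.sq_sqrt (Finset.sum_nonneg fun _ _ => by positivity),
    Real.sq_sqrt (Finset.sum_nonneg fun _ _ => by positivity)]
  have h1 : ∑ m ∈ Finset.Ico (d ^ (s - 1)) (d ^ s), ‖tc F m‖ * ‖tc G m‖ ≤
      Real.sqrt (∑ m ∈ Finset.Ico (d ^ (s - 1)) (d ^ s), ‖tc F m‖ ^ 2) *
      Real.sqrt (∑ m ∈ Finset.Ico (d ^ (s - 1)) (d ^ s), ‖tc G m‖ ^ 2) :=
    Real.sum_mul_le_sqrt_mul_sqrt _ _ _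
  have h2 : ∑ m ∈ Finset.Ico (d ^ (s - 1)) (d ^ s), ‖tc (fun x => F x + G x) m‖ ^ 2 ≤
      ∑ m ∈ Finset.Ico (d ^ (s - 1)) (d ^ s), (‖tc F m‖ ^ 2 + 2 * (‖tc F m‖ * ‖tc G m‖) +
        ‖tc G m‖ ^ 2) := by
    apply Finset.sum_le_sum
    intro m _
    rw [tc_add one_pos hF hG]
    have h3 := norm_add_le (tc F m) (tc G m)
    calc ‖tc F m + tc G m‖ ^ 2 ≤ (‖tc F m‖ + ‖tc G m‖) ^ 2 := pow_le_pow_left₀ (norm_nonneg _) h3 2
      _ = _ := by ring
  rw [Finset.sum_add_distrib, Finset.sum_add_distrib, ← Finset.mul_sum] at h2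
  linarith

theorem bn_zero (s : ℕ) : bn d s (fun _ => (0 : ℂ)) = 0 := by
  unfold bn
  rw [Real.sqrt_eq_zero', Finset.sum_eq_zero]
  intro m _
  rw [tc_zero_fun]
  simp

theorem bn_sum {ι : Type*} (I : Finset ι) {F : ι → ℂ → ℂ}
    (hF : ∀ i ∈ I, DifferentiableOn ℂ (F i) (ball 0 1)) (s : ℕ) :
    bn d s (fun x => ∑ i ∈ I, F i x) ≤ ∑ i ∈ I, bn d s (F i) := by
  classical
  induction I using Finset.induction_on with
  | empty => simp [bn_zero]
  | insert i I hi ih =>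
    rw [Finset.sum_insert hi]
    simp only [Finset.sum_insert hi]
    refine (bn_add (hF i (Finset.mem_insert_self i I)) (DifferentiableOn.fun_sum fun j hj =>
      hF j (Finset.mem_insert_of_mem hj)) s).trans ?_
    have := ih (fun j hj => hF j (Finset.mem_insert_of_mem hj))
    linarith

theorem sum_blocks (hd : 2 ≤ d) (f : ℕ → ℝ) (n : ℕ) :
    ∑ m ∈ Finset.Ico 1 (d ^ n), f m =
      ∑ s ∈ Finset.range (n + 1), ∑ m ∈ Finset.Ico (d ^ (s - 1)) (d ^ s), f m := by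
  induction n with
  | zero => simp
  | succ n ih =>
    rw [Finset.sum_range_succ, ← ih, Nat.add_sub_cancel]
    rw [Finset.sum_Ico_consecutive _ (Nat.one_le_pow _ _ (by omega))
      (Nat.pow_le_pow_right (by omega) (by omega))]

/-- the mean square from the blocks -/
theorem en_le (hd : 2 ≤ d) {F : ℂ → ℂ} (hF : DifferentiableOn ℂ F (ball 0 1)) (h0 : F 0 = 0)
    {B : ℝ} (hB : ∀ n, ∑ s ∈ Finset.range n, bn d s F ^ 2 ≤ B) {r : ℝ} (hr : 0 < r) (hr1 : r < 1) :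
    circleAverage (fun x => ‖F x‖ ^ 2) 0 r ≤ B := by
  have h1 := hasSum_sq_tc hr hr1 hF
  refine le_of_tendsto h1.tendsto_sum_nat (Eventually.of_forall fun K => ?_)
  have h2 : ∑ k ∈ Finset.range K, ‖tc F k‖ ^ 2 * r ^ (2 * k) ≤ ∑ k ∈ Finset.Ico 1 (d ^ K), ‖tc F k‖ ^ 2 := by
    have h3 : ∑ k ∈ Finset.range K, ‖tc F k‖ ^ 2 * r ^ (2 * k) ≤ ∑ k ∈ Finset.range (d ^ K), ‖tc F k‖ ^ 2 := by
      refine le_trans (Finset.sum_le_sum (g := fun k => ‖tc F k‖ ^ 2) fun k _ => ?_)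
        (Finset.sum_le_sum_of_subset_of_nonneg ?_ fun _ _ _ => by positivity)
      · exact mul_le_of_le_one_right (by positivity) (pow_le_one₀ hr.le hr1.le)
      · apply Finset.range_subset_range.2
        exact (Nat.lt_pow_self (by omega)).le
    refine h3.trans (le_of_eq ?_)
    have h4 : 1 ≤ d ^ K := Nat.one_le_pow _ _ (by omega)
    rw [Finset.range_eq_Ico, ← Finset.sum_Ico_consecutive _ (Nat.zero_le 1) h4]
    have h5 : ∑ k ∈ Finset.Ico 0 1, ‖tc F k‖ ^ 2 = 0 := by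
      rw [← Finset.range_eq_Ico, Finset.sum_range_one, tc_zero, h0]; simp
    rw [h5, zero_add]
  refine h2.trans ?_
  rw [sum_blocks hd]
  refine le_trans (le_of_eq ?_) (hB (K + 1))
  apply Finset.sum_congr rfl
  intro s _
  rw [bn_sq]

theorem ww_sum_left (I : Finset ℕ) (s : ℕ) : ∑ i ∈ I, ww i s ≤ 9 := by
  have h1 : ∑ i ∈ I, ww i s ≤ ∑ i ∈ Finset.range s, (9 / 10 : ℝ) ^ (s - i) := by
    have h2 : ∑ i ∈ I, ww i s = ∑ i ∈ I.filter (fun i => i < s), (9 / 10 : ℝ) ^ (s - i) := by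
      rw [Finset.sum_filter]
      rfl
    rw [h2]
    apply Finset.sum_le_sum_of_subset_of_nonneg
    · intro i hi
      exact Finset.mem_range.2 (Finset.mem_filter.1 hi).2
    · intro _ _ _; positivity
  refine h1.trans ?_
  have h3 : ∀ s : ℕ, ∑ i ∈ Finset.range s, (9 / 10 : ℝ) ^ (s - i) = 9 * (1 - (9 / 10) ^ s) := by
    intro s
    induction s with
    | zero => simp
    | succ s ih =>
      rw [Finset.sum_range_succ]
      have h4 : ∑ i ∈ Finset.range s, (9 / 10 : ℝ) ^ (s + 1 - i) =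
          (9 / 10) * ∑ i ∈ Finset.range s, (9 / 10 : ℝ) ^ (s - i) := by
        rw [Finset.mul_sum]
        apply Finset.sum_congr rfl
        intro i hi
        rw [Finset.mem_range] at hi
        rw [show s + 1 - i = (s - i) + 1 by omega, pow_succ]
        ring
      rw [h4, ih, show s + 1 - s = 1 by omega, pow_succ]
      ring
  rw [h3]
  have : (0 : ℝ) ≤ (9 / 10) ^ s := by positivity
  linarith

theorem ww_sum_right (i n : ℕ) : ∑ s ∈ Finset.range n, ww i s ≤ 9 := by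
  have h1 : ∑ s ∈ Finset.range n, ww i s ≤ ∑ a ∈ Finset.range n, (9 / 10 : ℝ) ^ (a + 1) := by
    have h2 : ∑ s ∈ Finset.range n, ww i s =
        ∑ s ∈ (Finset.range n).filter (fun s => i < s), (9 / 10 : ℝ) ^ (s - i) := by
      rw [Finset.sum_filter]
      rfl
    rw [h2]
    have h3 : ∑ s ∈ (Finset.range n).filter (fun s => i < s), (9 / 10 : ℝ) ^ (s - i) =
        ∑ a ∈ ((Finset.range n).filter (fun s => i < s)).image (fun s => s - i - 1),
          (9 / 10 : ℝ) ^ (a + 1) := by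
      rw [Finset.sum_image]
      · apply Finset.sum_congr rfl
        intro s hs
        have := (Finset.mem_filter.1 hs).2
        rw [show s - i - 1 + 1 = s - i by omega]
      · intro s hs t ht hst
        have h4 := (Finset.mem_filter.1 hs).2
        have h5 := (Finset.mem_filter.1 ht).2
        simp only at hst
        omega
    rw [h3]
    apply Finset.sum_le_sum_of_subset_of_nonneg
    · intro a ha
      obtain ⟨s, hs, rfl⟩ := Finset.mem_image.1 ha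
      have h4 := Finset.mem_range.1 (Finset.mem_filter.1 hs).1
      exact Finset.mem_range.2 (by omega)
    · intro _ _ _; positivity
  refine h1.trans ?_
  have h3 : ∀ n : ℕ, ∑ a ∈ Finset.range n, (9 / 10 : ℝ) ^ (a + 1) = 9 * (1 - (9 / 10) ^ n) := by
    intro n
    induction n with
    | zero => simp
    | succ n ih => rw [Finset.sum_range_succ, ih]; ring
  rw [h3]
  have : (0 : ℝ) ≤ (9 / 10) ^ n := by positivity
  linarith

/-- Schur's test for the weights -/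
theorem schur (I : Finset ℕ) (n : ℕ) :
    ∑ s ∈ Finset.range n, (∑ i ∈ I, ww i s) ^ 2 ≤ 81 * I.card := by
  have h1 : ∀ s ∈ Finset.range n, (∑ i ∈ I, ww i s) ^ 2 ≤ 9 * ∑ i ∈ I, ww i s := by
    intro s _
    have h2 := ww_sum_left I s
    have h3 : 0 ≤ ∑ i ∈ I, ww i s := Finset.sum_nonneg fun i _ => ww_nonneg i s
    nlinarith
  refine (Finset.sum_le_sum h1).trans ?_
  rw [← Finset.mul_sum, Finset.sum_comm]
  have h2 : ∑ i ∈ I, ∑ s ∈ Finset.range n, ww i s ≤ ∑ _i ∈ I, (9 : ℝ) :=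
    Finset.sum_le_sum fun i _ => ww_sum_right i n
  rw [Finset.sum_const, nsmul_eq_mul] at h2
  linarith

/-- **mean squares of sums of the logarithms** -/
theorem en_sum (hd : 2 ≤ d) (hβ : IsBeta d β) {F : ℕ → ℂ → ℂ} (hF : IsLog d β F) :
    ∃ C : ℝ, 0 < C ∧ ∀ (I : Finset ℕ) (r : ℝ), 0 < r → r < 1 →
      circleAverage (fun x => ‖∑ i ∈ I, F i x‖ ^ 2) 0 r ≤ C * I.card := by
  obtain ⟨C, hC, h⟩ := block_le hd hβ hF
  refine ⟨81 * C ^ 2, by positivity, ?_⟩
  intro I r hr hr1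
  have hdiff : DifferentiableOn ℂ (fun x => ∑ i ∈ I, F i x) (ball 0 1) :=
    DifferentiableOn.fun_sum fun i _ => hF.diff i
  apply en_le hd hdiff (by simp [hF.zero]) _ hr hr1
  intro n
  calc ∑ s ∈ Finset.range n, bn d s (fun x => ∑ i ∈ I, F i x) ^ 2
      ≤ ∑ s ∈ Finset.range n, (C * ∑ i ∈ I, ww i s) ^ 2 := by
        apply Finset.sum_le_sum
        intro s _
        apply pow_le_pow_left₀ (bn_nonneg _ _ _)
        refine (bn_sum I (fun i _ => hF.diff i) s).trans ?_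
        rw [Finset.mul_sum]
        exact Finset.sum_le_sum fun i _ => h i s
    _ = C ^ 2 * ∑ s ∈ Finset.range n, (∑ i ∈ I, ww i s) ^ 2 := by
        rw [Finset.mul_sum]
        apply Finset.sum_congr rfl
        intro s _
        ring
    _ ≤ C ^ 2 * (81 * I.card) := mul_le_mul_of_nonneg_left (schur I n) (by positivity)
    _ = 81 * C ^ 2 * I.card := by ring

end Pool.Agent.H439.MC
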