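import Mathlib
import Pool.Agent.H439.MC.Block

/-!
# The derivative of the exterior map and the sum of the logarithms
-/

set_option autoImplicit false

namespace Pool.Agent.H439.MC

open Complex Set Topology Filter Metric MeasureTheory N62a1eb23 Pool.Agent.H712R2
  Pool.Agent.H713R2 Pool.Agent.TH653.MB
open scoped ENNReal
open Real (circleAverage)

variable {d : ℕ} {β : ℂ → ℂ}

/-- partial sums of the logarithms -/
noncomputable def SS (F : ℕ → ℂ → ℂ) (j : ℕ) (x : ℂ) : ℂ := ∑ i ∈ Finset.range j, F i x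

theorem SS_diff {F : ℕ → ℂ → ℂ} (hF : IsLog d β F) (j : ℕ) :
    DifferentiableOn ℂ (SS F j) (ball 0 1) :=
  DifferentiableOn.fun_sum fun i _ => hF.diff i

theorem SS_zero {F : ℕ → ℂ → ℂ} (hF : IsLog d β F) (j : ℕ) : SS F j 0 = 0 := by
  unfold SS
  exact Finset.sum_eq_zero fun i _ => hF.zero i

theorem SS_succ (F : ℕ → ℂ → ℂ) (j : ℕ) (x : ℂ) : SS F (j + 1) x = SS F j x + F j x := by
  unfold SS
  rw [Finset.sum_range_succ]

/-- the products of the `BB` -/
noncomputable def EP (d : ℕ) (F : ℕ → ℂ → ℂ) (j : ℕ) (x : ℂ) : ℂ :=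
  Complex.exp (((d - 1 : ℕ) : ℂ) * SS F j x)

theorem EP_ne (d : ℕ) (F : ℕ → ℂ → ℂ) (j : ℕ) (x : ℂ) : EP d F j x ≠ 0 := Complex.exp_ne_zero _

theorem EP_succ {F : ℕ → ℂ → ℂ} (hF : IsLog d β F) (j : ℕ) {x : ℂ} (hx : x ∈ ball (0 : ℂ) 1) :
    EP d F (j + 1) x = EP d F j x * (BB d β j x) ^ (d - 1) := by
  unfold EP
  rw [SS_succ, mul_add, Complex.exp_add, Complex.exp_nat_mul (F j x), hF.exp j x hx]

theorem EP_diff {F : ℕ → ℂ → ℂ} (hF : IsLog d β F) (j : ℕ) :
    DifferentiableOn ℂ (EP d F j) (ball 0 1) :=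
  ((SS_diff hF j).const_mul _).cexp

/-- the function `T` -/
noncomputable def TT (d : ℕ) (F : ℕ → ℂ → ℂ) (N : ℕ) (x : ℂ) : ℂ :=
  1 + ∑ j ∈ Finset.range N, x ^ (d ^ (j + 1) - 1) / ((d : ℂ) ^ (j + 1) * EP d F (j + 1) x)

theorem TT_diff (hd : 2 ≤ d) {F : ℕ → ℂ → ℂ} (hF : IsLog d β F) (N : ℕ) :
    DifferentiableOn ℂ (TT d F N) (ball 0 1) := by
  unfold TT
  apply DifferentiableOn.add (differentiableOn_const _)
  apply DifferentiableOn.fun_sum
  intro j _
  apply DifferentiableOn.div (by fun_prop) ((EP_diff hF (j + 1)).const_mul _)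
  intro x _
  have : (d : ℂ) ≠ 0 := by exact_mod_cast (by omega : d ≠ 0)
  exact mul_ne_zero (pow_ne_zero _ this) (EP_ne _ _ _ _)

theorem TT_zero (hd : 2 ≤ d) {F : ℕ → ℂ → ℂ} (N : ℕ) : TT d F N 0 = 1 := by
  unfold TT
  rw [Finset.sum_eq_zero, add_zero]
  intro j _
  have : 2 ≤ d ^ (j + 1) := two_le_pow hd (by omega)
  rw [zero_pow (by omega), zero_div]

theorem YY_EP (hd : 2 ≤ d) {F : ℕ → ℂ → ℂ} (hF : IsLog d β F) (N : ℕ) {x : ℂ}
    (hx : x ∈ ball (0 : ℂ) 1) : YY d β N x = EP d F N x * TT d F N x := by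
  induction N with
  | zero => simp [YY, TT, EP, SS]
  | succ N ih =>
    rw [YY_succ, ih, EP_succ hF N hx]
    have h1 : TT d F (N + 1) x = TT d F N x +
        x ^ (d ^ (N + 1) - 1) / ((d : ℂ) ^ (N + 1) * EP d F (N + 1) x) := by
      unfold TT
      rw [Finset.sum_range_succ]
      ring
    rw [h1, EP_succ hF N hx]
    have h2 : (d : ℂ) ≠ 0 := by exact_mod_cast (by omega : d ≠ 0)
    have h3 := EP_ne d F N x
    have h4 : BB d β N x ≠ 0 := by rw [← hF.exp N x hx]; exact Complex.exp_ne_zero _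
    field_simp

/-- the backward constant -/
noncomputable def C2 (d : ℕ) : ℝ := Real.log (d * 2 ^ (d - 1))

/-- the logarithm of the majorant of the terms of `T` -/
noncomputable def lt (d : ℕ) (F : ℕ → ℂ → ℂ) (j : ℕ) (x : ℂ) : ℝ :=
  -(j * Real.log d) - ((d - 1 : ℕ) : ℝ) * (SS F j x).re

theorem C2_nonneg (hd : 2 ≤ d) : 0 ≤ C2 d := by
  unfold C2
  apply Real.log_nonneg
  have h1 : (1 : ℝ) ≤ d := by exact_mod_cast (by omega : 1 ≤ d)
  have h2 : (1 : ℝ) ≤ 2 ^ (d - 1) := one_le_pow₀ (by norm_num)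
  nlinarith

theorem F_re_le (hd : 2 ≤ d) (hβ : IsBeta d β) {F : ℕ → ℂ → ℂ} (hF : IsLog d β F) (i : ℕ) {x : ℂ}
    (hx : x ∈ ball (0 : ℂ) 1) : (F i x).re ≤ Real.log 2 := by
  have h1 := AR.BB_le_two hd hβ i hx
  rw [← hF.exp i x hx, Complex.norm_exp] at h1
  rw [Real.le_log_iff_exp_le (by norm_num)]
  exact h1

theorem lt_back (hd : 2 ≤ d) (hβ : IsBeta d β) {F : ℕ → ℂ → ℂ} (hF : IsLog d β F) (j l : ℕ) {x : ℂ}
    (hx : x ∈ ball (0 : ℂ) 1) : lt d F j x ≤ lt d F (j + l) x + C2 d * l := by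
  induction l with
  | zero => simp
  | succ l ih =>
    refine ih.trans ?_
    have h1 : lt d F (j + (l + 1)) x = lt d F (j + l) x - Real.log d -
        ((d - 1 : ℕ) : ℝ) * (F (j + l) x).re := by
      unfold lt
      rw [← add_assoc, SS_succ, Complex.add_re]
      push_cast
      ring
    have h2 : C2 d = Real.log d + ((d - 1 : ℕ) : ℝ) * Real.log 2 := by
      unfold C2
      have h3 : (d : ℝ) ≠ 0 := by exact_mod_cast (by omega : d ≠ 0)
      rw [Real.log_mul h3 (by positivity), Real.log_pow]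
    have h3 := F_re_le hd hβ hF (j + l) hx
    have h4 : ((d - 1 : ℕ) : ℝ) * (F (j + l) x).re ≤ ((d - 1 : ℕ) : ℝ) * Real.log 2 :=
      mul_le_mul_of_nonneg_left h3 (Nat.cast_nonneg _)
    rw [h1]
    push_cast
    nlinarith

/-- **the pointwise bound for the terms of `T`** -/
theorem lt_le (hd : 2 ≤ d) (hβ : IsBeta d β) {F : ℕ → ℂ → ℂ} (hF : IsLog d β F) :
    ∃ D : ℝ, 0 < D ∧ ∀ (N j : ℕ), 1 ≤ j → j ≤ N → ∀ x ∈ ball (0 : ℂ) 1,
      lt d F j x ≤ D * ∑ k ∈ Finset.Icc 1 (2 * N), ‖SS F k x‖ ^ 2 / (k : ℝ) ^ 2 := by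
  have hlog : 0 < Real.log d := Real.log_pos (by exact_mod_cast (by omega : 1 < d))
  have hC2 := C2_nonneg hd
  obtain ⟨q, hq⟩ := exists_nat_gt (2 * C2 d / Real.log d)
  have hq0 : 0 < (q : ℝ) := lt_of_le_of_lt (by positivity) hq
  have hq1 : 1 ≤ q := by exact_mod_cast hq0
  set c : ℝ := Real.log d / 2 with hc
  have hc0 : 0 < c := by positivity
  have hqc : C2 d / q ≤ c := by
    rw [div_lt_iff₀ hlog] at hq
    rw [div_le_iff₀ hq0, hc]
    nlinarith
  set A : ℝ := ((d - 1 : ℕ) : ℝ) ^ 2 / (4 * c) with hA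
  have hd1 : (1 : ℝ) ≤ ((d - 1 : ℕ) : ℝ) := by exact_mod_cast (by omega : 1 ≤ d - 1)
  have hA0 : 0 < A := by positivity
  refine ⟨2 * q * A, by positivity, ?_⟩
  intro N j hj hjN x hx
  have hjR : (1 : ℝ) ≤ j := by exact_mod_cast hj
  have hterm : ∀ l : ℕ, l ≤ j / q → lt d F j x ≤ A * ‖SS F (j + l) x‖ ^ 2 / (j + l : ℕ) := by
    intro l hl
    have h1 := lt_back hd hβ hF j l hx
    have h2 : (l : ℝ) ≤ j / q := (Nat.cast_le.2 hl).trans Nat.cast_div_le
    have h3 : C2 d * l ≤ c * (j + l : ℕ) := by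
      calc C2 d * l ≤ C2 d * (j / q) := mul_le_mul_of_nonneg_left h2 hC2
        _ = C2 d / q * j := by ring
        _ ≤ c * j := mul_le_mul_of_nonneg_right hqc (by linarith)
        _ ≤ c * (j + l : ℕ) := by
            apply mul_le_mul_of_nonneg_left _ hc0.le
            push_cast
            have : (0 : ℝ) ≤ l := Nat.cast_nonneg l
            linarith
    have h4 : -(((d - 1 : ℕ) : ℝ) * (SS F (j + l) x).re) ≤ ((d - 1 : ℕ) : ℝ) * ‖SS F (j + l) x‖ := by
      have h5 := Complex.abs_re_le_norm (SS F (j + l) x)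
      have h6 := neg_abs_le (SS F (j + l) x).re
      nlinarith
    have hk0 : (0 : ℝ) < (j + l : ℕ) := by
      push_cast
      have : (0 : ℝ) ≤ l := Nat.cast_nonneg l
      linarith
    have h5 : lt d F (j + l) x ≤ -(2 * c * (j + l : ℕ)) + ((d - 1 : ℕ) : ℝ) * ‖SS F (j + l) x‖ := by
      unfold lt
      rw [hc]
      linarith
    have h6 : ((d - 1 : ℕ) : ℝ) * ‖SS F (j + l) x‖ - c * (j + l : ℕ) ≤
        A * ‖SS F (j + l) x‖ ^ 2 / (j + l : ℕ) := by
      rw [le_div_iff₀ hk0, hA]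
      have h7 : 0 ≤ (((d - 1 : ℕ) : ℝ) * ‖SS F (j + l) x‖ - 2 * c * (j + l : ℕ)) ^ 2 / (4 * c) := by
        positivity
      have h8 : (((d - 1 : ℕ) : ℝ) * ‖SS F (j + l) x‖ - 2 * c * (j + l : ℕ)) ^ 2 / (4 * c) =
          ((d - 1 : ℕ) : ℝ) ^ 2 / (4 * c) * ‖SS F (j + l) x‖ ^ 2 -
          (((d - 1 : ℕ) : ℝ) * ‖SS F (j + l) x‖ - c * (j + l : ℕ)) * (j + l : ℕ) := by
        field_simp
        ring
      linarith
    linarith
  -- average
  set M := j / q with hM
  have hMq : (j : ℝ) / q ≤ (M + 1 : ℕ) := by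
    rw [div_le_iff₀ hq0]
    have h1 : j < (M + 1) * q := by
      rw [hM]
      exact Nat.lt_mul_of_div_lt (Nat.lt_succ_self _) (by omega)
    exact_mod_cast h1.le
  have hsum : (M + 1 : ℕ) * lt d F j x ≤ ∑ l ∈ Finset.range (M + 1),
      A * ‖SS F (j + l) x‖ ^ 2 / (j + l : ℕ) := by
    have h1 : ∑ _l ∈ Finset.range (M + 1), lt d F j x ≤ ∑ l ∈ Finset.range (M + 1),
        A * ‖SS F (j + l) x‖ ^ 2 / (j + l : ℕ) :=
      Finset.sum_le_sum fun l hl => hterm l (by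
        have := Finset.mem_range.1 hl
        omega)
    rwa [Finset.sum_const, Finset.card_range, nsmul_eq_mul] at h1
  have hMj : M ≤ j := Nat.div_le_self _ _
  have hbound : ∑ l ∈ Finset.range (M + 1), A * ‖SS F (j + l) x‖ ^ 2 / (j + l : ℕ) ≤
      (j / q) * (2 * q * A * ∑ k ∈ Finset.Icc 1 (2 * N), ‖SS F k x‖ ^ 2 / (k : ℝ) ^ 2) := by
    have h1 : ∑ l ∈ Finset.range (M + 1), A * ‖SS F (j + l) x‖ ^ 2 / (j + l : ℕ) ≤
        ∑ l ∈ Finset.range (M + 1), (j / q) * (2 * q * A * (‖SS F (j + l) x‖ ^ 2 /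
          ((j + l : ℕ) : ℝ) ^ 2)) := by
      apply Finset.sum_le_sum
      intro l hl
      have hl' := Finset.mem_range.1 hl
      have hk0 : (0 : ℝ) < (j + l : ℕ) := by exact_mod_cast (by omega : 0 < j + l)
      have hk2 : ((j + l : ℕ) : ℝ) ≤ 2 * j := by exact_mod_cast (by omega : j + l ≤ 2 * j)
      have h2 : (j / q : ℝ) * (2 * q * A * (‖SS F (j + l) x‖ ^ 2 / ((j + l : ℕ) : ℝ) ^ 2)) =
          A * ‖SS F (j + l) x‖ ^ 2 / (j + l : ℕ) * (2 * j / (j + l : ℕ)) := by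
        field_simp
      rw [h2]
      apply le_mul_of_one_le_right (by positivity)
      rw [one_le_div hk0]
      exact hk2
    refine h1.trans ?_
    rw [← Finset.mul_sum, ← Finset.mul_sum]
    apply mul_le_mul_of_nonneg_left _ (by positivity)
    apply mul_le_mul_of_nonneg_left _ (by positivity)
    have h3 : ∑ l ∈ Finset.range (M + 1), ‖SS F (j + l) x‖ ^ 2 / ((j + l : ℕ) : ℝ) ^ 2 =
        ∑ k ∈ (Finset.range (M + 1)).image (fun l => j + l), ‖SS F k x‖ ^ 2 / (k : ℝ) ^ 2 := by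
      rw [Finset.sum_image]
      intro a _ b _ hab
      simp only at hab
      omega
    rw [h3]
    apply Finset.sum_le_sum_of_subset_of_nonneg
    · intro k hk
      obtain ⟨l, hl, rfl⟩ := Finset.mem_image.1 hk
      have := Finset.mem_range.1 hl
      rw [Finset.mem_Icc]
      omega
    · intro _ _ _; positivity
  by_contra hcon
  push Not at hcon
  set Z : ℝ := 2 * q * A * ∑ k ∈ Finset.Icc 1 (2 * N), ‖SS F k x‖ ^ 2 / (k : ℝ) ^ 2 with hZ
  have hZ0 : 0 ≤ Z := by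
    rw [hZ]
    apply mul_nonneg (by positivity)
    exact Finset.sum_nonneg fun _ _ => by positivity
  have h1 : (j / q : ℝ) * Z < (M + 1 : ℕ) * lt d F j x := by
    calc (j / q : ℝ) * Z ≤ (M + 1 : ℕ) * Z := mul_le_mul_of_nonneg_right hMq hZ0
      _ < (M + 1 : ℕ) * lt d F j x := by
          apply mul_lt_mul_of_pos_left hcon
          exact_mod_cast Nat.succ_pos M
  linarith

theorem norm_TT_le (hd : 2 ≤ d) {F : ℕ → ℂ → ℂ} (N : ℕ) {x : ℂ} (hx : x ∈ ball (0 : ℂ) 1) {Z : ℝ}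
    (hZ0 : 0 ≤ Z) (hZ : ∀ j, 1 ≤ j → j ≤ N → lt d F j x ≤ Z) :
    ‖TT d F N x‖ ≤ (N + 1) * Real.exp Z := by
  have hd0 : (0 : ℝ) < d := by exact_mod_cast (by omega : 0 < d)
  have hx1 : ‖x‖ ≤ 1 := (mem_ball_zero_iff.1 hx).le
  unfold TT
  have h1 : ∀ j ∈ Finset.range N, ‖x ^ (d ^ (j + 1) - 1) / ((d : ℂ) ^ (j + 1) * EP d F (j + 1) x)‖ ≤
      Real.exp Z := by
    intro j hj
    have hj' := Finset.mem_range.1 hj
    refine le_trans ?_ (Real.exp_le_exp.2 (hZ (j + 1) (by omega) (by omega)))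
    rw [norm_div, norm_pow, norm_mul, norm_pow, Complex.norm_natCast]
    have h2 : ‖EP d F (j + 1) x‖ = Real.exp (((d - 1 : ℕ) : ℝ) * (SS F (j + 1) x).re) := by
      unfold EP
      rw [Complex.norm_exp]
      congr 1
      rw [← Complex.ofReal_natCast, Complex.re_ofReal_mul]
    have h3 : Real.exp (lt d F (j + 1) x) = 1 / ((d : ℝ) ^ (j + 1) * ‖EP d F (j + 1) x‖) := by
      rw [h2]
      unfold lt
      rw [Real.exp_sub, Real.exp_neg, Real.exp_nat_mul, Real.exp_log hd0]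
      field_simp
    rw [h3]
    apply div_le_div_of_nonneg_right (pow_le_one₀ (norm_nonneg _) hx1)
    positivity
  have h4 : (1 : ℝ) ≤ Real.exp Z := Real.one_le_exp hZ0
  refine (norm_add_le _ _).trans ?_
  rw [norm_one]
  have h5 := norm_sum_le_of_le _ h1
  rw [Finset.sum_const, Finset.card_range, nsmul_eq_mul] at h5
  nlinarith

theorem ZZ_close (hd : 2 ≤ d) (hβ : IsBeta d β) (N : ℕ) {x : ℂ} (hx : x ∈ ball (0 : ℂ) 1)
    (hxn : ‖x‖ ^ (d ^ N) ≤ (R0 d)⁻¹) : ‖YY d β N x‖ * ‖qq β x‖ ≤ 2 := by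
  obtain ⟨Ψ, -, h2, h3⟩ := ZZ_div hd hβ N
  have hR := R0_ge d
  have h4 := h3 x hx (hxn.trans (inv_le_exp (by linarith)))
  have hx1 : ‖x‖ < 1 := by rwa [mem_ball_zero_iff] at hx
  have hsp := pow_succ_split hd N
  have hdn : 1 ≤ d ^ N := Nat.one_le_pow _ _ (by omega)
  have hKd : d ^ N ≤ d ^ (N + 1) - 1 := by
    have : d ^ N ≤ (d - 1) * d ^ N := Nat.le_mul_of_pos_left _ (by omega)
    omega
  rw [← norm_mul, h2 x hx]
  refine (norm_add_le _ _).trans ?_
  rw [norm_one, norm_mul, norm_pow]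
  have h5 : ‖x‖ ^ (d ^ (N + 1) - 1) ≤ (R0 d)⁻¹ :=
    (pow_le_pow_of_le_one (norm_nonneg _) hx1.le hKd).trans hxn
  have h6 : ‖x‖ ^ (d ^ (N + 1) - 1) * ‖Ψ x‖ ≤ (R0 d)⁻¹ * (3 * d + 12) :=
    mul_le_mul h5 h4 (norm_nonneg _) (by positivity)
  have h7 : (R0 d)⁻¹ * (3 * d + 12) ≤ 1 := by
    rw [inv_mul_le_iff₀ (by linarith)]
    unfold R0
    have : (0 : ℝ) ≤ d := Nat.cast_nonneg d
    linarith
  linarith

theorem sum_inv_le (n : ℕ) (hn : 1 ≤ n) : ∑ k ∈ Finset.Icc 1 n, (1 : ℝ) / k ≤ 1 + Real.log n := by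
  induction n, hn using Nat.le_induction with
  | base => simp
  | succ n hn ih =>
    rw [Finset.sum_Icc_succ_top (by omega)]
    have hn0 : (0 : ℝ) < n := by exact_mod_cast hn
    have h1 : 1 / ((n + 1 : ℕ) : ℝ) ≤ Real.log ((n + 1 : ℕ) : ℝ) - Real.log n := by
      have h2 := Real.one_sub_inv_le_log_of_pos (show (0 : ℝ) < ((n + 1 : ℕ) : ℝ) / n by positivity)
      rw [Real.log_div (by positivity) (by positivity)] at h2
      refine le_trans (le_of_eq ?_) h2
      push_cast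
      field_simp
      ring
    linarith

/-- **the derivative of the exterior map against the sum of the logarithms** -/
theorem Tmain (hd : 2 ≤ d) (hβ : IsBeta d β) {F : ℕ → ℂ → ℂ} (hF : IsLog d β F) :
    ∃ C : ℝ, 0 < C ∧ ∀ (N : ℕ) (r : ℝ), 1 ≤ N → 0 < r → r < 1 → r ^ (d ^ N) < (R0 d)⁻¹ →
      circleAverage (fun x => |Real.log ‖qq β x‖ + ((d - 1 : ℕ) : ℝ) * (SS F N x).re|) 0 r ≤
        C * (1 + Real.log N) := by
  obtain ⟨D, hD0, hD⟩ := lt_le hd hβ hF
  obtain ⟨C, hC0, hC⟩ := en_sum hd hβ hF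
  refine ⟨Real.log 2 + 4 + 4 * (D * C), by positivity, ?_⟩
  intro N r hN hr hr1 hrN
  have hN1 : (1 : ℝ) ≤ N := by exact_mod_cast hN
  have hlogN : 0 ≤ Real.log N := Real.log_nonneg hN1
  -- a slightly larger disc
  obtain ⟨σ, hσ1, hσ2, hσ3⟩ : ∃ σ : ℝ, r < σ ∧ σ < 1 ∧ σ ^ (d ^ N) ≤ (R0 d)⁻¹ := by
    have hc : Continuous (fun y : ℝ => y ^ (d ^ N)) := by fun_prop
    have h1 : ∀ᶠ y in 𝓝 r, y ^ (d ^ N) < (R0 d)⁻¹ := hc.continuousAt.eventually (gt_mem_nhds hrN)
    have h2 : ∀ᶠ y in 𝓝 r, y < 1 := gt_mem_nhds hr1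
    have h3 := (h1.and h2).filter_mono (nhdsWithin_le_nhds (s := Ioi r))
    obtain ⟨y, hy1, hy2⟩ := (h3.and self_mem_nhdsWithin).exists
    exact ⟨y, hy2, hy1.2, hy1.1.le⟩
  have hσ0 : 0 < σ := hr.trans hσ1
  have hsub : ball (0 : ℂ) σ ⊆ ball 0 1 := ball_subset_ball hσ2.le
  have hpow : ∀ x ∈ ball (0 : ℂ) σ, ‖x‖ ^ (d ^ N) ≤ (R0 d)⁻¹ := by
    intro x hx
    exact (pow_le_pow_left₀ (norm_nonneg _) (mem_ball_zero_iff.1 hx).le _).trans hσ3
  have hTne : ∀ x ∈ ball (0 : ℂ) σ, TT d F N x ≠ 0 := by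
    intro x hx h0
    have h1 := YY_ne hd hβ N (hsub hx) (hpow x hx)
    rw [YY_EP hd hF N (hsub hx), h0, mul_zero] at h1
    exact h1 rfl
  have hTd : DifferentiableOn ℂ (TT d F N) (ball 0 σ) := (TT_diff hd hF N).mono hsub
  obtain ⟨g, hg1, hg2, -⟩ := exists_log_ball hσ0 hTd hTne
  have hgre : ∀ x ∈ ball (0 : ℂ) σ, Real.log ‖TT d F N x‖ = (g x).re := fun x hx =>
    log_norm_of_exp (hg2 x hx)
  have hsph : ∀ x ∈ sphere (0 : ℂ) |r|, x ∈ ball (0 : ℂ) σ := by
    intro x hx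
    rw [mem_sphere_zero_iff_norm, abs_of_pos hr] at hx
    rw [mem_ball_zero_iff, hx]
    exact hσ1
  have hg0 : (g 0).re = 0 := by
    rw [← hgre 0 (mem_ball_self hσ0), TT_zero hd, norm_one, Real.log_one]
  have hav := av_re hr hσ1 hg1
  rw [hg0] at hav
  have hgc : ContinuousOn (fun x => (g x).re) (ball (0 : ℂ) σ) :=
    Complex.continuous_re.comp_continuousOn hg1.continuousOn
  have hci : CircleIntegrable (fun x => (g x).re) 0 r := ci_of_diff hr hσ1 hgc
  have hcia : CircleIntegrable (fun x => |(g x).re|) 0 r := ci_of_diff hr hσ1 hgc.abs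
  -- the majorant
  set Z : ℂ → ℝ := fun x => D * ∑ k ∈ Finset.Icc 1 (2 * N), ‖SS F k x‖ ^ 2 / (k : ℝ) ^ 2 with hZ
  have hZ0 : ∀ x, 0 ≤ Z x := by
    intro x
    apply mul_nonneg hD0.le
    exact Finset.sum_nonneg fun _ _ => by positivity
  have hSc : ∀ k, ContinuousOn (fun x => ‖SS F k x‖ ^ 2 / (k : ℝ) ^ 2) (ball (0 : ℂ) σ) := by
    intro k
    exact (((SS_diff hF k).continuousOn.mono hsub).norm.pow 2).div_const _
  have hciS : ∀ k ∈ Finset.Icc 1 (2 * N), CircleIntegrable (fun x => ‖SS F k x‖ ^ 2 / (k : ℝ) ^ 2) 0 r :=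
    fun k _ => ci_of_diff hr hσ1 (hSc k)
  have hZc : ContinuousOn Z (ball (0 : ℂ) σ) := by
    apply ContinuousOn.mul continuousOn_const
    exact continuousOn_finsetSum _ fun k _ => hSc k
  have hZci : CircleIntegrable Z 0 r := ci_of_diff hr hσ1 hZc
  have hZav : circleAverage Z 0 r ≤ D * (C * (2 + Real.log N)) := by
    have h1 : circleAverage Z 0 r = D * ∑ k ∈ Finset.Icc 1 (2 * N),
        circleAverage (fun x => ‖SS F k x‖ ^ 2 / (k : ℝ) ^ 2) 0 r := by
      have h2 : Z = D • (fun x => ∑ k ∈ Finset.Icc 1 (2 * N), ‖SS F k x‖ ^ 2 / (k : ℝ) ^ 2) := by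
        funext x
        simp [hZ]
      rw [h2, Real.circleAverage_smul, smul_eq_mul]
      congr 1
      exact Real.circleAverage_fun_sum hciS
    rw [h1]
    apply mul_le_mul_of_nonneg_left _ hD0.le
    have h2 : ∀ k ∈ Finset.Icc 1 (2 * N), circleAverage (fun x => ‖SS F k x‖ ^ 2 / (k : ℝ) ^ 2) 0 r ≤
        C * (1 / k) := by
      intro k hk
      rw [Finset.mem_Icc] at hk
      have hk0 : (0 : ℝ) < k := by exact_mod_cast hk.1
      have h3 := hC (Finset.range k) r hr hr1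
      rw [Finset.card_range] at h3
      have h4 : (fun x => ‖SS F k x‖ ^ 2 / (k : ℝ) ^ 2) =
          ((k : ℝ) ^ 2)⁻¹ • (fun x => ‖SS F k x‖ ^ 2) := by
        funext x
        simp [div_eq_inv_mul]
      rw [h4, Real.circleAverage_smul, smul_eq_mul]
      calc ((k : ℝ) ^ 2)⁻¹ * circleAverage (fun x => ‖SS F k x‖ ^ 2) 0 r ≤ ((k : ℝ) ^ 2)⁻¹ * (C * k) :=
            mul_le_mul_of_nonneg_left h3 (by positivity)
        _ = C * (1 / k) := by field_simp
    refine (Finset.sum_le_sum h2).trans ?_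
    rw [← Finset.mul_sum]
    apply mul_le_mul_of_nonneg_left _ hC0.le
    refine (sum_inv_le (2 * N) (by omega)).trans ?_
    push_cast
    rw [Real.log_mul (by norm_num) (by positivity)]
    have := Real.log_two_lt_d9
    linarith
  -- the positive part
  have hup : ∀ x ∈ ball (0 : ℂ) σ, (g x).re ≤ Real.log (N + 1) + Z x := by
    intro x hx
    rw [← hgre x hx]
    have h1 := norm_TT_le hd N (hsub hx) (hZ0 x) (fun j hj1 hj2 => hD N j hj1 hj2 x (hsub hx))
    have h2 : 0 < ‖TT d F N x‖ := norm_pos_iff.2 (hTne x hx)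
    calc Real.log ‖TT d F N x‖ ≤ Real.log ((N + 1) * Real.exp (Z x)) := Real.log_le_log h2 h1
      _ = Real.log (N + 1) + Z x := by
          rw [Real.log_mul (by positivity) (Real.exp_pos _).ne', Real.log_exp]
  have hlogN1 : Real.log (N + 1) ≤ 1 + Real.log N := by
    have h1 : Real.log (N + 1) ≤ Real.log (2 * N) := Real.log_le_log (by positivity) (by linarith)
    rw [Real.log_mul (by norm_num) (by positivity)] at h1
    have := Real.log_two_lt_d9
    linarith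
  have hlogN10 : 0 ≤ Real.log ((N : ℝ) + 1) := Real.log_nonneg (by linarith)
  have habs : circleAverage (fun x => |(g x).re|) 0 r ≤ 2 * (1 + Real.log N + D * (C * (2 + Real.log N))) := by
    have h1 : circleAverage (fun x => |(g x).re|) 0 r ≤
        circleAverage (fun x => (2 * Real.log (N + 1) + 2 * Z x) - (g x).re) 0 r := by
      apply Real.circleAverage_mono hcia
      · exact (((circleIntegrable_const _ _ _).add (hZci.const_smul (a := (2 : ℝ)))).sub hci)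
      · intro x hx
        have h2 := hup x (hsph x hx)
        have h3 := hZ0 x
        rcases abs_cases (g x).re with h4 | h4
        · rw [h4.1]; linarith
        · rw [h4.1]; linarith
    refine h1.trans ?_
    have h2 : (fun x => (2 * Real.log (N + 1) + 2 * Z x) - (g x).re) =
        (fun x => (2 * Real.log (N + 1) + 2 * Z x)) - (fun x => (g x).re) := rfl
    have h3 : (fun x => (2 * Real.log (N + 1) + 2 * Z x)) =
        (fun _ : ℂ => 2 * Real.log ((N : ℝ) + 1)) + (2 : ℝ) • Z := by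
      funext x; simp
    rw [h2, Real.circleAverage_sub (by
        rw [h3]; exact (circleIntegrable_const _ _ _).add (hZci.const_smul)) hci, hav, h3,
      Real.circleAverage_add (circleIntegrable_const _ _ _) (hZci.const_smul),
      Real.circleAverage_const, Real.circleAverage_smul, smul_eq_mul]
    linarith
  -- comparison with `qq`
  have hcmp : ∀ x ∈ ball (0 : ℂ) σ, |Real.log ‖qq β x‖ + ((d - 1 : ℕ) : ℝ) * (SS F N x).re| ≤
      Real.log 2 + |(g x).re| := by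
    intro x hx
    have hx1 := hsub hx
    have h1 := half_le_YY hd hβ N hx1 (hpow x hx)
    have h2 := ZZ_close hd hβ N hx1 (hpow x hx)
    have hY : 0 < ‖YY d β N x‖ := norm_pos_iff.2 (YY_ne hd hβ N hx1 (hpow x hx))
    have hq : 0 < ‖qq β x‖ := norm_pos_iff.2 (qq_ne hβ hx1)
    have h3 : Real.log ‖YY d β N x‖ = ((d - 1 : ℕ) : ℝ) * (SS F N x).re + (g x).re := by
      have hT : 0 < ‖TT d F N x‖ := norm_pos_iff.2 (hTne x hx)
      rw [YY_EP hd hF N hx1, norm_mul, Real.log_mul (norm_pos_iff.2 (EP_ne _ _ _ _)).ne' hT.ne',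
        hgre x hx]
      congr 1
      unfold EP
      rw [Complex.norm_exp, Real.log_exp, ← Complex.ofReal_natCast, Complex.re_ofReal_mul]
    have h4 : |Real.log ‖YY d β N x‖ + Real.log ‖qq β x‖| ≤ Real.log 2 := by
      rw [← Real.log_mul hY.ne' hq.ne', abs_le]
      constructor
      · rw [← Real.log_inv]
        apply Real.log_le_log (by norm_num)
        linarith
      · exact Real.log_le_log (by positivity) h2
    have h5 : Real.log ‖qq β x‖ + ((d - 1 : ℕ) : ℝ) * (SS F N x).re =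
        (Real.log ‖YY d β N x‖ + Real.log ‖qq β x‖) - (g x).re := by rw [h3]; ring
    rw [h5]
    exact (abs_sub _ _).trans (add_le_add_left h4 _)
  have hqc : ContinuousOn (fun x => |Real.log ‖qq β x‖ + ((d - 1 : ℕ) : ℝ) * (SS F N x).re|)
      (ball (0 : ℂ) σ) := by
    apply ContinuousOn.abs
    apply ContinuousOn.add
    · apply ContinuousOn.log ((qq_diff hβ).continuousOn.mono hsub).norm
      intro x hx
      exact (norm_pos_iff.2 (qq_ne hβ (hsub hx))).ne'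
    · apply ContinuousOn.mul continuousOn_const
      exact Complex.continuous_re.comp_continuousOn ((SS_diff hF N).continuousOn.mono hsub)
  have hfin : circleAverage (fun x => |Real.log ‖qq β x‖ + ((d - 1 : ℕ) : ℝ) * (SS F N x).re|) 0 r ≤
      Real.log 2 + circleAverage (fun x => |(g x).re|) 0 r := by
    have h1 : circleAverage (fun x => |Real.log ‖qq β x‖ + ((d - 1 : ℕ) : ℝ) * (SS F N x).re|) 0 r ≤
        circleAverage ((fun _ : ℂ => Real.log 2) + (fun x => |(g x).re|)) 0 r :=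
      Real.circleAverage_mono (ci_of_diff hr hσ1 hqc) ((circleIntegrable_const _ _ _).add hcia)
        (fun x hx => hcmp x (hsph x hx))
    rwa [Real.circleAverage_add (circleIntegrable_const _ _ _) hcia, Real.circleAverage_const] at h1
  refine hfin.trans ?_
  have hlog2 : 0 < Real.log 2 := Real.log_pos (by norm_num)
  have hDC : 0 < D * C := by positivity
  nlinarith

end Pool.Agent.H439.MC
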