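import Mathlib
import Pool.Agent.H439.MC.Tpart

/-!
# Expansions of the logarithms in powers of `x ^ (d ^ i)`
-/

set_option autoImplicit false

namespace Pool.Agent.H439.MC

open Complex Set Topology Filter Metric MeasureTheory N62a1eb23 Pool.Agent.H712R2
  Pool.Agent.H713R2 Pool.Agent.TH653.MB
open Polynomial (evalEvalRingHom)

variable {d : ℕ} {β : ℂ → ℂ}

/-- the region of small `x ^ (d ^ i)` -/
def Reg (d : ℕ) (ε : ℝ) (i : ℕ) (x : ℂ) : Prop := 1 / 2 ≤ ‖x‖ ∧ ‖x‖ < 1 ∧ ‖x‖ ^ (d ^ i) ≤ ε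

theorem Reg.mono {ε ε' : ℝ} {i : ℕ} {x : ℂ} (h : Reg d ε i x) (he : ε ≤ ε') : Reg d ε' i x :=
  ⟨h.1, h.2.1, h.2.2.trans he⟩

theorem Reg.ball {ε : ℝ} {i : ℕ} {x : ℂ} (h : Reg d ε i x) : x ∈ ball (0 : ℂ) 1 :=
  mem_ball_zero_iff.2 h.2.1

theorem Reg.ne {ε : ℝ} {i : ℕ} {x : ℂ} (h : Reg d ε i x) : x ≠ 0 := by
  rintro rfl
  have := h.1
  rw [norm_zero] at this
  norm_num at this

theorem Reg.shift (hd : 2 ≤ d) {ε : ℝ} {i : ℕ} {x : ℂ} (h : Reg d ε i x) : Reg d ε (i + 1) x := by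
  refine ⟨h.1, h.2.1, le_trans ?_ h.2.2⟩
  exact pow_le_pow_of_le_one (norm_nonneg _) h.2.1.le (Nat.pow_le_pow_right (by omega) (by omega))

theorem norm_c_le (hβ : IsBeta d β) {ε : ℝ} {i : ℕ} {x : ℂ} (h : Reg d ε i x) :
    ‖x⁻¹ * β x‖ ≤ 4 := by
  have h1 := hβ.bound x h.ball
  have h2 : ‖x‖⁻¹ ≤ 2 := by
    rw [inv_le_comm₀ (by linarith [h.1]) (by norm_num)]
    have := h.1
    linarith
  rw [norm_mul, norm_inv]
  calc ‖x‖⁻¹ * ‖β x‖ ≤ 2 * 2 := mul_le_mul h2 h1 (norm_nonneg _) (by norm_num)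
    _ = 4 := by norm_num

/-- expansions up to order `K` -/
def Ord (d : ℕ) (β : ℂ → ℂ) (K : ℕ) (h : ℕ → ℂ → ℂ) : Prop :=
  ∃ (Q : Polynomial (Polynomial ℂ)) (C ε : ℝ), 0 ≤ C ∧ 0 < ε ∧ ε ≤ 1 ∧ ∀ i x, Reg d ε i x →
    ‖h i x - evalEvalRingHom (x⁻¹ * β x) (x ^ (d ^ i)) Q‖ ≤ C * (‖x‖ ^ (d ^ i)) ^ (K + 1)

theorem eval_bound (Q : Polynomial (Polynomial ℂ)) : ∃ M : ℝ, 0 ≤ M ∧ ∀ c X : ℂ, ‖c‖ ≤ 4 → ‖X‖ ≤ 1 →
    ‖evalEvalRingHom c X Q‖ ≤ M := by
  induction Q using Polynomial.induction_on' with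
  | add p q hp hq =>
    obtain ⟨M1, h1, h1'⟩ := hp
    obtain ⟨M2, h2, h2'⟩ := hq
    refine ⟨M1 + M2, add_nonneg h1 h2, fun c X hc hX => ?_⟩
    rw [map_add]
    exact (norm_add_le _ _).trans (add_le_add (h1' c X hc hX) (h2' c X hc hX))
  | monomial n a =>
    obtain ⟨M, hM⟩ := (isCompact_closedBall (0 : ℂ) 4).exists_bound_of_continuousOn
      (f := fun c => a.eval c) a.continuous.continuousOn
    refine ⟨max M 0, le_max_right _ _, fun c X hc hX => ?_⟩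
    rw [Polynomial.coe_evalEvalRingHom, Polynomial.evalEval, Polynomial.eval_monomial,
      Polynomial.eval_mul, ← Polynomial.C_pow, Polynomial.eval_C, norm_mul, norm_pow]
    have h1 := hM c (mem_closedBall_zero_iff.2 hc)
    calc ‖a.eval c‖ * ‖X‖ ^ n ≤ max M 0 * 1 := by
          apply mul_le_mul (h1.trans (le_max_left _ _)) (pow_le_one₀ (norm_nonneg _) hX)
            (by positivity) (le_max_right _ _)
      _ = max M 0 := mul_one _

theorem Ord.exact (K : ℕ) (Q : Polynomial (Polynomial ℂ)) :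
    Ord d β K (fun i x => evalEvalRingHom (x⁻¹ * β x) (x ^ (d ^ i)) Q) :=
  ⟨Q, 0, 1, le_rfl, one_pos, le_rfl, fun i x _ => by simp⟩

theorem Ord.mono {K K' : ℕ} (hK : K' ≤ K) {h : ℕ → ℂ → ℂ} (hh : Ord d β K h) : Ord d β K' h := by
  obtain ⟨Q, C, ε, hC, he, he1, hb⟩ := hh
  refine ⟨Q, C, ε, hC, he, he1, fun i x hx => (hb i x hx).trans ?_⟩
  apply mul_le_mul_of_nonneg_left _ hC
  exact pow_le_pow_of_le_one (by positivity) (pow_le_one₀ (norm_nonneg _) hx.2.1.le) (by omega)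

theorem Ord.congr {K : ℕ} {h h' : ℕ → ℂ → ℂ} (hh : Ord d β K h) {ε0 : ℝ} (he0 : 0 < ε0)
    (heq : ∀ i x, Reg d ε0 i x → h' i x = h i x) : Ord d β K h' := by
  obtain ⟨Q, C, ε, hC, he, he1, hb⟩ := hh
  refine ⟨Q, C, min ε ε0, hC, lt_min he he0, (min_le_left _ _).trans he1, fun i x hx => ?_⟩
  rw [heq i x (hx.mono (min_le_right _ _))]
  exact hb i x (hx.mono (min_le_left _ _))

theorem Ord.add {K : ℕ} {h h' : ℕ → ℂ → ℂ} (hh : Ord d β K h) (hh' : Ord d β K h') :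
    Ord d β K (fun i x => h i x + h' i x) := by
  obtain ⟨Q, C, ε, hC, he, he1, hb⟩ := hh
  obtain ⟨Q', C', ε', hC', he', he1', hb'⟩ := hh'
  refine ⟨Q + Q', C + C', min ε ε', add_nonneg hC hC', lt_min he he', (min_le_left _ _).trans he1,
    fun i x hx => ?_⟩
  have h1 := hb i x (hx.mono (min_le_left _ _))
  have h2 := hb' i x (hx.mono (min_le_right _ _))
  rw [map_add, add_mul]
  refine le_trans (le_of_eq ?_) ((norm_add_le _ _).trans (add_le_add h1 h2))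
  congr 1
  ring

theorem Ord.mul (hβ : IsBeta d β) {K : ℕ} {h h' : ℕ → ℂ → ℂ} (hh : Ord d β K h)
    (hh' : Ord d β K h') : Ord d β K (fun i x => h i x * h' i x) := by
  obtain ⟨Q, C, ε, hC, he, he1, hb⟩ := hh
  obtain ⟨Q', C', ε', hC', he', he1', hb'⟩ := hh'
  obtain ⟨M, hM0, hM⟩ := eval_bound Q
  obtain ⟨M', hM0', hM'⟩ := eval_bound Q'
  refine ⟨Q * Q', C * (M' + C') + M * C', min ε ε', by positivity, lt_min he he',
    (min_le_left _ _).trans he1, fun i x hx => ?_⟩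
  have h1 := hb i x (hx.mono (min_le_left _ _))
  have h2 := hb' i x (hx.mono (min_le_right _ _))
  have hX1 : ‖x‖ ^ (d ^ i) ≤ 1 := pow_le_one₀ (norm_nonneg _) hx.2.1.le
  have hXn : ‖x ^ (d ^ i)‖ ≤ 1 := by rw [norm_pow]; exact hX1
  have h3 := hM _ _ (norm_c_le hβ hx) hXn
  have h4 := hM' _ _ (norm_c_le hβ hx) hXn
  set q := evalEvalRingHom (x⁻¹ * β x) (x ^ (d ^ i)) Q with hq
  set q' := evalEvalRingHom (x⁻¹ * β x) (x ^ (d ^ i)) Q' with hq'
  set e : ℝ := (‖x‖ ^ (d ^ i)) ^ (K + 1) with hee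
  have he0 : 0 ≤ e := by positivity
  have hel : e ≤ 1 := pow_le_one₀ (by positivity) hX1
  have h5 : ‖h' i x‖ ≤ M' + C' := by
    calc ‖h' i x‖ = ‖(h' i x - q') + q'‖ := by rw [sub_add_cancel]
      _ ≤ ‖h' i x - q'‖ + ‖q'‖ := norm_add_le _ _
      _ ≤ C' * e + M' := add_le_add h2 h4
      _ ≤ M' + C' := by nlinarith
  rw [map_mul, ← hq, ← hq']
  have h6 : h i x * h' i x - q * q' = (h i x - q) * h' i x + q * (h' i x - q') := by ring
  rw [h6]
  refine (norm_add_le _ _).trans ?_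
  rw [norm_mul, norm_mul]
  calc ‖h i x - q‖ * ‖h' i x‖ + ‖q‖ * ‖h' i x - q'‖
      ≤ (C * e) * (M' + C') + M * (C' * e) := by
        apply add_le_add
        · exact mul_le_mul h1 h5 (norm_nonneg _) (by positivity)
        · exact mul_le_mul h3 h2 (norm_nonneg _) hM0
    _ = _ := by ring

theorem Ord.const (K : ℕ) (a : ℂ) : Ord d β K (fun _ _ => a) := by
  have h := Ord.exact (d := d) (β := β) K (Polynomial.C (Polynomial.C a))
  refine h.congr one_pos fun i x _ => ?_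
  rw [Polynomial.coe_evalEvalRingHom, Polynomial.evalEval_C, Polynomial.eval_C]

theorem Ord.pow (hβ : IsBeta d β) {K : ℕ} {h : ℕ → ℂ → ℂ} (hh : Ord d β K h) (n : ℕ) :
    Ord d β K (fun i x => h i x ^ n) := by
  induction n with
  | zero => simpa using Ord.const K 1
  | succ n ih =>
    have := ih.mul hβ hh
    simpa only [pow_succ] using this

theorem Ord.sum {ι : Type*} {K : ℕ} (s : Finset ι) {h : ι → ℕ → ℂ → ℂ}
    (hh : ∀ j ∈ s, Ord d β K (h j)) : Ord d β K (fun i x => ∑ j ∈ s, h j i x) := by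
  classical
  induction s using Finset.induction_on with
  | empty => simpa using Ord.const K 0
  | insert j s hj ih =>
    simp only [Finset.sum_insert hj]
    exact (hh j (Finset.mem_insert_self j s)).add (ih fun k hk => hh k (Finset.mem_insert_of_mem hk))

theorem Ord.shift (hd : 2 ≤ d) {K : ℕ} {h : ℕ → ℂ → ℂ} (hh : Ord d β K h) :
    Ord d β (K + 1) (fun i x => h (i + 1) x) := by
  obtain ⟨Q, C, ε, hC, he, he1, hb⟩ := hh
  refine ⟨Polynomial.expand (Polynomial ℂ) d Q, C, ε, hC, he, he1, fun i x hx => ?_⟩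
  have h1 := hb (i + 1) x (hx.shift hd)
  have h2 : evalEvalRingHom (x⁻¹ * β x) (x ^ (d ^ i)) (Polynomial.expand (Polynomial ℂ) d Q) =
      evalEvalRingHom (x⁻¹ * β x) (x ^ (d ^ (i + 1))) Q := by
    rw [Polynomial.coe_evalEvalRingHom, Polynomial.evalEval, Polynomial.expand_eval,
      Polynomial.coe_evalEvalRingHom, Polynomial.evalEval, ← Polynomial.C_pow, ← pow_mul, ← pow_succ]
  rw [h2]
  refine h1.trans ?_
  apply mul_le_mul_of_nonneg_left _ hC
  rw [← pow_mul, ← pow_mul]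
  apply pow_le_pow_of_le_one (norm_nonneg _) hx.2.1.le
  rw [pow_succ d i, mul_assoc]
  apply Nat.mul_le_mul_left
  nlinarith

/-- smallness -/
def Sml (d : ℕ) (h : ℕ → ℂ → ℂ) : Prop :=
  ∃ C ε : ℝ, 0 ≤ C ∧ 0 < ε ∧ ∀ i x, Reg d ε i x → ‖h i x‖ ≤ C * ‖x‖ ^ (d ^ i)

theorem Ord.comp (hβ : IsBeta d β) {K : ℕ} {h : ℕ → ℂ → ℂ} (hh : Ord d β K h) (hs : Sml d h)
    (a : ℕ → ℂ) (φ : ℂ → ℂ) {A δ : ℝ} (hA : 0 ≤ A) (hδ : 0 < δ)
    (hφ : ∀ u : ℂ, ‖u‖ ≤ δ → ‖φ u - ∑ m ∈ Finset.range (K + 1), a m * u ^ m‖ ≤ A * ‖u‖ ^ (K + 1)) :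
    Ord d β K (fun i x => φ (h i x)) := by
  have h1 : Ord d β K (fun i x => ∑ m ∈ Finset.range (K + 1), a m * h i x ^ m) :=
    Ord.sum _ fun m _ => (Ord.const K (a m)).mul hβ (hh.pow hβ m)
  obtain ⟨Q, C, ε, hC, he, he1, hb⟩ := h1
  obtain ⟨C', ε', hC', he', hb'⟩ := hs
  refine ⟨Q, C + A * C' ^ (K + 1), min (min ε ε') (δ / (C' + 1)), by positivity,
    lt_min (lt_min he he') (by positivity), (min_le_left _ _).trans ((min_le_left _ _).trans he1),
    fun i x hx => ?_⟩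
  have h2 := hb i x (hx.mono ((min_le_left _ _).trans (min_le_left _ _)))
  have h3 := hb' i x (hx.mono ((min_le_left _ _).trans (min_le_right _ _)))
  have h4 : ‖x‖ ^ (d ^ i) ≤ δ / (C' + 1) := hx.2.2.trans (min_le_right _ _)
  have hX0 : 0 ≤ ‖x‖ ^ (d ^ i) := by positivity
  have h5 : ‖h i x‖ ≤ δ := by
    refine h3.trans ?_
    rw [le_div_iff₀ (by positivity)] at h4
    nlinarith
  have h6 := hφ _ h5
  have h7 : ‖h i x‖ ^ (K + 1) ≤ C' ^ (K + 1) * (‖x‖ ^ (d ^ i)) ^ (K + 1) := by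
    rw [← mul_pow]
    exact pow_le_pow_left₀ (norm_nonneg _) h3 _
  have h8 : φ (h i x) - evalEvalRingHom (x⁻¹ * β x) (x ^ (d ^ i)) Q =
      (φ (h i x) - ∑ m ∈ Finset.range (K + 1), a m * h i x ^ m) +
      (∑ m ∈ Finset.range (K + 1), a m * h i x ^ m -
        evalEvalRingHom (x⁻¹ * β x) (x ^ (d ^ i)) Q) := by ring
  rw [h8]
  refine (norm_add_le _ _).trans ?_
  have h9 := mul_le_mul_of_nonneg_left h7 hA
  calc _ ≤ A * ‖h i x‖ ^ (K + 1) + C * (‖x‖ ^ (d ^ i)) ^ (K + 1) := add_le_add h6 h2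
    _ ≤ A * (C' ^ (K + 1) * (‖x‖ ^ (d ^ i)) ^ (K + 1)) + C * (‖x‖ ^ (d ^ i)) ^ (K + 1) :=
        add_le_add_left h9 _
    _ = _ := by ring

theorem exp_taylor (K : ℕ) (u : ℂ) (hu : ‖u‖ ≤ 1) :
    ‖Complex.exp u - ∑ m ∈ Finset.range (K + 1), ((m.factorial : ℂ))⁻¹ * u ^ m‖ ≤
      2 * ‖u‖ ^ (K + 1) := by
  have h1 := Complex.exp_bound hu (n := K + 1) (by omega)
  have h2 : ∑ m ∈ Finset.range (K + 1), ((m.factorial : ℂ))⁻¹ * u ^ m =
      ∑ m ∈ Finset.range (K + 1), u ^ m / m.factorial := by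
    apply Finset.sum_congr rfl
    intro m _
    rw [div_eq_inv_mul]
  rw [h2]
  refine h1.trans ?_
  rw [mul_comm]
  apply mul_le_mul_of_nonneg_right _ (by positivity)
  have h3 : (1 : ℝ) ≤ ((K + 1).factorial : ℝ) := by exact_mod_cast Nat.factorial_pos (K + 1)
  have h4 : (1 : ℝ) ≤ ((K + 1 : ℕ) : ℝ) := by exact_mod_cast Nat.succ_pos K
  rw [← div_eq_mul_inv, div_le_iff₀ (by positivity)]
  push_cast at h4 ⊢
  nlinarith

theorem log_taylor (K : ℕ) (u : ℂ) (hu : ‖u‖ ≤ 1 / 2) :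
    ‖Complex.log (1 + u) - ∑ m ∈ Finset.range (K + 1), ((-1) ^ (m + 1) / (m : ℂ)) * u ^ m‖ ≤
      2 * ‖u‖ ^ (K + 1) := by
  have h1 := Complex.norm_log_sub_logTaylor_le K (z := u) (by linarith)
  have h2 : ∑ m ∈ Finset.range (K + 1), ((-1) ^ (m + 1) / (m : ℂ)) * u ^ m =
      Complex.logTaylor (K + 1) u := by
    unfold Complex.logTaylor
    apply Finset.sum_congr rfl
    intro m _
    ring
  rw [h2]
  refine h1.trans ?_
  have h3 : (1 - ‖u‖)⁻¹ ≤ 2 := by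
    rw [inv_le_comm₀ (by linarith) (by norm_num)]
    linarith
  have h4 : (0 : ℝ) ≤ ‖u‖ ^ (K + 1) := by positivity
  rw [div_le_iff₀ (by positivity)]
  have hK : (0 : ℝ) ≤ K := Nat.cast_nonneg K
  have h5 : ‖u‖ ^ (K + 1) * (1 - ‖u‖)⁻¹ ≤ ‖u‖ ^ (K + 1) * 2 := mul_le_mul_of_nonneg_left h3 h4
  nlinarith

/-! ### the logarithms -/

theorem BB_small (hd : 2 ≤ d) (hβ : IsBeta d β) {ε : ℝ} {i : ℕ} {x : ℂ}
    (hx : Reg d ε i x) (he1 : ε ≤ 1) : ‖BB d β i x - 1‖ ≤ 6 * ε * ‖x‖ ^ (d ^ i) := by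
  have h1 := BB_sub_one_le hd hβ i hx.ball
  have hx0 : 0 < ‖x‖ := norm_pos_iff.2 hx.ne
  have h2 : ‖x‖ ^ (d ^ (i + 1) - 1) ≤ 2 * ‖x‖ ^ (d ^ (i + 1)) := by
    have h3 : 1 ≤ d ^ (i + 1) := Nat.one_le_pow _ _ (by omega)
    have h4 : ‖x‖ ^ (d ^ (i + 1)) = ‖x‖ ^ (d ^ (i + 1) - 1) * ‖x‖ := by
      rw [← pow_succ, Nat.sub_add_cancel h3]
    rw [h4]
    have h5 : (0 : ℝ) ≤ ‖x‖ ^ (d ^ (i + 1) - 1) := by positivity
    nlinarith [hx.1]
  have h3 : ‖x‖ ^ (d ^ (i + 1)) ≤ ε * ‖x‖ ^ (d ^ i) := by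
    have h4 : ‖x‖ ^ (d ^ (i + 1)) ≤ ‖x‖ ^ (d ^ i + d ^ i) := by
      apply pow_le_pow_of_le_one (norm_nonneg _) hx.2.1.le
      rw [pow_succ]
      nlinarith [Nat.one_le_pow i d (by omega)]
    have h5 : ‖x‖ ^ (d ^ i + d ^ i) = ‖x‖ ^ (d ^ i) * ‖x‖ ^ (d ^ i) := pow_add _ _ _
    rw [h5] at h4
    refine h4.trans ?_
    exact mul_le_mul_of_nonneg_right hx.2.2 (by positivity)
  linarith

theorem F_eq_log (hd : 2 ≤ d) (hβ : IsBeta d β) {F : ℕ → ℂ → ℂ} (hF : IsLog d β F) {ε : ℝ}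
    {i : ℕ} {x : ℂ} (hx : Reg d ε i x) (he : ε ≤ 1 / 12) : F i x = Complex.log (BB d β i x) := by
  set m : ℕ := d ^ (i + 1) - 1 with hm
  have hm1 : 1 ≤ m := by
    have := two_le_pow hd (n := i + 1) (by omega)
    omega
  set ρ : ℝ := (1 / 3 : ℝ) ^ ((m : ℝ)⁻¹) with hρ
  have hρ0 : 0 < ρ := Real.rpow_pos_of_pos (by norm_num) _
  have hρm : ρ ^ m = 1 / 3 := Real.rpow_inv_natCast_pow (by norm_num) (by omega)
  have hρ1 : ρ < 1 := by
    by_contra h
    push Not at h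
    have := one_le_pow₀ (n := m) h
    rw [hρm] at this
    norm_num at this
  have hsub : ball (0 : ℂ) ρ ⊆ ball 0 1 := ball_subset_ball hρ1.le
  have hnear : ∀ y ∈ ball (0 : ℂ) ρ, ‖BB d β i y - 1‖ < 1 := by
    intro y hy
    have h1 := BB_sub_one_le hd hβ i (hsub hy)
    rw [← hm] at h1
    have h2 : ‖y‖ ^ m < ρ ^ m :=
      pow_lt_pow_left₀ (mem_ball_zero_iff.1 hy) (norm_nonneg _) (by omega)
    rw [hρm] at h2
    linarith
  have hslit : ∀ y ∈ ball (0 : ℂ) ρ, BB d β i y ∈ slitPlane := by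
    intro y hy
    have := Complex.mem_slitPlane_of_norm_lt_one (hnear y hy)
    rwa [add_sub_cancel] at this
  have hBd := BB_diff (d := d) hβ.diff i
  have hxm : x ∈ ball (0 : ℂ) ρ := by
    rw [mem_ball_zero_iff]
    apply lt_of_pow_lt_pow_left₀ m hρ0.le
    rw [hρm]
    have hx0 : 0 < ‖x‖ := norm_pos_iff.2 hx.ne
    have h1 : d ^ i ≤ m := by
      have h2 : 2 * d ^ i ≤ d ^ (i + 1) := by
        rw [pow_succ, mul_comm]
        exact Nat.mul_le_mul_left _ hd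
      have h3 : 1 ≤ d ^ i := Nat.one_le_pow _ _ (by omega)
      omega
    have h2 : ‖x‖ ^ m ≤ ‖x‖ ^ (d ^ i) := pow_le_pow_of_le_one (norm_nonneg _) hx.2.1.le h1
    have := hx.2.2
    linarith
  have hlogd : DifferentiableOn ℂ (fun y => Complex.log (BB d β i y)) (ball (0 : ℂ) ρ) :=
    (hBd.mono hsub).clog hslit
  have h := isOpen_ball.eqOn_of_deriv_eq (convex_ball (0 : ℂ) ρ).isPreconnected
    ((hF.diff i).mono hsub) hlogd (fun y hy => by
      have h1 : HasDerivAt (BB d β i) (deriv (BB d β i) y) y :=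
        (hBd.differentiableAt (isOpen_ball.mem_nhds (hsub hy))).hasDerivAt
      rw [(h1.clog (hslit y hy)).deriv, deriv_F hF i (hsub hy), logDeriv_apply])
    (mem_ball_self hρ0) (by rw [hF.zero, BB_zero_val hd hβ, Complex.log_one])
  exact h hxm

theorem F_small (hd : 2 ≤ d) (hβ : IsBeta d β) {F : ℕ → ℂ → ℂ} (hF : IsLog d β F) {ε : ℝ}
    {i : ℕ} {x : ℂ} (hx : Reg d ε i x) (he : ε ≤ 1 / 12) : ‖F i x‖ ≤ 9 * ε * ‖x‖ ^ (d ^ i) := by
  rw [F_eq_log hd hβ hF hx he]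
  have h1 := BB_small hd hβ hx (by linarith)
  have hX1 : ‖x‖ ^ (d ^ i) ≤ 1 := pow_le_one₀ (norm_nonneg _) hx.2.1.le
  have hX0 : 0 ≤ ‖x‖ ^ (d ^ i) := by positivity
  have he0 : 0 ≤ ε := hX0.trans hx.2.2
  have h2 : ‖BB d β i x - 1‖ ≤ 1 / 2 := by nlinarith
  have h3 := Complex.norm_log_one_add_half_le_self h2
  rw [add_sub_cancel] at h3
  linarith

theorem Sml_F (hd : 2 ≤ d) (hβ : IsBeta d β) {F : ℕ → ℂ → ℂ} (hF : IsLog d β F) : Sml d F :=
  ⟨1, 1 / 12, by norm_num, by norm_num, fun i x hx => by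
    have := F_small hd hβ hF hx le_rfl
    have h0 : 0 ≤ ‖x‖ ^ (d ^ i) := by positivity
    linarith⟩

/-- the functional equation of the logarithms -/
theorem F_rec (hd : 2 ≤ d) (hβ : IsBeta d β) {F : ℕ → ℂ → ℂ} (hF : IsLog d β F) :
    ∃ ε : ℝ, 0 < ε ∧ ∀ i x, Reg d ε i x → F i x = (d : ℂ)⁻¹ * (F (i + 1) x +
      Complex.log (1 + -(x⁻¹ * β x * (x ^ (d ^ i)) ^ d * Complex.exp (-F (i + 1) x)))) := by
  have hd0 : (0 : ℝ) < d := by exact_mod_cast (by omega : 0 < d)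
  have hdC : (d : ℂ) ≠ 0 := by exact_mod_cast (by omega : d ≠ 0)
  refine ⟨1 / (24 * d), by positivity, fun i x hx => ?_⟩
  set ε : ℝ := 1 / (24 * d) with hε
  have hd2 : (2 : ℝ) ≤ d := by exact_mod_cast hd
  have he : ε ≤ 1 / 12 := by
    rw [hε]
    apply one_div_le_one_div_of_le (by norm_num)
    linarith
  have hed : ε * d = 1 / 24 := by rw [hε]; field_simp
  have hX1 : ‖x‖ ^ (d ^ i) ≤ 1 := pow_le_one₀ (norm_nonneg _) hx.2.1.le
  have hX0 : 0 ≤ ‖x‖ ^ (d ^ i) := by positivity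
  have hXe : ‖x‖ ^ (d ^ i) ≤ ε := hx.2.2
  have he0 : 0 < ε := by positivity
  have h1 := F_small hd hβ hF hx he
  have h2 := F_small hd hβ hF (hx.shift hd) he
  have h3 : ‖x‖ ^ (d ^ (i + 1)) ≤ ε := (hx.shift hd).2.2
  set w : ℂ := x⁻¹ * β x * (x ^ (d ^ i)) ^ d * Complex.exp (-F (i + 1) x) with hw
  have hF1 : ‖F (i + 1) x‖ ≤ 1 / 12 := by
    refine h2.trans ?_
    have : (0 : ℝ) ≤ ‖x‖ ^ (d ^ (i + 1)) := by positivity
    nlinarith
  have hexp : ‖Complex.exp (-F (i + 1) x)‖ ≤ 3 / 2 := by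
    rw [Complex.norm_exp]
    have h4 : (-F (i + 1) x).re ≤ 1 / 12 := by
      refine (Complex.re_le_norm _).trans ?_
      rw [norm_neg]; exact hF1
    refine (Real.exp_le_exp.2 h4).trans ?_
    have h5 := Real.exp_bound' (x := 1 / 12) (by norm_num) (by norm_num) (n := 1) (by norm_num)
    norm_num at h5 ⊢
    linarith
  have hwn : ‖w‖ ≤ 1 / 2 := by
    rw [hw, norm_mul, norm_mul, norm_pow, norm_pow]
    have h4 := norm_c_le hβ hx
    have h5 : (‖x‖ ^ (d ^ i)) ^ d ≤ (‖x‖ ^ (d ^ i)) ^ 1 := pow_le_pow_of_le_one hX0 hX1 (by omega)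
    rw [pow_one] at h5
    calc ‖x⁻¹ * β x‖ * (‖x‖ ^ (d ^ i)) ^ d * ‖Complex.exp (-F (i + 1) x)‖
        ≤ 4 * (1 / 12) * (3 / 2) := by
          apply mul_le_mul _ hexp (norm_nonneg _) (by norm_num)
          exact mul_le_mul h4 (by linarith) (by positivity) (by norm_num)
      _ = 1 / 2 := by norm_num
  have hlogn : ‖Complex.log (1 + -w)‖ ≤ 3 / 4 := by
    have := Complex.norm_log_one_add_half_le_self (z := -w) (by rwa [norm_neg])
    rw [norm_neg] at this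
    linarith
  have h1w : 1 + -w ≠ 0 := by
    intro h0
    have h5 : w = 1 := by linear_combination -h0
    rw [h5, norm_one] at hwn
    norm_num at hwn
  have hkey : Complex.exp ((d : ℂ) * F i x) = Complex.exp (F (i + 1) x + Complex.log (1 + -w)) := by
    have hE := hF.exp (i + 1) x hx.ball
    have hB0 : BB d β (i + 1) x ≠ 0 := by rw [← hE]; exact Complex.exp_ne_zero _
    have h5 : BB d β (i + 1) x * w = x⁻¹ * β x * (x ^ (d ^ i)) ^ d := by
      rw [hw, Complex.exp_neg, hE]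
      field_simp
    have h6 : x⁻¹ * β x * (x ^ (d ^ i)) ^ d = x ^ (d ^ (i + 1) - 1) * β x := by
      have h7 : 1 ≤ d ^ (i + 1) := Nat.one_le_pow _ _ (by omega)
      have hx0 := hx.ne
      have h8 : (x ^ (d ^ i)) ^ d = x ^ (d ^ (i + 1) - 1) * x := by
        rw [← pow_mul, ← pow_succ, ← pow_succ, Nat.sub_add_cancel h7]
      rw [h8]
      field_simp
    rw [Complex.exp_nat_mul, hF.exp i x hx.ball, Complex.exp_add, Complex.exp_log h1w, hE, mul_add,
      mul_one, mul_neg, h5, h6, BB_succ]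
    ring
  obtain ⟨n, hn⟩ := Complex.exp_eq_exp_iff_exists_int.1 hkey
  have hn0 : n = 0 := by
    by_contra hne
    have h5 : (n : ℂ) * (2 * Real.pi * I) = (d : ℂ) * F i x - (F (i + 1) x + Complex.log (1 + -w)) := by
      rw [hn]; ring
    have h6 : ‖(n : ℂ) * (2 * Real.pi * I)‖ = |(n : ℝ)| * (2 * Real.pi) := by
      rw [norm_mul, norm_mul, norm_mul, Complex.norm_I, Complex.norm_intCast, Complex.norm_two,
        Complex.norm_real, Real.norm_of_nonneg Real.pi_pos.le, mul_one]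
    have h7 : ‖(d : ℂ) * F i x - (F (i + 1) x + Complex.log (1 + -w))‖ ≤ 2 := by
      refine (norm_sub_le _ _).trans ?_
      have h8 : ‖(d : ℂ) * F i x‖ ≤ 1 := by
        rw [norm_mul, Complex.norm_natCast]
        calc (d : ℝ) * ‖F i x‖ ≤ d * (9 * ε * ‖x‖ ^ (d ^ i)) := mul_le_mul_of_nonneg_left h1 hd0.le
          _ ≤ 1 := by nlinarith
      have h9 := norm_add_le (F (i + 1) x) (Complex.log (1 + -w))
      linarith
    rw [← h5, h6] at h7
    have h8 : (1 : ℝ) ≤ |(n : ℝ)| := by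
      rw [← Int.cast_abs]
      exact_mod_cast Int.one_le_abs hne
    have := Real.pi_gt_three
    nlinarith
  rw [hn0, Int.cast_zero, zero_mul, add_zero] at hn
  rw [← hn]
  field_simp

/-- **expansions of all orders** -/
theorem Ord_F (hd : 2 ≤ d) (hβ : IsBeta d β) {F : ℕ → ℂ → ℂ} (hF : IsLog d β F) (K : ℕ) :
    Ord d β K F := by
  obtain ⟨ε1, he1, hrec⟩ := F_rec hd hβ hF
  induction K with
  | zero =>
    obtain ⟨C, ε, hC, he, hb⟩ := Sml_F hd hβ hF
    refine ⟨0, C, min ε 1, hC, lt_min he one_pos, min_le_right _ _, fun i x hx => ?_⟩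
    rw [map_zero, sub_zero, zero_add, pow_one]
    exact hb i x (hx.mono (min_le_left _ _))
  | succ K ih =>
    have hS : Ord d β (K + 1) (fun i x => F (i + 1) x) := ih.shift hd
    have hneg : Ord d β (K + 1) (fun i x => -F (i + 1) x) := by
      have := (Ord.const (d := d) (β := β) (K + 1) (-1)).mul hβ hS
      refine this.congr one_pos fun i x _ => ?_
      ring
    have hsn : Sml d (fun i x => -F (i + 1) x) := by
      obtain ⟨C, ε, hC, he, hb⟩ := Sml_F hd hβ hF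
      refine ⟨C, ε, hC, he, fun i x hx => ?_⟩
      rw [norm_neg]
      refine (hb (i + 1) x (hx.shift hd)).trans ?_
      apply mul_le_mul_of_nonneg_left _ hC
      exact pow_le_pow_of_le_one (norm_nonneg _) hx.2.1.le (Nat.pow_le_pow_right (by omega) (by omega))
    have hexp : Ord d β (K + 1) (fun i x => Complex.exp (-F (i + 1) x)) :=
      hneg.comp hβ hsn (fun m => ((m.factorial : ℂ))⁻¹) Complex.exp (A := 2) (δ := 1) (by norm_num)
        one_pos (exp_taylor (K + 1))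
    have hcX : Ord d β (K + 1) (fun i x => -(x⁻¹ * β x * (x ^ (d ^ i)) ^ d)) := by
      have := Ord.exact (d := d) (β := β) (K + 1)
        (-(Polynomial.C Polynomial.X * Polynomial.X ^ d) : Polynomial (Polynomial ℂ))
      refine this.congr one_pos fun i x _ => ?_
      rw [map_neg, map_mul, map_pow, Polynomial.coe_evalEvalRingHom, Polynomial.evalEval_C,
        Polynomial.evalEval_X, Polynomial.eval_X]
    have hw : Ord d β (K + 1) (fun i x =>
        -(x⁻¹ * β x * (x ^ (d ^ i)) ^ d * Complex.exp (-F (i + 1) x))) := by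
      have := hcX.mul hβ hexp
      refine this.congr one_pos fun i x _ => ?_
      ring
    have hws : Sml d (fun i x =>
        -(x⁻¹ * β x * (x ^ (d ^ i)) ^ d * Complex.exp (-F (i + 1) x))) := by
      refine ⟨12, 1 / 12, by norm_num, by norm_num, fun i x hx => ?_⟩
      rw [norm_neg, norm_mul, norm_mul, norm_pow, norm_pow]
      have hX1 : ‖x‖ ^ (d ^ i) ≤ 1 := pow_le_one₀ (norm_nonneg _) hx.2.1.le
      have hX0 : 0 ≤ ‖x‖ ^ (d ^ i) := by positivity
      have h4 := norm_c_le hβ hx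
      have h5 : (‖x‖ ^ (d ^ i)) ^ d ≤ (‖x‖ ^ (d ^ i)) ^ 1 := pow_le_pow_of_le_one hX0 hX1 (by omega)
      rw [pow_one] at h5
      have h6 : ‖Complex.exp (-F (i + 1) x)‖ ≤ 3 := by
        rw [Complex.norm_exp]
        have h7 := F_small hd hβ hF (hx.shift hd) le_rfl
        have h8 : ‖x‖ ^ (d ^ (i + 1)) ≤ 1 := pow_le_one₀ (norm_nonneg _) hx.2.1.le
        have h9 : (-F (i + 1) x).re ≤ 1 := by
          refine (Complex.re_le_norm _).trans ?_
          rw [norm_neg]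
          linarith
        refine (Real.exp_le_exp.2 h9).trans ?_
        have := Real.exp_one_lt_d9
        linarith
      calc ‖x⁻¹ * β x‖ * (‖x‖ ^ (d ^ i)) ^ d * ‖Complex.exp (-F (i + 1) x)‖
          ≤ 4 * ‖x‖ ^ (d ^ i) * 3 := by
            apply mul_le_mul _ h6 (norm_nonneg _) (by positivity)
            exact mul_le_mul h4 h5 (by positivity) (by norm_num)
        _ = 12 * ‖x‖ ^ (d ^ i) := by ring
    have hlog : Ord d β (K + 1) (fun i x => Complex.log (1 +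
        -(x⁻¹ * β x * (x ^ (d ^ i)) ^ d * Complex.exp (-F (i + 1) x)))) :=
      hw.comp hβ hws (fun m => (-1) ^ (m + 1) / (m : ℂ)) (fun u => Complex.log (1 + u)) (A := 2)
        (δ := 1 / 2) (by norm_num) (by norm_num) (log_taylor (K + 1))
    have hfin := (Ord.const (d := d) (β := β) (K + 1) ((d : ℂ)⁻¹)).mul hβ (hS.add hlog)
    exact hfin.congr he1 fun i x hx => hrec i x hx

/-- the coefficient functions -/
theorem exists_coef (hd : 2 ≤ d) (hβ : IsBeta d β) {F : ℕ → ℂ → ℂ} (hF : IsLog d β F) (K : ℕ) :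
    ∃ (B : ℕ → Polynomial ℂ) (C ε : ℝ), 0 ≤ C ∧ 0 < ε ∧ ε ≤ 1 ∧ ∀ i x, Reg d ε i x →
      ‖F i x - ∑ k ∈ Finset.Icc 1 K, (B k).eval (x⁻¹ * β x) * (x ^ (d ^ i)) ^ k‖ ≤
        C * (‖x‖ ^ (d ^ i)) ^ (K + 1) := by
  obtain ⟨Q, C, ε, hC, he, he1, hb⟩ := Ord_F hd hβ hF K
  have hev : ∀ c X : ℂ, evalEvalRingHom c X Q =
      ∑ k ∈ Finset.range (max Q.natDegree K + 1), (Q.coeff k).eval c * X ^ k := by
    intro c X
    rw [Polynomial.coe_evalEvalRingHom, Polynomial.evalEval,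
      Polynomial.eval_eq_sum_range' (n := max Q.natDegree K + 1)
        (Nat.lt_succ_of_le (le_max_left _ _)), Polynomial.eval_finsetSum]
    apply Finset.sum_congr rfl
    intro k _
    rw [Polynomial.eval_mul, ← Polynomial.C_pow, Polynomial.eval_C]
  -- bounds for the coefficients
  have hbd : ∀ k, ∃ M : ℝ, 0 ≤ M ∧ ∀ c : ℂ, ‖c‖ ≤ 4 → ‖(Q.coeff k).eval c‖ ≤ M := by
    intro k
    obtain ⟨M, hM⟩ := (isCompact_closedBall (0 : ℂ) 4).exists_bound_of_continuousOn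
      (f := fun c => (Q.coeff k).eval c) (Q.coeff k).continuous.continuousOn
    exact ⟨max M 0, le_max_right _ _, fun c hc =>
      (hM c (mem_closedBall_zero_iff.2 hc)).trans (le_max_left _ _)⟩
  choose M hM0 hM using hbd
  -- the constant coefficient vanishes
  have hzero : Q.coeff 0 = 0 := by
    by_contra hne
    obtain ⟨C', ε', hC', he', hs⟩ := Sml_F hd hβ hF
    have hroot : ∀ x : ℂ, 1 / 2 ≤ ‖x‖ → ‖x‖ < 1 → (Q.coeff 0).eval (x⁻¹ * β x) = 0 := by
      intro x hx1 hx2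
      have hlim : Tendsto (fun i : ℕ => ‖x‖ ^ (d ^ i)) atTop (𝓝 0) :=
        (tendsto_pow_atTop_nhds_zero_of_lt_one (norm_nonneg _) hx2).comp
          (pow_right_strictMono₀ (by omega : 1 < d)).tendsto_atTop
      have hlimc : Tendsto (fun i : ℕ => x ^ (d ^ i)) atTop (𝓝 0) := by
        rw [tendsto_zero_iff_norm_tendsto_zero]
        simpa only [norm_pow] using hlim
      have hR : ∀ᶠ i in atTop, Reg d (min ε ε') i x := by
        filter_upwards [hlim.eventually (gt_mem_nhds (lt_min he he'))] with i hi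
        exact ⟨hx1, hx2, hi.le⟩
      have hFl : Tendsto (fun i => F i x) atTop (𝓝 0) := by
        rw [tendsto_zero_iff_norm_tendsto_zero]
        apply squeeze_zero' (Eventually.of_forall fun i => norm_nonneg _)
          (g := fun i => C' * ‖x‖ ^ (d ^ i))
        · filter_upwards [hR] with i hi
          exact hs i x (hi.mono (min_le_right _ _))
        · simpa using hlim.const_mul C'
      have hdl : Tendsto (fun i => F i x - evalEvalRingHom (x⁻¹ * β x) (x ^ (d ^ i)) Q) atTop (𝓝 0) := by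
        rw [tendsto_zero_iff_norm_tendsto_zero]
        apply squeeze_zero' (Eventually.of_forall fun i => norm_nonneg _)
          (g := fun i => C * (‖x‖ ^ (d ^ i)) ^ (K + 1))
        · filter_upwards [hR] with i hi
          exact hb i x (hi.mono (min_le_left _ _))
        · have := (hlim.pow (K + 1)).const_mul C
          simpa using this
      have hel : Tendsto (fun i => evalEvalRingHom (x⁻¹ * β x) (x ^ (d ^ i)) Q) atTop
          (𝓝 ((Q.coeff 0).eval (x⁻¹ * β x))) := by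
        simp only [hev]
        have h1 : Tendsto (fun i => ∑ k ∈ Finset.range (max Q.natDegree K + 1),
            (Q.coeff k).eval (x⁻¹ * β x) * (x ^ (d ^ i)) ^ k) atTop
            (𝓝 (∑ k ∈ Finset.range (max Q.natDegree K + 1),
              (Q.coeff k).eval (x⁻¹ * β x) * (0 : ℂ) ^ k)) :=
          tendsto_finsetSum _ fun k _ => (hlimc.pow k).const_mul _
        have h2 : ∑ k ∈ Finset.range (max Q.natDegree K + 1),
            (Q.coeff k).eval (x⁻¹ * β x) * (0 : ℂ) ^ k = (Q.coeff 0).eval (x⁻¹ * β x) := by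
          rw [Finset.sum_range_succ']
          simp
        rwa [h2] at h1
      have h3 := hFl.sub hdl
      simp only [sub_sub_cancel, sub_zero] at h3
      exact tendsto_nhds_unique hel h3
    have hfin : {c : ℂ | (Q.coeff 0).IsRoot c}.Finite := Polynomial.finite_setOfPred_isRoot hne
    have hinf : (Set.Ico (1 / 2 : ℝ) 1).Infinite := Ico_infinite (by norm_num)
    apply hinf
    have hinj : InjOn (fun t : ℝ => ((t : ℂ))⁻¹ * β t) (Set.Ico (1 / 2 : ℝ) 1) := by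
      intro s hs t ht hst
      have h1 : ∀ t : ℝ, t ∈ Set.Ico (1 / 2 : ℝ) 1 → (t : ℂ) ∈ ball (0 : ℂ) 1 ∧ (t : ℂ) ≠ 0 := by
        intro t ht
        constructor
        · rw [mem_ball_zero_iff, Complex.norm_real, Real.norm_of_nonneg (by linarith [ht.1])]
          exact ht.2
        · have : (t : ℝ) ≠ 0 := by linarith [ht.1]
          exact_mod_cast this
      have h2 := hβ.inj s (h1 s hs).1 t (h1 t ht).1 (h1 s hs).2 (h1 t ht).2 hst
      exact_mod_cast h2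
    apply Set.Finite.of_finite_image _ hinj
    apply hfin.subset
    rintro _ ⟨t, ht, rfl⟩
    have hn : ‖(t : ℂ)‖ = t := by
      rw [Complex.norm_real, Real.norm_of_nonneg (by linarith [ht.1])]
    exact hroot t (by rw [hn]; exact ht.1) (by rw [hn]; exact ht.2)
  refine ⟨fun k => Q.coeff k, C + ∑ k ∈ Finset.Ioc K (max Q.natDegree K), M k, ε,
    add_nonneg hC (Finset.sum_nonneg fun k _ => hM0 k), he, he1, fun i x hx => ?_⟩
  have h1 := hb i x hx
  have hX1 : ‖x‖ ^ (d ^ i) ≤ 1 := pow_le_one₀ (norm_nonneg _) hx.2.1.le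
  have hX0 : 0 ≤ ‖x‖ ^ (d ^ i) := by positivity
  have h2 : evalEvalRingHom (x⁻¹ * β x) (x ^ (d ^ i)) Q =
      ∑ k ∈ Finset.Icc 1 K, (Q.coeff k).eval (x⁻¹ * β x) * (x ^ (d ^ i)) ^ k +
      ∑ k ∈ Finset.Ioc K (max Q.natDegree K), (Q.coeff k).eval (x⁻¹ * β x) * (x ^ (d ^ i)) ^ k := by
    rw [hev]
    have h3 : Finset.range (max Q.natDegree K + 1) =
        insert 0 (Finset.Icc 1 K ∪ Finset.Ioc K (max Q.natDegree K)) := by
      ext k
      simp only [Finset.mem_range, Finset.mem_insert, Finset.mem_union, Finset.mem_Icc,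
        Finset.mem_Ioc]
      omega
    rw [h3, Finset.sum_insert (by simp), hzero, Finset.sum_union]
    · simp
    · rw [Finset.disjoint_left]
      intro k hk hk'
      rw [Finset.mem_Icc] at hk
      rw [Finset.mem_Ioc] at hk'
      omega
  have h3 : F i x - ∑ k ∈ Finset.Icc 1 K, (Q.coeff k).eval (x⁻¹ * β x) * (x ^ (d ^ i)) ^ k =
      (F i x - evalEvalRingHom (x⁻¹ * β x) (x ^ (d ^ i)) Q) +
      ∑ k ∈ Finset.Ioc K (max Q.natDegree K), (Q.coeff k).eval (x⁻¹ * β x) * (x ^ (d ^ i)) ^ k := by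
    rw [h2]; ring
  rw [h3]
  refine (norm_add_le _ _).trans ?_
  rw [add_mul]
  apply add_le_add h1
  rw [Finset.sum_mul]
  apply norm_sum_le_of_le
  intro k hk
  rw [Finset.mem_Ioc] at hk
  rw [norm_mul, norm_pow, norm_pow]
  apply mul_le_mul (hM k _ (norm_c_le hβ hx)) _ (by positivity) (hM0 k)
  exact pow_le_pow_of_le_one hX0 hX1 (by omega)

end Pool.Agent.H439.MC
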