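import Mathlib
import Pool.Agent.H439.MC.Ord
import Pool.Graph.R_pool_sql_team_seeded_ab47071d.TH907.ML.M3

/-!
# Approximation of the sum of the logarithms in mean square
-/

set_option autoImplicit false

namespace Pool.Agent.H439.MC

open Complex Set Topology Filter Metric MeasureTheory N62a1eb23 Pool.Agent.H712R2
  Pool.Agent.H713R2 Pool.Agent.TH653.MB
open Pool.Agent.TH907.ML (hom hom_diff hom_eval hom_norm nb nb_nonneg)
open Real (circleAverage)

variable {d : ℕ} {β : ℂ → ℂ}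

/-! ### low and high parts -/

noncomputable def lowp (L : ℕ) (G : ℂ → ℂ) (x : ℂ) : ℂ := ∑ m ∈ Finset.range L, tc G m * x ^ m

noncomputable def highp (L : ℕ) (G : ℂ → ℂ) (x : ℂ) : ℂ := G x - lowp L G x

theorem lowp_diff (L : ℕ) (G : ℂ → ℂ) (s : Set ℂ) : DifferentiableOn ℂ (lowp L G) s := by
  unfold lowp
  fun_prop

theorem highp_diff (L : ℕ) {G : ℂ → ℂ} (hG : DifferentiableOn ℂ G (ball 0 1)) :
    DifferentiableOn ℂ (highp L G) (ball 0 1) := hG.sub (lowp_diff L G _)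

theorem tc_lowp (L : ℕ) (G : ℂ → ℂ) (m : ℕ) : tc (lowp L G) m = if m < L then tc G m else 0 := by
  have h := tc_unique (a := fun m => if m < L then tc G m else 0) (F := lowp L G) one_pos
    (lowp_diff L G _) (Eventually.of_forall fun x => by
      have h1 : lowp L G x = ∑ k ∈ Finset.range L, (if k < L then tc G k else 0) * x ^ k := by
        unfold lowp
        apply Finset.sum_congr rfl
        intro k hk
        rw [if_pos (Finset.mem_range.1 hk)]
      rw [h1]
      apply hasSum_sum_of_ne_finset_zero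
      intro k hk
      rw [if_neg (by simpa using hk), zero_mul])
  exact (congrFun h m).symm

theorem tc_highp (L : ℕ) {G : ℂ → ℂ} (hG : DifferentiableOn ℂ G (ball 0 1)) (m : ℕ) :
    tc (highp L G) m = if m < L then 0 else tc G m := by
  have h : tc (highp L G) m = tc G m - tc (lowp L G) m := tc_sub one_pos hG (lowp_diff L G _) m
  rw [h, tc_lowp]
  split_ifs <;> simp

/-- the mean square is at most the sum of the squares of the coefficients -/
theorem av_le_of_sum {G : ℂ → ℂ} (hG : DifferentiableOn ℂ G (ball 0 1)) {T : ℝ}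
    (hT : ∀ n, ∑ m ∈ Finset.range n, ‖tc G m‖ ^ 2 ≤ T) {r : ℝ} (hr : 0 < r) (hr1 : r < 1) :
    circleAverage (fun x => ‖G x‖ ^ 2) 0 r ≤ T := by
  refine le_of_tendsto (hasSum_sq_tc hr hr1 hG).tendsto_sum_nat (Eventually.of_forall fun n => ?_)
  refine le_trans (Finset.sum_le_sum fun k _ => ?_) (hT n)
  exact mul_le_of_le_one_right (by positivity) (pow_le_one₀ hr.le hr1.le)

/-! ### decay of the coefficients of polynomials in `ψ` -/

theorem bn_hom (hd : 2 ≤ d) (hβ : IsBeta d β) (p : Polynomial ℂ) {D : ℕ} (hD : p.natDegree ≤ D) :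
    ∃ C : ℝ, 0 < C ∧ ∀ s, 1 ≤ s → bn d s (hom β p D) ^ 2 ≤ C / (d : ℝ) ^ s := by
  have hd0 : (0 : ℝ) < d := by exact_mod_cast (by omega : 0 < d)
  have hd2 : (2 : ℝ) ≤ d := by exact_mod_cast hd
  have hd1 : (1 : ℝ) ≤ d := by linarith
  obtain ⟨M0, hM0⟩ := (isCompact_closedBall (0 : ℂ) 4).exists_bound_of_continuousOn
    (f := fun c => p.eval c) p.continuous.continuousOn
  obtain ⟨M1, hM1⟩ := (isCompact_closedBall (0 : ℂ) 4).exists_bound_of_continuousOn
    (f := fun c => p.derivative.eval c) p.derivative.continuous.continuousOn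
  set U := hom β p D with hU
  have hUd : DifferentiableOn ℂ U (ball 0 1) := hom_diff hβ p D
  have hE := EE_nonneg β
  set C1 : ℝ := D * |M0| with hC1
  set C2' : ℝ := 4 * |M1| with hC2
  -- the derivative
  have hder : ∀ x ∈ ball (0 : ℂ) 1, 1 / 2 ≤ ‖x‖ → ‖deriv U x‖ ≤ C1 + C2' * ‖qq β x‖ := by
    intro x hx hx2
    have hx0 : x ≠ 0 := by
      rintro rfl
      rw [norm_zero] at hx2
      norm_num at hx2
    have hx1 : ‖x‖ < 1 := mem_ball_zero_iff.1 hx
    have h1 : U =ᶠ[𝓝 x] fun y => y ^ D * p.eval (y⁻¹ * β y) := by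
      filter_upwards [isOpen_compl_singleton.mem_nhds hx0] with y hy
      exact hom_eval p hD hy
    have h2 := psi_deriv hβ hx hx0
    have h3 : HasDerivAt (fun y => p.eval (y⁻¹ * β y))
        (p.derivative.eval (x⁻¹ * β x) * (-(qq β x / x ^ 2))) x :=
      HasDerivAt.comp (h := fun y => y⁻¹ * β y) (h₂ := fun c => p.eval c) x (p.hasDerivAt _) h2
    have h4 : HasDerivAt (fun y => y ^ D * p.eval (y⁻¹ * β y)) ((D * x ^ (D - 1)) * p.eval (x⁻¹ * β x) +
        x ^ D * (p.derivative.eval (x⁻¹ * β x) * (-(qq β x / x ^ 2)))) x :=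
      (hasDerivAt_pow D x).mul h3
    rw [h1.deriv_eq, h4.deriv]
    have hc : ‖x⁻¹ * β x‖ ≤ 4 := by
      have h5 := hβ.bound x hx
      have h6 : ‖x‖⁻¹ ≤ 2 := by
        rw [inv_le_comm₀ (by linarith) (by norm_num)]
        linarith
      rw [norm_mul, norm_inv]
      calc ‖x‖⁻¹ * ‖β x‖ ≤ 2 * 2 := mul_le_mul h6 h5 (norm_nonneg _) (by norm_num)
        _ = 4 := by norm_num
    have h5 : ‖p.eval (x⁻¹ * β x)‖ ≤ |M0| := (hM0 _ (mem_closedBall_zero_iff.2 hc)).trans (le_abs_self _)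
    have h6 : ‖p.derivative.eval (x⁻¹ * β x)‖ ≤ |M1| :=
      (hM1 _ (mem_closedBall_zero_iff.2 hc)).trans (le_abs_self _)
    refine (norm_add_le _ _).trans (add_le_add ?_ ?_)
    · rw [norm_mul, norm_mul, norm_pow, Complex.norm_natCast, hC1]
      have h7 : ‖x‖ ^ (D - 1) ≤ 1 := pow_le_one₀ (norm_nonneg _) hx1.le
      calc (D : ℝ) * ‖x‖ ^ (D - 1) * ‖p.eval (x⁻¹ * β x)‖ ≤ D * 1 * |M0| := by
            gcongr
        _ = D * |M0| := by ring
    · rw [norm_mul, norm_mul, norm_neg, norm_div, norm_pow, norm_pow, hC2]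
      have h7 : ‖x‖ ^ D ≤ 1 := pow_le_one₀ (norm_nonneg _) hx1.le
      have h8 : ‖qq β x‖ / ‖x‖ ^ 2 ≤ 4 * ‖qq β x‖ := by
        rw [div_le_iff₀ (by positivity)]
        have : (1 / 4 : ℝ) ≤ ‖x‖ ^ 2 := by nlinarith
        nlinarith [norm_nonneg (qq β x)]
      calc ‖x‖ ^ D * (‖p.derivative.eval (x⁻¹ * β x)‖ * (‖qq β x‖ / ‖x‖ ^ 2))
          ≤ 1 * (|M1| * (4 * ‖qq β x‖)) := by
            apply mul_le_mul h7 _ (by positivity) (by norm_num)
            exact mul_le_mul h6 h8 (by positivity) (by positivity)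
        _ = 4 * |M1| * ‖qq β x‖ := by ring
  set C3 : ℝ := 2 * C1 ^ 2 + 2 * C2' ^ 2 * (1 + EE β) + 1 with hC3
  have hC3p : 0 < C3 := by positivity
  refine ⟨C3 * Real.exp 2 * d ^ 2, by positivity, ?_⟩
  intro s hs
  have hps : (0 : ℝ) < (d : ℝ) ^ s := by positivity
  have hds : (2 : ℝ) ≤ (d : ℝ) ^ s := by
    calc (2 : ℝ) ≤ d := hd2
      _ = (d : ℝ) ^ 1 := (pow_one _).symm
      _ ≤ (d : ℝ) ^ s := pow_le_pow_right₀ hd1 hs
  have hr0 := rho_pos d s
  have hr1 := rho_lt_one hd s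
  have hr2 : 1 / 2 ≤ rho d s := by
    unfold rho
    have h1 : 1 / (d : ℝ) ^ s ≤ 1 / 2 := one_div_le_one_div_of_le (by norm_num) hds
    have h2 := Real.add_one_le_exp (-(1 / (d : ℝ) ^ s))
    linarith
  have hrN : rho d s ^ (d ^ s) ≤ Real.exp (-1) := by
    unfold rho
    rw [← Real.exp_nat_mul]
    apply le_of_eq
    congr 1
    push_cast
    field_simp
  have hav := av_qq_sq hβ (N := d ^ s) (Nat.one_le_pow _ _ (by omega)) hr0 hr1 hrN
  have hUd' := hUd.deriv isOpen_ball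
  have hsph : ∀ x ∈ sphere (0 : ℂ) |rho d s|, x ∈ ball (0 : ℂ) 1 ∧ 1 / 2 ≤ ‖x‖ := by
    intro x hx
    rw [mem_sphere_zero_iff_norm, abs_of_pos hr0] at hx
    exact ⟨by rw [mem_ball_zero_iff, hx]; exact hr1, by rw [hx]; exact hr2⟩
  have hqc := (qq_diff hβ).continuousOn
  have hqci : CircleIntegrable (fun x => ‖qq β x‖ ^ 2) 0 (rho d s) :=
    ci_of_diff hr0 hr1 (hqc.norm.pow 2)
  have h1 : circleAverage (fun x => ‖deriv U x‖ ^ 2) 0 (rho d s) ≤ C3 * (d : ℝ) ^ s := by
    have h2 : circleAverage (fun x => ‖deriv U x‖ ^ 2) 0 (rho d s) ≤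
        circleAverage ((fun _ : ℂ => 2 * C1 ^ 2) + (2 * C2' ^ 2) • (fun x => ‖qq β x‖ ^ 2)) 0 (rho d s) := by
      apply Real.circleAverage_mono
      · exact ci_of_diff hr0 hr1 (hUd'.continuousOn.norm.pow 2)
      · exact (circleIntegrable_const _ _ _).add hqci.const_smul
      · intro x hx
        obtain ⟨h3, h4⟩ := hsph x hx
        have h5 := hder x h3 h4
        simp only [Pi.add_apply, Pi.smul_apply, smul_eq_mul]
        have h6 : ‖deriv U x‖ ^ 2 ≤ (C1 + C2' * ‖qq β x‖) ^ 2 := pow_le_pow_left₀ (norm_nonneg _) h5 2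
        nlinarith [sq_nonneg (C1 - C2' * ‖qq β x‖)]
    rw [Real.circleAverage_add (circleIntegrable_const _ _ _) hqci.const_smul,
      Real.circleAverage_const, Real.circleAverage_smul, smul_eq_mul] at h2
    refine h2.trans ?_
    have h3 : 2 * C2' ^ 2 * circleAverage (fun x => ‖qq β x‖ ^ 2) 0 (rho d s) ≤
        2 * C2' ^ 2 * ((1 + EE β) * (d ^ s : ℕ)) := mul_le_mul_of_nonneg_left hav (by positivity)
    rw [hC3]
    push_cast at h3
    nlinarith [sq_nonneg C1]
  have h2 := hasSum_sq_tc hr0 hr1 hUd'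
  have h3 : Real.exp (-2) * ((d : ℝ) ^ (s - 1)) ^ 2 * bn d s U ^ 2 ≤ C3 * (d : ℝ) ^ s := by
    refine le_trans ?_ h1
    rw [bn_sq, Finset.mul_sum]
    have h4 : ∑ k ∈ (Finset.Ico (d ^ (s - 1)) (d ^ s)).image (fun m => m - 1),
        ‖tc (deriv U) k‖ ^ 2 * rho d s ^ (2 * k) ≤ circleAverage (fun x => ‖deriv U x‖ ^ 2) 0 (rho d s) :=
      sum_le_hasSum _ (fun k _ => mul_nonneg (by positivity) (pow_nonneg hr0.le _)) h2
    refine le_trans ?_ h4
    have hpos : 1 ≤ d ^ (s - 1) := Nat.one_le_pow _ _ (by omega)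
    rw [Finset.sum_image]
    · apply Finset.sum_le_sum
      intro m hm
      rw [Finset.mem_Ico] at hm
      obtain ⟨k, rfl⟩ : ∃ k, m = k + 1 := Nat.exists_eq_add_of_le' (by omega)
      rw [Nat.add_sub_cancel, tc_deriv, norm_mul]
      have h5 : ‖((k : ℂ) + 1)‖ = (k : ℝ) + 1 := by
        have : ((k : ℂ) + 1) = ((k + 1 : ℕ) : ℂ) := by push_cast; ring
        rw [this, Complex.norm_natCast]
        push_cast
        ring
      rw [h5]
      have h6 : (d : ℝ) ^ (s - 1) ≤ (k : ℝ) + 1 := by exact_mod_cast hm.1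
      have h7 : ((k : ℝ) + 1) ≤ (d : ℝ) ^ s := by exact_mod_cast hm.2.le
      have h8 : Real.exp (-2) ≤ rho d s ^ (2 * k) := by
        unfold rho
        rw [← Real.exp_nat_mul]
        apply Real.exp_le_exp.2
        push_cast
        have h9 : 2 * (k : ℝ) * (1 / (d : ℝ) ^ s) ≤ 2 := by
          rw [mul_one_div, div_le_iff₀ hps]
          linarith
        linarith
      have h9 : ((d : ℝ) ^ (s - 1)) ^ 2 ≤ ((k : ℝ) + 1) ^ 2 := pow_le_pow_left₀ (by positivity) h6 2
      calc Real.exp (-2) * ((d : ℝ) ^ (s - 1)) ^ 2 * ‖tc U (k + 1)‖ ^ 2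
          ≤ rho d s ^ (2 * k) * ((k : ℝ) + 1) ^ 2 * ‖tc U (k + 1)‖ ^ 2 := by
            apply mul_le_mul_of_nonneg_right _ (by positivity)
            exact mul_le_mul h8 h9 (by positivity) (pow_nonneg hr0.le _)
        _ = _ := by ring
    · intro a ha b hb hab
      rw [Finset.coe_Ico, Set.mem_Ico] at ha hb
      simp only at hab
      omega
  have h4 : (d : ℝ) ^ s = (d : ℝ) ^ (s - 1) * d := by rw [← pow_succ, Nat.sub_add_cancel hs]
  have hp1 : (0 : ℝ) < (d : ℝ) ^ (s - 1) := by positivity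
  have he : Real.exp (-2) * Real.exp 2 = 1 := by rw [← Real.exp_add]; norm_num
  rw [le_div_iff₀ hps]
  have h5 : bn d s U ^ 2 * (d : ℝ) ^ s = (Real.exp (-2) * ((d : ℝ) ^ (s - 1)) ^ 2 * bn d s U ^ 2) *
      (Real.exp 2 * d ^ 2 / (d : ℝ) ^ s) := by
    have h6 : (Real.exp (-2) * ((d : ℝ) ^ (s - 1)) ^ 2 * bn d s U ^ 2) *
      (Real.exp 2 * d ^ 2 / (d : ℝ) ^ s) = (Real.exp (-2) * Real.exp 2) * (bn d s U ^ 2 *
        (((d : ℝ) ^ (s - 1) * d) ^ 2 / (d : ℝ) ^ s)) := by ring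
    rw [h6, he, one_mul, ← h4]
    field_simp
  rw [h5]
  calc _ ≤ (C3 * (d : ℝ) ^ s) * (Real.exp 2 * d ^ 2 / (d : ℝ) ^ s) :=
        mul_le_mul_of_nonneg_right h3 (by positivity)
    _ = C3 * Real.exp 2 * d ^ 2 := by field_simp

/-! ### multiplication by powers of `x` -/

theorem tc_pow_mul {G : ℂ → ℂ} (hG : DifferentiableOn ℂ G (ball 0 1)) (e m : ℕ) :
    tc (fun x => x ^ e * G x) m = if m < e then 0 else tc G (m - e) := by
  induction e generalizing m with
  | zero => simp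
  | succ e ih =>
    have hd1 : DifferentiableOn ℂ (fun x : ℂ => x ^ e * G x) (ball 0 1) :=
      (Differentiable.differentiableOn (by fun_prop)).mul hG
    have h1 : (fun x : ℂ => x ^ (e + 1) * G x) = fun x => x * (x ^ e * G x) := by
      funext x; ring
    rw [h1]
    cases m with
    | zero => rw [tc_zero]; simp
    | succ m =>
      rw [tc_id_mul one_pos hd1, ih]
      by_cases h : m < e
      · rw [if_pos h, if_pos (by omega)]
      · rw [if_neg h, if_neg (by omega)]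
        congr 1
        omega

theorem tc_finset_sum {ι : Type*} (I : Finset ι) {G : ι → ℂ → ℂ}
    (hG : ∀ i ∈ I, DifferentiableOn ℂ (G i) (ball 0 1)) (m : ℕ) :
    tc (fun x => ∑ i ∈ I, G i x) m = ∑ i ∈ I, tc (G i) m := by
  classical
  induction I using Finset.induction_on with
  | empty => simp only [Finset.sum_empty]; exact tc_zero_fun m
  | insert i I hi ih =>
    simp only [Finset.sum_insert hi]
    rw [tc_add one_pos (hG i (Finset.mem_insert_self i I)) (DifferentiableOn.fun_sum fun j hj =>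
      hG j (Finset.mem_insert_of_mem hj)), ih (fun j hj => hG j (Finset.mem_insert_of_mem hj))]

end Pool.Agent.H439.MC
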