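import Mathlib
import Pool.Agent.H439.MC.Rem

/-!
# Approximation of the sum of the logarithms in mean square, II
-/

set_option autoImplicit false

namespace Pool.Agent.H439.MC

open Complex Set Topology Filter Metric MeasureTheory N62a1eb23 Pool.Agent.H712R2
  Pool.Agent.H713R2 Pool.Agent.TH653.MB
open Pool.Agent.TH907.ML (hom hom_diff hom_eval hom_norm nb nb_nonneg)
open Real (circleAverage)

variable {d : ℕ} {β : ℂ → ℂ}

theorem sum_blocks_from (hd : 2 ≤ d) (f : ℕ → ℝ) (i t : ℕ) :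
    ∑ m ∈ Finset.Ico (d ^ (i - 1)) (d ^ (i + t)), f m =
      ∑ a ∈ Finset.range (t + 1), ∑ m ∈ Finset.Ico (d ^ (i + a - 1)) (d ^ (i + a)), f m := by
  induction t with
  | zero => simp
  | succ t ih =>
    rw [Finset.sum_range_succ, ← ih, show i + (t + 1) - 1 = i + t by omega]
    rw [Finset.sum_Ico_consecutive _ (Nat.pow_le_pow_right (by omega) (by omega))
      (Nat.pow_le_pow_right (by omega) (by omega))]

theorem geom_le (hd : 2 ≤ d) (n : ℕ) : ∑ a ∈ Finset.range n, 1 / (d : ℝ) ^ a ≤ 2 := by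
  have hd2 : (2 : ℝ) ≤ d := by exact_mod_cast hd
  have h1 : ∑ a ∈ Finset.range n, 1 / (d : ℝ) ^ a ≤ ∑ a ∈ Finset.range n, (1 / 2 : ℝ) ^ a := by
    apply Finset.sum_le_sum
    intro a _
    rw [one_div_pow]
    apply one_div_le_one_div_of_le (by positivity)
    exact pow_le_pow_left₀ (by norm_num) hd2 a
  refine h1.trans ?_
  rw [geom_sum_eq (by norm_num)]
  have : (0 : ℝ) ≤ (1 / 2) ^ n := by positivity
  rw [div_le_iff_of_neg (by norm_num)]
  linarith

/-- the tail of the coefficients -/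
theorem tail_le (hd : 2 ≤ d) {U : ℂ → ℂ} {C : ℝ} (hC0 : 0 < C)
    (hC : ∀ s, 1 ≤ s → bn d s U ^ 2 ≤ C / (d : ℝ) ^ s) {i : ℕ} (hi : 1 ≤ i) (T : Finset ℕ)
    (hT : ∀ l ∈ T, d ^ (i - 1) ≤ l) : ∑ l ∈ T, ‖tc U l‖ ^ 2 ≤ 2 * C / (d : ℝ) ^ i := by
  have hd0 : (0 : ℝ) < d := by exact_mod_cast (by omega : 0 < d)
  set J := T.sup id with hJ
  have h1 : ∑ l ∈ T, ‖tc U l‖ ^ 2 ≤ ∑ l ∈ Finset.Ico (d ^ (i - 1)) (d ^ (i + J)), ‖tc U l‖ ^ 2 := by
    apply Finset.sum_le_sum_of_subset_of_nonneg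
    · intro l hl
      rw [Finset.mem_Ico]
      refine ⟨hT l hl, ?_⟩
      have h2 : l ≤ J := Finset.le_sup (f := id) hl
      calc l ≤ i + J := by omega
        _ < d ^ (i + J) := Nat.lt_pow_self (by omega)
    · intro _ _ _; positivity
  refine h1.trans ?_
  rw [sum_blocks_from hd]
  have h2 : ∀ a ∈ Finset.range (J + 1), ∑ m ∈ Finset.Ico (d ^ (i + a - 1)) (d ^ (i + a)), ‖tc U m‖ ^ 2 ≤
      C / (d : ℝ) ^ i * (1 / (d : ℝ) ^ a) := by
    intro a _
    rw [← bn_sq]
    refine (hC (i + a) (by omega)).trans (le_of_eq ?_)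
    rw [pow_add]
    field_simp
  refine (Finset.sum_le_sum h2).trans ?_
  rw [← Finset.mul_sum]
  have h3 := geom_le hd (J + 1)
  calc C / (d : ℝ) ^ i * ∑ a ∈ Finset.range (J + 1), 1 / (d : ℝ) ^ a ≤ C / (d : ℝ) ^ i * 2 :=
        mul_le_mul_of_nonneg_left h3 (by positivity)
    _ = 2 * C / (d : ℝ) ^ i := by ring

/-- the approximating functions -/
noncomputable def VV (d : ℕ) (β : ℂ → ℂ) (K D : ℕ) (B : ℕ → Polynomial ℂ) (i : ℕ) (x : ℂ) : ℂ :=
  ∑ k ∈ Finset.Icc 1 K, x ^ (k * d ^ i - D) * hom β (B k) D x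

theorem VV_diff (hβ : IsBeta d β) (K D : ℕ) (B : ℕ → Polynomial ℂ) (i : ℕ) :
    DifferentiableOn ℂ (VV d β K D B i) (ball 0 1) := by
  unfold VV
  apply DifferentiableOn.fun_sum
  intro k _
  exact (Differentiable.differentiableOn (by fun_prop)).mul (hom_diff hβ _ _)

theorem VV_eq {K D : ℕ} {B : ℕ → Polynomial ℂ} (hB : ∀ k ∈ Finset.Icc 1 K, (B k).natDegree ≤ D)
    {i : ℕ} (hi : D ≤ d ^ i) {x : ℂ} (hx : x ≠ 0) :
    VV d β K D B i x = ∑ k ∈ Finset.Icc 1 K, (B k).eval (x⁻¹ * β x) * (x ^ (d ^ i)) ^ k := by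
  unfold VV
  apply Finset.sum_congr rfl
  intro k hk
  rw [hom_eval _ (hB k hk) hx, ← mul_assoc, ← pow_add]
  have h1 : 1 ≤ k := (Finset.mem_Icc.1 hk).1
  have h2 : D ≤ k * d ^ i := hi.trans (Nat.le_mul_of_pos_left _ h1)
  rw [Nat.sub_add_cancel h2, ← pow_mul, mul_comm, mul_comm (d ^ i)]

theorem tc_VV (hβ : IsBeta d β) (K D : ℕ) (B : ℕ → Polynomial ℂ) (i m : ℕ) :
    tc (VV d β K D B i) m = ∑ k ∈ Finset.Icc 1 K,
      if m < k * d ^ i - D then 0 else tc (hom β (B k) D) (m - (k * d ^ i - D)) := by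
  have h1 := tc_finset_sum (Finset.Icc 1 K) (G := fun k x => x ^ (k * d ^ i - D) * hom β (B k) D x)
    (fun k _ => (Differentiable.differentiableOn (by fun_prop)).mul (hom_diff hβ _ _)) m
  have h2 : VV d β K D B i = fun x => ∑ k ∈ Finset.Icc 1 K, (fun k x => x ^ (k * d ^ i - D) * hom β (B k) D x) k x := rfl
  rw [h2, h1]
  apply Finset.sum_congr rfl
  intro k _
  exact tc_pow_mul (hom_diff hβ _ _) _ _

theorem VV_high (hd : 2 ≤ d) (hβ : IsBeta d β) (K D : ℕ) (B : ℕ → Polynomial ℂ)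
    (hB : ∀ k ∈ Finset.Icc 1 K, (B k).natDegree ≤ D) :
    ∃ C : ℝ, 0 < C ∧ ∀ i, 1 ≤ i → D ≤ d ^ i → ∀ n, ∑ m ∈ Finset.range n,
      ‖tc (highp (K * d ^ i + d ^ (i - 1)) (VV d β K D B i)) m‖ ^ 2 ≤ C / (d : ℝ) ^ i := by
  have hd0 : (0 : ℝ) < d := by exact_mod_cast (by omega : 0 < d)
  have h : ∀ k, ∃ C : ℝ, 0 < C ∧ (k ∈ Finset.Icc 1 K → ∀ s, 1 ≤ s →
      bn d s (hom β (B k) D) ^ 2 ≤ C / (d : ℝ) ^ s) := by
    intro k
    by_cases hk : k ∈ Finset.Icc 1 K
    · obtain ⟨C, hC, h1⟩ := bn_hom hd hβ (B k) (hB k hk)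
      exact ⟨C, hC, fun _ => h1⟩
    · exact ⟨1, one_pos, fun h => absurd h hk⟩
  choose C hC0 hC using h
  refine ⟨K * ∑ k ∈ Finset.Icc 1 K, 2 * C k + 1, ?_, ?_⟩
  · have : 0 ≤ ∑ k ∈ Finset.Icc 1 K, 2 * C k := Finset.sum_nonneg fun k _ => by
      have := hC0 k; positivity
    positivity
  intro i hi hDi n
  have hpi : (0 : ℝ) < (d : ℝ) ^ i := by positivity
  set L : ℕ := K * d ^ i + d ^ (i - 1) with hL
  have h1 : ∀ m ∈ Finset.range n, ‖tc (highp L (VV d β K D B i)) m‖ ^ 2 ≤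
      K * ∑ k ∈ Finset.Icc 1 K, (if m < L then 0 else ‖tc (hom β (B k) D) (m - (k * d ^ i - D))‖ ^ 2) := by
    intro m _
    rw [tc_highp L (VV_diff hβ K D B i)]
    split_ifs with hm
    · rw [norm_zero]
      simp
    · rw [tc_VV hβ]
      have h2 : ∀ k ∈ Finset.Icc 1 K, (if m < k * d ^ i - D then 0
          else tc (hom β (B k) D) (m - (k * d ^ i - D))) = tc (hom β (B k) D) (m - (k * d ^ i - D)) := by
        intro k hk
        rw [if_neg]
        have h3 : k ≤ K := (Finset.mem_Icc.1 hk).2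
        have h4 : k * d ^ i ≤ K * d ^ i := Nat.mul_le_mul_right _ h3
        omega
      rw [Finset.sum_congr rfl h2]
      have h3 : ‖∑ k ∈ Finset.Icc 1 K, tc (hom β (B k) D) (m - (k * d ^ i - D))‖ ^ 2 ≤
          (∑ k ∈ Finset.Icc 1 K, ‖tc (hom β (B k) D) (m - (k * d ^ i - D))‖) ^ 2 :=
        pow_le_pow_left₀ (norm_nonneg _) (norm_sum_le _ _) 2
      refine h3.trans ?_
      have h4 := sq_sum_le_card_mul_sum_sq (s := Finset.Icc 1 K)
        (f := fun k => ‖tc (hom β (B k) D) (m - (k * d ^ i - D))‖)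
      rw [Nat.card_Icc, Nat.add_sub_cancel] at h4
      exact h4
  refine (Finset.sum_le_sum h1).trans ?_
  rw [← Finset.mul_sum, Finset.sum_comm]
  have h2 : ∀ k ∈ Finset.Icc 1 K, ∑ m ∈ Finset.range n,
      (if m < L then 0 else ‖tc (hom β (B k) D) (m - (k * d ^ i - D))‖ ^ 2) ≤ 2 * C k / (d : ℝ) ^ i := by
    intro k hk
    have hkK : k ≤ K := (Finset.mem_Icc.1 hk).2
    have h3 : ∑ m ∈ Finset.range n,
        (if m < L then 0 else ‖tc (hom β (B k) D) (m - (k * d ^ i - D))‖ ^ 2) =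
        ∑ l ∈ ((Finset.range n).filter (fun m => ¬ m < L)).image (fun m => m - (k * d ^ i - D)),
          ‖tc (hom β (B k) D) l‖ ^ 2 := by
      rw [Finset.sum_image]
      · rw [Finset.sum_filter]
        apply Finset.sum_congr rfl
        intro m _
        by_cases hm : m < L
        · simp [hm]
        · simp [hm]
      · intro a ha b hb hab
        have ha' := (Finset.mem_filter.1 ha).2
        have hb' := (Finset.mem_filter.1 hb).2
        have h4 : k * d ^ i ≤ K * d ^ i := Nat.mul_le_mul_right _ hkK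
        simp only at hab
        omega
    rw [h3]
    apply tail_le hd (hC0 k) (hC k hk) hi
    intro l hl
    obtain ⟨m, hm, rfl⟩ := Finset.mem_image.1 hl
    have hm' := (Finset.mem_filter.1 hm).2
    have h4 : k * d ^ i ≤ K * d ^ i := Nat.mul_le_mul_right _ hkK
    omega
  have h3 := Finset.sum_le_sum h2
  calc (K : ℝ) * ∑ k ∈ Finset.Icc 1 K, ∑ m ∈ Finset.range n,
        (if m < L then 0 else ‖tc (hom β (B k) D) (m - (k * d ^ i - D))‖ ^ 2)
      ≤ K * ∑ k ∈ Finset.Icc 1 K, 2 * C k / (d : ℝ) ^ i := mul_le_mul_of_nonneg_left h3 (Nat.cast_nonneg _)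
    _ = (K * ∑ k ∈ Finset.Icc 1 K, 2 * C k) / (d : ℝ) ^ i := by
        rw [← Finset.sum_div]; ring
    _ ≤ _ := by
        apply div_le_div_of_nonneg_right _ hpi.le
        linarith

/-- the remainder -/
noncomputable def RR (d : ℕ) (β : ℂ → ℂ) (F : ℕ → ℂ → ℂ) (K D : ℕ) (B : ℕ → Polynomial ℂ) (i : ℕ)
    (x : ℂ) : ℂ := F i x - VV d β K D B i x

theorem RR_diff (hβ : IsBeta d β) {F : ℕ → ℂ → ℂ} (hF : IsLog d β F) (K D : ℕ)
    (B : ℕ → Polynomial ℂ) (i : ℕ) : DifferentiableOn ℂ (RR d β F K D B i) (ball 0 1) :=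
  (hF.diff i).sub (VV_diff hβ K D B i)

/-- the low part of the remainder -/
theorem RR_low (hd : 2 ≤ d) (hβ : IsBeta d β) {F : ℕ → ℂ → ℂ} (hF : IsLog d β F) {K D : ℕ}
    {B : ℕ → Polynomial ℂ} (hB : ∀ k ∈ Finset.Icc 1 K, (B k).natDegree ≤ D) {C ε : ℝ} (hC : 0 ≤ C)
    (hb : ∀ i x, Reg d ε i x →
      ‖F i x - ∑ k ∈ Finset.Icc 1 K, (B k).eval (x⁻¹ * β x) * (x ^ (d ^ i)) ^ k‖ ≤
        C * (‖x‖ ^ (d ^ i)) ^ (K + 1)) {δ : ℝ} (hδ : 0 < δ) (hδε : δ ≤ ε) (hδ1 : δ < 1) :
    ∀ᶠ i in atTop, ∑ m ∈ Finset.range (K * d ^ i + d ^ (i - 1)), ‖tc (RR d β F K D B i) m‖ ^ 2 ≤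
      C ^ 2 * δ := by
  have hlim : Tendsto (fun i : ℕ => (1 / 2 : ℝ) ^ (d ^ i)) atTop (𝓝 0) :=
    (tendsto_pow_atTop_nhds_zero_of_lt_one (by norm_num) (by norm_num)).comp
      (pow_right_strictMono₀ (by omega : 1 < d)).tendsto_atTop
  have hlD : ∀ᶠ i in atTop, D ≤ d ^ i :=
    (pow_right_strictMono₀ (by omega : 1 < d)).tendsto_atTop.eventually_ge_atTop D
  filter_upwards [hlim.eventually (gt_mem_nhds hδ), hlD, eventually_ge_atTop 1] with i hi1 hi2 hi3
  have hdi : 1 ≤ d ^ i := Nat.one_le_pow _ _ (by omega)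
  set r : ℝ := δ ^ (((d ^ i : ℕ) : ℝ)⁻¹) with hr
  have hr0 : 0 < r := Real.rpow_pos_of_pos hδ _
  have hrp : r ^ (d ^ i) = δ := Real.rpow_inv_natCast_pow hδ.le (by omega)
  have hr1 : r < 1 := by
    by_contra h
    push Not at h
    have := one_le_pow₀ (n := d ^ i) h
    rw [hrp] at this
    linarith
  have hr2 : 1 / 2 ≤ r := by
    by_contra h
    push Not at h
    have := pow_lt_pow_left₀ h hr0.le (by omega : d ^ i ≠ 0)
    rw [hrp] at this
    linarith
  have hRd := RR_diff hβ hF K D B i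
  have hP := hasSum_sq_tc hr0 hr1 hRd
  have hsph : ∀ x ∈ sphere (0 : ℂ) |r|, ‖RR d β F K D B i x‖ ^ 2 ≤ C ^ 2 * δ ^ (2 * K + 2) := by
    intro x hx
    rw [mem_sphere_zero_iff_norm, abs_of_pos hr0] at hx
    have hx0 : x ≠ 0 := by
      rintro rfl
      rw [norm_zero] at hx
      linarith
    have hreg : Reg d ε i x := ⟨by rw [hx]; exact hr2, by rw [hx]; exact hr1, by rw [hx, hrp]; exact hδε⟩
    have h1 := hb i x hreg
    unfold RR
    rw [VV_eq hB hi2 hx0]
    rw [hx, hrp] at h1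
    calc _ ≤ (C * δ ^ (K + 1)) ^ 2 := pow_le_pow_left₀ (norm_nonneg _) h1 2
      _ = C ^ 2 * δ ^ (2 * K + 2) := by rw [mul_pow, ← pow_mul]; congr 2; ring
  have hav : circleAverage (fun x => ‖RR d β F K D B i x‖ ^ 2) 0 r ≤ C ^ 2 * δ ^ (2 * K + 2) := by
    have h1 := Real.circleAverage_mono (c := 0) (R := r)
      (ci_of_diff hr0 hr1 (hRd.continuousOn.norm.pow 2)) (circleIntegrable_const (C ^ 2 * δ ^ (2 * K + 2)) _ _) hsph
    rwa [Real.circleAverage_const] at h1
  set L := K * d ^ i + d ^ (i - 1) with hL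
  have h2L : 2 * L ≤ (2 * K + 1) * d ^ i := by
    have h1 : 2 * d ^ (i - 1) ≤ d ^ i := by
      obtain ⟨j, rfl⟩ := Nat.exists_eq_add_of_le' hi3
      rw [Nat.add_sub_cancel, pow_succ, mul_comm]
      exact Nat.mul_le_mul_left _ hd
    rw [hL]
    nlinarith
  have h1 : (∑ m ∈ Finset.range L, ‖tc (RR d β F K D B i) m‖ ^ 2) * δ ^ (2 * K + 1) ≤
      C ^ 2 * δ ^ (2 * K + 2) := by
    refine le_trans ?_ ((sum_le_hasSum (Finset.range L) (fun k _ => by positivity) hP).trans hav)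
    rw [Finset.sum_mul]
    apply Finset.sum_le_sum
    intro m hm
    have hm' := Finset.mem_range.1 hm
    apply mul_le_mul_of_nonneg_left _ (by positivity)
    calc δ ^ (2 * K + 1) = r ^ ((2 * K + 1) * d ^ i) := by rw [pow_mul', hrp]
      _ ≤ r ^ (2 * m) := pow_le_pow_of_le_one hr0.le hr1.le (by omega)
  have h2 : δ ^ (2 * K + 2) = δ * δ ^ (2 * K + 1) := by ring
  rw [h2, ← mul_assoc] at h1
  exact le_of_mul_le_mul_right h1 (by positivity)

/-- support of the remainder -/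
theorem tc_RR_zero (hd : 2 ≤ d) (hβ : IsBeta d β) {F : ℕ → ℂ → ℂ} (hF : IsLog d β F) {K D : ℕ}
    {B : ℕ → Polynomial ℂ} {i m : ℕ} (hm : m < d ^ i - D) :
    tc (RR d β F K D B i) m = 0 := by
  have h0 : tc (RR d β F K D B i) m = tc (F i) m - tc (VV d β K D B i) m :=
    tc_sub one_pos (hF.diff i) (VV_diff hβ K D B i) m
  have h1 : d ^ i ≤ d ^ (i + 1) - 1 := by
    have h2 : 2 * d ^ i ≤ d ^ (i + 1) := by
      rw [pow_succ, mul_comm]
      exact Nat.mul_le_mul_left _ hd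
    have h3 : 1 ≤ d ^ i := Nat.one_le_pow _ _ (by omega)
    omega
  rw [h0, tc_F_low hd hβ hF (by omega), tc_VV hβ, zero_sub, neg_eq_zero]
  apply Finset.sum_eq_zero
  intro k hk
  rw [if_pos]
  have h2 : 1 ≤ k := (Finset.mem_Icc.1 hk).1
  have h3 : d ^ i ≤ k * d ^ i := Nat.le_mul_of_pos_left _ h2
  omega

/-- **the approximation** -/
theorem approx (hd : 2 ≤ d) (hβ : IsBeta d β) {F : ℕ → ℂ → ℂ} (hF : IsLog d β F) {η : ℝ}
    (hη : 0 < η) : ∃ (K D : ℕ) (B : ℕ → Polynomial ℂ) (i0 n0 : ℕ), 1 ≤ K ∧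
      (∀ k ∈ Finset.Icc 1 K, (B k).natDegree ≤ D) ∧ D ≤ d ^ i0 ∧ i0 ≤ n0 ∧ ∀ n, n0 ≤ n → ∀ r : ℝ,
      0 < r → r < 1 → circleAverage (fun x => ‖SS F n x - ∑ i ∈ Finset.Ico i0 n, VV d β K D B i x‖ ^ 2) 0 r ≤
        η * n := by
  have hd0 : (0 : ℝ) < d := by exact_mod_cast (by omega : 0 < d)
  obtain ⟨CF, hCF, hblk⟩ := block_le hd hβ hF
  obtain ⟨CE, hCE, hen⟩ := en_sum hd hβ hF
  -- choice of `K`
  obtain ⟨A0, hA0⟩ : ∃ A0 : ℕ, 6 * (81 * CF ^ 2) * (81 / 100) ^ A0 ≤ η / 8 := by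
    have h1 : Tendsto (fun a : ℕ => 6 * (81 * CF ^ 2) * (81 / 100 : ℝ) ^ a) atTop (𝓝 (6 * (81 * CF ^ 2) * 0)) :=
      (tendsto_pow_atTop_nhds_zero_of_lt_one (by norm_num) (by norm_num)).const_mul _
    rw [mul_zero] at h1
    obtain ⟨a, ha⟩ := (h1.eventually (gt_mem_nhds (show 0 < η / 8 by positivity))).exists
    exact ⟨a, ha.le⟩
  set K : ℕ := d ^ A0 with hK
  have hK1 : 1 ≤ K := Nat.one_le_pow _ _ (by omega)
  obtain ⟨B, C, ε, hC, hε, hε1, hb⟩ := exists_coef hd hβ hF K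
  set D : ℕ := (Finset.Icc 1 K).sup (fun k => (B k).natDegree) with hD
  have hB : ∀ k ∈ Finset.Icc 1 K, (B k).natDegree ≤ D := fun k hk =>
    Finset.le_sup (f := fun k => (B k).natDegree) hk
  obtain ⟨CV, hCV0, hCV⟩ := VV_high hd hβ K D B hB
  -- choice of `δ`
  set δ : ℝ := min (min ε (1 / 2)) (η / (8 * (6 * ((A0 + 2 : ℕ) : ℝ) ^ 2 * (C ^ 2 + 1)))) with hδ
  have hδ0 : 0 < δ := lt_min (lt_min hε (by norm_num)) (by positivity)
  have hδ1 : δ ≤ ε := (min_le_left _ _).trans (min_le_left _ _)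
  have hδ2 : δ < 1 := lt_of_le_of_lt ((min_le_left _ _).trans (min_le_right _ _)) (by norm_num)
  have hδ3 : 6 * (((A0 + 2 : ℕ) : ℝ) ^ 2 * (C ^ 2 * δ)) ≤ η / 8 := by
    have h1 : δ ≤ η / (8 * (6 * ((A0 + 2 : ℕ) : ℝ) ^ 2 * (C ^ 2 + 1))) := min_le_right _ _
    rw [le_div_iff₀ (by positivity)] at h1
    have h2 : 0 ≤ ((A0 + 2 : ℕ) : ℝ) ^ 2 * δ := by positivity
    nlinarith
  obtain ⟨i1, hi1⟩ := eventually_atTop.1 (RR_low hd hβ hF hB hC hb hδ0 hδ1 hδ2)
  have hpow : Tendsto (fun i : ℕ => d ^ i) atTop atTop :=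
    (pow_right_strictMono₀ (by omega : 1 < d)).tendsto_atTop
  obtain ⟨i2, hi2⟩ := eventually_atTop.1 (hpow.eventually_ge_atTop D)
  set i0 : ℕ := max i1 i2 + 1 with hi0
  have hi0D : ∀ i, i0 ≤ i → D ≤ d ^ (i - 1) ∧ D ≤ d ^ i ∧ 1 ≤ i := by
    intro i hi
    refine ⟨hi2 (i - 1) (by omega), hi2 i (by omega), by omega⟩
  -- the sum over the high parts of `V`
  set W : ℝ := ∑ i ∈ Finset.range 1, (0 : ℝ) with hW
  obtain ⟨n0, hn0⟩ : ∃ n0 : ℕ, i0 ≤ n0 ∧ ∀ n, n0 ≤ n →
      6 * (16 * CV) ≤ η / 8 * n ∧ 2 * (CE * i0) ≤ η / 8 * n := by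
    obtain ⟨m, hm⟩ := exists_nat_ge ((6 * (16 * CV) + 2 * (CE * i0)) / (η / 8))
    refine ⟨max m i0, le_max_right _ _, fun n hn => ?_⟩
    have h1 : (m : ℝ) ≤ n := by exact_mod_cast (le_max_left _ _).trans hn
    have h2 := hm.trans h1
    rw [div_le_iff₀ (by positivity)] at h2
    have h3 : 0 ≤ 2 * (CE * i0) := by positivity
    have h4 : 0 ≤ 6 * (16 * CV) := by positivity
    constructor <;> linarith
  refine ⟨K, D, B, i0, n0, hK1, hB, (hi0D i0 le_rfl).2.1, hn0.1, ?_⟩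
  intro n hn r hr hr1
  obtain ⟨hn1, hn2⟩ := hn0.2 n hn
  have hi0n : i0 ≤ n := hn0.1.trans hn
  set I := Finset.Ico i0 n with hI
  have hIcard : (I.card : ℝ) ≤ n := by
    rw [hI, Nat.card_Ico]
    exact_mod_cast Nat.sub_le _ _
  set L : ℕ → ℕ := fun i => K * d ^ i + d ^ (i - 1) with hL
  -- the three parts
  set G1 : ℂ → ℂ := fun x => ∑ i ∈ I, lowp (L i) (RR d β F K D B i) x with hG1
  set G2 : ℂ → ℂ := fun x => ∑ i ∈ I, highp (L i) (F i) x with hG2
  set G3 : ℂ → ℂ := fun x => ∑ i ∈ I, highp (L i) (VV d β K D B i) x with hG3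
  have hlow : ∀ i, DifferentiableOn ℂ (lowp (L i) (RR d β F K D B i)) (ball 0 1) := fun i => lowp_diff _ _ _
  have hhF : ∀ i, DifferentiableOn ℂ (highp (L i) (F i)) (ball 0 1) := fun i => highp_diff _ (hF.diff i)
  have hhV : ∀ i, DifferentiableOn ℂ (highp (L i) (VV d β K D B i)) (ball 0 1) :=
    fun i => highp_diff _ (VV_diff hβ K D B i)
  have hG1d : DifferentiableOn ℂ G1 (ball 0 1) := DifferentiableOn.fun_sum fun i _ => hlow i
  have hG2d : DifferentiableOn ℂ G2 (ball 0 1) := DifferentiableOn.fun_sum fun i _ => hhF i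
  have hG3d : DifferentiableOn ℂ G3 (ball 0 1) := DifferentiableOn.fun_sum fun i _ => hhV i
  have hR : ∀ x ∈ ball (0 : ℂ) 1, ∑ i ∈ I, RR d β F K D B i x = G1 x + G2 x - G3 x := by
    intro x _
    simp only [hG1, hG2, hG3]
    rw [← Finset.sum_add_distrib, ← Finset.sum_sub_distrib]
    apply Finset.sum_congr rfl
    intro i _
    have h1 : lowp (L i) (RR d β F K D B i) x = lowp (L i) (F i) x - lowp (L i) (VV d β K D B i) x := by
      unfold lowp
      rw [← Finset.sum_sub_distrib]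
      apply Finset.sum_congr rfl
      intro m _
      have h2 : tc (RR d β F K D B i) m = tc (F i) m - tc (VV d β K D B i) m :=
        tc_sub one_pos (hF.diff i) (VV_diff hβ K D B i) m
      rw [h2]; ring
    unfold highp
    rw [h1]
    unfold RR
    ring
  -- part 1
  have hp1 : circleAverage (fun x => ‖G1 x‖ ^ 2) 0 r ≤ ((A0 + 2 : ℕ) : ℝ) ^ 2 * (C ^ 2 * δ) * n := by
    set κ : ℝ := Real.sqrt (C ^ 2 * δ) with hκ
    have hκ0 : 0 ≤ κ := Real.sqrt_nonneg _
    have hκ2 : κ ^ 2 = C ^ 2 * δ := Real.sq_sqrt (by positivity)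
    have hbn : ∀ i ∈ I, ∀ s, bn d s (lowp (L i) (RR d β F K D B i)) ≤
        if i ≤ s ∧ s ≤ i + (A0 + 1) then κ else 0 := by
      intro i hi s
      have hi' := Finset.mem_Ico.1 hi
      obtain ⟨h1, h2, h3⟩ := hi0D i hi'.1
      split_ifs with hs
      · rw [hκ]
        unfold bn
        apply Real.sqrt_le_sqrt
        refine le_trans ?_ (hi1 i (by omega))
        have h4 : ∑ m ∈ Finset.Ico (d ^ (s - 1)) (d ^ s), ‖tc (lowp (L i) (RR d β F K D B i)) m‖ ^ 2 =
            ∑ m ∈ (Finset.Ico (d ^ (s - 1)) (d ^ s)).filter (fun m => m < L i),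
              ‖tc (RR d β F K D B i) m‖ ^ 2 := by
          rw [Finset.sum_filter]
          apply Finset.sum_congr rfl
          intro m _
          rw [tc_lowp]
          split_ifs <;> simp
        rw [h4]
        apply Finset.sum_le_sum_of_subset_of_nonneg
        · intro m hm
          exact Finset.mem_range.2 (Finset.mem_filter.1 hm).2
        · intro _ _ _; positivity
      · apply le_of_eq
        unfold bn
        rw [Real.sqrt_eq_zero', Finset.sum_eq_zero]
        intro m hm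
        rw [Finset.mem_Ico] at hm
        rw [tc_lowp]
        split_ifs with hmL
        · have hms : m < d ^ i - D := by
            by_contra hcon
            apply hs
            push Not at hcon
            have h5 : d ^ (i - 1) ≤ d ^ i - D := by
              have h6 : 2 * d ^ (i - 1) ≤ d ^ i := by
                obtain ⟨j, rfl⟩ := Nat.exists_eq_add_of_le' h3
                rw [Nat.add_sub_cancel, pow_succ, mul_comm]
                exact Nat.mul_le_mul_left _ hd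
              omega
            constructor
            · have h6 : d ^ (i - 1) < d ^ s := lt_of_le_of_lt (h5.trans hcon) hm.2
              have := (Nat.pow_lt_pow_iff_right (by omega : 1 < d)).1 h6
              omega
            · have h6 : L i ≤ d ^ (i + (A0 + 1)) := by
                simp only [hL, hK]
                have h7 : d ^ (i - 1) ≤ d ^ i := Nat.pow_le_pow_right (by omega) (by omega)
                have h8 : d ^ i ≤ d ^ A0 * d ^ i := Nat.le_mul_of_pos_left _ (by positivity)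
                have h9 : d ^ (i + (A0 + 1)) = d * (d ^ A0 * d ^ i) := by
                  rw [pow_add, pow_succ]; ring
                rw [h9]
                nlinarith
              have h7 : d ^ (s - 1) < d ^ (i + (A0 + 1)) := lt_of_le_of_lt hm.1 (lt_of_lt_of_le hmL h6)
              have := (Nat.pow_lt_pow_iff_right (by omega : 1 < d)).1 h7
              omega
          rw [tc_RR_zero hd hβ hF hms]
          simp
        · simp
    apply en_le hd hG1d _ _ hr hr1
    · simp only [hG1]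
      apply Finset.sum_eq_zero
      intro i hi
      have hi' := Finset.mem_Ico.1 hi
      obtain ⟨h1, h2, h3⟩ := hi0D i hi'.1
      rw [← tc_zero (lowp (L i) (RR d β F K D B i)), tc_lowp]
      split_ifs
      · apply tc_RR_zero hd hβ hF
        have h6 : 2 * d ^ (i - 1) ≤ d ^ i := by
          obtain ⟨j, rfl⟩ := Nat.exists_eq_add_of_le' h3
          rw [Nat.add_sub_cancel, pow_succ, mul_comm]
          exact Nat.mul_le_mul_left _ hd
        have h7 : 1 ≤ d ^ (i - 1) := Nat.one_le_pow _ _ (by omega)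
        omega
      · rfl
    · intro n'
      have h1 : ∀ s ∈ Finset.range n', bn d s G1 ^ 2 ≤
          ((A0 + 2 : ℕ) : ℝ) * κ * ∑ i ∈ I, (if i ≤ s ∧ s ≤ i + (A0 + 1) then κ else 0) := by
        intro s _
        have h2 : bn d s G1 ≤ ∑ i ∈ I, (if i ≤ s ∧ s ≤ i + (A0 + 1) then κ else 0) :=
          (bn_sum I (fun i _ => hlow i) s).trans (Finset.sum_le_sum fun i hi => hbn i hi s)
        have h3 : ∑ i ∈ I, (if i ≤ s ∧ s ≤ i + (A0 + 1) then κ else 0) ≤ ((A0 + 2 : ℕ) : ℝ) * κ := by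
          rw [← Finset.sum_filter, Finset.sum_const, nsmul_eq_mul]
          apply mul_le_mul_of_nonneg_right _ hκ0
          have h4 : (I.filter (fun i => i ≤ s ∧ s ≤ i + (A0 + 1))) ⊆ Finset.Icc (s - (A0 + 1)) s := by
            intro i hi
            have := (Finset.mem_filter.1 hi).2
            rw [Finset.mem_Icc]
            omega
          have h5 := Finset.card_le_card h4
          rw [Nat.card_Icc] at h5
          exact_mod_cast h5.trans (by omega)
        have h4 := bn_nonneg d s G1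
        have h5 : 0 ≤ ∑ i ∈ I, (if i ≤ s ∧ s ≤ i + (A0 + 1) then κ else 0) := h4.trans h2
        nlinarith
      refine (Finset.sum_le_sum h1).trans ?_
      rw [← Finset.mul_sum, Finset.sum_comm]
      have h2 : ∀ i ∈ I, ∑ s ∈ Finset.range n', (if i ≤ s ∧ s ≤ i + (A0 + 1) then κ else 0) ≤
          ((A0 + 2 : ℕ) : ℝ) * κ := by
        intro i _
        rw [← Finset.sum_filter, Finset.sum_const, nsmul_eq_mul]
        apply mul_le_mul_of_nonneg_right _ hκ0
        have h4 : ((Finset.range n').filter (fun s => i ≤ s ∧ s ≤ i + (A0 + 1))) ⊆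
            Finset.Icc i (i + (A0 + 1)) := by
          intro s hs
          have := (Finset.mem_filter.1 hs).2
          rw [Finset.mem_Icc]
          omega
        have h5 := Finset.card_le_card h4
        rw [Nat.card_Icc] at h5
        exact_mod_cast h5.trans (by omega)
      have h3 := Finset.sum_le_sum h2
      rw [Finset.sum_const, nsmul_eq_mul] at h3
      calc ((A0 + 2 : ℕ) : ℝ) * κ * ∑ i ∈ I, ∑ s ∈ Finset.range n',
            (if i ≤ s ∧ s ≤ i + (A0 + 1) then κ else 0)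
          ≤ ((A0 + 2 : ℕ) : ℝ) * κ * (I.card * (((A0 + 2 : ℕ) : ℝ) * κ)) :=
            mul_le_mul_of_nonneg_left h3 (by positivity)
        _ = ((A0 + 2 : ℕ) : ℝ) ^ 2 * κ ^ 2 * I.card := by ring
        _ ≤ ((A0 + 2 : ℕ) : ℝ) ^ 2 * κ ^ 2 * n := mul_le_mul_of_nonneg_left hIcard (by positivity)
        _ = _ := by rw [hκ2]
  -- part 2
  have hp2 : circleAverage (fun x => ‖G2 x‖ ^ 2) 0 r ≤ 81 * CF ^ 2 * (81 / 100) ^ A0 * n := by
    have hbn : ∀ i ∈ I, ∀ s, bn d s (highp (L i) (F i)) ≤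
        if A0 ≤ s then CF * (9 / 10) ^ A0 * ww i (s - A0) else 0 := by
      intro i hi s
      by_cases hs : i + A0 < s
      · rw [if_pos (by omega)]
        have h1 : bn d s (highp (L i) (F i)) ≤ bn d s (F i) := by
          unfold bn
          apply Real.sqrt_le_sqrt
          apply Finset.sum_le_sum
          intro m _
          rw [tc_highp _ (hF.diff i)]
          split_ifs
          · simp
          · exact le_rfl
        refine h1.trans ((hblk i s).trans (le_of_eq ?_))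
        unfold ww
        rw [if_pos (by omega), if_pos (by omega), mul_assoc, ← pow_add]
        congr 2
        omega
      · have h0 : bn d s (highp (L i) (F i)) = 0 := by
          unfold bn
          rw [Real.sqrt_eq_zero', Finset.sum_eq_zero]
          intro m hm
          rw [Finset.mem_Ico] at hm
          rw [tc_highp _ (hF.diff i), if_pos]
          · simp
          · have h1 : d ^ s ≤ d ^ (i + A0) := Nat.pow_le_pow_right (by omega) (by omega)
            have h2 : d ^ (i + A0) = K * d ^ i := by rw [hK, pow_add, mul_comm]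
            simp only [hL]
            omega
        rw [h0]
        split_ifs
        · exact mul_nonneg (by positivity) (ww_nonneg _ _)
        · exact le_rfl
    have hrw : 81 * CF ^ 2 * (81 / 100) ^ A0 * (n : ℝ) = (CF * (9 / 10) ^ A0) ^ 2 * (81 * n) := by
      rw [mul_pow, ← pow_mul, mul_comm A0 2, pow_mul]
      norm_num
      ring
    rw [hrw]
    apply en_le hd hG2d _ _ hr hr1
    · simp only [hG2]
      apply Finset.sum_eq_zero
      intro i hi
      rw [← tc_zero (highp (L i) (F i)), tc_highp _ (hF.diff i), tc_zero, hF.zero]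
      simp
    · intro n'
      have h1 : ∀ s ∈ Finset.range n', bn d s G2 ^ 2 ≤
          if A0 ≤ s then (CF * (9 / 10) ^ A0) ^ 2 * (∑ i ∈ I, ww i (s - A0)) ^ 2 else 0 := by
        intro s _
        have h2 : bn d s G2 ≤ ∑ i ∈ I, (if A0 ≤ s then CF * (9 / 10) ^ A0 * ww i (s - A0) else 0) :=
          (bn_sum I (fun i _ => hhF i) s).trans (Finset.sum_le_sum fun i hi => hbn i hi s)
        have h3 := bn_nonneg d s G2
        split_ifs with hs
        · simp only [if_pos hs] at h2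
          rw [← Finset.mul_sum] at h2
          rw [← mul_pow]
          exact pow_le_pow_left₀ h3 h2 2
        · simp only [if_neg hs, Finset.sum_const_zero] at h2
          have : bn d s G2 = 0 := le_antisymm h2 h3
          rw [this]; norm_num
      refine (Finset.sum_le_sum h1).trans ?_
      rw [← Finset.sum_filter, ← Finset.mul_sum]
      apply mul_le_mul_of_nonneg_left _ (by positivity)
      have h2 : ∑ s ∈ (Finset.range n').filter (fun s => A0 ≤ s), (∑ i ∈ I, ww i (s - A0)) ^ 2 =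
          ∑ s' ∈ ((Finset.range n').filter (fun s => A0 ≤ s)).image (fun s => s - A0),
            (∑ i ∈ I, ww i s') ^ 2 := by
        rw [Finset.sum_image]
        intro a ha b hb hab
        have ha' := (Finset.mem_filter.1 ha).2
        have hb' := (Finset.mem_filter.1 hb).2
        simp only at hab
        omega
      rw [h2]
      have h3 : ∑ s' ∈ ((Finset.range n').filter (fun s => A0 ≤ s)).image (fun s => s - A0),
          (∑ i ∈ I, ww i s') ^ 2 ≤ ∑ s' ∈ Finset.range n', (∑ i ∈ I, ww i s') ^ 2 := by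
        apply Finset.sum_le_sum_of_subset_of_nonneg
        · intro a ha
          obtain ⟨s, hs, rfl⟩ := Finset.mem_image.1 ha
          have := Finset.mem_range.1 (Finset.mem_filter.1 hs).1
          exact Finset.mem_range.2 (by omega)
        · intro _ _ _; positivity
      refine h3.trans ((schur I n').trans ?_)
      linarith
  -- part 3
  have hp3 : circleAverage (fun x => ‖G3 x‖ ^ 2) 0 r ≤ 16 * CV := by
    have hi3 : ∀ i ∈ I, circleAverage (fun x => ‖highp (L i) (VV d β K D B i) x‖ ^ 2) 0 r ≤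
        CV / (d : ℝ) ^ i := by
      intro i hi
      have hi' := Finset.mem_Ico.1 hi
      obtain ⟨h1, h2, h3⟩ := hi0D i hi'.1
      exact av_le_of_sum (hhV i) (hCV i h3 h2) hr hr1
    set q : ℕ → ℝ := fun i => (7 / 10 : ℝ) ^ i with hq
    have hq0 : ∀ i, 0 < q i := fun i => by positivity
    have hqs : ∑ i ∈ I, q i ≤ 4 := by
      have h1 : ∑ i ∈ I, q i ≤ ∑ i ∈ Finset.range n, q i := by
        apply Finset.sum_le_sum_of_subset_of_nonneg
        · intro i hi
          exact Finset.mem_range.2 (Finset.mem_Ico.1 hi).2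
        · intro i _ _; exact (hq0 i).le
      refine h1.trans ?_
      simp only [hq]
      rw [geom_sum_eq (by norm_num)]
      have : (0 : ℝ) ≤ (7 / 10) ^ n := by positivity
      rw [div_le_iff_of_neg (by norm_num)]
      linarith
    have hci : ∀ i ∈ I, CircleIntegrable (fun x => (q i)⁻¹ * ‖highp (L i) (VV d β K D B i) x‖ ^ 2) 0 r :=
      fun i _ => ci_of_diff hr hr1 (continuousOn_const.mul ((hhV i).continuousOn.norm.pow 2))
    have h1 : circleAverage (fun x => ‖G3 x‖ ^ 2) 0 r ≤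
        circleAverage (fun x => 4 * ∑ i ∈ I, (q i)⁻¹ * ‖highp (L i) (VV d β K D B i) x‖ ^ 2) 0 r := by
      apply Real.circleAverage_mono
      · exact ci_of_diff hr hr1 (hG3d.continuousOn.norm.pow 2)
      · exact ci_of_diff hr hr1 (continuousOn_const.mul (continuousOn_finsetSum _ fun i _ =>
          continuousOn_const.mul ((hhV i).continuousOn.norm.pow 2)))
      · intro x _
        have h2 : ‖G3 x‖ ≤ ∑ i ∈ I, ‖highp (L i) (VV d β K D B i) x‖ := norm_sum_le _ _
        have h3 := Finset.sum_sq_le_sum_mul_sum_of_sq_le_mul I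
          (r := fun i => ‖highp (L i) (VV d β K D B i) x‖) (f := q)
          (g := fun i => (q i)⁻¹ * ‖highp (L i) (VV d β K D B i) x‖ ^ 2)
          (fun i _ => (hq0 i).le) (fun i _ => by have := hq0 i; positivity)
          (fun i _ => by
            have := (hq0 i).ne'
            rw [← mul_assoc, mul_inv_cancel₀ this, one_mul])
        have h4 : 0 ≤ ∑ i ∈ I, (q i)⁻¹ * ‖highp (L i) (VV d β K D B i) x‖ ^ 2 :=
          Finset.sum_nonneg fun i _ => by have := hq0 i; positivity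
        calc ‖G3 x‖ ^ 2 ≤ (∑ i ∈ I, ‖highp (L i) (VV d β K D B i) x‖) ^ 2 :=
              pow_le_pow_left₀ (norm_nonneg _) h2 2
          _ ≤ _ := h3
          _ ≤ _ := mul_le_mul_of_nonneg_right hqs h4
    refine h1.trans ?_
    have h2 : (fun x => 4 * ∑ i ∈ I, (q i)⁻¹ * ‖highp (L i) (VV d β K D B i) x‖ ^ 2) =
        (4 : ℝ) • (fun x => ∑ i ∈ I, (q i)⁻¹ * ‖highp (L i) (VV d β K D B i) x‖ ^ 2) := by
      funext x; simp
    rw [h2, Real.circleAverage_smul, smul_eq_mul, Real.circleAverage_fun_sum hci]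
    have h3 : ∀ i ∈ I, circleAverage (fun x => (q i)⁻¹ * ‖highp (L i) (VV d β K D B i) x‖ ^ 2) 0 r ≤
        CV * (5 / 7) ^ i := by
      intro i hi
      have h4 : (fun x => (q i)⁻¹ * ‖highp (L i) (VV d β K D B i) x‖ ^ 2) =
          (q i)⁻¹ • (fun x => ‖highp (L i) (VV d β K D B i) x‖ ^ 2) := by
        funext x; simp
      rw [h4, Real.circleAverage_smul, smul_eq_mul]
      have hd2 : (2 : ℝ) ≤ d := by exact_mod_cast hd
      calc (q i)⁻¹ * circleAverage (fun x => ‖highp (L i) (VV d β K D B i) x‖ ^ 2) 0 r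
          ≤ (q i)⁻¹ * (CV / (d : ℝ) ^ i) := mul_le_mul_of_nonneg_left (hi3 i hi) (inv_nonneg.2 (hq0 i).le)
        _ ≤ (q i)⁻¹ * (CV / 2 ^ i) := by
            apply mul_le_mul_of_nonneg_left _ (inv_nonneg.2 (hq0 i).le)
            apply div_le_div_of_nonneg_left hCV0.le (by positivity)
            exact pow_le_pow_left₀ (by norm_num) hd2 i
        _ = CV * (5 / 7) ^ i := by
            have e1 : (q i)⁻¹ = (10 / 7 : ℝ) ^ i := by
              simp only [hq]
              rw [← inv_pow]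
              norm_num
            have e2 : CV / (2 : ℝ) ^ i = CV * (1 / 2 : ℝ) ^ i := by
              rw [one_div_pow]; ring
            rw [e1, e2, mul_left_comm, ← mul_pow]
            norm_num
    have h4 := Finset.sum_le_sum h3
    rw [← Finset.mul_sum] at h4
    have h5 : ∑ i ∈ I, (5 / 7 : ℝ) ^ i ≤ 4 := by
      have h6 : ∑ i ∈ I, (5 / 7 : ℝ) ^ i ≤ ∑ i ∈ Finset.range n, (5 / 7 : ℝ) ^ i := by
        apply Finset.sum_le_sum_of_subset_of_nonneg
        · intro i hi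
          exact Finset.mem_range.2 (Finset.mem_Ico.1 hi).2
        · intro i _ _; positivity
      refine h6.trans ?_
      rw [geom_sum_eq (by norm_num)]
      have : (0 : ℝ) ≤ (5 / 7) ^ n := by positivity
      rw [div_le_iff_of_neg (by norm_num)]
      linarith
    nlinarith
  -- combination
  have hinit : circleAverage (fun x => ‖SS F i0 x‖ ^ 2) 0 r ≤ CE * i0 := by
    have := hen (Finset.range i0) r hr hr1
    rwa [Finset.card_range] at this
  have c0 : CircleIntegrable (fun x => ‖SS F i0 x‖ ^ 2) 0 r :=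
    ci_of_diff hr hr1 ((SS_diff hF i0).continuousOn.norm.pow 2)
  have c1 : CircleIntegrable (fun x => ‖G1 x‖ ^ 2) 0 r := ci_of_diff hr hr1 (hG1d.continuousOn.norm.pow 2)
  have c2 : CircleIntegrable (fun x => ‖G2 x‖ ^ 2) 0 r := ci_of_diff hr hr1 (hG2d.continuousOn.norm.pow 2)
  have c3 : CircleIntegrable (fun x => ‖G3 x‖ ^ 2) 0 r := ci_of_diff hr hr1 (hG3d.continuousOn.norm.pow 2)
  have hSV : DifferentiableOn ℂ (fun x => SS F n x - ∑ i ∈ I, VV d β K D B i x) (ball 0 1) :=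
    (SS_diff hF n).sub (DifferentiableOn.fun_sum fun i _ => VV_diff hβ K D B i)
  have hfin : circleAverage (fun x => ‖SS F n x - ∑ i ∈ I, VV d β K D B i x‖ ^ 2) 0 r ≤
      circleAverage ((2 : ℝ) • (fun x => ‖SS F i0 x‖ ^ 2) + ((6 : ℝ) • (fun x => ‖G1 x‖ ^ 2) +
        ((6 : ℝ) • (fun x => ‖G2 x‖ ^ 2) + (6 : ℝ) • (fun x => ‖G3 x‖ ^ 2)))) 0 r := by
    apply Real.circleAverage_mono
    · exact ci_of_diff hr hr1 (hSV.continuousOn.norm.pow 2)
    · exact c0.const_smul.add (c1.const_smul.add (c2.const_smul.add c3.const_smul))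
    · intro x hx
      rw [mem_sphere_zero_iff_norm, abs_of_pos hr] at hx
      have hxb : x ∈ ball (0 : ℂ) 1 := by rw [mem_ball_zero_iff, hx]; exact hr1
      have h1 : SS F n x - ∑ i ∈ I, VV d β K D B i x = SS F i0 x + (G1 x + G2 x - G3 x) := by
        rw [← hR x hxb]
        have h2 : SS F n x = SS F i0 x + ∑ i ∈ I, F i x := by
          unfold SS
          rw [hI, Finset.range_eq_Ico, Finset.range_eq_Ico,
            Finset.sum_Ico_consecutive _ (Nat.zero_le _) hi0n]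
        rw [h2]
        unfold RR
        rw [Finset.sum_sub_distrib]
        ring
      rw [h1]
      simp only [Pi.add_apply, Pi.smul_apply, smul_eq_mul]
      have h2 := norm_add_le (SS F i0 x) (G1 x + G2 x - G3 x)
      have h3 : ‖G1 x + G2 x - G3 x‖ ≤ ‖G1 x‖ + ‖G2 x‖ + ‖G3 x‖ :=
        (norm_sub_le _ _).trans (add_le_add_left (norm_add_le _ _) _)
      have n0 := norm_nonneg (SS F i0 x)
      have n1 := norm_nonneg (G1 x)
      have n2 := norm_nonneg (G2 x)
      have n3 := norm_nonneg (G3 x)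
      have h4 : ‖SS F i0 x + (G1 x + G2 x - G3 x)‖ ^ 2 ≤
          (‖SS F i0 x‖ + (‖G1 x‖ + ‖G2 x‖ + ‖G3 x‖)) ^ 2 :=
        pow_le_pow_left₀ (norm_nonneg _) (by linarith) 2
      nlinarith [sq_nonneg (‖SS F i0 x‖ - (‖G1 x‖ + ‖G2 x‖ + ‖G3 x‖)), sq_nonneg (‖G1 x‖ - ‖G2 x‖),
        sq_nonneg (‖G2 x‖ - ‖G3 x‖), sq_nonneg (‖G1 x‖ - ‖G3 x‖)]
  refine hfin.trans ?_
  rw [Real.circleAverage_add c0.const_smul (c1.const_smul.add (c2.const_smul.add c3.const_smul)),
    Real.circleAverage_add c1.const_smul (c2.const_smul.add c3.const_smul),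
    Real.circleAverage_add c2.const_smul c3.const_smul, Real.circleAverage_smul,
    Real.circleAverage_smul, Real.circleAverage_smul, Real.circleAverage_smul]
  simp only [smul_eq_mul]
  have hn' : (0 : ℝ) ≤ n := Nat.cast_nonneg n
  have e1 : 6 * (((A0 + 2 : ℕ) : ℝ) ^ 2 * (C ^ 2 * δ) * n) ≤ η / 8 * n := by
    have := mul_le_mul_of_nonneg_right hδ3 hn'
    linarith
  have e2 : 6 * (81 * CF ^ 2 * (81 / 100) ^ A0 * n) ≤ η / 8 * n := by
    have := mul_le_mul_of_nonneg_right hA0 hn'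
    linarith
  nlinarith

end Pool.Agent.H439.MC
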