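import Mathlib
import Pool.Agent.H439.MC.Rem2
import Pool.Agent.H439.MC.Mix2

/-!
# From the sums of the logarithms to lacunary sums with continuous coefficients
-/

set_option autoImplicit false

namespace Pool.Agent.H439.MC

open Complex Set Topology Filter Metric MeasureTheory N62a1eb23 Pool.Agent.H712R2
  Pool.Agent.H713R2 Pool.Agent.TH653.MB
open Pool.Agent.TH907.ML (hom hom_diff hom_eval hom_norm nb nb_nonneg)
open Real (circleAverage)

variable {d : ℕ} {β : ℂ → ℂ}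

theorem circleAverage_eq_Pm (f : ℂ → ℝ) (r : ℝ) :
    circleAverage f 0 r = ∫ θ, f (circleMap 0 r θ) ∂Pm := by
  rw [integral_Pm]
  rfl

theorem circleMap_pow (r θ : ℝ) (m : ℕ) : (circleMap 0 r θ) ^ m = ((r ^ m : ℝ) : ℂ) * ex m θ := by
  unfold circleMap ex
  rw [zero_add, mul_pow, ← Complex.exp_nat_mul]
  push_cast
  congr 2
  ring

theorem circleMap_mem {r : ℝ} (hr : 0 < r) (hr1 : r < 1) (θ : ℝ) : circleMap 0 r θ ∈ ball (0 : ℂ) 1 := by
  rw [mem_ball_zero_iff, norm_circleMap_zero, abs_of_pos hr]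
  exact hr1

theorem comp_cont {u : ℂ → ℂ} (hu : DifferentiableOn ℂ u (ball 0 1)) {r : ℝ} (hr : 0 < r) (hr1 : r < 1) :
    Continuous fun θ => u (circleMap 0 r θ) :=
  hu.continuousOn.comp_continuous (continuous_circleMap 0 r) (circleMap_mem hr hr1)

/-- mean square continuity up to the boundary -/
theorem scale_close {u : ℂ → ℂ} (hu : DifferentiableOn ℂ u (ball 0 1)) {C : ℝ}
    (hC : ∀ x ∈ ball (0 : ℂ) 1, ‖u x‖ ≤ C) {δ : ℝ} (hδ : 0 < δ) :
    ∀ᶠ r in 𝓝[<] (1 : ℝ), ∀ ρ, r ≤ ρ → ρ < 1 →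
      ∫ θ, ‖u (circleMap 0 ρ θ) - u (circleMap 0 r θ)‖ ^ 2 ∂Pm ≤ δ := by
  have hC0 : 0 ≤ C := (norm_nonneg _).trans (hC 0 (by simp))
  -- summability
  have hsum : Summable fun m : ℕ => ‖tc u m‖ ^ 2 := by
    apply summable_of_sum_range_le (c := C ^ 2) (fun _ => by positivity)
    intro n
    have h1 : ∀ᶠ ρ in 𝓝[<] (1 : ℝ), ∑ m ∈ Finset.range n, ‖tc u m‖ ^ 2 * ρ ^ (2 * m) ≤ C ^ 2 := by
      filter_upwards [self_mem_nhdsWithin, nhdsWithin_le_nhds (lt_mem_nhds (zero_lt_one (α := ℝ)))] with ρ h1 h0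
      refine (sum_le_hasSum (Finset.range n) (fun k _ => by positivity) (hasSum_sq_tc h0 h1 hu)).trans ?_
      have h2 := Real.circleAverage_mono (c := 0) (R := ρ)
        (ci_of_diff h0 h1 (hu.continuousOn.norm.pow 2)) (circleIntegrable_const (C ^ 2) _ _)
        (fun x hx => by
          rw [mem_sphere_zero_iff_norm, abs_of_pos h0] at hx
          exact pow_le_pow_left₀ (norm_nonneg _) (hC x (by rw [mem_ball_zero_iff, hx]; exact h1)) 2)
      rwa [Real.circleAverage_const] at h2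
    have h2 : Tendsto (fun ρ : ℝ => ∑ m ∈ Finset.range n, ‖tc u m‖ ^ 2 * ρ ^ (2 * m)) (𝓝[<] 1)
        (𝓝 (∑ m ∈ Finset.range n, ‖tc u m‖ ^ 2)) := by
      have hc : Continuous fun ρ : ℝ => ∑ m ∈ Finset.range n, ‖tc u m‖ ^ 2 * ρ ^ (2 * m) := by fun_prop
      have h3 := hc.tendsto 1
      simp only [one_pow, mul_one] at h3
      exact h3.mono_left nhdsWithin_le_nhds
    exact le_of_tendsto h2 h1
  -- the limit of the sums
  have hlim : Tendsto (fun r : ℝ => ∑' m, ‖tc u m‖ ^ 2 * (1 - r ^ m) ^ 2) (𝓝[<] 1) (𝓝 0) := by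
    have h0 : (0 : ℝ) = ∑' m : ℕ, (0 : ℝ) := by simp
    rw [h0]
    apply tendsto_tsum_of_dominated_convergence hsum
    · intro m
      have hc : Continuous fun r : ℝ => ‖tc u m‖ ^ 2 * (1 - r ^ m) ^ 2 := by fun_prop
      have h3 := hc.tendsto 1
      simp only [one_pow, sub_self, ne_eq, OfNat.ofNat_ne_zero, not_false_eq_true, zero_pow, mul_zero] at h3
      exact h3.mono_left nhdsWithin_le_nhds
    · filter_upwards [self_mem_nhdsWithin, nhdsWithin_le_nhds (lt_mem_nhds (zero_lt_one (α := ℝ)))] with r h1 h0 m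
      rw [Real.norm_of_nonneg (by positivity)]
      apply mul_le_of_le_one_right (by positivity)
      have h2 : 0 ≤ r ^ m := by positivity
      have h3 : r ^ m ≤ 1 := pow_le_one₀ h0.le h1.le
      apply pow_le_one₀ <;> linarith
  filter_upwards [hlim.eventually (gt_mem_nhds hδ), self_mem_nhdsWithin,
    nhdsWithin_le_nhds (lt_mem_nhds (zero_lt_one (α := ℝ)))] with r hr hr1 hr0 ρ hrρ hρ1
  have hρ0 : 0 < ρ := lt_of_lt_of_le hr0 hrρ
  set s : ℝ := r / ρ with hs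
  have hs0 : 0 < s := by positivity
  have hs1 : s ≤ 1 := by rw [hs, div_le_one hρ0]; exact hrρ
  have hmaps : MapsTo (fun x : ℂ => (s : ℂ) * x) (ball 0 1) (ball 0 1) := by
    intro x hx
    rw [mem_ball_zero_iff] at hx ⊢
    rw [norm_mul, Complex.norm_real, Real.norm_of_nonneg hs0.le]
    calc s * ‖x‖ ≤ 1 * ‖x‖ := mul_le_mul_of_nonneg_right hs1 (norm_nonneg _)
      _ < 1 := by rw [one_mul]; exact hx
  have hg : DifferentiableOn ℂ (fun x => u x - u ((s : ℂ) * x)) (ball 0 1) :=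
    hu.sub (hu.comp (by fun_prop) hmaps)
  have htc : (fun m => tc u m * (1 - (s : ℂ) ^ m)) = tc (fun x => u x - u ((s : ℂ) * x)) := by
    apply tc_unique one_pos hg
    filter_upwards [ball_mem_nhds (0 : ℂ) one_pos] with x hx
    have e1 := hasSum_tc hu hx
    have e2 := hasSum_tc hu (hmaps hx)
    have e3 := e1.sub e2
    refine e3.congr_fun ?_ |> fun h => h
    intro m
    simp only
    rw [mul_pow]
    ring
  have hP := hasSum_sq_tc hρ0 hρ1 hg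
  rw [circleAverage_eq_Pm] at hP
  have h1 : ∀ θ, ‖(fun x => u x - u ((s : ℂ) * x)) (circleMap 0 ρ θ)‖ ^ 2 =
      ‖u (circleMap 0 ρ θ) - u (circleMap 0 r θ)‖ ^ 2 := by
    intro θ
    have : (s : ℂ) * circleMap 0 ρ θ = circleMap 0 r θ := by
      unfold circleMap
      rw [zero_add, zero_add, ← mul_assoc, ← Complex.ofReal_mul]
      congr 2
      rw [hs]; field_simp
    simp only [this]
  simp only [h1] at hP
  have hsum2 : Summable fun m : ℕ => ‖tc u m‖ ^ 2 * (1 - r ^ m) ^ 2 := by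
    apply Summable.of_nonneg_of_le (fun _ => by positivity) _ hsum
    intro m
    apply mul_le_of_le_one_right (by positivity)
    have h2 : 0 ≤ r ^ m := by positivity
    have h3 : r ^ m ≤ 1 := pow_le_one₀ hr0.le hr1.le
    apply pow_le_one₀ <;> linarith
  refine (hasSum_le (fun m => ?_) hP hsum2.hasSum).trans hr.le
  rw [← htc]
  simp only
  rw [norm_mul, mul_pow, mul_assoc]
  apply mul_le_mul_of_nonneg_left _ (by positivity)
  have h2 : ‖1 - (s : ℂ) ^ m‖ = 1 - s ^ m := by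
    rw [← Complex.ofReal_pow, ← Complex.ofReal_one, ← Complex.ofReal_sub, Complex.norm_real,
      Real.norm_of_nonneg (sub_nonneg.2 (pow_le_one₀ hs0.le hs1))]
  rw [h2, pow_mul', ← mul_pow]
  apply pow_le_pow_left₀ (mul_nonneg (sub_nonneg.2 (pow_le_one₀ hs0.le hs1)) (by positivity))
  have h3 : (1 - s ^ m) * ρ ^ m = ρ ^ m - r ^ m := by
    rw [hs, div_pow]
    have : ρ ^ m ≠ 0 := by positivity
    field_simp
  rw [h3]
  linarith [pow_le_one₀ hρ0.le hρ1.le (n := m)]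

/-- the coefficient functions -/
noncomputable def bK (β : ℂ → ℂ) (B : ℕ → Polynomial ℂ) (K : ℕ) (r : ℝ) (k : ℕ) (θ : ℝ) : ℂ :=
  if k ∈ Finset.Icc 1 K then (B k).eval ((circleMap 0 r θ)⁻¹ * β (circleMap 0 r θ)) else 0

theorem circleMap_ne {r : ℝ} (hr : 0 < r) (θ : ℝ) : circleMap 0 r θ ≠ 0 := by
  intro h
  have := norm_circleMap_zero r θ
  rw [h, norm_zero, abs_of_pos hr] at this
  linarith

theorem bK_hom {B : ℕ → Polynomial ℂ} {K D : ℕ} (hB : ∀ k ∈ Finset.Icc 1 K, (B k).natDegree ≤ D)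
    {r : ℝ} (hr : 0 < r) {k : ℕ} (hk : k ∈ Finset.Icc 1 K) (θ : ℝ) :
    bK β B K r k θ = (((r ^ D)⁻¹ : ℝ) : ℂ) * ex (-D) θ * hom β (B k) D (circleMap 0 r θ) := by
  unfold bK
  rw [if_pos hk, hom_eval _ (hB k hk) (circleMap_ne hr θ), circleMap_pow, ← mul_assoc]
  have h1 : ex (-D) θ * ex D θ = 1 := by rw [← ex_add]; simp [ex_zero]
  have h2 : (((r ^ D)⁻¹ : ℝ) : ℂ) * ((r ^ D : ℝ) : ℂ) = 1 := by
    rw [← Complex.ofReal_mul, inv_mul_cancel₀ (by positivity), Complex.ofReal_one]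
  have h3 : (((r ^ D)⁻¹ : ℝ) : ℂ) * ex (-D) θ * (((r ^ D : ℝ) : ℂ) * ex D θ) = 1 := by
    calc _ = ((((r ^ D)⁻¹ : ℝ) : ℂ) * ((r ^ D : ℝ) : ℂ)) * (ex (-D) θ * ex D θ) := by ring
      _ = 1 := by rw [h1, h2, one_mul]
  rw [h3, one_mul]

theorem bK_cont (hβ : IsBeta d β) (B : ℕ → Polynomial ℂ) (K : ℕ) {r : ℝ} (hr : 0 < r) (hr1 : r < 1)
    (k : ℕ) : Continuous (bK β B K r k) := by
  unfold bK
  split_ifs
  · have h1 := comp_cont hβ.diff hr hr1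
    have h2 : Continuous fun θ => (circleMap 0 r θ)⁻¹ :=
      (continuous_circleMap 0 r).inv₀ (circleMap_ne hr)
    exact (B k).continuous.comp (h2.mul h1)
  · exact continuous_const

theorem bK_bound (hβ : IsBeta d β) {B : ℕ → Polynomial ℂ} {K D : ℕ}
    (hB : ∀ k ∈ Finset.Icc 1 K, (B k).natDegree ≤ D) :
    ∃ Bd : ℝ, 0 < Bd ∧ ∀ r : ℝ, 1 / 2 ≤ r → r < 1 → ∀ k θ, ‖bK β B K r k θ‖ ≤ Bd := by
  refine ⟨2 ^ D * ∑ k ∈ Finset.Icc 1 K, nb (B k) D + 1, ?_, ?_⟩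
  · have : 0 ≤ ∑ k ∈ Finset.Icc 1 K, nb (B k) D := Finset.sum_nonneg fun k _ => nb_nonneg _ _
    positivity
  intro r hr hr1 k θ
  have hr0 : 0 < r := by linarith
  have h0 : 0 ≤ ∑ k ∈ Finset.Icc 1 K, nb (B k) D := Finset.sum_nonneg fun k _ => nb_nonneg _ _
  by_cases hk : k ∈ Finset.Icc 1 K
  · rw [bK_hom hB hr0 hk, norm_mul, norm_mul, norm_ex, mul_one, Complex.norm_real,
      Real.norm_of_nonneg (by positivity)]
    have h1 := hom_norm hβ (B k) D (circleMap_mem hr0 hr1 θ)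
    have h2 : (r ^ D)⁻¹ ≤ 2 ^ D := by
      rw [← inv_pow]
      apply pow_le_pow_left₀ (by positivity)
      rw [inv_le_comm₀ hr0 two_pos]
      linarith
    have h3 : nb (B k) D ≤ ∑ k ∈ Finset.Icc 1 K, nb (B k) D :=
      Finset.single_le_sum (f := fun k => nb (B k) D) (fun k _ => nb_nonneg _ _) hk
    calc (r ^ D)⁻¹ * ‖hom β (B k) D (circleMap 0 r θ)‖ ≤ 2 ^ D * ∑ k ∈ Finset.Icc 1 K, nb (B k) D :=
          mul_le_mul h2 (h1.trans h3) (norm_nonneg _) (by positivity)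
      _ ≤ _ := by linarith
  · unfold bK
    rw [if_neg hk, norm_zero]
    positivity

/-- mean square continuity of the coefficient functions -/
theorem bK_close (hβ : IsBeta d β) {B : ℕ → Polynomial ℂ} {K D : ℕ}
    (hB : ∀ k ∈ Finset.Icc 1 K, (B k).natDegree ≤ D) {δ : ℝ} (hδ : 0 < δ) :
    ∃ r : ℝ, 1 / 2 ≤ r ∧ r < 1 ∧ ∀ ρ, r ≤ ρ → ρ < 1 → ∀ k,
      ∫ θ, ‖bK β B K ρ k θ - bK β B K r k θ‖ ^ 2 ∂Pm ≤ δ := by
  have h : ∀ k ∈ Finset.Icc 1 K, ∀ᶠ r in 𝓝[<] (1 : ℝ), ∀ ρ, r ≤ ρ → ρ < 1 →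
      ∫ θ, ‖bK β B K ρ k θ - bK β B K r k θ‖ ^ 2 ∂Pm ≤ δ := by
    intro k hk
    set u : ℂ → ℂ := hom β (B k) D with hu
    have hud : DifferentiableOn ℂ u (ball 0 1) := hom_diff hβ _ _
    set C : ℝ := nb (B k) D with hC
    have hC0 : 0 ≤ C := nb_nonneg _ _
    have hub : ∀ x ∈ ball (0 : ℂ) 1, ‖u x‖ ≤ C := fun x hx => hom_norm hβ (B k) D hx
    have h1 := scale_close hud hub (δ := δ / (4 * (2 ^ D) ^ 2)) (by positivity)
    have h2 : ∀ᶠ r in 𝓝[<] (1 : ℝ), 2 * (((r ^ D)⁻¹ - 1) * C) ^ 2 < δ / 2 := by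
      have hc : Tendsto (fun r : ℝ => 2 * (((r ^ D)⁻¹ - 1) * C) ^ 2) (𝓝[<] 1) (𝓝 (2 * (((1 ^ D)⁻¹ - 1) * C) ^ 2)) := by
        have hc0 : ContinuousAt (fun r : ℝ => 2 * (((r ^ D)⁻¹ - 1) * C) ^ 2) 1 := by
          have : ContinuousAt (fun r : ℝ => (r ^ D)⁻¹) 1 :=
            (continuous_pow D).continuousAt.inv₀ (by simp)
          fun_prop
        exact hc0.tendsto.mono_left nhdsWithin_le_nhds
      have e0 : 2 * ((((1 : ℝ) ^ D)⁻¹ - 1) * C) ^ 2 = 0 := by simp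
      rw [e0] at hc
      exact hc.eventually (gt_mem_nhds (by positivity))
    filter_upwards [h1, h2, self_mem_nhdsWithin,
      nhdsWithin_le_nhds (lt_mem_nhds (by norm_num : (1 / 2 : ℝ) < 1))] with r h3 h4 hr1 hr2 ρ hρ hρ1
    have hr0 : 0 < r := by linarith
    have hρ0 : 0 < ρ := lt_of_lt_of_le hr0 hρ
    have hr1' : r < 1 := hr1
    have hrD : (r ^ D)⁻¹ ≤ 2 ^ D := by
      rw [← inv_pow]
      apply pow_le_pow_left₀ (by positivity)
      rw [inv_le_comm₀ hr0 two_pos]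
      linarith
    have hρr : (ρ ^ D)⁻¹ ≤ (r ^ D)⁻¹ := by
      apply inv_anti₀ (by positivity)
      exact pow_le_pow_left₀ hr0.le hρ D
    have hρ1' : 1 ≤ (ρ ^ D)⁻¹ := by
      rw [one_le_inv₀ (by positivity)]
      exact pow_le_one₀ hρ0.le hρ1.le
    have hpt : ∀ θ, ‖bK β B K ρ k θ - bK β B K r k θ‖ ^ 2 ≤
        2 * (2 ^ D) ^ 2 * ‖u (circleMap 0 ρ θ) - u (circleMap 0 r θ)‖ ^ 2 + 2 * (((r ^ D)⁻¹ - 1) * C) ^ 2 := by
      intro θ
      have e1 : bK β B K ρ k θ - bK β B K r k θ = ex (-D) θ * ((((ρ ^ D)⁻¹ : ℝ) : ℂ) *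
          (u (circleMap 0 ρ θ) - u (circleMap 0 r θ)) -
          (((r ^ D)⁻¹ - (ρ ^ D)⁻¹ : ℝ) : ℂ) * u (circleMap 0 r θ)) := by
        rw [bK_hom hB hρ0 hk, bK_hom hB hr0 hk, ← hu]
        push_cast
        ring
      rw [e1, norm_mul, norm_ex, one_mul]
      have e2 : ‖(((ρ ^ D)⁻¹ : ℝ) : ℂ) * (u (circleMap 0 ρ θ) - u (circleMap 0 r θ)) -
          (((r ^ D)⁻¹ - (ρ ^ D)⁻¹ : ℝ) : ℂ) * u (circleMap 0 r θ)‖ ≤
          2 ^ D * ‖u (circleMap 0 ρ θ) - u (circleMap 0 r θ)‖ + ((r ^ D)⁻¹ - 1) * C := by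
        refine (norm_sub_le _ _).trans (add_le_add ?_ ?_)
        · rw [norm_mul, Complex.norm_real, Real.norm_of_nonneg (by positivity)]
          exact mul_le_mul_of_nonneg_right (hρr.trans hrD) (norm_nonneg _)
        · rw [norm_mul, Complex.norm_real, Real.norm_of_nonneg (by linarith)]
          exact mul_le_mul (by linarith) (hub _ (circleMap_mem hr0 hr1' θ)) (norm_nonneg _) (by linarith)
      have e3 := norm_nonneg (u (circleMap 0 ρ θ) - u (circleMap 0 r θ))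
      refine (pow_le_pow_left₀ (norm_nonneg _) e2 2).trans ?_
      nlinarith [sq_nonneg (2 ^ D * ‖u (circleMap 0 ρ θ) - u (circleMap 0 r θ)‖ - ((r ^ D)⁻¹ - 1) * C)]
    have c1 := bK_cont hβ B K hρ0 hρ1 k
    have c2 := bK_cont hβ B K hr0 hr1' k
    have c3 := comp_cont hud hρ0 hρ1
    have c4 := comp_cont hud hr0 hr1'
    have c5 : Continuous fun θ => 2 * (2 ^ D) ^ 2 * ‖u (circleMap 0 ρ θ) - u (circleMap 0 r θ)‖ ^ 2 :=
      continuous_const.mul ((c3.sub c4).norm.pow 2)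
    have i1 : Integrable (fun θ => ‖bK β B K ρ k θ - bK β B K r k θ‖ ^ 2) Pm :=
      Continuous.integrable_Pm ((c1.sub c2).norm.pow 2)
    have i2 : Integrable (fun θ => 2 * (2 ^ D) ^ 2 * ‖u (circleMap 0 ρ θ) - u (circleMap 0 r θ)‖ ^ 2 +
      2 * (((r ^ D)⁻¹ - 1) * C) ^ 2) Pm := Continuous.integrable_Pm (c5.add continuous_const)
    have h5 := integral_mono i1 i2 hpt
    refine h5.trans ?_
    rw [integral_add (Continuous.integrable_Pm c5) (integrable_const _), integral_const_mul]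
    simp only [integral_const, probReal_univ, one_smul]
    have h6 := h3 ρ hρ hρ1
    have h7 : 2 * (2 ^ D) ^ 2 * ∫ θ, ‖u (circleMap 0 ρ θ) - u (circleMap 0 r θ)‖ ^ 2 ∂Pm ≤ δ / 2 := by
      calc _ ≤ 2 * (2 ^ D) ^ 2 * (δ / (4 * (2 ^ D) ^ 2)) := mul_le_mul_of_nonneg_left h6 (by positivity)
        _ = δ / 2 := by field_simp; ring
    linarith
  have h1 := (Filter.eventually_all_finset (Finset.Icc 1 K)).2 h
  have h2 : ∀ᶠ r in 𝓝[<] (1 : ℝ), r < 1 := self_mem_nhdsWithin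
  have h3 : ∀ᶠ r in 𝓝[<] (1 : ℝ), 1 / 2 < r := nhdsWithin_le_nhds (lt_mem_nhds (by norm_num : (1 / 2 : ℝ) < 1))
  obtain ⟨r, hr, hr1, hr2⟩ := (h1.and (h2.and h3)).exists
  refine ⟨r, le_of_lt hr2, hr1, fun ρ hρ hρ1 k => ?_⟩
  by_cases hk : k ∈ Finset.Icc 1 K
  · exact hr k hk ρ hρ hρ1
  · unfold bK
    simp only [if_neg hk, sub_self, norm_zero, ne_eq, OfNat.ofNat_ne_zero, not_false_eq_true, zero_pow,
      integral_zero]
    exact hδ.le

/-- the approximating functions on circles -/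
theorem VV_circle {K D : ℕ} {B : ℕ → Polynomial ℂ} (hB : ∀ k ∈ Finset.Icc 1 K, (B k).natDegree ≤ D)
    {i : ℕ} (hi : D ≤ d ^ i) {r : ℝ} (hr : 0 < r) (θ : ℝ) :
    VV d β K D B i (circleMap 0 r θ) = ∑ k ∈ Finset.Icc 1 K,
      bK β B K r k θ * (((r ^ (k * d ^ i) : ℝ) : ℂ) * ex ((k : ℤ) * (d : ℤ) ^ i) θ) := by
  rw [VV_eq hB hi (circleMap_ne hr θ)]
  apply Finset.sum_congr rfl
  intro k hk
  unfold bK
  rw [if_pos hk, ← pow_mul, mul_comm (d ^ i) k, circleMap_pow]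
  push_cast
  rfl

theorem VV_sum {K D : ℕ} {B : ℕ → Polynomial ℂ} (hB : ∀ k ∈ Finset.Icc 1 K, (B k).natDegree ≤ D)
    (hd : 2 ≤ d) {i0 n : ℕ} (hi0 : D ≤ d ^ i0) {r : ℝ} (hr : 0 < r) (θ : ℝ) :
    ∑ i ∈ Finset.Ico i0 n, VV d β K D B i (circleMap 0 r θ) = ∑ k ∈ Finset.Icc 1 K,
      bK β B K r k θ * Lam d (Finset.range n)
        (fun i => if i0 ≤ i then ((r ^ (k * d ^ i) : ℝ) : ℂ) else 0) k θ := by
  have h1 : ∀ i ∈ Finset.Ico i0 n, VV d β K D B i (circleMap 0 r θ) = ∑ k ∈ Finset.Icc 1 K,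
      bK β B K r k θ * (((r ^ (k * d ^ i) : ℝ) : ℂ) * ex ((k : ℤ) * (d : ℤ) ^ i) θ) := by
    intro i hi
    apply VV_circle hB _ hr
    exact hi0.trans (Nat.pow_le_pow_right (by omega) (Finset.mem_Ico.1 hi).1)
  rw [Finset.sum_congr rfl h1, Finset.sum_comm]
  apply Finset.sum_congr rfl
  intro k _
  unfold Lam
  rw [← Finset.mul_sum]
  congr 1
  have h2 : Finset.Ico i0 n = (Finset.range n).filter (fun i => i0 ≤ i) := by
    ext i
    simp only [Finset.mem_Ico, Finset.mem_filter, Finset.mem_range]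
    omega
  rw [h2, Finset.sum_filter]
  apply Finset.sum_congr rfl
  intro i _
  by_cases h : i0 ≤ i
  · simp only [if_pos h]
  · simp only [if_neg h, zero_mul]

theorem Lam_sub (J : Finset ℕ) (w w' : ℕ → ℂ) (m : ℤ) (θ : ℝ) :
    Lam d J w m θ - Lam d J w' m θ = Lam d J (fun i => w i - w' i) m θ := by
  unfold Lam
  rw [← Finset.sum_sub_distrib]
  apply Finset.sum_congr rfl
  intro _ _
  ring

/-- the weights -/
theorem weights_le (hd : 2 ≤ d) {K k i0 n : ℕ} (hk : k ≤ K) {ρ c2 : ℝ} (hρ : 0 < ρ)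
    (hρ1 : ρ < 1) (hc : (d : ℝ) ^ n * Real.log (1 / ρ) ≤ c2) :
    ∑ i ∈ Finset.range n, ‖(if i0 ≤ i then ((ρ ^ (k * d ^ i) : ℝ) : ℂ) else 0) - 1‖ ^ 2 ≤
      i0 + (K * c2) ^ 2 := by
  set s : ℝ := Real.log (1 / ρ) with hs
  have hs0 : 0 ≤ s := Real.log_nonneg (by rw [one_le_div hρ]; exact hρ1.le)
  have hρe : ρ = Real.exp (-s) := by
    rw [hs, Real.log_div one_ne_zero hρ.ne', Real.log_one, zero_sub, neg_neg, Real.exp_log hρ]
  have hd0 : (0 : ℝ) < d := by exact_mod_cast (by omega : 0 < d)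
  have hd2 : (2 : ℝ) ≤ d := by exact_mod_cast hd
  have h1 : ∀ i ∈ Finset.range n, ‖(if i0 ≤ i then ((ρ ^ (k * d ^ i) : ℝ) : ℂ) else 0) - 1‖ ^ 2 ≤
      (if i < i0 then 1 else 0) + (K * s) ^ 2 * ((d : ℝ) ^ 2) ^ i := by
    intro i _
    by_cases hi : i0 ≤ i
    · rw [if_pos hi, if_neg (by omega), zero_add]
      have h2 : (((ρ ^ (k * d ^ i) : ℝ) : ℂ)) - 1 = ((ρ ^ (k * d ^ i) - 1 : ℝ) : ℂ) := by push_cast; ring
      rw [h2, Complex.norm_real, Real.norm_eq_abs, sq_abs]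
      have h3 : ρ ^ (k * d ^ i) = Real.exp (-((k * d ^ i : ℕ) * s)) := by
        rw [hρe, ← Real.exp_nat_mul]; congr 1; ring
      have h4 : ρ ^ (k * d ^ i) ≤ 1 := pow_le_one₀ hρ.le hρ1.le
      have h5 : 1 - ρ ^ (k * d ^ i) ≤ (k * d ^ i : ℕ) * s := by
        rw [h3]
        have := Real.add_one_le_exp (-((k * d ^ i : ℕ) * s))
        linarith
      have h6 : ((k * d ^ i : ℕ) : ℝ) * s ≤ K * s * (d : ℝ) ^ i := by
        push_cast
        have : (k : ℝ) ≤ K := by exact_mod_cast hk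
        calc (k : ℝ) * d ^ i * s ≤ K * d ^ i * s := by gcongr
          _ = _ := by ring
      have h7 : (ρ ^ (k * d ^ i) - 1) ^ 2 = (1 - ρ ^ (k * d ^ i)) ^ 2 := by ring
      rw [h7]
      calc (1 - ρ ^ (k * d ^ i)) ^ 2 ≤ (K * s * (d : ℝ) ^ i) ^ 2 :=
            pow_le_pow_left₀ (by linarith) (h5.trans h6) 2
        _ = _ := by rw [mul_pow, ← pow_mul, ← pow_mul, mul_comm i 2]
    · rw [if_neg hi, if_pos (by omega)]
      have : 0 ≤ (K * s) ^ 2 * ((d : ℝ) ^ 2) ^ i := by positivity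
      simp
      exact this
  refine (Finset.sum_le_sum h1).trans ?_
  rw [Finset.sum_add_distrib, ← Finset.mul_sum]
  apply add_le_add
  · rw [Finset.sum_ite, Finset.sum_const_zero, add_zero, Finset.sum_const, nsmul_eq_mul, mul_one]
    have h2 : ((Finset.range n).filter (fun i => i < i0)) ⊆ Finset.range i0 := by
      intro i hi
      exact Finset.mem_range.2 (Finset.mem_filter.1 hi).2
    have h3 := Finset.card_le_card h2
    rw [Finset.card_range] at h3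
    exact_mod_cast h3
  · have h2 : ∑ i ∈ Finset.range n, ((d : ℝ) ^ 2) ^ i ≤ ((d : ℝ) ^ n) ^ 2 := by
      have hne : (d : ℝ) ^ 2 ≠ 1 := by nlinarith
      rw [geom_sum_eq hne, div_le_iff₀ (by nlinarith), ← pow_mul, ← pow_mul, mul_comm n 2]
      have h3 : (1 : ℝ) ≤ (d : ℝ) ^ (2 * n) := one_le_pow₀ (by linarith)
      have h4 : (1 : ℝ) ≤ (d : ℝ) ^ 2 - 1 := by nlinarith
      have h5 := mul_le_mul_of_nonneg_left h4 (by linarith : (0 : ℝ) ≤ (d : ℝ) ^ (2 * n))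
      linarith
    calc (K * s) ^ 2 * ∑ i ∈ Finset.range n, ((d : ℝ) ^ 2) ^ i ≤ (K * s) ^ 2 * ((d : ℝ) ^ n) ^ 2 :=
          mul_le_mul_of_nonneg_left h2 (by positivity)
      _ = (K * ((d : ℝ) ^ n * s)) ^ 2 := by ring
      _ ≤ (K * c2) ^ 2 := by
          apply pow_le_pow_left₀ (by positivity)
          exact mul_le_mul_of_nonneg_left hc (Nat.cast_nonneg _)

/-- **closeness** -/
theorem close (hd : 2 ≤ d) (hβ : IsBeta d β) {F : ℕ → ℂ → ℂ} (hF : IsLog d β F) {η : ℝ} (hη : 0 < η) :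
    ∃ (K : ℕ) (b : ℕ → ℝ → ℂ), (∀ k, Continuous (b k)) ∧ (∀ k, k ∉ Finset.Icc 1 K → ∀ θ, b k θ = 0) ∧
      ∀ c2 : ℝ, 0 < c2 → ∃ (n1 : ℕ) (r1 : ℝ), r1 < 1 ∧ ∀ n, n1 ≤ n → ∀ ρ, r1 < ρ → ρ < 1 →
        (d : ℝ) ^ n * Real.log (1 / ρ) ≤ c2 →
        ∫ θ, ‖SS F n (circleMap 0 ρ θ) - TK d K (fun k => b k θ) n θ‖ ^ 2 ∂Pm ≤ η * n := by
  obtain ⟨K, D, B, i0, n0, hK1, hB, hDi0, hin0, happ⟩ := approx hd hβ hF (η := η / 4) (by positivity)
  obtain ⟨Bd, hBd0, hBd⟩ := bK_bound hβ hB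
  have hK0 : (0 : ℝ) < K := by exact_mod_cast hK1
  set δ : ℝ := η / (8 * (2 * K * K * (2 * Bd ^ 2 + 2))) with hδ
  have hδ0 : 0 < δ := by positivity
  obtain ⟨r, hr2, hr1, hr⟩ := bK_close hβ hB (δ := δ ^ 2) (by positivity)
  have hr0 : 0 < r := by linarith
  refine ⟨K, bK β B K r, fun k => bK_cont hβ B K hr0 hr1 k, fun k hk θ => by unfold bK; rw [if_neg hk], ?_⟩
  intro c2 hc2
  set E : ℝ := 2 * K * K * (Bd ^ 2 * (i0 + (K * c2) ^ 2)) with hE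
  have hE0 : 0 ≤ E := by positivity
  obtain ⟨m, hm⟩ := exists_nat_ge (E / (η / 8))
  refine ⟨max (max n0 m) 1, r, hr1, ?_⟩
  intro n hn ρ hρ hρ1 hc
  have hρ0 : 0 < ρ := hr0.trans hρ
  have hn0 : n0 ≤ n := ((le_max_left _ _).trans (le_max_left _ _)).trans hn
  have hnm : m ≤ n := ((le_max_right _ _).trans (le_max_left _ _)).trans hn
  have hn1 : 1 ≤ n := (le_max_right _ _).trans hn
  have hnR : (0 : ℝ) < n := by exact_mod_cast hn1
  have hEn : E ≤ η / 8 * n := by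
    have h1 : E / (η / 8) ≤ n := hm.trans (by exact_mod_cast hnm)
    rw [div_le_iff₀ (by positivity)] at h1
    linarith
  have h1 := happ n hn0 ρ hρ0 hρ1
  rw [circleAverage_eq_Pm] at h1
  -- the two kinds of sums
  set w : ℕ → ℕ → ℂ := fun k i => if i0 ≤ i then ((ρ ^ (k * d ^ i) : ℝ) : ℂ) else 0 with hw
  set L1 : ℕ → ℝ → ℂ := fun k => Lam d (Finset.range n) (w k) k with hL1
  set L2 : ℕ → ℝ → ℂ := fun k => Lam d (Finset.range n) (fun i => w k i - 1) k with hL2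
  set bρ : ℕ → ℝ → ℂ := bK β B K ρ with hbρ
  set br : ℕ → ℝ → ℂ := bK β B K r with hbr
  have hbρc : ∀ k, Continuous (bρ k) := fun k => bK_cont hβ B K hρ0 hρ1 k
  have hbrc : ∀ k, Continuous (br k) := fun k => bK_cont hβ B K hr0 hr1 k
  have hL1c : ∀ k, Continuous (L1 k) := fun k => Lam_cont _ _ _ _
  have hL2c : ∀ k, Continuous (L2 k) := fun k => Lam_cont _ _ _ _
  have hw1 : ∀ k i, ‖w k i‖ ≤ 1 := by
    intro k i
    simp only [hw]
    split_ifs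
    · rw [Complex.norm_real, Real.norm_of_nonneg (by positivity)]
      exact pow_le_one₀ hρ0.le hρ1.le
    · simp
  have hdiff : ∀ θ, ∑ i ∈ Finset.Ico i0 n, VV d β K D B i (circleMap 0 ρ θ) - TK d K (fun k => br k θ) n θ =
      ∑ k ∈ Finset.Icc 1 K, ((bρ k θ - br k θ) * L1 k θ + br k θ * L2 k θ) := by
    intro θ
    rw [VV_sum hB hd hDi0 hρ0, TK_eq, ← Finset.sum_sub_distrib]
    apply Finset.sum_congr rfl
    intro k _
    have h2 : L2 k θ = L1 k θ - Lam d (Finset.range n) (fun _ => 1) k θ := by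
      simp only [hL1, hL2]
      rw [Lam_sub]
    rw [h2]
    ring
  -- pointwise bound
  have hpt : ∀ θ, ‖∑ i ∈ Finset.Ico i0 n, VV d β K D B i (circleMap 0 ρ θ) - TK d K (fun k => br k θ) n θ‖ ^ 2 ≤
      2 * K * ∑ k ∈ Finset.Icc 1 K, (2 * Bd ^ 2 * n / δ * ‖bρ k θ - br k θ‖ ^ 2 +
        δ / (2 * n) * ‖L1 k θ‖ ^ 4 + Bd ^ 2 * ‖L2 k θ‖ ^ 2) := by
    intro θ
    rw [hdiff]
    have h2 : ‖∑ k ∈ Finset.Icc 1 K, ((bρ k θ - br k θ) * L1 k θ + br k θ * L2 k θ)‖ ^ 2 ≤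
        (∑ k ∈ Finset.Icc 1 K, ‖(bρ k θ - br k θ) * L1 k θ + br k θ * L2 k θ‖) ^ 2 :=
      pow_le_pow_left₀ (norm_nonneg _) (norm_sum_le _ _) 2
    refine h2.trans ?_
    have h3 := sq_sum_le_card_mul_sum_sq (s := Finset.Icc 1 K)
      (f := fun k => ‖(bρ k θ - br k θ) * L1 k θ + br k θ * L2 k θ‖)
    rw [Nat.card_Icc, Nat.add_sub_cancel] at h3
    refine h3.trans ?_
    rw [mul_comm (2 : ℝ) (K : ℝ), mul_assoc]
    apply mul_le_mul_of_nonneg_left _ hK0.le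
    rw [Finset.mul_sum]
    apply Finset.sum_le_sum
    intro k _
    have h4 : ‖(bρ k θ - br k θ) * L1 k θ + br k θ * L2 k θ‖ ≤
        ‖bρ k θ - br k θ‖ * ‖L1 k θ‖ + Bd * ‖L2 k θ‖ := by
      refine (norm_add_le _ _).trans ?_
      rw [norm_mul, norm_mul]
      exact add_le_add le_rfl (mul_le_mul_of_nonneg_right (hBd r hr2 hr1 k θ) (norm_nonneg _))
    set x : ℝ := ‖bρ k θ - br k θ‖ with hx
    set y : ℝ := ‖L1 k θ‖ with hy
    set z : ℝ := ‖L2 k θ‖ with hz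
    have hx0 : 0 ≤ x := norm_nonneg _
    have hy0 : 0 ≤ y := norm_nonneg _
    have hz0 : 0 ≤ z := norm_nonneg _
    have hxB : x ≤ 2 * Bd := by
      refine (norm_sub_le _ _).trans ?_
      have e1 := hBd ρ (by linarith) hρ1 k θ
      have e2 := hBd r hr2 hr1 k θ
      linarith
    have h5 : (x * y) ^ 2 ≤ 2 * Bd ^ 2 * n / δ * x ^ 2 + δ / (2 * n) * y ^ 4 := by
      have h6 : (x * y) ^ 2 ≤ n / (2 * δ) * x ^ 4 + δ / (2 * n) * y ^ 4 := by
        have h7 : n / (2 * δ) * x ^ 4 + δ / (2 * n) * y ^ 4 - (x * y) ^ 2 =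
            (n * x ^ 2 - δ * y ^ 2) ^ 2 / (2 * δ * n) := by
          field_simp
          ring
        have h8 : 0 ≤ (n * x ^ 2 - δ * y ^ 2) ^ 2 / (2 * δ * n) := by positivity
        linarith
      have h7 : n / (2 * δ) * x ^ 4 ≤ 2 * Bd ^ 2 * n / δ * x ^ 2 := by
        have h8 : x ^ 2 ≤ 4 * Bd ^ 2 := by nlinarith
        calc n / (2 * δ) * x ^ 4 = n / (2 * δ) * x ^ 2 * x ^ 2 := by ring
          _ ≤ n / (2 * δ) * x ^ 2 * (4 * Bd ^ 2) := mul_le_mul_of_nonneg_left h8 (by positivity)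
          _ = _ := by field_simp; ring
      linarith
    calc _ ≤ (x * y + Bd * z) ^ 2 := pow_le_pow_left₀ (norm_nonneg _) h4 2
      _ ≤ 2 * ((x * y) ^ 2 + (Bd * z) ^ 2) := by nlinarith [sq_nonneg (x * y - Bd * z)]
      _ ≤ 2 * ((2 * Bd ^ 2 * n / δ * x ^ 2 + δ / (2 * n) * y ^ 4) + Bd ^ 2 * z ^ 2) := by
          rw [mul_pow Bd z 2]; linarith
  have hVc : Continuous fun θ => ∑ i ∈ Finset.Ico i0 n, VV d β K D B i (circleMap 0 ρ θ) :=
    continuous_finsetSum _ fun i _ => comp_cont (VV_diff hβ K D B i) hρ0 hρ1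
  have hTc : Continuous fun θ => TK d K (fun k => br k θ) n θ := TK_cont K br hbrc n
  have hSc : Continuous fun θ => SS F n (circleMap 0 ρ θ) := comp_cont (SS_diff hF n) hρ0 hρ1
  have c1 : ∀ k, Continuous fun θ => 2 * Bd ^ 2 * n / δ * ‖bρ k θ - br k θ‖ ^ 2 := fun k =>
    continuous_const.mul (((hbρc k).sub (hbrc k)).norm.pow 2)
  have c2' : ∀ k, Continuous fun θ => δ / (2 * n) * ‖L1 k θ‖ ^ 4 := fun k =>
    continuous_const.mul ((hL1c k).norm.pow 4)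
  have c3 : ∀ k, Continuous fun θ => Bd ^ 2 * ‖L2 k θ‖ ^ 2 := fun k =>
    continuous_const.mul ((hL2c k).norm.pow 2)
  have h2 : ∫ θ, ‖∑ i ∈ Finset.Ico i0 n, VV d β K D B i (circleMap 0 ρ θ) -
      TK d K (fun k => br k θ) n θ‖ ^ 2 ∂Pm ≤ η / 4 * n := by
    have i1 : Integrable (fun θ => ‖∑ i ∈ Finset.Ico i0 n, VV d β K D B i (circleMap 0 ρ θ) -
      TK d K (fun k => br k θ) n θ‖ ^ 2) Pm := Continuous.integrable_Pm ((hVc.sub hTc).norm.pow 2)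
    have i0' : ∀ k ∈ Finset.Icc 1 K, Integrable (fun θ => 2 * Bd ^ 2 * n / δ * ‖bρ k θ - br k θ‖ ^ 2 +
        δ / (2 * n) * ‖L1 k θ‖ ^ 4 + Bd ^ 2 * ‖L2 k θ‖ ^ 2) Pm := fun k _ =>
      Continuous.integrable_Pm (((c1 k).add (c2' k)).add (c3 k))
    have i2 : Integrable (fun θ => 2 * (K : ℝ) * ∑ k ∈ Finset.Icc 1 K, (2 * Bd ^ 2 * n / δ * ‖bρ k θ - br k θ‖ ^ 2 +
        δ / (2 * n) * ‖L1 k θ‖ ^ 4 + Bd ^ 2 * ‖L2 k θ‖ ^ 2)) Pm :=
      (integrable_finsetSum _ i0').const_mul _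
    refine (integral_mono i1 i2 hpt).trans ?_
    rw [integral_const_mul, integral_finsetSum _ i0']
    have h3 : ∀ k ∈ Finset.Icc 1 K, ∫ θ, (2 * Bd ^ 2 * n / δ * ‖bρ k θ - br k θ‖ ^ 2 +
        δ / (2 * n) * ‖L1 k θ‖ ^ 4 + Bd ^ 2 * ‖L2 k θ‖ ^ 2) ∂Pm ≤
        (2 * Bd ^ 2 + 2) * δ * n + Bd ^ 2 * (i0 + (K * c2) ^ 2) := by
      intro k hk
      have hk1 : 1 ≤ k := (Finset.mem_Icc.1 hk).1
      have hk0 : (k : ℤ) ≠ 0 := by exact_mod_cast (by omega : k ≠ 0)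
      have j1 := Continuous.integrable_Pm (c1 k)
      have j2 := Continuous.integrable_Pm (c2' k)
      have j3 := Continuous.integrable_Pm (c3 k)
      have j4 : Integrable (fun θ => 2 * Bd ^ 2 * n / δ * ‖bρ k θ - br k θ‖ ^ 2 +
        δ / (2 * n) * ‖L1 k θ‖ ^ 4) Pm := j1.add j2
      rw [integral_add j4 j3, integral_add j1 j2,
        integral_const_mul, integral_const_mul, integral_const_mul]
      have e1 := hr ρ hρ.le hρ1 k
      have e2 := Lam_four hd (Finset.range n) (w k) (fun i _ => hw1 k i) hk0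
      rw [Finset.card_range] at e2
      have e3 : ∫ θ, ‖L2 k θ‖ ^ 2 ∂Pm ≤ i0 + (K * c2) ^ 2 := by
        simp only [hL2]
        rw [Lam_sq hd _ _ hk0]
        exact weights_le hd (Finset.mem_Icc.1 hk).2 hρ0 hρ1 hc
      have e4 : 2 * Bd ^ 2 * n / δ * ∫ θ, ‖bρ k θ - br k θ‖ ^ 2 ∂Pm ≤ 2 * Bd ^ 2 * δ * n := by
        calc _ ≤ 2 * Bd ^ 2 * n / δ * δ ^ 2 := mul_le_mul_of_nonneg_left e1 (by positivity)
          _ = _ := by field_simp
      have e5 : δ / (2 * n) * ∫ θ, ‖L1 k θ‖ ^ 4 ∂Pm ≤ 2 * δ * n := by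
        calc _ ≤ δ / (2 * n) * (4 * (n : ℝ) ^ 2) := mul_le_mul_of_nonneg_left e2 (by positivity)
          _ = _ := by field_simp; ring
      have e6 : Bd ^ 2 * ∫ θ, ‖L2 k θ‖ ^ 2 ∂Pm ≤ Bd ^ 2 * (i0 + (K * c2) ^ 2) :=
        mul_le_mul_of_nonneg_left e3 (by positivity)
      linarith
    have h4 := Finset.sum_le_sum h3
    rw [Finset.sum_const, Nat.card_Icc, Nat.add_sub_cancel, nsmul_eq_mul] at h4
    calc _ ≤ 2 * K * (K * ((2 * Bd ^ 2 + 2) * δ * n + Bd ^ 2 * (i0 + (K * c2) ^ 2))) :=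
          mul_le_mul_of_nonneg_left h4 (by positivity)
      _ = 2 * K * K * (2 * Bd ^ 2 + 2) * δ * n + E := by rw [hE]; ring
      _ = η / 8 * n + E := by
          have : 2 * K * K * (2 * Bd ^ 2 + 2) * δ = η / 8 := by rw [hδ]; field_simp
          rw [this]
      _ ≤ η / 4 * n := by linarith
  -- combination
  have i3 : Integrable (fun θ => ‖SS F n (circleMap 0 ρ θ) - TK d K (fun k => br k θ) n θ‖ ^ 2) Pm :=
    Continuous.integrable_Pm ((hSc.sub hTc).norm.pow 2)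
  have i4 : Integrable (fun θ => 2 * ‖SS F n (circleMap 0 ρ θ) -
      ∑ i ∈ Finset.Ico i0 n, VV d β K D B i (circleMap 0 ρ θ)‖ ^ 2) Pm :=
    Continuous.integrable_Pm (continuous_const.mul ((hSc.sub hVc).norm.pow 2))
  have i5 : Integrable (fun θ => 2 * ‖∑ i ∈ Finset.Ico i0 n, VV d β K D B i (circleMap 0 ρ θ) -
      TK d K (fun k => br k θ) n θ‖ ^ 2) Pm :=
    Continuous.integrable_Pm (continuous_const.mul ((hVc.sub hTc).norm.pow 2))
  have h3 : ∫ θ, ‖SS F n (circleMap 0 ρ θ) - TK d K (fun k => br k θ) n θ‖ ^ 2 ∂Pm ≤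
      ∫ θ, (2 * ‖SS F n (circleMap 0 ρ θ) - ∑ i ∈ Finset.Ico i0 n, VV d β K D B i (circleMap 0 ρ θ)‖ ^ 2 +
        2 * ‖∑ i ∈ Finset.Ico i0 n, VV d β K D B i (circleMap 0 ρ θ) -
          TK d K (fun k => br k θ) n θ‖ ^ 2) ∂Pm := by
    apply integral_mono i3 (i4.add i5)
    intro θ
    change ‖SS F n (circleMap 0 ρ θ) - TK d K (fun k => br k θ) n θ‖ ^ 2 ≤
      2 * ‖SS F n (circleMap 0 ρ θ) - ∑ i ∈ Finset.Ico i0 n, VV d β K D B i (circleMap 0 ρ θ)‖ ^ 2 +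
        2 * ‖∑ i ∈ Finset.Ico i0 n, VV d β K D B i (circleMap 0 ρ θ) -
          TK d K (fun k => br k θ) n θ‖ ^ 2
    have h4 := norm_sub_le_norm_sub_add_norm_sub (SS F n (circleMap 0 ρ θ))
      (∑ i ∈ Finset.Ico i0 n, VV d β K D B i (circleMap 0 ρ θ)) (TK d K (fun k => br k θ) n θ)
    have h5 := norm_nonneg (SS F n (circleMap 0 ρ θ) - TK d K (fun k => br k θ) n θ)
    nlinarith [sq_nonneg (‖SS F n (circleMap 0 ρ θ) - ∑ i ∈ Finset.Ico i0 n, VV d β K D B i (circleMap 0 ρ θ)‖ -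
      ‖∑ i ∈ Finset.Ico i0 n, VV d β K D B i (circleMap 0 ρ θ) - TK d K (fun k => br k θ) n θ‖)]
  refine h3.trans ?_
  rw [integral_add i4 i5, integral_const_mul, integral_const_mul]
  linarith

end Pool.Agent.H439.MC
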