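import Mathlib
import Pool.Agent.H439.MC.Close

/-!
# The number of steps attached to a radius
-/

set_option autoImplicit false

namespace Pool.Agent.H439.MC

open Complex Set Topology Filter Metric MeasureTheory N62a1eb23 Pool.Agent.H712R2
  Pool.Agent.H713R2 Pool.Agent.TH653.MB
open Real (circleAverage)

variable {d : ℕ} {β : ℂ → ℂ}

/-- a constant -/
noncomputable def c1 (d : ℕ) : ℝ := Real.log (R0 d) + 1

theorem c1_pos (d : ℕ) : 1 ≤ c1 d := by
  unfold c1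
  have h1 := R0_ge d
  have h2 : 0 ≤ Real.log (R0 d) := Real.log_nonneg (by linarith)
  linarith

/-- `log (1 / ρ)` -/
noncomputable def ss (ρ : ℝ) : ℝ := Real.log (1 / ρ)

/-- `log (1 / (1 / ρ - 1))` -/
noncomputable def Lr (ρ : ℝ) : ℝ := Real.log (1 / (1 / ρ - 1))

/-- the number of steps -/
noncomputable def NN (d : ℕ) (ρ : ℝ) : ℕ := ⌈Real.log (c1 d / ss ρ) / Real.log d⌉₊

theorem ss_pos {ρ : ℝ} (h0 : 0 < ρ) (h1 : ρ < 1) : 0 < ss ρ :=
  Real.log_pos (by rw [lt_div_iff₀ h0, one_mul]; exact h1)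

theorem logd_pos (hd : 2 ≤ d) : 0 < Real.log d := Real.log_pos (by exact_mod_cast (by omega : 1 < d))

theorem NN_lower (hd : 2 ≤ d) {ρ : ℝ} (h0 : 0 < ρ) (h1 : ρ < 1) : c1 d ≤ (d : ℝ) ^ NN d ρ * ss ρ := by
  have hs := ss_pos h0 h1
  have hc := c1_pos d
  have hd0 : (0 : ℝ) < d := by exact_mod_cast (by omega : 0 < d)
  have h2 : Real.log (c1 d / ss ρ) / Real.log d ≤ NN d ρ := Nat.le_ceil _
  rw [div_le_iff₀ (logd_pos hd)] at h2
  have h3 : c1 d / ss ρ ≤ (d : ℝ) ^ NN d ρ := by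
    rw [← Real.log_le_log_iff (by positivity) (by positivity), Real.log_pow]
    exact h2
  rwa [div_le_iff₀ hs] at h3

theorem NN_upper (hd : 2 ≤ d) {ρ : ℝ} (h0 : 0 < ρ) (h1 : ρ < 1) (h2 : ss ρ ≤ 1) :
    (NN d ρ : ℝ) * Real.log d ≤ Real.log (c1 d / ss ρ) + Real.log d := by
  have hs := ss_pos h0 h1
  have hc := c1_pos d
  have h3 : 0 ≤ Real.log (c1 d / ss ρ) / Real.log d := by
    apply div_nonneg _ (logd_pos hd).le
    apply Real.log_nonneg
    rw [le_div_iff₀ hs]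
    linarith
  have h4 := (Nat.ceil_lt_add_one h3).le
  have h5 := mul_le_mul_of_nonneg_right h4 (logd_pos hd).le
  refine h5.trans (le_of_eq ?_)
  have := (logd_pos hd).ne'
  field_simp

theorem NN_upper' (hd : 2 ≤ d) {ρ : ℝ} (h0 : 0 < ρ) (h1 : ρ < 1) (h2 : ss ρ ≤ 1) :
    (d : ℝ) ^ NN d ρ * ss ρ ≤ d * c1 d := by
  have hs := ss_pos h0 h1
  have hc := c1_pos d
  have hd0 : (0 : ℝ) < d := by exact_mod_cast (by omega : 0 < d)
  have h3 : (d : ℝ) ^ NN d ρ ≤ d * (c1 d / ss ρ) := by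
    rw [← Real.log_le_log_iff (by positivity) (by positivity), Real.log_pow, Real.log_mul hd0.ne'
      (by positivity)]
    have := NN_upper hd h0 h1 h2
    linarith
  calc (d : ℝ) ^ NN d ρ * ss ρ ≤ d * (c1 d / ss ρ) * ss ρ := mul_le_mul_of_nonneg_right h3 hs.le
    _ = d * c1 d := by field_simp

theorem pow_NN_lt (hd : 2 ≤ d) {ρ : ℝ} (h0 : 0 < ρ) (h1 : ρ < 1) : ρ ^ (d ^ NN d ρ) < (R0 d)⁻¹ := by
  have h2 := NN_lower hd h0 h1
  have h3 := R0_ge d
  have hR : 0 < R0 d := by linarith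
  have h4 : ρ = Real.exp (-ss ρ) := by
    unfold ss
    rw [Real.log_div one_ne_zero h0.ne', Real.log_one, zero_sub, neg_neg, Real.exp_log h0]
  have h5 : ρ ^ (d ^ NN d ρ) = Real.exp (-((d : ℝ) ^ NN d ρ * ss ρ)) := by
    nth_rewrite 1 [h4]
    rw [← Real.exp_nat_mul]
    congr 1
    push_cast
    ring
  rw [h5, ← Real.exp_log hR, ← Real.exp_neg, Real.exp_lt_exp]
  unfold c1 at h2
  linarith

theorem ss_tendsto : Tendsto ss (𝓝[<] 1) (𝓝[>] 0) := by
  apply tendsto_nhdsWithin_iff.2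
  constructor
  · have h : ContinuousAt ss 1 := by
      unfold ss
      apply ContinuousAt.log
      · exact continuousAt_const.div continuousAt_id one_ne_zero
      · norm_num
    have h2 := h.tendsto
    have h3 : ss 1 = 0 := by simp [ss]
    rw [h3] at h2
    exact h2.mono_left nhdsWithin_le_nhds
  · filter_upwards [self_mem_nhdsWithin, nhdsWithin_le_nhds (lt_mem_nhds (zero_lt_one (α := ℝ)))] with ρ h1 h0
    exact ss_pos h0 h1

theorem ev_range : ∀ᶠ ρ in 𝓝[<] (1 : ℝ), 1 / 2 < ρ ∧ ρ < 1 ∧ ss ρ ≤ 1 := by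
  have h1 : ∀ᶠ s in 𝓝[>] (0 : ℝ), s ≤ 1 := nhdsWithin_le_nhds (ge_mem_nhds zero_lt_one)
  filter_upwards [self_mem_nhdsWithin, nhdsWithin_le_nhds (lt_mem_nhds (by norm_num : (1 / 2 : ℝ) < 1)),
    ss_tendsto.eventually h1] with ρ h1 h0 h2
  exact ⟨h0, h1, h2⟩

theorem NN_tendsto (hd : 2 ≤ d) : Tendsto (NN d) (𝓝[<] 1) atTop := by
  unfold NN
  apply tendsto_nat_ceil_atTop.comp
  apply Tendsto.atTop_div_const (logd_pos hd)
  apply Real.tendsto_log_atTop.comp
  have h1 : Tendsto (fun ρ => (ss ρ)⁻¹) (𝓝[<] 1) atTop := tendsto_inv_nhdsGT_zero.comp ss_tendsto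
  simp only [div_eq_mul_inv]
  exact h1.const_mul_atTop (by linarith [c1_pos d])

theorem ratio_bound (hd : 2 ≤ d) : ∀ᶠ ρ in 𝓝[<] (1 : ℝ),
    |(NN d ρ : ℝ) * Real.log d - Lr ρ| ≤ Real.log (c1 d) + Real.log 2 + Real.log d := by
  filter_upwards [ev_range] with ρ h
  obtain ⟨h0, h1, h2⟩ := h
  have hρ0 : 0 < ρ := by linarith
  have hs := ss_pos hρ0 h1
  have hc := c1_pos d
  have hlc : 0 ≤ Real.log (c1 d) := Real.log_nonneg hc
  have hl2 : 0 ≤ Real.log 2 := Real.log_nonneg (by norm_num)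
  have hld := (logd_pos hd).le
  have hx : 0 < 1 / ρ - 1 := by
    rw [sub_pos, lt_div_iff₀ hρ0, one_mul]; exact h1
  have e1 : ss ρ ≤ 1 / ρ - 1 := Real.log_le_sub_one_of_pos (by positivity)
  have e2 : (1 / ρ - 1) / 2 ≤ ss ρ := by
    have h3 : 1 - ρ ≤ ss ρ := by
      have h4 := Real.log_le_sub_one_of_pos hρ0
      have h5 : ss ρ = - Real.log ρ := by
        unfold ss
        rw [Real.log_div one_ne_zero hρ0.ne', Real.log_one, zero_sub]
      rw [h5]; linarith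
    have h4 : (1 / ρ - 1) / 2 ≤ 1 - ρ := by
      have h5 : 1 / ρ - 1 = (1 - ρ) / ρ := by field_simp
      rw [h5, div_div, div_le_iff₀ (by positivity)]
      nlinarith
    linarith
  have e3 : Real.log (c1 d / ss ρ) = Real.log (c1 d) - Real.log (ss ρ) := Real.log_div (by linarith) hs.ne'
  have e4 : Lr ρ = - Real.log (1 / ρ - 1) := by
    unfold Lr
    rw [one_div (1 / ρ - 1), Real.log_inv]
  have e5 : Real.log (ss ρ) ≤ Real.log (1 / ρ - 1) := Real.log_le_log hs e1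
  have e6 : Real.log (1 / ρ - 1) - Real.log 2 ≤ Real.log (ss ρ) := by
    rw [← Real.log_div hx.ne' two_ne_zero]
    exact Real.log_le_log (by positivity) e2
  have e7 := NN_upper hd hρ0 h1 h2
  have e8 : Real.log (c1 d / ss ρ) ≤ (NN d ρ : ℝ) * Real.log d := by
    have h3 : Real.log (c1 d / ss ρ) / Real.log d ≤ NN d ρ := Nat.le_ceil _
    rwa [div_le_iff₀ (logd_pos hd)] at h3
  rw [abs_le]
  constructor <;> linarith

theorem Lr_tendsto : Tendsto Lr (𝓝[<] 1) atTop := by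
  unfold Lr
  apply Real.tendsto_log_atTop.comp
  simp only [one_div]
  apply tendsto_inv_nhdsGT_zero.comp
  apply tendsto_nhdsWithin_iff.2
  constructor
  · have h : ContinuousAt (fun ρ : ℝ => ρ⁻¹ - 1) 1 := (continuousAt_inv₀ one_ne_zero).sub continuousAt_const
    have h2 := h.tendsto
    simp only [inv_one, sub_self] at h2
    exact h2.mono_left nhdsWithin_le_nhds
  · filter_upwards [self_mem_nhdsWithin, nhdsWithin_le_nhds (lt_mem_nhds (zero_lt_one (α := ℝ)))] with ρ h1 h0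
    have h1' : ρ < 1 := h1
    exact sub_pos.2 ((one_lt_inv₀ h0).2 h1')

theorem ratio_tendsto (hd : 2 ≤ d) :
    Tendsto (fun ρ => √(NN d ρ : ℝ) / √(Lr ρ)) (𝓝[<] 1) (𝓝 (1 / √(Real.log d))) := by
  have hld := logd_pos hd
  set C : ℝ := Real.log (c1 d) + Real.log 2 + Real.log d with hC
  have h1 : Tendsto (fun ρ => ((NN d ρ : ℝ) * Real.log d - Lr ρ) / (Real.log d * Lr ρ)) (𝓝[<] 1) (𝓝 0) := by
    have h2 : Tendsto (fun ρ => C / (Real.log d * Lr ρ)) (𝓝[<] 1) (𝓝 0) :=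
      tendsto_const_nhds.div_atTop (Lr_tendsto.const_mul_atTop hld)
    apply squeeze_zero_norm' _ h2
    filter_upwards [ratio_bound hd, Lr_tendsto.eventually_gt_atTop 0] with ρ h3 h4
    rw [Real.norm_eq_abs, abs_div, abs_of_pos (by positivity : 0 < Real.log d * Lr ρ)]
    exact div_le_div_of_nonneg_right h3 (by positivity)
  have h2 : Tendsto (fun ρ => (NN d ρ : ℝ) / Lr ρ) (𝓝[<] 1) (𝓝 (1 / Real.log d)) := by
    have h3 : Tendsto (fun ρ => 1 / Real.log d + ((NN d ρ : ℝ) * Real.log d - Lr ρ) / (Real.log d * Lr ρ))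
        (𝓝[<] 1) (𝓝 (1 / Real.log d + 0)) := tendsto_const_nhds.add h1
    rw [add_zero] at h3
    apply h3.congr'
    filter_upwards [Lr_tendsto.eventually_gt_atTop 0] with ρ h4
    field_simp
    ring
  have h3 := h2.sqrt
  rw [Real.sqrt_div zero_le_one, Real.sqrt_one] at h3
  apply h3.congr
  intro ρ
  rw [Real.sqrt_div (Nat.cast_nonneg _)]

end Pool.Agent.H439.MC
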