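import Mathlib
import Pool.Agent.H439.MC.Norm

/-!
# The standard deviation as a function of the angle
-/

set_option autoImplicit false

namespace Pool.Agent.H439.MC

open Complex Set Topology Filter Metric MeasureTheory N62a1eb23 Pool.Agent.H712R2
  Pool.Agent.H713R2 Pool.Agent.TH653.MB
open Real (circleAverage)

variable {d : ℕ} {β : ℂ → ℂ}

theorem sum_ext {K K' : ℕ} (hK : K ≤ K') {a : ℕ → ℂ} (ha : ∀ k, k ∉ Finset.Icc 1 K → a k = 0)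
    (x : ℕ → ℂ) : ∑ k ∈ Finset.Icc 1 K', a k * x k = ∑ k ∈ Finset.Icc 1 K, a k * x k := by
  symm
  apply Finset.sum_subset (Finset.Icc_subset_Icc le_rfl hK)
  intro k _ hk
  rw [ha k hk, zero_mul]

theorem hh_ext {K K' : ℕ} (hK : K ≤ K') (q : ℕ → ℤ) {a : ℕ → ℂ} (ha : ∀ k, k ∉ Finset.Icc 1 K → a k = 0)
    (θ : ℝ) : hh K' q a θ = hh K q a θ := by
  unfold hh
  rw [sum_ext hK ha (fun k => ex (q k) θ)]

theorem sg_ext {K K' : ℕ} (hK : K ≤ K') (q : ℕ → ℤ) {a : ℕ → ℂ} (ha : ∀ k, k ∉ Finset.Icc 1 K → a k = 0) :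
    sg K' q a = sg K q a := by
  unfold sg vr
  simp only [hh_ext hK q ha]

theorem TK_ext {K K' : ℕ} (hK : K ≤ K') {a : ℕ → ℂ} (ha : ∀ k, k ∉ Finset.Icc 1 K → a k = 0)
    (n : ℕ) (θ : ℝ) : TK d K' a n θ = TK d K a n θ := by
  unfold TK
  apply Finset.sum_congr rfl
  intro i _
  exact sum_ext hK ha (fun k => ex ((k : ℤ) * (d : ℤ) ^ i) θ)

theorem TK_sub (K : ℕ) (a a' : ℕ → ℂ) (n : ℕ) (θ : ℝ) :
    TK d K (fun k => a k - a' k) n θ = TK d K a n θ - TK d K a' n θ := by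
  unfold TK
  rw [← Finset.sum_sub_distrib]
  apply Finset.sum_congr rfl
  intro i _
  rw [← Finset.sum_sub_distrib]
  apply Finset.sum_congr rfl
  intro k _
  ring

/-- closeness of data at rate `η` -/
def Near (d : ℕ) (F : ℕ → ℂ → ℂ) (K : ℕ) (b : ℕ → ℝ → ℂ) (η : ℝ) : Prop :=
  ∀ᶠ ρ in 𝓝[<] (1 : ℝ), ∫ θ, ‖SS F (NN d ρ) (circleMap 0 ρ θ) - TK d K (fun k => b k θ) (NN d ρ) θ‖ ^ 2 ∂Pm ≤
    η * NN d ρ

theorem exists_near (hd : 2 ≤ d) (hβ : IsBeta d β) {F : ℕ → ℂ → ℂ} (hF : IsLog d β F) {η : ℝ}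
    (hη : 0 < η) : ∃ (K : ℕ) (b : ℕ → ℝ → ℂ), (∀ k, Continuous (b k)) ∧
      (∀ k, k ∉ Finset.Icc 1 K → ∀ θ, b k θ = 0) ∧ Near d F K b η := by
  obtain ⟨K, b, hb, hb0, h⟩ := close hd hβ hF hη
  refine ⟨K, b, hb, hb0, ?_⟩
  obtain ⟨n1, r1, hr1, h1⟩ := h (d * c1 d) (by
    have := c1_pos d
    have hd0 : (0 : ℝ) < d := by exact_mod_cast (by omega : 0 < d)
    positivity)
  filter_upwards [(NN_tendsto hd).eventually_ge_atTop n1, ev_range,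
    nhdsWithin_le_nhds (lt_mem_nhds hr1)] with ρ h2 h3 h4
  exact h1 _ h2 ρ h4 h3.2.1 (NN_upper' hd (by linarith [h3.1]) h3.2.1 h3.2.2)

/-- two sets of data -/
theorem pair (hd : 2 ≤ d) {F : ℕ → ℂ → ℂ} (hF : IsLog d β F) {q : ℕ → ℤ} {e : ℕ → ℕ}
    (hqe : ∀ k, 1 ≤ k → ¬ (d : ℤ) ∣ q k ∧ (k : ℤ) = q k * (d : ℤ) ^ e k)
    {K₁ K₂ : ℕ} {b₁ b₂ : ℕ → ℝ → ℂ} (hb₁ : ∀ k, Continuous (b₁ k)) (hb₂ : ∀ k, Continuous (b₂ k))
    (h₁ : ∀ k, k ∉ Finset.Icc 1 K₁ → ∀ θ, b₁ k θ = 0) (h₂ : ∀ k, k ∉ Finset.Icc 1 K₂ → ∀ θ, b₂ k θ = 0)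
    {η₁ η₂ : ℝ} (n₁ : Near d F K₁ b₁ η₁) (n₂ : Near d F K₂ b₂ η₂) :
    ∫ θ, |sg K₁ q (fun k => b₁ k θ) - sg K₂ q (fun k => b₂ k θ)| ^ 2 ∂Pm ≤ 2 * (η₁ + η₂) := by
  set K := max K₁ K₂ with hK
  have e1 : K₁ ≤ K := le_max_left _ _
  have e2 : K₂ ≤ K := le_max_right _ _
  have hbc : ∀ k, Continuous fun θ => b₁ k θ - b₂ k θ := fun k => (hb₁ k).sub (hb₂ k)
  have hA : ∀ᶠ ρ in 𝓝[<] (1 : ℝ), ∫ θ, (TK d K (fun k => b₁ k θ - b₂ k θ) (NN d ρ) θ).re ^ 2 ∂Pm ≤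
      2 * (η₁ + η₂) * NN d ρ := by
    filter_upwards [n₁, n₂, ev_range] with ρ m₁ m₂ hρ
    have hρ0 : 0 < ρ := by linarith [hρ.1]
    have hSc : Continuous fun θ => SS F (NN d ρ) (circleMap 0 ρ θ) := comp_cont (SS_diff hF _) hρ0 hρ.2.1
    have hT1 : Continuous fun θ => TK d K₁ (fun k => b₁ k θ) (NN d ρ) θ := TK_cont K₁ b₁ hb₁ _
    have hT2 : Continuous fun θ => TK d K₂ (fun k => b₂ k θ) (NN d ρ) θ := TK_cont K₂ b₂ hb₂ _
    have hT : Continuous fun θ => TK d K (fun k => b₁ k θ - b₂ k θ) (NN d ρ) θ :=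
      TK_cont K (fun k θ => b₁ k θ - b₂ k θ) hbc _
    have i0 : Integrable (fun θ => (TK d K (fun k => b₁ k θ - b₂ k θ) (NN d ρ) θ).re ^ 2) Pm :=
      Continuous.integrable_Pm ((continuous_re.comp hT).pow 2)
    have i1 : Integrable (fun θ => 2 * ‖SS F (NN d ρ) (circleMap 0 ρ θ) -
        TK d K₁ (fun k => b₁ k θ) (NN d ρ) θ‖ ^ 2) Pm :=
      Continuous.integrable_Pm (continuous_const.mul ((hSc.sub hT1).norm.pow 2))
    have i2 : Integrable (fun θ => 2 * ‖SS F (NN d ρ) (circleMap 0 ρ θ) -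
        TK d K₂ (fun k => b₂ k θ) (NN d ρ) θ‖ ^ 2) Pm :=
      Continuous.integrable_Pm (continuous_const.mul ((hSc.sub hT2).norm.pow 2))
    have h3 : ∫ θ, (TK d K (fun k => b₁ k θ - b₂ k θ) (NN d ρ) θ).re ^ 2 ∂Pm ≤
        ∫ θ, (2 * ‖SS F (NN d ρ) (circleMap 0 ρ θ) - TK d K₁ (fun k => b₁ k θ) (NN d ρ) θ‖ ^ 2 +
          2 * ‖SS F (NN d ρ) (circleMap 0 ρ θ) - TK d K₂ (fun k => b₂ k θ) (NN d ρ) θ‖ ^ 2) ∂Pm := by
      apply integral_mono i0 (i1.add i2)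
      intro θ
      change (TK d K (fun k => b₁ k θ - b₂ k θ) (NN d ρ) θ).re ^ 2 ≤
        2 * ‖SS F (NN d ρ) (circleMap 0 ρ θ) - TK d K₁ (fun k => b₁ k θ) (NN d ρ) θ‖ ^ 2 +
          2 * ‖SS F (NN d ρ) (circleMap 0 ρ θ) - TK d K₂ (fun k => b₂ k θ) (NN d ρ) θ‖ ^ 2
      have h4 : TK d K (fun k => b₁ k θ - b₂ k θ) (NN d ρ) θ =
          TK d K₁ (fun k => b₁ k θ) (NN d ρ) θ - TK d K₂ (fun k => b₂ k θ) (NN d ρ) θ := by
        rw [TK_sub, TK_ext e1 (fun k hk => h₁ k hk θ), TK_ext e2 (fun k hk => h₂ k hk θ)]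
      rw [h4]
      set S := SS F (NN d ρ) (circleMap 0 ρ θ)
      set A := TK d K₁ (fun k => b₁ k θ) (NN d ρ) θ
      set B := TK d K₂ (fun k => b₂ k θ) (NN d ρ) θ
      have h5 : (A - B).re ^ 2 ≤ ‖A - B‖ ^ 2 := by
        rw [← sq_abs]
        exact pow_le_pow_left₀ (abs_nonneg _) (abs_re_le_norm _) 2
      have h6 : ‖A - B‖ ≤ ‖S - A‖ + ‖S - B‖ := by
        have : A - B = (S - B) - (S - A) := by ring
        rw [this]
        refine (norm_sub_le _ _).trans (le_of_eq (add_comm _ _))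
      have h7 := norm_nonneg (A - B)
      nlinarith [sq_nonneg (‖S - A‖ - ‖S - B‖)]
    refine h3.trans ?_
    rw [integral_add i1 i2, integral_const_mul, integral_const_mul]
    linarith
  have h3 := second hd hqe hbc (NN_tendsto hd) hA
  refine le_trans ?_ h3
  have c1' : Continuous fun θ => sg K₁ q (fun k => b₁ k θ) := (vr_cont K₁ q hb₁).sqrt
  have c2' : Continuous fun θ => sg K₂ q (fun k => b₂ k θ) := (vr_cont K₂ q hb₂).sqrt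
  have j1 : Integrable (fun θ => |sg K₁ q (fun k => b₁ k θ) - sg K₂ q (fun k => b₂ k θ)| ^ 2) Pm :=
    Continuous.integrable_Pm ((c1'.sub c2').abs.pow 2)
  have j2 : Integrable (fun θ => vr K q (fun k => b₁ k θ - b₂ k θ)) Pm :=
    Continuous.integrable_Pm (vr_cont K q hbc)
  apply integral_mono j1 j2
  intro θ
  change |sg K₁ q (fun k => b₁ k θ) - sg K₂ q (fun k => b₂ k θ)| ^ 2 ≤ vr K q (fun k => b₁ k θ - b₂ k θ)
  rw [← sg_ext e1 q (fun k hk => h₁ k hk θ), ← sg_ext e2 q (fun k hk => h₂ k hk θ), ← sg_sq]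
  exact pow_le_pow_left₀ (abs_nonneg _) (sg_sub K q _ _) 2

theorem memLp_cont {f : ℝ → ℝ} (hf : Continuous f) : MemLp f 2 Pm := by
  obtain ⟨C, hC⟩ := (isCompact_Icc (a := (0 : ℝ)) (b := 2 * Real.pi)).exists_bound_of_continuousOn
    hf.continuousOn
  refine MemLp.of_bound hf.aestronglyMeasurable C ?_
  filter_upwards [ae_Pm] with θ hθ
  exact hC θ ⟨hθ.1.le, hθ.2⟩

/-- **existence of the standard deviation** -/
theorem exists_sigma (hd : 2 ≤ d) (hβ : IsBeta d β) {F : ℕ → ℂ → ℂ} (hF : IsLog d β F) {q : ℕ → ℤ}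
    {e : ℕ → ℕ} (hqe : ∀ k, 1 ≤ k → ¬ (d : ℤ) ∣ q k ∧ (k : ℤ) = q k * (d : ℤ) ^ e k) :
    ∃ (K : ℕ → ℕ) (b : ℕ → ℕ → ℝ → ℂ) (s : ℝ → ℝ), (∀ m k, Continuous (b m k)) ∧
      (∀ m k, k ∉ Finset.Icc 1 (K m) → ∀ θ, b m k θ = 0) ∧
      (∀ m, Near d F (K m) (b m) ((1 / 4) ^ m)) ∧ Measurable s ∧ (∀ θ, 0 ≤ s θ) ∧ MemLp s 2 Pm ∧
      Tendsto (fun m => ∫ θ, |sg (K m) q (fun k => b m k θ) - s θ| ∂Pm) atTop (𝓝 0) := by
  have h : ∀ m : ℕ, ∃ (K : ℕ) (b : ℕ → ℝ → ℂ), (∀ k, Continuous (b k)) ∧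
      (∀ k, k ∉ Finset.Icc 1 K → ∀ θ, b k θ = 0) ∧ Near d F K b ((1 / 4) ^ m) :=
    fun m => exists_near hd hβ hF (by positivity)
  choose K b hb hb0 hn using h
  set f : ℕ → ℝ → ℝ := fun m θ => sg (K m) q (fun k => b m k θ) with hf
  have hfc : ∀ m, Continuous (f m) := fun m => (vr_cont (K m) q (hb m)).sqrt
  have hfm : ∀ m, MemLp (f m) 2 Pm := fun m => memLp_cont (hfc m)
  set B : ℕ → ENNReal := fun N => ENNReal.ofReal (3 * (1 / 2) ^ N) with hB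
  have hBs : ∑' i, B i ≠ ⊤ := by
    have h1 : Summable fun N : ℕ => 3 * (1 / 2 : ℝ) ^ N :=
      (summable_geometric_of_lt_one (by norm_num) (by norm_num)).mul_left 3
    exact h1.tsum_ofReal_ne_top
  have hcau : ∀ N n m : ℕ, N ≤ n → N ≤ m → eLpNorm (f n - f m) 2 Pm < B N := by
    intro N n m hNn hNm
    rw [((hfm n).sub (hfm m)).eLpNorm_eq_integral_rpow_norm two_ne_zero ENNReal.ofNat_ne_top, hB]
    simp only [ENNReal.toReal_ofNat]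
    apply ENNReal.ofReal_lt_ofReal_iff_of_nonneg (by positivity) |>.2
    have h1 := pair hd hF hqe (hb n) (hb m) (hb0 n) (hb0 m) (hn n) (hn m)
    have h2 : ∫ θ, ‖(f n - f m) θ‖ ^ (2 : ℝ) ∂Pm ≤ (2 * (1 / 2) ^ N) ^ 2 := by
      have h3 : ∫ θ, ‖(f n - f m) θ‖ ^ (2 : ℝ) ∂Pm =
          ∫ θ, |sg (K n) q (fun k => b n k θ) - sg (K m) q (fun k => b m k θ)| ^ 2 ∂Pm := by
        congr 1
        funext θ
        rw [Real.rpow_two]
        rfl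
      rw [h3]
      refine h1.trans ?_
      have e1 : ((1 : ℝ) / 4) ^ n ≤ (1 / 4) ^ N := pow_le_pow_of_le_one (by norm_num) (by norm_num) hNn
      have e2 : ((1 : ℝ) / 4) ^ m ≤ (1 / 4) ^ N := pow_le_pow_of_le_one (by norm_num) (by norm_num) hNm
      have e3 : (2 * (1 / 2 : ℝ) ^ N) ^ 2 = 4 * (1 / 4) ^ N := by
        rw [mul_pow, ← pow_mul, mul_comm N 2, pow_mul]; norm_num
      rw [e3]
      linarith
    have h4 : (∫ θ, ‖(f n - f m) θ‖ ^ (2 : ℝ) ∂Pm) ^ ((2 : ℝ)⁻¹) ≤ 2 * (1 / 2) ^ N := by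
      have h5 : 0 ≤ ∫ θ, ‖(f n - f m) θ‖ ^ (2 : ℝ) ∂Pm := integral_nonneg fun _ => by positivity
      calc (∫ θ, ‖(f n - f m) θ‖ ^ (2 : ℝ) ∂Pm) ^ ((2 : ℝ)⁻¹) ≤ ((2 * (1 / 2) ^ N) ^ 2) ^ ((2 : ℝ)⁻¹) :=
            Real.rpow_le_rpow h5 h2 (by norm_num)
        _ = 2 * (1 / 2) ^ N := by
            rw [← Real.rpow_natCast, ← Real.rpow_mul (by positivity)]
            norm_num
    have h6 : (0 : ℝ) < (1 / 2) ^ N := by positivity
    linarith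
  obtain ⟨g, hg, hlim⟩ := Lp.cauchy_complete_eLpNorm (p := 2) (by norm_num) hfm hBs hcau
  set g' : ℝ → ℝ := hg.1.mk g with hg'
  have hgm : StronglyMeasurable g' := hg.1.stronglyMeasurable_mk
  have hge : g =ᵐ[Pm] g' := hg.1.ae_eq_mk
  refine ⟨K, b, fun θ => |g' θ|, hb, hb0, hn, hgm.measurable.abs, fun θ => abs_nonneg _,
    ((memLp_congr_ae hge).1 hg).abs, ?_⟩
  -- convergence in mean
  have h1 : Tendsto (fun m => (eLpNorm (f m - g) 2 Pm).toReal) atTop (𝓝 0) := by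
    have := (ENNReal.tendsto_toReal ENNReal.zero_ne_top).comp hlim
    rw [ENNReal.toReal_zero] at this
    exact this
  apply squeeze_zero (fun m => integral_nonneg fun θ => abs_nonneg _) _ h1
  intro m
  have hmem : MemLp (f m - g) 2 Pm := (hfm m).sub hg
  have hmem1 : MemLp (f m - g) 1 Pm := hmem.mono_exponent (by norm_num)
  have h2 : ∫ θ, |sg (K m) q (fun k => b m k θ) - (|g' θ|)| ∂Pm ≤ ∫ θ, ‖(f m - g) θ‖ ∂Pm := by
    apply integral_mono_of_nonneg (Eventually.of_forall fun θ => abs_nonneg _)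
      (memLp_one_iff_integrable.1 hmem1).norm
    filter_upwards [hge] with θ hθ
    change |f m θ - (|g' θ|)| ≤ |f m θ - g θ|
    rw [hθ]
    have h3 : 0 ≤ f m θ := sg_nonneg _ _ _
    nth_rewrite 1 [← abs_of_nonneg h3]
    exact abs_abs_sub_abs_le_abs_sub _ _
  refine h2.trans ?_
  rw [integral_norm_eq_lintegral_enorm hmem1.1, ← eLpNorm_one_eq_lintegral_enorm]
  apply ENNReal.toReal_mono hmem.2.ne
  exact eLpNorm_le_eLpNorm_of_exponent_le (by norm_num) hmem.1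

end Pool.Agent.H439.MC
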