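import Mathlib
import Pool.Agent.H439.MC.Sig

/-!
# Characteristic functions of the logarithm of the derivative of the exterior map
-/

set_option autoImplicit false

namespace Pool.Agent.H439.MC

open Complex Set Topology Filter Metric MeasureTheory N62a1eb23 Pool.Agent.H712R2
  Pool.Agent.H713R2 Pool.Agent.TH653.MB
open Real (circleAverage)

variable {d : ℕ} {β : ℂ → ℂ}

/-- the normalised logarithm of the derivative -/
noncomputable def Zr (β : ℂ → ℂ) (ρ θ : ℝ) : ℝ := Real.log ‖qq β (circleMap 0 ρ θ)‖ / √(Lr ρ)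

/-- the constant -/
noncomputable def kap (d : ℕ) : ℝ := ((d - 1 : ℕ) : ℝ) / √(Real.log d)

theorem kap_pos (hd : 2 ≤ d) : 0 < kap d := by
  unfold kap
  have h1 : (0 : ℝ) < ((d - 1 : ℕ) : ℝ) := by exact_mod_cast (by omega : 0 < d - 1)
  have h2 := Real.sqrt_pos.2 (logd_pos hd)
  positivity

theorem Zr_cont (hβ : IsBeta d β) {ρ : ℝ} (h0 : 0 < ρ) (h1 : ρ < 1) :
    Continuous fun θ => Real.log ‖qq β (circleMap 0 ρ θ)‖ := by
  apply Continuous.log (comp_cont (qq_diff hβ) h0 h1).norm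
  intro θ
  exact norm_ne_zero_iff.2 (qq_ne hβ (circleMap_mem h0 h1 θ))

theorem TK_one (hd : 2 ≤ d) {K : ℕ} {b : ℕ → ℝ → ℂ} (hb : ∀ k, Continuous (b k)) :
    ∃ C : ℝ, 0 < C ∧ ∀ n : ℕ, ∫ θ, |(TK d K (fun k => b k θ) n θ).re| ∂Pm ≤ C * √n := by
  obtain ⟨⟨Bd, hBd0, hBd⟩, -⟩ := osc hb K
  refine ⟨Bd * K + 1, by positivity, fun n => ?_⟩
  have hTc : Continuous fun θ => TK d K (fun k => b k θ) n θ := TK_cont K b hb n
  have i1 : Integrable (fun θ => |(TK d K (fun k => b k θ) n θ).re|) Pm :=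
    Continuous.integrable_Pm (continuous_re.comp hTc).abs
  have i2 : ∀ k ∈ Finset.Icc 1 K, Integrable (fun θ => Bd * ‖Lam d (Finset.range n) (fun _ => 1) k θ‖) Pm :=
    fun k _ => Continuous.integrable_Pm (continuous_const.mul (Lam_cont _ _ _ _).norm)
  have h1 : ∫ θ, |(TK d K (fun k => b k θ) n θ).re| ∂Pm ≤
      ∫ θ, ∑ k ∈ Finset.Icc 1 K, Bd * ‖Lam d (Finset.range n) (fun _ => 1) k θ‖ ∂Pm := by
    apply integral_mono_ae i1 (integrable_finsetSum _ i2)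
    filter_upwards [ae_Pm] with θ hθ
    refine (abs_re_le_norm _).trans ?_
    rw [TK_eq]
    refine (norm_sum_le _ _).trans (Finset.sum_le_sum fun k hk => ?_)
    rw [norm_mul]
    exact mul_le_mul_of_nonneg_right (hBd θ ⟨hθ.1.le, hθ.2⟩ k hk) (norm_nonneg _)
  refine h1.trans ?_
  rw [integral_finsetSum _ i2]
  have h2 : ∀ k ∈ Finset.Icc 1 K, ∫ θ, Bd * ‖Lam d (Finset.range n) (fun _ => 1) k θ‖ ∂Pm ≤ Bd * √n := by
    intro k hk
    rw [integral_const_mul]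
    exact mul_le_mul_of_nonneg_left (Lam_one hd n (Finset.mem_Icc.1 hk).1) hBd0.le
  refine (Finset.sum_le_sum h2).trans ?_
  rw [Finset.sum_const, Nat.card_Icc, Nat.add_sub_cancel, nsmul_eq_mul]
  nlinarith [Real.sqrt_nonneg (n : ℝ)]

/-- comparison in mean -/
theorem mean_close (hd : 2 ≤ d) (hβ : IsBeta d β) {F : ℕ → ℂ → ℂ} (hF : IsLog d β F) {K : ℕ}
    {b : ℕ → ℝ → ℂ} (hb : ∀ k, Continuous (b k)) {η : ℝ} (hη : 0 ≤ η) (hn : Near d F K b (η ^ 2)) {ε : ℝ}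
    (hε : 0 < ε) : ∀ᶠ ρ in 𝓝[<] (1 : ℝ),
      ∫ θ, |Zr β ρ θ - -kap d / √(NN d ρ) * (TK d K (fun k => b k θ) (NN d ρ) θ).re| ∂Pm ≤ kap d * η + ε := by
  obtain ⟨C, hC0, hC⟩ := Tmain hd hβ hF
  obtain ⟨Ct, hCt0, hCt⟩ := TK_one hd hb (K := K)
  set D : ℝ := ((d - 1 : ℕ) : ℝ) with hD
  have hD0 : 0 ≤ D := Nat.cast_nonneg _
  have hld := logd_pos hd
  have hsld : 0 < √(Real.log d) := Real.sqrt_pos.2 hld
  set bound : ℝ → ℝ := fun ρ => C * ((1 + Real.log (NN d ρ)) / √(NN d ρ : ℝ)) * (√(NN d ρ : ℝ) / √(Lr ρ)) +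
    D * η * (√(NN d ρ : ℝ) / √(Lr ρ)) + D * Ct * |√(NN d ρ : ℝ) / √(Lr ρ) - 1 / √(Real.log d)| with hbound
  have hlim : Tendsto bound (𝓝[<] 1) (𝓝 (C * 0 * (1 / √(Real.log d)) + D * η * (1 / √(Real.log d)) +
      D * Ct * |1 / √(Real.log d) - 1 / √(Real.log d)|)) := by
    have h1 := ratio_tendsto hd
    have h2 : Tendsto (fun ρ => (1 + Real.log (NN d ρ)) / √(NN d ρ : ℝ)) (𝓝[<] 1) (𝓝 0) := by
      have h3 : Tendsto (fun x : ℝ => (1 + Real.log x) / √x) atTop (𝓝 0) := by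
        have h4 : Tendsto (fun x : ℝ => Real.log x / √x) atTop (𝓝 0) := by
          have := (isLittleO_log_rpow_atTop (by norm_num : (0 : ℝ) < 1 / 2)).tendsto_div_nhds_zero
          simpa [Real.sqrt_eq_rpow] using this
        have h5 : Tendsto (fun x : ℝ => 1 / √x) atTop (𝓝 0) :=
          tendsto_const_nhds.div_atTop Real.tendsto_sqrt_atTop
        have h6 := h5.add h4
        rw [add_zero] at h6
        apply h6.congr
        intro x
        rw [add_div]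
      exact h3.comp (tendsto_natCast_atTop_atTop.comp (NN_tendsto hd))
    exact (((h2.const_mul C).mul h1).add (h1.const_mul (D * η))).add
      ((h1.sub tendsto_const_nhds).abs.const_mul (D * Ct))
  have hval : C * 0 * (1 / √(Real.log d)) + D * η * (1 / √(Real.log d)) +
      D * Ct * |1 / √(Real.log d) - 1 / √(Real.log d)| = kap d * η := by
    rw [sub_self, abs_zero]
    unfold kap
    ring
  rw [hval] at hlim
  filter_upwards [hlim.eventually (ge_mem_nhds (by linarith : kap d * η < kap d * η + ε)), hn, ev_range,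
    Lr_tendsto.eventually_gt_atTop 0, (NN_tendsto hd).eventually_ge_atTop 1] with ρ h1 h2 h3 h4 h5
  refine le_trans ?_ h1
  have hρ0 : 0 < ρ := by linarith [h3.1]
  have hρ1 : ρ < 1 := h3.2.1
  set N := NN d ρ with hN
  have hN0 : (0 : ℝ) < N := by exact_mod_cast h5
  have hsN : 0 < √(N : ℝ) := Real.sqrt_pos.2 hN0
  have hsL : 0 < √(Lr ρ) := Real.sqrt_pos.2 h4
  have hSc : Continuous fun θ => SS F N (circleMap 0 ρ θ) := comp_cont (SS_diff hF _) hρ0 hρ1
  have hTc : Continuous fun θ => TK d K (fun k => b k θ) N θ := TK_cont K b hb _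
  have hqc := Zr_cont hβ hρ0 hρ1
  set A1 : ℝ → ℝ := fun θ => |Real.log ‖qq β (circleMap 0 ρ θ)‖ + D * (SS F N (circleMap 0 ρ θ)).re| with hA1
  set A2 : ℝ → ℝ := fun θ => ‖SS F N (circleMap 0 ρ θ) - TK d K (fun k => b k θ) N θ‖ with hA2
  set A3 : ℝ → ℝ := fun θ => |(TK d K (fun k => b k θ) N θ).re| with hA3
  have c1 : Continuous A1 := (hqc.add (continuous_const.mul (continuous_re.comp hSc))).abs
  have c2 : Continuous A2 := (hSc.sub hTc).norm
  have c3 : Continuous A3 := (continuous_re.comp hTc).abs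
  have e1 : ∫ θ, A1 θ ∂Pm ≤ C * (1 + Real.log N) := by
    have := hC N ρ h5 hρ0 hρ1 (pow_NN_lt hd hρ0 hρ1)
    rwa [circleAverage_eq_Pm] at this
  have e2 : ∫ θ, A2 θ ∂Pm ≤ η * √N := by
    apply av_norm_le (hSc.sub hTc) (by positivity)
    rw [mul_pow, Real.sq_sqrt hN0.le]
    exact h2
  have e3 : ∫ θ, A3 θ ∂Pm ≤ Ct * √N := hCt N
  set w : ℝ := |1 / √(Lr ρ) - 1 / (√(Real.log d) * √(N : ℝ))| with hw
  have hpt : ∀ θ, |Zr β ρ θ - -kap d / √N * (TK d K (fun k => b k θ) N θ).re| ≤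
      1 / √(Lr ρ) * A1 θ + (D / √(Lr ρ)) * A2 θ + D * w * A3 θ := by
    intro θ
    have h6 : Zr β ρ θ - -kap d / √N * (TK d K (fun k => b k θ) N θ).re =
        1 / √(Lr ρ) * (Real.log ‖qq β (circleMap 0 ρ θ)‖ + D * (SS F N (circleMap 0 ρ θ)).re) +
        -(D / √(Lr ρ) * (SS F N (circleMap 0 ρ θ) - TK d K (fun k => b k θ) N θ).re) +
        -(D * (1 / √(Lr ρ) - 1 / (√(Real.log d) * √(N : ℝ))) * (TK d K (fun k => b k θ) N θ).re) := by
      unfold Zr kap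
      rw [sub_re]
      field_simp
      ring
    rw [h6]
    refine (abs_add_three _ _ _).trans (add_le_add (add_le_add ?_ ?_) ?_)
    · rw [abs_mul, abs_of_pos (by positivity : 0 < 1 / √(Lr ρ))]
    · rw [abs_neg, abs_mul, abs_of_nonneg (by positivity : 0 ≤ D / √(Lr ρ))]
      exact mul_le_mul_of_nonneg_left (abs_re_le_norm _) (by positivity)
    · rw [abs_neg, abs_mul, abs_mul, abs_of_nonneg hD0]
  have i0 : Integrable (fun θ => |Zr β ρ θ - -kap d / √N * (TK d K (fun k => b k θ) N θ).re|) Pm := by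
    apply Continuous.integrable_Pm
    unfold Zr
    exact ((hqc.div_const _).sub (continuous_const.mul (continuous_re.comp hTc))).abs
  have j1 : Integrable (fun θ => 1 / √(Lr ρ) * A1 θ) Pm := Continuous.integrable_Pm (continuous_const.mul c1)
  have j2 : Integrable (fun θ => (D / √(Lr ρ)) * A2 θ) Pm := Continuous.integrable_Pm (continuous_const.mul c2)
  have j3 : Integrable (fun θ => D * w * A3 θ) Pm := Continuous.integrable_Pm (continuous_const.mul c3)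
  have j12 : Integrable (fun θ => 1 / √(Lr ρ) * A1 θ + (D / √(Lr ρ)) * A2 θ) Pm := j1.add j2
  refine (integral_mono i0 (j12.add j3) hpt).trans ?_
  change ∫ θ, (1 / √(Lr ρ) * A1 θ + (D / √(Lr ρ)) * A2 θ + D * w * A3 θ) ∂Pm ≤ _
  rw [integral_add j12 j3, integral_add j1 j2, integral_const_mul, integral_const_mul, integral_const_mul]
  have f1 : 1 / √(Lr ρ) * ∫ θ, A1 θ ∂Pm ≤ C * ((1 + Real.log N) / √(N : ℝ)) * (√(N : ℝ) / √(Lr ρ)) := by
    calc _ ≤ 1 / √(Lr ρ) * (C * (1 + Real.log N)) := mul_le_mul_of_nonneg_left e1 (by positivity)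
      _ = _ := by field_simp
  have f2 : D / √(Lr ρ) * ∫ θ, A2 θ ∂Pm ≤ D * η * (√(N : ℝ) / √(Lr ρ)) := by
    calc _ ≤ D / √(Lr ρ) * (η * √N) := mul_le_mul_of_nonneg_left e2 (by positivity)
      _ = _ := by field_simp
  have f3 : D * w * ∫ θ, A3 θ ∂Pm ≤ D * Ct * |√(N : ℝ) / √(Lr ρ) - 1 / √(Real.log d)| := by
    have h7 : w * √(N : ℝ) = |√(N : ℝ) / √(Lr ρ) - 1 / √(Real.log d)| := by
      rw [hw]
      nth_rewrite 2 [← abs_of_pos hsN]
      rw [← abs_mul]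
      congr 1
      field_simp
    calc _ ≤ D * w * (Ct * √N) := mul_le_mul_of_nonneg_left e3 (by positivity)
      _ = D * Ct * (w * √N) := by ring
      _ = _ := by rw [h7]
  linarith

theorem gauss_lip2 (t x y : ℝ) :
    ‖exp (((-(t ^ 2 * x ^ 2 / 2) : ℝ) : ℂ)) - exp (((-(t ^ 2 * y ^ 2 / 2) : ℝ) : ℂ))‖ ≤ |t| * |x - y| := by
  rw [← Complex.ofReal_exp, ← Complex.ofReal_exp, ← Complex.ofReal_sub, Complex.norm_real]
  have h1 : ∀ u : ℝ, HasDerivAt (fun u : ℝ => Real.exp (-(u ^ 2 / 2))) (Real.exp (-(u ^ 2 / 2)) * (-u)) u := by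
    intro u
    have h2 : HasDerivAt (fun u : ℝ => -(u ^ 2 / 2)) (-u) u := by
      have h5 := ((hasDerivAt_pow 2 u).div_const 2).neg
      have h6 : -(((2 : ℕ) : ℝ) * u ^ (2 - 1) / 2) = -u := by norm_num
      rw [h6] at h5
      exact h5
    exact h2.exp
  have h2 : ∀ u : ℝ, ‖Real.exp (-(u ^ 2 / 2)) * (-u)‖ ≤ 1 := by
    intro u
    rw [norm_mul, norm_neg, Real.norm_eq_abs, Real.norm_eq_abs, abs_of_pos (Real.exp_pos _), Real.exp_neg]
    have h3 := Real.add_one_le_exp (u ^ 2 / 2)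
    have h4 : |u| ≤ Real.exp (u ^ 2 / 2) := by
      nlinarith [sq_nonneg (|u| - 1), sq_abs u]
    rw [inv_mul_le_iff₀ (Real.exp_pos _), mul_one]
    exact h4
  have h3 := Convex.norm_image_sub_le_of_norm_hasDerivWithin_le (f := fun u : ℝ => Real.exp (-(u ^ 2 / 2)))
    (f' := fun u : ℝ => Real.exp (-(u ^ 2 / 2)) * (-u)) (C := 1) (s := univ) (x := t * y) (y := t * x)
    (fun u _ => (h1 u).hasDerivWithinAt) (fun u _ => h2 u) convex_univ (mem_univ _) (mem_univ _)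
  rw [one_mul, ← mul_sub, norm_mul, Real.norm_eq_abs t, Real.norm_eq_abs (x - y)] at h3
  have e1 : -(t ^ 2 * x ^ 2 / 2) = -((t * x) ^ 2 / 2) := by ring
  have e2 : -(t ^ 2 * y ^ 2 / 2) = -((t * y) ^ 2 / 2) := by ring
  rw [e1, e2]
  exact h3

/-- **the limits of the characteristic functions** -/
theorem char_lim (hd : 2 ≤ d) (hβ : IsBeta d β) {F : ℕ → ℂ → ℂ} (hF : IsLog d β F) {q : ℕ → ℤ}
    {e : ℕ → ℕ} (hqe : ∀ k, 1 ≤ k → ¬ (d : ℤ) ∣ q k ∧ (k : ℤ) = q k * (d : ℤ) ^ e k)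
    {K : ℕ → ℕ} {b : ℕ → ℕ → ℝ → ℂ} {s : ℝ → ℝ} (hb : ∀ m k, Continuous (b m k))
    (hn : ∀ m, Near d F (K m) (b m) ((1 / 4) ^ m)) (hs : Measurable s) (hs2 : MemLp s 2 Pm)
    (hlim : Tendsto (fun m => ∫ θ, |sg (K m) q (fun k => b m k θ) - s θ| ∂Pm) atTop (𝓝 0))
    {φ : ℝ → ℂ} (hφ : Continuous φ) {M : ℝ} (hM : ∀ θ, ‖φ θ‖ ≤ M) (t : ℝ) :
    Tendsto (fun ρ : ℝ => ∫ θ, φ θ * exp (I * ((t * Zr β ρ θ : ℝ) : ℂ)) ∂Pm) (𝓝[<] 1)
      (𝓝 (∫ θ, φ θ * exp (((-(t ^ 2 * (kap d * s θ) ^ 2 / 2) : ℝ) : ℂ)) ∂Pm)) := by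
  have hM0 : 0 ≤ M := (norm_nonneg _).trans (hM 0)
  have hk := kap_pos hd
  rw [Metric.tendsto_nhds]
  intro ε hε
  set A : ℝ := M * |t| * kap d + 1 with hA
  have hA0 : 0 < A := by positivity
  have hgeo : Tendsto (fun m : ℕ => (1 / 2 : ℝ) ^ m) atTop (𝓝 0) :=
    tendsto_pow_atTop_nhds_zero_of_lt_one (by norm_num) (by norm_num)
  obtain ⟨m, hm1, hm2⟩ := ((hgeo.eventually (gt_mem_nhds (by positivity : 0 < ε / (8 * A)))).and
    (hlim.eventually (gt_mem_nhds (by positivity : 0 < ε / (4 * A))))).exists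
  have hη2 : ((1 / 4 : ℝ)) ^ m = ((1 / 2) ^ m) ^ 2 := by
    rw [← pow_mul, mul_comm, pow_mul]; norm_num
  have hnm := hn m
  rw [hη2] at hnm
  set η : ℝ := (1 / 2) ^ m with hη
  have hη0 : 0 ≤ η := by positivity
  have h1 := mean_close hd hβ hF (hb m) hη0 hnm (ε := ε / (8 * (M * |t| + 1))) (by positivity)
  set t' : ℝ := -(t * kap d) with ht'
  have h2 := (mix_cont hd (K := K m) hqe (hb m) hφ hM t').comp (NN_tendsto hd)
  have h3 := (Metric.tendsto_nhds.1 h2) (ε / 4) (by positivity)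
  filter_upwards [h1, h3, ev_range, (NN_tendsto hd).eventually_ge_atTop 1] with ρ h4 h5 h6 h7
  have hρ0 : 0 < ρ := by linarith [h6.1]
  have hρ1 : ρ < 1 := h6.2.1
  simp only [Function.comp] at h5
  set N := NN d ρ with hN
  have hqc := Zr_cont hβ hρ0 hρ1
  have hTc : Continuous fun θ => TK d (K m) (fun k => b m k θ) N θ := TK_cont (K m) (b m) (hb m) _
  have hZc : Continuous fun θ => Zr β ρ θ := by unfold Zr; exact hqc.div_const _
  -- first difference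
  have d1 : ‖∫ θ, φ θ * exp (I * ((t * Zr β ρ θ : ℝ) : ℂ)) ∂Pm -
      ∫ θ, φ θ * exp (I * ((t' / √N * (TK d (K m) (fun k => b m k θ) N θ).re : ℝ) : ℂ)) ∂Pm‖ ≤ ε / 4 := by
    have i1 : Integrable (fun θ => φ θ * exp (I * ((t * Zr β ρ θ : ℝ) : ℂ))) Pm :=
      Continuous.integrable_Pm (by fun_prop)
    have i2 : Integrable (fun θ => φ θ * exp (I * ((t' / √N * (TK d (K m) (fun k => b m k θ) N θ).re : ℝ) : ℂ))) Pm :=
      Continuous.integrable_Pm (by fun_prop)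
    rw [← integral_sub i1 i2]
    refine (norm_integral_le_integral_norm _).trans ?_
    have i3 : Integrable (fun θ => |Zr β ρ θ - -kap d / √N * (TK d (K m) (fun k => b m k θ) N θ).re|) Pm :=
      Continuous.integrable_Pm (by fun_prop)
    have h8 : ∫ θ, ‖φ θ * exp (I * ((t * Zr β ρ θ : ℝ) : ℂ)) -
        φ θ * exp (I * ((t' / √N * (TK d (K m) (fun k => b m k θ) N θ).re : ℝ) : ℂ))‖ ∂Pm ≤
        ∫ θ, (M * |t|) * |Zr β ρ θ - -kap d / √N * (TK d (K m) (fun k => b m k θ) N θ).re| ∂Pm := by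
      apply integral_mono (i1.sub i2).norm (i3.const_mul _)
      intro θ
      change ‖φ θ * exp (I * ((t * Zr β ρ θ : ℝ) : ℂ)) -
        φ θ * exp (I * ((t' / √N * (TK d (K m) (fun k => b m k θ) N θ).re : ℝ) : ℂ))‖ ≤
        (M * |t|) * |Zr β ρ θ - -kap d / √N * (TK d (K m) (fun k => b m k θ) N θ).re|
      rw [← mul_sub, norm_mul, mul_assoc]
      apply mul_le_mul (hM θ) _ (norm_nonneg _) hM0
      refine (exp_I_lip _ _).trans (le_of_eq ?_)
      rw [← abs_mul]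
      congr 1
      rw [ht']
      ring
    refine h8.trans ?_
    rw [integral_const_mul]
    calc M * |t| * ∫ θ, |Zr β ρ θ - -kap d / √N * (TK d (K m) (fun k => b m k θ) N θ).re| ∂Pm
        ≤ M * |t| * (kap d * η + ε / (8 * (M * |t| + 1))) := mul_le_mul_of_nonneg_left h4 (by positivity)
      _ = M * |t| * kap d * η + M * |t| * (ε / (8 * (M * |t| + 1))) := by ring
      _ ≤ ε / 8 + ε / 8 := by
          apply add_le_add
          · calc M * |t| * kap d * η ≤ A * η := by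
                  apply mul_le_mul_of_nonneg_right _ hη0
                  rw [hA]; linarith
              _ ≤ A * (ε / (8 * A)) := mul_le_mul_of_nonneg_left hm1.le hA0.le
              _ = ε / 8 := by field_simp
          · calc M * |t| * (ε / (8 * (M * |t| + 1))) ≤ (M * |t| + 1) * (ε / (8 * (M * |t| + 1))) := by
                  apply mul_le_mul_of_nonneg_right _ (by positivity)
                  linarith
              _ = ε / 8 := by field_simp
      _ = ε / 4 := by ring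
  -- third difference
  have d3 : ‖∫ θ, φ θ * exp (((-(t' ^ 2 * vr (K m) q (fun k => b m k θ) / 2) : ℝ) : ℂ)) ∂Pm -
      ∫ θ, φ θ * exp (((-(t ^ 2 * (kap d * s θ) ^ 2 / 2) : ℝ) : ℂ)) ∂Pm‖ ≤ ε / 4 := by
    have hvc := vr_cont (K m) q (hb m)
    have i1 : Integrable (fun θ => φ θ * exp (((-(t' ^ 2 * vr (K m) q (fun k => b m k θ) / 2) : ℝ) : ℂ))) Pm :=
      Continuous.integrable_Pm (by fun_prop)
    have i2 : Integrable (fun θ => φ θ * exp (((-(t ^ 2 * (kap d * s θ) ^ 2 / 2) : ℝ) : ℂ))) Pm := by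
      apply (Continuous.integrable_Pm hφ).mul_bdd (c := 1)
      · apply Measurable.aestronglyMeasurable
        fun_prop
      · refine Eventually.of_forall fun θ => ?_
        rw [Complex.norm_exp, Complex.ofReal_re, Real.exp_le_one_iff]
        have : 0 ≤ t ^ 2 * (kap d * s θ) ^ 2 / 2 := by positivity
        linarith
    rw [← integral_sub i1 i2]
    refine (norm_integral_le_integral_norm _).trans ?_
    have hs1 : Integrable s Pm := hs2.integrable (by norm_num)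
    have hgc : Continuous fun θ => sg (K m) q (fun k => b m k θ) := hvc.sqrt
    have i3 : Integrable (fun θ => |sg (K m) q (fun k => b m k θ) - s θ|) Pm :=
      ((Continuous.integrable_Pm hgc).sub hs1).abs
    have h8 : ∫ θ, ‖φ θ * exp (((-(t' ^ 2 * vr (K m) q (fun k => b m k θ) / 2) : ℝ) : ℂ)) -
        φ θ * exp (((-(t ^ 2 * (kap d * s θ) ^ 2 / 2) : ℝ) : ℂ))‖ ∂Pm ≤
        ∫ θ, (M * |t| * kap d) * |sg (K m) q (fun k => b m k θ) - s θ| ∂Pm := by
      apply integral_mono (i1.sub i2).norm (i3.const_mul _)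
      intro θ
      change ‖φ θ * exp (((-(t' ^ 2 * vr (K m) q (fun k => b m k θ) / 2) : ℝ) : ℂ)) -
        φ θ * exp (((-(t ^ 2 * (kap d * s θ) ^ 2 / 2) : ℝ) : ℂ))‖ ≤
        (M * |t| * kap d) * |sg (K m) q (fun k => b m k θ) - s θ|
      rw [← mul_sub, norm_mul, mul_assoc, mul_assoc]
      apply mul_le_mul (hM θ) _ (norm_nonneg _) hM0
      have h9 : t' ^ 2 * vr (K m) q (fun k => b m k θ) = (t * kap d) ^ 2 * sg (K m) q (fun k => b m k θ) ^ 2 := by
        rw [sg_sq, ht', neg_sq]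
      have h10 : t ^ 2 * (kap d * s θ) ^ 2 = (t * kap d) ^ 2 * s θ ^ 2 := by ring
      rw [h9, h10]
      refine (gauss_lip2 _ _ _).trans (le_of_eq ?_)
      rw [abs_mul, abs_of_pos hk]
      ring
    refine h8.trans ?_
    rw [integral_const_mul]
    calc M * |t| * kap d * ∫ θ, |sg (K m) q (fun k => b m k θ) - s θ| ∂Pm
        ≤ A * (ε / (4 * A)) := mul_le_mul (by rw [hA]; linarith) hm2.le
          (integral_nonneg fun _ => abs_nonneg _) hA0.le
      _ = ε / 4 := by field_simp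
  rw [dist_eq_norm] at h5 ⊢
  calc _ = ‖(∫ θ, φ θ * exp (I * ((t * Zr β ρ θ : ℝ) : ℂ)) ∂Pm -
      ∫ θ, φ θ * exp (I * ((t' / √N * (TK d (K m) (fun k => b m k θ) N θ).re : ℝ) : ℂ)) ∂Pm) +
      ((∫ θ, φ θ * exp (I * ((t' / √N * (TK d (K m) (fun k => b m k θ) N θ).re : ℝ) : ℂ)) ∂Pm -
        ∫ θ, φ θ * exp (((-(t' ^ 2 * vr (K m) q (fun k => b m k θ) / 2) : ℝ) : ℂ)) ∂Pm) +
      (∫ θ, φ θ * exp (((-(t' ^ 2 * vr (K m) q (fun k => b m k θ) / 2) : ℝ) : ℂ)) ∂Pm -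
      ∫ θ, φ θ * exp (((-(t ^ 2 * (kap d * s θ) ^ 2 / 2) : ℝ) : ℂ)) ∂Pm))‖ := by
        congr 1; ring
    _ ≤ _ := norm_add_le _ _
    _ ≤ _ := add_le_add_right (norm_add_le _ _) _
    _ < ε := by linarith

end Pool.Agent.H439.MC
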