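import Mathlib
import Pool.Agent.H439.MC.Sig

/-!
# Kolmogorov's inequality
-/

set_option autoImplicit false

namespace Pool.Agent.H439.MC

open Complex Set Topology Filter Metric MeasureTheory N62a1eb23 Pool.Agent.H712R2
  Pool.Agent.H713R2 Pool.Agent.TH653.MB
open Real (circleAverage)

theorem sqrt_add_le (x y : ℝ) : √(x + y) ≤ √x + √y := by
  rcases le_total x 0 with hx | hx
  · rw [Real.sqrt_eq_zero_of_nonpos hx, zero_add]
    exact Real.sqrt_le_sqrt (by linarith)
  rcases le_total y 0 with hy | hy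
  · rw [Real.sqrt_eq_zero_of_nonpos hy, add_zero]
    exact Real.sqrt_le_sqrt (by linarith)
  rw [Real.sqrt_le_left (by positivity)]
  nlinarith [Real.sq_sqrt hx, Real.sq_sqrt hy, Real.sqrt_nonneg x, Real.sqrt_nonneg y,
    mul_nonneg (Real.sqrt_nonneg x) (Real.sqrt_nonneg y)]

/-- analytic functions with nonnegative real part -/
theorem pos_half {h : ℂ → ℂ} {ρ R : ℝ} (hρ : 0 < ρ) (hR : ρ < R)
    (hd : DifferentiableOn ℂ h (ball (0 : ℂ) R)) (hre : ∀ x ∈ ball (0 : ℂ) R, 0 ≤ (h x).re) {A : ℝ}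
    (hA : ‖h 0‖ ≤ A) : circleAverage (fun x => √‖h x‖) 0 ρ ≤ √2 * √(A + 1) := by
  have hsl : ∀ x ∈ ball (0 : ℂ) R, h x + 1 ∈ slitPlane := by
    intro x hx
    left
    rw [add_re, one_re]
    linarith [hre x hx]
  set w : ℂ → ℂ := fun x => exp (log (h x + 1) / 2) with hw
  have hwd : DifferentiableOn ℂ w (ball (0 : ℂ) R) :=
    (((hd.add_const 1).clog hsl).div_const 2).cexp
  have hw2 : ∀ x ∈ ball (0 : ℂ) R, w x * w x = h x + 1 := by
    intro x hx
    simp only [hw]
    rw [← exp_add, add_halves, exp_log (slitPlane_ne_zero (hsl x hx))]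
  have hwre : ∀ x ∈ ball (0 : ℂ) R, 0 ≤ (w x).re := by
    intro x hx
    simp only [hw]
    rw [exp_re]
    apply mul_nonneg (Real.exp_pos _).le
    apply Real.cos_nonneg_of_neg_pi_div_two_le_of_le
    · have h1 := neg_pi_lt_log_im (h x + 1)
      have : (log (h x + 1) / 2).im = (log (h x + 1)).im / 2 := by
        rw [show log (h x + 1) / 2 = ((1 / 2 : ℝ) : ℂ) * log (h x + 1) by push_cast; ring,
          Complex.im_ofReal_mul]
        ring
      rw [this]; linarith
    · have h1 := log_im_le_pi (h x + 1)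
      have : (log (h x + 1) / 2).im = (log (h x + 1)).im / 2 := by
        rw [show log (h x + 1) / 2 = ((1 / 2 : ℝ) : ℂ) * log (h x + 1) by push_cast; ring,
          Complex.im_ofReal_mul]
        ring
      rw [this]; linarith
  have hpt : ∀ x ∈ ball (0 : ℂ) R, √‖h x‖ ≤ √2 * (w x).re := by
    intro x hx
    have h1 := hw2 x hx
    have h2 : (w x).re * (w x).re - (w x).im * (w x).im = (h x).re + 1 := by
      have := congrArg Complex.re h1
      rwa [mul_re, add_re, one_re] at this
    have h3 : ‖w x‖ ^ 2 = ‖h x + 1‖ := by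
      rw [sq, ← norm_mul, h1]
    have h4 : ‖w x‖ ^ 2 = (w x).re * (w x).re + (w x).im * (w x).im := by
      rw [← Complex.normSq_eq_norm_sq, Complex.normSq_apply]
    have h5 : ‖h x‖ ≤ ‖h x + 1‖ := by
      apply le_of_sq_le_sq _ (norm_nonneg _)
      rw [← Complex.normSq_eq_norm_sq, ← Complex.normSq_eq_norm_sq, Complex.normSq_apply,
        Complex.normSq_apply, add_re, add_im, one_re, one_im]
      nlinarith [hre x hx]
    have h6 : ‖h x‖ ≤ 2 * (w x).re ^ 2 := by nlinarith [hre x hx]
    calc √‖h x‖ ≤ √(2 * (w x).re ^ 2) := Real.sqrt_le_sqrt h6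
      _ = √2 * (w x).re := by
          rw [Real.sqrt_mul (by norm_num), Real.sqrt_sq (hwre x hx)]
  have hsph : ∀ x ∈ sphere (0 : ℂ) |ρ|, x ∈ ball (0 : ℂ) R := by
    intro x hx
    rw [mem_sphere_zero_iff_norm, abs_of_pos hρ] at hx
    rw [mem_ball_zero_iff, hx]
    exact hR
  have h1 : circleAverage (fun x => √‖h x‖) 0 ρ ≤ circleAverage (fun x => √2 * (w x).re) 0 ρ := by
    apply Real.circleAverage_mono
    · exact ci_of_diff hρ hR hd.continuousOn.norm.sqrt
    · exact ci_of_diff hρ hR (continuousOn_const.mul (continuous_re.comp_continuousOn hwd.continuousOn))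
    · intro x hx
      exact hpt x (hsph x hx)
  have h2 : (fun x => √2 * (w x).re) = √2 • (fun x => (w x).re) := by funext x; simp
  rw [h2, Real.circleAverage_smul, smul_eq_mul, av_re hρ hR hwd] at h1
  refine h1.trans (mul_le_mul_of_nonneg_left ?_ (Real.sqrt_nonneg _))
  have h3 : (w 0).re ≤ ‖w 0‖ := re_le_norm _
  have h4 : ‖w 0‖ ^ 2 ≤ A + 1 := by
    rw [sq, ← norm_mul, hw2 0 (mem_ball_self (hρ.trans hR))]
    refine (norm_add_le _ _).trans ?_
    rw [norm_one]
    linarith
  calc (w 0).re ≤ ‖w 0‖ := h3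
    _ = √(‖w 0‖ ^ 2) := (Real.sqrt_sq (norm_nonneg _)).symm
    _ ≤ √(A + 1) := Real.sqrt_le_sqrt h4

/-- **Kolmogorov's inequality** -/
theorem kolmogorov {g : ℂ → ℂ} (hg : DifferentiableOn ℂ g (ball (0 : ℂ) 1)) (hg0 : g 0 = 0) {ρ R : ℝ}
    (hρ : 0 < ρ) (hR : ρ < R) (hR1 : R < 1) :
    circleAverage (fun x => √‖g x‖) 0 ρ ≤ 2 * (√2 * √(circleAverage (fun x => |(g x).re|) 0 R + 1)) := by
  have hR0 : 0 < R := hρ.trans hR
  have hsub : ball (0 : ℂ) R ⊆ ball 0 1 := ball_subset_ball hR1.le
  have hgc : DiffContOnCl ℂ g (ball 0 R) := by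
    apply DifferentiableOn.diffContOnCl
    rw [closure_ball _ hR0.ne']
    exact hg.mono (closedBall_subset_ball hR1)
  set u : ℂ → ℝ := fun ζ => max (g ζ).re 0 with hu
  have huc : ContinuousOn u (ball (0 : ℂ) 1) := (continuous_re.comp_continuousOn hg.continuousOn).sup continuousOn_const
  have hui : CircleIntegrable u 0 R := ci_of_diff hR0 hR1 huc
  have hrei : CircleIntegrable (fun x => (g x).re) 0 R :=
    ci_of_diff hR0 hR1 (continuous_re.comp_continuousOn hg.continuousOn)
  have hui' : CircleIntegrable (fun ζ => (u ζ : ℂ)) 0 R :=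
    ci_of_diff hR0 hR1 (continuous_ofReal.comp_continuousOn huc)
  set G : ℂ → ℂ := fun w => circleAverage (fun ζ => herglotzRieszKernel 0 w ζ • (u ζ : ℂ)) 0 R with hG
  have hGd : DifferentiableOn ℂ G (ball 0 R) := differentiableOn_circleAverage_herglotzRieszKernel_smul hui'
  have hGre : ∀ w ∈ ball (0 : ℂ) R, (G w).re =
      circleAverage ((Complex.re ∘ herglotzRieszKernel 0 w) • u) 0 R := fun w hw =>
    re_circleAverage_herglotzRieszKernel_smul hui hw
  have hkc : ∀ w ∈ ball (0 : ℂ) R, ContinuousOn (Complex.re ∘ herglotzRieszKernel 0 w) (sphere 0 |R|) :=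
    fun w hw => continuous_re.comp_continuousOn (continuousOn_herglotzRieszKernel_sphere hw)
  have hsph : sphere (0 : ℂ) |R| ⊆ ball 0 1 := by
    intro x hx
    rw [mem_sphere_zero_iff_norm, abs_of_pos hR0] at hx
    rw [mem_ball_zero_iff, hx]
    exact hR1
  have hki : ∀ w ∈ ball (0 : ℂ) R, ∀ v : ℂ → ℝ, ContinuousOn v (ball 0 1) →
      CircleIntegrable ((Complex.re ∘ herglotzRieszKernel 0 w) • v) 0 R := by
    intro w hw v hv
    apply ContinuousOn.circleIntegrable'
    exact (hkc w hw).smul (hv.mono hsph)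
  have hkpos : ∀ w ∈ ball (0 : ℂ) R, ∀ z ∈ sphere (0 : ℂ) |R|,
      0 ≤ (Complex.re ∘ herglotzRieszKernel 0 w) z := by
    intro w hw z hz
    rw [abs_of_pos hR0] at hz
    have h1 := le_re_herglotzRieszKernel hz hw
    refine le_trans ?_ h1
    rw [mem_ball_zero_iff] at hw
    rw [sub_zero]
    apply div_nonneg
    · linarith
    · have := norm_nonneg w
      linarith
  have hPre : ∀ w ∈ ball (0 : ℂ) R, (g w).re =
      circleAverage ((Complex.re ∘ herglotzRieszKernel 0 w) • (fun x => (g x).re)) 0 R := by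
    intro w hw
    have h1 := hgc.circleAverage_re_herglotzRieszKernel_smul hw
    have hi : CircleIntegrable ((Complex.re ∘ herglotzRieszKernel 0 w) • g) 0 R := by
      apply ContinuousOn.circleIntegrable'
      exact (hkc w hw).smul (hg.continuousOn.mono hsph)
    have h2 := Complex.reCLM.circleAverage_comp_comm hi
    rw [h1] at h2
    refine h2.symm.trans ?_
    congr 1
    funext x
    simp
  have hG1 : ∀ w ∈ ball (0 : ℂ) R, 0 ≤ (G w).re := by
    intro w hw
    rw [hGre w hw]
    have h1 := Real.circleAverage_mono (c := 0) (R := R) (circleIntegrable_const (0 : ℝ) 0 R)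
      (hki w hw u huc) (fun x hx => by
        exact mul_nonneg (hkpos w hw x hx) (le_max_right _ _))
    rwa [Real.circleAverage_const] at h1
  have hG2 : ∀ w ∈ ball (0 : ℂ) R, 0 ≤ (G w - g w).re := by
    intro w hw
    rw [sub_re, sub_nonneg, hGre w hw, hPre w hw]
    apply Real.circleAverage_mono (hki w hw _ (continuous_re.comp_continuousOn hg.continuousOn))
      (hki w hw u huc)
    intro x hx
    exact mul_le_mul_of_nonneg_left (le_max_left _ _) (hkpos w hw x hx)
  set A : ℝ := circleAverage (fun x => |(g x).re|) 0 R with hA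
  have hG0 : ‖G 0‖ ≤ A := by
    have h1 : G 0 = circleAverage (fun ζ => (u ζ : ℂ)) 0 R := by
      simp only [hG]
      apply Real.circleAverage_congr_sphere
      intro ζ hζ
      have hζ0 : ζ ≠ 0 := by
        rintro rfl
        rw [mem_sphere_zero_iff_norm, norm_zero] at hζ
        exact hR0.ne' (abs_eq_zero.1 hζ.symm)
      simp only
      rw [herglotzRieszKernel_def]
      simp [hζ0]
    rw [h1]
    have h2 : (circleAverage (fun ζ => (u ζ : ℂ)) 0 R) = ((circleAverage u 0 R : ℝ) : ℂ) :=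
      Complex.ofRealCLM.circleAverage_comp_comm hui
    rw [h2, Complex.norm_real, Real.norm_of_nonneg]
    · apply Real.circleAverage_mono hui hrei.abs
      intro x _
      exact max_le (le_abs_self _) (abs_nonneg _)
    · have h1 := Real.circleAverage_mono (c := 0) (R := R) (circleIntegrable_const (0 : ℝ) 0 R) hui
        (fun x _ => le_max_right _ _)
      rwa [Real.circleAverage_const] at h1
  have k1 := pos_half hρ hR hGd hG1 hG0
  have k2 := pos_half hρ hR (hGd.sub (hg.mono hsub)) hG2 (A := A) (by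
    change ‖G 0 - g 0‖ ≤ A
    rw [hg0, sub_zero]
    exact hG0)
  have hGc : ContinuousOn (fun x => √‖G x‖) (ball 0 R) := hGd.continuousOn.norm.sqrt
  have hGgc : ContinuousOn (fun x => √‖G x - g x‖) (ball 0 R) :=
    (hGd.continuousOn.sub (hg.mono hsub).continuousOn).norm.sqrt
  have h1 : circleAverage (fun x => √‖g x‖) 0 ρ ≤
      circleAverage ((fun x => √‖G x‖) + (fun x => √‖G x - g x‖)) 0 ρ := by
    apply Real.circleAverage_mono (ci_of_diff hρ hR (hg.mono hsub).continuousOn.norm.sqrt)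
      ((ci_of_diff hρ hR hGc).add (ci_of_diff hρ hR hGgc))
    intro x _
    change √‖g x‖ ≤ √‖G x‖ + √‖G x - g x‖
    refine le_trans (Real.sqrt_le_sqrt ?_) (sqrt_add_le _ _)
    have : g x = G x - (G x - g x) := by ring
    calc ‖g x‖ = ‖G x - (G x - g x)‖ := by rw [← this]
      _ ≤ _ := norm_sub_le _ _
  rw [Real.circleAverage_add (ci_of_diff hρ hR hGc) (ci_of_diff hρ hR hGgc)] at h1
  have k2' : circleAverage (fun x => √‖G x - g x‖) 0 ρ ≤ √2 * √(A + 1) := k2
  linarith

end Pool.Agent.H439.MC
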