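import Mathlib
import Pool.Agent.H439.MC.Char
import Pool.Agent.H439.MC.Kol

/-!
# Characteristic functions of the complex logarithm of the derivative of the exterior map
-/

set_option autoImplicit false

namespace Pool.Agent.H439.MC

open Complex Set Topology Filter Metric MeasureTheory N62a1eb23 Pool.Agent.H712R2
  Pool.Agent.H713R2 Pool.Agent.TH653.MB
open Real (circleAverage)

variable {d : ℕ} {β : ℂ → ℂ}

/-- `ℓ` is the logarithm of the derivative -/
structure IsL (β ℓ : ℂ → ℂ) : Prop where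
  diff : DifferentiableOn ℂ ℓ (ball 0 1)
  exp : ∀ x ∈ ball (0 : ℂ) 1, exp (ℓ x) = qq β x
  zero : ℓ 0 = 0

theorem IsL.re {ℓ : ℂ → ℂ} (hℓ : IsL β ℓ) {x : ℂ} (hx : x ∈ ball (0 : ℂ) 1) :
    (ℓ x).re = Real.log ‖qq β x‖ := by
  rw [← hℓ.exp x hx, Complex.norm_exp, Real.log_exp]

/-- the variance of a rotated vector -/
theorem vr_mul {K : ℕ} {q : ℕ → ℤ} (hq : ∀ k ∈ Finset.Icc 1 K, 0 < q k) (c : ℂ) (a : ℕ → ℂ) :
    vr K q (fun k => c * a k) = ‖c‖ ^ 2 * vr K q a := by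
  have hexc := ex_cont
  set W : ℝ → ℂ := fun θ => ∑ k ∈ Finset.Icc 1 K, a k * ex (q k) θ with hW
  have hWc : Continuous W := by rw [hW]; fun_prop
  have hW2 : ∫ θ, W θ * W θ ∂Pm = 0 := by
    have h1 : ∀ θ, W θ * W θ = ∑ p ∈ Finset.Icc 1 K ×ˢ Finset.Icc 1 K, (a p.1 * a p.2) * ex (q p.1 + q p.2) θ := by
      intro θ
      rw [hW]
      simp only
      rw [Finset.sum_mul_sum, ← Finset.sum_product']
      apply Finset.sum_congr rfl
      intro p _
      rw [ex_add]; ring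
    simp only [h1]
    rw [integral_finsetSum _ (fun p _ => Continuous.integrable_Pm (by fun_prop))]
    apply Finset.sum_eq_zero
    intro p hp
    rw [Finset.mem_product] at hp
    rw [integral_const_mul, integral_ex, if_neg, mul_zero]
    have := hq _ hp.1
    have := hq _ hp.2
    omega
  have key : ∀ c : ℂ, vr K q (fun k => c * a k) = ‖c‖ ^ 2 * (1 / 2 * ∫ θ, ‖W θ‖ ^ 2 ∂Pm) := by
    intro c
    have h1 : ∀ θ, hh K q (fun k => c * a k) θ ^ 2 = 1 / 2 * (c * c * (W θ * W θ)).re + ‖c‖ ^ 2 * (1 / 2) * ‖W θ‖ ^ 2 := by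
      intro θ
      have h2 : hh K q (fun k => c * a k) θ = (c * W θ).re := by
        unfold hh
        rw [hW]
        simp only
        rw [Finset.mul_sum]
        congr 1
        apply Finset.sum_congr rfl
        intro k _
        ring
      rw [h2]
      have h3 : (c * c * (W θ * W θ)).re = (c * W θ).re * (c * W θ).re - (c * W θ).im * (c * W θ).im := by
        rw [← mul_re]; congr 1; ring
      have h4 : ‖c‖ ^ 2 * ‖W θ‖ ^ 2 = (c * W θ).re * (c * W θ).re + (c * W θ).im * (c * W θ).im := by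
        rw [← mul_pow, ← norm_mul, ← Complex.normSq_eq_norm_sq, Complex.normSq_apply]
      rw [h3]
      linear_combination (-1 / 2 : ℝ) * h4
    unfold vr
    simp only [h1]
    have i1 : Integrable (fun θ => 1 / 2 * (c * c * (W θ * W θ)).re) Pm :=
      Continuous.integrable_Pm (continuous_const.mul (continuous_re.comp (by fun_prop)))
    have i2 : Integrable (fun θ => ‖c‖ ^ 2 * (1 / 2) * ‖W θ‖ ^ 2) Pm := Continuous.integrable_Pm (by fun_prop)
    rw [integral_add i1 i2, integral_const_mul, integral_const_mul]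
    have h5 : ∫ θ, (c * c * (W θ * W θ)).re ∂Pm = 0 := by
      have h6 := integral_re (𝕜 := ℂ) (μ := Pm) (f := fun θ => c * c * (W θ * W θ))
        (Continuous.integrable_Pm (by fun_prop))
      refine h6.trans ?_
      rw [integral_const_mul, hW2, mul_zero]
      rfl
    rw [h5]
    ring
  have h1 := key 1
  simp only [one_mul, norm_one, one_pow] at h1
  rw [key c, h1]

theorem TK_norm_one (hd : 2 ≤ d) {K : ℕ} {b : ℕ → ℝ → ℂ} (hb : ∀ k, Continuous (b k)) :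
    ∃ C : ℝ, 0 < C ∧ ∀ n : ℕ, ∫ θ, ‖TK d K (fun k => b k θ) n θ‖ ∂Pm ≤ C * √n := by
  obtain ⟨⟨Bd, hBd0, hBd⟩, -⟩ := osc hb K
  refine ⟨Bd * K + 1, by positivity, fun n => ?_⟩
  have hTc : Continuous fun θ => TK d K (fun k => b k θ) n θ := TK_cont K b hb n
  have i1 : Integrable (fun θ => ‖TK d K (fun k => b k θ) n θ‖) Pm := Continuous.integrable_Pm hTc.norm
  have i2 : ∀ k ∈ Finset.Icc 1 K, Integrable (fun θ => Bd * ‖Lam d (Finset.range n) (fun _ => 1) k θ‖) Pm :=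
    fun k _ => Continuous.integrable_Pm (continuous_const.mul (Lam_cont _ _ _ _).norm)
  have h1 : ∫ θ, ‖TK d K (fun k => b k θ) n θ‖ ∂Pm ≤
      ∫ θ, ∑ k ∈ Finset.Icc 1 K, Bd * ‖Lam d (Finset.range n) (fun _ => 1) k θ‖ ∂Pm := by
    apply integral_mono_ae i1 (integrable_finsetSum _ i2)
    filter_upwards [ae_Pm] with θ hθ
    rw [TK_eq]
    refine (norm_sum_le _ _).trans (Finset.sum_le_sum fun k hk => ?_)
    rw [norm_mul]
    exact mul_le_mul_of_nonneg_right (hBd θ ⟨hθ.1.le, hθ.2⟩ k hk) (norm_nonneg _)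
  refine h1.trans ?_
  rw [integral_finsetSum _ i2]
  have h2 : ∀ k ∈ Finset.Icc 1 K, ∫ θ, Bd * ‖Lam d (Finset.range n) (fun _ => 1) k θ‖ ∂Pm ≤ Bd * √n := by
    intro k hk
    rw [integral_const_mul]
    exact mul_le_mul_of_nonneg_left (Lam_one hd n (Finset.mem_Icc.1 hk).1) hBd0.le
  refine (Finset.sum_le_sum h2).trans ?_
  rw [Finset.sum_const, Nat.card_Icc, Nat.add_sub_cancel, nsmul_eq_mul]
  nlinarith [Real.sqrt_nonneg (n : ℝ)]

/-- the remainder is small in probability -/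
theorem rest_small (hd : 2 ≤ d) (hβ : IsBeta d β) {F : ℕ → ℂ → ℂ} (hF : IsLog d β F) {ℓ : ℂ → ℂ}
    (hℓ : IsL β ℓ) : ∃ C : ℝ, 0 < C ∧ ∀ (N : ℕ) (ρ : ℝ), 1 ≤ N → 0 < ρ → ρ < 1 → ρ ^ (d ^ N) < (R0 d)⁻¹ →
      ∫ θ, √‖ℓ (circleMap 0 ρ θ) + ((d - 1 : ℕ) : ℂ) * SS F N (circleMap 0 ρ θ)‖ ∂Pm ≤
        C * √(1 + Real.log N) := by
  obtain ⟨C, hC0, hC⟩ := Tmain hd hβ hF
  refine ⟨2 * (√2 * √(C + 1)), by positivity, ?_⟩
  intro N ρ hN hρ hρ1 hρN
  have hN1 : (1 : ℝ) ≤ N := by exact_mod_cast hN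
  have hlogN : 0 ≤ Real.log N := Real.log_nonneg hN1
  obtain ⟨σ, hσ1, hσ2, hσ3⟩ : ∃ σ : ℝ, ρ < σ ∧ σ < 1 ∧ σ ^ (d ^ N) < (R0 d)⁻¹ := by
    have hc : Continuous (fun y : ℝ => y ^ (d ^ N)) := by fun_prop
    have h1 : ∀ᶠ y in 𝓝 ρ, y ^ (d ^ N) < (R0 d)⁻¹ := hc.continuousAt.eventually (gt_mem_nhds hρN)
    have h2 : ∀ᶠ y in 𝓝 ρ, y < 1 := gt_mem_nhds hρ1
    have h3 := (h1.and h2).filter_mono (nhdsWithin_le_nhds (s := Ioi ρ))
    obtain ⟨y, hy1, hy2⟩ := (h3.and self_mem_nhdsWithin).exists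
    exact ⟨y, hy2, hy1.2, hy1.1⟩
  have hσ0 : 0 < σ := hρ.trans hσ1
  set g : ℂ → ℂ := fun x => ℓ x + ((d - 1 : ℕ) : ℂ) * SS F N x with hg
  have hgd : DifferentiableOn ℂ g (ball 0 1) := hℓ.diff.add ((SS_diff hF N).const_mul _)
  have hg0 : g 0 = 0 := by
    simp only [hg]
    rw [hℓ.zero, SS_zero hF, mul_zero, add_zero]
  have h1 := kolmogorov hgd hg0 hρ hσ1 hσ2
  have h2 : circleAverage (fun x => |(g x).re|) 0 σ ≤ C * (1 + Real.log N) := by
    have h3 := hC N σ hN hσ0 hσ2 hσ3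
    refine le_trans (le_of_eq ?_) h3
    apply Real.circleAverage_congr_sphere
    intro x hx
    rw [mem_sphere_zero_iff_norm, abs_of_pos hσ0] at hx
    have hxb : x ∈ ball (0 : ℂ) 1 := by rw [mem_ball_zero_iff, hx]; exact hσ2
    simp only [hg]
    rw [add_re, hℓ.re hxb, ← Complex.ofReal_natCast, Complex.re_ofReal_mul]
  rw [circleAverage_eq_Pm] at h1
  refine h1.trans ?_
  rw [mul_assoc, mul_assoc]
  apply mul_le_mul_of_nonneg_left _ (by norm_num)
  apply mul_le_mul_of_nonneg_left _ (Real.sqrt_nonneg _)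
  rw [← Real.sqrt_mul (by positivity)]
  apply Real.sqrt_le_sqrt
  nlinarith

/-- comparison in mean -/
theorem mean_close2 (hd : 2 ≤ d) {F : ℕ → ℂ → ℂ} (hF : IsLog d β F) {K : ℕ}
    {b : ℕ → ℝ → ℂ} (hb : ∀ k, Continuous (b k)) {η : ℝ} (hη : 0 ≤ η) (hn : Near d F K b (η ^ 2)) {ε : ℝ}
    (hε : 0 < ε) : ∀ᶠ ρ in 𝓝[<] (1 : ℝ),
      ∫ θ, ‖((-(((d - 1 : ℕ) : ℝ) / √(Lr ρ)) : ℝ) : ℂ) * SS F (NN d ρ) (circleMap 0 ρ θ) -
        ((-kap d / √(NN d ρ) : ℝ) : ℂ) * TK d K (fun k => b k θ) (NN d ρ) θ‖ ∂Pm ≤ kap d * η + ε := by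
  obtain ⟨Ct, hCt0, hCt⟩ := TK_norm_one hd hb (K := K)
  set D : ℝ := ((d - 1 : ℕ) : ℝ) with hD
  have hD0 : 0 ≤ D := Nat.cast_nonneg _
  have hld := logd_pos hd
  have hsld : 0 < √(Real.log d) := Real.sqrt_pos.2 hld
  set bound : ℝ → ℝ := fun ρ =>
    D * η * (√(NN d ρ : ℝ) / √(Lr ρ)) + D * Ct * |√(NN d ρ : ℝ) / √(Lr ρ) - 1 / √(Real.log d)| with hbound
  have hlim : Tendsto bound (𝓝[<] 1) (𝓝 (D * η * (1 / √(Real.log d)) +
      D * Ct * |1 / √(Real.log d) - 1 / √(Real.log d)|)) := by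
    have h1 := ratio_tendsto hd
    exact (h1.const_mul (D * η)).add ((h1.sub tendsto_const_nhds).abs.const_mul (D * Ct))
  have hval : D * η * (1 / √(Real.log d)) +
      D * Ct * |1 / √(Real.log d) - 1 / √(Real.log d)| = kap d * η := by
    rw [sub_self, abs_zero]
    unfold kap
    ring
  rw [hval] at hlim
  filter_upwards [hlim.eventually (ge_mem_nhds (by linarith : kap d * η < kap d * η + ε)), hn, ev_range,
    Lr_tendsto.eventually_gt_atTop 0, (NN_tendsto hd).eventually_ge_atTop 1] with ρ h1 h2 h3 h4 h5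
  refine le_trans ?_ h1
  have hρ0 : 0 < ρ := by linarith [h3.1]
  have hρ1 : ρ < 1 := h3.2.1
  set N := NN d ρ with hN
  have hN0 : (0 : ℝ) < N := by exact_mod_cast h5
  have hsN : 0 < √(N : ℝ) := Real.sqrt_pos.2 hN0
  have hsL : 0 < √(Lr ρ) := Real.sqrt_pos.2 h4
  have hSc : Continuous fun θ => SS F N (circleMap 0 ρ θ) := comp_cont (SS_diff hF _) hρ0 hρ1
  have hTc : Continuous fun θ => TK d K (fun k => b k θ) N θ := TK_cont K b hb _
  set A2 : ℝ → ℝ := fun θ => ‖SS F N (circleMap 0 ρ θ) - TK d K (fun k => b k θ) N θ‖ with hA2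
  set A3 : ℝ → ℝ := fun θ => ‖TK d K (fun k => b k θ) N θ‖ with hA3
  have c2 : Continuous A2 := (hSc.sub hTc).norm
  have c3 : Continuous A3 := hTc.norm
  have e2 : ∫ θ, A2 θ ∂Pm ≤ η * √N := by
    apply av_norm_le (hSc.sub hTc) (by positivity)
    rw [mul_pow, Real.sq_sqrt hN0.le]
    exact h2
  have e3 : ∫ θ, A3 θ ∂Pm ≤ Ct * √N := hCt N
  set w : ℝ := |1 / √(Lr ρ) - 1 / (√(Real.log d) * √(N : ℝ))| with hw
  have hpt : ∀ θ, ‖((-(D / √(Lr ρ)) : ℝ) : ℂ) * SS F N (circleMap 0 ρ θ) -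
        ((-kap d / √N : ℝ) : ℂ) * TK d K (fun k => b k θ) N θ‖ ≤
      (D / √(Lr ρ)) * A2 θ + D * w * A3 θ := by
    intro θ
    have h6 : ((-(D / √(Lr ρ)) : ℝ) : ℂ) * SS F N (circleMap 0 ρ θ) -
        ((-kap d / √N : ℝ) : ℂ) * TK d K (fun k => b k θ) N θ =
        ((-(D / √(Lr ρ)) : ℝ) : ℂ) * (SS F N (circleMap 0 ρ θ) - TK d K (fun k => b k θ) N θ) +
        ((-(D * (1 / √(Lr ρ) - 1 / (√(Real.log d) * √(N : ℝ)))) : ℝ) : ℂ) * TK d K (fun k => b k θ) N θ := by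
      have h7 : ((-kap d / √N : ℝ) : ℂ) = ((-(D / √(Lr ρ)) : ℝ) : ℂ) -
          ((-(D * (1 / √(Lr ρ) - 1 / (√(Real.log d) * √(N : ℝ)))) : ℝ) : ℂ) := by
        rw [← Complex.ofReal_sub]
        congr 1
        unfold kap
        field_simp
        ring
      rw [h7]
      ring
    rw [h6]
    refine (norm_add_le _ _).trans (add_le_add ?_ ?_)
    · rw [norm_mul, Complex.norm_real, norm_neg, Real.norm_of_nonneg (by positivity)]
    · rw [norm_mul, Complex.norm_real, norm_neg, Real.norm_eq_abs, abs_mul, abs_of_nonneg hD0]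
  have i0 : Integrable (fun θ => ‖((-(D / √(Lr ρ)) : ℝ) : ℂ) * SS F N (circleMap 0 ρ θ) -
        ((-kap d / √N : ℝ) : ℂ) * TK d K (fun k => b k θ) N θ‖) Pm :=
    Continuous.integrable_Pm ((continuous_const.mul hSc).sub (continuous_const.mul hTc)).norm
  have j2 : Integrable (fun θ => (D / √(Lr ρ)) * A2 θ) Pm := Continuous.integrable_Pm (continuous_const.mul c2)
  have j3 : Integrable (fun θ => D * w * A3 θ) Pm := Continuous.integrable_Pm (continuous_const.mul c3)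
  refine (integral_mono i0 (j2.add j3) hpt).trans ?_
  change ∫ θ, ((D / √(Lr ρ)) * A2 θ + D * w * A3 θ) ∂Pm ≤ _
  rw [integral_add j2 j3, integral_const_mul, integral_const_mul]
  have f2 : D / √(Lr ρ) * ∫ θ, A2 θ ∂Pm ≤ D * η * (√(N : ℝ) / √(Lr ρ)) := by
    calc _ ≤ D / √(Lr ρ) * (η * √N) := mul_le_mul_of_nonneg_left e2 (by positivity)
      _ = _ := by field_simp
  have f3 : D * w * ∫ θ, A3 θ ∂Pm ≤ D * Ct * |√(N : ℝ) / √(Lr ρ) - 1 / √(Real.log d)| := by
    have h7 : w * √(N : ℝ) = |√(N : ℝ) / √(Lr ρ) - 1 / √(Real.log d)| := by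
      rw [hw]
      nth_rewrite 2 [← abs_of_pos hsN]
      rw [← abs_mul]
      congr 1
      field_simp
    calc _ ≤ D * w * (Ct * √N) := mul_le_mul_of_nonneg_left e3 (by positivity)
      _ = D * Ct * (w * √N) := by ring
      _ = _ := by rw [h7]
  linarith

/-- the normalised logarithm -/
noncomputable def Zc (ℓ : ℂ → ℂ) (ρ θ : ℝ) : ℂ := ((1 / √(Lr ρ) : ℝ) : ℂ) * ℓ (circleMap 0 ρ θ)

theorem exp_sqrt (x : ℝ) : ‖exp (I * (x : ℂ)) - 1‖ ≤ 2 * √|x| := by
  rcases le_total (|x|) 4 with h | h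
  · have h1 : ‖exp (I * (x : ℂ)) - 1‖ ≤ |x| := Real.norm_exp_I_mul_ofReal_sub_one_le
    refine h1.trans ?_
    have h2 : √|x| ≤ 2 := by
      rw [Real.sqrt_le_left (by norm_num)]
      linarith
    nlinarith [Real.sq_sqrt (abs_nonneg x), Real.sqrt_nonneg |x|]
  · have h1 : ‖exp (I * (x : ℂ)) - 1‖ ≤ 2 := by
      refine (norm_sub_le _ _).trans ?_
      rw [norm_exp_I_mul_ofReal, norm_one]
      norm_num
    have h2 : 1 ≤ √|x| := by
      rw [Real.one_le_sqrt]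
      linarith
    linarith

/-- **the limits of the characteristic functions** -/
theorem char_lim2 (hd : 2 ≤ d) (hβ : IsBeta d β) {F : ℕ → ℂ → ℂ} (hF : IsLog d β F) {ℓ : ℂ → ℂ}
    (hℓ : IsL β ℓ) {q : ℕ → ℤ}
    {e : ℕ → ℕ} (hqe : ∀ k, 1 ≤ k → ¬ (d : ℤ) ∣ q k ∧ (k : ℤ) = q k * (d : ℤ) ^ e k)
    {K : ℕ → ℕ} {b : ℕ → ℕ → ℝ → ℂ} {s : ℝ → ℝ} (hb : ∀ m k, Continuous (b m k))
    (hn : ∀ m, Near d F (K m) (b m) ((1 / 4) ^ m)) (hs : Measurable s) (hs2 : MemLp s 2 Pm)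
    (hlim : Tendsto (fun m => ∫ θ, |sg (K m) q (fun k => b m k θ) - s θ| ∂Pm) atTop (𝓝 0))
    {φ : ℝ → ℂ} (hφ : Continuous φ) {M : ℝ} (hM : ∀ θ, ‖φ θ‖ ≤ M) (w : ℂ) :
    Tendsto (fun ρ : ℝ => ∫ θ, φ θ * exp (I * (((Zc ℓ ρ θ * (starRingEnd ℂ) w).re : ℝ) : ℂ)) ∂Pm) (𝓝[<] 1)
      (𝓝 (∫ θ, φ θ * exp (((-(‖w‖ ^ 2 * (kap d * s θ) ^ 2 / 2) : ℝ) : ℂ)) ∂Pm)) := by
  have hM0 : 0 ≤ M := (norm_nonneg _).trans (hM 0)
  have hk := kap_pos hd
  have hqpos : ∀ k, 1 ≤ k → 0 < q k := by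
    intro k hk1
    have h1 := (hqe k hk1).2
    have h2 : (0 : ℤ) < k := by exact_mod_cast hk1
    rw [h1] at h2
    have h3 : (0 : ℤ) < (d : ℤ) ^ e k := by
      have : (0 : ℤ) < d := by exact_mod_cast (by omega : 0 < d)
      positivity
    exact pos_of_mul_pos_left h2 h3.le
  obtain ⟨Cr, hCr0, hCr⟩ := rest_small hd hβ hF hℓ
  rw [Metric.tendsto_nhds]
  intro ε hε
  set t : ℝ := ‖w‖ with ht
  have ht0 : 0 ≤ t := norm_nonneg _
  set A : ℝ := M * t * kap d + 1 with hA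
  have hA0 : 0 < A := by positivity
  have hgeo : Tendsto (fun m : ℕ => (1 / 2 : ℝ) ^ m) atTop (𝓝 0) :=
    tendsto_pow_atTop_nhds_zero_of_lt_one (by norm_num) (by norm_num)
  obtain ⟨m, hm1, hm2⟩ := ((hgeo.eventually (gt_mem_nhds (by positivity : 0 < ε / (16 * A)))).and
    (hlim.eventually (gt_mem_nhds (by positivity : 0 < ε / (4 * A))))).exists
  have hη2 : ((1 / 4 : ℝ)) ^ m = ((1 / 2) ^ m) ^ 2 := by
    rw [← pow_mul, mul_comm, pow_mul]; norm_num
  have hnm := hn m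
  rw [hη2] at hnm
  set η : ℝ := (1 / 2) ^ m with hη
  have hη0 : 0 ≤ η := by positivity
  have h1 := mean_close2 hd hF (hb m) hη0 hnm (ε := ε / (16 * (M * t + 1))) (by positivity)
  have hbc : ∀ k, Continuous fun θ => (starRingEnd ℂ) w * b m k θ := fun k => continuous_const.mul (hb m k)
  have h2 := (mix_cont hd (K := K m) hqe hbc hφ hM (-kap d)).comp (NN_tendsto hd)
  have h3 := (Metric.tendsto_nhds.1 h2) (ε / 4) (by positivity)
  -- the remainder tends to zero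
  have hrest : Tendsto (fun ρ => M * (2 * (√t * (Cr * (√(1 + Real.log (NN d ρ)) / √(√(Lr ρ))))))) (𝓝[<] 1)
      (𝓝 0) := by
    have h4 : Tendsto (fun x : ℝ => (1 + Real.log x) / √x) atTop (𝓝 0) := by
      have h4 : Tendsto (fun x : ℝ => Real.log x / √x) atTop (𝓝 0) := by
        have := (isLittleO_log_rpow_atTop (by norm_num : (0 : ℝ) < 1 / 2)).tendsto_div_nhds_zero
        simpa [Real.sqrt_eq_rpow] using this
      have h5 : Tendsto (fun x : ℝ => 1 / √x) atTop (𝓝 0) :=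
        tendsto_const_nhds.div_atTop Real.tendsto_sqrt_atTop
      have h6 := h5.add h4
      rw [add_zero] at h6
      apply h6.congr
      intro x
      rw [add_div]
    have h5 := (h4.comp (tendsto_natCast_atTop_atTop.comp (NN_tendsto hd))).mul (ratio_tendsto hd)
    rw [zero_mul] at h5
    have h6 := h5.sqrt
    rw [Real.sqrt_zero] at h6
    have h7 : Tendsto (fun ρ => √(1 + Real.log (NN d ρ)) / √(√(Lr ρ))) (𝓝[<] 1) (𝓝 0) := by
      apply h6.congr'
      filter_upwards [(NN_tendsto hd).eventually_ge_atTop 1] with ρ h8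
      have hN0 : (0 : ℝ) < NN d ρ := by exact_mod_cast h8
      have hlog : 0 ≤ Real.log (NN d ρ) := Real.log_nonneg (by exact_mod_cast h8)
      have hsN : 0 < √(NN d ρ : ℝ) := Real.sqrt_pos.2 hN0
      have e1 : (1 + Real.log (NN d ρ)) / √(NN d ρ : ℝ) * (√(NN d ρ : ℝ) / √(Lr ρ)) =
          (1 + Real.log (NN d ρ)) / √(Lr ρ) := by field_simp
      change √((1 + Real.log (NN d ρ)) / √(NN d ρ : ℝ) * (√(NN d ρ : ℝ) / √(Lr ρ))) = _
      rw [e1, Real.sqrt_div (by positivity)]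
    have h8 := ((h7.const_mul Cr).const_mul √t).const_mul 2 |>.const_mul M
    simpa using h8
  filter_upwards [h1, h3, ev_range, (NN_tendsto hd).eventually_ge_atTop 1,
    hrest.eventually (gt_mem_nhds (by positivity : 0 < ε / 8)), Lr_tendsto.eventually_gt_atTop 0]
    with ρ h4 h5 h6 h7 h8 h9
  have hρ0 : 0 < ρ := by linarith [h6.1]
  have hρ1 : ρ < 1 := h6.2.1
  simp only [Function.comp] at h5
  set N := NN d ρ with hN
  have hsL : 0 < √(Lr ρ) := Real.sqrt_pos.2 h9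
  have hlc : Continuous fun θ => ℓ (circleMap 0 ρ θ) := comp_cont hℓ.diff hρ0 hρ1
  have hSc : Continuous fun θ => SS F N (circleMap 0 ρ θ) := comp_cont (SS_diff hF _) hρ0 hρ1
  have hTc : Continuous fun θ => TK d (K m) (fun k => b m k θ) N θ := TK_cont (K m) (b m) (hb m) _
  have hTwc : Continuous fun θ => TK d (K m) (fun k => (starRingEnd ℂ) w * b m k θ) N θ :=
    TK_cont (K m) (fun k θ => (starRingEnd ℂ) w * b m k θ) hbc _
  have hTw : ∀ θ, TK d (K m) (fun k => (starRingEnd ℂ) w * b m k θ) N θ =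
      (starRingEnd ℂ) w * TK d (K m) (fun k => b m k θ) N θ := by
    intro θ
    unfold TK
    rw [Finset.mul_sum]
    apply Finset.sum_congr rfl
    intro i _
    rw [Finset.mul_sum]
    apply Finset.sum_congr rfl
    intro k _
    ring
  have hZc : Continuous fun θ => Zc ℓ ρ θ := by unfold Zc; exact continuous_const.mul hlc
  set D : ℝ := ((d - 1 : ℕ) : ℝ) with hD
  set R1 : ℝ → ℂ := fun θ => ℓ (circleMap 0 ρ θ) + ((d - 1 : ℕ) : ℂ) * SS F N (circleMap 0 ρ θ) with hR1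
  have hR1c : Continuous R1 := hlc.add (continuous_const.mul hSc)
  set R2 : ℝ → ℝ := fun θ => ‖((-(D / √(Lr ρ)) : ℝ) : ℂ) * SS F N (circleMap 0 ρ θ) -
        ((-kap d / √N : ℝ) : ℂ) * TK d (K m) (fun k => b m k θ) N θ‖ with hR2
  have hR2c : Continuous R2 := ((continuous_const.mul hSc).sub (continuous_const.mul hTc)).norm
  -- first difference
  have d1 : ‖∫ θ, φ θ * exp (I * (((Zc ℓ ρ θ * (starRingEnd ℂ) w).re : ℝ) : ℂ)) ∂Pm -
      ∫ θ, φ θ * exp (I * ((-kap d / √N * (TK d (K m) (fun k => (starRingEnd ℂ) w * b m k θ) N θ).re : ℝ) : ℂ)) ∂Pm‖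
      ≤ ε / 4 := by
    have cc1 : Continuous fun θ => (Zc ℓ ρ θ * (starRingEnd ℂ) w).re :=
      continuous_re.comp (hZc.mul continuous_const)
    have cc2 : Continuous fun θ => (TK d (K m) (fun k => (starRingEnd ℂ) w * b m k θ) N θ).re :=
      continuous_re.comp hTwc
    have i1 : Integrable (fun θ => φ θ * exp (I * (((Zc ℓ ρ θ * (starRingEnd ℂ) w).re : ℝ) : ℂ))) Pm :=
      Continuous.integrable_Pm (by fun_prop)
    have i2 : Integrable (fun θ => φ θ * exp (I * ((-kap d / √N *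
        (TK d (K m) (fun k => (starRingEnd ℂ) w * b m k θ) N θ).re : ℝ) : ℂ))) Pm :=
      Continuous.integrable_Pm (by fun_prop)
    rw [← integral_sub i1 i2]
    refine (norm_integral_le_integral_norm _).trans ?_
    have i3 : Integrable (fun θ => 2 * (√t * (√(1 / √(Lr ρ)) * √‖R1 θ‖))) Pm :=
      Continuous.integrable_Pm (by fun_prop)
    have i4 : Integrable (fun θ => t * R2 θ) Pm := Continuous.integrable_Pm (continuous_const.mul hR2c)
    have hpt : ∫ θ, ‖φ θ * exp (I * (((Zc ℓ ρ θ * (starRingEnd ℂ) w).re : ℝ) : ℂ)) -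
        φ θ * exp (I * ((-kap d / √N * (TK d (K m) (fun k => (starRingEnd ℂ) w * b m k θ) N θ).re : ℝ) : ℂ))‖ ∂Pm ≤
        ∫ θ, M * (2 * (√t * (√(1 / √(Lr ρ)) * √‖R1 θ‖)) + t * R2 θ) ∂Pm := by
      apply integral_mono (i1.sub i2).norm ((i3.add i4).const_mul _)
      intro θ
      change ‖φ θ * exp (I * (((Zc ℓ ρ θ * (starRingEnd ℂ) w).re : ℝ) : ℂ)) -
        φ θ * exp (I * ((-kap d / √N * (TK d (K m) (fun k => (starRingEnd ℂ) w * b m k θ) N θ).re : ℝ) : ℂ))‖ ≤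
        M * (2 * (√t * (√(1 / √(Lr ρ)) * √‖R1 θ‖)) + t * R2 θ)
      rw [← mul_sub, norm_mul]
      apply mul_le_mul (hM θ) _ (norm_nonneg _) hM0
      -- decomposition
      set x : ℝ := ((((1 / √(Lr ρ) : ℝ) : ℂ) * R1 θ) * (starRingEnd ℂ) w).re with hx
      set y : ℝ := ((((-(D / √(Lr ρ)) : ℝ) : ℂ) * SS F N (circleMap 0 ρ θ)) * (starRingEnd ℂ) w).re with hy
      set z : ℝ := -kap d / √N * (TK d (K m) (fun k => (starRingEnd ℂ) w * b m k θ) N θ).re with hz
      have hxy : (Zc ℓ ρ θ * (starRingEnd ℂ) w).re = x + y := by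
        rw [hx, hy, ← add_re]
        congr 1
        simp only [hR1, Zc, hD]
        push_cast
        ring
      have hzz : z = ((((-kap d / √N : ℝ) : ℂ) * TK d (K m) (fun k => b m k θ) N θ) * (starRingEnd ℂ) w).re := by
        rw [hz, hTw, mul_assoc, Complex.re_ofReal_mul]
        congr 2
        ring
      rw [hxy]
      have e1 : exp (I * ((x + y : ℝ) : ℂ)) - exp (I * (z : ℂ)) =
          exp (I * (y : ℂ)) * (exp (I * (x : ℂ)) - 1) + (exp (I * (y : ℂ)) - exp (I * (z : ℂ))) := by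
        have : exp (I * ((x + y : ℝ) : ℂ)) = exp (I * (y : ℂ)) * exp (I * (x : ℂ)) := by
          rw [← exp_add]; congr 1; push_cast; ring
        rw [this]; ring
      rw [e1]
      refine (norm_add_le _ _).trans (add_le_add ?_ ?_)
      · rw [norm_mul, norm_exp_I_mul_ofReal, one_mul]
        refine (exp_sqrt x).trans ?_
        apply mul_le_mul_of_nonneg_left _ (by norm_num)
        have e2 : |x| ≤ t * ((1 / √(Lr ρ)) * ‖R1 θ‖) := by
          refine (abs_re_le_norm _).trans ?_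
          rw [norm_mul, norm_mul, Complex.norm_real, Complex.norm_conj, Real.norm_of_nonneg (by positivity), ht]
          exact le_of_eq (by ring)
        calc √|x| ≤ √(t * ((1 / √(Lr ρ)) * ‖R1 θ‖)) := Real.sqrt_le_sqrt e2
          _ = √t * (√(1 / √(Lr ρ)) * √‖R1 θ‖) := by
              rw [Real.sqrt_mul ht0, Real.sqrt_mul (by positivity)]
      · refine (exp_I_lip _ _).trans ?_
        rw [hy, hzz, ← sub_re, ← sub_mul]
        refine (abs_re_le_norm _).trans ?_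
        rw [norm_mul, Complex.norm_conj, mul_comm]
    refine hpt.trans ?_
    rw [integral_const_mul, integral_add i3 i4, integral_const_mul, integral_const_mul, integral_const_mul,
      integral_const_mul]
    have k1 := hCr N ρ h7 hρ0 hρ1 (pow_NN_lt hd hρ0 hρ1)
    have k2 : M * (2 * (√t * (√(1 / √(Lr ρ)) * ∫ θ, √‖R1 θ‖ ∂Pm))) ≤ ε / 8 := by
      refine le_trans ?_ h8.le
      apply mul_le_mul_of_nonneg_left _ hM0
      apply mul_le_mul_of_nonneg_left _ (by norm_num)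
      apply mul_le_mul_of_nonneg_left _ (Real.sqrt_nonneg _)
      calc √(1 / √(Lr ρ)) * ∫ θ, √‖R1 θ‖ ∂Pm ≤ √(1 / √(Lr ρ)) * (Cr * √(1 + Real.log N)) :=
            mul_le_mul_of_nonneg_left k1 (Real.sqrt_nonneg _)
        _ = Cr * (√(1 + Real.log N) / √(√(Lr ρ))) := by
            rw [Real.sqrt_div zero_le_one, Real.sqrt_one]
            ring
    have k3 : M * (t * ∫ θ, R2 θ ∂Pm) ≤ ε / 8 := by
      calc M * (t * ∫ θ, R2 θ ∂Pm) ≤ M * (t * (kap d * η + ε / (16 * (M * t + 1)))) := by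
            apply mul_le_mul_of_nonneg_left _ hM0
            exact mul_le_mul_of_nonneg_left h4 ht0
        _ = M * t * kap d * η + M * t * (ε / (16 * (M * t + 1))) := by ring
        _ ≤ ε / 16 + ε / 16 := by
            apply add_le_add
            · calc M * t * kap d * η ≤ A * η := by
                    apply mul_le_mul_of_nonneg_right _ hη0
                    rw [hA]; linarith
                _ ≤ A * (ε / (16 * A)) := mul_le_mul_of_nonneg_left hm1.le hA0.le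
                _ = ε / 16 := by field_simp
            · calc M * t * (ε / (16 * (M * t + 1))) ≤ (M * t + 1) * (ε / (16 * (M * t + 1))) := by
                    apply mul_le_mul_of_nonneg_right _ (by positivity)
                    linarith
                _ = ε / 16 := by field_simp
        _ = ε / 8 := by ring
    rw [mul_add]
    linarith
  -- third difference
  have hvw : ∀ θ, vr (K m) q (fun k => (starRingEnd ℂ) w * b m k θ) = t ^ 2 * vr (K m) q (fun k => b m k θ) := by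
    intro θ
    rw [vr_mul (fun k hk1 => hqpos k (Finset.mem_Icc.1 hk1).1), Complex.norm_conj]
  have d3 : ‖∫ θ, φ θ * exp (((-((-kap d) ^ 2 * vr (K m) q (fun k => (starRingEnd ℂ) w * b m k θ) / 2) : ℝ) : ℂ)) ∂Pm -
      ∫ θ, φ θ * exp (((-(t ^ 2 * (kap d * s θ) ^ 2 / 2) : ℝ) : ℂ)) ∂Pm‖ ≤ ε / 4 := by
    have hvc := vr_cont (K m) q (hb m)
    have hvwc := vr_cont (K m) q hbc
    have i1 : Integrable (fun θ => φ θ * exp (((-((-kap d) ^ 2 *
        vr (K m) q (fun k => (starRingEnd ℂ) w * b m k θ) / 2) : ℝ) : ℂ))) Pm :=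
      Continuous.integrable_Pm (by fun_prop)
    have i2 : Integrable (fun θ => φ θ * exp (((-(t ^ 2 * (kap d * s θ) ^ 2 / 2) : ℝ) : ℂ))) Pm := by
      apply (Continuous.integrable_Pm hφ).mul_bdd (c := 1)
      · apply Measurable.aestronglyMeasurable
        fun_prop
      · refine Eventually.of_forall fun θ => ?_
        rw [Complex.norm_exp, Complex.ofReal_re, Real.exp_le_one_iff]
        have : 0 ≤ t ^ 2 * (kap d * s θ) ^ 2 / 2 := by positivity
        linarith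
    rw [← integral_sub i1 i2]
    refine (norm_integral_le_integral_norm _).trans ?_
    have hs1 : Integrable s Pm := hs2.integrable (by norm_num)
    have hgc : Continuous fun θ => sg (K m) q (fun k => b m k θ) := hvc.sqrt
    have i3 : Integrable (fun θ => |sg (K m) q (fun k => b m k θ) - s θ|) Pm :=
      ((Continuous.integrable_Pm hgc).sub hs1).abs
    have h8 : ∫ θ, ‖φ θ * exp (((-((-kap d) ^ 2 * vr (K m) q (fun k => (starRingEnd ℂ) w * b m k θ) / 2) : ℝ) : ℂ)) -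
        φ θ * exp (((-(t ^ 2 * (kap d * s θ) ^ 2 / 2) : ℝ) : ℂ))‖ ∂Pm ≤
        ∫ θ, (M * t * kap d) * |sg (K m) q (fun k => b m k θ) - s θ| ∂Pm := by
      apply integral_mono (i1.sub i2).norm (i3.const_mul _)
      intro θ
      change ‖φ θ * exp (((-((-kap d) ^ 2 * vr (K m) q (fun k => (starRingEnd ℂ) w * b m k θ) / 2) : ℝ) : ℂ)) -
        φ θ * exp (((-(t ^ 2 * (kap d * s θ) ^ 2 / 2) : ℝ) : ℂ))‖ ≤
        (M * t * kap d) * |sg (K m) q (fun k => b m k θ) - s θ|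
      rw [← mul_sub, norm_mul, mul_assoc, mul_assoc]
      apply mul_le_mul (hM θ) _ (norm_nonneg _) hM0
      have h9 : (-kap d) ^ 2 * vr (K m) q (fun k => (starRingEnd ℂ) w * b m k θ) =
          (t * kap d) ^ 2 * sg (K m) q (fun k => b m k θ) ^ 2 := by
        rw [hvw, sg_sq]; ring
      have h10 : t ^ 2 * (kap d * s θ) ^ 2 = (t * kap d) ^ 2 * s θ ^ 2 := by ring
      rw [h9, h10]
      refine (gauss_lip2 _ _ _).trans (le_of_eq ?_)
      rw [abs_mul, abs_of_pos hk, abs_of_nonneg ht0]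
      ring
    refine h8.trans ?_
    rw [integral_const_mul]
    calc M * t * kap d * ∫ θ, |sg (K m) q (fun k => b m k θ) - s θ| ∂Pm
        ≤ A * (ε / (4 * A)) := mul_le_mul (by rw [hA]; linarith) hm2.le
          (integral_nonneg fun _ => abs_nonneg _) hA0.le
      _ = ε / 4 := by field_simp
  rw [dist_eq_norm] at h5 ⊢
  calc _ = ‖(∫ θ, φ θ * exp (I * (((Zc ℓ ρ θ * (starRingEnd ℂ) w).re : ℝ) : ℂ)) ∂Pm -
      ∫ θ, φ θ * exp (I * ((-kap d / √N * (TK d (K m) (fun k => (starRingEnd ℂ) w * b m k θ) N θ).re : ℝ) : ℂ)) ∂Pm) +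
      ((∫ θ, φ θ * exp (I * ((-kap d / √N * (TK d (K m) (fun k => (starRingEnd ℂ) w * b m k θ) N θ).re : ℝ) : ℂ)) ∂Pm -
        ∫ θ, φ θ * exp (((-((-kap d) ^ 2 * vr (K m) q (fun k => (starRingEnd ℂ) w * b m k θ) / 2) : ℝ) : ℂ)) ∂Pm) +
      (∫ θ, φ θ * exp (((-((-kap d) ^ 2 * vr (K m) q (fun k => (starRingEnd ℂ) w * b m k θ) / 2) : ℝ) : ℂ)) ∂Pm -
      ∫ θ, φ θ * exp (((-(t ^ 2 * (kap d * s θ) ^ 2 / 2) : ℝ) : ℂ)) ∂Pm))‖ := by
        congr 1; ring
    _ ≤ _ := norm_add_le _ _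
    _ ≤ _ := add_le_add_right (norm_add_le _ _) _
    _ < ε := by linarith

end Pool.Agent.H439.MC
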