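import Mathlib
import Pool.Agent.H439.MC.Sig

/-!
# Coefficients of the sum of the logarithms at `(d - 1) d ^ n`
-/

set_option autoImplicit false

namespace Pool.Agent.H439.MC

open Complex Set Topology Filter Metric MeasureTheory N62a1eb23 Pool.Agent.H712R2
  Pool.Agent.H713R2 Pool.Agent.TH653.MB
open Real (circleAverage)

variable {d : ℕ} {β : ℂ → ℂ}

theorem tc_F_deriv {F : ℕ → ℂ → ℂ} (hF : IsLog d β F) (i : ℕ) {m : ℕ} (hm : 1 ≤ m) :
    (m : ℂ) * tc (F i) m = tc (logDeriv (BB d β i)) (m - 1) := by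
  obtain ⟨k, rfl⟩ : ∃ k, m = k + 1 := Nat.exists_eq_add_of_le' hm
  have h2 : tc (deriv (F i)) k = tc (logDeriv (BB d β i)) k := by
    apply tc_congr
    filter_upwards [isOpen_ball.mem_nhds (mem_ball_self (x := (0 : ℂ)) one_pos)] with y hy using
      deriv_F hF i hy
  rw [Nat.add_sub_cancel, ← h2, tc_deriv]
  push_cast
  rfl

theorem tc_BB_bound (hd : 2 ≤ d) (hβ : IsBeta d β) (i : ℕ) {n : ℕ} (hn : 1 ≤ n) :
    ‖tc (logDeriv (BB d β i)) ((d - 1) * d ^ n - 1)‖ ≤ (d : ℝ) ^ i * 2 ^ (d - 1) := by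
  rw [tc_BB hd hβ]
  simp only [coef_top hd hβ _ hn]
  have h1 : ∀ w ∈ (H712R2.PP d (i + 1)).roots, ‖-(P d (n + 1) w) ^ (d - 1)‖ ≤ 2 ^ (d - 1) := by
    intro w hw
    rw [norm_neg, norm_pow]
    exact pow_le_pow_left₀ (norm_nonneg _) ((mem_multibrot_iff hd w).1 (root_mem hd hw) (n + 1)) _
  have h2 : ∀ S : Multiset ℂ, (∀ w ∈ S, ‖-(P d (n + 1) w) ^ (d - 1)‖ ≤ 2 ^ (d - 1)) →
      ‖(S.map (fun w => -(P d (n + 1) w) ^ (d - 1))).sum‖ ≤ (Multiset.card S : ℝ) * 2 ^ (d - 1) := by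
    intro S
    induction S using Multiset.induction_on with
    | empty => intro _; simp
    | cons a S ih =>
      intro h
      rw [Multiset.map_cons, Multiset.sum_cons, Multiset.card_cons]
      refine (norm_add_le _ _).trans ?_
      have e1 := h a (Multiset.mem_cons_self a S)
      have e2 := ih (fun w hw => h w (Multiset.mem_cons_of_mem hw))
      push_cast
      linarith
  have h3 := h2 _ h1
  rw [card_roots_PP hd] at h3
  exact_mod_cast h3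

/-- the coefficient, up to a small error -/
theorem tc_SS (hd : 2 ≤ d) (hβ : IsBeta d β) {F : ℕ → ℂ → ℂ} (hF : IsLog d β F) {n N : ℕ} (hn : 2 ≤ n)
    (hN : n ≤ N) : ‖(((d - 1) * d ^ n : ℕ) : ℂ) * tc (SS F N) ((d - 1) * d ^ n) -
      ((d - 1 : ℕ) : ℂ) / d * (d : ℂ) ^ (n - 1)‖ ≤ n * ((d : ℝ) ^ (n / 2) * 2 ^ (d - 1)) := by
  set m : ℕ := (d - 1) * d ^ n with hm
  have hm1 : 1 ≤ m := Nat.mul_pos (by omega) (by positivity)
  have h1 : (m : ℂ) * tc (SS F N) m = ∑ i ∈ Finset.range N, tc (logDeriv (BB d β i)) (m - 1) := by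
    have h2 := tc_finset_sum (Finset.range N) (G := F) (fun i _ => hF.diff i) m
    have h3 : SS F N = fun x => ∑ i ∈ Finset.range N, F i x := rfl
    rw [h3, h2, Finset.mul_sum]
    exact Finset.sum_congr rfl fun i _ => tc_F_deriv hF i hm1
  have hhigh : ∀ i, n ≤ i → tc (logDeriv (BB d β i)) (m - 1) = 0 := by
    intro i hi
    apply tc_BB_low hd hβ
    have h2 : d ^ (n + 1) ≤ d ^ (i + 1) := Nat.pow_le_pow_right (by omega) (by omega)
    have h3 : d ^ (n + 1) = (d - 1) * d ^ n + d ^ n := by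
      have : d = (d - 1) + 1 := by omega
      conv_lhs => rw [pow_succ, mul_comm, this, add_mul, one_mul]
      rw [← this]
    have h4 : 2 ≤ d ^ n := by
      calc 2 ≤ d := hd
        _ = d ^ 1 := (pow_one d).symm
        _ ≤ d ^ n := Nat.pow_le_pow_right (by omega) (by omega)
    omega
  have h2 : ∑ i ∈ Finset.range N, tc (logDeriv (BB d β i)) (m - 1) =
      ∑ i ∈ Finset.range n, tc (logDeriv (BB d β i)) (m - 1) := by
    symm
    apply Finset.sum_subset (Finset.range_subset_range.2 hN)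
    intro i _ hi
    rw [Finset.mem_range, not_lt] at hi
    exact hhigh i hi
  obtain ⟨n', rfl⟩ : ∃ n', n = n' + 1 := Nat.exists_eq_add_of_le' (by omega)
  have hmain := tc_BB_main hd hβ hn
  rw [Nat.add_sub_cancel] at hmain
  rw [h1, h2, Finset.sum_range_succ, hmain, Nat.add_sub_cancel, add_sub_cancel_right]
  refine (norm_sum_le _ _).trans ?_
  have h3 : ∀ i ∈ Finset.range n', ‖tc (logDeriv (BB d β i)) (m - 1)‖ ≤ (d : ℝ) ^ ((n' + 1) / 2) * 2 ^ (d - 1) := by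
    intro i hi
    rw [Finset.mem_range] at hi
    by_cases hi2 : n' + 1 ≤ 2 * i + 1
    · rw [tc_BB_other hd hβ (by omega) hi2, norm_zero]
      positivity
    · refine (tc_BB_bound hd hβ i (by omega)).trans ?_
      apply mul_le_mul_of_nonneg_right _ (by positivity)
      apply pow_le_pow_right₀ (by exact_mod_cast (by omega : 1 ≤ d))
      omega
  refine (Finset.sum_le_sum h3).trans ?_
  rw [Finset.sum_const, Finset.card_range, nsmul_eq_mul]
  apply mul_le_mul_of_nonneg_right _ (by positivity)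
  push_cast
  linarith

/-- the coefficients are bounded below -/
theorem tc_SS_lower (hd : 2 ≤ d) (hβ : IsBeta d β) {F : ℕ → ℂ → ℂ} (hF : IsLog d β F) :
    ∃ j0 : ℕ, ∀ n N, j0 ≤ n → n ≤ N → 1 / (2 * (d : ℝ) ^ 2) ≤ (tc (SS F N) ((d - 1) * d ^ n)).re := by
  have hd0 : (0 : ℝ) < d := by exact_mod_cast (by omega : 0 < d)
  have hd1 : (1 : ℝ) ≤ ((d - 1 : ℕ) : ℝ) := by exact_mod_cast (by omega : 1 ≤ d - 1)
  have hd2 : (2 : ℝ) ≤ d := by exact_mod_cast hd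
  -- `n d^(n/2) / d^n → 0`
  have hlim : Tendsto (fun n : ℕ => (n : ℝ) * ((d : ℝ) ^ (n / 2) * 2 ^ (d - 1)) / (d : ℝ) ^ n) atTop (𝓝 0) := by
    have h1 : Tendsto (fun n : ℕ => 2 ^ (d - 1) * ((n : ℝ) ^ 1 * (1 / √2) ^ n)) atTop (𝓝 0) := by
      have := tendsto_pow_const_mul_const_pow_of_lt_one 1 (r := 1 / √2) (by positivity) (by
        rw [div_lt_one (by positivity)]
        exact Real.lt_sqrt_of_sq_lt (by norm_num))
      have h2 := this.const_mul ((2 : ℝ) ^ (d - 1))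
      simpa using h2
    apply squeeze_zero (fun n => by positivity) _ h1
    intro n
    have h2 : (d : ℝ) ^ (n / 2) / (d : ℝ) ^ n ≤ (1 / √2) ^ n := by
      have h3 : (d : ℝ) ^ n = (d : ℝ) ^ (n / 2) * (d : ℝ) ^ (n - n / 2) := by
        rw [← pow_add]; congr 1; omega
      rw [h3, ← div_div, div_self (by positivity), one_div_pow]
      apply one_div_le_one_div_of_le (by positivity)
      calc √2 ^ n ≤ √2 ^ (2 * (n - n / 2)) := pow_le_pow_right₀ (by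
              rw [Real.one_le_sqrt]; norm_num) (by omega)
        _ = 2 ^ (n - n / 2) := by rw [pow_mul, Real.sq_sqrt (by norm_num)]
        _ ≤ (d : ℝ) ^ (n - n / 2) := pow_le_pow_left₀ (by norm_num) hd2 _
    calc (n : ℝ) * ((d : ℝ) ^ (n / 2) * 2 ^ (d - 1)) / (d : ℝ) ^ n =
          2 ^ (d - 1) * (n * ((d : ℝ) ^ (n / 2) / (d : ℝ) ^ n)) := by ring
      _ ≤ 2 ^ (d - 1) * ((n : ℝ) ^ 1 * (1 / √2) ^ n) := by
          rw [pow_one]
          gcongr
  obtain ⟨j0, hj0⟩ := eventually_atTop.1 (hlim.eventually (gt_mem_nhds (by positivity : 0 < 1 / (2 * (d : ℝ) ^ 2))))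
  refine ⟨max j0 2, fun n N hn hN => ?_⟩
  have h1 := tc_SS hd hβ hF ((le_max_right _ _).trans hn) hN
  have h2 := hj0 n ((le_max_left _ _).trans hn)
  have hdn : (0 : ℝ) < (d : ℝ) ^ n := by positivity
  rw [div_lt_iff₀ hdn] at h2
  set T : ℂ := tc (SS F N) ((d - 1) * d ^ n) with hT
  have h3 := (abs_le.1 ((abs_re_le_norm _).trans h1)).1
  have h4 : ((((d - 1) * d ^ n : ℕ) : ℂ) * T - ((d - 1 : ℕ) : ℂ) / d * (d : ℂ) ^ (n - 1)).re =
      (((d - 1 : ℕ) : ℝ) * (d : ℝ) ^ n) * T.re - ((d - 1 : ℕ) : ℝ) / d * (d : ℝ) ^ (n - 1) := by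
    have e1 : (((d - 1) * d ^ n : ℕ) : ℂ) = (((((d - 1 : ℕ) : ℝ) * (d : ℝ) ^ n) : ℝ) : ℂ) := by
      push_cast; rfl
    have e2 : ((d - 1 : ℕ) : ℂ) / d * (d : ℂ) ^ (n - 1) =
        (((((d - 1 : ℕ) : ℝ) / d * (d : ℝ) ^ (n - 1)) : ℝ) : ℂ) := by push_cast; rfl
    rw [e1, e2, sub_re, Complex.re_ofReal_mul, Complex.ofReal_re]
  rw [h4] at h3
  have h5 : (d : ℝ) ^ (n - 1) = (d : ℝ) ^ n / d := by
    rw [eq_div_iff hd0.ne', ← pow_succ]
    congr 1
    have := (le_max_right j0 2).trans hn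
    omega
  rw [h5] at h3
  -- `(d-1) d^n T.re ≥ (d-1) d^n / d^2 - d^n / (2 d^2)`
  have h6 : ((d - 1 : ℕ) : ℝ) * (d : ℝ) ^ n * (1 / (2 * (d : ℝ) ^ 2)) ≤ ((d - 1 : ℕ) : ℝ) * (d : ℝ) ^ n * T.re := by
    have h7 : ((d - 1 : ℕ) : ℝ) / d * ((d : ℝ) ^ n / d) = ((d - 1 : ℕ) : ℝ) * (d : ℝ) ^ n * (1 / (d : ℝ) ^ 2) := by
      field_simp
    rw [h7] at h3
    have h8 : 1 / (2 * (d : ℝ) ^ 2) * (d : ℝ) ^ n ≤ ((d - 1 : ℕ) : ℝ) * (d : ℝ) ^ n * (1 / (2 * (d : ℝ) ^ 2)) := by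
      have : 0 ≤ (d : ℝ) ^ n * (1 / (2 * (d : ℝ) ^ 2)) := by positivity
      nlinarith
    have h9 : ((d - 1 : ℕ) : ℝ) * (d : ℝ) ^ n * (1 / (d : ℝ) ^ 2) =
        2 * (((d - 1 : ℕ) : ℝ) * (d : ℝ) ^ n * (1 / (2 * (d : ℝ) ^ 2))) := by field_simp
    linarith
  exact le_of_mul_le_mul_left h6 (by positivity)

end Pool.Agent.H439.MC
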