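import Mathlib
import Pool.Agent.H439.MC.Pair
import Pool.Agent.H439.MC.Char2

/-!
# The standard deviation does not vanish almost everywhere
-/

set_option autoImplicit false

namespace Pool.Agent.H439.MC

open Complex Set Topology Filter Metric MeasureTheory N62a1eb23 Pool.Agent.H712R2
  Pool.Agent.H713R2 Pool.Agent.TH653.MB
open Real (circleAverage)

variable {d : ℕ} {β : ℂ → ℂ}

/-- Fourier coefficients on circles -/
theorem fourier_tc {G : ℂ → ℂ} (hG : DifferentiableOn ℂ G (ball 0 1)) {ρ : ℝ} (h0 : 0 < ρ) (h1 : ρ < 1)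
    (m : ℕ) : ∫ θ, G (circleMap 0 ρ θ) * ex (-(m : ℤ)) θ ∂Pm = ((ρ ^ m : ℝ) : ℂ) * tc G m := by
  have h := circleIntegral_tc h0 h1 hG m
  rw [circleIntegral] at h
  have h2 : ∀ θ : ℝ, deriv (circleMap 0 ρ) θ • (G (circleMap 0 ρ θ) / circleMap 0 ρ θ ^ (m + 1)) =
      (I * (((ρ ^ m)⁻¹ : ℝ) : ℂ)) * (G (circleMap 0 ρ θ) * ex (-(m : ℤ)) θ) := by
    intro θ
    have h3 : (circleMap 0 ρ θ) ≠ 0 := circleMap_ne h0 θ
    have h4 : (circleMap 0 ρ θ) ^ m * (((((ρ ^ m)⁻¹ : ℝ) : ℂ)) * ex (-(m : ℤ)) θ) = 1 := by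
      rw [circleMap_pow]
      have e1 : ex (m : ℤ) θ * ex (-(m : ℤ)) θ = 1 := by rw [← ex_add]; simp [ex_zero]
      have e2 : ((ρ ^ m : ℝ) : ℂ) * (((ρ ^ m)⁻¹ : ℝ) : ℂ) = 1 := by
        rw [← Complex.ofReal_mul, mul_inv_cancel₀ (by positivity), Complex.ofReal_one]
      calc _ = (((ρ ^ m : ℝ) : ℂ) * (((ρ ^ m)⁻¹ : ℝ) : ℂ)) * (ex (m : ℤ) θ * ex (-(m : ℤ)) θ) := by ring
        _ = 1 := by rw [e1, e2, one_mul]
    rw [deriv_circleMap, smul_eq_mul, pow_succ]
    have h5 : (circleMap 0 ρ θ) ^ m ≠ 0 := pow_ne_zero _ h3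
    have h6 := eq_inv_of_mul_eq_one_right h4
    have h7 : circleMap 0 ρ θ * I * (G (circleMap 0 ρ θ) / (circleMap 0 ρ θ ^ m * circleMap 0 ρ θ)) =
        I * G (circleMap 0 ρ θ) * ((circleMap 0 ρ θ) ^ m)⁻¹ := by
      field_simp
    rw [h7, ← h6]
    ring
  simp only [h2] at h
  rw [intervalIntegral.integral_const_mul] at h
  rw [integral_Pm, Complex.real_smul]
  set J : ℂ := ∫ θ in (0 : ℝ)..2 * Real.pi, G (circleMap 0 ρ θ) * ex (-(m : ℤ)) θ with hJ
  have hI : (I : ℂ) ≠ 0 := I_ne_zero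
  have hρ : ((ρ ^ m : ℝ) : ℂ) ≠ 0 := by
    have : (ρ ^ m : ℝ) ≠ 0 := by positivity
    exact_mod_cast this
  have hpi : ((2 * Real.pi : ℝ) : ℂ) ≠ 0 := by exact_mod_cast two_pi_pos'.ne'
  have h6 : J = ((ρ ^ m : ℝ) : ℂ) * (((2 * Real.pi : ℝ) : ℂ) * tc G m) := by
    have h7 : I * (((((ρ ^ m)⁻¹ : ℝ) : ℂ)) * J) = I * (((2 * Real.pi : ℝ) : ℂ) * tc G m) := by
      rw [← mul_assoc, h]; push_cast; ring
    have h8 := mul_left_cancel₀ hI h7
    rw [← h8, ← mul_assoc, ← Complex.ofReal_mul, mul_inv_cancel₀ (by positivity), Complex.ofReal_one, one_mul]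
  rw [h6, Complex.ofReal_inv]
  field_simp

/-- mean squares of real parts -/
theorem re_sq {G : ℂ → ℂ} (hG : DifferentiableOn ℂ G (ball 0 1)) (hG0 : G 0 = 0) {ρ : ℝ} (h0 : 0 < ρ)
    (h1 : ρ < 1) : ∫ θ, (G (circleMap 0 ρ θ)).re ^ 2 ∂Pm = 1 / 2 * ∫ θ, ‖G (circleMap 0 ρ θ)‖ ^ 2 ∂Pm := by
  have hGc := comp_cont hG h0 h1
  have h2 : ∫ θ, ((G (circleMap 0 ρ θ)) * G (circleMap 0 ρ θ)).re ∂Pm = 0 := by
    have h3 := av_re h0 h1 (hG.mul hG)
    rw [circleAverage_eq_Pm] at h3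
    have h4 : (G * G) 0 = 0 := by simp [hG0]
    rw [h4] at h3
    exact h3
  have h3 : ∀ θ, (G (circleMap 0 ρ θ)).re ^ 2 = 1 / 2 * ‖G (circleMap 0 ρ θ)‖ ^ 2 +
      1 / 2 * ((G (circleMap 0 ρ θ)) * G (circleMap 0 ρ θ)).re := by
    intro θ
    rw [← Complex.normSq_eq_norm_sq, Complex.normSq_apply, mul_re]
    ring
  simp only [h3]
  have i1 : Integrable (fun θ => 1 / 2 * ‖G (circleMap 0 ρ θ)‖ ^ 2) Pm :=
    Continuous.integrable_Pm (continuous_const.mul (hGc.norm.pow 2))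
  have i2 : Integrable (fun θ => 1 / 2 * ((G (circleMap 0 ρ θ)) * G (circleMap 0 ρ θ)).re) Pm :=
    Continuous.integrable_Pm (continuous_const.mul (continuous_re.comp (hGc.mul hGc)))
  rw [integral_add i1 i2, integral_const_mul, integral_const_mul, h2]
  ring

/-- the expansion of the mean square -/
theorem cross (hd : 2 ≤ d) {G : ℂ → ℂ} (hG : DifferentiableOn ℂ G (ball 0 1)) {ρ : ℝ} (h0 : 0 < ρ)
    (h1 : ρ < 1) (u : ℝ) (N : ℕ) :
    ∫ θ, ‖G (circleMap 0 ρ θ) - (u : ℂ) * Lam d (Finset.range N) (fun _ => 1) ((d - 1 : ℕ) : ℤ) θ‖ ^ 2 ∂Pm =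
      ∫ θ, ‖G (circleMap 0 ρ θ)‖ ^ 2 ∂Pm -
      2 * u * ∑ j ∈ Finset.range N, ρ ^ ((d - 1) * d ^ j) * (tc G ((d - 1) * d ^ j)).re + u ^ 2 * N := by
  have hGc := comp_cont hG h0 h1
  set Λ : ℝ → ℂ := Lam d (Finset.range N) (fun _ => 1) ((d - 1 : ℕ) : ℤ) with hΛ
  have hΛc : Continuous Λ := Lam_cont _ _ _ _
  have hexc := ex_cont
  have h2 : ∀ θ, ‖G (circleMap 0 ρ θ) - (u : ℂ) * Λ θ‖ ^ 2 = ‖G (circleMap 0 ρ θ)‖ ^ 2 +
      (-(2 * u)) * (G (circleMap 0 ρ θ) * (starRingEnd ℂ) (Λ θ)).re + u ^ 2 * ‖Λ θ‖ ^ 2 := by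
    intro θ
    rw [← Complex.normSq_eq_norm_sq, ← Complex.normSq_eq_norm_sq, ← Complex.normSq_eq_norm_sq,
      Complex.normSq_sub, Complex.normSq_mul, Complex.normSq_ofReal, map_mul, Complex.conj_ofReal]
    have : (G (circleMap 0 ρ θ) * ((u : ℂ) * (starRingEnd ℂ) (Λ θ))).re =
        u * (G (circleMap 0 ρ θ) * (starRingEnd ℂ) (Λ θ)).re := by
      rw [mul_left_comm, Complex.re_ofReal_mul]
    rw [this]
    ring
  have h3 : ∫ θ, (G (circleMap 0 ρ θ) * (starRingEnd ℂ) (Λ θ)).re ∂Pm =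
      ∑ j ∈ Finset.range N, ρ ^ ((d - 1) * d ^ j) * (tc G ((d - 1) * d ^ j)).re := by
    have h4 := integral_re (𝕜 := ℂ) (μ := Pm) (f := fun θ => G (circleMap 0 ρ θ) * (starRingEnd ℂ) (Λ θ))
      (Continuous.integrable_Pm (hGc.mul (Complex.continuous_conj.comp hΛc)))
    refine h4.trans ?_
    have h5 : ∀ θ, G (circleMap 0 ρ θ) * (starRingEnd ℂ) (Λ θ) =
        ∑ j ∈ Finset.range N, G (circleMap 0 ρ θ) * ex (-(((d - 1) * d ^ j : ℕ) : ℤ)) θ := by
      intro θ
      rw [hΛ]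
      unfold Lam
      rw [map_sum, Finset.mul_sum]
      apply Finset.sum_congr rfl
      intro j _
      rw [one_mul, ex_conj]
      push_cast
      rfl
    simp only [h5]
    have hi : ∀ j ∈ Finset.range N, Integrable
        (fun θ => G (circleMap 0 ρ θ) * ex (-(((d - 1) * d ^ j : ℕ) : ℤ)) θ) Pm :=
      fun j _ => Continuous.integrable_Pm (hGc.mul (ex_cont _))
    rw [integral_finsetSum _ hi]
    change (∑ j ∈ Finset.range N, _ : ℂ).re = _
    rw [re_sum]
    apply Finset.sum_congr rfl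
    intro j _
    rw [fourier_tc hG h0 h1, Complex.re_ofReal_mul]
  simp only [h2]
  have i1 : Integrable (fun θ => ‖G (circleMap 0 ρ θ)‖ ^ 2) Pm := Continuous.integrable_Pm (hGc.norm.pow 2)
  have i2 : Integrable (fun θ => (-(2 * u)) * (G (circleMap 0 ρ θ) * (starRingEnd ℂ) (Λ θ)).re) Pm :=
    Continuous.integrable_Pm (continuous_const.mul (continuous_re.comp (hGc.mul (Complex.continuous_conj.comp hΛc))))
  have i3 : Integrable (fun θ => u ^ 2 * ‖Λ θ‖ ^ 2) Pm :=
    Continuous.integrable_Pm (continuous_const.mul (hΛc.norm.pow 2))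
  have i12 : Integrable (fun θ => ‖G (circleMap 0 ρ θ)‖ ^ 2 +
      (-(2 * u)) * (G (circleMap 0 ρ θ) * (starRingEnd ℂ) (Λ θ)).re) Pm := i1.add i2
  rw [integral_add i12 i3, integral_add i1 i2, integral_const_mul, integral_const_mul, h3, hΛ,
    Lam_sq hd _ _ (by
      have : d - 1 ≠ 0 := by omega
      exact_mod_cast this)]
  simp
  ring

/-- **the standard deviation has positive mean** -/
theorem nondeg (hd : 2 ≤ d) (hβ : IsBeta d β) {F : ℕ → ℂ → ℂ} (hF : IsLog d β F) {q : ℕ → ℤ}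
    {e : ℕ → ℕ} (hqe : ∀ k, 1 ≤ k → ¬ (d : ℤ) ∣ q k ∧ (k : ℤ) = q k * (d : ℤ) ^ e k)
    {K : ℕ → ℕ} {b : ℕ → ℕ → ℝ → ℂ} {s : ℝ → ℝ} (hb : ∀ m k, Continuous (b m k))
    (hb0 : ∀ m k, k ∉ Finset.Icc 1 (K m) → ∀ θ, b m k θ = 0)
    (hn : ∀ m, Near d F (K m) (b m) ((1 / 4) ^ m)) (hs0 : ∀ θ, 0 ≤ s θ) (hs2 : MemLp s 2 Pm)
    (hlim : Tendsto (fun m => ∫ θ, |sg (K m) q (fun k => b m k θ) - s θ| ∂Pm) atTop (𝓝 0)) :
    0 < ∫ θ, s θ ∂Pm := by
  have hd0 : (0 : ℝ) < d := by exact_mod_cast (by omega : 0 < d)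
  have hqpos : ∀ k, 1 ≤ k → 0 < q k := by
    intro k hk1
    have h1 := (hqe k hk1).2
    have h2 : (0 : ℤ) < k := by exact_mod_cast hk1
    rw [h1] at h2
    have h3 : (0 : ℤ) < (d : ℤ) ^ e k := by
      have : (0 : ℤ) < d := by exact_mod_cast (by omega : 0 < d)
      positivity
    exact pos_of_mul_pos_left h2 h3.le
  have hs1 : Integrable s Pm := hs2.integrable (by norm_num)
  obtain ⟨C, hC0, hC⟩ := en_sum hd hβ hF
  obtain ⟨j0, hj0⟩ := tc_SS_lower hd hβ hF
  set p0 : ℝ := Real.exp (-(((d - 1 : ℕ) : ℝ) * (d * c1 d))) with hp0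
  have hp00 : 0 < p0 := Real.exp_pos _
  set c0 : ℝ := p0 / (4 * (d : ℝ) ^ 2) with hc0
  have hc00 : 0 < c0 := by positivity
  -- lower bound for the pairing
  have hpair : ∀ᶠ ρ in 𝓝[<] (1 : ℝ), c0 * NN d ρ ≤
      ∑ j ∈ Finset.range (NN d ρ), ρ ^ ((d - 1) * d ^ j) * (tc (SS F (NN d ρ)) ((d - 1) * d ^ j)).re := by
    have hlarge : ∀ᶠ n : ℕ in atTop, j0 * √(C * n) + j0 * (p0 / (2 * (d : ℝ) ^ 2)) ≤ c0 * n := by
      have s1 : Tendsto (fun n : ℕ => √(n : ℝ)) atTop atTop :=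
        Real.tendsto_sqrt_atTop.comp tendsto_natCast_atTop_atTop
      filter_upwards [s1.eventually_ge_atTop ((j0 * √C + j0 * (p0 / (2 * (d : ℝ) ^ 2))) / c0),
        s1.eventually_ge_atTop 1] with n h1 h2
      rw [div_le_iff₀ hc00] at h1
      have h3 : √(n : ℝ) * √(n : ℝ) = n := Real.mul_self_sqrt (Nat.cast_nonneg n)
      rw [Real.sqrt_mul hC0.le]
      have h4 : (j0 : ℝ) * (p0 / (2 * (d : ℝ) ^ 2)) ≤ j0 * (p0 / (2 * (d : ℝ) ^ 2)) * √(n : ℝ) :=
        le_mul_of_one_le_right (by positivity) h2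
      have h5 : (j0 * √C + j0 * (p0 / (2 * (d : ℝ) ^ 2))) * √(n : ℝ) ≤ √(n : ℝ) * c0 * √(n : ℝ) :=
        mul_le_mul_of_nonneg_right h1 (Real.sqrt_nonneg _)
      nlinarith
    filter_upwards [ev_range, (NN_tendsto hd).eventually hlarge, (NN_tendsto hd).eventually_ge_atTop (j0 + 1)]
      with ρ h1 h2 h3
    have hρ0 : 0 < ρ := by linarith [h1.1]
    have hρ1 : ρ < 1 := h1.2.1
    set N := NN d ρ with hN
    have hen := hC (Finset.range N) ρ hρ0 hρ1
    rw [Finset.card_range] at hen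
    -- low terms
    have hlow : ∀ j ∈ Finset.range j0, -√(C * N) ≤ ρ ^ ((d - 1) * d ^ j) * (tc (SS F N) ((d - 1) * d ^ j)).re := by
      intro j _
      have h4 := sum_le_hasSum {(d - 1) * d ^ j} (fun k _ => by positivity)
        (hasSum_sq_tc hρ0 hρ1 (SS_diff hF N))
      rw [Finset.sum_singleton] at h4
      have h5 : ‖tc (SS F N) ((d - 1) * d ^ j)‖ * ρ ^ ((d - 1) * d ^ j) ≤ √(C * N) := by
        apply Real.le_sqrt_of_sq_le
        rw [mul_pow, ← pow_mul, mul_comm _ 2]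
        exact h4.trans hen
      have h6 := (abs_le.1 (abs_re_le_norm (tc (SS F N) ((d - 1) * d ^ j)))).1
      have h7 : 0 ≤ ρ ^ ((d - 1) * d ^ j) := by positivity
      nlinarith
    have hhigh : ∀ j ∈ Finset.Ico j0 N, p0 / (2 * (d : ℝ) ^ 2) ≤
        ρ ^ ((d - 1) * d ^ j) * (tc (SS F N) ((d - 1) * d ^ j)).re := by
      intro j hj
      rw [Finset.mem_Ico] at hj
      have h4 := hj0 j N hj.1 hj.2.le
      have h5 : p0 ≤ ρ ^ ((d - 1) * d ^ j) := by
        have h6 := NN_upper' hd hρ0 hρ1 h1.2.2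
        rw [← hN] at h6
        have h7 : ρ = Real.exp (-ss ρ) := by
          unfold ss
          rw [Real.log_div one_ne_zero hρ0.ne', Real.log_one, zero_sub, neg_neg, Real.exp_log hρ0]
        have h7' : ρ ^ ((d - 1) * d ^ j) = Real.exp (-ss ρ) ^ ((d - 1) * d ^ j) :=
          congrArg (fun r : ℝ => r ^ ((d - 1) * d ^ j)) h7
        rw [h7', hp0, ← Real.exp_nat_mul]
        apply Real.exp_le_exp.2
        have h8 : (d : ℝ) ^ j ≤ (d : ℝ) ^ N := pow_le_pow_right₀ (by exact_mod_cast (by omega : 1 ≤ d)) hj.2.le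
        have h9 := ss_pos hρ0 hρ1
        push_cast
        have h10 : (d : ℝ) ^ j * ss ρ ≤ d * c1 d := (mul_le_mul_of_nonneg_right h8 h9.le).trans h6
        have h11 : (0 : ℝ) ≤ ((d - 1 : ℕ) : ℝ) := Nat.cast_nonneg _
        nlinarith [mul_le_mul_of_nonneg_left h10 h11]
      calc p0 / (2 * (d : ℝ) ^ 2) = p0 * (1 / (2 * (d : ℝ) ^ 2)) := by ring
        _ ≤ _ := mul_le_mul h5 h4 (by positivity) (by positivity)
    have hj0N : j0 ≤ N := by omega
    rw [Finset.range_eq_Ico, ← Finset.sum_Ico_consecutive _ (Nat.zero_le j0) hj0N, ← Finset.range_eq_Ico]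
    have k1 := Finset.sum_le_sum hlow
    have k2 := Finset.sum_le_sum hhigh
    rw [Finset.sum_const, Finset.card_range, nsmul_eq_mul] at k1
    rw [Finset.sum_const, Nat.card_Ico, nsmul_eq_mul, Nat.cast_sub hj0N] at k2
    have k3 : p0 / (2 * (d : ℝ) ^ 2) = 2 * c0 := by rw [hc0]; field_simp; ring
    rw [k3] at k2 h2
    nlinarith
  -- the main inequality
  have key : ∀ u : ℝ, 0 < u → ∀ τ : ℝ, 0 < τ → ∀ m : ℕ,
      u ^ 2 / 2 - √2 * u * ∫ θ, sg (K m) q (fun k => b m k θ) ∂Pm ≤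
        (1 + τ) * (C / 2 - u * c0 + u ^ 2 / 2) + (1 + 1 / τ) * (1 / 4) ^ m := by
    intro u hu τ hτ m
    set K' : ℕ := max (K m) (d - 1) with hK'
    have hd1 : 1 ≤ d - 1 := by omega
    set ev : ℕ → ℂ := fun k => if k = d - 1 then (u : ℂ) else 0 with hev
    set b' : ℕ → ℝ → ℂ := fun k θ => b m k θ - ev k with hb'
    have hb'c : ∀ k, Continuous (b' k) := fun k => (hb m k).sub continuous_const
    have hmemd : d - 1 ∈ Finset.Icc 1 K' := Finset.mem_Icc.2 ⟨hd1, le_max_right _ _⟩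
    have hTe : ∀ n θ, TK d K' ev n θ = (u : ℂ) * Lam d (Finset.range n) (fun _ => 1) ((d - 1 : ℕ) : ℤ) θ := by
      intro n θ
      rw [TK_eq, Finset.sum_eq_single_of_mem (d - 1) hmemd]
      · simp only [hev, if_true]
      · intro k _ hk
        simp only [hev, if_neg hk, zero_mul]
    -- second moments
    have hA : ∀ᶠ ρ in 𝓝[<] (1 : ℝ), ∫ θ, (TK d K' (fun k => b' k θ) (NN d ρ) θ).re ^ 2 ∂Pm ≤
        ((1 + τ) * (C / 2 - u * c0 + u ^ 2 / 2) + (1 + 1 / τ) * (1 / 4) ^ m) * NN d ρ := by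
      filter_upwards [hpair, hn m, ev_range, (NN_tendsto hd).eventually_ge_atTop 1] with ρ h1 h2 h3 h4
      have hρ0 : 0 < ρ := by linarith [h3.1]
      have hρ1 : ρ < 1 := h3.2.1
      set N := NN d ρ with hN
      set Gp : ℂ → ℂ := fun x => ∑ j ∈ Finset.range N,
        (((ρ ^ ((d - 1) * d ^ j))⁻¹ : ℝ) : ℂ) * x ^ ((d - 1) * d ^ j) with hGp
      have hGpd : Differentiable ℂ Gp := by rw [hGp]; fun_prop
      have hGpc : ∀ θ, Gp (circleMap 0 ρ θ) = Lam d (Finset.range N) (fun _ => 1) ((d - 1 : ℕ) : ℤ) θ := by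
        intro θ
        simp only [hGp]
        unfold Lam
        apply Finset.sum_congr rfl
        intro j _
        rw [circleMap_pow, ← mul_assoc, ← Complex.ofReal_mul, inv_mul_cancel₀ (by positivity),
          Complex.ofReal_one]
        push_cast
        rfl
      set f : ℂ → ℂ := fun x => SS F N x - (u : ℂ) * Gp x with hf
      have hfd : DifferentiableOn ℂ f (ball 0 1) := (SS_diff hF N).sub (hGpd.differentiableOn.const_mul _)
      have hf0 : f 0 = 0 := by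
        simp only [hf, hGp]
        rw [SS_zero hF, zero_sub, neg_eq_zero, Finset.sum_eq_zero, mul_zero]
        intro j _
        rw [zero_pow, mul_zero]
        have : 1 ≤ (d - 1) * d ^ j := Nat.mul_pos (by omega) (by positivity)
        omega
      have hfe : ∫ θ, (f (circleMap 0 ρ θ)).re ^ 2 ∂Pm ≤ (C / 2 - u * c0 + u ^ 2 / 2) * N := by
        rw [re_sq hfd hf0 hρ0 hρ1]
        have e1 : ∀ θ, f (circleMap 0 ρ θ) = SS F N (circleMap 0 ρ θ) -
            (u : ℂ) * Lam d (Finset.range N) (fun _ => 1) ((d - 1 : ℕ) : ℤ) θ := by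
          intro θ
          simp only [hf]
          rw [hGpc]
        simp only [e1]
        rw [cross hd (SS_diff hF N) hρ0 hρ1]
        have e2 := hC (Finset.range N) ρ hρ0 hρ1
        rw [Finset.card_range, circleAverage_eq_Pm] at e2
        have e3 : ∫ θ, ‖SS F N (circleMap 0 ρ θ)‖ ^ 2 ∂Pm ≤ C * N := e2
        have e4 := mul_le_mul_of_nonneg_left h1 hu.le
        nlinarith
      -- comparison
      have hfc : Continuous fun θ => f (circleMap 0 ρ θ) := comp_cont hfd hρ0 hρ1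
      have hSc : Continuous fun θ => SS F N (circleMap 0 ρ θ) := comp_cont (SS_diff hF _) hρ0 hρ1
      have hTc : Continuous fun θ => TK d (K m) (fun k => b m k θ) N θ := TK_cont (K m) (b m) (hb m) _
      have hT'c : Continuous fun θ => TK d K' (fun k => b' k θ) N θ := TK_cont K' b' hb'c _
      have i0 : Integrable (fun θ => (TK d K' (fun k => b' k θ) N θ).re ^ 2) Pm :=
        Continuous.integrable_Pm ((continuous_re.comp hT'c).pow 2)
      have i1 : Integrable (fun θ => (1 + τ) * (f (circleMap 0 ρ θ)).re ^ 2) Pm :=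
        Continuous.integrable_Pm (continuous_const.mul ((continuous_re.comp hfc).pow 2))
      have i2 : Integrable (fun θ => (1 + 1 / τ) * ‖SS F N (circleMap 0 ρ θ) -
          TK d (K m) (fun k => b m k θ) N θ‖ ^ 2) Pm :=
        Continuous.integrable_Pm (continuous_const.mul ((hSc.sub hTc).norm.pow 2))
      have hle : ∫ θ, (TK d K' (fun k => b' k θ) N θ).re ^ 2 ∂Pm ≤
          ∫ θ, ((1 + τ) * (f (circleMap 0 ρ θ)).re ^ 2 + (1 + 1 / τ) * ‖SS F N (circleMap 0 ρ θ) -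
          TK d (K m) (fun k => b m k θ) N θ‖ ^ 2) ∂Pm := by
        apply integral_mono i0 (i1.add i2)
        intro θ
        change (TK d K' (fun k => b' k θ) N θ).re ^ 2 ≤
          (1 + τ) * (f (circleMap 0 ρ θ)).re ^ 2 + (1 + 1 / τ) * ‖SS F N (circleMap 0 ρ θ) -
          TK d (K m) (fun k => b m k θ) N θ‖ ^ 2
        have e1 : TK d K' (fun k => b' k θ) N θ = f (circleMap 0 ρ θ) -
            (SS F N (circleMap 0 ρ θ) - TK d (K m) (fun k => b m k θ) N θ) := by
          simp only [hb', hf]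
          rw [TK_sub, hTe, TK_ext (le_max_left _ _) (fun k hk => hb0 m k hk θ), hGpc]
          ring
        rw [e1, sub_re]
        set x := (f (circleMap 0 ρ θ)).re
        set z := SS F N (circleMap 0 ρ θ) - TK d (K m) (fun k => b m k θ) N θ
        have e2 : z.re ^ 2 ≤ ‖z‖ ^ 2 := by
          rw [← sq_abs]
          exact pow_le_pow_left₀ (abs_nonneg _) (abs_re_le_norm _) 2
        have e3 : (x - z.re) ^ 2 ≤ (1 + τ) * x ^ 2 + (1 + 1 / τ) * z.re ^ 2 := by
          have e4 : (1 + τ) * x ^ 2 + (1 + 1 / τ) * z.re ^ 2 - (x - z.re) ^ 2 = (τ * x + z.re) ^ 2 / τ := by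
            field_simp
            ring
          have : 0 ≤ (τ * x + z.re) ^ 2 / τ := by positivity
          linarith
        have e4 : (1 + 1 / τ) * z.re ^ 2 ≤ (1 + 1 / τ) * ‖z‖ ^ 2 := mul_le_mul_of_nonneg_left e2 (by positivity)
        linarith
      refine hle.trans ?_
      rw [integral_add i1 i2, integral_const_mul, integral_const_mul]
      have k1 := mul_le_mul_of_nonneg_left hfe (by positivity : 0 ≤ 1 + τ)
      have k2 := mul_le_mul_of_nonneg_left h2 (by positivity : 0 ≤ 1 + 1 / τ)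
      linarith
    have h1 := second hd hqe hb'c (NN_tendsto hd) hA
    refine le_trans ?_ h1
    -- lower bound for the variance
    have hsge : sg K' q ev = u / √2 := by
      have e1 : ev = fun k => (u : ℂ) * (if k = d - 1 then (1 : ℂ) else 0) := by
        funext k
        simp only [hev]
        split_ifs <;> simp
      have e2 : vr K' q (fun k => if k = d - 1 then (1 : ℂ) else 0) = 1 / 2 := by
        have e3 : ∀ θ, hh K' q (fun k => if k = d - 1 then (1 : ℂ) else 0) θ = (ex (q (d - 1)) θ).re := by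
          intro θ
          unfold hh
          rw [Finset.sum_eq_single_of_mem (d - 1) hmemd]
          · simp
          · intro k _ hk
            simp only [if_neg hk, zero_mul]
        unfold vr
        simp only [e3]
        have e4 : ∀ θ, (ex (q (d - 1)) θ).re ^ 2 = 1 / 2 + 1 / 2 * (ex (2 * q (d - 1)) θ).re := by
          intro θ
          have e5 : ex (2 * q (d - 1)) θ = ex (q (d - 1)) θ * ex (q (d - 1)) θ := by
            rw [← ex_add]; congr 1; ring
          have e6 : (ex (q (d - 1)) θ).re * (ex (q (d - 1)) θ).re +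
              (ex (q (d - 1)) θ).im * (ex (q (d - 1)) θ).im = 1 := by
            rw [← Complex.normSq_apply, Complex.normSq_eq_norm_sq, norm_ex, one_pow]
          rw [e5, mul_re]
          linear_combination (1 / 2 : ℝ) * e6
        simp only [e4]
        have i1 : Integrable (fun θ => 1 / 2 * (ex (2 * q (d - 1)) θ).re) Pm :=
          Continuous.integrable_Pm (continuous_const.mul (continuous_re.comp (ex_cont _)))
        rw [integral_add (integrable_const _) i1, integral_const_mul]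
        have e7 : ∫ θ, (ex (2 * q (d - 1)) θ).re ∂Pm = 0 := by
          have h6 := integral_re (𝕜 := ℂ) (μ := Pm) (f := fun θ => ex (2 * q (d - 1)) θ)
            (Continuous.integrable_Pm (ex_cont _))
          refine h6.trans ?_
          rw [integral_ex, if_neg]
          · rfl
          · have := hqpos (d - 1) hd1
            omega
        rw [e7]
        simp
      unfold sg
      rw [e1, vr_mul (fun k hk => hqpos k (Finset.mem_Icc.1 hk).1), e2, Complex.norm_real,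
        Real.norm_of_nonneg hu.le, Real.sqrt_mul (by positivity), Real.sqrt_sq hu.le, one_div,
        Real.sqrt_inv]
      rfl
    have c1' : Continuous fun θ => sg (K m) q (fun k => b m k θ) := (vr_cont (K m) q (hb m)).sqrt
    have j1 : Integrable (fun θ => u ^ 2 / 2 - √2 * u * sg (K m) q (fun k => b m k θ)) Pm :=
      Continuous.integrable_Pm (by fun_prop)
    have j2 : Integrable (fun θ => vr K' q (fun k => b' k θ)) Pm := Continuous.integrable_Pm (vr_cont K' q hb'c)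
    have h2 : ∫ θ, (u ^ 2 / 2 - √2 * u * sg (K m) q (fun k => b m k θ)) ∂Pm ≤
        ∫ θ, vr K' q (fun k => b' k θ) ∂Pm := by
      apply integral_mono j1 j2
      intro θ
      change u ^ 2 / 2 - √2 * u * sg (K m) q (fun k => b m k θ) ≤ vr K' q (fun k => b' k θ)
      have e1 := sg_sub K' q (fun k => b m k θ) ev
      rw [hsge, sg_ext (le_max_left _ _) q (fun k hk => hb0 m k hk θ)] at e1
      have e2 : (sg (K m) q (fun k => b m k θ) - u / √2) ^ 2 ≤ vr K' q (fun k => b' k θ) := by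
        rw [← sg_sq, ← sq_abs]
        exact pow_le_pow_left₀ (abs_nonneg _) e1 2
      refine le_trans ?_ e2
      have e3 := sg_nonneg (K m) q (fun k => b m k θ)
      have e4 : u / √2 = √2 * u / 2 := by
        have h5 : √2 * √2 = (2 : ℝ) := Real.mul_self_sqrt (by norm_num)
        field_simp
        linarith
      rw [e4]
      have h5 : √2 * √2 = (2 : ℝ) := Real.mul_self_sqrt (by norm_num)
      nlinarith [sq_nonneg (sg (K m) q (fun k => b m k θ))]
    rw [integral_sub (integrable_const _) (Continuous.integrable_Pm (by fun_prop)), integral_const_mul] at h2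
    simpa using h2
  -- limit `m → ∞`
  have key2 : ∀ u : ℝ, 0 < u → ∀ τ : ℝ, 0 < τ → u ^ 2 / 2 - √2 * u * ∫ θ, s θ ∂Pm ≤
      (1 + τ) * (C / 2 - u * c0 + u ^ 2 / 2) := by
    intro u hu τ hτ
    have l1 : Tendsto (fun m => ∫ θ, sg (K m) q (fun k => b m k θ) ∂Pm) atTop (𝓝 (∫ θ, s θ ∂Pm)) := by
      rw [tendsto_iff_dist_tendsto_zero]
      apply squeeze_zero (fun _ => dist_nonneg) _ hlim
      intro m
      have c1' : Continuous fun θ => sg (K m) q (fun k => b m k θ) := (vr_cont (K m) q (hb m)).sqrt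
      rw [Real.dist_eq, ← integral_sub (Continuous.integrable_Pm c1') hs1, ← Real.norm_eq_abs]
      exact norm_integral_le_integral_norm _
    have l2 : Tendsto (fun m : ℕ => (1 + τ) * (C / 2 - u * c0 + u ^ 2 / 2) + (1 + 1 / τ) * (1 / 4 : ℝ) ^ m) atTop
        (𝓝 ((1 + τ) * (C / 2 - u * c0 + u ^ 2 / 2) + (1 + 1 / τ) * 0)) :=
      tendsto_const_nhds.add ((tendsto_pow_atTop_nhds_zero_of_lt_one (by norm_num) (by norm_num)).const_mul _)
    have l3 : Tendsto (fun m => u ^ 2 / 2 - √2 * u * ∫ θ, sg (K m) q (fun k => b m k θ) ∂Pm) atTop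
        (𝓝 (u ^ 2 / 2 - √2 * u * ∫ θ, s θ ∂Pm)) :=
      tendsto_const_nhds.sub (l1.const_mul (√2 * u))
    have := le_of_tendsto_of_tendsto' l3 l2 (key u hu τ hτ)
    rwa [mul_zero, add_zero] at this
  have key3 : ∀ u : ℝ, 0 < u → u ^ 2 / 2 - √2 * u * ∫ θ, s θ ∂Pm ≤ C / 2 - u * c0 + u ^ 2 / 2 := by
    intro u hu
    have l1 : Tendsto (fun τ : ℝ => (1 + τ) * (C / 2 - u * c0 + u ^ 2 / 2)) (𝓝[>] 0)
        (𝓝 ((1 + 0) * (C / 2 - u * c0 + u ^ 2 / 2))) := by
      have hc : Continuous fun τ : ℝ => (1 + τ) * (C / 2 - u * c0 + u ^ 2 / 2) := by fun_prop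
      exact (hc.tendsto 0).mono_left nhdsWithin_le_nhds
    have := ge_of_tendsto l1 (by
      filter_upwards [self_mem_nhdsWithin] with τ hτ
      exact key2 u hu τ hτ)
    linarith
  -- conclusion
  have hs0' : 0 ≤ ∫ θ, s θ ∂Pm := integral_nonneg hs0
  rcases hs0'.lt_or_eq with h | h
  · exact h
  · exfalso
    have h1 := key3 (C / c0) (by positivity)
    rw [← h] at h1
    have h2 : C / c0 * c0 = C := by field_simp
    rw [h2] at h1
    linarith

end Pool.Agent.H439.MC
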