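import Mathlib
import Pool.Agent.H439.MC.Ang

/-!
# From characteristic functions to mixed laws
-/

set_option autoImplicit false

namespace Pool.Agent.H439.MC

open Complex Set Topology Filter MeasureTheory BoundedContinuousFunction
open scoped RealInnerProductSpace

variable {E : Type*} [NormedAddCommGroup E] [InnerProductSpace ℝ E] [FiniteDimensional ℝ E]
  [MeasurableSpace E] [BorelSpace E]

/-- the density of a positive weight -/
noncomputable def wt (φ : ℝ → ℝ) : Measure ℝ := Pm.withDensity (fun θ => ENNReal.ofReal (φ θ))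

theorem integral_wt {G : Type*} [NormedAddCommGroup G] [NormedSpace ℝ G] {φ : ℝ → ℝ} (hφ : Measurable φ)
    (h0 : ∀ θ, 0 ≤ φ θ) (f : ℝ → G) : ∫ θ, f θ ∂(wt φ) = ∫ θ, φ θ • f θ ∂Pm := by
  unfold wt
  rw [integral_withDensity_eq_integral_toReal_smul (by fun_prop) (ae_of_all _ fun _ => ENNReal.ofReal_lt_top)]
  congr 1
  funext θ
  rw [ENNReal.toReal_ofReal (h0 θ)]

theorem wt_prob {φ : ℝ → ℝ} (hφ : Integrable φ Pm) (h0 : ∀ θ, 0 ≤ φ θ) (h1 : ∫ θ, φ θ ∂Pm = 1) :
    IsProbabilityMeasure (wt φ) := ⟨by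
  unfold wt
  rw [withDensity_apply _ MeasurableSet.univ, Measure.restrict_univ,
    ← ofReal_integral_eq_lintegral_ofReal hφ (ae_of_all _ h0), h1, ENNReal.ofReal_one]⟩

/-- positive weights of total mass one -/
theorem weak_pos {Z : ℕ → ℝ → E} (hZ : ∀ n, Measurable (Z n)) {γ : Measure E} [IsProbabilityMeasure γ]
    {s : ℝ → ℝ} (hs : Measurable s) {φ : ℝ → ℝ} (hφm : Measurable φ) (hφ : Integrable φ Pm)
    (h0 : ∀ θ, 0 ≤ φ θ) (h1 : ∫ θ, φ θ ∂Pm = 1)
    (h : ∀ t : E, Tendsto (fun n => ∫ θ, (φ θ : ℂ) * exp (⟪Z n θ, t⟫ * I) ∂Pm) atTop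
      (𝓝 (∫ θ, (φ θ : ℂ) * charFun γ (s θ • t) ∂Pm))) (f : E →ᵇ ℝ) :
    Tendsto (fun n => ∫ θ, φ θ * f (Z n θ) ∂Pm) atTop (𝓝 (∫ θ, φ θ * ∫ w, f (s θ • w) ∂γ ∂Pm)) := by
  have hp : IsProbabilityMeasure (wt φ) := wt_prob hφ h0 h1
  have hG : Measurable fun p : ℝ × E => s p.1 • p.2 := (hs.comp measurable_fst).smul measurable_snd
  have : ∀ n, IsProbabilityMeasure ((wt φ).map (Z n)) := fun n =>
    Measure.isProbabilityMeasure_map (hZ n).aemeasurable
  have : IsProbabilityMeasure (((wt φ).prod γ).map fun p : ℝ × E => s p.1 • p.2) :=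
    Measure.isProbabilityMeasure_map hG.aemeasurable
  set μ : ℕ → ProbabilityMeasure E := fun n => ⟨(wt φ).map (Z n), inferInstance⟩ with hμ
  set μ₀ : ProbabilityMeasure E := ⟨((wt φ).prod γ).map fun p : ℝ × E => s p.1 • p.2, inferInstance⟩ with hμ₀
  have hlim : Tendsto μ atTop (𝓝 μ₀) := by
    apply ProbabilityMeasure.tendsto_of_tendsto_charFun
    intro t
    have e1 : ∀ n, charFun ((μ n : ProbabilityMeasure E) : Measure E) t =
        ∫ θ, (φ θ : ℂ) * exp (⟪Z n θ, t⟫ * I) ∂Pm := by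
      intro n
      change charFun ((wt φ).map (Z n)) t = _
      rw [charFun_apply, integral_map (hZ n).aemeasurable (Measurable.aestronglyMeasurable (by fun_prop)),
        integral_wt hφm h0]
      rfl
    have e2 : charFun ((μ₀ : ProbabilityMeasure E) : Measure E) t =
        ∫ θ, (φ θ : ℂ) * charFun γ (s θ • t) ∂Pm := by
      change charFun (((wt φ).prod γ).map fun p : ℝ × E => s p.1 • p.2) t = _
      rw [charFun_apply, integral_map hG.aemeasurable (Measurable.aestronglyMeasurable (by fun_prop))]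
      rw [integral_prod]
      · rw [integral_wt hφm h0]
        congr 1
        funext θ
        rw [Complex.real_smul, charFun_apply]
        congr 2
        funext w
        rw [real_inner_smul_left, real_inner_smul_right]
      · apply Integrable.of_bound (C := 1)
        · exact Measurable.aestronglyMeasurable (by fun_prop)
        · refine Eventually.of_forall fun p => ?_
          rw [norm_exp_ofReal_mul_I]
    simp only [e1, e2]
    exact h t
  rw [ProbabilityMeasure.tendsto_iff_forall_integral_tendsto] at hlim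
  have h2 := hlim f
  have e1 : ∀ n, ∫ x, f x ∂((μ n : ProbabilityMeasure E) : Measure E) = ∫ θ, φ θ * f (Z n θ) ∂Pm := by
    intro n
    change ∫ x, f x ∂((wt φ).map (Z n)) = _
    rw [integral_map (hZ n).aemeasurable f.continuous.aestronglyMeasurable, integral_wt hφm h0]
    rfl
  have e2 : ∫ x, f x ∂((μ₀ : ProbabilityMeasure E) : Measure E) = ∫ θ, φ θ * ∫ w, f (s θ • w) ∂γ ∂Pm := by
    change ∫ x, f x ∂(((wt φ).prod γ).map fun p : ℝ × E => s p.1 • p.2) = _
    rw [integral_map hG.aemeasurable f.continuous.aestronglyMeasurable, integral_prod]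
    · rw [integral_wt hφm h0]
      rfl
    · apply Integrable.of_bound (C := ‖f‖)
      · exact (f.continuous.measurable.comp hG).aestronglyMeasurable
      · exact Eventually.of_forall fun p => f.norm_coe_le_norm _
  simp only [e1, e2] at h2
  exact h2

/-- continuous bounded weights -/
theorem weak_cont {Z : ℕ → ℝ → E} (hZ : ∀ n, Measurable (Z n)) {γ : Measure E} [IsProbabilityMeasure γ]
    {s : ℝ → ℝ} (hs : Measurable s)
    (h : ∀ (φ : ℝ → ℂ), Continuous φ → (∃ M, ∀ θ, ‖φ θ‖ ≤ M) → ∀ t : E,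
      Tendsto (fun n => ∫ θ, φ θ * exp (⟪Z n θ, t⟫ * I) ∂Pm) atTop
      (𝓝 (∫ θ, φ θ * charFun γ (s θ • t) ∂Pm))) (f : E →ᵇ ℝ) {φ : ℝ → ℝ} (hφ : Continuous φ) {M : ℝ}
    (hM : ∀ θ, |φ θ| ≤ M) :
    Tendsto (fun n => ∫ θ, φ θ * f (Z n θ) ∂Pm) atTop (𝓝 (∫ θ, φ θ * ∫ w, f (s θ • w) ∂γ ∂Pm)) := by
  have hM0 : 0 ≤ M := (abs_nonneg _).trans (hM 0)
  have hgm : Measurable fun θ => ∫ w, f (s θ • w) ∂γ := by
    have h1 : StronglyMeasurable (Function.uncurry fun (θ : ℝ) (w : E) => f (s θ • w)) := by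
      apply Measurable.stronglyMeasurable
      exact f.continuous.measurable.comp ((hs.comp measurable_fst).smul measurable_snd)
    exact h1.integral_prod_right.measurable
  have hgb : ∀ θ, ‖∫ w, f (s θ • w) ∂γ‖ ≤ ‖f‖ := by
    intro θ
    refine (norm_integral_le_of_norm_le_const (C := ‖f‖) (Eventually.of_forall fun w => f.norm_coe_le_norm _)).trans ?_
    simp
  have hfm : ∀ n, Measurable fun θ => f (Z n θ) := fun n => f.continuous.measurable.comp (hZ n)
  -- weights bounded below by one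
  have key : ∀ ψ : ℝ → ℝ, Continuous ψ → (∃ M, ∀ θ, |ψ θ| ≤ M) → (∀ θ, 1 ≤ ψ θ) →
      Tendsto (fun n => ∫ θ, ψ θ * f (Z n θ) ∂Pm) atTop (𝓝 (∫ θ, ψ θ * ∫ w, f (s θ • w) ∂γ ∂Pm)) := by
    rintro ψ hψ ⟨M', hM'⟩ hψ1
    have hψi : Integrable ψ Pm := Continuous.integrable_Pm hψ
    set c : ℝ := ∫ θ, ψ θ ∂Pm with hc
    have hc1 : 1 ≤ c := by
      have := integral_mono (integrable_const (1 : ℝ)) hψi (fun θ => hψ1 θ)
      simpa using this
    have hc0 : 0 < c := by linarith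
    have h3 := weak_pos hZ (γ := γ) hs (φ := fun θ => c⁻¹ * ψ θ) (by fun_prop) (hψi.const_mul _)
      (fun θ => by have := hψ1 θ; positivity)
      (by rw [integral_const_mul, ← hc, inv_mul_cancel₀ hc0.ne']) (fun t => ?_) f
    · have h4 := h3.const_mul c
      have e1 : ∀ g : ℝ → ℝ, c * ∫ θ, c⁻¹ * ψ θ * g θ ∂Pm = ∫ θ, ψ θ * g θ ∂Pm := by
        intro g
        rw [← integral_const_mul]
        congr 1
        funext θ
        field_simp
      simp only [e1] at h4
      exact h4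
    · apply h (fun θ => ((c⁻¹ * ψ θ : ℝ) : ℂ)) (by fun_prop) ⟨c⁻¹ * M', fun θ => ?_⟩ t
      rw [Complex.norm_real, Real.norm_eq_abs, abs_mul, abs_of_pos (inv_pos.2 hc0)]
      exact mul_le_mul_of_nonneg_left (hM' θ) (inv_pos.2 hc0).le
  have k1 := key (fun θ => φ θ + (M + 1)) (by fun_prop) ⟨M + (M + 1), fun θ => ?_⟩ (fun θ => ?_)
  · have k2 := key (fun _ => M + 1) continuous_const ⟨|M + 1|, fun _ => le_rfl⟩ (fun _ => by linarith)
    have k3 := k1.sub k2
    have e1 : ∀ g : ℝ → ℝ, Measurable g → (∀ θ, ‖g θ‖ ≤ ‖f‖) → ∫ θ, (φ θ + (M + 1)) * g θ ∂Pm - ∫ θ, (M + 1) * g θ ∂Pm =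
        ∫ θ, φ θ * g θ ∂Pm := by
      intro g hg hgb
      have i0 : Integrable g Pm := Integrable.of_bound hg.aestronglyMeasurable ‖f‖ (Eventually.of_forall hgb)
      rw [← integral_sub]
      · congr 1
        funext θ
        ring
      · apply i0.bdd_mul (c := M + (M + 1)) (Continuous.aestronglyMeasurable (by fun_prop))
        refine Eventually.of_forall fun θ => ?_
        rw [Real.norm_eq_abs]
        refine (abs_add_le _ _).trans (add_le_add (hM θ) (le_of_eq (abs_of_nonneg (by linarith))))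
      · exact i0.const_mul _
    have e2 : ∀ n, ∫ θ, (φ θ + (M + 1)) * f (Z n θ) ∂Pm - ∫ θ, (M + 1) * f (Z n θ) ∂Pm =
        ∫ θ, φ θ * f (Z n θ) ∂Pm := fun n => e1 _ (hfm n) (fun θ => f.norm_coe_le_norm _)
    have e3 := e1 _ hgm hgb
    rw [e3] at k3
    exact k3.congr e2
  · refine (abs_add_le _ _).trans (add_le_add (hM θ) (le_of_eq (abs_of_nonneg (by linarith))))
  · have := (abs_le.1 (hM θ)).1
    linarith

/-- **integrable weights** -/
theorem weak_all {Z : ℕ → ℝ → E} (hZ : ∀ n, Measurable (Z n)) {γ : Measure E} [IsProbabilityMeasure γ]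
    {s : ℝ → ℝ} (hs : Measurable s)
    (h : ∀ (φ : ℝ → ℂ), Continuous φ → (∃ M, ∀ θ, ‖φ θ‖ ≤ M) → ∀ t : E,
      Tendsto (fun n => ∫ θ, φ θ * exp (⟪Z n θ, t⟫ * I) ∂Pm) atTop
      (𝓝 (∫ θ, φ θ * charFun γ (s θ • t) ∂Pm))) (f : E →ᵇ ℝ) {φ : ℝ → ℝ} (hφ : Integrable φ Pm) :
    Tendsto (fun n => ∫ θ, φ θ * f (Z n θ) ∂Pm) atTop (𝓝 (∫ θ, φ θ * ∫ w, f (s θ • w) ∂γ ∂Pm)) := by
  have hgm : Measurable fun θ => ∫ w, f (s θ • w) ∂γ := by
    have h1 : StronglyMeasurable (Function.uncurry fun (θ : ℝ) (w : E) => f (s θ • w)) := by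
      apply Measurable.stronglyMeasurable
      exact f.continuous.measurable.comp ((hs.comp measurable_fst).smul measurable_snd)
    exact h1.integral_prod_right.measurable
  have hgb : ∀ θ, ‖∫ w, f (s θ • w) ∂γ‖ ≤ ‖f‖ := by
    intro θ
    refine (norm_integral_le_of_norm_le_const (C := ‖f‖) (Eventually.of_forall fun w => f.norm_coe_le_norm _)).trans ?_
    simp
  have hfm : ∀ n, Measurable fun θ => f (Z n θ) := fun n => f.continuous.measurable.comp (hZ n)
  rw [Metric.tendsto_nhds]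
  intro ε hε
  obtain ⟨g, hg, hgi⟩ := hφ.exists_boundedContinuous_integral_sub_le
    (by positivity : (0 : ℝ) < ε / (4 * (‖f‖ + 1)))
  have h1 := (Metric.tendsto_nhds.1 (weak_cont hZ hs h f g.continuous (M := ‖g‖) (fun θ => by
    rw [← Real.norm_eq_abs]; exact g.norm_coe_le_norm θ))) (ε / 4) (by positivity)
  have key : ∀ u : ℝ → ℝ, Measurable u → (∀ θ, ‖u θ‖ ≤ ‖f‖) →
      |∫ θ, φ θ * u θ ∂Pm - ∫ θ, g θ * u θ ∂Pm| ≤ ε / 4 := by
    intro u hu hu1
    have i1 : Integrable (fun θ => φ θ * u θ) Pm := hφ.mul_bdd hu.aestronglyMeasurable (Eventually.of_forall hu1)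
    have i2 : Integrable (fun θ => g θ * u θ) Pm := hgi.mul_bdd hu.aestronglyMeasurable (Eventually.of_forall hu1)
    rw [← integral_sub i1 i2, ← Real.norm_eq_abs]
    refine (norm_integral_le_integral_norm _).trans ?_
    have h2 : ∫ θ, ‖φ θ * u θ - g θ * u θ‖ ∂Pm ≤ ∫ θ, ‖f‖ * ‖φ θ - g θ‖ ∂Pm := by
      apply integral_mono (i1.sub i2).norm ((hφ.sub hgi).norm.const_mul _)
      intro θ
      change ‖φ θ * u θ - g θ * u θ‖ ≤ ‖f‖ * ‖φ θ - g θ‖
      rw [← sub_mul, norm_mul, mul_comm]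
      exact mul_le_mul_of_nonneg_right (hu1 θ) (norm_nonneg _)
    refine h2.trans ?_
    rw [integral_const_mul]
    calc ‖f‖ * ∫ θ, ‖φ θ - g θ‖ ∂Pm ≤ (‖f‖ + 1) * (ε / (4 * (‖f‖ + 1))) :=
          mul_le_mul (by linarith) hg (integral_nonneg fun _ => norm_nonneg _) (by positivity)
      _ = ε / 4 := by field_simp
  filter_upwards [h1] with n hn
  have k1 := key _ (hfm n) (fun θ => f.norm_coe_le_norm _)
  have k2 := key _ hgm hgb
  rw [Real.dist_eq] at hn ⊢
  rw [abs_le] at k1 k2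
  rw [abs_lt] at hn ⊢
  constructor <;> linarith

end Pool.Agent.H439.MC
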