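import Mathlib
import Pool.Agent.H439.MC.Weak
import Pool.Agent.H439.MC.Clt

/-!
# Perturbation of mixed limit laws
-/

set_option autoImplicit false

namespace Pool.Agent.H439.MC

open Complex Set Topology Filter MeasureTheory BoundedContinuousFunction
open scoped RealInnerProductSpace

variable {E : Type*} [NormedAddCommGroup E] [InnerProductSpace ℝ E] [FiniteDimensional ℝ E]
  [MeasurableSpace E] [BorelSpace E]

theorem exp_min (a b : ℝ) : ‖exp ((a : ℂ) * I) - exp ((b : ℂ) * I)‖ ≤ min 2 |a - b| := by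
  apply le_min
  · refine (norm_sub_le _ _).trans ?_
    rw [norm_exp_ofReal_mul_I, norm_exp_ofReal_mul_I]
    norm_num
  · rw [mul_comm, mul_comm (b : ℂ)]
    exact exp_I_lip a b

theorem min_bound (W Z t : E) :
    ‖exp ((⟪W, t⟫ : ℂ) * I) - exp ((⟪Z, t⟫ : ℂ) * I)‖ ≤ (2 + ‖t‖) * min 1 ‖W - Z‖ := by
  refine (exp_min _ _).trans ?_
  have h1 : |⟪W, t⟫ - ⟪Z, t⟫| ≤ ‖W - Z‖ * ‖t‖ := by
    rw [← inner_sub_left]
    exact abs_real_inner_le_norm _ _
  have h2 := norm_nonneg (W - Z)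
  have h3 := norm_nonneg t
  rcases le_total 1 ‖W - Z‖ with h | h
  · rw [min_eq_left h]
    exact (min_le_left _ _).trans (by linarith)
  · rw [min_eq_right h]
    refine (min_le_right _ _).trans (h1.trans ?_)
    nlinarith

theorem int_min {u : ℝ → E} (hu : AEMeasurable u Pm) : Integrable (fun θ => min 1 ‖u θ‖) Pm := by
  have h1 : AEStronglyMeasurable (fun θ => min 1 ‖u θ‖) Pm :=
    (aemeasurable_const.min hu.norm).aestronglyMeasurable
  apply Integrable.of_bound h1 1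
  refine Eventually.of_forall fun θ => ?_
  rw [Real.norm_of_nonneg (le_min zero_le_one (norm_nonneg _))]
  exact min_le_left _ _

theorem char_pert {ι : Type*} {l : Filter ι} {Z W : ι → ℝ → E} (hZ : ∀ᶠ i in l, AEMeasurable (Z i) Pm)
    (hW : ∀ᶠ i in l, AEMeasurable (W i) Pm)
    (hc : Tendsto (fun i => ∫ θ, min 1 ‖W i θ - Z i θ‖ ∂Pm) l (𝓝 0)) {φ : ℝ → ℂ} (hφ : Continuous φ)
    {M : ℝ} (hM : ∀ θ, ‖φ θ‖ ≤ M) (t : E) {A : ℂ}
    (h : Tendsto (fun i => ∫ θ, φ θ * exp (⟪Z i θ, t⟫ * I) ∂Pm) l (𝓝 A)) :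
    Tendsto (fun i => ∫ θ, φ θ * exp (⟪W i θ, t⟫ * I) ∂Pm) l (𝓝 A) := by
  have hM0 : 0 ≤ M := (norm_nonneg _).trans (hM 0)
  have h1 : Tendsto (fun i => (∫ θ, φ θ * exp (⟪W i θ, t⟫ * I) ∂Pm) - ∫ θ, φ θ * exp (⟪Z i θ, t⟫ * I) ∂Pm)
      l (𝓝 0) := by
    have h2 := (hc.const_mul (M * (2 + ‖t‖)))
    rw [mul_zero] at h2
    apply squeeze_zero_norm' _ h2
    filter_upwards [hZ, hW] with i hZi hWi
    have k1 : ∀ u : ℝ → E, AEMeasurable u Pm → Integrable (fun θ => φ θ * exp (⟪u θ, t⟫ * I)) Pm := by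
      intro u hu
      apply (Continuous.integrable_Pm hφ).mul_bdd (c := 1)
      · apply AEMeasurable.aestronglyMeasurable
        have h3 : Measurable fun x : E => exp ((⟪x, t⟫ : ℂ) * I) := by fun_prop
        exact h3.comp_aemeasurable hu
      · exact Eventually.of_forall fun θ => (norm_exp_ofReal_mul_I _).le
    rw [← integral_sub (k1 _ hWi) (k1 _ hZi)]
    refine (norm_integral_le_integral_norm _).trans ?_
    rw [← integral_const_mul]
    apply integral_mono ((k1 _ hWi).sub (k1 _ hZi)).norm ((int_min (hWi.sub hZi)).const_mul _)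
    intro θ
    change ‖φ θ * exp (⟪W i θ, t⟫ * I) - φ θ * exp (⟪Z i θ, t⟫ * I)‖ ≤
      M * (2 + ‖t‖) * min 1 ‖W i θ - Z i θ‖
    rw [← mul_sub, norm_mul, mul_assoc]
    exact mul_le_mul (hM θ) (min_bound _ _ _) (norm_nonneg _) hM0
  have h2 := h1.add h
  rw [zero_add] at h2
  exact h2.congr fun i => by ring

/-- **integrable weights, filters** -/
theorem weak_filter {ι : Type*} {l : Filter ι} [l.IsCountablyGenerated] {W : ι → ℝ → E}
    (hW : ∀ᶠ i in l, AEMeasurable (W i) Pm) {γ : Measure E} [IsProbabilityMeasure γ]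
    {s : ℝ → ℝ} (hs : Measurable s)
    (h : ∀ (φ : ℝ → ℂ), Continuous φ → (∃ M, ∀ θ, ‖φ θ‖ ≤ M) → ∀ t : E,
      Tendsto (fun i => ∫ θ, φ θ * exp (⟪W i θ, t⟫ * I) ∂Pm) l
      (𝓝 (∫ θ, φ θ * charFun γ (s θ • t) ∂Pm))) (f : E →ᵇ ℝ) {φ : ℝ → ℝ} (hφ : Integrable φ Pm) :
    Tendsto (fun i => ∫ θ, φ θ * f (W i θ) ∂Pm) l (𝓝 (∫ θ, φ θ * ∫ w, f (s θ • w) ∂γ ∂Pm)) := by
  classical
  apply tendsto_of_seq_tendsto
  intro u hu
  set Z : ℕ → ℝ → E := fun n => if h : AEMeasurable (W (u n)) Pm then h.mk (W (u n)) else 0 with hZ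
  have hZm : ∀ n, Measurable (Z n) := by
    intro n
    simp only [hZ]
    split_ifs with h1
    · exact h1.measurable_mk
    · exact measurable_const
  have hev : ∀ᶠ n in atTop, W (u n) =ᵐ[Pm] Z n := by
    filter_upwards [hu.eventually hW] with n hn
    simp only [hZ, dif_pos hn]
    exact hn.ae_eq_mk
  have key := weak_all hZm (γ := γ) hs (by
    intro φ' hφ' hM' t
    refine ((h φ' hφ' hM' t).comp hu).congr' ?_
    filter_upwards [hev] with n hn
    simp only [Function.comp_apply]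
    apply integral_congr_ae
    filter_upwards [hn] with θ hθ
    rw [hθ]) f hφ
  refine key.congr' ?_
  filter_upwards [hev] with n hn
  simp only [Function.comp_apply]
  apply integral_congr_ae
  filter_upwards [hn] with θ hθ
  rw [hθ]

/-- **convergence in measure does not change the limit law** -/
theorem weak_pert {ι : Type*} {l : Filter ι} [l.IsCountablyGenerated] {Z W : ι → ℝ → E}
    (hZ : ∀ᶠ i in l, AEMeasurable (Z i) Pm) (hW : ∀ᶠ i in l, AEMeasurable (W i) Pm)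
    (hc : Tendsto (fun i => ∫ θ, min 1 ‖W i θ - Z i θ‖ ∂Pm) l (𝓝 0))
    {γ : Measure E} [IsProbabilityMeasure γ] {s : ℝ → ℝ} (hs : Measurable s)
    (h : ∀ (φ : ℝ → ℂ), Continuous φ → (∃ M, ∀ θ, ‖φ θ‖ ≤ M) → ∀ t : E,
      Tendsto (fun i => ∫ θ, φ θ * exp (⟪Z i θ, t⟫ * I) ∂Pm) l
      (𝓝 (∫ θ, φ θ * charFun γ (s θ • t) ∂Pm))) (f : E →ᵇ ℝ) {φ : ℝ → ℝ} (hφ : Integrable φ Pm) :
    Tendsto (fun i => ∫ θ, φ θ * f (W i θ) ∂Pm) l (𝓝 (∫ θ, φ θ * ∫ w, f (s θ • w) ∂γ ∂Pm)) := by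
  refine weak_filter hW hs ?_ f hφ
  intro φ' hφ' hM' t
  obtain ⟨M, hM⟩ := hM'
  exact char_pert hZ hW hc hφ' hM t (h φ' hφ' ⟨M, hM⟩ t)

end Pool.Agent.H439.MC
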