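import Mathlib
import Pool.Agent.H439.MC.Nondeg
import Pool.Agent.H439.MC.Pert

/-!
# The central limit theorem in the disc coordinate
-/

set_option autoImplicit false

namespace Pool.Agent.H439.MC

open Complex Set Topology Filter Metric MeasureTheory N62a1eb23 Pool.Agent.H712R2
  Pool.Agent.H713R2 Pool.Agent.TH653.MB ProbabilityTheory BoundedContinuousFunction
open scoped RealInnerProductSpace

variable {d : ℕ} {β : ℂ → ℂ}

/-- the law of `x + i y` with independent standard normal `x`, `y` -/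
noncomputable def cg : Measure ℂ :=
  ((gaussianReal 0 1).prod (gaussianReal 0 1)).map (fun p : ℝ × ℝ => (p.1 : ℂ) + p.2 * I)

theorem cg_meas : Measurable (fun p : ℝ × ℝ => (p.1 : ℂ) + p.2 * I) := by fun_prop

instance : IsProbabilityMeasure cg := Measure.isProbabilityMeasure_map cg_meas.aemeasurable

theorem charFun_cg (t : ℂ) : charFun cg t = exp (((-(‖t‖ ^ 2 / 2) : ℝ) : ℂ)) := by
  rw [charFun_apply]
  unfold cg
  rw [integral_map cg_meas.aemeasurable (Measurable.aestronglyMeasurable (by fun_prop))]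
  have h1 : ∀ p : ℝ × ℝ, exp (⟪(p.1 : ℂ) + p.2 * I, t⟫ * I) =
      exp (t.re * p.1 * I) * exp (t.im * p.2 * I) := by
    intro p
    rw [← Complex.exp_add, Complex.inner]
    congr 1
    simp
    ring
  simp only [h1]
  rw [integral_prod_mul (fun x : ℝ => exp (t.re * x * I)) (fun x : ℝ => exp (t.im * x * I)),
    ← charFun_apply_real, ← charFun_apply_real, charFun_gaussianReal, charFun_gaussianReal,
    ← Complex.exp_add]
  congr 1
  rw [← Complex.normSq_eq_norm_sq, Complex.normSq_apply]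
  push_cast
  ring

theorem integral_cg (f : ℂ →ᵇ ℝ) (c : ℝ) : ∫ w, f (c • w) ∂cg =
    ∫ x, ∫ y, f ((c : ℂ) * ((x : ℂ) + y * I)) ∂(gaussianReal 0 1) ∂(gaussianReal 0 1) := by
  unfold cg
  rw [integral_map cg_meas.aemeasurable (Measurable.aestronglyMeasurable (by fun_prop))]
  have h1 : Continuous fun p : ℝ × ℝ => f (c • ((p.1 : ℂ) + p.2 * I)) :=
    f.continuous.comp (by fun_prop)
  have h2 : Integrable (fun p : ℝ × ℝ => f (c • ((p.1 : ℂ) + p.2 * I)))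
      ((gaussianReal 0 1).prod (gaussianReal 0 1)) := by
    apply Integrable.of_bound h1.aestronglyMeasurable ‖f‖
    exact Eventually.of_forall fun p => f.norm_coe_le_norm _
  rw [integral_prod _ h2]
  simp only [Complex.real_smul]

/-- existence of the logarithm -/
theorem exists_isL (hβ : IsBeta d β) : ∃ ℓ, IsL β ℓ := by
  obtain ⟨g, h1, h2, -⟩ := exists_log_ball one_pos (qq_diff hβ) (fun x hx => qq_ne hβ hx)
  refine ⟨fun x => g x - g 0, h1.sub_const _, ?_, sub_self _⟩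
  intro x hx
  rw [Complex.exp_sub, h2 x hx, h2 0 (mem_ball_self one_pos), qq_zero hβ, div_one]

/-- the limits of the characteristic functions, all together -/
theorem clt_char (hd : 2 ≤ d) (hβ : IsBeta d β) :
    ∃ s : ℝ → ℝ, Measurable s ∧ (∀ θ, 0 ≤ s θ) ∧ MemLp s 2 Pm ∧ 0 < ∫ θ, s θ ∂Pm ∧
      ∀ ℓ : ℂ → ℂ, IsL β ℓ → ∀ φ : ℝ → ℂ, Continuous φ → (∃ M, ∀ θ, ‖φ θ‖ ≤ M) → ∀ t : ℂ,
      Tendsto (fun ρ : ℝ => ∫ θ, φ θ * exp (⟪Zc ℓ ρ θ, t⟫ * I) ∂Pm) (𝓝[<] 1)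
        (𝓝 (∫ θ, φ θ * charFun cg (s θ • t) ∂Pm)) := by
  obtain ⟨F, hF⟩ := exists_isLog hd hβ
  obtain ⟨q, e, hqe⟩ := exists_oq hd
  obtain ⟨K, b, s, hb, hb0, hn, hs, hs0, hs2, hlim⟩ := exists_sigma hd hβ hF hqe
  have hk := kap_pos hd
  refine ⟨fun θ => kap d * s θ, hs.const_mul _, fun θ => mul_nonneg hk.le (hs0 θ), hs2.const_mul _, ?_, ?_⟩
  · rw [integral_const_mul]
    exact mul_pos hk (nondeg hd hβ hF hqe hb hb0 hn hs0 hs2 hlim)
  intro ℓ hℓ φ' hφ' hM' t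
  obtain ⟨M, hM⟩ := hM'
  have h1 := char_lim2 hd hβ hF hℓ hqe hb hn hs hs2 hlim hφ' hM t
  have e1 : ∀ θ, φ' θ * charFun cg ((kap d * s θ) • t) =
      φ' θ * exp (((-(‖t‖ ^ 2 * (kap d * s θ) ^ 2 / 2) : ℝ) : ℂ)) := by
    intro θ
    rw [charFun_cg, norm_smul, Real.norm_eq_abs, mul_pow, sq_abs]
    congr 4
    ring
  simp only [e1]
  refine h1.congr fun ρ => ?_
  congr 1
  funext θ
  congr 2
  rw [Complex.inner, mul_comm]
  congr 2
  rw [← Complex.conj_re, map_mul, Complex.conj_conj, mul_comm]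

/-- **the central limit theorem in the disc**, for all random variables asymptotically equal to the
normalised logarithm of the derivative -/
theorem clt_gen (hd : 2 ≤ d) (hβ : IsBeta d β) :
    ∃ s : ℝ → ℝ, Measurable s ∧ (∀ θ, 0 ≤ s θ) ∧ MemLp s 2 Pm ∧ 0 < ∫ θ, s θ ∂Pm ∧
      ∀ ℓ : ℂ → ℂ, IsL β ℓ → ∀ (ι : Type) (l : Filter ι) [l.IsCountablyGenerated] (ρ : ι → ℝ),
      Tendsto ρ l (𝓝[<] 1) → ∀ W : ι → ℝ → ℂ, (∀ᶠ i in l, AEMeasurable (W i) Pm) →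
      Tendsto (fun i => ∫ θ, min 1 ‖W i θ - Zc ℓ (ρ i) θ‖ ∂Pm) l (𝓝 0) →
      ∀ φ : ℝ → ℝ, Integrable φ Pm → ∀ f : ℂ →ᵇ ℝ,
      Tendsto (fun i => ∫ θ, φ θ * f (W i θ) ∂Pm) l
        (𝓝 (∫ θ, φ θ * ∫ w, f (s θ • w) ∂cg ∂Pm)) := by
  obtain ⟨s, hs, hs0, hs2, hpos, h⟩ := clt_char hd hβ
  refine ⟨s, hs, hs0, hs2, hpos, ?_⟩
  intro ℓ hℓ ι l _ ρ hρ W hW hc φ hφ f
  refine weak_pert (Z := fun i => Zc ℓ (ρ i)) ?_ hW hc hs ?_ f hφ
  · filter_upwards [hρ.eventually ev_range] with i hi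
    have h0 : 0 < ρ i := by linarith [hi.1]
    apply Continuous.aemeasurable
    unfold Zc
    exact continuous_const.mul (comp_cont hℓ.diff h0 hi.2.1)
  · intro φ' hφ' hM' t
    exact (h ℓ hℓ φ' hφ' hM' t).comp hρ

end Pool.Agent.H439.MC
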