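import Mathlib
import Pool.Graph.R_seed8.Y272.TY.All
import Pool.Agent.H439.MC.Fin

/-!
# Boundary values: the derivatives along the critical orbit
-/

set_option autoImplicit false

namespace Pool.Agent.H439.MC

open Complex Set Topology Filter Metric MeasureTheory N62a1eb23 Pool.Agent.H712R2
  Pool.Agent.H713R2 Pool.Agent.TH653.MB
open Pool.Agent.Y272.TY (Typ cc rl MM mm rl_pos rl_lt MM_ne_zero log_MM)
open Pool.Agent.W677.Mar (pt)

variable {d : ℕ} {β : ℂ → ℂ}

theorem deriv_cc (hβ : IsBeta d β) {x : ℂ} (hx : x ∈ ball (0 : ℂ) 1) (hx0 : x ≠ 0) :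
    deriv (cc β) x = -(x ^ 2)⁻¹ * qq β x := by
  have h1 : HasDerivAt β (deriv β x) x := (hβ.diff.differentiableAt (isOpen_ball.mem_nhds hx)).hasDerivAt
  have h2 := ((hasDerivAt_inv hx0).mul h1).deriv
  change deriv (cc β) x = _ at h2
  rw [h2]
  unfold qq
  field_simp
  ring

theorem log_deriv_cc (hβ : IsBeta d β) {ρ : ℝ} (h0 : 0 < ρ) (h1 : ρ < 1) (θ : ℝ) :
    Real.log ‖deriv (cc β) (pt ρ θ)‖ = Real.log ‖qq β (circleMap 0 ρ θ)‖ - 2 * Real.log ρ := by
  have hx := circleMap_mem h0 h1 θ
  have hx0 := circleMap_ne h0 θ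
  change Real.log ‖deriv (cc β) (circleMap 0 ρ θ)‖ = _
  rw [deriv_cc hβ hx hx0, norm_mul, norm_neg, norm_inv, norm_pow, norm_circleMap_zero, abs_of_pos h0,
    Real.log_mul (by positivity) (norm_ne_zero_iff.2 (qq_ne hβ hx)), Real.log_inv, Real.log_pow]
  push_cast
  ring

theorem rl_tendsto (hd : 2 ≤ d) : Tendsto (fun n => rl d n) atTop (𝓝[<] 1) := by
  apply tendsto_nhdsWithin_of_tendsto_nhds_of_eventually_within
  · have h1 : Tendsto (fun n : ℕ => (4 : ℝ) / (d : ℝ) ^ n) atTop (𝓝 0) :=
      tendsto_const_nhds.div_atTop (tendsto_pow_atTop_atTop_of_one_lt (by exact_mod_cast (by omega : 1 < d)))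
    have h2 : Tendsto (fun n : ℕ => Real.exp (-((4 : ℝ) / (d : ℝ) ^ n))) atTop (𝓝 (Real.exp (-0))) :=
      (Real.continuous_exp.tendsto _).comp h1.neg
    rw [neg_zero, Real.exp_zero] at h2
    exact h2
  · exact Eventually.of_forall fun n => rl_lt hd n

theorem four_div_le (hd : 2 ≤ d) (n : ℕ) : (4 : ℝ) / (d : ℝ) ^ n ≤ 4 := by
  rw [div_le_iff₀ (by positivity)]
  have : (1 : ℝ) ≤ (d : ℝ) ^ n := one_le_pow₀ (by exact_mod_cast (by omega : 1 ≤ d))
  linarith

/-- the logarithmic scale at the radii `rl d n` -/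
theorem Lr_rl (hd : 2 ≤ d) (n : ℕ) : |Lr (rl d n) - n * Real.log d| ≤ 6 := by
  have hd0 : (0 : ℝ) < d := by exact_mod_cast (by omega : 0 < d)
  set u : ℝ := 4 / (d : ℝ) ^ n with hu
  have hu0 : 0 < u := by positivity
  have hu4 : u ≤ 4 := four_div_le hd n
  have h1 : 1 / rl d n = Real.exp u := by
    unfold rl
    rw [one_div, ← Real.exp_neg, neg_neg]
  have h2 : Lr (rl d n) = -Real.log (Real.exp u - 1) := by
    unfold Lr
    rw [h1, one_div, Real.log_inv]
  have h3 : u ≤ Real.exp u - 1 := by linarith [Real.add_one_le_exp u]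
  have h4 : Real.exp u - 1 ≤ u * Real.exp u := by
    have h5 := Real.add_one_le_exp (-u)
    have h6 : Real.exp (-u) * Real.exp u = 1 := by rw [← Real.exp_add]; simp
    have h7 := Real.exp_pos u
    nlinarith
  have h5 := Real.log_le_log hu0 h3
  have h6 := Real.log_le_log (by linarith) h4
  rw [Real.log_mul hu0.ne' (Real.exp_pos u).ne', Real.log_exp] at h6
  have h7 : Real.log u = Real.log 4 - n * Real.log d := by
    rw [hu, Real.log_div (by norm_num) (by positivity), Real.log_pow]
  have h8 : Real.log 4 ≤ 2 := by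
    have h9 : Real.log 4 = 2 * Real.log 2 := by
      rw [show (4 : ℝ) = 2 ^ 2 by norm_num, Real.log_pow]; push_cast; ring
    have := Real.log_two_lt_d9
    rw [h9]; linarith
  have h9 : 0 ≤ Real.log 4 := Real.log_nonneg (by norm_num)
  rw [h2, abs_le]
  constructor
  · linarith
  · linarith

theorem sqrt_n_tendsto : Tendsto (fun n : ℕ => √(n : ℝ)) atTop atTop :=
  Real.tendsto_sqrt_atTop.comp tendsto_natCast_atTop_atTop

/-- **the derivative of the iterate at the critical value and the derivative of the exterior map** -/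
theorem typ_close (hd : 2 ≤ d) (hβ : IsBeta d β) {ℓ : ℂ → ℂ} (hℓ : IsL β ℓ) {θ : ℝ} {c0 : ℂ} {A : ℝ}
    {R : ℂ} (h : Typ d β θ c0 A R) :
    Tendsto (fun n : ℕ => (Real.log ‖MM d c0 (n + 1)‖ - n * Real.log d) / √n +
      √(Real.log d) * (Zc ℓ (rl d n) θ).re) atTop (𝓝 0) := by
  have hld := logd_pos hd
  have hsld : 0 < √(Real.log d) := Real.sqrt_pos.2 hld
  have hA := h.A0
  -- the real part of the logarithm
  have hre : ∀ n, (ℓ (circleMap 0 (rl d n) θ)).re =
      Real.log ‖deriv (cc β) (pt (rl d n) θ)‖ + 2 * Real.log (rl d n) := by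
    intro n
    rw [hℓ.re (circleMap_mem (rl_pos d n) (rl_lt hd n) θ), log_deriv_cc hβ (rl_pos d n) (rl_lt hd n)]
    ring
  have hrl : ∀ n, |2 * Real.log (rl d n)| ≤ 8 := by
    intro n
    rw [Pool.Agent.Y272.TY.log_rl, abs_le]
    have h1 := four_div_le hd n
    have h2 : (0 : ℝ) ≤ 4 / (d : ℝ) ^ n := by positivity
    constructor <;> linarith
  -- first part
  have l1 : Tendsto (fun n : ℕ => (A * Real.log (n + 2) ^ 2 + 8) / √n) atTop (𝓝 0) := by
    have g1 : Tendsto (fun n : ℕ => Real.log ((n : ℝ) + 2) ^ 2 / √(n : ℝ)) atTop (𝓝 0) := by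
      have g2 : Tendsto (fun x : ℝ => Real.log x ^ 2 / √x) atTop (𝓝 0) := by
        have := (Real.isLittleO_pow_log_id_atTop (n := 4)).tendsto_div_nhds_zero
        have g3 := this.sqrt
        rw [Real.sqrt_zero] at g3
        refine g3.congr' ?_
        filter_upwards [eventually_ge_atTop 1] with x hx
        rw [Real.sqrt_div (by positivity)]
        congr 1
        rw [show Real.log x ^ 4 = (Real.log x ^ 2) ^ 2 by ring, Real.sqrt_sq (by positivity)]
      have g3 : Tendsto (fun n : ℕ => ((n : ℝ) + 2)) atTop atTop :=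
        tendsto_atTop_add_const_right _ _ tendsto_natCast_atTop_atTop
      have g4 := (g2.comp g3).mul_const 2
      rw [zero_mul] at g4
      apply squeeze_zero' _ _ g4
      · exact Eventually.of_forall fun n => by positivity
      · filter_upwards [eventually_ge_atTop 1] with n hn
        have hn1 : (1 : ℝ) ≤ n := by exact_mod_cast hn
        simp only [Function.comp_apply]
        have g5 : √((n : ℝ) + 2) ≤ 2 * √n := by
          rw [show (2 : ℝ) * √n = √(4 * n) by
            rw [Real.sqrt_mul (by norm_num)]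
            congr 1
            rw [show (4 : ℝ) = 2 ^ 2 by norm_num, Real.sqrt_sq (by norm_num)]]
          exact Real.sqrt_le_sqrt (by linarith)
        have g6 : 0 < √(n : ℝ) := Real.sqrt_pos.2 (by linarith)
        have g7 : 0 < √((n : ℝ) + 2) := Real.sqrt_pos.2 (by linarith)
        rw [div_mul_eq_mul_div, div_le_div_iff₀ g6 g7]
        nlinarith [sq_nonneg (Real.log ((n : ℝ) + 2))]
    have g2 : Tendsto (fun n : ℕ => (8 : ℝ) / √(n : ℝ)) atTop (𝓝 0) :=
      tendsto_const_nhds.div_atTop sqrt_n_tendsto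
    have g3 := (g1.const_mul A).add g2
    rw [mul_zero, add_zero] at g3
    refine g3.congr fun n => ?_
    ring
  have l2 : Tendsto (fun n : ℕ => (12 / √(Real.log d)) / √(Lr (rl d n))) atTop (𝓝 0) :=
    tendsto_const_nhds.div_atTop (Real.tendsto_sqrt_atTop.comp (Lr_tendsto.comp (rl_tendsto hd)))
  have l3 := l1.add l2
  rw [add_zero] at l3
  apply squeeze_zero_norm' _ l3
  have hlil := h.lil
  have hsmall : ∀ᶠ n : ℕ in atTop, 30 * √(n * Real.log d * Real.log (Real.log n)) + 8 ≤ 2 * (n : ℝ) := by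
    have g1 : Tendsto (fun x : ℝ => Real.log (Real.log x) / x) atTop (𝓝 0) := by
      have g2 := Real.isLittleO_log_id_atTop.tendsto_div_nhds_zero
      have g3 := g2.comp Real.tendsto_log_atTop
      have g4 := g3.mul g2
      rw [zero_mul] at g4
      refine g4.congr' ?_
      filter_upwards [eventually_gt_atTop 1] with x hx
      have : 0 < Real.log x := Real.log_pos hx
      simp only [Function.comp_apply, id]
      field_simp
    have g2 := (g1.comp (tendsto_natCast_atTop_atTop (R := ℝ))).eventually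
      (gt_mem_nhds (by positivity : (0 : ℝ) < 1 / (900 * Real.log d)))
    filter_upwards [g2, eventually_ge_atTop 8] with n g3 g4
    have hn8 : (8 : ℝ) ≤ n := by exact_mod_cast g4
    simp only [Function.comp_apply] at g3
    rw [div_lt_div_iff₀ (by linarith) (by positivity)] at g3
    have g5 : √(n * Real.log d * Real.log (Real.log n)) ≤ n / 30 := by
      apply Real.sqrt_le_iff.2
      constructor
      · positivity
      · nlinarith
    linarith
  filter_upwards [hlil, hsmall, (Lr_tendsto.comp (rl_tendsto hd)).eventually_gt_atTop 0,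
    eventually_ge_atTop 1] with n h1 h2 h3 h4
  simp only [Function.comp_apply] at h3
  have hn0 : (0 : ℝ) < n := by exact_mod_cast h4
  have hsn : 0 < √(n : ℝ) := Real.sqrt_pos.2 hn0
  set b := √(Lr (rl d n)) with hb
  have hb0 : 0 < b := Real.sqrt_pos.2 h3
  have hb2 : b ^ 2 = Lr (rl d n) := Real.sq_sqrt h3.le
  set r := (ℓ (circleMap 0 (rl d n) θ)).re with hr
  have hZ : (Zc ℓ (rl d n) θ).re = r / b := by
    unfold Zc
    rw [Complex.re_ofReal_mul]
    ring
  have hrabs : |r| ≤ 2 * n := by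
    rw [hr, hre]
    refine (abs_add_le _ _).trans ?_
    linarith [hrl n]
  have k1 : |(Real.log ‖MM d c0 (n + 1)‖ - n * Real.log d) + r| ≤ A * Real.log (n + 2) ^ 2 + 8 := by
    have g1 := h.simi n
    have g2 := hrl n
    rw [hr, hre]
    rw [abs_le] at g1 g2 ⊢
    constructor <;> linarith [g1.1, g1.2, g2.1, g2.2]
  have hs2 : √(n : ℝ) ^ 2 = n := Real.sq_sqrt hn0.le
  have hsl2 : √(Real.log d) ^ 2 = Real.log d := Real.sq_sqrt hld.le
  have k2 : |√(Real.log d) / b - 1 / √n| ≤ 6 / (b * √n * (√(Real.log d) * √n)) := by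
    have g1 : √(Real.log d) / b - 1 / √n = (√(Real.log d) * √n - b) / (b * √n) := by
      field_simp
    rw [g1, abs_div, abs_of_pos (by positivity : 0 < b * √(n : ℝ)), div_le_div_iff₀ (by positivity) (by positivity)]
    have g2 : |√(Real.log d) * √n - b| * (√(Real.log d) * √n) ≤ 6 := by
      have g3 : |√(Real.log d) * √n - b| * (√(Real.log d) * √n + b) = |n * Real.log d - Lr (rl d n)| := by
        rw [← abs_of_pos (by positivity : 0 < √(Real.log d) * √(n : ℝ) + b), ← abs_mul]
        congr 1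
        have : (√(Real.log d) * √n - b) * (√(Real.log d) * √n + b) =
            √(Real.log d) ^ 2 * √(n : ℝ) ^ 2 - b ^ 2 := by ring
        rw [this, hs2, hsl2, hb2]
        ring
      have g4 := Lr_rl hd n
      rw [abs_sub_comm] at g4
      rw [← g3] at g4
      have g5 : |√(Real.log d) * √n - b| * (√(Real.log d) * √n) ≤
          |√(Real.log d) * √n - b| * (√(Real.log d) * √n + b) :=
        mul_le_mul_of_nonneg_left (by linarith) (abs_nonneg _)
      linarith
    have g3 : 0 < b * √(n : ℝ) := by positivity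
    nlinarith
  have k3 : (Real.log ‖MM d c0 (n + 1)‖ - n * Real.log d) / √n + √(Real.log d) * (Zc ℓ (rl d n) θ).re =
      ((Real.log ‖MM d c0 (n + 1)‖ - n * Real.log d) + r) / √n + r * (√(Real.log d) / b - 1 / √n) := by
    rw [hZ]
    field_simp
    ring
  rw [Real.norm_eq_abs, k3]
  refine (abs_add_le _ _).trans (add_le_add ?_ ?_)
  · rw [abs_div, abs_of_pos hsn]
    exact div_le_div_of_nonneg_right k1 hsn.le
  · rw [abs_mul]
    calc |r| * |√(Real.log d) / b - 1 / √n| ≤ (2 * n) * (6 / (b * √n * (√(Real.log d) * √n))) :=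
          mul_le_mul hrabs k2 (abs_nonneg _) (by positivity)
      _ = (2 * √(n : ℝ) ^ 2) * (6 / (b * √n * (√(Real.log d) * √n))) := by rw [hs2]
      _ = (12 / √(Real.log d)) / b := by field_simp; ring

end Pool.Agent.H439.MC
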