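import Mathlib
import Pool.Agent.H439.MC.BdyA
import Pool.Agent.H439.MC.Close

/-!
# Boundary values: mean squares of the sums along the critical orbit
-/

set_option autoImplicit false

namespace Pool.Agent.H439.MC

open Complex Set Topology Filter Metric MeasureTheory N62a1eb23 Pool.Agent.H712R2
  Pool.Agent.H713R2 Pool.Agent.TH653.MB
open Pool.Agent.Y272.TY (Typ cc rl MM mm rl_pos rl_lt MM_ne_zero log_MM)
open Pool.Agent.W677.Mar (pt)

variable {d : ℕ} {β : ℂ → ℂ}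

/-- `c θ` is a typical parameter at almost every angle -/
def AETyp (d : ℕ) (β : ℂ → ℂ) (c : ℝ → ℂ) : Prop := ∀ᵐ θ ∂Pm, ∃ (A : ℝ) (R : ℂ), Typ d β θ (c θ) A R

theorem Pm_ac : Pm ≪ (volume : Measure ℝ) := by
  unfold Pm
  exact (Measure.absolutelyContinuous_of_le Measure.restrict_le_self).smul_left _

theorem aetyp_of_land (hd : 2 ≤ d) (hβ : IsBeta d β) {c : ℝ → ℂ}
    (hc : ∀ᵐ θ ∂Pm, Tendsto (fun ρ : ℝ => cc β (pt ρ θ)) (𝓝[<] 1) (𝓝 (c θ))) : AETyp d β c := by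
  filter_upwards [Pm_ac.ae_le (Pool.Agent.Y272.TY.typical_all hd hβ), hc] with θ h1 h2
  obtain ⟨c0, A, R, h⟩ := h1
  have h3 : c0 = c θ := tendsto_nhds_unique h.land h2
  exact ⟨A, R, h3 ▸ h⟩

theorem rk_tendsto : Tendsto (fun k : ℕ => 1 - 1 / ((k : ℝ) + 2)) atTop (𝓝[<] 1) := by
  apply tendsto_nhdsWithin_of_tendsto_nhds_of_eventually_within
  · have h1 : Tendsto (fun k : ℕ => 1 / ((k : ℝ) + 2)) atTop (𝓝 0) :=
      tendsto_const_nhds.div_atTop (tendsto_atTop_add_const_right _ _ tendsto_natCast_atTop_atTop)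
    have h2 := h1.const_sub 1
    rwa [sub_zero] at h2
  · refine Eventually.of_forall fun k => ?_
    rw [mem_Iio, sub_lt_self_iff]
    positivity

theorem rk_mem (k : ℕ) : 0 < 1 - 1 / ((k : ℝ) + 2) ∧ 1 - 1 / ((k : ℝ) + 2) < 1 := by
  have h1 : (0 : ℝ) ≤ k := Nat.cast_nonneg k
  constructor
  · rw [sub_pos, div_lt_one (by linarith)]
    linarith
  · rw [sub_lt_self_iff]
    positivity

theorem cc_cont (hβ : IsBeta d β) {ρ : ℝ} (h0 : 0 < ρ) (h1 : ρ < 1) : Continuous fun θ => cc β (pt ρ θ) := by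
  have h2 : Continuous fun θ => β (circleMap 0 ρ θ) := comp_cont hβ.diff h0 h1
  have h3 : Continuous fun θ => (circleMap 0 ρ θ)⁻¹ :=
    (continuous_circleMap 0 ρ).inv₀ (fun θ => circleMap_ne h0 θ)
  exact h3.mul h2

theorem c_meas (hβ : IsBeta d β) {c : ℝ → ℂ} (hc : AETyp d β c) : AEMeasurable c Pm := by
  apply aemeasurable_of_tendsto_metrizable_ae atTop (f := fun (k : ℕ) θ => cc β (pt (1 - 1 / ((k : ℝ) + 2)) θ))
  · intro k
    exact (cc_cont hβ (rk_mem k).1 (rk_mem k).2).aemeasurable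
  · filter_upwards [hc] with θ hθ
    obtain ⟨A, R, h⟩ := hθ
    exact h.land.comp rk_tendsto

/-- boundary values of the logarithms -/
theorem F_lim (hd : 2 ≤ d) (hβ : IsBeta d β) {F : ℕ → ℂ → ℂ} (hF : IsLog d β F) {θ : ℝ} {c0 : ℂ} {A : ℝ}
    {R : ℂ} (h : Typ d β θ c0 A R) (i : ℕ) :
    Tendsto (fun ρ : ℝ => (F i (circleMap 0 ρ θ)).re) (𝓝[<] 1) (𝓝 (Real.log ‖P d (i + 1) c0‖)) := by
  have h1 : Tendsto (fun ρ : ℝ => P d (i + 1) (cc β (pt ρ θ))) (𝓝[<] 1) (𝓝 (P d (i + 1) c0)) :=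
    ((differentiable_P d (i + 1)).continuous.tendsto c0).comp h.land
  have h2 : Tendsto (fun ρ : ℝ => Real.log ‖P d (i + 1) (cc β (pt ρ θ))‖) (𝓝[<] 1)
      (𝓝 (Real.log ‖P d (i + 1) c0‖)) :=
    (Real.continuousAt_log (norm_ne_zero_iff.2 (h.P_ne i))).tendsto.comp h1.norm
  have h3 : Tendsto (fun ρ : ℝ => (d : ℝ) ^ i * Real.log ρ) (𝓝[<] 1) (𝓝 ((d : ℝ) ^ i * Real.log 1)) :=
    ((Real.continuousAt_log one_ne_zero).tendsto.mono_left nhdsWithin_le_nhds).const_mul _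
  rw [Real.log_one, mul_zero] at h3
  have h4 := h3.add h2
  rw [zero_add] at h4
  refine h4.congr' ?_
  have h5 : ∀ᶠ ρ : ℝ in 𝓝[<] 1, 0 < ρ :=
    mem_nhdsWithin_of_mem_nhds (lt_mem_nhds (by norm_num : (0 : ℝ) < 1))
  filter_upwards [self_mem_nhdsWithin, h5] with ρ h6 h7
  have h8 : ρ < 1 := h6
  have hx := circleMap_mem h7 h8 θ
  have hx0 := circleMap_ne h7 θ
  have h9 := norm_P_eq (β := β) hd i hx0
  have hB : BB d β i (circleMap 0 ρ θ) ≠ 0 := BB_ne hd hβ i hx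
  have hP : P d (i + 1) ((circleMap 0 ρ θ)⁻¹ * β (circleMap 0 ρ θ)) ≠ 0 := by
    intro h0
    rw [h0, norm_zero, mul_zero] at h9
    exact norm_ne_zero_iff.2 hB h9
  have h10 : (F i (circleMap 0 ρ θ)).re = Real.log ‖BB d β i (circleMap 0 ρ θ)‖ := by
    rw [← hF.exp i _ hx, Complex.norm_exp, Real.log_exp]
  rw [h10, h9, norm_circleMap_zero, abs_of_pos h7, Real.log_mul (by positivity) (norm_ne_zero_iff.2 hP),
    Real.log_pow]
  push_cast
  rfl

/-- **mean squares on the boundary** -/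
theorem T_sq (hd : 2 ≤ d) (hβ : IsBeta d β) : ∃ C : ℝ, 0 < C ∧ ∀ c : ℝ → ℂ, AETyp d β c →
    ∀ I : Finset ℕ, Integrable (fun θ => (∑ i ∈ I, Real.log ‖P d (i + 1) (c θ)‖) ^ 2) Pm ∧
      ∫ θ, (∑ i ∈ I, Real.log ‖P d (i + 1) (c θ)‖) ^ 2 ∂Pm ≤ C * I.card := by
  obtain ⟨F, hF⟩ := exists_isLog hd hβ
  obtain ⟨C, hC, h⟩ := en_sum hd hβ hF
  refine ⟨C, hC, ?_⟩
  intro c hc I
  set r : ℕ → ℝ := fun k => 1 - 1 / ((k : ℝ) + 2) with hr
  set f : ℕ → ℝ → ℝ := fun k θ => (∑ i ∈ I, (F i (circleMap 0 (r k) θ)).re) ^ 2 with hf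
  set g : ℝ → ℝ := fun θ => (∑ i ∈ I, Real.log ‖P d (i + 1) (c θ)‖) ^ 2 with hg
  have hfc : ∀ k, Continuous (f k) := by
    intro k
    simp only [hf]
    apply Continuous.pow
    apply continuous_finsetSum
    intro i _
    exact continuous_re.comp (comp_cont (hF.diff i) (rk_mem k).1 (rk_mem k).2)
  have hlim : ∀ᵐ θ ∂Pm, Tendsto (fun k => f k θ) atTop (𝓝 (g θ)) := by
    filter_upwards [hc] with θ hθ
    obtain ⟨A, R, hT⟩ := hθ
    simp only [hf, hg]
    apply Tendsto.pow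
    apply tendsto_finsetSum
    intro i _
    exact (F_lim hd hβ hF hT i).comp rk_tendsto
  have hfi : ∀ k, ∫ θ, f k θ ∂Pm ≤ C * I.card := by
    intro k
    have h1 := h I (r k) (rk_mem k).1 (rk_mem k).2
    rw [circleAverage_eq_Pm] at h1
    refine le_trans ?_ h1
    have hFc : Continuous fun θ => ∑ i ∈ I, F i (circleMap 0 (r k) θ) := by
      apply continuous_finsetSum
      intro i _
      exact comp_cont (hF.diff i) (rk_mem k).1 (rk_mem k).2
    have i1 : Integrable (f k) Pm := Continuous.integrable_Pm (hfc k)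
    have i2 : Integrable (fun θ => ‖∑ i ∈ I, F i (circleMap 0 (r k) θ)‖ ^ 2) Pm :=
      Continuous.integrable_Pm (hFc.norm.pow 2)
    apply integral_mono i1 i2
    intro θ
    change (∑ i ∈ I, (F i (circleMap 0 (r k) θ)).re) ^ 2 ≤ ‖∑ i ∈ I, F i (circleMap 0 (r k) θ)‖ ^ 2
    rw [← re_sum, ← sq_abs]
    exact pow_le_pow_left₀ (abs_nonneg _) (abs_re_le_norm _) 2
  have hgm : AEStronglyMeasurable g Pm :=
    aestronglyMeasurable_of_tendsto_ae atTop (fun k => (hfc k).aestronglyMeasurable) hlim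
  have hg0 : ∀ θ, 0 ≤ g θ := fun θ => sq_nonneg _
  have key : ∫⁻ θ, ENNReal.ofReal (g θ) ∂Pm ≤ ENNReal.ofReal (C * I.card) := by
    have h1 : ∫⁻ θ, ENNReal.ofReal (g θ) ∂Pm = ∫⁻ θ, liminf (fun k => ENNReal.ofReal (f k θ)) atTop ∂Pm := by
      apply lintegral_congr_ae
      filter_upwards [hlim] with θ hθ
      exact ((ENNReal.continuous_ofReal.tendsto _).comp hθ).liminf_eq.symm
    rw [h1]
    refine (lintegral_liminf_le fun k => (hfc k).measurable.ennreal_ofReal).trans ?_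
    have h2 : ∀ k, ∫⁻ θ, ENNReal.ofReal (f k θ) ∂Pm ≤ ENNReal.ofReal (C * I.card) := by
      intro k
      rw [← ofReal_integral_eq_lintegral_ofReal (Continuous.integrable_Pm (hfc k))
        (Eventually.of_forall fun θ => sq_nonneg _)]
      exact ENNReal.ofReal_le_ofReal (hfi k)
    exact liminf_le_of_frequently_le' (Eventually.of_forall h2).frequently
  have hgi : Integrable g Pm := by
    refine ⟨hgm, ?_⟩
    rw [hasFiniteIntegral_iff_ofReal (Eventually.of_forall hg0)]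
    exact key.trans_lt ENNReal.ofReal_lt_top
  refine ⟨hgi, ?_⟩
  rw [← ofReal_integral_eq_lintegral_ofReal hgi (Eventually.of_forall hg0)] at key
  exact (ENNReal.ofReal_le_ofReal_iff (by positivity)).1 key

end Pool.Agent.H439.MC
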