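import Mathlib
import Pool.Agent.H439.MC.BdyB

/-!
# The largest derivative along the critical orbit
-/

set_option autoImplicit false

namespace Pool.Agent.H439.MC

open Complex Set Topology Filter Metric MeasureTheory N62a1eb23 Pool.Agent.H712R2
  Pool.Agent.H713R2 Pool.Agent.TH653.MB
open Pool.Agent.Y272.TY (Typ cc rl MM mm rl_pos rl_lt MM_ne_zero log_MM)
open Pool.Agent.W677.Mar (pt)

variable {d : ℕ} {β : ℂ → ℂ}

/-- the largest increment -/
noncomputable def Cd (d : ℕ) : ℝ := Real.log d + ((d : ℝ) - 1) * Real.log 2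

theorem Cd_pos (hd : 2 ≤ d) : 0 < Cd d := by
  have h1 := logd_pos hd
  have h2 : (0 : ℝ) < (d : ℝ) - 1 := by
    have : (2 : ℝ) ≤ d := by exact_mod_cast hd
    linarith
  have h3 := Real.log_pos (by norm_num : (1 : ℝ) < 2)
  unfold Cd
  positivity

theorem D_sub (hd : 2 ≤ d) {c0 : ℂ} (hP : ∀ i, P d (i + 1) c0 ≠ 0) {m n : ℕ} (hmn : m ≤ n) :
    Real.log ‖MM d c0 (n + 1)‖ - Real.log ‖MM d c0 (m + 1)‖ =
      (n - m : ℕ) * Real.log d + ((d : ℝ) - 1) * ∑ i ∈ Finset.Ico m n, Real.log ‖P d (i + 1) c0‖ := by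
  rw [log_MM hd c0 n (fun j _ => hP j), log_MM hd c0 m (fun j _ => hP j), Finset.sum_Ico_eq_sub _ hmn,
    Nat.cast_sub hmn]
  ring

theorem D_step (hd : 2 ≤ d) {c0 : ℂ} (hP : ∀ i, P d (i + 1) c0 ≠ 0) (h2 : ∀ k, ‖P d k c0‖ ≤ 2)
    {m n : ℕ} (hmn : m ≤ n) :
    Real.log ‖MM d c0 (n + 1)‖ ≤ Real.log ‖MM d c0 (m + 1)‖ + (n - m : ℕ) * Cd d := by
  have h1 := D_sub hd hP hmn
  have h3 : ∑ i ∈ Finset.Ico m n, Real.log ‖P d (i + 1) c0‖ ≤ (n - m : ℕ) * Real.log 2 := by
    refine (Finset.sum_le_card_nsmul _ _ (Real.log 2) ?_).trans (le_of_eq ?_)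
    · intro i _
      exact Real.log_le_log (norm_pos_iff.2 (hP i)) (h2 _)
    · rw [Nat.card_Ico, nsmul_eq_mul]
  have h4 : (0 : ℝ) ≤ (d : ℝ) - 1 := by
    have : (2 : ℝ) ≤ d := by exact_mod_cast hd
    linarith
  have h5 := mul_le_mul_of_nonneg_left h3 h4
  unfold Cd
  nlinarith

/-- the relative deviations at the points of the grid -/
noncomputable def dev (d n h k : ℕ) (c0 : ℂ) : ℝ :=
  (((d : ℝ) - 1) * ∑ i ∈ Finset.Ico (n - min (k * h) n) n, Real.log ‖P d (i + 1) c0‖) /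
    ((min (k * h) n : ℕ) * Real.log d)

theorem grid (hd : 2 ≤ d) {c0 : ℂ} (hP : ∀ i, P d (i + 1) c0 ≠ 0) (h2 : ∀ k, ‖P d k c0‖ ≤ 2)
    {n h : ℕ} (hh : 1 ≤ h) (hg : ∑ k ∈ Finset.Icc 1 (n / h + 1), dev d n h k c0 ^ 2 ≤ 1) {m : ℕ} (hm : m < n) :
    Real.log ‖MM d c0 (m + 1)‖ ≤ Real.log ‖MM d c0 (n + 1)‖ + h * Cd d := by
  set j := n - m with hj
  set k := (j - 1) / h + 1 with hk
  have hk1 : 1 ≤ k := Nat.le_add_left 1 _
  have hk2 : k ≤ n / h + 1 := by
    rw [hk]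
    have : (j - 1) / h ≤ n / h := Nat.div_le_div_right (by omega)
    omega
  have e1 : (k - 1) * h ≤ j - 1 := by
    rw [hk, Nat.add_sub_cancel]
    exact Nat.div_mul_le_self _ _
  have e2 : j - 1 < k * h := by
    rw [hk]
    have := Nat.lt_div_mul_add (a := j - 1) (b := h) (by omega)
    rw [add_mul, one_mul]
    exact this
  set g := min (k * h) n with hgd
  have e3 : j ≤ g := le_min (by omega) (by omega)
  have e4 : g ≤ j + h := by
    have : k * h = (k - 1) * h + h := by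
      obtain ⟨a, ha⟩ : ∃ a, k = a + 1 := ⟨k - 1, by omega⟩
      rw [ha, Nat.add_sub_cancel, add_mul, one_mul]
    have h5 : g ≤ k * h := min_le_left _ _
    omega
  have e5 : g ≤ n := min_le_right _ _
  have hm' : n - g ≤ m := by omega
  have k1 := D_step hd hP h2 hm'
  have k2 := D_sub hd hP (Nat.sub_le n g)
  have hdev : dev d n h k c0 ^ 2 ≤ 1 := by
    refine le_trans ?_ hg
    exact Finset.single_le_sum (f := fun k => dev d n h k c0 ^ 2) (fun i _ => sq_nonneg _)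
      (Finset.mem_Icc.2 ⟨hk1, hk2⟩)
  have hg0 : (0 : ℝ) < (g : ℕ) := by exact_mod_cast (by omega : 0 < g)
  have hld := logd_pos hd
  have k3 : |((d : ℝ) - 1) * ∑ i ∈ Finset.Ico (n - g) n, Real.log ‖P d (i + 1) c0‖| ≤ g * Real.log d := by
    have h5 : |dev d n h k c0| ≤ 1 := (sq_le_one_iff_abs_le_one _).1 hdev
    unfold dev at h5
    rw [← hgd, abs_div, abs_of_pos (by positivity : 0 < (g : ℝ) * Real.log d), div_le_one (by positivity)] at h5
    exact h5
  have k4 := (abs_le.1 k3).1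
  rw [Nat.sub_sub_self e5] at k2
  have k5 : ((m - (n - g) : ℕ) : ℝ) ≤ h := by exact_mod_cast (by omega : m - (n - g) ≤ h)
  have k6 := mul_le_mul_of_nonneg_right k5 (Cd_pos hd).le
  linarith

/-- the mean of the sum of the squares of the relative deviations -/
theorem dev_mean (hd : 2 ≤ d) (hβ : IsBeta d β) : ∃ C : ℝ, 0 < C ∧ ∀ c : ℝ → ℂ, AETyp d β c →
    ∀ n h : ℕ, 1 ≤ n → 1 ≤ h →
    Integrable (fun θ => ∑ k ∈ Finset.Icc 1 (n / h + 1), dev d n h k (c θ) ^ 2) Pm ∧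
    ∫ θ, ∑ k ∈ Finset.Icc 1 (n / h + 1), dev d n h k (c θ) ^ 2 ∂Pm ≤
      C * ((2 + Real.log (n + 1)) / h + 1 / n) := by
  obtain ⟨C, hC, hT⟩ := T_sq hd hβ
  have hld := logd_pos hd
  have hd1 : (0 : ℝ) < (d : ℝ) - 1 := by
    have : (2 : ℝ) ≤ d := by exact_mod_cast hd
    linarith
  refine ⟨((d : ℝ) - 1) ^ 2 * C / Real.log d ^ 2, by positivity, ?_⟩
  intro c hc n h hn hh
  have hn0 : (0 : ℝ) < n := by exact_mod_cast hn
  have hh0 : (0 : ℝ) < h := by exact_mod_cast hh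
  have hterm : ∀ k, Integrable (fun θ => dev d n h k (c θ) ^ 2) Pm := by
    intro k
    have e1 : (fun θ => dev d n h k (c θ) ^ 2) = fun θ =>
        (((d : ℝ) - 1) ^ 2 / ((min (k * h) n : ℕ) * Real.log d) ^ 2) *
          (∑ i ∈ Finset.Ico (n - min (k * h) n) n, Real.log ‖P d (i + 1) (c θ)‖) ^ 2 := by
      funext θ
      unfold dev
      rw [div_pow, mul_pow]
      ring
    rw [e1]
    exact (hT c hc _).1.const_mul _
  refine ⟨integrable_finsetSum _ fun k _ => hterm k, ?_⟩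
  rw [integral_finsetSum _ fun k _ => hterm k]
  have hk : ∀ k ∈ Finset.Icc 1 (n / h + 1), ∫ θ, dev d n h k (c θ) ^ 2 ∂Pm ≤
      ((d : ℝ) - 1) ^ 2 * C / Real.log d ^ 2 * (1 / h * (1 / k) + 1 / n) := by
    intro k hk
    rw [Finset.mem_Icc] at hk
    have hk0 : (0 : ℝ) < k := by exact_mod_cast hk.1
    set g := min (k * h) n with hg
    have hg1 : 1 ≤ g := le_min (Nat.mul_pos hk.1 hh) hn
    have hg0 : (0 : ℝ) < g := by exact_mod_cast hg1
    have e1 : (fun θ => dev d n h k (c θ) ^ 2) = fun θ =>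
        (((d : ℝ) - 1) ^ 2 / (g * Real.log d) ^ 2) *
          (∑ i ∈ Finset.Ico (n - g) n, Real.log ‖P d (i + 1) (c θ)‖) ^ 2 := by
      funext θ
      unfold dev
      rw [div_pow, mul_pow, ← hg]
      ring
    rw [e1, integral_const_mul]
    have e2 := (hT c hc (Finset.Ico (n - g) n)).2
    rw [Nat.card_Ico, Nat.sub_sub_self (min_le_right _ _)] at e2
    have e3 : 1 / (g : ℝ) ≤ 1 / h * (1 / k) + 1 / n := by
      rcases le_total (k * h) n with h1 | h1
      · have : g = k * h := min_eq_left h1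
        rw [this]
        push_cast
        have h2 : 1 / ((k : ℝ) * h) = 1 / h * (1 / k) := by field_simp
        rw [h2]
        have : 0 < 1 / (n : ℝ) := by positivity
        linarith
      · have : g = n := min_eq_right h1
        rw [this]
        have : 0 < 1 / (h : ℝ) * (1 / k) := by positivity
        linarith
    calc ((d : ℝ) - 1) ^ 2 / (g * Real.log d) ^ 2 *
          ∫ θ, (∑ i ∈ Finset.Ico (n - g) n, Real.log ‖P d (i + 1) (c θ)‖) ^ 2 ∂Pm
        ≤ ((d : ℝ) - 1) ^ 2 / (g * Real.log d) ^ 2 * (C * g) :=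
          mul_le_mul_of_nonneg_left e2 (by positivity)
      _ = ((d : ℝ) - 1) ^ 2 * C / Real.log d ^ 2 * (1 / g) := by field_simp
      _ ≤ _ := mul_le_mul_of_nonneg_left e3 (by positivity)
  refine (Finset.sum_le_sum hk).trans ?_
  rw [← Finset.mul_sum]
  apply mul_le_mul_of_nonneg_left _ (by positivity)
  rw [Finset.sum_add_distrib, ← Finset.mul_sum, Finset.sum_const, Nat.card_Icc, Nat.add_sub_cancel, nsmul_eq_mul]
  have s1 := sum_inv_le (n / h + 1) (Nat.le_add_left 1 _)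
  have s2 : ((n / h : ℕ) : ℝ) ≤ n / h := Nat.cast_div_le
  have s3 : (n : ℝ) / h ≤ n := div_le_self hn0.le (by exact_mod_cast hh)
  have s4 : Real.log ((n / h + 1 : ℕ) : ℝ) ≤ Real.log (n + 1) := by
    apply Real.log_le_log (by positivity)
    push_cast
    linarith
  have s5 : 1 / (h : ℝ) * ∑ k ∈ Finset.Icc 1 (n / h + 1), (1 : ℝ) / k ≤ 1 / h * (1 + Real.log (n + 1)) :=
    mul_le_mul_of_nonneg_left (s1.trans (by linarith)) (by positivity)
  have s6 : ((n / h + 1 : ℕ) : ℝ) * (1 / n) ≤ 1 / h + 1 / n := by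
    push_cast
    have : ((n / h : ℕ) : ℝ) * (1 / n) ≤ n / h * (1 / n) := mul_le_mul_of_nonneg_right s2 (by positivity)
    have e : (n : ℝ) / h * (1 / n) = 1 / h := by field_simp
    linarith
  have s7 : (2 + Real.log (n + 1)) / h = 1 / (h : ℝ) * (1 + Real.log (n + 1)) + 1 / h := by ring
  rw [s7]
  linarith

theorem bad_small {ε : ℝ} (hε : 0 < ε) :
    Tendsto (fun n : ℕ => (2 + Real.log ((n : ℝ) + 1)) / (⌊ε * √n⌋₊ : ℕ) + 1 / (n : ℝ)) atTop (𝓝 0) := by
  have h1 : Tendsto (fun n : ℕ => (2 + Real.log ((n : ℝ) + 1)) / √(n : ℝ)) atTop (𝓝 0) := by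
    have g1 : Tendsto (fun x : ℝ => Real.log x / √x) atTop (𝓝 0) := by
      have := (isLittleO_log_rpow_atTop (by norm_num : (0 : ℝ) < 1 / 2)).tendsto_div_nhds_zero
      simpa [Real.sqrt_eq_rpow] using this
    have g2 : Tendsto (fun n : ℕ => (2 + Real.log 2) / √(n : ℝ)) atTop (𝓝 0) :=
      tendsto_const_nhds.div_atTop sqrt_n_tendsto
    have g3 := g2.add (g1.comp (tendsto_natCast_atTop_atTop (R := ℝ)))
    rw [add_zero] at g3
    apply squeeze_zero' _ _ g3
    · filter_upwards [eventually_ge_atTop 1] with n hn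
      have : 0 ≤ Real.log ((n : ℝ) + 1) := Real.log_nonneg (by linarith [(Nat.cast_nonneg n : (0 : ℝ) ≤ n)])
      positivity
    · filter_upwards [eventually_ge_atTop 1] with n hn
      have hn1 : (1 : ℝ) ≤ n := by exact_mod_cast hn
      simp only [Function.comp_apply]
      rw [← add_div]
      apply div_le_div_of_nonneg_right _ (Real.sqrt_nonneg _)
      have : Real.log ((n : ℝ) + 1) ≤ Real.log 2 + Real.log n := by
        rw [← Real.log_mul (by norm_num) (by linarith)]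
        apply Real.log_le_log (by linarith)
        linarith
      linarith
  have h2 : Tendsto (fun n : ℕ => 1 / (n : ℝ)) atTop (𝓝 0) := tendsto_one_div_atTop_nhds_zero_nat
  have h3 := (h1.const_mul (2 / ε)).add h2
  rw [mul_zero, add_zero] at h3
  apply squeeze_zero' _ _ h3
  · refine Eventually.of_forall fun n => ?_
    have : 0 ≤ Real.log ((n : ℝ) + 1) := Real.log_nonneg (by linarith [(Nat.cast_nonneg n : (0 : ℝ) ≤ n)])
    positivity
  · filter_upwards [sqrt_n_tendsto.eventually_ge_atTop (2 / ε)] with n hn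
    apply add_le_add _ le_rfl
    have g1 : 2 ≤ ε * √(n : ℝ) := by
      rw [div_le_iff₀ hε] at hn
      linarith
    have g2 : ε / 2 * √(n : ℝ) ≤ (⌊ε * √(n : ℝ)⌋₊ : ℕ) := by
      have := Nat.lt_floor_add_one (ε * √(n : ℝ))
      linarith
    have g3 : 0 < √(n : ℝ) := by
      rcases (Real.sqrt_nonneg (n : ℝ)).lt_or_eq with h | h
      · exact h
      · rw [← h] at g1; linarith
    have g4 : 0 ≤ Real.log ((n : ℝ) + 1) := Real.log_nonneg (by linarith [(Nat.cast_nonneg n : (0 : ℝ) ≤ n)])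
    calc (2 + Real.log ((n : ℝ) + 1)) / (⌊ε * √(n : ℝ)⌋₊ : ℕ) ≤ (2 + Real.log ((n : ℝ) + 1)) / (ε / 2 * √(n : ℝ)) :=
          div_le_div_of_nonneg_left (by positivity) (by positivity) g2
      _ = _ := by field_simp

end Pool.Agent.H439.MC
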