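import Mathlib
import Pool.Agent.H439.MC.Grid

/-!
# The distance to the superattracting parameters
-/

set_option autoImplicit false

namespace Pool.Agent.H439.MC

open Complex Set Topology Filter Metric MeasureTheory N62a1eb23 Pool.Agent.H712R2
  Pool.Agent.H713R2 Pool.Agent.TH653.MB
open Pool.Agent.Y272.TY (Typ cc rl MM mm rl_pos rl_lt MM_ne_zero log_MM mm_eq)
open Pool.Agent.W677.Mar (pt)

variable {d : ℕ} {β : ℂ → ℂ}

/-- the parameters for which the critical point is periodic of period at most `n` -/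
def Cen (d n : ℕ) : Set ℂ := {c | ∃ k, 1 ≤ k ∧ k ≤ n ∧ P d k c = 0}

theorem Cen_ne (hd : 2 ≤ d) {n : ℕ} (hn : 1 ≤ n) : (Cen d n).Nonempty :=
  ⟨0, 1, le_rfl, hn, P_one hd 0⟩

theorem inv_sum (hd : 2 ≤ d) {θ : ℝ} {c0 : ℂ} {A : ℝ} {R : ℂ} (h : Typ d β θ c0 A R) :
    ∃ S : ℝ, 0 < S ∧ ∀ j : ℕ, ∑ i ∈ Finset.Icc 1 j, 1 / mm d c0 i ≤ S := by
  have hld := logd_pos hd
  obtain ⟨K, hK, hlow⟩ := h.low hd (half_pos hld)
  set q : ℝ := Real.exp (-(Real.log d / 2)) with hq
  have hq0 : 0 < q := Real.exp_pos _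
  have hq1 : q < 1 := by
    rw [hq, Real.exp_lt_one_iff]
    linarith
  refine ⟨Real.exp K * (1 - q)⁻¹, mul_pos (Real.exp_pos _) (inv_pos.2 (by linarith)), ?_⟩
  intro j
  have h1 : ∑ i ∈ Finset.Icc 1 j, 1 / mm d c0 i = ∑ k ∈ Finset.range j, 1 / mm d c0 (k + 1) := by
    rw [Finset.range_eq_Ico, Finset.sum_Ico_add' (fun i => 1 / mm d c0 i) 0 j 1]
    rfl
  rw [h1]
  have hterm : ∀ k, 1 / mm d c0 (k + 1) ≤ Real.exp K * q ^ k := by
    intro k
    have hM : MM d c0 (k + 1) ≠ 0 := MM_ne_zero hd c0 k (fun j _ => h.P_ne j)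
    have hp : 0 < ‖MM d c0 (k + 1)‖ := norm_pos_iff.2 hM
    rw [mm_eq, ← Real.exp_log hp, one_div, ← Real.exp_neg, hq, ← Real.exp_nat_mul, ← Real.exp_add]
    apply Real.exp_le_exp.2
    have := hlow k
    nlinarith
  calc ∑ k ∈ Finset.range j, 1 / mm d c0 (k + 1) ≤ ∑ k ∈ Finset.range j, Real.exp K * q ^ k :=
        Finset.sum_le_sum fun k _ => hterm k
    _ = Real.exp K * ∑ k ∈ Finset.range j, q ^ k := by rw [Finset.mul_sum]
    _ ≤ Real.exp K * (1 - q)⁻¹ := by
        apply mul_le_mul_of_nonneg_left _ (Real.exp_pos _).le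
        rw [← tsum_geometric_of_lt_one hq0.le hq1]
        exact (summable_geometric_of_lt_one hq0.le hq1).sum_le_tsum _ (fun k _ => by positivity)

/-- **the distance to the superattracting parameters** of period at most `n` -/
theorem delta_bounds (hd : 2 ≤ d) (hβ : IsBeta d β) {θ : ℝ} {c0 : ℂ} {A : ℝ} {R : ℂ}
    (h : Typ d β θ c0 A R) : ∃ C : ℝ, 0 ≤ C ∧ ∀ n : ℕ, 2 ≤ n → ∀ H : ℝ, 0 ≤ H →
      (∀ m < n, Real.log ‖MM d c0 (m + 1)‖ ≤ Real.log ‖MM d c0 (n + 1)‖ + H) →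
      |Real.log (1 / infDist c0 (Cen d n)) - Real.log ‖MM d c0 (n + 1)‖| ≤ H + C * (1 + Real.log (n + 2)) := by
  obtain ⟨S, hS0, hS⟩ := inv_sum hd h
  obtain ⟨B, hB0, hB⟩ := h.centre hd hβ Pool.Agent.Y165.TY.centre
  have hA := h.A0
  have hd0 : (0 : ℝ) < d := by exact_mod_cast (by omega : 0 < d)
  have hCd := Cd_pos hd
  refine ⟨(A + 2) + |Real.log (3 * S * d)| + 2 * Cd d + |Real.log B| + 1, by positivity, ?_⟩
  intro n hn H hH hmax
  have hn2 : (2 : ℝ) ≤ n := by exact_mod_cast hn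
  have hl0 : 0 ≤ Real.log ((n : ℝ) + 2) := Real.log_nonneg (by linarith)
  set Dn := Real.log ‖MM d c0 (n + 1)‖ with hDn
  set Λ : ℝ := Dn + H + (A + 2) * Real.log (n + 2) + Real.log (3 * S * d) with hΛ
  -- no superattracting parameter is too close
  have hlow : ∀ c' ∈ Cen d n, Real.exp (-Λ) ≤ dist c0 c' := by
    intro c' hc'
    obtain ⟨k, hk1, hkn, hk0⟩ := hc'
    by_contra hcon
    push Not at hcon
    rw [dist_comm, dist_eq_norm] at hcon
    have hmm : ∀ j ∈ Finset.Icc 1 n, 0 < mm d c0 j ∧ mm d c0 j ≤ Real.exp (Dn + H) := by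
      intro j hj
      rw [Finset.mem_Icc] at hj
      obtain ⟨i, rfl⟩ : ∃ i, j = i + 1 := ⟨j - 1, by omega⟩
      have hM : MM d c0 (i + 1) ≠ 0 := MM_ne_zero hd c0 i (fun j _ => h.P_ne j)
      have hp : 0 < ‖MM d c0 (i + 1)‖ := norm_pos_iff.2 hM
      rw [mm_eq]
      refine ⟨hp, ?_⟩
      rw [← Real.exp_log hp]
      exact Real.exp_le_exp.2 (hmax i (by omega))
    have hest : ∀ j ∈ Finset.Icc 1 n, 3 * mm d c0 j * (∑ i ∈ Finset.Icc 1 j, 1 / mm d c0 i) * ‖c' - c0‖ ≤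
        ‖P d j c0‖ / (d * ((j : ℝ) + 1) ^ 2) := by
      intro j hj
      obtain ⟨g1, g2⟩ := hmm j hj
      rw [Finset.mem_Icc] at hj
      have hσ0 : 0 ≤ ∑ i ∈ Finset.Icc 1 j, 1 / mm d c0 i := by
        apply Finset.sum_nonneg
        intro i hi
        rw [Finset.mem_Icc] at hi
        exact (div_pos one_pos (hmm i (Finset.mem_Icc.2 ⟨hi.1, hi.2.trans hj.2⟩)).1).le
      have g3 : 3 * mm d c0 j * (∑ i ∈ Finset.Icc 1 j, 1 / mm d c0 i) * ‖c' - c0‖ ≤
          3 * Real.exp (Dn + H) * S * Real.exp (-Λ) := by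
        have k1 : 3 * mm d c0 j ≤ 3 * Real.exp (Dn + H) := by linarith
        have k2 : 3 * mm d c0 j * (∑ i ∈ Finset.Icc 1 j, 1 / mm d c0 i) ≤ 3 * Real.exp (Dn + H) * S :=
          mul_le_mul k1 (hS j) hσ0 (by positivity)
        exact mul_le_mul k2 hcon.le (norm_nonneg _) (by positivity)
      refine g3.trans ?_
      have g4 : 3 * Real.exp (Dn + H) * S * Real.exp (-Λ) = Real.exp (-((A + 2) * Real.log (n + 2))) / d := by
        have k1 : Real.exp (-Λ) = Real.exp (-(Dn + H)) * Real.exp (-((A + 2) * Real.log (n + 2))) *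
            (3 * S * d)⁻¹ := by
          rw [hΛ, ← Real.exp_log (by positivity : 0 < (3 * S * d)⁻¹), Real.log_inv, ← Real.exp_add,
            ← Real.exp_add]
          congr 1
          ring
        have k2 : Real.exp (Dn + H) * Real.exp (-(Dn + H)) = 1 := by
          rw [← Real.exp_add, add_neg_cancel, Real.exp_zero]
        rw [k1]
        calc _ = (Real.exp (Dn + H) * Real.exp (-(Dn + H))) * (Real.exp (-((A + 2) * Real.log (n + 2))) *
              (3 * S * (3 * S * d)⁻¹)) := by ring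
          _ = _ := by rw [k2]; field_simp
      rw [g4]
      obtain ⟨i, rfl⟩ : ∃ i, j = i + 1 := ⟨j - 1, by omega⟩
      have g5 := h.rec' i
      have hi2 : (0 : ℝ) < (i : ℝ) + 2 := by positivity
      have hin : (i : ℝ) + 2 ≤ n + 2 := by
        have : ((i + 1 : ℕ) : ℝ) ≤ n := by exact_mod_cast hj.2
        push_cast at this
        linarith
      have g6 : Real.log ((i : ℝ) + 2) ≤ Real.log ((n : ℝ) + 2) := Real.log_le_log hi2 hin
      have g7 : Real.exp (-((A + 2) * Real.log (n + 2))) * ((i : ℝ) + 2) ^ 2 ≤ ‖P d (i + 1) c0‖ := by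
        refine le_trans ?_ g5
        have k1 : ((i : ℝ) + 2) ^ 2 = Real.exp (2 * Real.log ((i : ℝ) + 2)) := by
          rw [← Real.exp_log (by positivity : 0 < ((i : ℝ) + 2) ^ 2), Real.log_pow]
          push_cast
          rfl
        rw [k1, ← Real.exp_add]
        apply Real.exp_le_exp.2
        nlinarith
      push_cast
      rw [div_le_div_iff₀ hd0 (by positivity)]
      have e1 : ((i : ℝ) + 1 + 1) = (i : ℝ) + 2 := by ring
      rw [e1]
      nlinarith
    have hD := Pool.Agent.Y405.TY.t d c0 c' n hd (fun j hj => (hmm j hj).1) hest k (Finset.mem_Icc.2 ⟨hk1, hkn⟩)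
    have h3 := hest k (Finset.mem_Icc.2 ⟨hk1, hkn⟩)
    have hPk : 0 < ‖P d k c0‖ := by
      obtain ⟨i, rfl⟩ : ∃ i, k = i + 1 := ⟨k - 1, by omega⟩
      exact norm_pos_iff.2 (h.P_ne i)
    rw [hk0, zero_sub, norm_neg] at hD
    have h4 : ‖P d k c0‖ / (d * ((k : ℝ) + 1) ^ 2) < ‖P d k c0‖ := by
      rw [div_lt_iff₀ (by positivity)]
      have h5 : (1 : ℝ) < d * ((k : ℝ) + 1) ^ 2 := by
        have h6 : (2 : ℝ) ≤ d := by exact_mod_cast hd
        have h7 : (0 : ℝ) ≤ k := Nat.cast_nonneg k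
        nlinarith
      nlinarith
    linarith
  have hδlow : Real.exp (-Λ) ≤ infDist c0 (Cen d n) := by
    rw [le_infDist (Cen_ne hd (by omega))]
    exact fun {c'} hc' => hlow c' hc'
  have hδ0 : 0 < infDist c0 (Cen d n) := lt_of_lt_of_le (Real.exp_pos _) hδlow
  have hup1 : Real.log (1 / infDist c0 (Cen d n)) ≤ Λ := by
    rw [one_div, Real.log_inv]
    have := Real.log_le_log (Real.exp_pos _) hδlow
    rw [Real.log_exp] at this
    linarith
  -- there is a superattracting parameter nearby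
  obtain ⟨c', hc1, hc2⟩ := hB (n - 2)
  have hc3 : c' ∈ Cen d n := by
    rcases hc2 with h1 | h1
    · exact ⟨n - 2 + 1, by omega, by omega, h1⟩
    · exact ⟨n - 2 + 2, by omega, by omega, h1⟩
  have hM : MM d c0 (n - 2 + 1) ≠ 0 := MM_ne_zero hd c0 _ (fun j _ => h.P_ne j)
  have hMp : 0 < ‖MM d c0 (n - 2 + 1)‖ := norm_pos_iff.2 hM
  have hcast : ((n - 2 : ℕ) : ℝ) + 2 = n := by
    rw [Nat.cast_sub hn]
    push_cast
    ring
  rw [hcast] at hc1
  have hlogn : 0 < Real.log n := Real.log_pos (by linarith)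
  have hδup : infDist c0 (Cen d n) ≤ B * Real.log n / ‖MM d c0 (n - 2 + 1)‖ := by
    refine (infDist_le_dist_of_mem hc3).trans ?_
    rw [dist_comm, dist_eq_norm, le_div_iff₀ hMp]
    exact hc1
  have hlow1 : Dn - 2 * Cd d - Real.log B - Real.log (Real.log n) ≤ Real.log (1 / infDist c0 (Cen d n)) := by
    rw [one_div, Real.log_inv]
    have k1 := Real.log_le_log hδ0 hδup
    rw [Real.log_div (by positivity) hMp.ne', Real.log_mul hB0.ne' hlogn.ne'] at k1
    have k2 := D_step hd (fun i => h.P_ne i) (fun k => h.P_le hd hβ k) (Nat.sub_le n 2)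
    rw [Nat.sub_sub_self hn] at k2
    push_cast at k2
    linarith
  have hll : Real.log (Real.log n) ≤ Real.log (n + 2) := by
    have k1 : Real.log n ≤ n := by
      have := Real.log_le_sub_one_of_pos (by linarith : (0 : ℝ) < n)
      linarith
    exact Real.log_le_log hlogn (by linarith)
  have hb1 := le_abs_self (Real.log B)
  have hb2 := le_abs_self (Real.log (3 * S * d))
  have hb3 := abs_nonneg (Real.log B)
  have hb4 := abs_nonneg (Real.log (3 * S * d))
  rw [abs_le]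
  constructor
  · nlinarith [mul_nonneg hCd.le hl0, mul_nonneg hb3 hl0, mul_nonneg hb4 hl0, mul_nonneg hA hl0]
  · rw [hΛ] at hup1
    nlinarith [mul_nonneg hCd.le hl0, mul_nonneg hb3 hl0, mul_nonneg hb4 hl0, mul_nonneg hA hl0]

end Pool.Agent.H439.MC
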