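import Mathlib
import Pool.Agent.H439.MC.Cen

/-!
# The central limit theorem along the critical orbit
-/

set_option autoImplicit false

namespace Pool.Agent.H439.MC

open Complex Set Topology Filter Metric MeasureTheory N62a1eb23 Pool.Agent.H712R2
  Pool.Agent.H713R2 Pool.Agent.TH653.MB ProbabilityTheory BoundedContinuousFunction
open Pool.Agent.Y272.TY (Typ cc rl MM mm rl_pos rl_lt MM_ne_zero log_MM mm_eq)
open Pool.Agent.W677.Mar (pt)

variable {d : ℕ} {β : ℂ → ℂ}

/-- the normalised logarithm of the derivative of the iterate at the critical value -/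
noncomputable def Xn (d : ℕ) (c : ℝ → ℂ) (n : ℕ) (θ : ℝ) : ℝ :=
  (Real.log ‖MM d (c θ) (n + 1)‖ - n * Real.log d) / √n

/-- the normalised logarithm of the distance to the superattracting parameters -/
noncomputable def Yn (d : ℕ) (c : ℝ → ℂ) (n : ℕ) (θ : ℝ) : ℝ :=
  (Real.log (1 / infDist (c θ) (Cen d n)) - n * Real.log d) / √n

theorem MM_cont (d k : ℕ) : Continuous fun c => MM d c k := by
  unfold Pool.Agent.Y272.TY.MM
  apply continuous_finsetProd
  intro i _
  exact continuous_const.mul ((differentiable_P d i).continuous.pow _)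

theorem Xn_meas (hβ : IsBeta d β) {c : ℝ → ℂ} (hc : AETyp d β c) (n : ℕ) : AEMeasurable (Xn d c n) Pm := by
  have h1 : Measurable fun z : ℂ => (Real.log ‖MM d z (n + 1)‖ - n * Real.log d) / √n :=
    ((Real.measurable_log.comp (MM_cont d (n + 1)).norm.measurable).sub_const _).div_const _
  exact h1.comp_aemeasurable (c_meas hβ hc)

theorem Yn_meas (hβ : IsBeta d β) {c : ℝ → ℂ} (hc : AETyp d β c) (n : ℕ) : AEMeasurable (Yn d c n) Pm := by
  have h1 : Measurable fun z : ℂ => (Real.log (1 / infDist z (Cen d n)) - n * Real.log d) / √n := by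
    have h2 : Measurable fun z : ℂ => infDist z (Cen d n) := (continuous_infDist_pt _).measurable
    exact ((Real.measurable_log.comp (measurable_const.div h2)).sub_const _).div_const _
  exact h1.comp_aemeasurable (c_meas hβ hc)

theorem log_div_sqrt (C : ℝ) : Tendsto (fun n : ℕ => C * (1 + Real.log ((n : ℝ) + 2)) / √(n : ℝ)) atTop (𝓝 0) := by
  have g1 : Tendsto (fun x : ℝ => Real.log x / √x) atTop (𝓝 0) := by
    have := (isLittleO_log_rpow_atTop (by norm_num : (0 : ℝ) < 1 / 2)).tendsto_div_nhds_zero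
    simpa [Real.sqrt_eq_rpow] using this
  have g2 : Tendsto (fun n : ℕ => (1 + Real.log 3) / √(n : ℝ)) atTop (𝓝 0) :=
    tendsto_const_nhds.div_atTop sqrt_n_tendsto
  have g3 := (g2.add (g1.comp (tendsto_natCast_atTop_atTop (R := ℝ)))).const_mul |C|
  rw [add_zero, mul_zero] at g3
  apply squeeze_zero_norm' _ g3
  filter_upwards [eventually_ge_atTop 1] with n hn
  have hn1 : (1 : ℝ) ≤ n := by exact_mod_cast hn
  have h0 : 0 ≤ Real.log ((n : ℝ) + 2) := Real.log_nonneg (by linarith)
  simp only [Function.comp_apply]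
  rw [Real.norm_eq_abs, abs_div, abs_mul, abs_of_nonneg (Real.sqrt_nonneg _),
    abs_of_nonneg (by linarith : (0 : ℝ) ≤ 1 + Real.log ((n : ℝ) + 2)), mul_div_assoc]
  apply mul_le_mul_of_nonneg_left _ (abs_nonneg _)
  rw [← add_div]
  apply div_le_div_of_nonneg_right _ (Real.sqrt_nonneg _)
  have : Real.log ((n : ℝ) + 2) ≤ Real.log 3 + Real.log n := by
    rw [← Real.log_mul (by norm_num) (by linarith)]
    apply Real.log_le_log (by linarith)
    linarith
  linarith

/-- **the two random variables are asymptotically equal** -/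
theorem YX_close (hd : 2 ≤ d) (hβ : IsBeta d β) {c : ℝ → ℂ} (hc : AETyp d β c) :
    Tendsto (fun n => ∫ θ, min 1 |Yn d c n θ - Xn d c n θ| ∂Pm) atTop (𝓝 0) := by
  obtain ⟨C, hC, hdev⟩ := dev_mean hd hβ
  have hCd := Cd_pos hd
  rw [Metric.tendsto_nhds]
  intro η hη
  set ε : ℝ := η / (4 * Cd d) with hε
  have hε0 : 0 < ε := by positivity
  set hh : ℕ → ℕ := fun n => ⌊ε * √(n : ℝ)⌋₊ with hhh
  set B : ℕ → ℝ → ℝ := fun n θ => ∑ k ∈ Finset.Icc 1 (n / hh n + 1), dev d n (hh n) k (c θ) ^ 2 with hB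
  set U : ℕ → ℝ → ℝ := fun n θ => max 0 (min 1 |Yn d c n θ - Xn d c n θ| - B n θ - ε * Cd d) with hU
  have hB0 : ∀ n θ, 0 ≤ B n θ := fun n θ => Finset.sum_nonneg fun _ _ => sq_nonneg _
  have hbig : ∀ᶠ n : ℕ in atTop, 2 ≤ n ∧ 1 ≤ hh n := by
    filter_upwards [eventually_ge_atTop 2, sqrt_n_tendsto.eventually_ge_atTop (1 / ε)] with n h1 h2
    refine ⟨h1, ?_⟩
    rw [div_le_iff₀ hε0] at h2
    exact Nat.le_floor (by push_cast; linarith)
  have hmin : ∀ n, AEStronglyMeasurable (fun θ => min 1 |Yn d c n θ - Xn d c n θ|) Pm := fun n =>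
    (aemeasurable_const.min ((Yn_meas hβ hc n).sub (Xn_meas hβ hc n)).abs).aestronglyMeasurable
  have hmini : ∀ n, Integrable (fun θ => min 1 |Yn d c n θ - Xn d c n θ|) Pm := by
    intro n
    apply Integrable.of_bound (hmin n) 1
    refine Eventually.of_forall fun θ => ?_
    rw [Real.norm_of_nonneg (le_min zero_le_one (abs_nonneg _))]
    exact min_le_left _ _
  have hUm : ∀ n, 2 ≤ n ∧ 1 ≤ hh n → AEStronglyMeasurable (U n) Pm := by
    intro n hn
    have h1 := (hdev c hc n (hh n) (by omega) hn.2).1.1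
    exact (aemeasurable_const.max (((hmin n).aemeasurable.sub h1.aemeasurable).sub
      aemeasurable_const)).aestronglyMeasurable
  have hU1 : ∀ n θ, U n θ ≤ 1 := by
    intro n θ
    apply max_le zero_le_one
    have h1 : min 1 |Yn d c n θ - Xn d c n θ| ≤ 1 := min_le_left _ _
    have := hB0 n θ
    have : 0 < ε * Cd d := by positivity
    linarith
  have hU0 : ∀ n θ, 0 ≤ U n θ := fun n θ => le_max_left _ _
  have hUlim : Tendsto (fun n => ∫ θ, U n θ ∂Pm) atTop (𝓝 (∫ _θ, (0 : ℝ) ∂Pm)) := by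
    apply tendsto_integral_filter_of_dominated_convergence (fun _ => (1 : ℝ))
    · filter_upwards [hbig] with n hn
      exact hUm n hn
    · refine Eventually.of_forall fun n => Eventually.of_forall fun θ => ?_
      rw [Real.norm_of_nonneg (hU0 n θ)]
      exact hU1 n θ
    · exact integrable_const _
    · filter_upwards [hc] with θ hθ
      obtain ⟨A, R, hT⟩ := hθ
      obtain ⟨Cθ, hCθ0, hCθ⟩ := delta_bounds hd hβ hT
      have hz := log_div_sqrt Cθ
      apply squeeze_zero' (Eventually.of_forall fun n => hU0 n θ) _ hz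
      filter_upwards [hbig] with n hn
      have hn0 : (0 : ℝ) < n := by exact_mod_cast (by omega : 0 < n)
      have hsn : 0 < √(n : ℝ) := Real.sqrt_pos.2 hn0
      have hl0 : 0 ≤ Real.log ((n : ℝ) + 2) := Real.log_nonneg (by linarith)
      have hpos : 0 ≤ Cθ * (1 + Real.log ((n : ℝ) + 2)) / √(n : ℝ) := by positivity
      apply max_le hpos
      rcases le_or_gt (B n θ) 1 with h1 | h1
      · have h2 : ∀ m < n, Real.log ‖MM d (c θ) (m + 1)‖ ≤ Real.log ‖MM d (c θ) (n + 1)‖ + hh n * Cd d :=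
          fun m hm => grid hd (fun i => hT.P_ne i) (fun k => hT.P_le hd hβ k) hn.2 h1 hm
        have h3 := hCθ n hn.1 (hh n * Cd d) (by positivity) h2
        have h4 : |Yn d c n θ - Xn d c n θ| ≤ (hh n * Cd d + Cθ * (1 + Real.log (n + 2))) / √n := by
          unfold Yn Xn
          rw [← sub_div, abs_div, abs_of_pos hsn]
          apply div_le_div_of_nonneg_right _ hsn.le
          refine le_trans (le_of_eq ?_) h3
          congr 1
          ring
        have h5 : (hh n : ℝ) ≤ ε * √(n : ℝ) := Nat.floor_le (by positivity)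
        have h6 : (hh n * Cd d + Cθ * (1 + Real.log (n + 2))) / √n ≤ ε * Cd d +
            Cθ * (1 + Real.log ((n : ℝ) + 2)) / √(n : ℝ) := by
          rw [add_div]
          apply add_le_add _ le_rfl
          rw [div_le_iff₀ hsn]
          nlinarith
        have h7 : min 1 |Yn d c n θ - Xn d c n θ| ≤ |Yn d c n θ - Xn d c n θ| := min_le_right _ _
        linarith [hB0 n θ]
      · have h2 : min 1 |Yn d c n θ - Xn d c n θ| ≤ 1 := min_le_left _ _
        have : 0 < ε * Cd d := by positivity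
        linarith
  rw [integral_zero] at hUlim
  have hbad := (bad_small hε0).const_mul C
  rw [mul_zero] at hbad
  filter_upwards [hbig, hUlim.eventually (gt_mem_nhds (by positivity : 0 < η / 4)),
    hbad.eventually (gt_mem_nhds (by positivity : 0 < η / 4))] with n h1 h2 h3
  have hdn := hdev c hc n (hh n) (by omega) h1.2
  have hUi : Integrable (U n) Pm := by
    apply Integrable.of_bound (hUm n h1) 1
    refine Eventually.of_forall fun θ => ?_
    rw [Real.norm_of_nonneg (hU0 n θ)]
    exact hU1 n θ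
  have hBi : Integrable (B n) Pm := hdn.1
  have i1 : Integrable (fun θ => U n θ + B n θ) Pm := hUi.add hBi
  have h4 : ∫ θ, min 1 |Yn d c n θ - Xn d c n θ| ∂Pm ≤ ∫ θ, (U n θ + B n θ + ε * Cd d) ∂Pm := by
    apply integral_mono (hmini n) (i1.add (integrable_const _))
    intro θ
    change min 1 |Yn d c n θ - Xn d c n θ| ≤ U n θ + B n θ + ε * Cd d
    have : min 1 |Yn d c n θ - Xn d c n θ| - B n θ - ε * Cd d ≤ U n θ := le_max_right _ _
    linarith
  rw [integral_add i1 (integrable_const _), integral_add hUi hBi] at h4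
  have h5 : ∫ _θ : ℝ, ε * Cd d ∂Pm = ε * Cd d := by simp
  rw [h5] at h4
  have h6 : ∫ θ, B n θ ∂Pm ≤ C * ((2 + Real.log (n + 1)) / hh n + 1 / n) := hdn.2
  have h7 : ε * Cd d = η / 4 := by rw [hε]; field_simp
  have h8 : 0 ≤ ∫ θ, min 1 |Yn d c n θ - Xn d c n θ| ∂Pm :=
    integral_nonneg fun θ => le_min zero_le_one (abs_nonneg _)
  rw [Real.dist_eq, sub_zero, abs_of_nonneg h8]
  linarith

end Pool.Agent.H439.MC
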