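import Mathlib
import Pool.Agent.H439.MC.Fin

/-!
# The central limit theorem on the circles outside the unit disc
-/

set_option autoImplicit false

namespace Pool.Agent.H439.MC

open Complex Set Topology Filter Metric MeasureTheory Bornology N62a1eb23 Pool.Agent.H712R2
  Pool.Agent.H713R2 Pool.Agent.TH653.MB ProbabilityTheory BoundedContinuousFunction

variable {d : ℕ} {β : ℂ → ℂ}

/-- `L` is the logarithm of the derivative of `ψ` outside the closed unit disc which vanishes at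
infinity. -/
structure IsLogDeriv (ψ L : ℂ → ℂ) : Prop where
  diff : DifferentiableOn ℂ L {z | 1 < ‖z‖}
  exp : ∀ z : ℂ, 1 < ‖z‖ → Complex.exp (L z) = deriv ψ z
  infinity : Tendsto L (cobounded ℂ) (𝓝 0)

theorem isOpen_ext : IsOpen {z : ℂ | 1 < ‖z‖} := isOpen_lt continuous_const continuous_norm

theorem deriv_ext (hβ : IsBeta d β) {ψ : ℂ → ℂ} (hψ : IsExteriorMap (multibrotSet d) ψ) {z : ℂ}
    (hz : 1 < ‖z‖) : deriv ψ z = qq β z⁻¹ := by
  obtain ⟨h1, h2⟩ := inv_mem_ball hz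
  have hz0 : z ≠ 0 := fun h => h2 (by rw [h, inv_zero])
  have e1 : ψ =ᶠ[𝓝 z] fun z => z * β z⁻¹ := by
    filter_upwards [isOpen_ext.mem_nhds hz] with w hw
    exact exteriorMap_unique hβ hψ hw
  rw [e1.deriv_eq]
  have h3 : HasDerivAt β (deriv β z⁻¹) z⁻¹ :=
    (hβ.diff.differentiableAt (isOpen_ball.mem_nhds h1)).hasDerivAt
  have h4 : HasDerivAt (fun w : ℂ => β w⁻¹) (deriv β z⁻¹ * (-(z ^ 2)⁻¹)) z :=
    h3.comp z (hasDerivAt_inv hz0)
  have h5 := (hasDerivAt_id z).mul h4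
  have h6 := h5.deriv
  change deriv (fun w => w * β w⁻¹) z = _ at h6
  rw [h6]
  unfold qq
  simp only [id]
  field_simp
  ring

theorem exists_isLogDeriv (hβ : IsBeta d β) {ψ : ℂ → ℂ} (hψ : IsExteriorMap (multibrotSet d) ψ) :
    ∃ L, IsLogDeriv ψ L := by
  obtain ⟨ℓ, hℓ⟩ := exists_isL hβ
  refine ⟨fun z => ℓ z⁻¹, ?_, ?_, ?_⟩
  · intro z hz
    obtain ⟨h1, h2⟩ := inv_mem_ball hz
    have hz0 : z ≠ 0 := fun h => h2 (by rw [h, inv_zero])
    apply DifferentiableAt.differentiableWithinAt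
    exact (hℓ.diff.differentiableAt (isOpen_ball.mem_nhds h1)).comp z (differentiableAt_inv_iff.mpr hz0)
  · intro z hz
    rw [hℓ.exp _ (inv_mem_ball hz).1, deriv_ext hβ hψ hz]
  · have h0 : ContinuousAt ℓ 0 := (hℓ.diff.differentiableAt (ball_mem_nhds 0 one_pos)).continuousAt
    rw [← hℓ.zero]
    exact h0.tendsto.comp (tendsto_inv_cob.mono_right nhdsWithin_le_nhds)

theorem IsLogDeriv.isL (hβ : IsBeta d β) {ψ : ℂ → ℂ} (hψ : IsExteriorMap (multibrotSet d) ψ) {L : ℂ → ℂ}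
    (hL : IsLogDeriv ψ L) : IsL β (fun x => if x = 0 then 0 else L x⁻¹) := by
  have hne : ∀ x ∈ ball (0 : ℂ) 1, x ≠ 0 → DifferentiableAt ℂ (fun x => if x = 0 then 0 else L x⁻¹) x := by
    intro x hx hx0
    have h1 : DifferentiableAt ℂ (fun x => L x⁻¹) x :=
      (hL.diff.differentiableAt (isOpen_ext.mem_nhds (one_lt_norm_inv hx hx0))).comp x
        (differentiableAt_inv_iff.mpr hx0)
    refine h1.congr_of_eventuallyEq ?_
    filter_upwards [isOpen_ne.mem_nhds hx0] with y hy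
    rw [if_neg hy]
  refine ⟨?_, ?_, by simp⟩
  · rw [← Complex.differentiableOn_compl_singleton_and_continuousAt_iff (ball_mem_nhds (0 : ℂ) one_pos)]
    refine ⟨fun x hx => (hne x hx.1 hx.2).differentiableWithinAt, ?_⟩
    rw [continuousAt_iff_punctured_nhds]
    have h1 : Tendsto (fun x : ℂ => L x⁻¹) (𝓝[≠] 0) (𝓝 0) :=
      hL.infinity.comp tendsto_inv₀_nhdsNE_zero
    simp only [if_true]
    refine h1.congr' ?_
    filter_upwards [self_mem_nhdsWithin] with x hx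
    have hx' : x ≠ 0 := hx
    rw [if_neg hx']
  · intro x hx
    by_cases hx0 : x = 0
    · rw [if_pos hx0, hx0, qq_zero hβ, Complex.exp_zero]
    · rw [if_neg hx0, hL.exp _ (one_lt_norm_inv hx hx0), deriv_ext hβ hψ (one_lt_norm_inv hx hx0), inv_inv]

theorem circleMap_refl (R θ : ℝ) :
    circleMap 0 (1 / R) (2 * Real.pi - θ) = ((R : ℂ) * exp (θ * I))⁻¹ := by
  unfold circleMap
  rw [mul_inv, ← Complex.exp_neg, zero_add]
  have h1 : ((2 * Real.pi - θ : ℝ) : ℂ) * I = -(θ * I) + 2 * Real.pi * I := by push_cast; ring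
  rw [h1, Complex.exp_add, Complex.exp_two_pi_mul_I, mul_one]
  push_cast
  rw [one_div]

theorem tendsto_one_div : Tendsto (fun R : ℝ => 1 / R) (𝓝[>] 1) (𝓝[<] 1) := by
  apply tendsto_nhdsWithin_of_tendsto_nhds_of_eventually_within
  · have h : ContinuousAt (fun R : ℝ => 1 / R) 1 := by
      apply ContinuousAt.div continuousAt_const continuousAt_id one_ne_zero
    have h1 := h.tendsto
    rw [div_one] at h1
    exact h1.mono_left nhdsWithin_le_nhds
  · filter_upwards [self_mem_nhdsWithin] with R hR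
    rw [mem_Iio, div_lt_one (lt_trans one_pos hR)]
    exact hR

theorem reflect (f : ℝ → ℝ) : ∫ θ, f (2 * Real.pi - θ) ∂Pm = ∫ θ, f θ ∂Pm := by
  rw [integral_Pm, integral_Pm, intervalIntegral.integral_comp_sub_left (fun x => f x), sub_self, sub_zero]

theorem reflect_int {f : ℝ → ℝ} (hf : IntervalIntegrable f volume 0 (2 * Real.pi)) :
    Integrable (fun θ => f (2 * Real.pi - θ)) Pm := by
  rw [integrable_Pm_iff]
  have h := (hf.comp_sub_left (2 * Real.pi)).symm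
  simpa using h

/-- the normalised logarithm of the derivative on the circle of radius `R` -/
noncomputable def Xe (L : ℂ → ℂ) (R θ : ℝ) : ℂ := L (R * exp (θ * I)) / √(Real.log (1 / (R - 1)))

theorem Zc_refl (L : ℂ → ℂ) {R : ℝ} (hR : 1 < R) (θ : ℝ) :
    Zc (fun x => if x = 0 then 0 else L x⁻¹) (1 / R) (2 * Real.pi - θ) = Xe L R θ := by
  unfold Zc Lr Xe
  rw [circleMap_refl]
  have h3 : ((R : ℂ) * exp (θ * I)) ≠ 0 :=
    mul_ne_zero (by exact_mod_cast (by linarith : R ≠ 0)) (Complex.exp_ne_zero _)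
  beta_reduce
  rw [if_neg (inv_ne_zero h3), inv_inv, one_div_one_div]
  push_cast
  ring

theorem Xe_cont {L : ℂ → ℂ} (hL : DifferentiableOn ℂ L {z | 1 < ‖z‖}) {R : ℝ} (hR : 1 < R) :
    Continuous (Xe L R) := by
  unfold Xe
  apply Continuous.div_const
  apply hL.continuousOn.comp_continuous (by fun_prop)
  intro θ
  change 1 < ‖(R : ℂ) * exp (θ * I)‖
  rw [norm_mul, norm_exp_ofReal_mul_I, mul_one, Complex.norm_real, Real.norm_of_nonneg (by linarith)]
  exact hR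

/-- **the central limit theorem**, general form -/
theorem clt_ext_gen (hd : 2 ≤ d) (hβ : IsBeta d β) :
    ∃ σ : ℝ → ℝ, Measurable σ ∧ (∀ θ, 0 ≤ σ θ) ∧
      IntervalIntegrable (fun θ => σ θ ^ 2) volume 0 (2 * Real.pi) ∧
      0 < ∫ θ in (0 : ℝ)..2 * Real.pi, σ θ ∧
      ∀ ψ : ℂ → ℂ, IsExteriorMap (multibrotSet d) ψ → ∀ L : ℂ → ℂ, IsLogDeriv ψ L →
      ∀ W : ℝ → ℝ → ℂ, (∀ᶠ R in 𝓝[>] (1 : ℝ), Measurable (W R)) →
      Tendsto (fun R => ∫ θ, min 1 ‖W R θ - Xe L R θ‖ ∂Pm) (𝓝[>] 1) (𝓝 0) →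
      ∀ φ : ℝ → ℝ, IntervalIntegrable φ volume 0 (2 * Real.pi) → ∀ f : ℂ →ᵇ ℝ,
      Tendsto (fun R : ℝ => ∫ θ in (0 : ℝ)..2 * Real.pi, φ θ * f (W R θ)) (𝓝[>] 1)
        (𝓝 (∫ θ in (0 : ℝ)..2 * Real.pi, φ θ *
          ∫ x, ∫ y, f (σ θ * (x + y * I)) ∂(gaussianReal 0 1) ∂(gaussianReal 0 1))) := by
  obtain ⟨s, hs, hs0, hs2, hpos, h⟩ := clt_gen hd hβ
  have hpi := two_pi_pos'
  refine ⟨fun θ => s (2 * Real.pi - θ), hs.comp (measurable_const.sub measurable_id), fun θ => hs0 _, ?_, ?_, ?_⟩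
  · rw [← integrable_Pm_iff]
    have h1 : Integrable (fun θ => s θ ^ 2) Pm := hs2.integrable_sq
    have h2 := reflect_int (integrable_Pm_iff.1 h1)
    exact h2
  · have h1 := reflect s
    have h2 : ∫ θ, s (2 * Real.pi - θ) ∂Pm =
        (2 * Real.pi)⁻¹ * ∫ θ in (0 : ℝ)..2 * Real.pi, s (2 * Real.pi - θ) := by
      rw [integral_Pm, smul_eq_mul]
    rw [h2] at h1
    rw [← h1] at hpos
    exact pos_of_mul_pos_right hpos (by positivity)
  · intro ψ hψ L hL W hW hc φ hφ f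
    have hℓ := hL.isL hβ hψ
    have e2 : ∀ θ : ℝ, 2 * Real.pi - (2 * Real.pi - θ) = θ := fun θ => by ring
    have h1 := h _ hℓ ℝ (𝓝[>] 1) (fun R => 1 / R) tendsto_one_div
      (fun R θ => W R (2 * Real.pi - θ)) (by
        filter_upwards [hW] with R hR
        exact (hR.comp (measurable_const.sub measurable_id)).aemeasurable) (by
        refine hc.congr' ?_
        filter_upwards [self_mem_nhdsWithin] with R hR
        rw [← reflect (fun θ => min 1 ‖W R θ - Xe L R θ‖)]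
        congr 1
        funext θ
        congr 3
        rw [← Zc_refl L hR, e2]) _ (reflect_int hφ) f
    have h2 := h1.const_mul (2 * Real.pi)
    have e1 : ∀ g : ℝ → ℝ, 2 * Real.pi * ∫ θ, g θ ∂Pm = ∫ θ in (0 : ℝ)..2 * Real.pi, g (2 * Real.pi - θ) := by
      intro g
      rw [← reflect g, integral_Pm, smul_eq_mul]
      field_simp
    simp only [e1, e2, integral_cg] at h2
    exact h2

/-- **the central limit theorem** -/
theorem clt_ext (hd : 2 ≤ d) (hβ : IsBeta d β) :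
    ∃ σ : ℝ → ℝ, Measurable σ ∧ (∀ θ, 0 ≤ σ θ) ∧
      IntervalIntegrable (fun θ => σ θ ^ 2) volume 0 (2 * Real.pi) ∧
      0 < ∫ θ in (0 : ℝ)..2 * Real.pi, σ θ ∧
      ∀ ψ : ℂ → ℂ, IsExteriorMap (multibrotSet d) ψ → ∀ L : ℂ → ℂ, IsLogDeriv ψ L →
      ∀ φ : ℝ → ℝ, IntervalIntegrable φ volume 0 (2 * Real.pi) → ∀ f : ℂ →ᵇ ℝ,
      Tendsto (fun R : ℝ => ∫ θ in (0 : ℝ)..2 * Real.pi, φ θ * f (Xe L R θ)) (𝓝[>] 1)
        (𝓝 (∫ θ in (0 : ℝ)..2 * Real.pi, φ θ *
          ∫ x, ∫ y, f (σ θ * (x + y * I)) ∂(gaussianReal 0 1) ∂(gaussianReal 0 1))) := by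
  obtain ⟨σ, h1, h2, h3, h4, h5⟩ := clt_ext_gen hd hβ
  refine ⟨σ, h1, h2, h3, h4, ?_⟩
  intro ψ hψ L hL φ hφ f
  apply h5 ψ hψ L hL (Xe L) _ _ φ hφ f
  · filter_upwards [self_mem_nhdsWithin] with R hR
    exact (Xe_cont hL.diff hR).measurable
  · simp

end Pool.Agent.H439.MC
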