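import Mathlib
import Pool.Agent.H439.MC.Dyn
import Pool.Agent.H439.MC.Ext

/-!
# The central limit theorem along the critical orbit: conclusion
-/

set_option autoImplicit false

namespace Pool.Agent.H439.MC

open Complex Set Topology Filter Metric MeasureTheory N62a1eb23 Pool.Agent.H712R2
  Pool.Agent.H713R2 Pool.Agent.TH653.MB ProbabilityTheory BoundedContinuousFunction
open Pool.Agent.Y272.TY (Typ cc rl MM mm rl_pos rl_lt MM_ne_zero log_MM mm_eq)
open Pool.Agent.W677.Mar (pt)

variable {d : ℕ} {β : ℂ → ℂ}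

theorem min_add (a b : ℝ) (ha : 0 ≤ a) (hb : 0 ≤ b) : min 1 (a + b) ≤ min 1 a + min 1 b := by
  rcases le_total 1 a with h | h
  · rw [min_eq_left h]
    have : 0 ≤ min 1 b := le_min zero_le_one hb
    exact (min_le_left _ _).trans (by linarith)
  · rcases le_total 1 b with h' | h'
    · rw [min_eq_left h']
      have : 0 ≤ min 1 a := le_min zero_le_one ha
      exact (min_le_left _ _).trans (by linarith)
    · rw [min_eq_right h, min_eq_right h']
      exact min_le_right _ _

theorem min_mul' (t a : ℝ) (ht : 0 ≤ t) (ha : 0 ≤ a) : min 1 (t * a) ≤ (1 + t) * min 1 a := by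
  rcases le_total 1 a with h | h
  · rw [min_eq_left h]
    exact (min_le_left _ _).trans (by linarith)
  · rw [min_eq_right h]
    exact (min_le_right _ _).trans (by nlinarith)

theorem gauss_neg (g : ℝ → ℝ) : ∫ x, g (-x) ∂(gaussianReal 0 1) = ∫ x, g x ∂(gaussianReal 0 1) := by
  have h1 : (gaussianReal 0 1).map (fun x => -x) = gaussianReal 0 1 := by
    rw [gaussianReal_map_neg, neg_zero]
  conv_rhs => rw [← h1]
  exact ((MeasurableEquiv.neg ℝ).measurableEmbedding.integral_map g).symm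

/-- **central limit theorem** for all random variables asymptotically equal to `Xn` -/
theorem clt_dyn (hd : 2 ≤ d) (hβ : IsBeta d β) :
    ∃ s : ℝ → ℝ, Measurable s ∧ (∀ θ, 0 ≤ s θ) ∧ MemLp s 2 Pm ∧ 0 < ∫ θ, s θ ∂Pm ∧
      ∀ c : ℝ → ℂ, AETyp d β c → ∀ X : ℕ → ℝ → ℝ, (∀ n, AEMeasurable (X n) Pm) →
      Tendsto (fun n => ∫ θ, min 1 |X n θ - Xn d c n θ| ∂Pm) atTop (𝓝 0) →
      ∀ φ : ℝ → ℝ, Integrable φ Pm → ∀ f : ℝ →ᵇ ℝ,
      Tendsto (fun n => ∫ θ, φ θ * f (X n θ) ∂Pm) atTop
        (𝓝 (∫ θ, φ θ * ∫ x, f (s θ * x) ∂(gaussianReal 0 1) ∂Pm)) := by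
  obtain ⟨s, hs, hs0, hs2, hpos, h⟩ := clt_gen hd hβ
  have hld := logd_pos hd
  set κ := √(Real.log d) with hκ
  have hκ0 : 0 < κ := Real.sqrt_pos.2 hld
  refine ⟨fun θ => κ * s θ, hs.const_mul _, fun θ => mul_nonneg hκ0.le (hs0 θ), hs2.const_mul _, ?_, ?_⟩
  · rw [integral_const_mul]
    exact mul_pos hκ0 hpos
  intro c hc X hX hXc φ hφ f
  obtain ⟨ℓ, hℓ⟩ := exists_isL hβ
  have hZc : ∀ n, Continuous (Zc ℓ (rl d n)) := by
    intro n
    unfold Zc
    exact continuous_const.mul (comp_cont hℓ.diff (rl_pos d n) (rl_lt hd n))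
  set W : ℕ → ℝ → ℂ := fun n θ => ((-(1 / κ) * X n θ : ℝ) : ℂ) + ((Zc ℓ (rl d n) θ).im : ℂ) * I with hW
  have hWm : ∀ n, AEMeasurable (W n) Pm := by
    intro n
    simp only [hW]
    apply AEMeasurable.add
    · exact Complex.measurable_ofReal.comp_aemeasurable ((hX n).const_mul _)
    · exact (((Complex.continuous_ofReal.comp (continuous_im.comp (hZc n))).mul continuous_const)).aemeasurable
  have hWn : ∀ n θ, ‖W n θ - Zc ℓ (rl d n) θ‖ = 1 / κ * |X n θ + κ * (Zc ℓ (rl d n) θ).re| := by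
    intro n θ
    have e1 : W n θ - Zc ℓ (rl d n) θ = ((-(1 / κ) * (X n θ + κ * (Zc ℓ (rl d n) θ).re) : ℝ) : ℂ) := by
      simp only [hW]
      nth_rewrite 2 [← Complex.re_add_im (Zc ℓ (rl d n) θ)]
      push_cast
      have : (κ : ℂ) ≠ 0 := by exact_mod_cast hκ0.ne'
      field_simp
      ring
    rw [e1, Complex.norm_real, Real.norm_eq_abs, abs_mul, abs_neg, abs_of_pos (by positivity : 0 < 1 / κ)]
  have l1 : Tendsto (fun n => ∫ θ, min 1 |Xn d c n θ + κ * (Zc ℓ (rl d n) θ).re| ∂Pm) atTop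
      (𝓝 (∫ _θ, (0 : ℝ) ∂Pm)) := by
    apply tendsto_integral_of_dominated_convergence (fun _ => (1 : ℝ))
    · intro n
      exact (aemeasurable_const.min (((Xn_meas hβ hc n).add
        ((continuous_re.comp (hZc n)).aemeasurable.const_mul _))).abs).aestronglyMeasurable
    · exact integrable_const _
    · intro n
      refine Eventually.of_forall fun θ => ?_
      rw [Real.norm_of_nonneg (le_min zero_le_one (abs_nonneg _))]
      exact min_le_left _ _
    · filter_upwards [hc] with θ hθ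
      obtain ⟨A, R, hT⟩ := hθ
      have h1 := (typ_close hd hβ hℓ hT).abs
      rw [abs_zero] at h1
      have h2 : Tendsto (fun n => min 1 |(Real.log ‖MM d (c θ) (n + 1)‖ - n * Real.log d) / √n +
          √(Real.log d) * (Zc ℓ (rl d n) θ).re|) atTop (𝓝 (min 1 0)) := tendsto_const_nhds.min h1
      rw [min_eq_right zero_le_one] at h2
      exact h2
  rw [integral_zero] at l1
  have hclose : Tendsto (fun n => ∫ θ, min 1 ‖W n θ - Zc ℓ (rl d n) θ‖ ∂Pm) atTop (𝓝 0) := by
    have l2 := (hXc.add l1).const_mul (1 + 1 / κ)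
    rw [add_zero, mul_zero] at l2
    apply squeeze_zero _ _ l2
    · exact fun n => integral_nonneg fun θ => le_min zero_le_one (norm_nonneg _)
    · intro n
      have m1 : AEMeasurable (fun θ => X n θ - Xn d c n θ) Pm := (hX n).sub (Xn_meas hβ hc n)
      have m2 : AEMeasurable (fun θ => Xn d c n θ + κ * (Zc ℓ (rl d n) θ).re) Pm :=
        (Xn_meas hβ hc n).add ((continuous_re.comp (hZc n)).aemeasurable.const_mul _)
      have i1 : Integrable (fun θ => min 1 |X n θ - Xn d c n θ|) Pm := int_min m1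
      have i2 : Integrable (fun θ => min 1 |Xn d c n θ + κ * (Zc ℓ (rl d n) θ).re|) Pm := int_min m2
      rw [← integral_add i1 i2, ← integral_const_mul]
      apply integral_mono (int_min ((hWm n).sub (hZc n).aemeasurable)) ((i1.add i2).const_mul _)
      intro θ
      change min 1 ‖W n θ - Zc ℓ (rl d n) θ‖ ≤
        (1 + 1 / κ) * (min 1 |X n θ - Xn d c n θ| + min 1 |Xn d c n θ + κ * (Zc ℓ (rl d n) θ).re|)
      rw [hWn]
      refine (min_mul' (1 / κ) _ (by positivity) (abs_nonneg _)).trans ?_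
      apply mul_le_mul_of_nonneg_left _ (by positivity)
      refine le_trans ?_ (min_add _ _ (abs_nonneg _) (abs_nonneg _))
      apply min_le_min_left
      have : X n θ + κ * (Zc ℓ (rl d n) θ).re = (X n θ - Xn d c n θ) + (Xn d c n θ + κ * (Zc ℓ (rl d n) θ).re) := by
        ring
      rw [this]
      exact abs_add_le _ _
  set ft : ℂ →ᵇ ℝ := f.compContinuous ⟨fun w : ℂ => -κ * w.re, by fun_prop⟩ with hft
  have hftv : ∀ w : ℂ, ft w = f (-κ * w.re) := fun w => rfl
  have key := h ℓ hℓ ℕ atTop (fun n => rl d n) (rl_tendsto hd) W (Eventually.of_forall hWm) hclose φ hφ ft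
  have e1 : ∀ n θ, ft (W n θ) = f (X n θ) := by
    intro n θ
    rw [hftv]
    congr 1
    simp only [hW]
    rw [add_re, Complex.ofReal_re, Complex.re_ofReal_mul, Complex.I_re, mul_zero, add_zero]
    field_simp
  have e2 : ∀ θ, ∫ w, ft (s θ • w) ∂cg = ∫ x, f (κ * s θ * x) ∂(gaussianReal 0 1) := by
    intro θ
    rw [integral_cg]
    have e3 : ∀ x y : ℝ, ft ((s θ : ℂ) * ((x : ℂ) + y * I)) = f (κ * s θ * (-x)) := by
      intro x y
      rw [hftv]
      congr 1
      rw [Complex.re_ofReal_mul, add_re, Complex.ofReal_re, Complex.re_ofReal_mul, Complex.I_re, mul_zero, add_zero]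
      ring
    simp only [e3, integral_const, probReal_univ, one_smul]
    exact gauss_neg (fun x => f (κ * s θ * x))
  simp only [e1, e2] at key
  exact key

end Pool.Agent.H439.MC
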