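import Mathlib
import Pool.Agent.H439.MC.Dyn2

/-!
# The central limit theorem along the critical orbit, in the exterior coordinate
-/

set_option autoImplicit false

namespace Pool.Agent.H439.MC

open Complex Set Topology Filter Metric MeasureTheory N62a1eb23 Pool.Agent.H712R2
  Pool.Agent.H713R2 Pool.Agent.TH653.MB ProbabilityTheory BoundedContinuousFunction
open Pool.Agent.Y272.TY (Typ cc rl MM mm rl_pos rl_lt MM_ne_zero log_MM mm_eq deriv_iter)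
open Pool.Agent.W677.Mar (pt)

variable {d : ℕ} {β : ℂ → ℂ}

/-- the external ray of angle `θ` (in radians) lands at `c θ`, for almost every `θ` -/
def LandsAt (ψ : ℂ → ℂ) (c : ℝ → ℂ) : Prop :=
  ∀ᵐ θ : ℝ, Tendsto (fun r : ℝ => ψ (r * exp (θ * I))) (𝓝[>] 1) (𝓝 (c θ))

theorem exists_lands (hd : 2 ≤ d) (hβ : IsBeta d β) {ψ : ℂ → ℂ}
    (hψ : IsExteriorMap (multibrotSet d) ψ) : ∃ c : ℝ → ℂ, LandsAt ψ c := by
  classical
  have h1 := Pool.Agent.Y272.TY.ae_neg' (Pool.Agent.Y272.TY.typical_all hd hβ)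
  refine ⟨fun θ => if h : ∃ ζ, Tendsto (fun r : ℝ => ψ (r * exp (θ * I))) (𝓝[>] 1) (𝓝 ζ) then h.choose else 0, ?_⟩
  filter_upwards [h1] with θ hθ
  obtain ⟨c0, A, R, h⟩ := hθ
  have h2 : ∃ ζ, Tendsto (fun r : ℝ => ψ (r * exp (θ * I))) (𝓝[>] 1) (𝓝 ζ) := ⟨c0, h.tendsto_psi hβ hψ⟩
  rw [dif_pos h2]
  exact h2.choose_spec

theorem tendsto_inv_one : Tendsto (fun ρ : ℝ => ρ⁻¹) (𝓝[<] 1) (𝓝[>] 1) := by
  apply tendsto_nhdsWithin_of_tendsto_nhds_of_eventually_within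
  · have h : Tendsto (fun ρ : ℝ => ρ⁻¹) (𝓝 1) (𝓝 (1 : ℝ)⁻¹) := (continuousAt_inv₀ one_ne_zero).tendsto
    rw [inv_one] at h
    exact h.mono_left nhdsWithin_le_nhds
  · have h5 : ∀ᶠ ρ : ℝ in 𝓝[<] 1, 0 < ρ :=
      mem_nhdsWithin_of_mem_nhds (lt_mem_nhds (by norm_num : (0 : ℝ) < 1))
    filter_upwards [self_mem_nhdsWithin, h5] with ρ h1 h2
    exact (one_lt_inv₀ h2).2 h1

theorem aetyp_of_lands (hd : 2 ≤ d) (hβ : IsBeta d β) {ψ : ℂ → ℂ}
    (hψ : IsExteriorMap (multibrotSet d) ψ) {c : ℝ → ℂ} (hc : LandsAt ψ c) :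
    AETyp d β (fun θ => c (2 * Real.pi - θ)) := by
  apply aetyp_of_land hd hβ
  have h1 : ∀ᵐ θ : ℝ, Tendsto (fun r : ℝ => ψ (r * exp (((2 * Real.pi - θ : ℝ) : ℂ) * I))) (𝓝[>] 1)
      (𝓝 (c (2 * Real.pi - θ))) :=
    (Measure.measurePreserving_sub_left (volume : Measure ℝ) (2 * Real.pi)).quasiMeasurePreserving.ae hc
  filter_upwards [Pm_ac.ae_le h1] with θ hθ
  refine (hθ.comp tendsto_inv_one).congr' ?_
  have h5 : ∀ᶠ ρ : ℝ in 𝓝[<] 1, 0 < ρ :=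
    mem_nhdsWithin_of_mem_nhds (lt_mem_nhds (by norm_num : (0 : ℝ) < 1))
  filter_upwards [self_mem_nhdsWithin, h5] with ρ h2 h3
  have h4 : ρ < 1 := h2
  have hx := circleMap_mem h3 h4 θ
  have hx0 := circleMap_ne h3 θ
  have e1 : ((ρ⁻¹ : ℝ) : ℂ) * exp (((2 * Real.pi - θ : ℝ) : ℂ) * I) = (circleMap 0 ρ θ)⁻¹ := by
    unfold circleMap
    rw [zero_add, mul_inv, ← Complex.exp_neg, Complex.ofReal_inv]
    congr 1
    have h6 : ((2 * Real.pi - θ : ℝ) : ℂ) * I = -(θ * I) + 2 * Real.pi * I := by push_cast; ring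
    rw [h6, Complex.exp_add, Complex.exp_two_pi_mul_I, mul_one]
  simp only [Function.comp_apply]
  rw [e1, exteriorMap_unique hβ hψ (one_lt_norm_inv hx hx0), inv_inv]
  rfl

/-- the derivative of the `n`-th iterate at the critical value -/
theorem deriv_fc_iter (hd : 2 ≤ d) (c : ℂ) (n : ℕ) : deriv ((fun z : ℂ => z ^ d + c)^[n]) c = MM d c (n + 1) :=
  (deriv_iter hd c n).deriv

/-- **the central limit theorem for the critical orbit of a random boundary parameter** -/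
theorem clt_dyn_ext (hd : 2 ≤ d) (hβ : IsBeta d β) :
    ∃ σ : ℝ → ℝ, Measurable σ ∧ (∀ θ, 0 ≤ σ θ) ∧
      IntervalIntegrable (fun θ => σ θ ^ 2) volume 0 (2 * Real.pi) ∧
      0 < ∫ θ in (0 : ℝ)..2 * Real.pi, σ θ ∧
      ∀ ψ : ℂ → ℂ, IsExteriorMap (multibrotSet d) ψ → ∀ c : ℝ → ℂ, LandsAt ψ c →
      ∀ φ : ℝ → ℝ, IntervalIntegrable φ volume 0 (2 * Real.pi) → ∀ f : ℝ →ᵇ ℝ,
      Tendsto (fun n : ℕ => ∫ θ in (0 : ℝ)..2 * Real.pi, φ θ * f (Xn d c n θ)) atTop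
        (𝓝 (∫ θ in (0 : ℝ)..2 * Real.pi, φ θ * ∫ x, f (σ θ * x) ∂(gaussianReal 0 1))) ∧
      Tendsto (fun n : ℕ => ∫ θ in (0 : ℝ)..2 * Real.pi, φ θ * f (Yn d c n θ)) atTop
        (𝓝 (∫ θ in (0 : ℝ)..2 * Real.pi, φ θ * ∫ x, f (σ θ * x) ∂(gaussianReal 0 1))) := by
  obtain ⟨s, hs, hs0, hs2, hpos, h⟩ := clt_dyn hd hβ
  have hpi := two_pi_pos'
  refine ⟨fun θ => s (2 * Real.pi - θ), hs.comp (measurable_const.sub measurable_id), fun θ => hs0 _, ?_, ?_, ?_⟩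
  · rw [← integrable_Pm_iff]
    have h1 : Integrable (fun θ => s θ ^ 2) Pm := hs2.integrable_sq
    have h2 := reflect_int (integrable_Pm_iff.1 h1)
    exact h2
  · have h1 := reflect s
    have h2 : ∫ θ, s (2 * Real.pi - θ) ∂Pm =
        (2 * Real.pi)⁻¹ * ∫ θ in (0 : ℝ)..2 * Real.pi, s (2 * Real.pi - θ) := by
      rw [integral_Pm, smul_eq_mul]
    rw [h2] at h1
    rw [← h1] at hpos
    exact pos_of_mul_pos_right hpos (by positivity)
  · intro ψ hψ c hc φ hφ f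
    have hT := aetyp_of_lands hd hβ hψ hc
    set c' : ℝ → ℂ := fun θ => c (2 * Real.pi - θ) with hc'
    have e1 : ∀ g : ℝ → ℝ, 2 * Real.pi * ∫ θ, g θ ∂Pm = ∫ θ in (0 : ℝ)..2 * Real.pi, g (2 * Real.pi - θ) := by
      intro g
      rw [← reflect g, integral_Pm, smul_eq_mul]
      field_simp
    have e2 : ∀ θ : ℝ, 2 * Real.pi - (2 * Real.pi - θ) = θ := fun θ => by ring
    have e3 : ∀ n θ, Xn d c' n (2 * Real.pi - θ) = Xn d c n θ := by
      intro n θ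
      unfold Xn
      rw [hc']
      simp only [e2]
    have e4 : ∀ n θ, Yn d c' n (2 * Real.pi - θ) = Yn d c n θ := by
      intro n θ
      unfold Yn
      rw [hc']
      simp only [e2]
    constructor
    · have h1 := (h c' hT (Xn d c') (fun n => Xn_meas hβ hT n) (by simp) _ (reflect_int hφ) f).const_mul
        (2 * Real.pi)
      simp only [e1, e2, e3] at h1
      exact h1
    · have h1 := (h c' hT (Yn d c') (fun n => Yn_meas hβ hT n) (YX_close hd hβ hT) _ (reflect_int hφ) f).const_mul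
        (2 * Real.pi)
      simp only [e1, e2, e4] at h1
      exact h1

theorem YX_close_ext (hd : 2 ≤ d) (hβ : IsBeta d β) {ψ : ℂ → ℂ}
    (hψ : IsExteriorMap (multibrotSet d) ψ) {c : ℝ → ℂ} (hc : LandsAt ψ c) :
    Tendsto (fun n : ℕ => ∫ θ in (0 : ℝ)..2 * Real.pi, min 1 |Yn d c n θ - Xn d c n θ|) atTop (𝓝 0) := by
  have hT := aetyp_of_lands hd hβ hψ hc
  have h1 := (YX_close hd hβ hT).const_mul (2 * Real.pi)
  rw [mul_zero] at h1
  refine h1.congr fun n => ?_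
  rw [← reflect (fun θ => min 1 |Yn d (fun θ => c (2 * Real.pi - θ)) n θ - Xn d (fun θ => c (2 * Real.pi - θ)) n θ|),
    integral_Pm, smul_eq_mul]
  have e2 : ∀ θ : ℝ, 2 * Real.pi - (2 * Real.pi - θ) = θ := fun θ => by ring
  have hpi := two_pi_pos'
  have e3 : ∀ θ, Xn d (fun θ => c (2 * Real.pi - θ)) n (2 * Real.pi - θ) = Xn d c n θ := by
    intro θ
    unfold Xn
    simp only [e2]
  have e4 : ∀ θ, Yn d (fun θ => c (2 * Real.pi - θ)) n (2 * Real.pi - θ) = Yn d c n θ := by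
    intro θ
    unfold Yn
    simp only [e2]
  simp only [e3, e4]
  field_simp

end Pool.Agent.H439.MC
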