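import Mathlib
import Pool.Agent.H439.MC.Grid
import Pool.Agent.H439.MC.Cen

/-!
# Growth of the derivatives after time `k`
-/

set_option autoImplicit false

namespace Pool.Agent.H439.MC

open Complex Set Topology Filter Metric MeasureTheory N62a1eb23 Pool.Agent.H712R2
  Pool.Agent.H713R2 Pool.Agent.TH653.MB
open Pool.Agent.Y272.TY (Typ cc rl MM mm rl_pos rl_lt MM_ne_zero log_MM)
open Pool.Agent.W677.Mar (pt)
open scoped ENNReal

variable {d : ℕ} {β : ℂ → ℂ}

/-- the relative deviations at the points of the grid -/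
noncomputable def devF (d k h i : ℕ) (c0 : ℂ) : ℝ :=
  (((d : ℝ) - 1) * ∑ l ∈ Finset.Ico k (k + i * h), Real.log ‖P d (l + 1) c0‖) /
    ((i * h : ℕ) * Real.log d)

theorem gridF (hd : 2 ≤ d) {c0 : ℂ} (hP : ∀ i, P d (i + 1) c0 ≠ 0) (h2 : ∀ k, ‖P d k c0‖ ≤ 2)
    {k h : ℕ} (hh : 1 ≤ h) (hg : ∑ i ∈ Finset.Icc 1 (k / h + 1), devF d k h i c0 ^ 2 ≤ 1 / 4) {j : ℕ}
    (hkj : k ≤ j) (hj : j ≤ 2 * k) :
    Real.log ‖MM d c0 (k + 1)‖ + Real.log d / 2 * ((j : ℝ) - k) - h * Cd d ≤ Real.log ‖MM d c0 (j + 1)‖ := by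
  have hld := logd_pos hd
  have hCd := Cd_pos hd
  have hh0 : (0 : ℝ) < h := by exact_mod_cast hh
  rcases hkj.eq_or_lt with h0 | h0
  · subst h0
    have : 0 < (h : ℝ) * Cd d := by positivity
    rw [sub_self, mul_zero]
    linarith
  set m := j - k with hm
  set i := (m - 1) / h + 1 with hi
  have hi1 : 1 ≤ i := Nat.le_add_left 1 _
  have hi2 : i ≤ k / h + 1 := by
    rw [hi]
    have : (m - 1) / h ≤ k / h := Nat.div_le_div_right (by omega)
    omega
  have e1 : (i - 1) * h ≤ m - 1 := by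
    rw [hi, Nat.add_sub_cancel]
    exact Nat.div_mul_le_self _ _
  have e2 : m - 1 < i * h := by
    rw [hi]
    have := Nat.lt_div_mul_add (a := m - 1) (b := h) (by omega)
    rw [add_mul, one_mul]
    exact this
  have e4 : i * h = (i - 1) * h + h := by
    obtain ⟨a, ha⟩ : ∃ a, i = a + 1 := ⟨i - 1, by omega⟩
    rw [ha, Nat.add_sub_cancel, add_mul, one_mul]
  have hj' : j ≤ k + i * h := by omega
  have k1 := D_step hd hP h2 hj'
  have k2 := D_sub hd hP (Nat.le_add_right k (i * h))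
  have hdev : devF d k h i c0 ^ 2 ≤ 1 / 4 := by
    refine le_trans ?_ hg
    exact Finset.single_le_sum (f := fun i => devF d k h i c0 ^ 2) (fun i _ => sq_nonneg _)
      (Finset.mem_Icc.2 ⟨hi1, hi2⟩)
  have hg0 : (0 : ℝ) < (i * h : ℕ) := by exact_mod_cast (by omega : 0 < i * h)
  have h5 : |devF d k h i c0| ≤ 1 / 2 := by
    apply abs_le_of_sq_le_sq _ (by norm_num)
    linarith
  unfold devF at h5
  rw [abs_div, abs_of_pos (by positivity : 0 < ((i * h : ℕ) : ℝ) * Real.log d), div_le_iff₀ (by positivity)] at h5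
  have k4 := (abs_le.1 h5).1
  rw [Nat.add_sub_cancel_left] at k2
  have k5 : ((k + i * h - j : ℕ) : ℝ) ≤ h := by exact_mod_cast (by omega : k + i * h - j ≤ h)
  have k6 := mul_le_mul_of_nonneg_right k5 hCd.le
  have k7 : (j : ℝ) - k ≤ (i * h : ℕ) := by
    have : (j : ℝ) ≤ ((k + i * h : ℕ) : ℝ) := by exact_mod_cast hj'
    rw [Nat.cast_add] at this
    linarith
  have k8 := mul_le_mul_of_nonneg_left k7 (by positivity : 0 ≤ Real.log d / 2)
  linarith

/-- the mean of the sum of the squares of the relative deviations -/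
theorem devF_mean (hd : 2 ≤ d) (hβ : IsBeta d β) : ∃ C : ℝ, 0 < C ∧ ∀ c : ℝ → ℂ, AETyp d β c →
    ∀ k h : ℕ, 1 ≤ k → 1 ≤ h →
    Integrable (fun θ => ∑ i ∈ Finset.Icc 1 (k / h + 1), devF d k h i (c θ) ^ 2) Pm ∧
    ∫ θ, ∑ i ∈ Finset.Icc 1 (k / h + 1), devF d k h i (c θ) ^ 2 ∂Pm ≤
      C * ((2 + Real.log (k + 1)) / h + 1 / k) := by
  obtain ⟨C, hC, hT⟩ := T_sq hd hβ
  have hld := logd_pos hd
  have hd1 : (0 : ℝ) < (d : ℝ) - 1 := by
    have : (2 : ℝ) ≤ d := by exact_mod_cast hd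
    linarith
  refine ⟨((d : ℝ) - 1) ^ 2 * C / Real.log d ^ 2, by positivity, ?_⟩
  intro c hc k h hk hh
  have hk0 : (0 : ℝ) < k := by exact_mod_cast hk
  have hh0 : (0 : ℝ) < h := by exact_mod_cast hh
  have e0 : ∀ i, (fun θ => devF d k h i (c θ) ^ 2) = fun θ =>
        (((d : ℝ) - 1) ^ 2 / ((i * h : ℕ) * Real.log d) ^ 2) *
          (∑ l ∈ Finset.Ico k (k + i * h), Real.log ‖P d (l + 1) (c θ)‖) ^ 2 := by
    intro i
    funext θ
    unfold devF
    rw [div_pow, mul_pow]
    ring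
  have hterm : ∀ i, Integrable (fun θ => devF d k h i (c θ) ^ 2) Pm := by
    intro i
    rw [e0]
    exact (hT c hc _).1.const_mul _
  refine ⟨integrable_finsetSum _ fun i _ => hterm i, ?_⟩
  rw [integral_finsetSum _ fun i _ => hterm i]
  have hk : ∀ i ∈ Finset.Icc 1 (k / h + 1), ∫ θ, devF d k h i (c θ) ^ 2 ∂Pm ≤
      ((d : ℝ) - 1) ^ 2 * C / Real.log d ^ 2 * (1 / h * (1 / i)) := by
    intro i hi
    rw [Finset.mem_Icc] at hi
    have hi0 : (0 : ℝ) < i := by exact_mod_cast hi.1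
    rw [e0, integral_const_mul]
    have e2 := (hT c hc (Finset.Ico k (k + i * h))).2
    rw [Nat.card_Ico, Nat.add_sub_cancel_left] at e2
    push_cast at e2 ⊢
    calc ((d : ℝ) - 1) ^ 2 / (i * h * Real.log d) ^ 2 *
          ∫ θ, (∑ l ∈ Finset.Ico k (k + i * h), Real.log ‖P d (l + 1) (c θ)‖) ^ 2 ∂Pm
        ≤ ((d : ℝ) - 1) ^ 2 / (i * h * Real.log d) ^ 2 * (C * (i * h)) :=
          mul_le_mul_of_nonneg_left e2 (by positivity)
      _ = _ := by field_simp
  refine (Finset.sum_le_sum hk).trans ?_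
  rw [← Finset.mul_sum]
  apply mul_le_mul_of_nonneg_left _ (by positivity)
  rw [← Finset.mul_sum]
  have s1 := sum_inv_le (k / h + 1) (Nat.le_add_left 1 _)
  have s2 : ((k / h : ℕ) : ℝ) ≤ k / h := Nat.cast_div_le
  have s3 : (k : ℝ) / h ≤ k := div_le_self hk0.le (by exact_mod_cast hh)
  have s4 : Real.log ((k / h + 1 : ℕ) : ℝ) ≤ Real.log (k + 1) := by
    apply Real.log_le_log (by positivity)
    push_cast
    linarith
  have s5 : 1 / (h : ℝ) * ∑ k ∈ Finset.Icc 1 (k / h + 1), (1 : ℝ) / k ≤ 1 / h * (2 + Real.log (k + 1)) :=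
    mul_le_mul_of_nonneg_left (s1.trans (by linarith)) (by positivity)
  have s7 : (2 + Real.log (k + 1)) / h = 1 / (h : ℝ) * (2 + Real.log (k + 1)) := by ring
  rw [s7]
  have : 0 < 1 / (k : ℝ) := by positivity
  linarith

/-- the growth after time `2 k` -/
theorem far (hd : 2 ≤ d) {θ : ℝ} {c0 : ℂ} {A : ℝ} {R : ℂ} (h : Typ d β θ c0 A R) :
    ∀ᶠ k : ℕ in atTop, ∀ j, 2 * k ≤ j →
      Real.log ‖MM d c0 (k + 1)‖ + Real.log d / 2 * ((j : ℝ) - k) ≤ Real.log ‖MM d c0 (j + 1)‖ := by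
  have hld := logd_pos hd
  obtain ⟨K, hK, hlow⟩ := h.low hd (by positivity : 0 < Real.log d / 16)
  have hup : ∀ᶠ n : ℕ in atTop, Real.log ‖MM d c0 (n + 1)‖ ≤ n * Real.log d + Real.log d / 16 * n := by
    have h1 := h.lilM hd
    have h2 : Tendsto (fun x : ℝ => Real.log (Real.log x) / x) atTop (𝓝 0) := by
      have g2 := Real.isLittleO_log_id_atTop.tendsto_div_nhds_zero
      have g3 := g2.comp Real.tendsto_log_atTop
      have g4 := g3.mul g2
      rw [zero_mul] at g4
      refine g4.congr' ?_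
      filter_upwards [eventually_gt_atTop 1] with x hx
      have : 0 < Real.log x := Real.log_pos hx
      simp only [Function.comp_apply, id]
      field_simp
    have h3 := (h2.comp (tendsto_natCast_atTop_atTop (R := ℝ))).eventually
      (gt_mem_nhds (by positivity : (0 : ℝ) < Real.log d / 512 ^ 2))
    filter_upwards [h1, h3, eventually_ge_atTop 1] with n g1 g3 g4
    have hn0 : (0 : ℝ) < n := by exact_mod_cast g4
    simp only [Function.comp_apply] at g3
    rw [div_lt_div_iff₀ hn0 (by positivity)] at g3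
    have g5 : √(n * Real.log d * Real.log (Real.log n)) ≤ Real.log d / 512 * n := by
      apply Real.sqrt_le_iff.2
      constructor
      · positivity
      · have : n * Real.log d * (Real.log (Real.log n) * 512 ^ 2) ≤ n * Real.log d * (Real.log d * n) :=
          mul_le_mul_of_nonneg_left g3.le (by positivity)
        nlinarith
    have g6 := (abs_le.1 g1).2
    linarith
  obtain ⟨N, hN⟩ := eventually_atTop.1 hup
  obtain ⟨M, hM⟩ := exists_nat_gt (K / (Real.log d / 4))
  filter_upwards [eventually_ge_atTop N, eventually_ge_atTop M] with k hk1 hk2 j hj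
  have h1 := hN k hk1
  have h2 := hlow j
  have hj' : 2 * (k : ℝ) ≤ j := by exact_mod_cast hj
  have hM' : (M : ℝ) ≤ k := by exact_mod_cast hk2
  rw [div_lt_iff₀ (by positivity)] at hM
  have h3 : K ≤ k * (Real.log d / 4) := by
    have := mul_le_mul_of_nonneg_right hM' (by positivity : 0 ≤ Real.log d / 4)
    linarith
  have h4 : Real.log d * (7 / 16) * (2 * k) ≤ Real.log d * (7 / 16) * j :=
    mul_le_mul_of_nonneg_left hj' (by positivity)
  linarith

/-- almost sure properties are true with probability close to one -/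
theorem ev_small {p : ℕ → ℝ → Prop} (hm : ∀ k, NullMeasurableSet {θ | p k θ} Pm)
    (h : ∀ᵐ θ ∂Pm, ∀ᶠ k in atTop, p k θ) : Tendsto (fun k => Pm {θ | ¬ p k θ}) atTop (𝓝 0) := by
  have h1 : ∀ k, Pm {θ | ¬ p k θ} = ∫⁻ θ, ({θ | ¬ p k θ}.indicator (fun _ => (1 : ℝ≥0∞))) θ ∂Pm := by
    intro k
    exact (lintegral_indicator_one₀ (hm k).compl).symm
  have h2 : Tendsto (fun k => ∫⁻ θ, ({θ | ¬ p k θ}.indicator (fun _ => (1 : ℝ≥0∞))) θ ∂Pm) atTop
      (𝓝 (∫⁻ θ, 0 ∂Pm)) := by
    apply tendsto_lintegral_of_dominated_convergence' (fun _ => (1 : ℝ≥0∞))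
    · intro k
      exact (aemeasurable_const.indicator₀ (hm k).compl)
    · intro k
      refine Eventually.of_forall fun θ => ?_
      exact Set.indicator_le_self' (fun _ _ => zero_le) θ
    · rw [lintegral_one]
      exact measure_ne_top _ _
    · filter_upwards [h] with θ hθ
      apply tendsto_const_nhds.congr'
      filter_upwards [hθ] with k hk
      rw [Set.indicator_of_notMem]
      exact fun h => h hk
  rw [lintegral_zero] at h2
  exact h2.congr fun k => (h1 k).symm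

end Pool.Agent.H439.MC
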