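import Mathlib
import Pool.Graph.R_seed8.Helper265.BrK
import Pool.Agent.H439.MC.Ext

/-!
# The distance from the Multibrot set
-/

set_option autoImplicit false

namespace Pool.Agent.H439.MC

open Complex Set Topology Filter Metric MeasureTheory Bornology N62a1eb23 Pool.Agent.H712R2
  Pool.Agent.H713R2 Pool.Agent.TH653.MB ProbabilityTheory BoundedContinuousFunction

variable {d : ℕ} {β : ℂ → ℂ}

theorem deriv_ext_ne (hβ : IsBeta d β) {ψ : ℂ → ℂ} (hψ : IsExteriorMap (multibrotSet d) ψ) {z : ℂ}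
    (hz : 1 < ‖z‖) : deriv ψ z ≠ 0 := by
  rw [deriv_ext hβ hψ hz]
  exact qq_ne hβ (inv_mem_ball hz).1

/-- the distance from the set is comparable with the derivative -/
theorem dist_bounds (hd : 2 ≤ d) (hβ : IsBeta d β) : ∃ c : ℝ, 0 < c ∧ ∀ ψ : ℂ → ℂ,
    IsExteriorMap (multibrotSet d) ψ → ∀ z : ℂ, 1 < ‖z‖ →
    c * ((‖z‖ - 1) * ‖deriv ψ z‖) ≤ infDist (ψ z) (multibrotSet d) ∧
    c * infDist (ψ z) (multibrotSet d) ≤ (‖z‖ - 1) * ‖deriv ψ z‖ ∧
    0 < infDist (ψ z) (multibrotSet d) := by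
  obtain ⟨c, hc, h⟩ := Pool.Agent.Helper265.Br.koebe_omit
  have hcomp := isCompact_multibrot hd
  have hne : (multibrotSet d).Nonempty := by
    refine ⟨0, ?_⟩
    change ¬ Tendsto _ _ _
    have h1 : ∀ k, (fun z : ℂ => z ^ d + 0)^[k] 0 = 0 := by
      intro k
      induction k with
      | zero => rfl
      | succ k ih => rw [Function.iterate_succ_apply', ih, zero_pow (by omega), add_zero]
    simp only [h1]
    intro h2
    have h3 := h2.eventually (eventually_ne_cobounded (0 : ℂ))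
    obtain ⟨k, hk⟩ := h3.exists
    exact hk rfl
  refine ⟨c, hc, ?_⟩
  intro ψ hψ z hz
  have hz0 : z ≠ 0 := by
    rintro rfl
    rw [norm_zero] at hz
    linarith
  have hr : 0 < ‖z‖ - 1 := by linarith
  have hsub : ball z (‖z‖ - 1) ⊆ {w : ℂ | 1 < ‖w‖} := by
    intro w hw
    rw [mem_ball, dist_eq_norm] at hw
    have h1 : ‖z‖ ≤ ‖w‖ + ‖w - z‖ := by
      have : z = w - (w - z) := by ring
      calc ‖z‖ = ‖w - (w - z)‖ := by rw [← this]
        _ ≤ _ := norm_sub_le _ _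
    change 1 < ‖w‖
    linarith
  have hmem : ψ z ∈ (multibrotSet d)ᶜ := by
    rw [← hψ.image]
    exact mem_image_of_mem ψ hz
  have hpos : 0 < infDist (ψ z) (multibrotSet d) :=
    (hcomp.isClosed.notMem_iff_infDist_pos hne).1 hmem
  refine ⟨?_, ?_, hpos⟩
  · rw [le_infDist hne]
    intro a ha
    have h1 := h ψ z (‖z‖ - 1) hr (hψ.diff.mono hsub) (hψ.inj.mono hsub) a (by
      intro h2
      have h3 : a ∈ (multibrotSet d)ᶜ := by
        rw [← hψ.image]
        exact image_mono hsub h2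
      exact h3 ha)
    rw [dist_eq_norm]
    calc _ = c * (‖z‖ - 1) * ‖deriv ψ z‖ := by ring
      _ ≤ _ := h1
  · set D := infDist (ψ z) (multibrotSet d) with hD
    have hbs : ball (ψ z) D ⊆ ψ '' {w : ℂ | 1 < ‖w‖} := by
      rw [hψ.image]
      intro w hw hw2
      have h1 := infDist_le_dist_of_mem (x := ψ z) hw2
      rw [mem_ball, dist_comm] at hw
      linarith
    set φ : ℂ → ℂ := Function.invFunOn ψ {w : ℂ | 1 < ‖w‖} with hφ
    have hφd : DifferentiableOn ℂ φ (ball (ψ z) D) := fun w hw =>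
      (Pool.Agent.Helper202.Univ.differentiableAt_inv isOpen_ext hψ.diff hψ.inj (hbs hw)).differentiableWithinAt
    have hφi : InjOn φ (ball (ψ z) D) := by
      intro w hw w' hw' he
      have h1 := Pool.Agent.Helper202.Univ.invFunOn_right (hbs hw)
      have h2 := Pool.Agent.Helper202.Univ.invFunOn_right (hbs hw')
      rw [← h1, ← h2]
      exact congrArg ψ he
    have hφz : φ (ψ z) = z := Pool.Agent.Helper202.Univ.invFunOn_left hψ.inj hz
    have hder : deriv φ (ψ z) = (deriv ψ z)⁻¹ :=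
      (Pool.Agent.Helper202.Univ.hasDerivAt_inv_of_ne isOpen_ext hψ.diff hψ.inj hz
        (deriv_ext_ne hβ hψ hz)).deriv
    have h1 := h φ (ψ z) D hpos hφd hφi ((1 / ‖z‖ : ℝ) • z) (by
      rintro ⟨w, hw, hwe⟩
      have h2 : 1 < ‖φ w‖ := Pool.Agent.Helper202.Univ.invFunOn_mem (hbs hw)
      rw [hwe, norm_smul, Real.norm_of_nonneg (by positivity)] at h2
      have h3 : 1 / ‖z‖ * ‖z‖ = 1 := by field_simp
      linarith)
    rw [hφz, hder, norm_inv] at h1
    have h2 : ‖z - (1 / ‖z‖ : ℝ) • z‖ = ‖z‖ - 1 := by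
      have h3 : z - (1 / ‖z‖ : ℝ) • z = ((1 - 1 / ‖z‖ : ℝ)) • z := by rw [sub_smul, one_smul]
      rw [h3, norm_smul, Real.norm_of_nonneg, sub_mul, one_mul]
      · field_simp
      · rw [sub_nonneg, div_le_one (by linarith)]
        exact hz.le
    rw [h2] at h1
    have h3 : 0 < ‖deriv ψ z‖ := norm_pos_iff.2 (deriv_ext_ne hβ hψ hz)
    calc c * D = (c * D * ‖deriv ψ z‖⁻¹) * ‖deriv ψ z‖ := by field_simp
      _ ≤ _ := mul_le_mul_of_nonneg_right h1 h3.le

/-- the normalised logarithm of the distance from the Multibrot set, and the normalised argument of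
the derivative, on the circle of radius `R` -/
noncomputable def Xd (d : ℕ) (ψ L : ℂ → ℂ) (R θ : ℝ) : ℂ :=
  (Real.log (infDist (ψ (R * exp (θ * I))) (multibrotSet d) / (R - 1)) +
    (L (R * exp (θ * I))).im * I) / √(Real.log (1 / (R - 1)))

theorem one_lt_norm_pt {R : ℝ} (hR : 1 < R) (θ : ℝ) : 1 < ‖(R : ℂ) * exp (θ * I)‖ := by
  rw [norm_mul, norm_exp_ofReal_mul_I, mul_one, Complex.norm_real, Real.norm_of_nonneg (by linarith)]
  exact hR

theorem norm_pt' {R : ℝ} (hR : 1 < R) (θ : ℝ) : ‖(R : ℂ) * exp (θ * I)‖ = R := by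
  rw [norm_mul, norm_exp_ofReal_mul_I, mul_one, Complex.norm_real, Real.norm_of_nonneg (by linarith)]

theorem Xd_meas {ψ L : ℂ → ℂ} (hψ : IsExteriorMap (multibrotSet d) ψ) (hL : IsLogDeriv ψ L) {R : ℝ}
    (hR : 1 < R) : Measurable (Xd d ψ L R) := by
  have h1 : Continuous fun θ : ℝ => ψ (R * exp (θ * I)) :=
    hψ.diff.continuousOn.comp_continuous (by fun_prop) (one_lt_norm_pt hR)
  have h2 : Continuous fun θ : ℝ => L (R * exp (θ * I)) :=
    hL.diff.continuousOn.comp_continuous (by fun_prop) (one_lt_norm_pt hR)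
  have h3 : Continuous fun θ : ℝ => infDist (ψ (R * exp (θ * I))) (multibrotSet d) :=
    (continuous_infDist_pt _).comp h1
  have h4 : Measurable fun θ : ℝ => infDist (ψ (R * exp (θ * I))) (multibrotSet d) := h3.measurable
  have h5 : Measurable fun θ : ℝ => (L (R * exp (θ * I))).im := (continuous_im.comp h2).measurable
  unfold Xd
  exact ((Complex.measurable_ofReal.comp (Real.measurable_log.comp (h4.div_const _))).add
    ((Complex.measurable_ofReal.comp h5).mul_const _)).div_const _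

theorem sqrtL_tendsto : Tendsto (fun R : ℝ => √(Real.log (1 / (R - 1)))) (𝓝[>] 1) atTop := by
  have h1 := Real.tendsto_sqrt_atTop.comp (Lr_tendsto.comp tendsto_one_div)
  refine h1.congr fun R => ?_
  simp only [Function.comp_apply, Lr, one_div_one_div]

theorem Xd_close (hd : 2 ≤ d) (hβ : IsBeta d β) {ψ L : ℂ → ℂ} (hψ : IsExteriorMap (multibrotSet d) ψ)
    (hL : IsLogDeriv ψ L) : Tendsto (fun R => ∫ θ, min 1 ‖Xd d ψ L R θ - Xe L R θ‖ ∂Pm) (𝓝[>] 1) (𝓝 0) := by
  obtain ⟨c, hc, h⟩ := dist_bounds hd hβ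
  have h1 : Tendsto (fun R : ℝ => |Real.log c| / √(Real.log (1 / (R - 1)))) (𝓝[>] 1) (𝓝 0) :=
    tendsto_const_nhds.div_atTop sqrtL_tendsto
  apply squeeze_zero' _ _ h1
  · exact Eventually.of_forall fun R => integral_nonneg fun θ => le_min zero_le_one (norm_nonneg _)
  · filter_upwards [self_mem_nhdsWithin, sqrtL_tendsto.eventually_gt_atTop 0] with R hR hs
    have hR1 : (1 : ℝ) < R := hR
    have hpt : ∀ θ, ‖Xd d ψ L R θ - Xe L R θ‖ ≤ |Real.log c| / √(Real.log (1 / (R - 1))) := by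
      intro θ
      have hz := one_lt_norm_pt hR1 θ
      have hn := norm_pt' hR1 θ
      set z : ℂ := (R : ℂ) * exp (θ * I) with hz'
      obtain ⟨k1, k2, k3⟩ := h ψ hψ z hz
      rw [hn] at k1 k2
      have k4 : 0 < R - 1 := by linarith
      have k5 : 0 < ‖deriv ψ z‖ := norm_pos_iff.2 (deriv_ext_ne hβ hψ hz)
      have k6 : (L z).re = Real.log ‖deriv ψ z‖ := by
        rw [← hL.exp z hz, Complex.norm_exp, Real.log_exp]
      have k7 : |Real.log (infDist (ψ z) (multibrotSet d) / (R - 1)) - (L z).re| ≤ |Real.log c| := by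
        rw [k6, ← Real.log_div (by positivity) k5.ne']
        have g1 : c ≤ infDist (ψ z) (multibrotSet d) / (R - 1) / ‖deriv ψ z‖ := by
          rw [div_div, le_div_iff₀ (by positivity)]
          exact k1
        have g2 : infDist (ψ z) (multibrotSet d) / (R - 1) / ‖deriv ψ z‖ ≤ c⁻¹ := by
          rw [div_div, div_le_iff₀ (by positivity), le_inv_mul_iff₀ hc]
          exact k2
        have g3 := Real.log_le_log hc g1
        have g4 := Real.log_le_log (by positivity) g2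
        rw [Real.log_inv] at g4
        rw [abs_le]
        constructor
        · linarith [neg_abs_le (Real.log c)]
        · linarith [neg_abs_le (Real.log c)]
      have e1 : Xd d ψ L R θ - Xe L R θ =
          (((Real.log (infDist (ψ z) (multibrotSet d) / (R - 1)) - (L z).re) / √(Real.log (1 / (R - 1))) : ℝ) : ℂ) := by
        unfold Xd Xe
        rw [← hz']
        nth_rewrite 2 [← Complex.re_add_im (L z)]
        push_cast
        ring
      rw [e1, Complex.norm_real, Real.norm_eq_abs, abs_div, abs_of_pos hs]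
      exact div_le_div_of_nonneg_right k7 hs.le
    calc ∫ θ, min 1 ‖Xd d ψ L R θ - Xe L R θ‖ ∂Pm ≤ ∫ _θ, |Real.log c| / √(Real.log (1 / (R - 1))) ∂Pm := by
          apply integral_mono (int_min ((Xd_meas hψ hL hR1).sub (Xe_cont hL.diff hR1).measurable).aemeasurable)
            (integrable_const _)
          intro θ
          exact (min_le_right _ _).trans (hpt θ)
      _ = _ := by simp

/-- **both central limit theorems** -/
theorem clt_both (hd : 2 ≤ d) (hβ : IsBeta d β) :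
    ∃ σ : ℝ → ℝ, Measurable σ ∧ (∀ θ, 0 ≤ σ θ) ∧
      IntervalIntegrable (fun θ => σ θ ^ 2) volume 0 (2 * Real.pi) ∧
      0 < ∫ θ in (0 : ℝ)..2 * Real.pi, σ θ ∧
      ∀ ψ : ℂ → ℂ, IsExteriorMap (multibrotSet d) ψ → ∀ L : ℂ → ℂ, IsLogDeriv ψ L →
      ∀ φ : ℝ → ℝ, IntervalIntegrable φ volume 0 (2 * Real.pi) → ∀ f : ℂ →ᵇ ℝ,
      Tendsto (fun R : ℝ => ∫ θ in (0 : ℝ)..2 * Real.pi, φ θ * f (Xe L R θ)) (𝓝[>] 1)
        (𝓝 (∫ θ in (0 : ℝ)..2 * Real.pi, φ θ *
          ∫ x, ∫ y, f (σ θ * (x + y * I)) ∂(gaussianReal 0 1) ∂(gaussianReal 0 1))) ∧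
      Tendsto (fun R : ℝ => ∫ θ in (0 : ℝ)..2 * Real.pi, φ θ * f (Xd d ψ L R θ)) (𝓝[>] 1)
        (𝓝 (∫ θ in (0 : ℝ)..2 * Real.pi, φ θ *
          ∫ x, ∫ y, f (σ θ * (x + y * I)) ∂(gaussianReal 0 1) ∂(gaussianReal 0 1))) := by
  obtain ⟨σ, h1, h2, h3, h4, h5⟩ := clt_ext_gen hd hβ
  refine ⟨σ, h1, h2, h3, h4, ?_⟩
  intro ψ hψ L hL φ hφ f
  constructor
  · apply h5 ψ hψ L hL (Xe L) _ _ φ hφ f
    · filter_upwards [self_mem_nhdsWithin] with R hR
      exact (Xe_cont hL.diff hR).measurable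
    · simp
  · apply h5 ψ hψ L hL (Xd d ψ L) _ (Xd_close hd hβ hψ hL) φ hφ f
    filter_upwards [self_mem_nhdsWithin] with R hR
    exact Xd_meas hψ hL hR

end Pool.Agent.H439.MC
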