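import Mathlib
import Pool.Agent.H439.MC.Grid

/-!
# The rate of landing of the rays, in terms of the derivatives along the critical orbit
-/

set_option autoImplicit false

namespace Pool.Agent.H439.MC

open Complex Set Topology Filter Metric MeasureTheory N62a1eb23 Pool.Agent.H712R2
  Pool.Agent.H713R2 Pool.Agent.TH653.MB
open Pool.Agent.Y272.TY (Typ cc rl MM mm rl_pos rl_lt MM_ne_zero log_MM one_sub_rl_le rl_mono
  ratio_rl one_sub_rl_pos log_sq_small)
open Pool.Agent.W677.Mar (pt)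

variable {d : ℕ} {β : ℂ → ℂ}

theorem pt_mem {ρ : ℝ} (h0 : 0 < ρ) (h1 : ρ < 1) (θ : ℝ) : pt ρ θ ∈ ball (0 : ℂ) 1 ∧ pt ρ θ ≠ 0 := by
  have h2 : ‖pt ρ θ‖ = ρ := Pool.Agent.W677.Mar.norm_pt ρ θ h0.le
  constructor
  · rw [mem_ball_zero_iff, h2]
    exact h1
  · rw [← norm_pos_iff, h2]
    exact h0

theorem cc_deriv_pos (hβ : IsBeta d β) {x : ℂ} (hx : x ∈ ball (0 : ℂ) 1) (hx0 : x ≠ 0) :
    0 < ‖deriv (cc β) x‖ := by
  rw [deriv_cc hβ hx hx0, norm_pos_iff]
  apply mul_ne_zero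
  · exact neg_ne_zero.2 (inv_ne_zero (pow_ne_zero 2 hx0))
  · exact qq_ne hβ hx

theorem cc_diffAt (hβ : IsBeta d β) {x : ℂ} (hx : x ∈ ball (0 : ℂ) 1) (hx0 : x ≠ 0) :
    DifferentiableAt ℂ (cc β) x := by
  by_contra h
  have h1 := cc_deriv_pos hβ hx hx0
  rw [deriv_zero_of_not_differentiableAt h, norm_zero] at h1
  exact lt_irrefl _ h1

theorem log_five : Real.log 5 ≤ 2 := by
  have : Real.log 5 ≤ Real.log (Real.exp 2) := by
    apply Real.log_le_log (by norm_num)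
    have e : Real.exp 2 = Real.exp 1 * Real.exp 1 := by rw [← Real.exp_add]; norm_num
    have h' := Real.exp_one_gt_d9
    rw [e]
    nlinarith
  rwa [Real.log_exp] at this

/-- the constant -/
noncomputable def Kr (d : ℕ) : ℝ := 6 * (2 + Real.log d) + 8

/-- one step along the ray -/
theorem ray_step (hd : 2 ≤ d) (hβ : IsBeta d β) (θ : ℝ) (j : ℕ) :
    ‖cc β (pt (rl d (j + 1)) θ) - cc β (pt (rl d j) θ)‖ ≤
      4 * Real.exp (Kr d) * (‖deriv (cc β) (pt (rl d j) θ)‖ / (d : ℝ) ^ j) := by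
  have hd0 : (0 : ℝ) < d := by exact_mod_cast (by omega : 0 < d)
  have hmono : rl d j ≤ rl d (j + 1) := rl_mono hd (Nat.le_succ j)
  have hpos : ∀ s ∈ Icc (rl d j) (rl d (j + 1)), 0 < s ∧ s < 1 := fun s hs =>
    ⟨(rl_pos d j).trans_le hs.1, hs.2.trans_lt (rl_lt hd _)⟩
  have hder : ∀ s ∈ Icc (rl d j) (rl d (j + 1)), HasDerivWithinAt (fun s : ℝ => cc β (pt s θ))
      (deriv (cc β) (pt s θ) * exp (θ * I)) (Icc (rl d j) (rl d (j + 1))) s := by
    intro s hs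
    obtain ⟨h0, h1⟩ := hpos s hs
    obtain ⟨h2, h3⟩ := pt_mem h0 h1 θ
    have h4 := (cc_diffAt hβ h2 h3).hasDerivAt
    have h5 : HasDerivAt (fun s : ℝ => pt s θ) (exp (θ * I)) s := by
      have h6 : HasDerivAt (fun s : ℝ => (s : ℂ) * exp (θ * I)) (1 * exp (θ * I)) s :=
        (Complex.ofRealCLM.hasDerivAt (x := s)).mul_const _
      rw [one_mul] at h6
      refine h6.congr_of_eventuallyEq (Eventually.of_forall fun t => ?_)
      simp [pt, circleMap]
    exact (h4.comp_of_eq s h5 rfl).hasDerivWithinAt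
  have hb : ∀ s ∈ Ico (rl d j) (rl d (j + 1)), ‖deriv (cc β) (pt s θ) * exp (θ * I)‖ ≤
      Real.exp (Kr d) * ‖deriv (cc β) (pt (rl d j) θ)‖ := by
    intro s hs
    obtain ⟨h0, h1⟩ := hpos s ⟨hs.1, hs.2.le⟩
    obtain ⟨h2, h3⟩ := pt_mem h0 h1 θ
    obtain ⟨h4, h5⟩ := pt_mem (rl_pos d j) (rl_lt hd j) θ
    rw [norm_mul, norm_exp_ofReal_mul_I, mul_one]
    have k1 := cc_deriv_pos hβ h2 h3
    have k2 := cc_deriv_pos hβ h4 h5
    have k3 := Pool.Agent.Y288.TY.t_BLip d β hd hβ θ (rl d j) s (rl_mono hd (Nat.zero_le _)) hs.1 h1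
    have k4 : (1 - rl d j) / (1 - s) ≤ 5 * (d : ℝ) ^ 1 := by
      refine le_trans ?_ (ratio_rl hd j 1)
      exact div_le_div_of_nonneg_left (one_sub_rl_pos hd j).le (one_sub_rl_pos hd _) (by linarith [hs.2])
    have k5 := Real.log_le_log (div_pos (one_sub_rl_pos hd j) (by linarith)) k4
    rw [pow_one, Real.log_mul (by norm_num) hd0.ne'] at k5
    have k6 := log_five
    have k7 := (abs_le.1 k3).2
    rw [← Real.exp_log k1, ← Real.exp_log k2, ← Real.exp_add]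
    apply Real.exp_le_exp.2
    unfold Kr
    linarith
  have h1 := norm_image_sub_le_of_norm_deriv_le_segment' hder hb (rl d (j + 1)) ⟨hmono, le_rfl⟩
  have h2 : rl d (j + 1) - rl d j ≤ 4 / (d : ℝ) ^ j := by
    have h3 := one_sub_rl_le hd j
    rw [← le_div_iff₀ (by positivity)] at h3
    linarith [rl_lt hd (j + 1)]
  calc _ ≤ Real.exp (Kr d) * ‖deriv (cc β) (pt (rl d j) θ)‖ * (rl d (j + 1) - rl d j) := h1
    _ ≤ Real.exp (Kr d) * ‖deriv (cc β) (pt (rl d j) θ)‖ * (4 / (d : ℝ) ^ j) := by gcongr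
    _ = _ := by ring

theorem log_sq_le {A ε : ℝ} (hA : 0 ≤ A) (hε : 0 < ε) :
    ∃ K : ℝ, 0 ≤ K ∧ ∀ j : ℕ, A * Real.log ((j : ℝ) + 2) ^ 2 ≤ ε * √(j : ℝ) + K := by
  obtain ⟨N, hN⟩ := eventually_atTop.1 (log_sq_small (A / ε))
  have hnn : ∀ j : ℕ, 0 ≤ A * Real.log ((j : ℝ) + 2) ^ 2 := fun j => by positivity
  refine ⟨∑ j ∈ Finset.range N, A * Real.log ((j : ℝ) + 2) ^ 2, Finset.sum_nonneg fun j _ => hnn j, ?_⟩
  intro j
  rcases lt_or_ge j N with h | h
  · have h1 := Finset.single_le_sum (f := fun j : ℕ => A * Real.log ((j : ℝ) + 2) ^ 2)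
      (fun i _ => hnn i) (Finset.mem_range.2 h)
    have h2 : 0 ≤ ε * √(j : ℝ) := by positivity
    linarith
  · have h1 := hN j h
    have h2 : A * Real.log ((j : ℝ) + 2) ^ 2 ≤ ε * √(j : ℝ) := by
      have h3 : ε * (A / ε * Real.log ((j : ℝ) + 2) ^ 2) ≤ ε * √(j : ℝ) :=
        mul_le_mul_of_nonneg_left h1 hε.le
      have e : ε * (A / ε * Real.log ((j : ℝ) + 2) ^ 2) = A * Real.log ((j : ℝ) + 2) ^ 2 := by
        field_simp
      linarith
    have h3 := Finset.sum_nonneg (s := Finset.range N) fun j _ => hnn j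
    linarith

/-- **the distance from the point at level `k` of the ray to the landing point** -/
theorem ray_dist (hd : 2 ≤ d) (hβ : IsBeta d β) {θ : ℝ} {c0 : ℂ} {A : ℝ} {R : ℂ}
    (h : Typ d β θ c0 A R) {ε : ℝ} (hε : 0 < ε) (hε1 : ε ≤ Real.log d / 4) :
    ∃ K : ℝ, ∀ (k : ℕ) (H : ℝ), (∀ j, k ≤ j → Real.log ‖MM d c0 (k + 1)‖ +
        Real.log d / 2 * ((j : ℝ) - k) - H ≤ Real.log ‖MM d c0 (j + 1)‖) →
      ‖cc β (pt (rl d k) θ) - c0‖ ≤ Real.exp (K + ε * √(k : ℝ) + H) / ‖MM d c0 (k + 1)‖ := by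
  have hld := logd_pos hd
  have hd0 : (0 : ℝ) < d := by exact_mod_cast (by omega : 0 < d)
  obtain ⟨K0, hK0, hK⟩ := log_sq_le h.A0 hε
  set q : ℝ := Real.exp (-(Real.log d / 4)) with hq
  have hq0 : 0 < q := Real.exp_pos _
  have hq1 : q < 1 := by
    rw [hq, Real.exp_lt_one_iff]
    linarith
  refine ⟨Real.log 4 + Kr d + K0 + Real.log (1 - q)⁻¹, ?_⟩
  intro k H hH
  have hMk : 0 < ‖MM d c0 (k + 1)‖ := norm_pos_iff.2 (MM_ne_zero hd c0 k (fun j _ => h.P_ne j))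
  set B : ℝ := Real.exp (Real.log 4 + Kr d + K0 + ε * √(k : ℝ) + H) / ‖MM d c0 (k + 1)‖ with hB
  have hB0 : 0 < B := by positivity
  -- the steps
  have hstep : ∀ i : ℕ, ‖cc β (pt (rl d (k + i + 1)) θ) - cc β (pt (rl d (k + i)) θ)‖ ≤ B * q ^ i := by
    intro i
    refine (ray_step hd hβ θ (k + i)).trans ?_
    obtain ⟨h4, h5⟩ := pt_mem (rl_pos d (k + i)) (rl_lt hd (k + i)) θ
    have k2 := cc_deriv_pos hβ h4 h5
    have hMi : 0 < ‖MM d c0 (k + i + 1)‖ := norm_pos_iff.2 (MM_ne_zero hd c0 _ (fun j _ => h.P_ne j))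
    have k3 := (abs_le.1 (h.simi (k + i))).2
    have k4 := hK (k + i)
    have k5 := hH (k + i) (Nat.le_add_right _ _)
    push_cast at k3 k4 k5
    have k6 : √((k : ℝ) + i) ≤ √(k : ℝ) + i := by
      have h6 : √((i : ℝ)) ≤ i := by
        rcases Nat.eq_zero_or_pos i with h7 | h7
        · rw [h7]; simp
        · have h8 : (1 : ℝ) ≤ i := by exact_mod_cast h7
          rw [Real.sqrt_le_left (by linarith)]
          nlinarith
      exact (sqrt_add_le _ _).trans (by linarith)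
    have hdi : (0 : ℝ) < (d : ℝ) ^ (k + i) := by positivity
    have e1 : ‖deriv (cc β) (pt (rl d (k + i)) θ)‖ / (d : ℝ) ^ (k + i) =
        Real.exp (Real.log ‖deriv (cc β) (pt (rl d (k + i)) θ)‖ - ((k : ℝ) + i) * Real.log d) := by
      rw [Real.exp_sub, Real.exp_log k2]
      congr 1
      rw [← Real.log_rpow hd0, Real.exp_log (by positivity)]
      have : ((k : ℝ) + i) = ((k + i : ℕ) : ℝ) := by push_cast; ring
      rw [this, Real.rpow_natCast]
    have e2 : B * q ^ i = Real.exp (Real.log 4 + Kr d + K0 + ε * √(k : ℝ) + H -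
        Real.log ‖MM d c0 (k + 1)‖ - i * (Real.log d / 4)) := by
      rw [hB, hq, ← Real.exp_nat_mul, sub_eq_add_neg (_ - _) _, Real.exp_add _ (-(_ * _)),
        Real.exp_sub, Real.exp_log hMk]
      congr 2
      ring
    have e0 : 4 * Real.exp (Kr d) = Real.exp (Real.log 4 + Kr d) := by
      rw [Real.exp_add, Real.exp_log (by norm_num)]
    rw [e1, e2, e0, ← Real.exp_add]
    apply Real.exp_le_exp.2
    have k7 : ε * √((k : ℝ) + i) ≤ ε * √(k : ℝ) + Real.log d / 4 * i := by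
      have h6 : ε * √((k : ℝ) + i) ≤ ε * (√(k : ℝ) + i) := mul_le_mul_of_nonneg_left k6 hε.le
      have h7 : ε * (i : ℝ) ≤ Real.log d / 4 * i := mul_le_mul_of_nonneg_right hε1 (Nat.cast_nonneg i)
      linarith
    have e3 : (k : ℝ) + i - k = i := by ring
    rw [e3] at k5
    linarith
  have hsum : ∀ n : ℕ, ‖cc β (pt (rl d (k + n)) θ) - cc β (pt (rl d k) θ)‖ ≤ B * (1 - q)⁻¹ := by
    intro n
    have h1 : ‖cc β (pt (rl d (k + n)) θ) - cc β (pt (rl d k) θ)‖ ≤ B * ∑ i ∈ Finset.range n, q ^ i := by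
      induction n with
      | zero => simp
      | succ n ih =>
        rw [Finset.sum_range_succ, mul_add]
        calc ‖cc β (pt (rl d (k + (n + 1))) θ) - cc β (pt (rl d k) θ)‖
            = ‖(cc β (pt (rl d (k + n + 1)) θ) - cc β (pt (rl d (k + n)) θ)) +
              (cc β (pt (rl d (k + n)) θ) - cc β (pt (rl d k) θ))‖ := by
              rw [← add_assoc]; congr 1; ring
          _ ≤ _ := norm_add_le _ _
          _ ≤ _ := by linarith [hstep n]
    refine h1.trans (mul_le_mul_of_nonneg_left ?_ hB0.le)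
    rw [← tsum_geometric_of_lt_one hq0.le hq1]
    exact (summable_geometric_of_lt_one hq0.le hq1).sum_le_tsum _ (fun k _ => by positivity)
  have hlim : Tendsto (fun n : ℕ => ‖cc β (pt (rl d (k + n)) θ) - cc β (pt (rl d k) θ)‖) atTop
      (𝓝 ‖c0 - cc β (pt (rl d k) θ)‖) := by
    have h1 := h.land.comp (rl_tendsto hd)
    have h2 : Tendsto (fun n : ℕ => k + n) atTop atTop := by
      exact tendsto_atTop_mono (fun n => Nat.le_add_left n k) tendsto_id
    exact ((h1.comp h2).sub_const _).norm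
  have h1 := le_of_tendsto' hlim hsum
  rw [norm_sub_rev] at h1
  refine h1.trans (le_of_eq ?_)
  have hq' : 0 < (1 - q)⁻¹ := inv_pos.2 (by linarith)
  have e4 : Real.log 4 + Kr d + K0 + Real.log (1 - q)⁻¹ + ε * √(k : ℝ) + H =
      (Real.log 4 + Kr d + K0 + ε * √(k : ℝ) + H) + Real.log (1 - q)⁻¹ := by ring
  rw [e4, Real.exp_add, Real.exp_log hq', hB]
  ring

end Pool.Agent.H439.MC
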