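import Mathlib
import Pool.Agent.H439.MC.Ray
import Pool.Agent.H439.MC.GridF
import Pool.Agent.H439.MC.KoebeD
import Pool.Agent.H439.MC.Dyn

/-!
# The harmonic measure of small discs about typical boundary parameters
-/

set_option autoImplicit false

namespace Pool.Agent.H439.MC

open Complex Set Topology Filter Metric MeasureTheory N62a1eb23 Pool.Agent.H712R2
  Pool.Agent.H713R2 Pool.Agent.TH653.MB
open Pool.Agent.Y272.TY (Typ cc rl MM mm rl_pos rl_lt MM_ne_zero log_MM one_sub_rl_le rl_mono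
  ratio_rl one_sub_rl_pos log_sq_small rl_ge_half one_sub_exp_ge)
open Pool.Agent.W677.Mar (pt)
open scoped ENNReal

variable {d : ℕ} {β : ℂ → ℂ}

/-- distortion along an arc -/
theorem arc_close (hd : 2 ≤ d) (hβ : IsBeta d β) : ∃ C : ℝ, 1 ≤ C ∧ ∀ (k : ℕ), 3 ≤ k → ∀ θ t : ℝ,
    |t - θ| ≤ 1 / (5 * (d : ℝ) ^ k) →
    ‖deriv (cc β) (pt (rl d k) t)‖ ≤ C * ‖deriv (cc β) (pt (rl d k) θ)‖ ∧
    ‖cc β (pt (rl d k) t) - cc β (pt (rl d k) θ)‖ ≤ C * (‖deriv (cc β) (pt (rl d k) θ)‖ / (d : ℝ) ^ k) := by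
  obtain ⟨C, hC, hdis⟩ := Pool.Agent.Helper265.Br.distortion
  refine ⟨C, hC, ?_⟩
  intro k hk θ t ht
  have hd1 : (1 : ℝ) ≤ d := by exact_mod_cast (by omega : 1 ≤ d)
  have hp : (0 : ℝ) < (d : ℝ) ^ k := by positivity
  have hp1 : (1 : ℝ) ≤ (d : ℝ) ^ k := one_le_pow₀ hd1
  set r := 1 - rl d k with hr
  have hr0 : 0 < r := one_sub_rl_pos hd k
  have hrge : 4 / (d : ℝ) ^ k / 5 ≤ r := by
    apply one_sub_exp_ge (by positivity)
    rw [div_le_iff₀ hp]
    linarith
  set x := pt (rl d k) θ with hx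
  set w := pt (rl d k) t with hw
  obtain ⟨hx1, hx0⟩ := pt_mem (rl_pos d k) (rl_lt hd k) θ
  obtain ⟨hw1, hw0⟩ := pt_mem (rl_pos d k) (rl_lt hd k) t
  have hxn : ‖x‖ = rl d k := Pool.Agent.W677.Mar.norm_pt _ θ (rl_pos d k).le
  have hhalf := rl_ge_half hd hk
  have hsub : ball x r ⊆ ball (0 : ℂ) 1 \ {0} := by
    intro z hz
    rw [mem_ball, dist_eq_norm] at hz
    constructor
    · rw [mem_ball_zero_iff]
      calc ‖z‖ = ‖(z - x) + x‖ := by ring_nf
        _ ≤ ‖z - x‖ + ‖x‖ := norm_add_le _ _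
        _ < r + ‖x‖ := by linarith
        _ = 1 := by rw [hxn, hr]; ring
    · rintro (rfl : z = 0)
      rw [zero_sub, norm_neg, hxn, hr] at hz
      linarith
  have hdiff : DifferentiableOn ℂ (cc β) (ball x r) := fun z hz =>
    (cc_diffAt hβ (hsub hz).1 (hsub hz).2).differentiableWithinAt
  have hinj : InjOn (cc β) (ball x r) := fun y hy z hz h =>
    hβ.inj y (hsub hy).1 z (hsub hz).1 (hsub hy).2 (hsub hz).2 h
  have hwx : ‖w - x‖ ≤ |t - θ| := by
    have e1 : w - x = (rl d k : ℂ) * (exp (t * I) - exp (θ * I)) := by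
      rw [hw, hx]
      simp only [pt, circleMap, zero_add]
      ring
    rw [e1, norm_mul, Complex.norm_real, Real.norm_eq_abs, abs_of_pos (rl_pos d k)]
    have h1 : ‖exp (t * I) - exp (θ * I)‖ ≤ |t - θ| := by
      have h2 := exp_I_lip t θ
      rw [mul_comm I, mul_comm I] at h2
      exact h2
    have h2 := (rl_lt hd k).le
    calc rl d k * ‖exp (t * I) - exp (θ * I)‖ ≤ 1 * |t - θ| :=
          mul_le_mul h2 h1 (norm_nonneg _) zero_le_one
      _ = _ := one_mul _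
  have hr4 : 1 / (5 * (d : ℝ) ^ k) ≤ r / 4 := by
    have e1 : 1 / (5 * (d : ℝ) ^ k) = 4 / (d : ℝ) ^ k / 5 / 4 := by field_simp
    rw [e1]
    linarith
  have hwr : ‖w - x‖ ≤ r / 4 := hwx.trans (ht.trans hr4)
  refine ⟨(hdis (cc β) x r hr0 hdiff hinj w hwr).1, ?_⟩
  have h1 : ‖cc β w - cc β x‖ ≤ C * ‖deriv (cc β) x‖ * ‖w - x‖ := by
    apply Convex.norm_image_sub_le_of_norm_deriv_le (𝕜 := ℂ) (s := closedBall x (r / 4))
    · intro z hz
      have hz' : z ∈ ball x r := by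
        rw [mem_closedBall] at hz
        rw [mem_ball]
        linarith
      exact cc_diffAt hβ (hsub hz').1 (hsub hz').2
    · intro z hz
      rw [mem_closedBall, dist_eq_norm] at hz
      exact (hdis (cc β) x r hr0 hdiff hinj z hz).1
    · exact convex_closedBall _ _
    · rw [mem_closedBall, dist_self]
      positivity
    · rw [mem_closedBall, dist_eq_norm]
      exact hwr
  refine h1.trans ?_
  have h2 : ‖w - x‖ ≤ 1 / (d : ℝ) ^ k := by
    refine hwx.trans (ht.trans ?_)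
    apply div_le_div_of_nonneg_left (by norm_num) hp
    linarith
  calc C * ‖deriv (cc β) x‖ * ‖w - x‖ ≤ C * ‖deriv (cc β) x‖ * (1 / (d : ℝ) ^ k) := by gcongr
    _ = _ := by ring

/-- the point at level `k` of the ray is close to the landing point -/
def Rate (d : ℕ) (β : ℂ → ℂ) (c : ℝ → ℂ) (ε : ℝ) (k : ℕ) (θ : ℝ) : Prop :=
  ‖cc β (pt (rl d k) θ) - c θ‖ ≤ Real.exp (ε * √(k : ℝ)) / ‖MM d (c θ) (k + 1)‖

/-- the derivative of the exterior map at level `k` -/
def Simi (d : ℕ) (β : ℂ → ℂ) (c : ℝ → ℂ) (ε : ℝ) (k : ℕ) (θ : ℝ) : Prop :=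
  |Real.log ‖MM d (c θ) (k + 1)‖ - k * Real.log d + Real.log ‖deriv (cc β) (pt (rl d k) θ)‖| ≤ ε * √(k : ℝ)

/-- the growth on the interval `[k, 2 k]` -/
def NearG (d h k : ℕ) (z : ℂ) : Prop := ∀ j, k ≤ j → j ≤ 2 * k →
  Real.log ‖MM d z (k + 1)‖ + Real.log d / 2 * ((j : ℝ) - k) - h * Cd d ≤ Real.log ‖MM d z (j + 1)‖

theorem logMM_meas (d k : ℕ) : Measurable fun z => Real.log ‖MM d z k‖ :=
  (MM_cont d k).norm.measurable.log

theorem nearG_meas (d h k : ℕ) : MeasurableSet {z | NearG d h k z} := by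
  have e1 : {z | NearG d h k z} = ⋂ j : ℕ, ⋂ _ : k ≤ j, ⋂ _ : j ≤ 2 * k,
      {z | Real.log ‖MM d z (k + 1)‖ + Real.log d / 2 * ((j : ℝ) - k) - h * Cd d ≤
        Real.log ‖MM d z (j + 1)‖} := by
    ext z
    simp only [NearG, mem_ofPred_eq, mem_iInter]
  rw [e1]
  refine MeasurableSet.iInter fun j => MeasurableSet.iInter fun _ => MeasurableSet.iInter fun _ => ?_
  exact measurableSet_le (((logMM_meas d _).add_const _).sub_const _) (logMM_meas d _)

theorem rl_cc_cont (hd : 2 ≤ d) (hβ : IsBeta d β) (k : ℕ) : Continuous fun θ => cc β (pt (rl d k) θ) :=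
  cc_cont hβ (rl_pos d k) (rl_lt hd k)

theorem rate_meas (hd : 2 ≤ d) (hβ : IsBeta d β) {c : ℝ → ℂ} (hc : AETyp d β c) (ε : ℝ) (k : ℕ) :
    NullMeasurableSet {θ | Rate d β c ε k θ} Pm := by
  have hcm := c_meas hβ hc
  unfold Rate
  apply nullMeasurableSet_le
  · exact ((rl_cc_cont hd hβ k).measurable.aemeasurable.sub hcm).norm
  · exact aemeasurable_const.div ((MM_cont d (k + 1)).measurable.comp_aemeasurable hcm).norm

theorem log_deriv_meas (hd : 2 ≤ d) (hβ : IsBeta d β) (k : ℕ) :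
    Measurable fun θ => Real.log ‖deriv (cc β) (pt (rl d k) θ)‖ := by
  have e1 : (fun θ => Real.log ‖deriv (cc β) (pt (rl d k) θ)‖) =
      fun θ => Real.log ‖qq β (circleMap 0 (rl d k) θ)‖ - 2 * Real.log (rl d k) := by
    funext θ
    exact log_deriv_cc hβ (rl_pos d k) (rl_lt hd k) θ
  rw [e1]
  exact ((Zr_cont hβ (rl_pos d k) (rl_lt hd k)).sub continuous_const).measurable

theorem simi_meas (hd : 2 ≤ d) (hβ : IsBeta d β) {c : ℝ → ℂ} (hc : AETyp d β c) (ε : ℝ) (k : ℕ) :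
    NullMeasurableSet {θ | Simi d β c ε k θ} Pm := by
  have hcm := c_meas hβ hc
  unfold Simi
  apply nullMeasurableSet_le
  · have h1 : AEMeasurable (fun θ => Real.log ‖MM d (c θ) (k + 1)‖) Pm :=
      (logMM_meas d (k + 1)).comp_aemeasurable hcm
    exact ((h1.sub_const _).add (log_deriv_meas hd hβ k).aemeasurable).abs
  · exact aemeasurable_const

theorem simi_prob (hd : 2 ≤ d) (hβ : IsBeta d β) {c : ℝ → ℂ} (hc : AETyp d β c) {ε : ℝ} (hε : 0 < ε) :
    Tendsto (fun k => Pm {θ | ¬ Simi d β c ε k θ}) atTop (𝓝 0) := by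
  apply ev_small (simi_meas hd hβ hc ε)
  filter_upwards [hc] with θ hθ
  obtain ⟨A, R, h⟩ := hθ
  obtain ⟨K, hK0, hK⟩ := log_sq_le h.A0 (half_pos hε)
  filter_upwards [ev_sqrt' (half_pos hε) K] with k hk
  have h1 := h.simi k
  have h2 := hK k
  unfold Simi
  linarith
  where
  ev_sqrt' {a : ℝ} (ha : 0 < a) (b : ℝ) : ∀ᶠ n : ℕ in atTop, b < a * √(n : ℝ) :=
    (sqrt_n_tendsto.const_mul_atTop ha).eventually_gt_atTop b

theorem ev_sqrt2 {a : ℝ} (ha : 0 < a) (b : ℝ) : ∀ᶠ n : ℕ in atTop, b < a * √(n : ℝ) :=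
  (sqrt_n_tendsto.const_mul_atTop ha).eventually_gt_atTop b

/-- **the rate of landing**, with probability close to one -/
theorem rate_prob (hd : 2 ≤ d) (hβ : IsBeta d β) {c : ℝ → ℂ} (hc : AETyp d β c) {ε : ℝ} (hε : 0 < ε) :
    Tendsto (fun k => Pm {θ | ¬ Rate d β c ε k θ}) atTop (𝓝 0) := by
  have hld := logd_pos hd
  have hCd := Cd_pos hd
  have hcm := c_meas hβ hc
  obtain ⟨C, hC, hmean⟩ := devF_mean hd hβ
  set ε2 : ℝ := ε / (4 * Cd d) with hε2
  have hε20 : 0 < ε2 := by positivity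
  set h : ℕ → ℕ := fun k => ⌊ε2 * √(k : ℝ)⌋₊ with hh
  set ε1 : ℝ := min (ε / 4) (Real.log d / 4) with hε1
  have hε10 : 0 < ε1 := lt_min (by positivity) (by positivity)
  -- the almost sure part
  have hA : Tendsto (fun k => Pm {θ | ¬ (¬ NearG d (h k) k (c θ) ∨ Rate d β c ε k θ)}) atTop (𝓝 0) := by
    apply ev_small
    · intro k
      have h1 : NullMeasurableSet {θ | NearG d (h k) k (c θ)} Pm :=
        hcm.nullMeasurableSet_preimage (nearG_meas d (h k) k)
      exact h1.compl.union (rate_meas hd hβ hc ε k)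
    · filter_upwards [hc] with θ hθ
      obtain ⟨A, R, hT⟩ := hθ
      obtain ⟨K, hK⟩ := ray_dist hd hβ hT hε10 (min_le_right _ _)
      filter_upwards [far hd hT, ev_sqrt2 (half_pos hε) K] with k hk1 hk2
      rw [or_iff_not_imp_left, not_not]
      intro hnear
      have h1 := hK k ((h k : ℝ) * Cd d) (by
        intro j hj
        rcases le_or_gt j (2 * k) with h2 | h2
        · exact hnear j hj h2
        · have h3 := hk1 j h2.le
          have : 0 ≤ (h k : ℝ) * Cd d := by positivity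
          linarith)
      refine h1.trans ?_
      apply div_le_div_of_nonneg_right _ (norm_nonneg _)
      apply Real.exp_le_exp.2
      have h4 : ε1 * √(k : ℝ) ≤ ε / 4 * √(k : ℝ) :=
        mul_le_mul_of_nonneg_right (min_le_left _ _) (Real.sqrt_nonneg _)
      have h5 : (h k : ℝ) * Cd d ≤ ε / 4 * √(k : ℝ) := by
        have h6 : (h k : ℝ) ≤ ε2 * √(k : ℝ) := Nat.floor_le (by positivity)
        calc (h k : ℝ) * Cd d ≤ ε2 * √(k : ℝ) * Cd d := by gcongr
          _ = ε / 4 * √(k : ℝ) := by rw [hε2]; field_simp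
      linarith
  -- the second moments
  have hB : Tendsto (fun k : ℕ => ENNReal.ofReal (4 * (C * ((2 + Real.log ((k : ℝ) + 1)) / (h k : ℕ) + 1 / k))))
      atTop (𝓝 0) := by
    have h1 := ((bad_small hε20).const_mul C).const_mul 4
    rw [mul_zero, mul_zero] at h1
    have h2 := (ENNReal.continuous_ofReal.tendsto 0).comp h1
    rw [ENNReal.ofReal_zero] at h2
    exact h2
  have hsum := hA.add hB
  rw [add_zero] at hsum
  apply tendsto_of_tendsto_of_tendsto_of_le_of_le' tendsto_const_nhds hsum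
  · exact Eventually.of_forall fun k => zero_le
  · filter_upwards [ev_sqrt2 hε20 2, eventually_ge_atTop 1] with k hk1 hk2
    have hh1 : 1 ≤ h k := by
      apply Nat.le_floor
      push_cast
      linarith
    obtain ⟨g1, g2⟩ := hmean c hc k (h k) hk2 hh1
    have hMk : Pm {θ | (1 : ℝ) / 4 ≤ ∑ i ∈ Finset.Icc 1 (k / h k + 1), devF d k (h k) i (c θ) ^ 2} ≤
        ENNReal.ofReal (4 * (C * ((2 + Real.log ((k : ℝ) + 1)) / (h k : ℕ) + 1 / k))) := by
      have g3 := mul_meas_ge_le_integral_of_nonneg (Eventually.of_forall fun θ =>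
        Finset.sum_nonneg (s := Finset.Icc 1 (k / h k + 1)) fun i _ => sq_nonneg (devF d k (h k) i (c θ))) g1 (1 / 4)
      rw [← ENNReal.ofReal_toReal (measure_ne_top Pm _)]
      apply ENNReal.ofReal_le_ofReal
      have g4 : (Pm {θ | (1 : ℝ) / 4 ≤ ∑ i ∈ Finset.Icc 1 (k / h k + 1), devF d k (h k) i (c θ) ^ 2}).toReal =
          Pm.real {θ | (1 : ℝ) / 4 ≤ ∑ i ∈ Finset.Icc 1 (k / h k + 1), devF d k (h k) i (c θ) ^ 2} := rfl
      rw [g4]
      linarith
    refine le_trans ?_ (add_le_add le_rfl hMk)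
    refine le_trans (measure_mono_ae ?_) (measure_union_le _ _)
    filter_upwards [hc] with θ hθ hbad
    obtain ⟨A, R, hT⟩ := hθ
    by_cases hs : (1 : ℝ) / 4 ≤ ∑ i ∈ Finset.Icc 1 (k / h k + 1), devF d k (h k) i (c θ) ^ 2
    · exact Or.inr hs
    · left
      push Not at hs
      intro hor
      rcases hor with h1 | h1
      · apply h1
        intro j hj1 hj2
        exact gridF hd (fun i => hT.P_ne i) (fun i => hT.P_le hd hβ i) hh1 hs.le hj1 hj2
      · exact hbad h1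

/-- **the harmonic measure of a small disc**, with probability close to one -/
theorem hm_prob (hd : 2 ≤ d) (hβ : IsBeta d β) {c : ℝ → ℂ} (hc : AETyp d β c) {ε : ℝ} (hε : 0 < ε) :
    Tendsto (fun k : ℕ => Pm {θ | ¬ (1 / (64 * (d : ℝ) ^ k) ≤
      (Pm {t | ‖c t - c θ‖ < Real.exp (ε * √(k : ℝ)) / ‖MM d (c θ) (k + 1)‖}).toReal)}) atTop (𝓝 0) := by
  have hpi := Real.pi_pos
  have hd0 : (0 : ℝ) < d := by exact_mod_cast (by omega : 0 < d)
  have hcm := c_meas hβ hc
  obtain ⟨C, hC, hclose⟩ := arc_close hd hβ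
  set e : ℝ := ε / 4 with he
  have he0 : 0 < e := by positivity
  -- the good angles
  set G : ℕ → Set ℝ := fun k => {θ | Rate d β c e k θ} ∩ {θ | Simi d β c e k θ} ∩
    {θ | ∃ (A : ℝ) (R : ℂ), Typ d β θ (c θ) A R} with hG
  have hTmeas : NullMeasurableSet {θ | ∃ (A : ℝ) (R : ℂ), Typ d β θ (c θ) A R} Pm := by
    have h1 : Pm {θ | ∃ (A : ℝ) (R : ℂ), Typ d β θ (c θ) A R}ᶜ = 0 := hc
    have h2 := (NullMeasurableSet.of_null h1).compl
    rwa [compl_compl] at h2
  have hGm : ∀ k, NullMeasurableSet (G k) Pm := fun k =>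
    ((rate_meas hd hβ hc e k).inter (simi_meas hd hβ hc e k)).inter hTmeas
  have hGs : Tendsto (fun k => 2 * Pm (G k)ᶜ) atTop (𝓝 0) := by
    have h1 := (rate_prob hd hβ hc he0).add (simi_prob hd hβ hc he0)
    rw [add_zero] at h1
    have h2 := ENNReal.Tendsto.const_mul h1 (Or.inr (by norm_num : (2 : ℝ≥0∞) ≠ ⊤))
    rw [mul_zero] at h2
    apply tendsto_of_tendsto_of_tendsto_of_le_of_le' tendsto_const_nhds h2
    · exact Eventually.of_forall fun k => zero_le
    · refine Eventually.of_forall fun k => ?_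
      apply mul_le_mul_right
      refine le_trans (measure_mono_ae ?_) (measure_union_le _ _)
      filter_upwards [hc] with θ hθ hbad
      by_cases h3 : Rate d β c e k θ
      · right
        intro h4
        exact hbad ⟨⟨h3, h4⟩, hθ⟩
      · exact Or.inl h3
  apply tendsto_of_tendsto_of_tendsto_of_le_of_le' tendsto_const_nhds hGs
  · exact Eventually.of_forall fun k => zero_le
  filter_upwards [eventually_ge_atTop 3, ev_sqrt2 he0 (Real.log (3 * C))] with k hk3 hkC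
  -- two good angles on one arc
  have hpair : ∀ θ ∈ G k, ∀ t ∈ G k, |t - θ| ≤ 1 / (5 * (d : ℝ) ^ k) →
      ‖c t - c θ‖ < Real.exp (ε * √(k : ℝ)) / ‖MM d (c θ) (k + 1)‖ := by
    intro θ hθ t ht htθ
    obtain ⟨⟨a1, a2⟩, A, R, hT⟩ := hθ
    obtain ⟨⟨b1, b2⟩, A', R', hT'⟩ := ht
    obtain ⟨g1, g2⟩ := hclose k hk3 θ t htθ
    have hMθ : 0 < ‖MM d (c θ) (k + 1)‖ := norm_pos_iff.2 (MM_ne_zero hd _ k (fun j _ => hT.P_ne j))
    have hMt : 0 < ‖MM d (c t) (k + 1)‖ := norm_pos_iff.2 (MM_ne_zero hd _ k (fun j _ => hT'.P_ne j))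
    obtain ⟨hx1, hx0⟩ := pt_mem (rl_pos d k) (rl_lt hd k) θ
    obtain ⟨hw1, hw0⟩ := pt_mem (rl_pos d k) (rl_lt hd k) t
    have hDθ := cc_deriv_pos hβ hx1 hx0
    have hDt := cc_deriv_pos hβ hw1 hw0
    set q := √(k : ℝ) with hq
    have hq0 : 0 ≤ q := Real.sqrt_nonneg _
    set X := 1 / ‖MM d (c θ) (k + 1)‖ with hX
    have hX0 : 0 < X := by positivity
    have hdk : (0 : ℝ) < (d : ℝ) ^ k := by positivity
    have edk : (d : ℝ) ^ k = Real.exp (k * Real.log d) := by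
      rw [Real.exp_nat_mul, Real.exp_log hd0]
    -- the derivative of the exterior map
    have k1 : ‖deriv (cc β) (pt (rl d k) θ)‖ / (d : ℝ) ^ k ≤ Real.exp (e * q) * X := by
      have a2' : |Real.log ‖MM d (c θ) (k + 1)‖ - k * Real.log d +
        Real.log ‖deriv (cc β) (pt (rl d k) θ)‖| ≤ e * √(k : ℝ) := a2
      have h1 := (abs_le.1 a2').2
      rw [hX, one_div, edk, ← Real.exp_log hDθ, ← Real.exp_log hMθ, ← Real.exp_sub, ← Real.exp_neg,
        ← Real.exp_add]
      apply Real.exp_le_exp.2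
      linarith
    have k2 : 1 / ‖MM d (c t) (k + 1)‖ ≤ Real.exp (e * q) * (‖deriv (cc β) (pt (rl d k) t)‖ / (d : ℝ) ^ k) := by
      have b2' : |Real.log ‖MM d (c t) (k + 1)‖ - k * Real.log d +
        Real.log ‖deriv (cc β) (pt (rl d k) t)‖| ≤ e * √(k : ℝ) := b2
      have h1 := (abs_le.1 b2').1
      rw [one_div, edk, ← Real.exp_log hDt, ← Real.exp_log hMt, ← Real.exp_sub, ← Real.exp_neg,
        ← Real.exp_add]
      apply Real.exp_le_exp.2
      linarith
    have k3 : 1 / ‖MM d (c t) (k + 1)‖ ≤ C * (Real.exp (e * q) * Real.exp (e * q)) * X := by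
      calc 1 / ‖MM d (c t) (k + 1)‖ ≤ Real.exp (e * q) * (‖deriv (cc β) (pt (rl d k) t)‖ / (d : ℝ) ^ k) := k2
        _ ≤ Real.exp (e * q) * ((C * ‖deriv (cc β) (pt (rl d k) θ)‖) / (d : ℝ) ^ k) := by gcongr
        _ = C * Real.exp (e * q) * (‖deriv (cc β) (pt (rl d k) θ)‖ / (d : ℝ) ^ k) := by ring
        _ ≤ C * Real.exp (e * q) * (Real.exp (e * q) * X) := by gcongr
        _ = _ := by ring
    have k4 : ‖c t - cc β (pt (rl d k) t)‖ ≤ C * (Real.exp (e * q) * Real.exp (e * q) * Real.exp (e * q)) * X := by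
      rw [norm_sub_rev]
      refine b1.trans ?_
      calc Real.exp (e * q) / ‖MM d (c t) (k + 1)‖ = Real.exp (e * q) * (1 / ‖MM d (c t) (k + 1)‖) := by ring
        _ ≤ Real.exp (e * q) * (C * (Real.exp (e * q) * Real.exp (e * q)) * X) := by gcongr
        _ = _ := by ring
    have k5 : ‖cc β (pt (rl d k) t) - cc β (pt (rl d k) θ)‖ ≤ C * Real.exp (e * q) * X := by
      refine g2.trans ?_
      calc C * (‖deriv (cc β) (pt (rl d k) θ)‖ / (d : ℝ) ^ k) ≤ C * (Real.exp (e * q) * X) := by gcongr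
        _ = _ := by ring
    have k6 : ‖cc β (pt (rl d k) θ) - c θ‖ ≤ Real.exp (e * q) * X := by
      refine (show _ ≤ _ from a1).trans (le_of_eq ?_)
      rw [hX]
      ring
    have hE1 : 1 ≤ Real.exp (e * q) := Real.one_le_exp (by positivity)
    set E := Real.exp (e * q) with hE
    have hE0 : 0 < E := Real.exp_pos _
    have hEE : Real.exp (ε * q) = E * E * E * E := by
      rw [hE, ← Real.exp_add, ← Real.exp_add, ← Real.exp_add, he]
      congr 1
      ring
    have h3C : 3 * C < E := by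
      rw [hE, ← Real.exp_log (by positivity : 0 < 3 * C)]
      exact Real.exp_lt_exp.2 hkC
    have hE2 : E ≤ E * E * E := by
      have : 1 ≤ E * E := one_le_mul_of_one_le_of_one_le hE1 hE1
      nlinarith
    calc ‖c t - c θ‖ = ‖(c t - cc β (pt (rl d k) t)) + ((cc β (pt (rl d k) t) - cc β (pt (rl d k) θ)) +
          (cc β (pt (rl d k) θ) - c θ))‖ := by ring_nf
      _ ≤ ‖c t - cc β (pt (rl d k) t)‖ + (‖cc β (pt (rl d k) t) - cc β (pt (rl d k) θ)‖ +
          ‖cc β (pt (rl d k) θ) - c θ‖) := (norm_add_le _ _).trans (add_le_add le_rfl (norm_add_le _ _))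
      _ ≤ C * (E * E * E) * X + (C * E * X + E * X) := by linarith
      _ ≤ 3 * C * (E * E * E) * X := by
          have h1 : C * E * X ≤ C * (E * E * E) * X := by gcongr
          have h2 : E * X ≤ C * (E * E * E) * X := by
            have : 1 * E ≤ C * (E * E * E) := mul_le_mul hC hE2 hE0.le (by linarith)
            rw [one_mul] at this
            gcongr
          linarith
      _ < E * (E * E * E) * X := by gcongr
      _ = _ := by rw [hEE, hX]; ring
  -- the arcs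
  set N : ℕ := 32 * d ^ k with hN
  have hN0 : 0 < N := by positivity
  have hNR : (N : ℝ) = 32 * (d : ℝ) ^ k := by rw [hN]; push_cast; ring
  have hNR0 : (0 : ℝ) < N := by exact_mod_cast hN0
  set J : ℕ → Set ℝ := fun i => Ioc (2 * Real.pi * i / N) (2 * Real.pi * (i + 1) / N) with hJ
  have hJm : ∀ i, MeasurableSet (J i) := fun i => measurableSet_Ioc
  have hJlen : ∀ i, i < N → Pm (J i) = ENNReal.ofReal (1 / N) := by
    intro i hi
    have hsub : J i ⊆ Ioc 0 (2 * Real.pi) := by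
      intro x hx
      have h1 : (0 : ℝ) ≤ 2 * Real.pi * i / N := by positivity
      have h2 : 2 * Real.pi * (i + 1) / N ≤ 2 * Real.pi := by
        rw [div_le_iff₀ hNR0]
        have : (i : ℝ) + 1 ≤ N := by exact_mod_cast hi
        gcongr
      exact ⟨h1.trans_lt hx.1, hx.2.trans h2⟩
    unfold Pm
    rw [Measure.smul_apply, Measure.restrict_apply (hJm i), inter_eq_left.2 hsub, hJ, Real.volume_Ioc,
      smul_eq_mul, ← ENNReal.ofReal_inv_of_pos (by positivity), ← ENNReal.ofReal_mul (by positivity)]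
    congr 1
    field_simp
    ring
  have hJcover : ∀ θ ∈ Ioc 0 (2 * Real.pi), ∃ i < N, θ ∈ J i := by
    intro θ hθ
    set x := θ * N / (2 * Real.pi) with hx
    have hx0 : 0 < x := by have := hθ.1; positivity
    have hx1 : x ≤ N := by
      rw [hx, div_le_iff₀ (by positivity), mul_comm]
      exact mul_le_mul_of_nonneg_left hθ.2 hNR0.le
    have hc1 : 1 ≤ ⌈x⌉₊ := Nat.one_le_ceil_iff.2 hx0
    refine ⟨⌈x⌉₊ - 1, ?_, ?_, ?_⟩
    · have : ⌈x⌉₊ ≤ N := Nat.ceil_le.2 hx1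
      omega
    · have h1 : (⌈x⌉₊ : ℝ) < x + 1 := Nat.ceil_lt_add_one hx0.le
      rw [Nat.cast_sub hc1, div_lt_iff₀ hNR0]
      have e1 : x * (2 * Real.pi) = θ * N := by rw [hx]; field_simp
      push_cast
      nlinarith
    · have h1 : x ≤ ⌈x⌉₊ := Nat.le_ceil x
      rw [Nat.cast_sub hc1, le_div_iff₀ hNR0]
      have e1 : x * (2 * Real.pi) = θ * N := by rw [hx]; field_simp
      push_cast
      nlinarith
  have hJclose : ∀ i, ∀ θ ∈ J i, ∀ t ∈ J i, |t - θ| ≤ 1 / (5 * (d : ℝ) ^ k) := by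
    intro i θ hθ t ht
    have h1 : 2 * Real.pi * (i + 1) / N - 2 * Real.pi * i / N ≤ 1 / (5 * (d : ℝ) ^ k) := by
      have e1 : 2 * Real.pi * (i + 1) / N - 2 * Real.pi * i / N = (Real.pi / 16) / (d : ℝ) ^ k := by
        rw [hNR]
        field_simp
        ring
      have e2 : 1 / (5 * (d : ℝ) ^ k) = (1 / 5) / (d : ℝ) ^ k := by field_simp
      rw [e1, e2]
      apply div_le_div_of_nonneg_right _ (by positivity)
      have := Real.pi_lt_d2
      linarith
    rw [abs_le]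
    constructor
    · linarith [ht.1, hθ.2]
    · linarith [ht.2, hθ.1]
  -- the bad arcs
  classical
  set Bad : Finset ℕ := (Finset.range N).filter (fun i => Pm (J i ∩ G k) < Pm (J i ∩ (G k)ᶜ)) with hBad
  have hmain : {θ | ¬ (1 / (64 * (d : ℝ) ^ k) ≤
      (Pm {t | ‖c t - c θ‖ < Real.exp (ε * √(k : ℝ)) / ‖MM d (c θ) (k + 1)‖}).toReal)} ∩ Ioc 0 (2 * Real.pi) ⊆
      (G k)ᶜ ∪ ⋃ i ∈ Bad, (J i ∩ G k) := by
    rintro θ ⟨h1, h2⟩
    by_cases hθ : θ ∈ G k
    swap
    · exact Or.inl hθ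
    right
    obtain ⟨i, hi, hiJ⟩ := hJcover θ h2
    rw [mem_iUnion₂]
    refine ⟨i, ?_, hiJ, hθ⟩
    rw [hBad, Finset.mem_filter, Finset.mem_range]
    refine ⟨hi, ?_⟩
    by_contra hcon
    push Not at hcon
    apply h1
    have h3 : Pm (J i) = Pm (J i ∩ G k) + Pm (J i ∩ (G k)ᶜ) := by
      exact (measure_inter_add_sdiff₀ (J i) (hGm k)).symm
    have h4 : Pm (J i) ≤ 2 * Pm (J i ∩ G k) := by
      rw [h3, two_mul]
      gcongr
    have h5 : Pm (J i ∩ G k) ≤ Pm {t | ‖c t - c θ‖ < Real.exp (ε * √(k : ℝ)) / ‖MM d (c θ) (k + 1)‖} := by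
      apply measure_mono
      rintro t ⟨ht1, ht2⟩
      exact hpair θ hθ t ht2 (hJclose i θ hiJ t ht1)
    have h6 : ENNReal.ofReal (1 / N) ≤
        2 * Pm {t | ‖c t - c θ‖ < Real.exp (ε * √(k : ℝ)) / ‖MM d (c θ) (k + 1)‖} := by
      rw [← hJlen i hi]
      refine h4.trans ?_
      gcongr
    have h7 := ENNReal.toReal_mono (ENNReal.mul_ne_top (by norm_num) (measure_ne_top _ _)) h6
    rw [ENNReal.toReal_ofReal (by positivity), ENNReal.toReal_mul, ENNReal.toReal_ofNat] at h7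
    have e3 : 1 / (64 * (d : ℝ) ^ k) = 1 / N / 2 := by rw [hNR]; field_simp; norm_num
    rw [e3]
    linarith
  have hae : ∀ᵐ θ ∂Pm, θ ∈ Ioc 0 (2 * Real.pi) := ae_Pm
  calc Pm {θ | ¬ (1 / (64 * (d : ℝ) ^ k) ≤
      (Pm {t | ‖c t - c θ‖ < Real.exp (ε * √(k : ℝ)) / ‖MM d (c θ) (k + 1)‖}).toReal)}
      ≤ Pm ((G k)ᶜ ∪ ⋃ i ∈ Bad, (J i ∩ G k)) := by
        apply measure_mono_ae
        filter_upwards [hae] with θ h1 h2
        exact hmain ⟨h2, h1⟩
    _ ≤ Pm (G k)ᶜ + Pm (⋃ i ∈ Bad, (J i ∩ G k)) := measure_union_le _ _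
    _ ≤ Pm (G k)ᶜ + ∑ i ∈ Bad, Pm (J i ∩ (G k)ᶜ) := by
        gcongr
        refine (measure_biUnion_finset_le _ _).trans ?_
        apply Finset.sum_le_sum
        intro i hi
        rw [hBad, Finset.mem_filter] at hi
        exact hi.2.le
    _ ≤ Pm (G k)ᶜ + Pm (G k)ᶜ := by
        gcongr
        rw [← measure_biUnion_finset₀]
        · apply measure_mono
          intro x hx
          obtain ⟨i, _, hx2⟩ := mem_iUnion₂.1 hx
          exact hx2.2
        · intro i _ j _ hij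
          apply Disjoint.aedisjoint
          change Disjoint (J i ∩ (G k)ᶜ) (J j ∩ (G k)ᶜ)
          rw [Set.disjoint_left]
          rintro x ⟨hx1, _⟩ ⟨hx2, _⟩
          apply hij
          have m1 : 2 * Real.pi * (i : ℝ) / N < 2 * Real.pi * (j + 1) / N := hx1.1.trans_le hx2.2
          have m2 : 2 * Real.pi * (j : ℝ) / N < 2 * Real.pi * (i + 1) / N := hx2.1.trans_le hx1.2
          rw [div_lt_div_iff_of_pos_right hNR0, mul_lt_mul_iff_right₀ (by positivity)] at m1 m2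
          have m3 : i < j + 1 := by exact_mod_cast m1
          have m4 : j < i + 1 := by exact_mod_cast m2
          omega
        · intro i _
          exact (hJm i).nullMeasurableSet.inter (hGm k).compl
    _ = 2 * Pm (G k)ᶜ := (two_mul _).symm

end Pool.Agent.H439.MC
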