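import Mathlib
import Pool.Agent.H439.MC.Harm2

/-!
# Events of probability close to one
-/

set_option autoImplicit false

namespace Pool.Agent.H439.MC

open Complex Set Topology Filter Metric MeasureTheory N62a1eb23 Pool.Agent.H712R2
  Pool.Agent.H713R2 Pool.Agent.TH653.MB
open Pool.Agent.Y272.TY (Typ cc rl MM mm rl_pos rl_lt MM_ne_zero log_MM mm_eq)
open Pool.Agent.W677.Mar (pt)
open scoped ENNReal

variable {d : ℕ} {β : ℂ → ℂ}

/-- the derivative at time `k` is almost the largest one -/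
def Grow (d : ℕ) (s : ℝ) (k : ℕ) (z : ℂ) : Prop := ∀ m < k,
  Real.log ‖MM d z (m + 1)‖ ≤ Real.log ‖MM d z (k + 1)‖ + s * √(k : ℝ)

theorem grow_prob (hd : 2 ≤ d) (hβ : IsBeta d β) {c : ℝ → ℂ} (hc : AETyp d β c) {s : ℝ} (hs : 0 < s) :
    Tendsto (fun k => Pm {θ | ¬ Grow d s k (c θ)}) atTop (𝓝 0) := by
  have hCd := Cd_pos hd
  obtain ⟨C, hC, hmean⟩ := dev_mean hd hβ
  set ε2 : ℝ := s / Cd d with hε2
  have hε20 : 0 < ε2 := by positivity
  set h : ℕ → ℕ := fun k => ⌊ε2 * √(k : ℝ)⌋₊ with hh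
  have hB : Tendsto (fun k : ℕ => ENNReal.ofReal (C * ((2 + Real.log ((k : ℝ) + 1)) / (h k : ℕ) + 1 / k)))
      atTop (𝓝 0) := by
    have h1 := (bad_small hε20).const_mul C
    rw [mul_zero] at h1
    have h2 := (ENNReal.continuous_ofReal.tendsto 0).comp h1
    rw [ENNReal.ofReal_zero] at h2
    exact h2
  apply tendsto_of_tendsto_of_tendsto_of_le_of_le' tendsto_const_nhds hB
  · exact Eventually.of_forall fun k => zero_le
  · filter_upwards [ev_sqrt2 hε20 2, eventually_ge_atTop 1] with k hk1 hk2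
    have hh1 : 1 ≤ h k := by
      apply Nat.le_floor
      push_cast
      linarith
    obtain ⟨g1, g2⟩ := hmean c hc k (h k) hk2 hh1
    have hMk : Pm {θ | (1 : ℝ) ≤ ∑ i ∈ Finset.Icc 1 (k / h k + 1), dev d k (h k) i (c θ) ^ 2} ≤
        ENNReal.ofReal (C * ((2 + Real.log ((k : ℝ) + 1)) / (h k : ℕ) + 1 / k)) := by
      have g3 := mul_meas_ge_le_integral_of_nonneg (Eventually.of_forall fun θ =>
        Finset.sum_nonneg (s := Finset.Icc 1 (k / h k + 1)) fun i _ => sq_nonneg (dev d k (h k) i (c θ))) g1 1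
      rw [← ENNReal.ofReal_toReal (measure_ne_top Pm _)]
      apply ENNReal.ofReal_le_ofReal
      have g4 : (Pm {θ | (1 : ℝ) ≤ ∑ i ∈ Finset.Icc 1 (k / h k + 1), dev d k (h k) i (c θ) ^ 2}).toReal =
          Pm.real {θ | (1 : ℝ) ≤ ∑ i ∈ Finset.Icc 1 (k / h k + 1), dev d k (h k) i (c θ) ^ 2} := rfl
      rw [g4]
      linarith
    refine le_trans (measure_mono_ae ?_) hMk
    filter_upwards [hc] with θ hθ hbad
    obtain ⟨A, R, hT⟩ := hθ
    change (1 : ℝ) ≤ ∑ i ∈ Finset.Icc 1 (k / h k + 1), dev d k (h k) i (c θ) ^ 2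
    by_contra hs1
    push Not at hs1
    apply hbad
    intro m hm
    have h1 := grid hd (fun i => hT.P_ne i) (fun i => hT.P_le hd hβ i) hh1 hs1.le hm
    have h5 : (h k : ℝ) * Cd d ≤ s * √(k : ℝ) := by
      have h6 : (h k : ℝ) ≤ ε2 * √(k : ℝ) := Nat.floor_le (by positivity)
      calc (h k : ℝ) * Cd d ≤ ε2 * √(k : ℝ) * Cd d := by gcongr
        _ = s * √(k : ℝ) := by rw [hε2]; field_simp
    linarith

/-- the sums of the inverses and the distances from the critical point -/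
def Mild (d : ℕ) (s : ℝ) (k : ℕ) (z : ℂ) : Prop :=
  (∀ j, ∑ i ∈ Finset.Icc 1 j, 1 / mm d z i ≤ Real.exp (s * √(k : ℝ))) ∧
  ∀ j, 1 ≤ j → j ≤ k → Real.exp (-(s * √(k : ℝ))) ≤ ‖P d j z‖

theorem P_cont' (d j : ℕ) : Continuous fun z => P d j z := Pool.Agent.Y272.TY.P_continuous d j

theorem mm_cont (d j : ℕ) : Continuous fun z => mm d z j := by
  unfold Pool.Agent.Y272.TY.mm
  apply continuous_finsetProd
  intro i _
  exact continuous_const.mul ((P_cont' d i).norm.pow _)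

theorem mild_meas (d : ℕ) (s : ℝ) (k : ℕ) : MeasurableSet {z | Mild d s k z} := by
  have e1 : {z | Mild d s k z} = (⋂ j : ℕ, {z | ∑ i ∈ Finset.Icc 1 j, 1 / mm d z i ≤ Real.exp (s * √(k : ℝ))}) ∩
      ⋂ j : ℕ, ⋂ _ : 1 ≤ j, ⋂ _ : j ≤ k, {z | Real.exp (-(s * √(k : ℝ))) ≤ ‖P d j z‖} := by
    ext z
    simp only [Mild, mem_ofPred_eq, mem_iInter, mem_inter_iff]
  rw [e1]
  apply MeasurableSet.inter
  · refine MeasurableSet.iInter fun j => measurableSet_le ?_ measurable_const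
    apply Finset.measurable_fun_sum
    intro i _
    exact measurable_const.div (mm_cont d i).measurable
  · refine MeasurableSet.iInter fun j => MeasurableSet.iInter fun _ => MeasurableSet.iInter fun _ => ?_
    exact measurableSet_le measurable_const (P_cont' d j).norm.measurable

theorem mild_prob (hd : 2 ≤ d) (hβ : IsBeta d β) {c : ℝ → ℂ} (hc : AETyp d β c) {s : ℝ} (hs : 0 < s) :
    Tendsto (fun k => Pm {θ | ¬ Mild d s k (c θ)}) atTop (𝓝 0) := by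
  have hcm := c_meas hβ hc
  apply ev_small (fun k => hcm.nullMeasurableSet_preimage (mild_meas d s k))
  filter_upwards [hc] with θ hθ
  obtain ⟨A, R, h⟩ := hθ
  obtain ⟨S, hS0, hS⟩ := inv_sum hd h
  have hlog : ∀ᶠ k : ℕ in atTop, A * Real.log ((k : ℝ) + 2) ≤ s * √(k : ℝ) := by
    obtain ⟨K, hK0, hK⟩ := log_sq_le h.A0 (by positivity : 0 < s / 4)
    filter_upwards [ev_sqrt2 (by positivity : 0 < s / 4) K] with k hk
    have h1 := hK k
    have h2 : Real.log ((k : ℝ) + 2) ≤ 2 * Real.log ((k : ℝ) + 2) ^ 2 := by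
      have h3 := Pool.Agent.Y272.TY.log_two_le k
      nlinarith
    have h3 : A * Real.log ((k : ℝ) + 2) ≤ 2 * (A * Real.log ((k : ℝ) + 2) ^ 2) := by
      have := mul_le_mul_of_nonneg_left h2 h.A0
      linarith
    have h4 : 0 ≤ √(k : ℝ) := Real.sqrt_nonneg _
    nlinarith
  filter_upwards [ev_sqrt2 hs (Real.log S), hlog] with k hk1 hk2
  constructor
  · intro j
    refine (hS j).trans ?_
    rw [← Real.exp_log hS0]
    exact Real.exp_le_exp.2 hk1.le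
  · intro j hj1 hj2
    obtain ⟨i, rfl⟩ : ∃ i, j = i + 1 := ⟨j - 1, by omega⟩
    refine le_trans (Real.exp_le_exp.2 ?_) (h.rec' i)
    have h1 : Real.log ((i : ℝ) + 2) ≤ Real.log ((k : ℝ) + 2) := by
      apply Real.log_le_log (by positivity)
      have : ((i + 1 : ℕ) : ℝ) ≤ k := by exact_mod_cast hj2
      push_cast at this
      linarith
    have h2 := mul_le_mul_of_nonneg_left h1 h.A0
    linarith

/-- the fluctuation on an interval -/
theorem step_prob (hd : 2 ≤ d) (hβ : IsBeta d β) : ∃ C : ℝ, 0 < C ∧ ∀ c : ℝ → ℂ, AETyp d β c →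
    ∀ (I : Finset ℕ) (x : ℝ), 0 < x →
    Pm {θ | x < |((d : ℝ) - 1) * ∑ i ∈ I, Real.log ‖P d (i + 1) (c θ)‖|} ≤
      ENNReal.ofReal (C * I.card / x ^ 2) := by
  obtain ⟨C, hC, hT⟩ := T_sq hd hβ
  have hd1 : (0 : ℝ) < (d : ℝ) - 1 := by
    have : (2 : ℝ) ≤ d := by exact_mod_cast hd
    linarith
  refine ⟨((d : ℝ) - 1) ^ 2 * C, by positivity, ?_⟩
  intro c hc I x hx
  obtain ⟨h1, h2⟩ := hT c hc I
  have h3 : Integrable (fun θ => (((d : ℝ) - 1) * ∑ i ∈ I, Real.log ‖P d (i + 1) (c θ)‖) ^ 2) Pm := by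
    have e1 : (fun θ => (((d : ℝ) - 1) * ∑ i ∈ I, Real.log ‖P d (i + 1) (c θ)‖) ^ 2) =
        fun θ => ((d : ℝ) - 1) ^ 2 * (∑ i ∈ I, Real.log ‖P d (i + 1) (c θ)‖) ^ 2 := by
      funext θ
      rw [mul_pow]
    rw [e1]
    exact h1.const_mul _
  have h4 : ∫ θ, (((d : ℝ) - 1) * ∑ i ∈ I, Real.log ‖P d (i + 1) (c θ)‖) ^ 2 ∂Pm ≤
      ((d : ℝ) - 1) ^ 2 * (C * I.card) := by
    have e1 : (fun θ => (((d : ℝ) - 1) * ∑ i ∈ I, Real.log ‖P d (i + 1) (c θ)‖) ^ 2) =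
        fun θ => ((d : ℝ) - 1) ^ 2 * (∑ i ∈ I, Real.log ‖P d (i + 1) (c θ)‖) ^ 2 := by
      funext θ
      rw [mul_pow]
    rw [e1, integral_const_mul]
    gcongr
  have h5 := mul_meas_ge_le_integral_of_nonneg (Eventually.of_forall fun θ =>
    sq_nonneg (((d : ℝ) - 1) * ∑ i ∈ I, Real.log ‖P d (i + 1) (c θ)‖)) h3 (x ^ 2)
  have h6 : {θ | x < |((d : ℝ) - 1) * ∑ i ∈ I, Real.log ‖P d (i + 1) (c θ)‖|} ⊆
      {θ | x ^ 2 ≤ (((d : ℝ) - 1) * ∑ i ∈ I, Real.log ‖P d (i + 1) (c θ)‖) ^ 2} := by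
    intro θ hθ
    have h7 : x < |((d : ℝ) - 1) * ∑ i ∈ I, Real.log ‖P d (i + 1) (c θ)‖| := hθ
    change x ^ 2 ≤ (((d : ℝ) - 1) * ∑ i ∈ I, Real.log ‖P d (i + 1) (c θ)‖) ^ 2
    rw [← sq_abs (((d : ℝ) - 1) * _)]
    gcongr
  refine (measure_mono h6).trans ?_
  rw [← ENNReal.ofReal_toReal (measure_ne_top Pm _)]
  apply ENNReal.ofReal_le_ofReal
  rw [le_div_iff₀ (by positivity)]
  have e2 : (Pm {θ | x ^ 2 ≤ (((d : ℝ) - 1) * ∑ i ∈ I, Real.log ‖P d (i + 1) (c θ)‖) ^ 2}).toReal =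
    Pm.real {θ | x ^ 2 ≤ (((d : ℝ) - 1) * ∑ i ∈ I, Real.log ‖P d (i + 1) (c θ)‖) ^ 2} := rfl
  rw [e2]
  linarith

end Pool.Agent.H439.MC
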