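import Mathlib
import Pool.Graph.R_pool_sql_team_seeded_63374d34.N772.TC.Harm
import Pool.Agent.H439.MC.Prob
import Pool.Agent.H439.MC.Dyn3

/-!
# Distortion, and the harmonic measure of a set of parameters
-/

set_option autoImplicit false

namespace Pool.Agent.H439.MC

open Complex Set Topology Filter Metric MeasureTheory N62a1eb23 Pool.Agent.H712R2
  Pool.Agent.H713R2 Pool.Agent.TH653.MB
open Pool.Agent.Y272.TY (Typ cc rl MM mm rl_pos rl_lt MM_ne_zero log_MM mm_eq)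
open Pool.Agent.W677.Mar (pt)
open Pool.Agent.N772.TC (bd bd_spec hm bd_aem bd_eq)
open scoped ENNReal

variable {d : ℕ} {β : ℂ → ℂ} {ψ : ℂ → ℂ}

theorem sum_sq_le (k : ℕ) : ∑ i ∈ Finset.range k, 1 / ((i : ℝ) + 2) ^ 2 ≤ 1 - 1 / ((k : ℝ) + 1) := by
  induction k with
  | zero => simp
  | succ k ih =>
    rw [Finset.sum_range_succ]
    push_cast
    have h1 : 1 / ((k : ℝ) + 2) ^ 2 ≤ 1 / ((k : ℝ) + 1) - 1 / ((k : ℝ) + 1 + 1) := by
      rw [div_sub_div _ _ (by positivity) (by positivity), div_le_div_iff₀ (by positivity) (by positivity)]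
      nlinarith [(Nat.cast_nonneg k : (0 : ℝ) ≤ k)]
    linarith

theorem log_close {a b u : ℝ} (ha : 0 < a) (hu : u ≤ 1 / 2) (h : |b - a| ≤ a * u) :
    0 < b ∧ |Real.log b - Real.log a| ≤ 2 * u := by
  have h0 : 0 ≤ u := by
    by_contra hneg
    push Not at hneg
    have := (abs_nonneg _).trans h
    nlinarith
  obtain ⟨h1, h2⟩ := abs_le.1 h
  have hb : a * (1 - u) ≤ b := by linarith
  have hb2 : b ≤ a * (1 + u) := by linarith
  have hb0 : 0 < b := lt_of_lt_of_le (mul_pos ha (by linarith)) hb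
  refine ⟨hb0, ?_⟩
  rw [← Real.log_div hb0.ne' ha.ne']
  have hr0 : 0 < b / a := div_pos hb0 ha
  have k1 : b / a ≤ 1 + u := by rw [div_le_iff₀ ha]; linarith
  have k2 : 1 - u ≤ b / a := by rw [le_div_iff₀ ha]; linarith
  rw [abs_le]
  constructor
  · have h3 := Real.one_sub_inv_le_log_of_pos hr0
    have h4 : (b / a)⁻¹ ≤ (1 - u)⁻¹ := inv_anti₀ (by linarith) k2
    have h5 : (1 - u)⁻¹ ≤ 1 + 2 * u := by
      rw [inv_le_iff_one_le_mul₀ (by linarith)]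
      nlinarith
    linarith
  · have h3 := Real.log_le_sub_one_of_pos hr0
    linarith

/-- **distortion** -/
theorem distort (hd : 2 ≤ d) {x c : ℂ} {k : ℕ} (hP : ∀ i < k, P d (i + 1) x ≠ 0)
    (hest : ∀ j ∈ Finset.Icc 1 k, 3 * mm d x j * (∑ i ∈ Finset.Icc 1 j, 1 / mm d x i) * ‖c - x‖ ≤
      ‖P d j x‖ / (d * ((j : ℝ) + 1) ^ 2)) :
    (∀ i < k, P d (i + 1) c ≠ 0) ∧
      |Real.log ‖MM d c (k + 1)‖ - Real.log ‖MM d x (k + 1)‖| ≤ 2 := by
  have hdR : (2 : ℝ) ≤ d := by exact_mod_cast hd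
  have hmm : ∀ j ∈ Finset.Icc 1 k, 0 < mm d x j := by
    intro j hj
    rw [Finset.mem_Icc] at hj
    obtain ⟨i, rfl⟩ : ∃ i, j = i + 1 := ⟨j - 1, by omega⟩
    rw [mm_eq]
    exact norm_pos_iff.2 (MM_ne_zero hd x i (fun l hl => hP l (by omega)))
  have hD := Pool.Agent.Y405.TY.t d x c k hd hmm hest
  have hone : ∀ i < k, ‖P d (i + 1) c‖ ≠ 0 ∧ |Real.log ‖P d (i + 1) c‖ - Real.log ‖P d (i + 1) x‖| ≤
      2 / (d * ((i : ℝ) + 2) ^ 2) := by
    intro i hi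
    have hmem : i + 1 ∈ Finset.Icc 1 k := Finset.mem_Icc.2 ⟨by omega, by omega⟩
    have h1 := (hD (i + 1) hmem).trans (hest (i + 1) hmem)
    have hx0 : 0 < ‖P d (i + 1) x‖ := norm_pos_iff.2 (hP i hi)
    push_cast at h1
    have e1 : (i : ℝ) + 1 + 1 = (i : ℝ) + 2 := by ring
    rw [e1] at h1
    have hu : 1 / (d * ((i : ℝ) + 2) ^ 2) ≤ 1 / 2 := by
      apply one_div_le_one_div_of_le (by norm_num)
      have h7 : (0 : ℝ) ≤ i := Nat.cast_nonneg i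
      nlinarith
    have h2 : |‖P d (i + 1) c‖ - ‖P d (i + 1) x‖| ≤ ‖P d (i + 1) x‖ * (1 / (d * ((i : ℝ) + 2) ^ 2)) := by
      refine (abs_norm_sub_norm_le _ _).trans (h1.trans (le_of_eq ?_))
      ring
    obtain ⟨h3, h4⟩ := log_close hx0 hu h2
    refine ⟨h3.ne', h4.trans (le_of_eq ?_)⟩
    ring
  have hPc : ∀ i < k, P d (i + 1) c ≠ 0 := fun i hi => norm_ne_zero_iff.1 (hone i hi).1
  refine ⟨hPc, ?_⟩
  rw [log_MM hd c k hPc, log_MM hd x k hP]
  have e2 : ↑k * Real.log ↑d + ((d : ℝ) - 1) * ∑ n ∈ Finset.range k, Real.log ‖P d (n + 1) c‖ -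
      (↑k * Real.log ↑d + ((d : ℝ) - 1) * ∑ n ∈ Finset.range k, Real.log ‖P d (n + 1) x‖) =
      ((d : ℝ) - 1) * ∑ n ∈ Finset.range k, (Real.log ‖P d (n + 1) c‖ - Real.log ‖P d (n + 1) x‖) := by
    rw [Finset.sum_sub_distrib]
    ring
  rw [e2, abs_mul, abs_of_pos (by linarith : (0 : ℝ) < (d : ℝ) - 1)]
  have h5 : |∑ n ∈ Finset.range k, (Real.log ‖P d (n + 1) c‖ - Real.log ‖P d (n + 1) x‖)| ≤
      2 / d * ∑ n ∈ Finset.range k, 1 / ((n : ℝ) + 2) ^ 2 := by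
    rw [Finset.mul_sum]
    refine (Finset.abs_sum_le_sum_abs _ _).trans (Finset.sum_le_sum fun i hi => ?_)
    refine (hone i (Finset.mem_range.1 hi)).2.trans (le_of_eq ?_)
    field_simp
  have h6 := sum_sq_le k
  have h7 : (0 : ℝ) ≤ 1 / ((k : ℝ) + 1) := by positivity
  calc ((d : ℝ) - 1) * |∑ n ∈ Finset.range k, (Real.log ‖P d (n + 1) c‖ - Real.log ‖P d (n + 1) x‖)|
      ≤ ((d : ℝ) - 1) * (2 / d * 1) := by
        apply mul_le_mul_of_nonneg_left _ (by linarith)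
        refine h5.trans ?_
        gcongr
        linarith
    _ ≤ 2 := by
        rw [mul_one, ← mul_div_assoc, div_le_iff₀ (by linarith)]
        linarith

/-- the landing points, in disc coordinates -/
noncomputable def cb (ψ : ℂ → ℂ) (θ : ℝ) : ℂ := bd ψ (2 * Real.pi - θ)

theorem lands_bd (hd : 2 ≤ d) (hψ : IsExteriorMap (multibrotSet d) ψ) :
    LandsAt ψ (bd ψ) := by
  filter_upwards [Pool.Agent.Y736.HG.ae_land hd hψ] with θ hθ
  exact bd_spec hθ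

theorem aetyp_cb (hd : 2 ≤ d) (hβ : IsBeta d β) (hψ : IsExteriorMap (multibrotSet d) ψ) :
    AETyp d β (cb ψ) := aetyp_of_lands hd hβ hψ (lands_bd hd hψ)

theorem reflect_set (A : Set ℝ) :
    volume (Ioc 0 (2 * Real.pi) ∩ (fun θ => 2 * Real.pi - θ) ⁻¹' A) = volume (Ioc 0 (2 * Real.pi) ∩ A) := by
  have hmp := Measure.measurePreserving_sub_left (volume : Measure ℝ) (2 * Real.pi)
  have h1 : volume (Ioc 0 (2 * Real.pi) ∩ A) = volume (Ico 0 (2 * Real.pi) ∩ A) := by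
    apply measure_congr
    exact (Ico_ae_eq_Ioc.symm).inter (ae_eq_refl _)
  have h2 : Ioc 0 (2 * Real.pi) ∩ (fun θ => 2 * Real.pi - θ) ⁻¹' A =
      (fun θ => 2 * Real.pi - θ) ⁻¹' (Ico 0 (2 * Real.pi) ∩ A) := by
    ext θ
    simp only [mem_inter_iff, mem_Ioc, mem_preimage, mem_Ico]
    constructor
    · rintro ⟨⟨a1, a2⟩, a3⟩
      exact ⟨⟨by linarith, by linarith⟩, a3⟩
    · rintro ⟨⟨a1, a2⟩, a3⟩
      exact ⟨⟨by linarith, by linarith⟩, a3⟩
  rw [h1, h2]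
  exact hmp.measure_preimage_emb (MeasurableEquiv.subLeft (2 * Real.pi)).measurableEmbedding _

/-- **sets of parameters and sets of angles** -/
theorem pm_le_hm (hd : 2 ≤ d) (hψ : IsExteriorMap (multibrotSet d) ψ) (S : Set ℂ) :
    2 * Real.pi * (Pm {θ | cb ψ θ ∈ S}).toReal ≤ (hm ψ S).toReal := by
  have hpi := Real.pi_pos
  have h1 : volume (Ioc 0 (2 * Real.pi) ∩ (bd ψ) ⁻¹' S) ≤ hm ψ S := by
    unfold hm
    refine le_trans ?_ (Measure.le_map_apply (bd_aem hd hψ).restrict S)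
    rw [Measure.restrict_apply₀' measurableSet_Ioc.nullMeasurableSet, inter_comm]
  have h2 : Pm {θ | cb ψ θ ∈ S} = (ENNReal.ofReal (2 * Real.pi))⁻¹ * volume (Ioc 0 (2 * Real.pi) ∩ (bd ψ) ⁻¹' S) := by
    have e : {θ | cb ψ θ ∈ S} = (fun θ => 2 * Real.pi - θ) ⁻¹' (bd ψ ⁻¹' S) := rfl
    unfold Pm
    rw [Measure.smul_apply, Measure.restrict_apply₀' measurableSet_Ioc.nullMeasurableSet, smul_eq_mul,
      e, inter_comm, reflect_set]
  have h3 := ENNReal.toReal_mono (measure_ne_top _ _) h1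
  rw [h2, ENNReal.toReal_mul, ENNReal.toReal_inv, ENNReal.toReal_ofReal (by positivity)]
  calc 2 * Real.pi * ((2 * Real.pi)⁻¹ * (volume (Ioc 0 (2 * Real.pi) ∩ (bd ψ) ⁻¹' S)).toReal)
      = (volume (Ioc 0 (2 * Real.pi) ∩ (bd ψ) ⁻¹' S)).toReal := by field_simp
    _ ≤ _ := h3

end Pool.Agent.H439.MC
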