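import Mathlib
import Pool.Agent.H439.MC.Prob

/-!
# The derivative of the critical value map and the derivative of the iterate
-/

set_option autoImplicit false

namespace Pool.Agent.H439.MC

open Complex Set Topology Filter Metric MeasureTheory N62a1eb23 Pool.Agent.H712R2
  Pool.Agent.H713R2 Pool.Agent.TH653.MB
open Pool.Agent.Y272.TY (Typ cc rl MM mm rl_pos rl_lt MM_ne_zero log_MM mm_eq MM_succ)

variable {d : ℕ} {β : ℂ → ℂ}

/-- the two derivatives are comparable up to a small exponential factor -/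
def Rat (d : ℕ) (s : ℝ) (k : ℕ) (z : ℂ) : Prop :=
  Real.exp (-(s * √(k : ℝ))) * ‖MM d z k‖ ≤ ‖deriv (P d k) z‖ ∧
    ‖deriv (P d k) z‖ ≤ Real.exp (s * √(k : ℝ)) * ‖MM d z k‖

theorem MM_cont' (d k : ℕ) : Continuous fun c => MM d c k := by
  unfold Pool.Agent.Y272.TY.MM
  apply continuous_finsetProd
  intro i _
  exact continuous_const.mul ((differentiable_P d i).continuous.pow _)

theorem deriv_P_cont (d k : ℕ) : Continuous (deriv (P d k)) :=
  ((differentiable_P d k).contDiff (n := 1)).continuous_deriv le_rfl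

theorem rat_meas (d : ℕ) (s : ℝ) (k : ℕ) : MeasurableSet {z | Rat d s k z} := by
  have e1 : {z | Rat d s k z} = {z | Real.exp (-(s * √(k : ℝ))) * ‖MM d z k‖ ≤ ‖deriv (P d k) z‖} ∩
      {z | ‖deriv (P d k) z‖ ≤ Real.exp (s * √(k : ℝ)) * ‖MM d z k‖} := by
    ext z
    simp only [Rat, mem_ofPred_eq, mem_inter_iff]
  rw [e1]
  apply MeasurableSet.inter
  · exact measurableSet_le ((MM_cont' d k).norm.measurable.const_mul _) (deriv_P_cont d k).norm.measurable
  · exact measurableSet_le (deriv_P_cont d k).norm.measurable ((MM_cont' d k).norm.measurable.const_mul _)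

theorem rat_prob (hd : 2 ≤ d) (hβ : IsBeta d β) {c : ℝ → ℂ} (hc : AETyp d β c) {s : ℝ} (hs : 0 < s) :
    Tendsto (fun k => Pm {θ | ¬ Rat d s k (c θ)}) atTop (𝓝 0) := by
  have hcm := c_meas hβ hc
  apply ev_small (fun k => hcm.nullMeasurableSet_preimage (rat_meas d s k))
  filter_upwards [hc] with θ hθ
  obtain ⟨A, R, h⟩ := hθ
  have hR : 0 < ‖R‖ := norm_pos_iff.2 h.R0
  have h1 : ∀ᶠ n : ℕ in atTop, ‖R‖ / 2 < ‖deriv (P d (n + 1)) (c θ) / MM d (c θ) (n + 1)‖ :=
    h.lim.norm.eventually (lt_mem_nhds (by linarith))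
  have h2 : ∀ᶠ n : ℕ in atTop, ‖deriv (P d (n + 1)) (c θ) / MM d (c θ) (n + 1)‖ < 2 * ‖R‖ :=
    h.lim.norm.eventually (gt_mem_nhds (by linarith))
  have h3 : ∀ᶠ k : ℕ in atTop, ‖R‖ / 2 < ‖deriv (P d k) (c θ) / MM d (c θ) k‖ ∧
      ‖deriv (P d k) (c θ) / MM d (c θ) k‖ < 2 * ‖R‖ := by
    rw [← Filter.map_add_atTop_eq_nat 1, Filter.eventually_map]
    filter_upwards [h1, h2] with n a b
    exact ⟨a, b⟩
  filter_upwards [h3, ev_sqrt2 hs (Real.log (2 * ‖R‖)), ev_sqrt2 hs (-Real.log (‖R‖ / 2)),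
    eventually_ge_atTop 1] with k hk k1 k2 hk1
  obtain ⟨i, rfl⟩ : ∃ i, k = i + 1 := ⟨k - 1, by omega⟩
  have hM : 0 < ‖MM d (c θ) (i + 1)‖ := norm_pos_iff.2 (MM_ne_zero hd _ _ (fun j _ => h.P_ne j))
  rw [norm_div, lt_div_iff₀ hM, div_lt_iff₀ hM] at hk
  constructor
  · refine le_trans ?_ hk.1.le
    apply mul_le_mul_of_nonneg_right _ hM.le
    rw [← Real.exp_log (by linarith : 0 < ‖R‖ / 2)]
    apply Real.exp_le_exp.2
    linarith
  · refine hk.2.le.trans ?_
    apply mul_le_mul_of_nonneg_right _ hM.le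
    rw [← Real.exp_log (by linarith : 0 < 2 * ‖R‖)]
    exact Real.exp_le_exp.2 k1.le

/-- Cauchy's estimate for the variation of the derivative -/
theorem cauchy_two {h : ℂ → ℂ} (hh : Differentiable ℂ h) {x z : ℂ} {R M : ℝ} (hR : 0 < R)
    (hM : ∀ w, ‖w - x‖ ≤ R → ‖h w - h x‖ ≤ M) (hz : ‖z - x‖ ≤ R / 4) :
    ‖deriv h z - deriv h x‖ ≤ 8 * M / R ^ 2 * ‖z - x‖ := by
  have hd1 : ∀ w, ‖w - x‖ ≤ R / 2 → ‖deriv h w‖ ≤ M / (R / 2) := by
    intro w hw
    have h1 : deriv h w = deriv (fun v => h v - h x) w := by rw [deriv_sub_const]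
    rw [h1]
    apply norm_deriv_le_of_forall_mem_sphere_norm_le (by positivity)
      ((hh.sub_const _).diffContOnCl)
    intro v hv
    apply hM
    have h2 : ‖v - w‖ = R / 2 := by rw [← dist_eq_norm]; exact hv
    calc ‖v - x‖ = ‖(v - w) + (w - x)‖ := by ring_nf
      _ ≤ ‖v - w‖ + ‖w - x‖ := norm_add_le _ _
      _ ≤ R := by linarith
  have hd2 : ∀ w, ‖w - x‖ ≤ R / 4 → ‖deriv (deriv h) w‖ ≤ 8 * M / R ^ 2 := by
    intro w hw
    have h1 := norm_deriv_le_of_forall_mem_sphere_norm_le (c := w) (R := R / 4) (C := M / (R / 2))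
      (f := deriv h) (by positivity) (hh.contDiff (n := 2)).differentiable_deriv_two.diffContOnCl (by
        intro v hv
        apply hd1
        have h2 : ‖v - w‖ = R / 4 := by rw [← dist_eq_norm]; exact hv
        calc ‖v - x‖ = ‖(v - w) + (w - x)‖ := by ring_nf
          _ ≤ ‖v - w‖ + ‖w - x‖ := norm_add_le _ _
          _ ≤ R / 2 := by linarith)
    refine h1.trans (le_of_eq ?_)
    field_simp
    ring
  have hconv := (convex_closedBall x (R / 4)).norm_image_sub_le_of_norm_deriv_le (f := deriv h)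
    (C := 8 * M / R ^ 2) (x := x) (y := z)
    (fun w _ => ((hh.contDiff (n := 2)).differentiable_deriv_two).differentiableAt)
    (fun w hw => hd2 w (by rw [← dist_eq_norm]; exact hw))
    (mem_closedBall_self (by positivity)) (by rw [mem_closedBall, dist_eq_norm]; exact hz)
  exact hconv

/-- the recursion for the ratio -/
theorem ratio_succ (hd : 2 ≤ d) {z : ℂ} {m : ℕ} (hm : 1 ≤ m) (hM : MM d z (m + 1) ≠ 0) :
    deriv (P d (m + 1)) z / MM d z (m + 1) = deriv (P d m) z / MM d z m + 1 / MM d z (m + 1) := by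
  have h1 : MM d z (m + 1) = MM d z m * ((d : ℂ) * P d m z ^ (d - 1)) := MM_succ d z hm
  have hPd : deriv (P d (m + 1)) z = (d : ℂ) * P d m z ^ (d - 1) * deriv (P d m) z + 1 := by
    have h2 : (P d (m + 1)) = fun c => (P d m c) ^ d + c := by
      funext c
      exact P_succ d m c
    rw [h2]
    have h3 := ((differentiable_P d m) z).hasDerivAt.pow d
    have h4 := (h3.add (hasDerivAt_id z)).deriv
    rw [← h4]
    rfl
  rw [h1] at hM ⊢
  have hM1 : MM d z m ≠ 0 := left_ne_zero_of_mul hM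
  have hM2 : (d : ℂ) * P d m z ^ (d - 1) ≠ 0 := right_ne_zero_of_mul hM
  rw [hPd]
  obtain ⟨q, hq⟩ : ∃ q, q = (d : ℂ) * P d m z ^ (d - 1) := ⟨_, rfl⟩
  rw [← hq] at hM2 ⊢
  field_simp

end Pool.Agent.H439.MC
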