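import Mathlib
import Pool.Graph.R_pool_sql_team_seeded_63374d34.N896.MB.Exact
import Pool.Agent.H439.MC.Cell1
import Pool.Agent.H439.MC.Cnt2
import Pool.Agent.H439.MC.Rat

/-!
# The number of superattracting parameters with a given size of the derivative
-/

set_option autoImplicit false

namespace Pool.Agent.H439.MC

open Complex Set Topology Filter Metric MeasureTheory N62a1eb23 Pool.Agent.H712R2
  Pool.Agent.H713R2 Pool.Agent.TH653.MB
open Pool.Agent.Y272.TY (Typ cc rl MM mm rl_pos rl_lt MM_ne_zero log_MM mm_eq)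
open Pool.Agent.W677.Mar (pt)
open Pool.Agent.N772.TC (bd bd_spec hm bd_aem bd_eq hm_ball hm_univ)
open Pool.Agent.N896.MB (Ex oh ex_low cen_all per_zero)
open Pool.Agent.R240.LL (KL KL_pos)
open scoped ENNReal

variable {d : ℕ} {β : ℂ → ℂ} {ψ : ℂ → ℂ}

/-- the superattracting parameters of exact period `n` -/
def Cn (d n : ℕ) : Set ℂ := {c | Function.minimalPeriod (fc d c) 0 = n}

theorem Cn_fin (hd : 2 ≤ d) {n : ℕ} (hn : 1 ≤ n) : (Cn d n).Finite :=
  (cen_all hd hn).subset fun _ hc => per_zero hc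

/-- a time shortly before `n` -/
noncomputable def kk (κ : ℝ) (n : ℕ) : ℕ := n - ⌈κ * √(n : ℝ)⌉₊

theorem kk_bounds {κ : ℝ} (hκ : 0 < κ) : ∀ᶠ n : ℕ in atTop,
    (kk κ n : ℝ) ≤ n - κ * √(n : ℝ) ∧ n - κ * √(n : ℝ) - 1 ≤ kk κ n ∧ √(n : ℝ) - 1 ≤ kk κ n ∧ kk κ n ≤ n := by
  filter_upwards [ev_sqrt2 one_pos (κ + 1)] with n hn
  rw [one_mul] at hn
  have hn0 : (0 : ℝ) ≤ n := Nat.cast_nonneg n
  have hqq : √(n : ℝ) * √(n : ℝ) = n := Real.mul_self_sqrt hn0
  have hq1 : 1 ≤ √(n : ℝ) := by linarith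
  have h1 : (⌈κ * √(n : ℝ)⌉₊ : ℝ) < κ * √(n : ℝ) + 1 := Nat.ceil_lt_add_one (by positivity)
  have h2 : κ * √(n : ℝ) ≤ (⌈κ * √(n : ℝ)⌉₊ : ℝ) := Nat.le_ceil _
  have h3 : κ * √(n : ℝ) + √(n : ℝ) ≤ n := by nlinarith
  have h4 : ⌈κ * √(n : ℝ)⌉₊ ≤ n := by
    have : (⌈κ * √(n : ℝ)⌉₊ : ℝ) ≤ n := by linarith
    exact_mod_cast this
  unfold kk
  rw [Nat.cast_sub h4]
  refine ⟨by linarith, by linarith, by linarith, Nat.sub_le _ _⟩

theorem kk_tendsto {κ : ℝ} (hκ : 0 < κ) : Tendsto (kk κ) atTop atTop := by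
  have h1 : Tendsto (fun n : ℕ => (kk κ n : ℝ)) atTop atTop := by
    apply tendsto_atTop_mono' atTop _ (tendsto_atTop_add_const_right atTop (-1) sqrt_n_tendsto)
    filter_upwards [kk_bounds hκ] with n hn
    linarith [hn.2.2.1]
  exact tendsto_natCast_atTop_iff.1 h1

/-- the first time -/
noncomputable def ka (d : ℕ) (ε : ℝ) (n : ℕ) : ℕ := kk (2 * ε / Real.log d) n

/-- the second time -/
noncomputable def kb (d : ℕ) (ε : ℝ) (n : ℕ) : ℕ := kk (3 * ε / (8 * Real.log d)) n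

/-- the normalised derivative at the first time -/
noncomputable def Xp (d : ℕ) (ε : ℝ) (n : ℕ) (z : ℂ) : ℝ :=
  (Real.log ‖MM d z (ka d ε n + 1)‖ - (ka d ε n : ℕ) * Real.log d) / √(n : ℝ)

/-- the two derivatives at the first time are comparable up to a small exponential factor -/
def Rgl (d : ℕ) (ε : ℝ) (n : ℕ) (z : ℂ) : Prop :=
  MM d z (ka d ε n) ≠ 0 ∧ Real.exp (-(ε * √(n : ℝ))) * ‖MM d z (ka d ε n)‖ ≤ ‖deriv (P d (ka d ε n)) z‖ ∧
    ‖deriv (P d (ka d ε n)) z‖ ≤ Real.exp (ε * √(n : ℝ)) * ‖MM d z (ka d ε n)‖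

/-- the good parameters -/
def Good (d : ℕ) (c : ℝ → ℂ) (ε s : ℝ) (n : ℕ) (x : ℂ) : Prop :=
  x ∈ multibrotSet d ∧ (∀ i, P d (i + 1) x ≠ 0) ∧ Grow d s (ka d ε n) x ∧ Mild d s (ka d ε n) x ∧
  Rat d s (ka d ε n) x ∧
  Real.log ‖MM d x (ka d ε n + 1)‖ + Real.log d * ((kb d ε n : ℕ) - (ka d ε n : ℕ)) - s * √(n : ℝ) ≤
    Real.log ‖MM d x (kb d ε n + 1)‖ ∧
  1 / (64 * (d : ℝ) ^ (kb d ε n)) ≤
    (Pm {t | ‖c t - x‖ < Real.exp (s * √((kb d ε n : ℕ) : ℝ)) / ‖MM d x (kb d ε n + 1)‖}).toReal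

theorem good_prob (hd : 2 ≤ d) (hβ : IsBeta d β) {c : ℝ → ℂ} (hc : AETyp d β c) {ε s : ℝ} (hε : 0 < ε)
    (hs : 0 < s) : Tendsto (fun n => Pm {θ | ¬ Good d c ε s n (c θ)}) atTop (𝓝 0) := by
  have hld := logd_pos hd
  have hκ1 : 0 < 2 * ε / Real.log d := by positivity
  have hκ2 : 0 < 3 * ε / (8 * Real.log d) := by positivity
  have t1 : Tendsto (ka d ε) atTop atTop := kk_tendsto hκ1
  have t2 : Tendsto (kb d ε) atTop atTop := kk_tendsto hκ2
  obtain ⟨C, hC, hstep⟩ := step_prob hd hβ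
  have a1 := (grow_prob hd hβ hc hs).comp t1
  have a2 := (mild_prob hd hβ hc hs).comp t1
  have a3 := (hm_prob hd hβ hc hs).comp t2
  have a5 := (rat_prob hd hβ hc hs).comp t1
  have a4 : Tendsto (fun n : ℕ => ENNReal.ofReal (C * (2 * ε / Real.log d + 1) / s ^ 2 / √(n : ℝ))) atTop (𝓝 0) := by
    have h1 : Tendsto (fun n : ℕ => C * (2 * ε / Real.log d + 1) / s ^ 2 / √(n : ℝ)) atTop (𝓝 0) :=
      tendsto_const_nhds.div_atTop sqrt_n_tendsto
    have h2 := (ENNReal.continuous_ofReal.tendsto 0).comp h1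
    rw [ENNReal.ofReal_zero] at h2
    exact h2
  have hsum := (((a5.add a1).add a2).add a3).add a4
  rw [add_zero, add_zero, add_zero, add_zero] at hsum
  apply tendsto_of_tendsto_of_tendsto_of_le_of_le' tendsto_const_nhds hsum
  · exact Eventually.of_forall fun k => zero_le
  filter_upwards [kk_bounds hκ1, kk_bounds hκ2, ev_sqrt2 one_pos 1] with n hk1 hk2 hn1
  rw [one_mul] at hn1
  change _ ∧ _ ∧ _ ∧ ka d ε n ≤ n at hk1
  change _ ∧ _ ∧ _ ∧ kb d ε n ≤ n at hk2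
  obtain ⟨b1, b2, b3, b4⟩ := hk1
  obtain ⟨e1, e2, e3, e4⟩ := hk2
  have hn0 : (0 : ℝ) ≤ n := Nat.cast_nonneg n
  have hqq : √(n : ℝ) * √(n : ℝ) = n := Real.mul_self_sqrt hn0
  have hle : ka d ε n ≤ kb d ε n := by
    apply Nat.sub_le_sub_left
    apply Nat.ceil_le_ceil
    apply mul_le_mul_of_nonneg_right _ (Real.sqrt_nonneg _)
    rw [div_le_div_iff₀ (by positivity) hld]
    nlinarith [mul_pos hε hld]
  have hcard : ((Finset.Ico (ka d ε n) (kb d ε n)).card : ℝ) ≤ (2 * ε / Real.log d + 1) * √(n : ℝ) := by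
    rw [Nat.card_Ico, Nat.cast_sub hle]
    have h3 : ((kb d ε n : ℕ) : ℝ) ≤ n := by exact_mod_cast e4
    have h4 : n - 2 * ε / Real.log d * √(n : ℝ) - 1 ≤ ((ka d ε n : ℕ) : ℝ) := b2
    linarith
  have h5 := hstep c hc (Finset.Ico (ka d ε n) (kb d ε n)) (s * √(n : ℝ)) (by positivity)
  have h6 : C * ((Finset.Ico (ka d ε n) (kb d ε n)).card : ℝ) / (s * √(n : ℝ)) ^ 2 ≤
      C * (2 * ε / Real.log d + 1) / s ^ 2 / √(n : ℝ) := by
    have hq0 : 0 < √(n : ℝ) := by linarith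
    calc C * ((Finset.Ico (ka d ε n) (kb d ε n)).card : ℝ) / (s * √(n : ℝ)) ^ 2
        ≤ C * ((2 * ε / Real.log d + 1) * √(n : ℝ)) / (s * √(n : ℝ)) ^ 2 := by gcongr
      _ = _ := by field_simp
  have h7 := h5.trans (ENNReal.ofReal_le_ofReal h6)
  refine le_trans ?_ (add_le_add le_rfl h7)
  refine le_trans (measure_mono_ae ?_) ((measure_union_le _ _).trans (add_le_add ((measure_union_le _ _).trans
    (add_le_add ((measure_union_le _ _).trans (add_le_add (measure_union_le _ _) le_rfl)) le_rfl)) le_rfl))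
  filter_upwards [hc] with θ hθ hbad
  obtain ⟨A, R, hT⟩ := hθ
  by_cases g0 : Rat d s (ka d ε n) (c θ)
  swap
  · exact Or.inl (Or.inl (Or.inl (Or.inl g0)))
  by_cases g1 : Grow d s (ka d ε n) (c θ)
  swap
  · exact Or.inl (Or.inl (Or.inl (Or.inr g1)))
  by_cases g2 : Mild d s (ka d ε n) (c θ)
  swap
  · exact Or.inl (Or.inl (Or.inr g2))
  by_cases g3 : 1 / (64 * (d : ℝ) ^ (kb d ε n)) ≤
    (Pm {t | ‖c t - c θ‖ < Real.exp (s * √((kb d ε n : ℕ) : ℝ)) / ‖MM d (c θ) (kb d ε n + 1)‖}).toReal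
  swap
  · exact Or.inl (Or.inr g3)
  right
  change s * √(n : ℝ) < |((d : ℝ) - 1) * ∑ i ∈ Finset.Ico (ka d ε n) (kb d ε n), Real.log ‖P d (i + 1) (c θ)‖|
  by_contra hcon
  push Not at hcon
  apply hbad
  refine ⟨hT.mem hd hβ, fun i => hT.P_ne i, g1, g2, g0, ?_, g3⟩
  have h8 := D_sub hd (fun i => hT.P_ne i) hle
  rw [Nat.cast_sub hle] at h8
  have h9 := (abs_le.1 hcon).1
  linarith

/-- the ratio of the derivatives near a good parameter -/
theorem reg_of (hd : 2 ≤ d) {ε s : ℝ} (hε : 0 < ε) (hs : s = ε / 64) {n : ℕ} {x z : ℂ} {W : ℝ}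
    (hxP : ∀ i, P d (i + 1) x ≠ 0) (hka1 : 1 ≤ ka d ε n) (hq0 : 0 < √(n : ℝ))
    (hska : √((ka d ε n : ℕ) : ℝ) ≤ √(n : ℝ)) (_hgrow : Grow d s (ka d ε n) x) (hmild : Mild d s (ka d ε n) x)
    (hrat : Rat d s (ka d ε n) x)
    (hest' : ∀ w : ℂ, ‖w - x‖ ≤ Real.exp (W + 5 / 4 * ε * √(n : ℝ)) →
            ∀ j ∈ Finset.Icc 1 (ka d ε n), 3 * mm d x j * (∑ i ∈ Finset.Icc 1 j, 1 / mm d x i) *
            ‖w - x‖ ≤ ‖P d j x‖ / (d * ((j : ℝ) + 1) ^ 2))
    (hest : ∀ j ∈ Finset.Icc 1 (ka d ε n), 3 * mm d x j * (∑ i ∈ Finset.Icc 1 j, 1 / mm d x i) *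
            ‖z - x‖ ≤ ‖P d j x‖ / (d * ((j : ℝ) + 1) ^ 2))
    (hzx : ‖z - x‖ ≤ Real.exp (W + ε * √(n : ℝ))) (h96 : Real.log 96 < 7 * ε / 32 * √(n : ℝ))
    (hfin : 2 + Real.log 2 < ε / 2 * √(n : ℝ)) : Rgl d ε n z := by
  obtain ⟨k, hk⟩ : ∃ k, ka d ε n = k + 1 := ⟨ka d ε n - 1, by omega⟩
  have hs0 : 0 < s := by rw [hs]; positivity
  have hsn : s * √((ka d ε n : ℕ) : ℝ) ≤ s * √(n : ℝ) := mul_le_mul_of_nonneg_left hska hs0.le
  have hmx : 0 < ‖MM d x (k + 1)‖ := norm_pos_iff.2 (MM_ne_zero hd x _ (fun j _ => hxP j))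
  obtain ⟨hPz, hdis⟩ := distort hd (k := k) (fun i _ => hxP i) (fun j hj => hest j (by
    rw [Finset.mem_Icc] at hj ⊢
    omega))
  have hmz : 0 < ‖MM d z (k + 1)‖ := norm_pos_iff.2 (MM_ne_zero hd z _ (fun j hj => hPz j hj))
  -- comparison of the derivatives
  obtain ⟨E, hE⟩ : ∃ E, E = Real.exp (s * √(n : ℝ)) := ⟨_, rfl⟩
  have hE0 : 0 < E := by rw [hE]; exact Real.exp_pos _
  obtain ⟨R1, hR1⟩ : ∃ R1, R1 = Real.exp (W + 5 / 4 * ε * √(n : ℝ)) := ⟨_, rfl⟩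
  have hR0 : 0 < R1 := by rw [hR1]; exact Real.exp_pos _
  obtain ⟨r1, hr1⟩ : ∃ r1, r1 = Real.exp (W + ε * √(n : ℝ)) := ⟨_, rfl⟩
  have hr0 : 0 < r1 := by rw [hr1]; exact Real.exp_pos _
  have hratio : r1 / R1 = Real.exp (-(ε / 4 * √(n : ℝ))) := by
    rw [hr1, hR1, ← Real.exp_sub]
    congr 1
    ring
  have hsum : ∑ i ∈ Finset.Icc 1 (k + 1), 1 / mm d x i ≤ E := by
    rw [hE]
    exact (hmild.1 (k + 1)).trans (Real.exp_le_exp.2 hsn)
  have hmmk : mm d x (k + 1) = ‖MM d x (k + 1)‖ := mm_eq d x (k + 1)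
  have hmm : ∀ j ∈ Finset.Icc 1 (k + 1), 0 < mm d x j := by
    intro j hj
    rw [Finset.mem_Icc] at hj
    obtain ⟨i, rfl⟩ : ∃ i, j = i + 1 := ⟨j - 1, by omega⟩
    rw [mm_eq]
    exact norm_pos_iff.2 (MM_ne_zero hd x i (fun l _ => hxP l))
  have hvar : ∀ w, ‖w - x‖ ≤ R1 → ‖P d (k + 1) w - P d (k + 1) x‖ ≤ 3 * ‖MM d x (k + 1)‖ * E * R1 := by
    intro w hw
    have h1 := Pool.Agent.Y405.TY.t d x w (k + 1) hd hmm (fun j hj => hest' w (by rw [← hR1]; exact hw) j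
      (by rw [hk]; exact hj)) (k + 1) (Finset.mem_Icc.2 ⟨by omega, le_rfl⟩)
    refine h1.trans ?_
    rw [hmmk]
    gcongr
  have hr4 : r1 ≤ R1 / 4 := by
    have h1 : Real.exp (-(ε / 4 * √(n : ℝ))) ≤ 1 / 4 := by
      have h2 : Real.log 4 ≤ Real.log 96 := Real.log_le_log (by norm_num) (by norm_num)
      have h3 : Real.exp (-(ε / 4 * √(n : ℝ))) ≤ Real.exp (-Real.log 4) := by
        apply Real.exp_le_exp.2
        have : 0 < ε * √(n : ℝ) := by positivity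
        linarith
      rw [Real.exp_neg (Real.log 4), Real.exp_log (by norm_num)] at h3
      refine h3.trans (by norm_num)
    rw [← hratio, div_le_iff₀ hR0] at h1
    linarith
  rw [← hr1] at hzx
  have hcau := cauchy_two (differentiable_P d (k + 1)) hR0 hvar (hzx.trans hr4)
  have hcau2 : ‖deriv (P d (k + 1)) z - deriv (P d (k + 1)) x‖ ≤
      24 * ‖MM d x (k + 1)‖ * E * Real.exp (-(ε / 4 * √(n : ℝ))) := by
    refine hcau.trans ?_
    calc 8 * (3 * ‖MM d x (k + 1)‖ * E * R1) / R1 ^ 2 * ‖z - x‖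
        ≤ 8 * (3 * ‖MM d x (k + 1)‖ * E * R1) / R1 ^ 2 * r1 := by gcongr
      _ = 24 * ‖MM d x (k + 1)‖ * E * (r1 / R1) := by field_simp; ring
      _ = _ := by rw [hratio]
  have hsmall : 24 * ‖MM d x (k + 1)‖ * E * Real.exp (-(ε / 4 * √(n : ℝ))) ≤
      1 / 4 * (E⁻¹ * ‖MM d x (k + 1)‖) := by
    have h1 : 96 * (E * Real.exp (-(ε / 4 * √(n : ℝ)))) ≤ E⁻¹ := by
      rw [hE, ← Real.exp_add, ← Real.exp_neg, ← Real.exp_log (by norm_num : (0 : ℝ) < 96), ← Real.exp_add]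
      apply Real.exp_le_exp.2
      rw [hs]
      linarith
    calc 24 * ‖MM d x (k + 1)‖ * E * Real.exp (-(ε / 4 * √(n : ℝ))) =
          1 / 4 * (96 * (E * Real.exp (-(ε / 4 * √(n : ℝ)))) * ‖MM d x (k + 1)‖) := by ring
      _ ≤ _ := by gcongr
  obtain ⟨hr_lo, hr_up⟩ := hrat
  rw [hk] at hr_lo hr_up hsn
  have hlo : E⁻¹ * ‖MM d x (k + 1)‖ ≤ ‖deriv (P d (k + 1)) x‖ := by
    refine le_trans ?_ hr_lo
    apply mul_le_mul_of_nonneg_right _ hmx.le
    rw [hE, ← Real.exp_neg]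
    exact Real.exp_le_exp.2 (by linarith)
  have hup : ‖deriv (P d (k + 1)) x‖ ≤ E * ‖MM d x (k + 1)‖ := by
    refine hr_up.trans ?_
    apply mul_le_mul_of_nonneg_right _ hmx.le
    rw [hE]
    exact Real.exp_le_exp.2 hsn
  have hE1 : E⁻¹ ≤ E := by
    rw [hE, ← Real.exp_neg]
    apply Real.exp_le_exp.2
    have : 0 < s * √(n : ℝ) := by positivity
    linarith
  have hz1 : 1 / 2 * (E⁻¹ * ‖MM d x (k + 1)‖) ≤ ‖deriv (P d (k + 1)) z‖ := by
    have h1 := norm_sub_norm_le (deriv (P d (k + 1)) x) (deriv (P d (k + 1)) z)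
    rw [norm_sub_rev] at h1
    have h2 : 0 ≤ E⁻¹ * ‖MM d x (k + 1)‖ := by positivity
    linarith
  have hz2 : ‖deriv (P d (k + 1)) z‖ ≤ 2 * (E * ‖MM d x (k + 1)‖) := by
    have h1 := norm_sub_norm_le (deriv (P d (k + 1)) z) (deriv (P d (k + 1)) x)
    have h2 : 0 ≤ E⁻¹ * ‖MM d x (k + 1)‖ := by positivity
    have h3 : E⁻¹ * ‖MM d x (k + 1)‖ ≤ E * ‖MM d x (k + 1)‖ := mul_le_mul_of_nonneg_right hE1 hmx.le
    linarith
  have hdis1 := abs_le.1 hdis
  have hMz1 : ‖MM d z (k + 1)‖ ≤ Real.exp 2 * ‖MM d x (k + 1)‖ := by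
    rw [← Real.exp_log hmz, ← Real.exp_log hmx, ← Real.exp_add]
    exact Real.exp_le_exp.2 (by linarith [hdis1.2])
  have hMz2 : ‖MM d x (k + 1)‖ ≤ Real.exp 2 * ‖MM d z (k + 1)‖ := by
    rw [← Real.exp_log hmz, ← Real.exp_log hmx, ← Real.exp_add]
    exact Real.exp_le_exp.2 (by linarith [hdis1.1])
  have hbig : 2 * Real.exp 2 * E ≤ Real.exp (ε * √(n : ℝ)) := by
    rw [hE, ← Real.exp_log (by norm_num : (0 : ℝ) < 2), ← Real.exp_add, ← Real.exp_add]
    apply Real.exp_le_exp.2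
    rw [Real.exp_log (by norm_num : (0 : ℝ) < 2), hs]
    have : 0 < ε * √(n : ℝ) := by positivity
    linarith
  refine ⟨by rw [hk]; exact norm_pos_iff.1 hmz, ?_, ?_⟩
  · rw [hk]
    refine le_trans ?_ hz1
    have h1 : Real.exp (-(ε * √(n : ℝ))) ≤ (2 * Real.exp 2 * E)⁻¹ := by
      rw [Real.exp_neg]
      exact inv_anti₀ (by positivity) hbig
    calc Real.exp (-(ε * √(n : ℝ))) * ‖MM d z (k + 1)‖ ≤ (2 * Real.exp 2 * E)⁻¹ * (Real.exp 2 * ‖MM d x (k + 1)‖) := by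
          gcongr
      _ = 1 / 2 * (E⁻¹ * ‖MM d x (k + 1)‖) := by
          have := Real.exp_pos 2
          field_simp
  · rw [hk]
    refine hz2.trans ?_
    calc 2 * (E * ‖MM d x (k + 1)‖) ≤ 2 * (E * (Real.exp 2 * ‖MM d z (k + 1)‖)) := by gcongr
      _ = 2 * Real.exp 2 * E * ‖MM d z (k + 1)‖ := by ring
      _ ≤ _ := by gcongr

/-- **The number of superattracting parameters with a given size of the derivative.** -/
theorem cell_count (hd : 2 ≤ d) (hβ : IsBeta d β) (hψ : IsExteriorMap (multibrotSet d) ψ) {ε : ℝ}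
    (hε : 0 < ε) {a b g η : ℝ} (hab : b - a ≤ ε / 32) (hg : 0 < g) (hη : 0 < η) {u : ℂ → ℝ}
    (hu : Continuous u) (t : ℝ) {δ : ℝ} (hδ : 0 < δ) :
    ∀ᶠ n : ℕ in atTop, (d : ℝ) ^ (n - 1) *
      ((Pm {θ | t ≤ u (cb ψ θ) ∧ a ≤ Xp d ε n (cb ψ θ) ∧ Xp d ε n (cb ψ θ) ≤ b}).toReal - η) ≤
      ({z | z ∈ Cn d n ∧ t - δ < u z ∧ a - g < Xp d ε n z ∧ Xp d ε n z < b + g ∧ Rgl d ε n z}.ncard : ℝ) := by
  have hpi := Real.pi_pos
  have hdR : (2 : ℝ) ≤ d := by exact_mod_cast hd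
  have hd0 : (0 : ℝ) < d := by linarith
  obtain ⟨χ, hχe⟩ : ∃ χ, χ = Real.log d := ⟨_, rfl⟩
  have hχ : 0 < χ := by rw [hχe]; exact Real.log_pos (by linarith)
  have hc := aetyp_cb hd hβ hψ
  have hκ1 : 0 < 2 * ε / Real.log d := by rw [← hχe]; positivity
  have hκ2 : 0 < 3 * ε / (8 * Real.log d) := by rw [← hχe]; positivity
  obtain ⟨s, hs⟩ : ∃ s : ℝ, s = ε / 64 := ⟨_, rfl⟩
  have hs0 : 0 < s := by rw [hs]; positivity
  obtain ⟨η', hη'⟩ : ∃ η' : ℝ, η' = min (η / 8) (1 / 10) := ⟨_, rfl⟩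
  have hη0 : 0 < η' := by rw [hη']; exact lt_min (by positivity) (by norm_num)
  have hη8 : η' ≤ η / 8 := by rw [hη']; exact min_le_left _ _
  have hη10 : η' ≤ 1 / 10 := by rw [hη']; exact min_le_right _ _
  have hK0 := KL_pos
  obtain ⟨g', hg'0, hg'⟩ : ∃ g' : ℝ, 0 < g' ∧ ∀ x z : ℂ, ‖x‖ ≤ 2 → ‖z - x‖ ≤ g' → |u z - u x| < δ := by
    have h1 := (isCompact_closedBall (0 : ℂ) 3).uniformContinuousOn_of_continuous hu.continuousOn
    rw [Metric.uniformContinuousOn_iff] at h1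
    obtain ⟨g₁, hg1, h2⟩ := h1 δ hδ
    refine ⟨min (g₁ / 2) 1, lt_min (by positivity) one_pos, fun x z hx hz => ?_⟩
    have h3 : ‖z - x‖ ≤ 1 := hz.trans (min_le_right _ _)
    have h4 : ‖z - x‖ ≤ g₁ / 2 := hz.trans (min_le_left _ _)
    have h5 : ‖z‖ ≤ 3 := by
      have := norm_add_le (z - x) x
      rw [sub_add_cancel] at this
      linarith
    have h6 := h2 z (by rw [mem_closedBall_zero_iff]; exact h5) x
      (by rw [mem_closedBall_zero_iff]; linarith) (by rw [dist_eq_norm]; linarith)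
    rwa [Real.dist_eq] at h6
  have hcnt := count2 (ν := hm ψ) (χ := χ) (η := η') (K := 32 * (KL + 1) * Real.log d)
    (c₁ := 1 / (2 * Real.pi * d)) (V := 2 * Real.pi) (ε := ε) (y := b) hχ hε hη0 (by linarith)
    (by rw [← hχe]; positivity) (by positivity) (hm_univ hd hψ) (by positivity) (Cn d)
    (fun n => {z | z ∈ Cn d n ∧ t - δ < u z ∧ a - g < Xp d ε n z ∧ Xp d ε n z < b + g ∧ Rgl d ε n z})
    (fun n hn => Cn_fin hd hn)
    (fun n z hz => hz.1) (fun n => (d : ℝ) ^ (1 - (n : ℝ) / 4)) (by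
      have h1 : Tendsto (fun n : ℕ => Real.exp (-(χ / 4 * (n : ℝ) - χ))) atTop (𝓝 0) := by
        refine Real.tendsto_exp_neg_atTop_nhds_zero.comp ?_
        apply tendsto_atTop_add_const_right
        exact (tendsto_natCast_atTop_atTop).const_mul_atTop (by positivity)
      refine h1.congr fun n => ?_
      rw [Real.rpow_def_of_pos hd0, ← hχe]
      congr 1
      ring) (multibrotSet d) (by
      intro n hn x hx r δ hr hδ0 hδ1
      have h1 := ex_low hd hψ hx hn hr hδ0 hδ1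
      have e1 : Ex d n x ((1 + δ) * r) = Cn d n ∩ ball x ((1 + δ) * r) := by
        ext c
        exact ⟨fun h => ⟨h.2, h.1⟩, fun h => ⟨h.2, h.1⟩⟩
      have e2 : (d : ℝ) ^ (n - 1) * oh ψ x r =
          1 / (2 * Real.pi * d) * Real.exp (χ * n) * (hm ψ (ball x r)).toReal := by
        have e3 : Real.exp (χ * n) = (d : ℝ) ^ (n - 1) * d := by
          rw [← pow_succ, Nat.sub_add_cancel hn, hχe, mul_comm, Real.exp_nat_mul,
            Real.exp_log hd0]
        rw [e3, hm_ball hd hψ]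
        unfold oh
        field_simp
      rw [e1, e2] at h1
      refine h1.trans (le_of_eq ?_)
      ring)
    (fun n => {x | Good d (cb ψ) ε s n x ∧ t ≤ u x ∧ a ≤ Xp d ε n x ∧ Xp d ε n x ≤ b})
    (by
      have hrg : ∀ᶠ n : ℕ in atTop, Real.exp (-(χ * n + b * √(n : ℝ)) + ε * √(n : ℝ)) ≤ g' := by
        filter_upwards [ev_sqrt2 hχ (1 + ε + |b|), ev_sqrt2 one_pos (-Real.log g'), ev_sqrt2 one_pos 0] with n h1 h2 h3
        rw [one_mul] at h2 h3
        rw [← Real.exp_log hg'0]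
        apply Real.exp_le_exp.2
        have hqq : √(n : ℝ) * √(n : ℝ) = n := Real.mul_self_sqrt (Nat.cast_nonneg n)
        have h4 := mul_le_mul_of_nonneg_right h1.le h3.le
        have h5 : χ * √(n : ℝ) * √(n : ℝ) = χ * n := by rw [mul_assoc, hqq]
        rw [h5] at h4
        have h6 : -b ≤ |b| := neg_le_abs b
        have h7 := mul_le_mul_of_nonneg_right h6 h3.le
        linarith
      have hlog : ∀ᶠ n : ℕ in atTop, Real.log 3 + Real.log d + 2 * Real.log ((n : ℝ) + 2) ≤ ε / 2 * √(n : ℝ) := by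
        obtain ⟨K, hK0, hK⟩ := log_sq_le (A := 4) (by norm_num) (by positivity : 0 < ε / 4)
        filter_upwards [ev_sqrt2 (by positivity : 0 < ε / 4) (K + Real.log 3 + Real.log d)] with n hn
        have h1 := hK n
        have h3 := Pool.Agent.Y272.TY.log_two_le n
        have h2 : 2 * Real.log ((n : ℝ) + 2) ≤ 4 * Real.log ((n : ℝ) + 2) ^ 2 := by nlinarith
        linarith
      filter_upwards [kk_bounds hκ1, kk_bounds hκ2, ev_sqrt2 one_pos 1, hlog, ev_sqrt2 hg 2,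
        ev_sqrt2 (by positivity : 0 < ε / 32) χ, hrg,
        ev_sqrt2 (by positivity : 0 < ε / 8) (-Real.log (Real.pi / 32)),
        ev_sqrt2 (by positivity : 0 < 7 * ε / 32) (Real.log 96), ev_sqrt2 (by positivity : 0 < ε / 2) (2 + Real.log 2),
        (kk_tendsto hκ1).eventually_ge_atTop 1]
        with n hk1 hk2 hn1 hlogn hgn hχn hrgn hπn h96 hfin hka1
      change 1 ≤ ka d ε n at hka1
      rw [one_mul] at hn1
      obtain ⟨p1, p2, p3, p4⟩ := hk1
      obtain ⟨q1, q2, q3, q4⟩ := hk2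
      change ((ka d ε n : ℕ) : ℝ) ≤ _ at p1
      change _ ≤ ((ka d ε n : ℕ) : ℝ) at p2
      change ka d ε n ≤ n at p4
      change ((kb d ε n : ℕ) : ℝ) ≤ _ at q1
      change _ ≤ ((kb d ε n : ℕ) : ℝ) at q2
      change kb d ε n ≤ n at q4
      rw [← hχe] at p1 p2 q1 q2
      have hq0 : 0 < √(n : ℝ) := by linarith
      have c1 : χ * (ka d ε n : ℕ) ≤ χ * n - 2 * ε * √(n : ℝ) := by
        have := mul_le_mul_of_nonneg_left p1 hχ.le
        have e : χ * (n - 2 * ε / χ * √(n : ℝ)) = χ * n - 2 * ε * √(n : ℝ) := by field_simp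
        linarith
      have c2 : χ * n - 3 * ε / 8 * √(n : ℝ) - χ ≤ χ * (kb d ε n : ℕ) := by
        have := mul_le_mul_of_nonneg_left q2 hχ.le
        have e : χ * (n - 3 * ε / (8 * χ) * √(n : ℝ) - 1) = χ * n - 3 * ε / 8 * √(n : ℝ) - χ := by field_simp
        linarith
      have c3 : χ * (kb d ε n : ℕ) ≤ χ * n - 3 * ε / 8 * √(n : ℝ) := by
        have := mul_le_mul_of_nonneg_left q1 hχ.le
        have e : χ * (n - 3 * ε / (8 * χ) * √(n : ℝ)) = χ * n - 3 * ε / 8 * √(n : ℝ) := by field_simp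
        linarith
      have hska : √((ka d ε n : ℕ) : ℝ) ≤ √(n : ℝ) := Real.sqrt_le_sqrt (by exact_mod_cast p4)
      have hskb : √((kb d ε n : ℕ) : ℝ) ≤ √(n : ℝ) := Real.sqrt_le_sqrt (by exact_mod_cast q4)
      rintro x ⟨⟨hxM, hxP, hgrow, hmild, hrat, hkb, hmeas⟩, hxt, hxa, hxb⟩
      have hMa : 0 < ‖MM d x (ka d ε n + 1)‖ := norm_pos_iff.2 (MM_ne_zero hd x _ (fun j _ => hxP j))
      have hMb : 0 < ‖MM d x (kb d ε n + 1)‖ := norm_pos_iff.2 (MM_ne_zero hd x _ (fun j _ => hxP j))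
      set LD := Real.log ‖MM d x (ka d ε n + 1)‖ with hLD
      have hXx : LD = (ka d ε n : ℕ) * χ + Xp d ε n x * √(n : ℝ) := by
        unfold Xp
        rw [← hLD, ← hχe]
        field_simp
        ring
      have hLDb : LD ≤ χ * n - 2 * ε * √(n : ℝ) + b * √(n : ℝ) := by
        have := mul_le_mul_of_nonneg_right hxb hq0.le
        linarith
      refine ⟨hxM, ?_, ?_⟩
      · intro z hz hzx
        -- distortion
        have hest' : ∀ w : ℂ, ‖w - x‖ ≤ Real.exp (-(χ * n + b * √(n : ℝ)) + 5 / 4 * ε * √(n : ℝ)) →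
            ∀ j ∈ Finset.Icc 1 (ka d ε n), 3 * mm d x j * (∑ i ∈ Finset.Icc 1 j, 1 / mm d x i) *
            ‖w - x‖ ≤ ‖P d j x‖ / (d * ((j : ℝ) + 1) ^ 2) := by
          intro w hwx j hj
          rw [Finset.mem_Icc] at hj
          obtain ⟨i, rfl⟩ : ∃ i, j = i + 1 := ⟨j - 1, by omega⟩
          have hMi : 0 < ‖MM d x (i + 1)‖ := norm_pos_iff.2 (MM_ne_zero hd x _ (fun j _ => hxP j))
          have k1 : mm d x (i + 1) ≤ Real.exp (LD + s * √(n : ℝ)) := by
            rw [mm_eq, ← Real.exp_log hMi]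
            apply Real.exp_le_exp.2
            have h1 := hgrow i (by omega)
            have h2 := mul_le_mul_of_nonneg_left hska hs0.le
            linarith
          have k2 : ∑ l ∈ Finset.Icc 1 (i + 1), 1 / mm d x l ≤ Real.exp (s * √(n : ℝ)) := by
            refine (hmild.1 (i + 1)).trans (Real.exp_le_exp.2 ?_)
            exact mul_le_mul_of_nonneg_left hska hs0.le
          have k3 : Real.exp (-(s * √(n : ℝ))) ≤ ‖P d (i + 1) x‖ := by
            refine le_trans (Real.exp_le_exp.2 ?_) (hmild.2 (i + 1) (by omega) hj.2)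
            have := mul_le_mul_of_nonneg_left hska hs0.le
            linarith
          have k20 : 0 ≤ ∑ l ∈ Finset.Icc 1 (i + 1), 1 / mm d x l := by
            apply Finset.sum_nonneg
            intro l _
            rw [mm_eq]
            positivity
          have hin : ((i + 1 : ℕ) : ℝ) + 1 ≤ (n : ℝ) + 2 := by
            have : ((i + 1 : ℕ) : ℝ) ≤ n := by exact_mod_cast hj.2.trans p4
            linarith
          have k4 : 3 * mm d x (i + 1) * (∑ l ∈ Finset.Icc 1 (i + 1), 1 / mm d x l) * ‖w - x‖ ≤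
              3 * Real.exp (LD + s * √(n : ℝ)) * Real.exp (s * √(n : ℝ)) *
                Real.exp (-(χ * n + b * √(n : ℝ)) + 5 / 4 * ε * √(n : ℝ)) := by
            gcongr
          refine k4.trans ?_
          have k5 : Real.exp (-(s * √(n : ℝ))) / (d * ((n : ℝ) + 2) ^ 2) ≤
              ‖P d (i + 1) x‖ / (d * (((i + 1 : ℕ) : ℝ) + 1) ^ 2) := by
            apply div_le_div₀ (norm_nonneg _) k3 (by positivity)
            gcongr
          refine le_trans ?_ k5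
          have hn2 : (0 : ℝ) < (n : ℝ) + 2 := by positivity
          have e5 : Real.exp (-(s * √(n : ℝ))) / (d * ((n : ℝ) + 2) ^ 2) =
              Real.exp (-(s * √(n : ℝ)) - Real.log d - 2 * Real.log ((n : ℝ) + 2)) := by
            rw [Real.exp_sub, Real.exp_sub, Real.exp_log hd0, div_div]
            congr 2
            rw [show 2 * Real.log ((n : ℝ) + 2) = Real.log (((n : ℝ) + 2) ^ 2) by rw [Real.log_pow]; push_cast; ring,
              Real.exp_log (by positivity)]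
          have e6 : 3 * Real.exp (LD + s * √(n : ℝ)) * Real.exp (s * √(n : ℝ)) *
                Real.exp (-(χ * n + b * √(n : ℝ)) + 5 / 4 * ε * √(n : ℝ)) =
              Real.exp (Real.log 3 + (LD + s * √(n : ℝ)) + s * √(n : ℝ) +
                (-(χ * n + b * √(n : ℝ)) + 5 / 4 * ε * √(n : ℝ))) := by
            have key : ∀ A B C : ℝ, 3 * Real.exp A * Real.exp B * Real.exp C =
                Real.exp (Real.log 3 + A + B + C) := by
              intro A B C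
              rw [Real.exp_add, Real.exp_add, Real.exp_add, Real.exp_log (by norm_num : (0 : ℝ) < 3)]
            exact key _ _ _
          rw [e5, e6]
          apply Real.exp_le_exp.2
          have h64 : 3 * (s * √(n : ℝ)) ≤ ε / 4 * √(n : ℝ) := by
            rw [hs]
            have : 0 < ε * √(n : ℝ) := by positivity
            linarith
          linarith
        have hrr : Real.exp (-(χ * n + b * √(n : ℝ)) + ε * √(n : ℝ)) ≤
            Real.exp (-(χ * n + b * √(n : ℝ)) + 5 / 4 * ε * √(n : ℝ)) := by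
          apply Real.exp_le_exp.2
          have : 0 < ε * √(n : ℝ) := by positivity
          linarith
        have hest := hest' z (hzx.trans hrr)
        have hreg : Rgl d ε n z := reg_of hd hε hs hxP hka1 hq0 hska hgrow hmild hrat hest' hest hzx h96 hfin
        obtain ⟨_, hdis⟩ := distort hd (fun i _ => hxP i) hest
        have hXz : |Xp d ε n z - Xp d ε n x| < g := by
          unfold Xp
          rw [← sub_div, abs_div, abs_of_pos hq0, div_lt_iff₀ hq0, sub_sub_sub_cancel_right]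
          exact hdis.trans_lt hgn
        rw [abs_lt] at hXz
        have hx2 : ‖x‖ ≤ 2 := by
          have h1 := (Pool.Agent.H712R2.mem_multibrot_iff hd x).1 hxM 1
          rw [show P d 1 x = x by rw [P_succ, P_zero, zero_pow (by omega), zero_add]] at h1
          exact h1
        have hux := abs_lt.1 (hg' x z hx2 (hzx.trans hrgn))
        exact ⟨hz, by linarith [hux.1], by linarith [hXz.1], by linarith [hXz.2], hreg⟩
      · -- harmonic measure
        have hrad : Real.exp (s * √((kb d ε n : ℕ) : ℝ)) / ‖MM d x (kb d ε n + 1)‖ ≤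
            Real.exp (-(χ * n + b * √(n : ℝ)) + ε / 2 * √(n : ℝ)) := by
          rw [← Real.exp_log hMb, ← Real.exp_sub]
          apply Real.exp_le_exp.2
          have h1 := mul_le_mul_of_nonneg_left hskb hs0.le
          rw [← hχe] at hkb
          have h2 := mul_le_mul_of_nonneg_right hxa hq0.le
          have h3 : (b - a) * √(n : ℝ) ≤ ε / 32 * √(n : ℝ) := mul_le_mul_of_nonneg_right hab hq0.le
          have h4 : s * √(n : ℝ) = ε / 64 * √(n : ℝ) := by rw [hs]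
          have h5 : 0 < ε * √(n : ℝ) := by positivity
          linarith
        have h1 := pm_le_hm hd hψ (ball x (Real.exp (-(χ * n + b * √(n : ℝ)) + ε / 2 * √(n : ℝ))))
        refine le_trans ?_ h1
        have h2 : (Pm {t | ‖cb ψ t - x‖ < Real.exp (s * √((kb d ε n : ℕ) : ℝ)) / ‖MM d x (kb d ε n + 1)‖}).toReal ≤
            (Pm {θ | cb ψ θ ∈ ball x (Real.exp (-(χ * n + b * √(n : ℝ)) + ε / 2 * √(n : ℝ)))}).toReal := by
          apply ENNReal.toReal_mono (measure_ne_top _ _)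
          apply measure_mono
          intro t ht
          change ‖cb ψ t - x‖ < _ at ht
          change cb ψ t ∈ ball x _
          rw [mem_ball, dist_eq_norm]
          exact ht.trans_le hrad
        have h3 := hmeas.trans h2
        have h4 := mul_le_mul_of_nonneg_left h3 (by positivity : 0 ≤ 2 * Real.pi)
        refine le_trans ?_ h4
        have e1 : 2 * Real.pi * (1 / (64 * (d : ℝ) ^ (kb d ε n))) =
            Real.exp (Real.log (Real.pi / 32) - χ * (kb d ε n : ℕ)) := by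
          rw [Real.exp_sub, Real.exp_log (by positivity), hχe, mul_comm (Real.log _) _, Real.exp_nat_mul,
            Real.exp_log hd0]
          field_simp
          norm_num
        rw [e1]
        apply Real.exp_le_exp.2
        linarith)
  have hgood := good_prob hd hβ hc hε hs0
  have hgood' : ∀ᶠ n : ℕ in atTop, (Pm {θ | ¬ Good d (cb ψ) ε s n (cb ψ θ)}).toReal < η / 2 := by
    have h1 := (ENNReal.tendsto_toReal ENNReal.zero_ne_top).comp hgood
    rw [ENNReal.toReal_zero] at h1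
    exact h1.eventually_lt_const (by positivity)
  filter_upwards [hcnt, hgood', eventually_ge_atTop 1] with n hn hgn hn1
  refine le_trans ?_ hn
  have e3 : Real.exp (χ * n) = (d : ℝ) ^ (n - 1) * d := by
    rw [← pow_succ, Nat.sub_add_cancel hn1, hχe, mul_comm, Real.exp_nat_mul, Real.exp_log hd0]
  have h1 := pm_le_hm hd hψ {x | Good d (cb ψ) ε s n x ∧ t ≤ u x ∧ a ≤ Xp d ε n x ∧ Xp d ε n x ≤ b}
  have h2 : (Pm {θ | t ≤ u (cb ψ θ) ∧ a ≤ Xp d ε n (cb ψ θ) ∧ Xp d ε n (cb ψ θ) ≤ b}).toReal ≤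
      (Pm {θ | cb ψ θ ∈ {x | Good d (cb ψ) ε s n x ∧ t ≤ u x ∧ a ≤ Xp d ε n x ∧ Xp d ε n x ≤ b}}).toReal +
      (Pm {θ | ¬ Good d (cb ψ) ε s n (cb ψ θ)}).toReal := by
    rw [← ENNReal.toReal_add (measure_ne_top _ _) (measure_ne_top _ _)]
    apply ENNReal.toReal_mono (by finiteness)
    refine le_trans (measure_mono ?_) (measure_union_le _ _)
    intro θ hθ
    by_cases h3 : Good d (cb ψ) ε s n (cb ψ θ)
    · exact Or.inl ⟨h3, hθ⟩
    · exact Or.inr h3
  obtain ⟨p, hp⟩ : ∃ p, p = (Pm {θ | t ≤ u (cb ψ θ) ∧ a ≤ Xp d ε n (cb ψ θ) ∧ Xp d ε n (cb ψ θ) ≤ b}).toReal :=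
    ⟨_, rfl⟩
  obtain ⟨q, hq⟩ : ∃ q, q = (Pm {θ | cb ψ θ ∈ {x | Good d (cb ψ) ε s n x ∧ t ≤ u x ∧ a ≤ Xp d ε n x ∧
    Xp d ε n x ≤ b}}).toReal := ⟨_, rfl⟩
  obtain ⟨h, hh⟩ : ∃ h, h = (hm ψ {x | Good d (cb ψ) ε s n x ∧ t ≤ u x ∧ a ≤ Xp d ε n x ∧
    Xp d ε n x ≤ b}).toReal := ⟨_, rfl⟩
  rw [← hp, ← hq] at h2
  rw [← hq, ← hh] at h1
  rw [← hp, ← hh, e3]
  have hdn : (0 : ℝ) < (d : ℝ) ^ (n - 1) := by positivity
  have e4 : 1 / (2 * Real.pi * d) * ((d : ℝ) ^ (n - 1) * d) * (h - 4 * η' * (2 * Real.pi)) =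
      (d : ℝ) ^ (n - 1) * (h / (2 * Real.pi) - 4 * η') := by field_simp
  rw [e4]
  apply mul_le_mul_of_nonneg_left _ hdn.le
  have h5 : q ≤ h / (2 * Real.pi) := by
    rw [le_div_iff₀ (by positivity)]
    linarith
  linarith

end Pool.Agent.H439.MC
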