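import Mathlib
import Pool.Agent.H439.MC.Cell
import Pool.Agent.H439.MC.Asm1

/-!
# Sums over the superattracting parameters
-/

set_option autoImplicit false

namespace Pool.Agent.H439.MC

open Complex Set Topology Filter Metric MeasureTheory N62a1eb23 Pool.Agent.H712R2
  Pool.Agent.H713R2 Pool.Agent.TH653.MB
open Pool.Agent.Y272.TY (Typ cc rl MM mm rl_pos rl_lt MM_ne_zero log_MM mm_eq)
open Pool.Agent.N772.TC (bd bd_spec hm bd_aem bd_eq hm_ball hm_univ)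
open scoped ENNReal

variable {d : ℕ} {β : ℂ → ℂ} {ψ : ℂ → ℂ}

/-- the superattracting parameters of exact period `n`, as a finite set -/
noncomputable def Zn (d n : ℕ) : Finset ℂ := by
  classical
  exact if h : (Cn d n).Finite then h.toFinset else ∅

theorem mem_Zn (hd : 2 ≤ d) {n : ℕ} (hn : 1 ≤ n) {z : ℂ} : z ∈ Zn d n ↔ z ∈ Cn d n := by
  unfold Zn
  rw [dif_pos (Cn_fin hd hn), Set.Finite.mem_toFinset]

theorem Zn_card (hd : 2 ≤ d) {n : ℕ} (hn : 1 ≤ n) : ((Zn d n).card : ℝ) ≤ (d : ℝ) ^ (n - 1) := by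
  classical
  obtain ⟨N, rfl⟩ : ∃ N, n = N + 1 := ⟨n - 1, by omega⟩
  have h0 : Pool.Agent.H712R2.PP d (N + 1) ≠ 0 := by
    intro h
    have h1 := natDegree_PP hd N
    rw [h, Polynomial.natDegree_zero] at h1
    have : 0 < d ^ N := pow_pos (by omega) N
    omega
  have h1 : Zn d (N + 1) ⊆ (Pool.Agent.H712R2.PP d (N + 1)).roots.toFinset := by
    intro x hx
    rw [mem_Zn hd hn] at hx
    rw [Multiset.mem_toFinset, Polynomial.mem_roots h0, Polynomial.IsRoot.def, eval_PP]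
    exact Pool.Agent.N896.MB.per_zero hx
  have h2 : (Zn d (N + 1)).card ≤ d ^ N := by
    refine (Finset.card_le_card h1).trans ?_
    refine (Multiset.toFinset_card_le _).trans ?_
    refine (Polynomial.card_roots' _).trans ?_
    rw [natDegree_PP hd N]
  rw [Nat.add_sub_cancel]
  exact_mod_cast h2

theorem Xp_meas (hβ : IsBeta d β) {c : ℝ → ℂ} (hc : AETyp d β c) (ε : ℝ) (n : ℕ) :
    AEMeasurable (fun θ => Xp d ε n (c θ)) Pm := by
  have h1 : Measurable fun z : ℂ => Xp d ε n z :=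
    ((Real.measurable_log.comp (MM_cont d (ka d ε n + 1)).norm.measurable).sub_const _).div_const _
  exact h1.comp_aemeasurable (c_meas hβ hc)

theorem ka_le (d : ℕ) (ε : ℝ) (n : ℕ) : ka d ε n ≤ n := Nat.sub_le _ _

theorem Xp_eq (hd : 2 ≤ d) {z : ℂ} {ε : ℝ} {n : ℕ} (h : ∀ j < ka d ε n, P d (j + 1) z ≠ 0) :
    Xp d ε n z = (((d : ℝ) - 1) * ∑ i ∈ Finset.range (ka d ε n), Real.log ‖P d (i + 1) z‖) / √(n : ℝ) := by
  unfold Xp
  rw [log_MM hd z _ h]
  congr 1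
  ring

/-- tightness -/
theorem tail_prob (hd : 2 ≤ d) (hβ : IsBeta d β) : ∃ C : ℝ, 0 < C ∧ ∀ c : ℝ → ℂ, AETyp d β c →
    ∀ (ε B : ℝ) (n : ℕ), 0 < B → 1 ≤ n → (Pm {θ | B < |Xp d ε n (c θ)|}).toReal ≤ C / B ^ 2 := by
  obtain ⟨C, hC, h⟩ := step_prob hd hβ
  refine ⟨C, hC, ?_⟩
  intro c hc ε B n hB hn
  have hn0 : (0 : ℝ) < n := by exact_mod_cast hn
  have hq0 : 0 < √(n : ℝ) := Real.sqrt_pos.2 hn0
  have h1 := h c hc (Finset.range (ka d ε n)) (B * √(n : ℝ)) (by positivity)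
  have h2 : Pm {θ | B < |Xp d ε n (c θ)|} ≤ ENNReal.ofReal (C / B ^ 2) := by
    refine le_trans (le_trans (measure_mono_ae ?_) h1) (ENNReal.ofReal_le_ofReal ?_)
    · filter_upwards [hc] with θ hθ hb
      obtain ⟨A, R, hT⟩ := hθ
      change B * √(n : ℝ) < |((d : ℝ) - 1) * ∑ i ∈ Finset.range (ka d ε n), Real.log ‖P d (i + 1) (c θ)‖|
      have h3 : B < |Xp d ε n (c θ)| := hb
      rw [Xp_eq hd (fun j _ => hT.P_ne j), abs_div, abs_of_pos hq0, lt_div_iff₀ hq0] at h3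
      exact h3
    · rw [Finset.card_range, mul_pow, Real.sq_sqrt hn0.le, div_le_div_iff₀ (by positivity) (by positivity)]
      have h3 : ((ka d ε n : ℕ) : ℝ) ≤ n := by exact_mod_cast ka_le d ε n
      calc C * (ka d ε n : ℕ) * B ^ 2 ≤ C * n * B ^ 2 := by gcongr
        _ = C * (B ^ 2 * n) := by ring
  have h3 := ENNReal.toReal_mono ENNReal.ofReal_ne_top h2
  rwa [ENNReal.toReal_ofReal (by positivity)] at h3

open scoped Classical in
/-- **lower bound**, for the parameters with `t ≤ u` -/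
theorem lower_t (hd : 2 ≤ d) (hβ : IsBeta d β) (hψ : IsExteriorMap (multibrotSet d) ψ) {ε : ℝ}
    (hε : 0 < ε) {u : ℂ → ℝ} (hu : Continuous u) (t : ℝ) {δ : ℝ} (hδ : 0 < δ) {F : ℝ → ℝ}
    (hFm : Measurable F) (hF0 : ∀ x, 0 ≤ F x) (hF1 : ∀ x, F x ≤ 1) {L : ℝ} (hL : 0 ≤ L)
    (hFL : ∀ x y, |F x - F y| ≤ L * |x - y|) {e : ℝ} (he : 0 < e) :
    ∀ᶠ n : ℕ in atTop, (d : ℝ) ^ (n - 1) *
      (∫ θ in {θ | t ≤ u (cb ψ θ)}, F (Xp d ε n (cb ψ θ)) ∂Pm - e) ≤
      ∑ z ∈ (Zn d n).filter (fun z => t - δ < u z ∧ Rgl d ε n z), F (Xp d ε n z) := by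
  have hc := aetyp_cb hd hβ hψ
  have hcm := c_meas hβ hc
  have hd0 : (0 : ℝ) < d := by
    have : (2 : ℝ) ≤ d := by exact_mod_cast hd
    linarith
  obtain ⟨C, hC, hCt⟩ := tail_prob hd hβ
  obtain ⟨M, hM⟩ : ∃ M : ℕ, M = ⌈4 / e⌉₊ + 1 := ⟨_, rfl⟩
  have hM1 : 1 ≤ M := by omega
  have hM0 : (0 : ℝ) < M := by exact_mod_cast hM1
  have hMe : 1 / (M : ℝ) ≤ e / 4 := by
    rw [div_le_iff₀ hM0]
    have h1 : 4 / e ≤ (⌈4 / e⌉₊ : ℝ) := Nat.le_ceil _
    have h2 : (4 / e : ℝ) ≤ M := by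
      rw [hM]
      push_cast
      linarith
    rw [div_le_iff₀ he] at h2
    linarith
  obtain ⟨p, hp⟩ : ∃ p : ℝ, p = min (ε / (32 * M)) (e / (8 * (L + 1) * M)) := ⟨_, rfl⟩
  have hp0 : 0 < p := by rw [hp]; exact lt_min (by positivity) (by positivity)
  have hpε : p * M ≤ ε / 32 := by
    have h1 : p ≤ ε / (32 * M) := by rw [hp]; exact min_le_left _ _
    calc p * M ≤ ε / (32 * M) * M := by gcongr
      _ = ε / 32 := by field_simp
  have hpL : 2 * L * (p * M) ≤ e / 4 := by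
    have h1 : p ≤ e / (8 * (L + 1) * M) := by rw [hp]; exact min_le_right _ _
    calc 2 * L * (p * M) ≤ 2 * (L + 1) * (e / (8 * (L + 1) * M) * M) := by gcongr; linarith
      _ = e / 4 := by field_simp; ring
  obtain ⟨B, hB⟩ : ∃ B : ℝ, B = 8 * C / e + 1 := ⟨_, rfl⟩
  have hB1 : 1 ≤ B := by
    rw [hB]
    have : 0 < 8 * C / e := by positivity
    linarith
  have hBe : C / B ^ 2 ≤ e / 8 := by
    rw [div_le_iff₀ (by positivity)]
    have h1 : B ≤ B ^ 2 := by nlinarith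
    have h2 : e / 8 * B = C + e / 8 := by rw [hB]; field_simp
    have h3 := mul_le_mul_of_nonneg_left h1 (by positivity : 0 ≤ e / 8)
    linarith
  obtain ⟨K, hK⟩ : ∃ K : ℕ, K = ⌈B / p + M + 1⌉₊ := ⟨_, rfl⟩
  have hKl : B / p + M + 1 ≤ K := by rw [hK]; exact Nat.le_ceil _
  have hK0 : (0 : ℝ) < K := by
    have : 0 < B / p := by positivity
    linarith
  obtain ⟨η, hη⟩ : ∃ η : ℝ, η = e * M / (16 * K) := ⟨_, rfl⟩
  have hη0 : 0 < η := by rw [hη]; positivity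
  have hηe : 2 * K * η / M = e / 8 := by
    rw [hη]
    field_simp
    ring
  have hcells : ∀ᶠ n : ℕ in atTop, ∀ i ∈ Finset.Ico (-(K : ℤ)) K, (d : ℝ) ^ (n - 1) *
      ((Pm {θ | t ≤ u (cb ψ θ) ∧ p * i + p / 2 ≤ Xp d ε n (cb ψ θ) ∧
        Xp d ε n (cb ψ θ) ≤ p * (i + M) - p / 2}).toReal - η) ≤
      ({z | z ∈ Cn d n ∧ t - δ < u z ∧ p * i + p / 2 - p / 2 < Xp d ε n z ∧
        Xp d ε n z < p * (i + M) - p / 2 + p / 2 ∧ Rgl d ε n z}.ncard : ℝ) := by
    rw [Filter.eventually_all_finset]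
    intro i _
    exact cell_count hd hβ hψ hε (by linarith) (by positivity) hη0 hu t hδ
  filter_upwards [hcells, eventually_ge_atTop 1] with n hn hn1
  have hE : NullMeasurableSet {θ | t ≤ u (cb ψ θ)} Pm :=
    nullMeasurableSet_le aemeasurable_const (hu.measurable.comp_aemeasurable hcm)
  have hD : (0 : ℝ) < (d : ℝ) ^ (n - 1) := by positivity
  have hX : AEMeasurable (fun θ => Xp d ε n (cb ψ θ)) (Pm.restrict {θ | t ≤ u (cb ψ θ)}) :=
    (Xp_meas hβ hc ε n).restrict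
  have hμ1 : (Pm.restrict {θ | t ≤ u (cb ψ θ)}).real univ ≤ 1 := by
    have h1 : (Pm.restrict {θ | t ≤ u (cb ψ θ)}) univ ≤ 1 := by
      rw [Measure.restrict_apply_univ]
      exact prob_le_one
    exact ENNReal.toReal_le_of_le_ofReal zero_le_one (by simpa using h1)
  have key := assemble (μ := Pm.restrict {θ | t ≤ u (cb ψ θ)}) hμ1 hX
    (Z := (Zn d n).filter (fun z => t - δ < u z ∧ Rgl d ε n z)) (Y := Xp d ε n) (D := (d : ℝ) ^ (n - 1)) (p := p)
    (L := L) (B := B) (η := η) hD hp0 hL hη0.le (M := M) (K := K) hM1 hKl hFm hF0 hF1 hFL (by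
      intro i hi
      have h1 := hn i hi
      have e1 : (Pm.restrict {θ | t ≤ u (cb ψ θ)}) {θ | p * i + p / 2 ≤ Xp d ε n (cb ψ θ) ∧
          Xp d ε n (cb ψ θ) ≤ p * (i + M) - p / 2} =
          Pm {θ | t ≤ u (cb ψ θ) ∧ p * i + p / 2 ≤ Xp d ε n (cb ψ θ) ∧
            Xp d ε n (cb ψ θ) ≤ p * (i + M) - p / 2} := by
        rw [Measure.restrict_apply₀' hE]
        congr 1
        ext θ
        exact ⟨fun h => ⟨h.2, h.1⟩, fun h => ⟨h.2, h.1⟩⟩
      rw [e1]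
      refine h1.trans ?_
      have h2 : {z | z ∈ Cn d n ∧ t - δ < u z ∧ p * i + p / 2 - p / 2 < Xp d ε n z ∧
          Xp d ε n z < p * (i + M) - p / 2 + p / 2 ∧ Rgl d ε n z} ⊆
          ((((Zn d n).filter (fun z => t - δ < u z ∧ Rgl d ε n z)).filter
            (fun z => p * i < Xp d ε n z ∧ Xp d ε n z < p * (i + M)) : Finset ℂ) : Set ℂ) := by
        rintro z ⟨g1, g2, g3, g4, g5⟩
        rw [Finset.mem_coe, Finset.mem_filter, Finset.mem_filter, mem_Zn hd hn1]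
        exact ⟨⟨g1, g2, g5⟩, by linarith, by linarith⟩
      have h3 := ncard_le_ncard h2 (Finset.finite_toSet _)
      rw [ncard_coe_finset] at h3
      exact_mod_cast h3)
  refine le_trans (mul_le_mul_of_nonneg_left ?_ hD.le) key
  have h4 : ((Pm.restrict {θ | t ≤ u (cb ψ θ)}) {θ | B < |Xp d ε n (cb ψ θ)|}).toReal ≤ e / 8 := by
    refine le_trans (ENNReal.toReal_mono (measure_ne_top _ _) (Measure.restrict_apply_le _ _)) ?_
    exact (hCt _ hc ε B n (by linarith) hn1).trans hBe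
  rw [hηe]
  linarith

end Pool.Agent.H439.MC
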