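import Mathlib
import Pool.Agent.H439.MC.Asm2

/-!
# Sums over the superattracting parameters: weights
-/

set_option autoImplicit false

namespace Pool.Agent.H439.MC

open Complex Set Topology Filter Metric MeasureTheory N62a1eb23 Pool.Agent.H712R2
  Pool.Agent.H713R2 Pool.Agent.TH653.MB
open Pool.Agent.Y272.TY (Typ cc rl MM mm rl_pos rl_lt MM_ne_zero log_MM mm_eq)
open Pool.Agent.N772.TC (bd bd_spec hm bd_aem bd_eq hm_ball hm_univ)
open scoped ENNReal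

variable {d : ℕ} {β : ℂ → ℂ} {ψ : ℂ → ℂ}

theorem lay_lo {v : ℝ} (hv0 : 0 ≤ v) (hv1 : v ≤ 1) {m : ℕ} (hm : 1 ≤ m) :
    m * v - 1 ≤ ∑ k ∈ Finset.range m, if ((k : ℝ) + 1) / m ≤ v then (1 : ℝ) else 0 := by
  have hm0 : (0 : ℝ) < m := by exact_mod_cast hm
  rw [← Finset.sum_filter, Finset.sum_const, nsmul_eq_mul, mul_one]
  have h1 : Finset.range ⌊m * v⌋₊ ⊆ (Finset.range m).filter (fun k : ℕ => ((k : ℝ) + 1) / m ≤ v) := by
    intro k hk
    rw [Finset.mem_range] at hk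
    have h2 : ((k + 1 : ℕ) : ℝ) ≤ m * v := by
      refine le_trans ?_ (Nat.floor_le (by positivity))
      exact_mod_cast hk
    push_cast at h2
    rw [Finset.mem_filter, Finset.mem_range]
    constructor
    · have h3 : (k : ℝ) + 1 ≤ m := h2.trans (by nlinarith)
      have h4 : ((k + 1 : ℕ) : ℝ) ≤ m := by push_cast; exact h3
      have : k + 1 ≤ m := by exact_mod_cast h4
      omega
    · rw [div_le_iff₀ hm0]
      linarith
  have h2 := Finset.card_le_card h1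
  rw [Finset.card_range] at h2
  have h3 : m * v < ⌊m * v⌋₊ + 1 := Nat.lt_floor_add_one _
  have h4 : (⌊m * v⌋₊ : ℝ) ≤ (((Finset.range m).filter (fun k : ℕ => ((k : ℝ) + 1) / m ≤ v)).card : ℝ) := by
    exact_mod_cast h2
  linarith

theorem lay_up {v : ℝ} (hv0 : 0 ≤ v) {m : ℕ} (hm : 1 ≤ m) :
    (∑ k ∈ Finset.range m, if ((k : ℝ) + 1) / m - 1 / m < v then (1 : ℝ) else 0) ≤ m * v + 1 := by
  have hm0 : (0 : ℝ) < m := by exact_mod_cast hm
  rw [← Finset.sum_filter, Finset.sum_const, nsmul_eq_mul, mul_one]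
  have h1 : (Finset.range m).filter (fun k : ℕ => ((k : ℝ) + 1) / m - 1 / m < v) ⊆ Finset.range ⌈m * v⌉₊ := by
    intro k hk
    rw [Finset.mem_filter] at hk
    rw [Finset.mem_range]
    have h2 := hk.2
    rw [← sub_div, add_sub_cancel_right, div_lt_iff₀ hm0] at h2
    have h3 : (k : ℝ) < ⌈m * v⌉₊ := lt_of_lt_of_le (by linarith) (Nat.le_ceil _)
    exact_mod_cast h3
  have h2 := Finset.card_le_card h1
  rw [Finset.card_range] at h2
  have h3 : (⌈m * v⌉₊ : ℝ) < m * v + 1 := Nat.ceil_lt_add_one (by positivity)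
  have h4 : (((Finset.range m).filter (fun k : ℕ => ((k : ℝ) + 1) / m - 1 / m < v)).card : ℝ) ≤ (⌈m * v⌉₊ : ℝ) := by
    exact_mod_cast h2
  linarith

/-- **lower bound** -/
theorem lower_u (hd : 2 ≤ d) (hβ : IsBeta d β) (hψ : IsExteriorMap (multibrotSet d) ψ) {ε : ℝ}
    (hε : 0 < ε) {u : ℂ → ℝ} (hu : Continuous u) (hu0 : ∀ z, 0 ≤ u z) (hu1 : ∀ z, u z ≤ 1) {F : ℝ → ℝ}
    (hFm : Measurable F) (hF0 : ∀ x, 0 ≤ F x) (hF1 : ∀ x, F x ≤ 1) {L : ℝ} (hL : 0 ≤ L)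
    (hFL : ∀ x y, |F x - F y| ≤ L * |x - y|) {e : ℝ} (he : 0 < e) :
    ∀ᶠ n : ℕ in atTop, (d : ℝ) ^ (n - 1) *
      (∫ θ, u (cb ψ θ) * F (Xp d ε n (cb ψ θ)) ∂Pm - e) ≤
      ∑ z ∈ Zn d n, u z * F (Xp d ε n z) := by
  classical
  have hc := aetyp_cb hd hβ hψ
  have hcm := c_meas hβ hc
  have hd0 : (0 : ℝ) < d := by
    have : (2 : ℝ) ≤ d := by exact_mod_cast hd
    linarith
  obtain ⟨m, hm⟩ : ∃ m : ℕ, m = ⌈4 / e⌉₊ + 1 := ⟨_, rfl⟩
  have hm1 : 1 ≤ m := by omega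
  have hm0 : (0 : ℝ) < m := by exact_mod_cast hm1
  have hme : 2 / (m : ℝ) ≤ e / 2 := by
    rw [div_le_iff₀ hm0]
    have h1 : 4 / e ≤ (⌈4 / e⌉₊ : ℝ) := Nat.le_ceil _
    have h2 : (4 / e : ℝ) ≤ m := by
      rw [hm]
      push_cast
      linarith
    rw [div_le_iff₀ he] at h2
    linarith
  have hlay : ∀ᶠ n : ℕ in atTop, ∀ k ∈ Finset.range m, (d : ℝ) ^ (n - 1) *
      (∫ θ in {θ | ((k : ℝ) + 1) / m ≤ u (cb ψ θ)}, F (Xp d ε n (cb ψ θ)) ∂Pm - e / 2) ≤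
      ∑ z ∈ (Zn d n).filter (fun z => ((k : ℝ) + 1) / m - 1 / m < u z), F (Xp d ε n z) := by
    rw [Filter.eventually_all_finset]
    intro k _
    filter_upwards [lower_t hd hβ hψ hε hu (((k : ℝ) + 1) / m) (δ := 1 / m) (by positivity) hFm hF0 hF1 hL hFL
      (by positivity : 0 < e / 2)] with n hn
    refine hn.trans (Finset.sum_le_sum_of_subset_of_nonneg ?_ fun z _ _ => hF0 _)
    intro z hz
    rw [Finset.mem_filter] at hz ⊢
    exact ⟨hz.1, hz.2.1⟩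
  filter_upwards [hlay, eventually_ge_atTop 1] with n hn hn1
  have hD : (0 : ℝ) < (d : ℝ) ^ (n - 1) := by positivity
  have hX := Xp_meas hβ hc ε n
  have hcard := Zn_card hd hn1
  have hE : ∀ t : ℝ, NullMeasurableSet {θ | t ≤ u (cb ψ θ)} Pm := fun t =>
    nullMeasurableSet_le aemeasurable_const (hu.measurable.comp_aemeasurable hcm)
  have hFint : Integrable (fun θ => F (Xp d ε n (cb ψ θ))) Pm := by
    apply Integrable.of_bound (hFm.comp_aemeasurable hX).aestronglyMeasurable 1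
    refine Eventually.of_forall fun θ => ?_
    change ‖F (Xp d ε n (cb ψ θ))‖ ≤ 1
    rw [Real.norm_eq_abs, abs_of_nonneg (hF0 _)]
    exact hF1 _
  have huF : Integrable (fun θ => u (cb ψ θ) * F (Xp d ε n (cb ψ θ))) Pm := by
    apply Integrable.of_bound ((hu.measurable.comp_aemeasurable hcm).mul (hFm.comp_aemeasurable hX)).aestronglyMeasurable 1
    refine Eventually.of_forall fun θ => ?_
    change ‖u (cb ψ θ) * F (Xp d ε n (cb ψ θ))‖ ≤ 1
    rw [Real.norm_eq_abs, abs_of_nonneg (mul_nonneg (hu0 _) (hF0 _))]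
    exact mul_le_one₀ (hu1 _) (hF0 _) (hF1 _)
  have hs := Finset.sum_le_sum hn
  rw [← Finset.mul_sum, Finset.sum_sub_distrib, Finset.sum_const, Finset.card_range, nsmul_eq_mul] at hs
  -- the left hand side
  have h1 : (m : ℝ) * ∫ θ, u (cb ψ θ) * F (Xp d ε n (cb ψ θ)) ∂Pm - 1 ≤
      ∑ k ∈ Finset.range m, ∫ θ in {θ | ((k : ℝ) + 1) / m ≤ u (cb ψ θ)}, F (Xp d ε n (cb ψ θ)) ∂Pm := by
    have e1 : ∑ k ∈ Finset.range m, ∫ θ in {θ | ((k : ℝ) + 1) / m ≤ u (cb ψ θ)}, F (Xp d ε n (cb ψ θ)) ∂Pm =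
        ∫ θ, ∑ k ∈ Finset.range m, {θ | ((k : ℝ) + 1) / m ≤ u (cb ψ θ)}.indicator
          (fun θ => F (Xp d ε n (cb ψ θ))) θ ∂Pm := by
      rw [integral_finsetSum _ fun k _ => hFint.indicator₀ (hE _)]
      apply Finset.sum_congr rfl
      intro k _
      rw [integral_indicator₀ (hE _)]
    have e2 : (m : ℝ) * ∫ θ, u (cb ψ θ) * F (Xp d ε n (cb ψ θ)) ∂Pm - 1 =
        ∫ θ, ((m : ℝ) * (u (cb ψ θ) * F (Xp d ε n (cb ψ θ))) - 1) ∂Pm := by
      rw [integral_sub (huF.const_mul _) (integrable_const _), integral_const_mul, integral_const]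
      simp
    rw [e1, e2]
    apply integral_mono ((huF.const_mul _).sub (integrable_const _))
      (integrable_finsetSum _ fun k _ => hFint.indicator₀ (hE _))
    intro θ
    change (m : ℝ) * (u (cb ψ θ) * F (Xp d ε n (cb ψ θ))) - 1 ≤ ∑ k ∈ Finset.range m,
      {θ | ((k : ℝ) + 1) / m ≤ u (cb ψ θ)}.indicator (fun θ => F (Xp d ε n (cb ψ θ))) θ
    have h2 := lay_lo (hu0 (cb ψ θ)) (hu1 (cb ψ θ)) hm1
    have h3 := mul_le_mul_of_nonneg_right h2 (hF0 (Xp d ε n (cb ψ θ)))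
    have e3 : (∑ k ∈ Finset.range m, if ((k : ℝ) + 1) / m ≤ u (cb ψ θ) then (1 : ℝ) else 0) * F (Xp d ε n (cb ψ θ)) =
        ∑ k ∈ Finset.range m,
      {θ | ((k : ℝ) + 1) / m ≤ u (cb ψ θ)}.indicator (fun θ => F (Xp d ε n (cb ψ θ))) θ := by
      rw [Finset.sum_mul]
      apply Finset.sum_congr rfl
      intro k _
      by_cases h : ((k : ℝ) + 1) / m ≤ u (cb ψ θ)
      · rw [if_pos h, one_mul, Set.indicator_of_mem (show θ ∈ {θ | ((k : ℝ) + 1) / m ≤ u (cb ψ θ)} from h)]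
      · rw [if_neg h, zero_mul, Set.indicator_of_notMem (show θ ∉ {θ | ((k : ℝ) + 1) / m ≤ u (cb ψ θ)} from h)]
    rw [← e3]
    refine le_trans ?_ h3
    have h4 : 0 ≤ F (Xp d ε n (cb ψ θ)) := hF0 _
    have h5 : F (Xp d ε n (cb ψ θ)) ≤ 1 := hF1 _
    linarith
  -- the right hand side
  have h2 : ∑ k ∈ Finset.range m, ∑ z ∈ (Zn d n).filter (fun z => ((k : ℝ) + 1) / m - 1 / m < u z), F (Xp d ε n z) ≤
      m * ∑ z ∈ Zn d n, u z * F (Xp d ε n z) + (d : ℝ) ^ (n - 1) := by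
    calc _ = ∑ k ∈ Finset.range m, ∑ z ∈ Zn d n,
          (if ((k : ℝ) + 1) / m - 1 / m < u z then (1 : ℝ) else 0) * F (Xp d ε n z) := by
          apply Finset.sum_congr rfl
          intro k _
          rw [Finset.sum_filter]
          apply Finset.sum_congr rfl
          intro z _
          split_ifs <;> simp
      _ = ∑ z ∈ Zn d n, (∑ k ∈ Finset.range m,
          (if ((k : ℝ) + 1) / m - 1 / m < u z then (1 : ℝ) else 0)) * F (Xp d ε n z) := by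
          rw [Finset.sum_comm]
          apply Finset.sum_congr rfl
          intro z _
          rw [Finset.sum_mul]
      _ ≤ ∑ z ∈ Zn d n, (m * (u z * F (Xp d ε n z)) + 1) := by
          apply Finset.sum_le_sum
          intro z _
          have h3 := mul_le_mul_of_nonneg_right (lay_up (hu0 z) hm1) (hF0 (Xp d ε n z))
          have h5 : F (Xp d ε n z) ≤ 1 := hF1 _
          linarith
      _ = m * ∑ z ∈ Zn d n, u z * F (Xp d ε n z) + ((Zn d n).card : ℝ) := by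
          rw [Finset.sum_add_distrib, ← Finset.mul_sum, Finset.sum_const, nsmul_eq_mul, mul_one]
      _ ≤ _ := by linarith
  obtain ⟨E, hEe⟩ : ∃ E, E = ∫ θ, u (cb ψ θ) * F (Xp d ε n (cb ψ θ)) ∂Pm := ⟨_, rfl⟩
  obtain ⟨S, hS⟩ : ∃ S, S = ∑ z ∈ Zn d n, u z * F (Xp d ε n z) := ⟨_, rfl⟩
  rw [← hEe] at h1 ⊢
  rw [← hS] at h2 ⊢
  have h3 : (d : ℝ) ^ (n - 1) * (m * E - 1 - m * (e / 2)) ≤ m * S + (d : ℝ) ^ (n - 1) := by
    refine le_trans (mul_le_mul_of_nonneg_left ?_ hD.le) (hs.trans h2)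
    linarith
  have h4 : (m : ℝ) * ((d : ℝ) ^ (n - 1) * (E - e / 2 - 2 / m)) ≤ m * S := by
    have e1 : (m : ℝ) * ((d : ℝ) ^ (n - 1) * (E - e / 2 - 2 / m)) =
        (d : ℝ) ^ (n - 1) * (m * E - 1 - m * (e / 2)) - (d : ℝ) ^ (n - 1) := by
      field_simp
      ring
    rw [e1]
    linarith
  have h5 := le_of_mul_le_mul_left h4 hm0
  refine le_trans (mul_le_mul_of_nonneg_left ?_ hD.le) h5
  linarith

/-- **both bounds** -/
theorem both_u (hd : 2 ≤ d) (hβ : IsBeta d β) (hψ : IsExteriorMap (multibrotSet d) ψ) {ε : ℝ}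
    (hε : 0 < ε) {u : ℂ → ℝ} (hu : Continuous u) (hu0 : ∀ z, 0 ≤ u z) (hu1 : ∀ z, u z ≤ 1) {F : ℝ → ℝ}
    (hFm : Measurable F) (hF0 : ∀ x, 0 ≤ F x) (hF1 : ∀ x, F x ≤ 1) {L : ℝ} (hL : 0 ≤ L)
    (hFL : ∀ x y, |F x - F y| ≤ L * |x - y|) {e : ℝ} (he : 0 < e) :
    ∀ᶠ n : ℕ in atTop, |(∑ z ∈ Zn d n, u z * F (Xp d ε n z)) / (d : ℝ) ^ (n - 1) -
      ∫ θ, u (cb ψ θ) * F (Xp d ε n (cb ψ θ)) ∂Pm| ≤ e := by
  have hc := aetyp_cb hd hβ hψ
  have hcm := c_meas hβ hc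
  have hd0 : (0 : ℝ) < d := by
    have : (2 : ℝ) ≤ d := by exact_mod_cast hd
    linarith
  have l1 := lower_u hd hβ hψ hε hu hu0 hu1 hFm hF0 hF1 hL hFL (by positivity : 0 < e / 2)
  have l2 := lower_u hd hβ hψ hε (u := fun z => 1 - u z) (by fun_prop) (fun z => by linarith [hu1 z])
    (fun z => by linarith [hu0 z]) (F := fun _ => 1) measurable_const (fun _ => zero_le_one) (fun _ => le_rfl)
    (L := 0) le_rfl (fun x y => by simp) (by positivity : 0 < e / 2)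
  have l3 := lower_u hd hβ hψ hε hu hu0 hu1 (F := fun x => 1 - F x) (measurable_const.sub hFm)
    (fun x => by linarith [hF1 x]) (fun x => by linarith [hF0 x]) hL
    (fun x y => by
      have : 1 - F x - (1 - F y) = -(F x - F y) := by ring
      rw [this, abs_neg]
      exact hFL x y) (by positivity : 0 < e / 2)
  filter_upwards [l1, l2, l3, eventually_ge_atTop 1] with n h1 h2 h3 hn1
  have hD : (0 : ℝ) < (d : ℝ) ^ (n - 1) := by positivity
  have hX := Xp_meas hβ hc ε n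
  have hcard := Zn_card hd hn1
  have huI : Integrable (fun θ => u (cb ψ θ)) Pm := by
    apply Integrable.of_bound (hu.measurable.comp_aemeasurable hcm).aestronglyMeasurable 1
    refine Eventually.of_forall fun θ => ?_
    change ‖u (cb ψ θ)‖ ≤ 1
    rw [Real.norm_eq_abs, abs_of_nonneg (hu0 _)]
    exact hu1 _
  have huF : Integrable (fun θ => u (cb ψ θ) * F (Xp d ε n (cb ψ θ))) Pm := by
    apply Integrable.of_bound ((hu.measurable.comp_aemeasurable hcm).mul (hFm.comp_aemeasurable hX)).aestronglyMeasurable 1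
    refine Eventually.of_forall fun θ => ?_
    change ‖u (cb ψ θ) * F (Xp d ε n (cb ψ θ))‖ ≤ 1
    rw [Real.norm_eq_abs, abs_of_nonneg (mul_nonneg (hu0 _) (hF0 _))]
    exact mul_le_one₀ (hu1 _) (hF0 _) (hF1 _)
  have e2 : ∫ θ, (1 - u (cb ψ θ)) * 1 ∂Pm = 1 - ∫ θ, u (cb ψ θ) ∂Pm := by
    simp only [mul_one]
    rw [integral_sub (integrable_const _) huI, integral_const]
    simp
  have e3 : ∫ θ, u (cb ψ θ) * (1 - F (Xp d ε n (cb ψ θ))) ∂Pm =
      ∫ θ, u (cb ψ θ) ∂Pm - ∫ θ, u (cb ψ θ) * F (Xp d ε n (cb ψ θ)) ∂Pm := by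
    rw [← integral_sub huI huF]
    congr 1
    funext θ
    ring
  have e4 : ∑ z ∈ Zn d n, (1 - u z) * 1 + ∑ z ∈ Zn d n, u z * (1 - F (Xp d ε n z)) =
      ((Zn d n).card : ℝ) - ∑ z ∈ Zn d n, u z * F (Xp d ε n z) := by
    rw [← Finset.sum_add_distrib]
    have : ((Zn d n).card : ℝ) = ∑ z ∈ Zn d n, (1 : ℝ) := by
      rw [Finset.sum_const, nsmul_eq_mul, mul_one]
    rw [this, ← Finset.sum_sub_distrib]
    apply Finset.sum_congr rfl
    intro z _
    ring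
  rw [e2] at h2
  rw [e3] at h3
  obtain ⟨E, hEe⟩ : ∃ E, E = ∫ θ, u (cb ψ θ) * F (Xp d ε n (cb ψ θ)) ∂Pm := ⟨_, rfl⟩
  obtain ⟨U, hUe⟩ : ∃ U, U = ∫ θ, u (cb ψ θ) ∂Pm := ⟨_, rfl⟩
  obtain ⟨S, hS⟩ : ∃ S, S = ∑ z ∈ Zn d n, u z * F (Xp d ε n z) := ⟨_, rfl⟩
  rw [← hEe] at h1 h3 ⊢
  rw [← hUe] at h2 h3
  rw [← hS] at h1 e4 ⊢
  rw [abs_le]
  constructor
  · have h4 : E - e / 2 ≤ S / (d : ℝ) ^ (n - 1) := by
      rw [le_div_iff₀ hD]
      linarith
    linarith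
  · have h4 : S / (d : ℝ) ^ (n - 1) ≤ E + e := by
      rw [div_le_iff₀ hD]
      have h5 := add_le_add h2 h3
      rw [e4] at h5
      have h6 : (d : ℝ) ^ (n - 1) * (1 - U - e / 2) + (d : ℝ) ^ (n - 1) * (U - E - e / 2) =
          (d : ℝ) ^ (n - 1) - (E + e) * (d : ℝ) ^ (n - 1) := by ring
      rw [h6] at h5
      linarith
    linarith

open scoped Classical in
/-- **most superattracting parameters are regular** -/
theorem rgl_most (hd : 2 ≤ d) (hβ : IsBeta d β) (hψ : IsExteriorMap (multibrotSet d) ψ) {ε : ℝ}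
    (hε : 0 < ε) {e : ℝ} (he : 0 < e) :
    ∀ᶠ n : ℕ in atTop, (((Zn d n).filter (fun z => ¬ Rgl d ε n z)).card : ℝ) ≤ e * (d : ℝ) ^ (n - 1) := by
  filter_upwards [lower_t hd hβ hψ hε (u := fun _ => 1) continuous_const 0 one_pos (F := fun _ => 1)
    measurable_const (fun _ => zero_le_one) (fun _ => le_rfl) (L := 0) le_rfl (fun x y => by simp) he,
    eventually_ge_atTop 1] with n hn hn1
  have hcard := Zn_card hd hn1
  rw [Finset.sum_const, nsmul_eq_mul, mul_one] at hn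
  have e1 : {θ : ℝ | (0 : ℝ) ≤ 1} = univ := by
    ext θ
    simp
  rw [e1, Measure.restrict_univ] at hn
  have e2 : ∫ _θ : ℝ, (1 : ℝ) ∂Pm = 1 := by simp
  rw [e2] at hn
  have h1 := Finset.card_filter_add_card_filter_not (s := Zn d n) (fun z => Rgl d ε n z)
  have h2 : ((Zn d n).filter (fun z => (0 : ℝ) - 1 < 1 ∧ Rgl d ε n z)) = (Zn d n).filter (fun z => Rgl d ε n z) := by
    apply Finset.filter_congr
    intro z _
    simp
  rw [h2] at hn
  have h3 : (((Zn d n).filter (fun z => Rgl d ε n z)).card : ℝ) +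
      (((Zn d n).filter (fun z => ¬ Rgl d ε n z)).card : ℝ) = ((Zn d n).card : ℝ) := by exact_mod_cast h1
  linarith

end Pool.Agent.H439.MC
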