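import Mathlib
import Pool.Agent.H439.MC.Low

/-!
# The product of the critical orbits over the superattracting parameters of exact period `n`
-/

set_option autoImplicit false

namespace Pool.Agent.H439.MC

open Pool.Agent.H712R2 (P fc PP natDegree_PP eval_PP P_zero P_succ)

section
variable {L : Type*} [Field L]

/-- the critical orbit over a field -/
def Qk (d : ℕ) (e : L) : ℕ → L
  | 0 => 0
  | k + 1 => Qk d e k ^ d + e

theorem Qk_eq (d : ℕ) (e : L) (k : ℕ) : (fun z : L => z ^ d + e)^[k] 0 = Qk d e k := by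
  induction k with
  | zero => rfl
  | succ k ih => rw [Function.iterate_succ_apply', ih]; rfl

theorem Qk_map {L' : Type*} [Field L'] (φ : L →+* L') (d : ℕ) (e : L) (k : ℕ) :
    φ (Qk d e k) = Qk d (φ e) k := by
  induction k with
  | zero => simp [Qk]
  | succ k ih => simp [Qk, ih]

/-- exact period `n` -/
def EP1 (d n : ℕ) (e : L) : Prop := Qk d e n = 0 ∧ ∀ k, 1 ≤ k → k < n → Qk d e k ≠ 0

theorem EP1_map {L' : Type*} [Field L'] (φ : L →+* L') (d n : ℕ) (e : L) :
    EP1 d n (φ e) ↔ EP1 d n e := by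
  unfold EP1
  simp only [← Qk_map, map_eq_zero, ne_eq]

/-- the polynomials -/
noncomputable def QX (d : ℕ) : ℕ → Polynomial ℤ
  | 0 => 0
  | k + 1 => QX d k ^ d + Polynomial.X

theorem aeval_QX (d : ℕ) (e : L) (k : ℕ) : Polynomial.aeval e (QX d k) = Qk d e k := by
  induction k with
  | zero => simp [QX, Qk]
  | succ k ih => simp [QX, Qk, ih]

theorem QX_deg {d : ℕ} (hd : 2 ≤ d) (k : ℕ) : (QX d (k + 1)).Monic ∧ (QX d (k + 1)).natDegree = d ^ k := by
  induction k with
  | zero =>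
    have : QX d (0 + 1) = Polynomial.X := by simp [QX, zero_pow (show d ≠ 0 by omega)]
    rw [this]
    exact ⟨Polynomial.monic_X, by simp⟩
  | succ k ih =>
    have h1 : ((QX d (k + 1)) ^ d).Monic := ih.1.pow d
    have h2 : ((QX d (k + 1)) ^ d).natDegree = d ^ (k + 1) := by
      rw [ih.1.natDegree_pow, ih.2, pow_succ, mul_comm]
    have h3 : 1 < d ^ (k + 1) := Nat.one_lt_pow (by omega) (by omega)
    have h4 : (Polynomial.X : Polynomial ℤ).degree < ((QX d (k + 1)) ^ d).degree := by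
      rw [Polynomial.degree_X, Polynomial.degree_eq_natDegree h1.ne_zero, h2]
      exact_mod_cast h3
    have e1 : QX d (k + 1 + 1) = (QX d (k + 1)) ^ d + Polynomial.X := rfl
    rw [e1]
    refine ⟨h1.add_of_left h4, ?_⟩
    rw [Polynomial.natDegree_add_eq_left_of_degree_lt h4, h2]

end

theorem prod_ge_aux (L : Type*) [Field L] [Algebra ℚ L] [IsAlgClosed L] [IsGalois ℚ L]
    (ι : L →+* ℂ) {d : ℕ} (hd : 2 ≤ d) {n j : ℕ} (hn : 1 ≤ n) (hj : 1 ≤ j) (hjn : j < n)
    {s : Finset ℂ} (hs : ∀ c, c ∈ s ↔ EP1 d n c) : 1 ≤ ‖∏ c ∈ s, Qk d c j‖ := by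
  classical
  have hch : CharZero L := algebraRat.charZero L
  obtain ⟨N, rfl⟩ : ∃ N, n = N + 1 := ⟨n - 1, by omega⟩
  have hmon := (QX_deg hd N).1
  -- the parameters in the algebraic closure
  have hfin : {e : L | EP1 d (N + 1) e}.Finite := by
    apply Set.Finite.subset ((QX d (N + 1)).aroots L).toFinset.finite_toSet
    intro e he
    rw [Finset.mem_coe, Multiset.mem_toFinset, Polynomial.mem_aroots]
    exact ⟨hmon.ne_zero, by rw [aeval_QX]; exact he.1⟩
  let T : Finset L := hfin.toFinset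
  have hT : ∀ e, e ∈ T ↔ EP1 d (N + 1) e := fun e => hfin.mem_toFinset
  have hsT : s = T.image ι := by
    ext c
    rw [hs, Finset.mem_image]
    constructor
    · intro hc
      have h1 : c ∈ (QX d (N + 1)).aroots ℂ := by
        rw [Polynomial.mem_aroots]
        exact ⟨hmon.ne_zero, by rw [aeval_QX]; exact hc.1⟩
      have h2 : ((QX d (N + 1)).map (algebraMap ℤ L)).Splits := IsAlgClosed.splits _
      have h3 : ((QX d (N + 1)).map (algebraMap ℤ ℂ)) = ((QX d (N + 1)).map (algebraMap ℤ L)).map ι := by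
        rw [Polynomial.map_map]
        congr 1
        exact RingHom.ext_int _ _
      rw [Polynomial.aroots, h3, h2.roots_map] at h1
      obtain ⟨e, he1, he2⟩ := Multiset.mem_map.1 h1
      refine ⟨e, ?_, he2⟩
      rw [hT, ← EP1_map ι]
      rw [he2]
      exact hc
    · rintro ⟨e, he, rfl⟩
      have := (hT e).1 he
      exact (EP1_map ι d (N + 1) e).2 this
  obtain ⟨a, ha⟩ : ∃ a : L, a = ∏ e ∈ T, Qk d e j := ⟨_, rfl⟩
  have hprod : ∏ c ∈ s, Qk d c j = ι a := by
    rw [hsT, Finset.prod_image (fun x _ y _ h => ι.injective h), ha, map_prod]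
    refine Finset.prod_congr rfl fun e _ => ?_
    exact (Qk_map ι d e j).symm
  -- it is fixed by the automorphisms
  have hfix : ∀ σ : L ≃ₐ[ℚ] L, σ a = a := by
    intro σ
    rw [ha, map_prod]
    have h1 : ∀ e ∈ T, σ (Qk d e j) = Qk d (σ e) j := fun e _ => Qk_map (σ : L →+* L) d e j
    rw [Finset.prod_congr rfl h1]
    refine Finset.prod_bij (fun e _ => σ e) ?_ ?_ ?_ ?_
    · intro e he
      rw [hT] at he ⊢
      exact (EP1_map (σ : L →+* L) d (N + 1) e).2 he
    · intro e _ e' _ h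
      exact σ.injective h
    · intro e he
      refine ⟨σ.symm e, ?_, by simp⟩
      rw [hT] at he ⊢
      have h2 := EP1_map (σ : L →+* L) d (N + 1) (σ.symm e)
      have h3 : (σ : L →+* L) (σ.symm e) = e := σ.apply_symm_apply e
      rw [h3] at h2
      exact h2.1 he
    · intro e _
      rfl
  have hbot : a ∈ (⊥ : IntermediateField ℚ L) := (InfiniteGalois.mem_bot_iff_fixed a).2 hfix
  rw [IntermediateField.mem_bot] at hbot
  obtain ⟨r, hr⟩ := hbot
  -- it is an algebraic integer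
  have hintQ : ∀ e : L, IsIntegral ℤ e → ∀ k, IsIntegral ℤ (Qk d e k) := by
    intro e he k
    induction k with
    | zero => exact isIntegral_zero
    | succ k ih => exact (ih.pow d).add he
  have hint : IsIntegral ℤ a := by
    rw [ha]
    apply IsIntegral.prod
    intro e he
    apply hintQ
    rw [hT] at he
    exact ⟨QX d (N + 1), hmon, by rw [← Polynomial.aeval_def, aeval_QX]; exact he.1⟩
  have hintr : IsIntegral ℤ r := by
    rw [← hr] at hint
    exact (isIntegral_algebraMap_iff (algebraMap ℚ L).injective).1 hint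
  obtain ⟨z, hz⟩ := IsIntegrallyClosed.isIntegral_iff.1 hintr
  have ha0 : a ≠ 0 := by
    rw [ha, Finset.prod_ne_zero_iff]
    intro e he
    rw [hT] at he
    exact he.2 j hj (by omega)
  have hz0 : z ≠ 0 := by
    rintro rfl
    apply ha0
    rw [← hr, ← hz]
    simp
  have hιa : ι a = (z : ℂ) := by
    rw [← hr, ← hz]
    simp
  rw [hprod, hιa]
  have h1 : (1 : ℝ) ≤ |(z : ℝ)| := by exact_mod_cast Int.one_le_abs hz0
  rwa [Complex.norm_intCast]

theorem exists_closure (k : Type) [Field k] [CharZero k] [Algebra k ℂ] :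
    ∃ (L : Type) (_ : Field L) (_ : Algebra k L), IsAlgClosed L ∧ IsGalois k L ∧ Nonempty (L →+* ℂ) := by
  refine ⟨algebraicClosure k ℂ, inferInstance, inferInstance, IsAlgClosure.isAlgClosed k, ?_,
    ⟨algebraMap (algebraicClosure k ℂ) ℂ⟩⟩
  have h1 : Normal k (algebraicClosure k ℂ) := IsAlgClosure.normal _ _
  constructor

/-- **the product is an integer** -/
theorem prod_ge_one {d : ℕ} (hd : 2 ≤ d) {n j : ℕ} (hn : 1 ≤ n) (hj : 1 ≤ j) (hjn : j < n)
    {s : Finset ℂ} (hs : ∀ c, c ∈ s ↔ EP1 d n c) : 1 ≤ ‖∏ c ∈ s, Qk d c j‖ := by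
  obtain ⟨L, h1, h2, h3, h4, ⟨ι⟩⟩ := exists_closure ℚ
  exact prod_ge_aux L ι hd hn hj hjn hs

/-- the superattracting parameters of exact period `n` -/
theorem EP1_iff {d n : ℕ} (hn : 1 ≤ n) (c : ℂ) :
    EP1 d n c ↔ Function.minimalPeriod (fc d c) 0 = n := by
  have hQ : ∀ k, (fc d c)^[k] 0 = Qk d c k := fun k => Qk_eq d c k
  constructor
  · rintro ⟨h1, h2⟩
    have h3 : Function.IsPeriodicPt (fc d c) n 0 := by
      change (fc d c)^[n] 0 = 0
      rw [hQ, h1]
    have h4 := h3.minimalPeriod_pos (by omega)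
    have h5 := h3.minimalPeriod_le (by omega)
    rcases h5.lt_or_eq with h6 | h6
    · exfalso
      apply h2 _ h4 h6
      have h7 := Function.isPeriodicPt_minimalPeriod (fc d c) 0
      change (fc d c)^[_] 0 = 0 at h7
      rwa [hQ] at h7
    · exact h6
  · intro h
    constructor
    · have h7 := Function.isPeriodicPt_minimalPeriod (fc d c) 0
      rw [h] at h7
      change (fc d c)^[n] 0 = 0 at h7
      rwa [hQ] at h7
    · intro k hk hkn h0
      have h3 : Function.IsPeriodicPt (fc d c) k 0 := by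
        change (fc d c)^[k] 0 = 0
        rw [hQ, h0]
      have := h3.minimalPeriod_le (by omega)
      omega

theorem Qk_P (d : ℕ) (c : ℂ) (k : ℕ) : Qk d c k = P d k c := (Qk_eq d c k).symm

/-- **the sum of the logarithms** -/
theorem sum_log_nonneg {d : ℕ} (hd : 2 ≤ d) {n j : ℕ} (hj : 1 ≤ j) (hjn : j < n)
    {s : Finset ℂ} (hs : ∀ c, c ∈ s ↔ Function.minimalPeriod (fc d c) 0 = n) :
    0 ≤ ∑ c ∈ s, Real.log ‖P d j c‖ := by
  have hn : 1 ≤ n := by omega
  have hs' : ∀ c, c ∈ s ↔ EP1 d n c := fun c => by rw [hs, EP1_iff hn]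
  have h1 := prod_ge_one hd hn hj hjn hs'
  rw [norm_prod] at h1
  have h2 := Real.log_nonneg h1
  rw [Real.log_prod] at h2
  · refine h2.trans (le_of_eq (Finset.sum_congr rfl fun c _ => ?_))
    rw [Qk_P]
  · intro c hc
    rw [norm_ne_zero_iff]
    exact ((hs' c).1 hc).2 j hj hjn

/-- the critical orbit is bounded -/
theorem P_le_two {d : ℕ} (hd : 2 ≤ d) {n : ℕ} (hn : 1 ≤ n) {c : ℂ} (h : P d n c = 0) (k : ℕ) :
    ‖P d k c‖ ≤ 2 := by
  have hmem : c ∈ N62a1eb23.multibrotSet d := by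
    obtain ⟨N, rfl⟩ : ∃ N, n = N + 1 := ⟨n - 1, by omega⟩
    apply root_mem hd (i := N)
    rw [Polynomial.mem_roots', Polynomial.IsRoot.def, eval_PP]
    refine ⟨?_, h⟩
    intro h0
    have h1 := natDegree_PP hd N
    rw [h0, Polynomial.natDegree_zero] at h1
    have : 0 < d ^ N := pow_pos (by omega) N
    omega
  exact (Pool.Agent.H712R2.mem_multibrot_iff hd c).1 hmem k

/-- **the mean of the absolute values of the logarithms** -/
theorem sum_abs_log {d : ℕ} (hd : 2 ≤ d) {n j : ℕ} (hj : 1 ≤ j) (hjn : j < n)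
    {s : Finset ℂ} (hs : ∀ c, c ∈ s ↔ Function.minimalPeriod (fc d c) 0 = n) :
    ∑ c ∈ s, |Real.log ‖P d j c‖| ≤ 2 * Real.log 2 * s.card := by
  have h1 := sum_log_nonneg hd hj hjn hs
  have hl2 : 0 < Real.log 2 := Real.log_pos (by norm_num)
  have h2 : ∀ c ∈ s, |Real.log ‖P d j c‖| ≤ 2 * Real.log 2 - Real.log ‖P d j c‖ := by
    intro c hc
    have hE := (EP1_iff (by omega : 1 ≤ n) c).2 ((hs c).1 hc)
    have h3 : P d n c = 0 := by rw [← Qk_P]; exact hE.1
    have h4 : P d j c ≠ 0 := by rw [← Qk_P]; exact hE.2 j hj hjn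
    have h5 : Real.log ‖P d j c‖ ≤ Real.log 2 :=
      Real.log_le_log (norm_pos_iff.2 h4) (P_le_two hd (by omega) h3 j)
    rcases abs_cases (Real.log ‖P d j c‖) with ⟨h6, _⟩ | ⟨h6, _⟩ <;> rw [h6] <;> linarith
  refine (Finset.sum_le_sum h2).trans ?_
  rw [Finset.sum_sub_distrib, Finset.sum_const, nsmul_eq_mul]
  nlinarith

end Pool.Agent.H439.MC
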