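import Mathlib
import Pool.Agent.H439.MC.Asm3
import Pool.Agent.H439.MC.Res
import Pool.Agent.H439.MC.Dyn3

/-!
# The limit of the sums over the superattracting parameters
-/

set_option autoImplicit false

namespace Pool.Agent.H439.MC

open Complex Set Topology Filter Metric MeasureTheory N62a1eb23 Pool.Agent.H712R2
  Pool.Agent.H713R2 Pool.Agent.TH653.MB ProbabilityTheory BoundedContinuousFunction
open Pool.Agent.Y272.TY (Typ cc rl MM mm rl_pos rl_lt MM_ne_zero log_MM mm_eq)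
open Pool.Agent.N772.TC (bd bd_spec hm bd_aem bd_eq hm_ball hm_univ)

variable {d : ℕ} {β : ℂ → ℂ} {ψ : ℂ → ℂ}

theorem inv_sqrt_tendsto (C : ℝ) : Tendsto (fun n : ℕ => C / √(n : ℝ)) atTop (𝓝 0) :=
  tendsto_const_nhds.div_atTop sqrt_n_tendsto

/-- the two normalised derivatives are asymptotically equal -/
theorem XpXn (hd : 2 ≤ d) (hβ : IsBeta d β) {c : ℝ → ℂ} (hc : AETyp d β c) {ε : ℝ} (hε : 0 < ε) :
    Tendsto (fun n => ∫ θ, min 1 |Xp d ε n (c θ) - Xn d c n θ| ∂Pm) atTop (𝓝 0) := by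
  have hld := logd_pos hd
  have hd1 : (1 : ℝ) ≤ (d : ℝ) - 1 := by
    have : (2 : ℝ) ≤ d := by exact_mod_cast hd
    linarith
  obtain ⟨C, hC, hT⟩ := T_sq hd hβ
  obtain ⟨κ, hκ⟩ : ∃ κ : ℝ, κ = 2 * ε / Real.log d := ⟨_, rfl⟩
  have hκ0 : 0 < κ := by rw [hκ]; positivity
  rw [Metric.tendsto_nhds]
  intro η hη
  filter_upwards [kk_bounds hκ0, ev_sqrt2 one_pos 1, eventually_ge_atTop 1,
    (inv_sqrt_tendsto (((d : ℝ) - 1) ^ 2 * C * (κ + 1))).eventually (gt_mem_nhds (by positivity : 0 < η ^ 2))]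
    with n hk hn1 hn2 hn3
  rw [one_mul] at hn1
  obtain ⟨k1, k2, k3, k4⟩ := hk
  have hn0 : (0 : ℝ) < n := by exact_mod_cast hn2
  have hq0 : 0 < √(n : ℝ) := by linarith
  have hqq : √(n : ℝ) * √(n : ℝ) = n := Real.mul_self_sqrt hn0.le
  have hka : ka d ε n = kk κ n := by unfold ka; rw [hκ]
  obtain ⟨T, hTe⟩ : ∃ T : ℝ → ℝ, ∀ θ, T θ = ∑ i ∈ Finset.Ico (ka d ε n) n, Real.log ‖P d (i + 1) (c θ)‖ :=
    ⟨_, fun _ => rfl⟩
  obtain ⟨h1, h2⟩ := hT c hc (Finset.Ico (ka d ε n) n)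
  simp only [← hTe] at h1 h2
  have hXX : ∀ᵐ θ ∂Pm, |Xp d ε n (c θ) - Xn d c n θ| = ((d : ℝ) - 1) * |T θ| / √(n : ℝ) := by
    filter_upwards [hc] with θ hθ
    obtain ⟨A, R, hTy⟩ := hθ
    unfold Xn
    rw [Xp_eq hd (fun j _ => hTy.P_ne j), log_MM hd _ n (fun j _ => hTy.P_ne j),
      add_sub_cancel_left, ← sub_div, abs_div, abs_of_pos hq0, ← mul_sub, abs_mul,
      abs_of_pos (by linarith : 0 < (d : ℝ) - 1)]
    congr 2
    rw [hTe, ← Finset.sum_range_add_sum_Ico _ (ka_le d ε n), sub_add_cancel_left, abs_neg]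
  have hi : Integrable (fun θ => η / 2 + ((d : ℝ) - 1) ^ 2 / (2 * η * n) * T θ ^ 2) Pm :=
    (integrable_const _).add (h1.const_mul _)
  have hm : AEMeasurable (fun θ => Xp d ε n (c θ) - Xn d c n θ) Pm := (Xp_meas hβ hc ε n).sub (Xn_meas hβ hc n)
  have h3 : ∫ θ, min 1 |Xp d ε n (c θ) - Xn d c n θ| ∂Pm ≤
      ∫ θ, (η / 2 + ((d : ℝ) - 1) ^ 2 / (2 * η * n) * T θ ^ 2) ∂Pm := by
    apply integral_mono_ae (int_min hm) hi
    filter_upwards [hXX] with θ hθ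
    change min 1 |Xp d ε n (c θ) - Xn d c n θ| ≤ η / 2 + ((d : ℝ) - 1) ^ 2 / (2 * η * n) * T θ ^ 2
    rw [hθ]
    refine (min_le_right _ _).trans ?_
    obtain ⟨v, hv⟩ : ∃ v, v = ((d : ℝ) - 1) * |T θ| / √(n : ℝ) := ⟨_, rfl⟩
    have e1 : ((d : ℝ) - 1) ^ 2 / (2 * η * n) * T θ ^ 2 = v ^ 2 / (2 * η) := by
      rw [hv, div_pow, mul_pow, sq_abs, Real.sq_sqrt hn0.le]
      field_simp
    rw [e1, ← hv]
    have e2 : η / 2 + v ^ 2 / (2 * η) - v = (η - v) ^ 2 / (2 * η) := by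
      field_simp
      ring
    have e3 : 0 ≤ (η - v) ^ 2 / (2 * η) := by positivity
    linarith
  rw [integral_add (integrable_const _) (h1.const_mul _), integral_const_mul, integral_const] at h3
  have h4 : Pm.real univ • (η / 2) = η / 2 := by simp
  rw [h4] at h3
  have h5 : 0 ≤ ∫ θ, min 1 |Xp d ε n (c θ) - Xn d c n θ| ∂Pm :=
    integral_nonneg fun θ => le_min zero_le_one (abs_nonneg _)
  rw [Real.dist_eq, sub_zero, abs_of_nonneg h5]
  refine h3.trans_lt ?_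
  have h6 : ((Finset.Ico (ka d ε n) n).card : ℝ) ≤ (κ + 1) * √(n : ℝ) := by
    rw [Nat.card_Ico, Nat.cast_sub (ka_le d ε n), hka]
    linarith
  have h7 : ((d : ℝ) - 1) ^ 2 / (2 * η * n) * ∫ θ, T θ ^ 2 ∂Pm ≤
      ((d : ℝ) - 1) ^ 2 * C * (κ + 1) / √(n : ℝ) / (2 * η) := by
    calc _ ≤ ((d : ℝ) - 1) ^ 2 / (2 * η * n) * (C * ((κ + 1) * √(n : ℝ))) := by gcongr; exact h2.trans (by gcongr)
      _ = ((d : ℝ) - 1) ^ 2 * C * (κ + 1) / √(n : ℝ) / (2 * η) := by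
          have : (n : ℝ) = √(n : ℝ) ^ 2 := (Real.sq_sqrt hn0.le).symm
          rw [this, Real.sqrt_sq hq0.le]
          field_simp
  have h8 : ((d : ℝ) - 1) ^ 2 * C * (κ + 1) / √(n : ℝ) / (2 * η) < η / 2 := by
    rw [div_lt_iff₀ (by positivity)]
    calc _ < η ^ 2 := hn3
      _ = η / 2 * (2 * η) := by ring
  linarith

/-- the normalised logarithm of the derivative of the `(n-1)`-st iterate at the critical value -/
noncomputable def Yc (d n : ℕ) (z : ℂ) : ℝ := (Real.log ‖MM d z n‖ - n * Real.log d) / √(n : ℝ)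

theorem Zn_iff (hd : 2 ≤ d) {n : ℕ} (hn : 1 ≤ n) (z : ℂ) :
    z ∈ Zn d n ↔ Function.minimalPeriod (fc d z) 0 = n := mem_Zn hd hn

theorem Zn_P (hd : 2 ≤ d) {n : ℕ} (hn : 1 ≤ n) {z : ℂ} (hz : z ∈ Zn d n) {j : ℕ} (hj : 1 ≤ j) (hjn : j < n) :
    P d j z ≠ 0 := by
  have hE := (EP1_iff hn z).2 ((Zn_iff hd hn z).1 hz)
  rw [← Qk_P]
  exact hE.2 j hj hjn

/-- the mean of the difference -/
theorem YcXp (hd : 2 ≤ d) {ε : ℝ} (hε : 0 < ε) : ∀ᶠ n : ℕ in atTop,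
    ∑ z ∈ Zn d n, |Yc d n z - Xp d ε n z| ≤ (d : ℝ) ^ (n - 1) *
      (((d : ℝ) - 1) * (2 * Real.log 2) * (2 * ε / Real.log d) +
        (Real.log d + ((d : ℝ) - 1) * (2 * Real.log 2)) / √(n : ℝ)) := by
  have hld := logd_pos hd
  have hl2 : 0 < Real.log 2 := Real.log_pos (by norm_num)
  have hd1 : (1 : ℝ) ≤ (d : ℝ) - 1 := by
    have : (2 : ℝ) ≤ d := by exact_mod_cast hd
    linarith
  obtain ⟨κ, hκ⟩ : ∃ κ : ℝ, κ = 2 * ε / Real.log d := ⟨_, rfl⟩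
  have hκ0 : 0 < κ := by rw [hκ]; positivity
  rw [← hκ]
  filter_upwards [kk_bounds hκ0, ev_sqrt2 hκ0 1, eventually_ge_atTop 2] with n hk hn1 hn2
  obtain ⟨k1, k2, k3, k4⟩ := hk
  have hn0 : (0 : ℝ) < n := by exact_mod_cast (by omega : 0 < n)
  have hq0 : 0 < √(n : ℝ) := Real.sqrt_pos.2 hn0
  have hka : ka d ε n = kk κ n := by unfold ka; rw [hκ]
  obtain ⟨N, rfl⟩ : ∃ N, n = N + 1 := ⟨n - 1, by omega⟩
  have hkN : ka d ε (N + 1) ≤ N := by
    have h1 : ((ka d ε (N + 1) : ℕ) : ℝ) < ((N + 1 : ℕ) : ℝ) := by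
      rw [hka]
      linarith
    have : ka d ε (N + 1) < N + 1 := by exact_mod_cast h1
    omega
  have hD : (0 : ℝ) < (d : ℝ) ^ (N + 1 - 1) := by
    have : (0 : ℝ) < d := by linarith
    positivity
  have hz1 : ∀ z ∈ Zn d (N + 1), |Yc d (N + 1) z - Xp d ε (N + 1) z| ≤
      (Real.log d + ((d : ℝ) - 1) * ∑ i ∈ Finset.Ico (ka d ε (N + 1)) N, |Real.log ‖P d (i + 1) z‖|) / √((N + 1 : ℕ) : ℝ) := by
    intro z hz
    have hP : ∀ j < N, P d (j + 1) z ≠ 0 := fun j hj => Zn_P hd (by omega) hz (by omega) (by omega)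
    rw [Xp_eq hd (fun j hj => hP j (by omega))]
    unfold Yc
    rw [log_MM hd z N hP, ← sub_div, abs_div, abs_of_pos hq0]
    apply div_le_div_of_nonneg_right _ hq0.le
    have e1 : (N : ℝ) * Real.log d + ((d : ℝ) - 1) * ∑ j ∈ Finset.range N, Real.log ‖P d (j + 1) z‖ -
        ((N + 1 : ℕ) : ℝ) * Real.log d - ((d : ℝ) - 1) * ∑ i ∈ Finset.range (ka d ε (N + 1)), Real.log ‖P d (i + 1) z‖ =
        -Real.log d + ((d : ℝ) - 1) * ∑ i ∈ Finset.Ico (ka d ε (N + 1)) N, Real.log ‖P d (i + 1) z‖ := by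
      rw [← Finset.sum_range_add_sum_Ico _ hkN]
      push_cast
      ring
    rw [e1]
    refine (abs_add_le _ _).trans ?_
    rw [abs_neg, abs_of_pos hld, abs_mul, abs_of_pos (by linarith : 0 < (d : ℝ) - 1)]
    gcongr
    exact Finset.abs_sum_le_sum_abs _ _
  have hcard := Zn_card hd (by omega : 1 ≤ N + 1)
  calc ∑ z ∈ Zn d (N + 1), |Yc d (N + 1) z - Xp d ε (N + 1) z|
      ≤ ∑ z ∈ Zn d (N + 1), (Real.log d + ((d : ℝ) - 1) *
        ∑ i ∈ Finset.Ico (ka d ε (N + 1)) N, |Real.log ‖P d (i + 1) z‖|) / √((N + 1 : ℕ) : ℝ) := Finset.sum_le_sum hz1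
    _ = (((Zn d (N + 1)).card : ℝ) * Real.log d + ((d : ℝ) - 1) * ∑ i ∈ Finset.Ico (ka d ε (N + 1)) N,
        ∑ z ∈ Zn d (N + 1), |Real.log ‖P d (i + 1) z‖|) / √((N + 1 : ℕ) : ℝ) := by
        rw [← Finset.sum_div, Finset.sum_add_distrib, Finset.sum_const, nsmul_eq_mul, ← Finset.mul_sum,
          Finset.sum_comm]
    _ ≤ (((Zn d (N + 1)).card : ℝ) * Real.log d + ((d : ℝ) - 1) * ∑ i ∈ Finset.Ico (ka d ε (N + 1)) N,
        2 * Real.log 2 * ((Zn d (N + 1)).card : ℝ)) / √((N + 1 : ℕ) : ℝ) := by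
        gcongr with i hi
        rw [Finset.mem_Ico] at hi
        exact sum_abs_log hd (by omega) (by omega) (fun c => Zn_iff hd (by omega) c)
    _ = ((Zn d (N + 1)).card : ℝ) * ((Real.log d + ((d : ℝ) - 1) * (2 * Real.log 2) *
        ((N - ka d ε (N + 1) : ℕ) : ℝ)) / √((N + 1 : ℕ) : ℝ)) := by
        rw [Finset.sum_const, nsmul_eq_mul, Nat.card_Ico]
        ring
    _ ≤ (d : ℝ) ^ (N + 1 - 1) * ((Real.log d + ((d : ℝ) - 1) * (2 * Real.log 2) *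
        (κ * √((N + 1 : ℕ) : ℝ) + 1)) / √((N + 1 : ℕ) : ℝ)) := by
        gcongr
        rw [Nat.cast_sub hkN, hka]
        push_cast at k2 ⊢
        linarith
    _ = _ := by
        congr 1
        field_simp
        ring

/-- **the limit** for Lipschitz test functions -/
theorem main_lip (hd : 2 ≤ d) (hβ : IsBeta d β) (hψ : IsExteriorMap (multibrotSet d) ψ)
    {s : ℝ → ℝ} (hclt : ∀ c : ℝ → ℂ, AETyp d β c → ∀ X : ℕ → ℝ → ℝ, (∀ n, AEMeasurable (X n) Pm) →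
      Tendsto (fun n => ∫ θ, min 1 |X n θ - Xn d c n θ| ∂Pm) atTop (𝓝 0) →
      ∀ φ : ℝ → ℝ, Integrable φ Pm → ∀ f : ℝ →ᵇ ℝ,
      Tendsto (fun n => ∫ θ, φ θ * f (X n θ) ∂Pm) atTop
        (𝓝 (∫ θ, φ θ * ∫ x, f (s θ * x) ∂(gaussianReal 0 1) ∂Pm)))
    {u : ℂ → ℝ} (hu : Continuous u) (hu0 : ∀ z, 0 ≤ u z) (hu1 : ∀ z, u z ≤ 1) (F : ℝ →ᵇ ℝ)
    (hF0 : ∀ x, 0 ≤ F x) (hF1 : ∀ x, F x ≤ 1) {L : ℝ} (hL : 0 ≤ L)
    (hFL : ∀ x y, |F x - F y| ≤ L * |x - y|) :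
    Tendsto (fun n : ℕ => (∑ z ∈ Zn d n, u z * F (Yc d n z)) / (d : ℝ) ^ (n - 1)) atTop
      (𝓝 (∫ θ, u (cb ψ θ) * ∫ x, F (s θ * x) ∂(gaussianReal 0 1) ∂Pm)) := by
  have hc := aetyp_cb hd hβ hψ
  have hcm := c_meas hβ hc
  have hld := logd_pos hd
  have hl2 : 0 < Real.log 2 := Real.log_pos (by norm_num)
  have hd1 : (1 : ℝ) ≤ (d : ℝ) - 1 := by
    have : (2 : ℝ) ≤ d := by exact_mod_cast hd
    linarith
  have hd0 : (0 : ℝ) < d := by linarith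
  rw [Metric.tendsto_nhds]
  intro e he
  obtain ⟨ε, hεe⟩ : ∃ ε : ℝ, ε = e * Real.log d / (16 * (L + 1) * (((d : ℝ) - 1) * (2 * Real.log 2))) := ⟨_, rfl⟩
  have hε : 0 < ε := by rw [hεe]; positivity
  have huI : Integrable (fun θ => u (cb ψ θ)) Pm := by
    apply Integrable.of_bound (hu.measurable.comp_aemeasurable hcm).aestronglyMeasurable 1
    refine Eventually.of_forall fun θ => ?_
    change ‖u (cb ψ θ)‖ ≤ 1
    rw [Real.norm_eq_abs, abs_of_nonneg (hu0 _)]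
    exact hu1 _
  have l1 := hclt _ hc (fun n θ => Xp d ε n (cb ψ θ)) (fun n => Xp_meas hβ hc ε n) (XpXn hd hβ hc hε)
    (fun θ => u (cb ψ θ)) huI F
  have l2 := both_u hd hβ hψ hε hu hu0 hu1 (F := F) F.continuous.measurable hF0 hF1 hL hFL
    (by positivity : 0 < e / 4)
  filter_upwards [YcXp hd hε, l2, l1.eventually (Metric.ball_mem_nhds _ (by positivity : 0 < e / 4)),
    (inv_sqrt_tendsto (L * (Real.log d + ((d : ℝ) - 1) * (2 * Real.log 2)))).eventually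
      (gt_mem_nhds (by positivity : 0 < e / 8))] with n h1 h2 h3 h4
  have hD : (0 : ℝ) < (d : ℝ) ^ (n - 1) := by positivity
  rw [Real.dist_eq] at h3
  rw [Real.dist_eq]
  have h5 : |(∑ z ∈ Zn d n, u z * F (Yc d n z)) / (d : ℝ) ^ (n - 1) -
      (∑ z ∈ Zn d n, u z * F (Xp d ε n z)) / (d : ℝ) ^ (n - 1)| ≤ e / 4 := by
    rw [← sub_div, abs_div, abs_of_pos hD, div_le_iff₀ hD, ← Finset.sum_sub_distrib]
    refine (Finset.abs_sum_le_sum_abs _ _).trans ?_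
    have h6 : ∑ z ∈ Zn d n, |u z * F (Yc d n z) - u z * F (Xp d ε n z)| ≤
        L * ∑ z ∈ Zn d n, |Yc d n z - Xp d ε n z| := by
      rw [Finset.mul_sum]
      apply Finset.sum_le_sum
      intro z _
      rw [← mul_sub, abs_mul, abs_of_nonneg (hu0 z)]
      calc u z * |F (Yc d n z) - F (Xp d ε n z)| ≤ 1 * |F (Yc d n z) - F (Xp d ε n z)| := by
            gcongr
            exact hu1 z
        _ ≤ _ := by rw [one_mul]; exact hFL _ _
    refine h6.trans ((mul_le_mul_of_nonneg_left h1 hL).trans ?_)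
    have h7 : L * (((d : ℝ) - 1) * (2 * Real.log 2) * (2 * ε / Real.log d)) ≤ e / 8 := by
      rw [hεe]
      have e1 : L * (((d : ℝ) - 1) * (2 * Real.log 2) *
          (2 * (e * Real.log d / (16 * (L + 1) * (((d : ℝ) - 1) * (2 * Real.log 2)))) / Real.log d)) =
          e / 8 * (L / (L + 1)) := by
        have : (d : ℝ) - 1 ≠ 0 := by linarith
        field_simp
        ring
      rw [e1]
      have h8 : L / (L + 1) ≤ 1 := by
        rw [div_le_one (by linarith)]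
        linarith
      have h9 := mul_le_mul_of_nonneg_left h8 (by positivity : 0 ≤ e / 8)
      linarith
    have h8 : L * ((Real.log d + ((d : ℝ) - 1) * (2 * Real.log 2)) / √(n : ℝ)) ≤ e / 8 := by
      rw [← mul_div_assoc]
      exact h4.le
    calc _ = (d : ℝ) ^ (n - 1) * (L * (((d : ℝ) - 1) * (2 * Real.log 2) * (2 * ε / Real.log d)) +
          L * ((Real.log d + ((d : ℝ) - 1) * (2 * Real.log 2)) / √(n : ℝ))) := by ring
      _ ≤ (d : ℝ) ^ (n - 1) * (e / 8 + e / 8) := by gcongr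
      _ = e / 4 * (d : ℝ) ^ (n - 1) := by ring
  rw [abs_le] at h5 h2
  rw [abs_lt] at h3 ⊢
  constructor <;> linarith [h5.1, h5.2, h2.1, h2.2, h3.1, h3.2]

end Pool.Agent.H439.MC
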