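import Mathlib
import Pool.Agent.H439.MC.Asm4

/-!
# The limit of the sums over the superattracting parameters: all test functions
-/

set_option autoImplicit false

namespace Pool.Agent.H439.MC

open Complex Set Topology Filter Metric MeasureTheory N62a1eb23 Pool.Agent.H712R2
  Pool.Agent.H713R2 Pool.Agent.TH653.MB ProbabilityTheory BoundedContinuousFunction
open Pool.Agent.Y272.TY (Typ cc rl MM mm rl_pos rl_lt MM_ne_zero log_MM mm_eq)
open Pool.Agent.N772.TC (bd bd_spec hm bd_aem bd_eq hm_ball hm_univ)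

variable {d : ℕ} {β : ℂ → ℂ} {ψ : ℂ → ℂ}

/-- the conclusion of the central limit theorem -/
def CLT (d : ℕ) (β : ℂ → ℂ) (s : ℝ → ℝ) : Prop :=
  ∀ c : ℝ → ℂ, AETyp d β c → ∀ X : ℕ → ℝ → ℝ, (∀ n, AEMeasurable (X n) Pm) →
      Tendsto (fun n => ∫ θ, min 1 |X n θ - Xn d c n θ| ∂Pm) atTop (𝓝 0) →
      ∀ φ : ℝ → ℝ, Integrable φ Pm → ∀ f : ℝ →ᵇ ℝ,
      Tendsto (fun n => ∫ θ, φ θ * f (X n θ) ∂Pm) atTop
        (𝓝 (∫ θ, φ θ * ∫ x, f (s θ * x) ∂(gaussianReal 0 1) ∂Pm))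

/-- the limit for Lipschitz test functions, for a statistic `Y` of the superattracting parameters -/
def LipLim (d : ℕ) (ψ : ℂ → ℂ) (s : ℝ → ℝ) (Y : ℕ → ℂ → ℝ) : Prop :=
  ∀ u : ℂ → ℝ, Continuous u → (∀ z, 0 ≤ u z) → (∀ z, u z ≤ 1) → ∀ F : ℝ →ᵇ ℝ, (∀ x, 0 ≤ F x) →
    (∀ x, F x ≤ 1) → ∀ L : ℝ, 0 ≤ L → (∀ x y, |F x - F y| ≤ L * |x - y|) →
    Tendsto (fun n : ℕ => (∑ z ∈ Zn d n, u z * F (Y n z)) / (d : ℝ) ^ (n - 1)) atTop
      (𝓝 (∫ θ, u (cb ψ θ) * ∫ x, F (s θ * x) ∂(gaussianReal 0 1) ∂Pm))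

theorem lipLim_Yc (hd : 2 ≤ d) (hβ : IsBeta d β) (hψ : IsExteriorMap (multibrotSet d) ψ)
    {s : ℝ → ℝ} (hclt : CLT d β s) : LipLim d ψ s (Yc d) :=
  fun _ hu hu0 hu1 F hF0 hF1 _ hL hFL => main_lip hd hβ hψ hclt hu hu0 hu1 F hF0 hF1 hL hFL

/-- the sum of the weights -/
theorem sum_u (hd : 2 ≤ d) (hβ : IsBeta d β) (hψ : IsExteriorMap (multibrotSet d) ψ)
    {s : ℝ → ℝ} (hclt : CLT d β s) {u : ℂ → ℝ} (hu : Continuous u) (hu0 : ∀ z, 0 ≤ u z) (hu1 : ∀ z, u z ≤ 1) :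
    Tendsto (fun n : ℕ => (∑ z ∈ Zn d n, u z) / (d : ℝ) ^ (n - 1)) atTop (𝓝 (∫ θ, u (cb ψ θ) ∂Pm)) := by
  have h := main_lip hd hβ hψ hclt hu hu0 hu1 (BoundedContinuousFunction.const ℝ (1 : ℝ))
    (fun _ => by simp) (fun _ => by simp) (L := 0) le_rfl (fun x y => by simp)
  simpa using h

theorem card_lim (hd : 2 ≤ d) (hβ : IsBeta d β) (hψ : IsExteriorMap (multibrotSet d) ψ)
    {s : ℝ → ℝ} (hclt : CLT d β s) :
    Tendsto (fun n : ℕ => ((Zn d n).card : ℝ) / (d : ℝ) ^ (n - 1)) atTop (𝓝 1) := by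
  have h := sum_u hd hβ hψ hclt (u := fun _ => 1) continuous_const (fun _ => zero_le_one) (fun _ => le_rfl)
  simpa using h

theorem u_int (hd : 2 ≤ d) (hβ : IsBeta d β) (hψ : IsExteriorMap (multibrotSet d) ψ)
    {u : ℂ → ℝ} (hu : Continuous u) (hu0 : ∀ z, 0 ≤ u z) (hu1 : ∀ z, u z ≤ 1) :
    Integrable (fun θ => u (cb ψ θ)) Pm := by
  have hcm := c_meas hβ (aetyp_cb hd hβ hψ)
  apply Integrable.of_bound (hu.measurable.comp_aemeasurable hcm).aestronglyMeasurable 1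
  refine Eventually.of_forall fun θ => ?_
  change ‖u (cb ψ θ)‖ ≤ 1
  rw [Real.norm_eq_abs, abs_of_nonneg (hu0 _)]
  exact hu1 _

/-- the ratios, for weights bounded below -/
theorem ratio_gen (hd : 2 ≤ d) (hβ : IsBeta d β) (hψ : IsExteriorMap (multibrotSet d) ψ)
    {s : ℝ → ℝ} (hs : Measurable s) (hclt : CLT d β s) {Y : ℕ → ℂ → ℝ} (hYl : LipLim d ψ s Y) {u : ℂ → ℝ} (hu : Continuous u) (hu0 : ∀ z, 1 / 2 ≤ u z)
    (hu1 : ∀ z, u z ≤ 1) (f : ℝ →ᵇ ℝ) :
    Tendsto (fun n : ℕ => (∑ z ∈ Zn d n, u z)⁻¹ * ∑ z ∈ Zn d n, u z * f (Y n z)) atTop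
      (𝓝 ((∫ θ, u (cb ψ θ) ∂Pm)⁻¹ * ∫ θ, u (cb ψ θ) * ∫ x, f (s θ * x) ∂(gaussianReal 0 1) ∂Pm)) := by
  classical
  have hc := aetyp_cb hd hβ hψ
  have hcm := c_meas hβ hc
  have hd0 : (0 : ℝ) < d := by
    have : (2 : ℝ) ≤ d := by exact_mod_cast hd
    linarith
  have hu00 : ∀ z, 0 ≤ u z := fun z => by linarith [hu0 z]
  have huI := u_int hd hβ hψ hu hu00 hu1
  obtain ⟨U, hU⟩ : ∃ U, U = ∫ θ, u (cb ψ θ) ∂Pm := ⟨_, rfl⟩
  have hU0 : 0 < U := by
    have h1 : ∫ _θ : ℝ, (1 / 2 : ℝ) ∂Pm ≤ U := by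
      rw [hU]
      exact integral_mono (integrable_const _) huI fun θ => hu0 _
    have h2 : ∫ _θ : ℝ, (1 / 2 : ℝ) ∂Pm = 1 / 2 := by simp
    linarith
  rw [← hU]
  obtain ⟨W, hW⟩ : ∃ W : ℕ → ℝ, ∀ n, W n = ∑ z ∈ Zn d n, u z := ⟨_, fun _ => rfl⟩
  have hWU : Tendsto (fun n : ℕ => W n / (d : ℝ) ^ (n - 1)) atTop (𝓝 U) := by
    rw [hU]
    simp only [hW]
    exact sum_u hd hβ hψ hclt hu hu00 hu1
  have hW0 : ∀ᶠ n : ℕ in atTop, 0 < W n := by
    filter_upwards [hWU.eventually (lt_mem_nhds hU0)] with n hn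
    have hD : (0 : ℝ) < (d : ℝ) ^ (n - 1) := by positivity
    rwa [lt_div_iff₀ hD, zero_mul] at hn
  -- the ratios for Lipschitz functions with values in the unit interval
  have hlip : ∀ (F : ℝ →ᵇ ℝ), (∀ x, 0 ≤ F x) → (∀ x, F x ≤ 1) → ∀ L : ℝ, 0 ≤ L →
      (∀ x y, |F x - F y| ≤ L * |x - y|) →
      Tendsto (fun n : ℕ => (W n)⁻¹ * ∑ z ∈ Zn d n, u z * F (Y n z)) atTop
      (𝓝 (U⁻¹ * ∫ θ, u (cb ψ θ) * ∫ x, F (s θ * x) ∂(gaussianReal 0 1) ∂Pm)) := by
    intro F hF0 hF1 L hL hFL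
    have h1 := hYl u hu hu00 hu1 F hF0 hF1 L hL hFL
    have h2 := (hWU.inv₀ hU0.ne').mul h1
    refine h2.congr fun n => ?_
    have hD : (0 : ℝ) < (d : ℝ) ^ (n - 1) := by positivity
    rw [inv_div]
    field_simp
  -- the measures
  set νm : ℕ → Measure ℝ := fun n => ENNReal.ofReal (W n)⁻¹ •
    ∑ z ∈ Zn d n, ENNReal.ofReal (u z) • Measure.dirac (Y n z) with hνm
  have hνp : ∀ n, 0 < W n → IsProbabilityMeasure (νm n) := by
    intro n hn
    constructor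
    simp only [hνm]
    rw [Measure.smul_apply, Measure.finsetSum_apply]
    simp only [Measure.smul_apply, measure_univ, smul_eq_mul, mul_one]
    rw [← ENNReal.ofReal_sum_of_nonneg fun z _ => hu00 z, ← hW, ← ENNReal.ofReal_mul (by positivity),
      inv_mul_cancel₀ hn.ne', ENNReal.ofReal_one]
  have hνi : ∀ n, 0 < W n → ∀ g : ℝ → ℝ, Continuous g →
      ∫ x, g x ∂(νm n) = (W n)⁻¹ * ∑ z ∈ Zn d n, u z * g (Y n z) := by
    intro n hn g hg
    simp only [hνm]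
    rw [integral_smul_measure, ENNReal.toReal_ofReal (by positivity), smul_eq_mul]
    congr 1
    rw [integral_finsetSum_measure]
    · apply Finset.sum_congr rfl
      intro z _
      rw [integral_smul_measure, ENNReal.toReal_ofReal (hu00 z), integral_dirac, smul_eq_mul]
    · intro z _
      apply Integrable.smul_measure _ ENNReal.ofReal_ne_top
      exact integrable_dirac (by finiteness)
  set μs : ℕ → ProbabilityMeasure ℝ := fun n => if h : 0 < W n then ⟨νm n, hνp n h⟩ else ⟨Measure.dirac 0, inferInstance⟩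
    with hμs
  have hμsi : ∀ n, 0 < W n → ∀ g : ℝ → ℝ, Continuous g →
      ∫ x, g x ∂((μs n : ProbabilityMeasure ℝ) : Measure ℝ) = (W n)⁻¹ * ∑ z ∈ Zn d n, u z * g (Y n z) := by
    intro n hn g hg
    rw [← hνi n hn g hg]
    simp only [hμs]
    rw [dif_pos hn]
    rfl
  -- the limit measure
  obtain ⟨c', hc'm, hc'⟩ := hcm
  set φ : ℝ → ℝ := fun θ => U⁻¹ * u (c' θ) with hφ
  have hφm : Measurable φ := (hu.measurable.comp hc'm).const_mul _
  have hφ0 : ∀ θ, 0 ≤ φ θ := fun θ => mul_nonneg (by positivity) (hu00 _)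
  have hφc : ∀ᵐ θ ∂Pm, φ θ = U⁻¹ * u (cb ψ θ) := by
    filter_upwards [hc'] with θ hθ
    simp only [hφ]
    rw [hθ]
  have hφi : Integrable φ Pm := (huI.const_mul U⁻¹).congr (by
    filter_upwards [hφc] with θ hθ
    exact hθ.symm)
  have hφ1 : ∫ θ, φ θ ∂Pm = 1 := by
    rw [integral_congr_ae hφc, integral_const_mul, ← hU, inv_mul_cancel₀ hU0.ne']
  have hp : IsProbabilityMeasure (wt φ) := wt_prob hφi hφ0 hφ1
  have hG : Measurable fun p : ℝ × ℝ => s p.1 * p.2 := (hs.comp measurable_fst).mul measurable_snd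
  have : IsProbabilityMeasure (((wt φ).prod (gaussianReal 0 1)).map fun p : ℝ × ℝ => s p.1 * p.2) :=
    Measure.isProbabilityMeasure_map hG.aemeasurable
  set μ₀ : ProbabilityMeasure ℝ := ⟨((wt φ).prod (gaussianReal 0 1)).map fun p : ℝ × ℝ => s p.1 * p.2, inferInstance⟩
    with hμ₀
  have hμ₀i : ∀ g : ℝ → ℝ, Continuous g → (∃ A, ∀ x, |g x| ≤ A) →
      ∫ x, g x ∂((μ₀ : ProbabilityMeasure ℝ) : Measure ℝ) =
        U⁻¹ * ∫ θ, u (cb ψ θ) * ∫ x, g (s θ * x) ∂(gaussianReal 0 1) ∂Pm := by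
    rintro g hg ⟨A, hA⟩
    change ∫ x, g x ∂(((wt φ).prod (gaussianReal 0 1)).map fun p : ℝ × ℝ => s p.1 * p.2) = _
    rw [integral_map hG.aemeasurable hg.aestronglyMeasurable, integral_prod]
    · rw [integral_wt hφm hφ0, ← integral_const_mul]
      apply integral_congr_ae
      filter_upwards [hφc] with θ hθ
      rw [hθ, smul_eq_mul, mul_assoc]
    · apply Integrable.of_bound (C := A)
      · exact (hg.measurable.comp hG).aestronglyMeasurable
      · exact Eventually.of_forall fun p => by rw [Real.norm_eq_abs]; exact hA _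
  have hlim : Tendsto μs atTop (𝓝 μ₀) := by
    rw [tendsto_iff_forall_lipschitz_integral_tendsto]
    rintro g ⟨C, hC⟩ ⟨L, hL⟩
    have hC0 : 0 ≤ C := (dist_nonneg).trans (hC 0 0)
    obtain ⟨m, hm⟩ : ∃ m, m = g 0 - C := ⟨_, rfl⟩
    obtain ⟨R, hR⟩ : ∃ R, R = 2 * C + 1 := ⟨_, rfl⟩
    have hR0 : 0 < R := by rw [hR]; linarith
    have hgb : ∀ x, 0 ≤ (g x - m) / R ∧ (g x - m) / R ≤ 1 := by
      intro x
      have h1 := hC x 0
      rw [Real.dist_eq, abs_le] at h1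
      constructor
      · apply div_nonneg _ hR0.le
        linarith [h1.1]
      · rw [div_le_one hR0]
        linarith [h1.2]
    set F : ℝ →ᵇ ℝ := BoundedContinuousFunction.ofNormedAddCommGroup (fun x => (g x - m) / R)
      ((hL.continuous.sub continuous_const).div_const _) 1 (fun x => by
        rw [Real.norm_eq_abs, abs_of_nonneg (hgb x).1]
        exact (hgb x).2) with hF
    have hFv : ∀ x, F x = (g x - m) / R := fun _ => rfl
    have hgF : ∀ x, g x = R * F x + m := by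
      intro x
      rw [hFv]
      field_simp
      ring
    have hFlim := hlip F (fun x => (hgb x).1) (fun x => (hgb x).2) (L / R) (by positivity) (fun x y => by
      rw [hFv, hFv, ← sub_div, sub_sub_sub_cancel_right, abs_div, abs_of_pos hR0, div_le_iff₀ hR0]
      have h1 := hL.dist_le_mul x y
      rw [Real.dist_eq, Real.dist_eq] at h1
      calc |g x - g y| ≤ L * |x - y| := h1
        _ = _ := by field_simp)
    have h2 : Tendsto (fun n : ℕ => R * ((W n)⁻¹ * ∑ z ∈ Zn d n, u z * F (Y n z)) + m) atTop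
        (𝓝 (R * (U⁻¹ * ∫ θ, u (cb ψ θ) * ∫ x, F (s θ * x) ∂(gaussianReal 0 1) ∂Pm) + m)) :=
      (hFlim.const_mul R).add_const m
    have e1 : ∫ x, g x ∂((μ₀ : ProbabilityMeasure ℝ) : Measure ℝ) =
        R * (U⁻¹ * ∫ θ, u (cb ψ θ) * ∫ x, F (s θ * x) ∂(gaussianReal 0 1) ∂Pm) + m := by
      rw [← hμ₀i F F.continuous ⟨‖F‖, fun x => by rw [← Real.norm_eq_abs]; exact F.norm_coe_le_norm x⟩,
        ← integral_const_mul]
      simp only [hgF]
      rw [integral_add, integral_const]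
      · simp
      · exact (F.integrable _).const_mul _
      · exact integrable_const _
    rw [e1]
    refine h2.congr' ?_
    filter_upwards [hW0] with n hn
    rw [hμsi n hn g hL.continuous]
    simp only [hgF, mul_add, Finset.sum_add_distrib, ← Finset.sum_mul, ← hW]
    have e2 : ∀ z, u z * (R * F (Y n z)) = R * (u z * F (Y n z)) := fun z => by ring
    simp only [e2, ← Finset.mul_sum]
    field_simp
  rw [ProbabilityMeasure.tendsto_iff_forall_integral_tendsto] at hlim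
  have h2 := hlim f
  rw [hμ₀i f f.continuous ⟨‖f‖, fun x => by rw [← Real.norm_eq_abs]; exact f.norm_coe_le_norm x⟩] at h2
  refine h2.congr' ?_
  filter_upwards [hW0] with n hn
  rw [hμsi n hn f f.continuous, hW]

/-- weights between one half and one -/
theorem lim_half (hd : 2 ≤ d) (hβ : IsBeta d β) (hψ : IsExteriorMap (multibrotSet d) ψ)
    {s : ℝ → ℝ} (hs : Measurable s) (hclt : CLT d β s) {Y : ℕ → ℂ → ℝ} (hYl : LipLim d ψ s Y) {u : ℂ → ℝ} (hu : Continuous u) (hu0 : ∀ z, 1 / 2 ≤ u z)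
    (hu1 : ∀ z, u z ≤ 1) (f : ℝ →ᵇ ℝ) :
    Tendsto (fun n : ℕ => (∑ z ∈ Zn d n, u z * f (Y n z)) / ((Zn d n).card : ℝ)) atTop
      (𝓝 (∫ θ, u (cb ψ θ) * ∫ x, f (s θ * x) ∂(gaussianReal 0 1) ∂Pm)) := by
  have hd0 : (0 : ℝ) < d := by
    have : (2 : ℝ) ≤ d := by exact_mod_cast hd
    linarith
  have hu00 : ∀ z, 0 ≤ u z := fun z => by linarith [hu0 z]
  have huI := u_int hd hβ hψ hu hu00 hu1
  have h1 := ratio_gen hd hβ hψ hs hclt hYl hu hu0 hu1 f
  have h2 := sum_u hd hβ hψ hclt hu hu00 hu1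
  have h3 := card_lim hd hβ hψ hclt
  obtain ⟨U, hU⟩ : ∃ U, U = ∫ θ, u (cb ψ θ) ∂Pm := ⟨_, rfl⟩
  have hU0 : 0 < U := by
    have h1 : ∫ _θ : ℝ, (1 / 2 : ℝ) ∂Pm ≤ U := by
      rw [hU]
      exact integral_mono (integrable_const _) huI fun θ => hu0 _
    have h2 : ∫ _θ : ℝ, (1 / 2 : ℝ) ∂Pm = 1 / 2 := by simp
    linarith
  rw [← hU] at h1 h2
  have h4 := (h2.mul h1).div h3 one_ne_zero
  rw [div_one, ← mul_assoc, mul_inv_cancel₀ hU0.ne', one_mul] at h4
  refine h4.congr' ?_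
  filter_upwards [h2.eventually (lt_mem_nhds hU0), h3.eventually (lt_mem_nhds one_pos)] with n hn1 hn2
  have hD : (0 : ℝ) < (d : ℝ) ^ (n - 1) := by positivity
  have hn3 : 0 < ∑ z ∈ Zn d n, u z := by rwa [lt_div_iff₀ hD, zero_mul] at hn1
  have hn4 : (0 : ℝ) < ((Zn d n).card : ℝ) := by rwa [lt_div_iff₀ hD, zero_mul] at hn2
  simp only [Pi.div_apply]
  field_simp

/-- **all weights** -/
theorem lim_all (hd : 2 ≤ d) (hβ : IsBeta d β) (hψ : IsExteriorMap (multibrotSet d) ψ)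
    {s : ℝ → ℝ} (hs : Measurable s) (hclt : CLT d β s) {Y : ℕ → ℂ → ℝ} (hYl : LipLim d ψ s Y) (u : ℂ →ᵇ ℝ) (f : ℝ →ᵇ ℝ) :
    Tendsto (fun n : ℕ => (∑ z ∈ Zn d n, u z * f (Y n z)) / ((Zn d n).card : ℝ)) atTop
      (𝓝 (∫ θ, u (cb ψ θ) * ∫ x, f (s θ * x) ∂(gaussianReal 0 1) ∂Pm)) := by
  have hc := aetyp_cb hd hβ hψ
  have hcm := c_meas hβ hc
  obtain ⟨A, hA⟩ : ∃ A, A = ‖u‖ + 1 := ⟨_, rfl⟩
  have hA0 : 0 < A := by rw [hA]; positivity
  have huA : ∀ z, |u z| ≤ A := fun z => by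
    rw [← Real.norm_eq_abs, hA]
    linarith [u.norm_coe_le_norm z]
  have h1 := lim_half hd hβ hψ hs hclt hYl (u := fun z => u z / (4 * A) + 3 / 4) (by fun_prop)
    (fun z => by
      have h1 := (abs_le.1 (huA z)).1
      have h2 : -(1 / 4) ≤ u z / (4 * A) := by
        rw [le_div_iff₀ (by positivity)]
        linarith
      linarith)
    (fun z => by
      have h1 := (abs_le.1 (huA z)).2
      have h2 : u z / (4 * A) ≤ 1 / 4 := by
        rw [div_le_iff₀ (by positivity)]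
        linarith
      linarith) f
  have h2 := lim_half hd hβ hψ hs hclt hYl (u := fun _ => 1) continuous_const (fun _ => by norm_num)
    (fun _ => le_rfl) f
  have h3 := (h1.const_mul (4 * A)).sub (h2.const_mul (3 * A))
  have hg : Measurable fun θ => ∫ x, f (s θ * x) ∂(gaussianReal 0 1) := by
    have h1 : StronglyMeasurable (Function.uncurry fun (θ : ℝ) (w : ℝ) => f (s θ * w)) := by
      apply Measurable.stronglyMeasurable
      exact f.continuous.measurable.comp ((hs.comp measurable_fst).mul measurable_snd)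
    exact h1.integral_prod_right.measurable
  have hgb : ∀ θ, ‖∫ x, f (s θ * x) ∂(gaussianReal 0 1)‖ ≤ ‖f‖ := by
    intro θ
    refine (norm_integral_le_of_norm_le_const (C := ‖f‖) (Eventually.of_forall fun w => f.norm_coe_le_norm _)).trans ?_
    simp
  have hgi : Integrable (fun θ => ∫ x, f (s θ * x) ∂(gaussianReal 0 1)) Pm :=
    Integrable.of_bound hg.aestronglyMeasurable ‖f‖ (Eventually.of_forall hgb)
  have hui : Integrable (fun θ => (u (cb ψ θ) / (4 * A) + 3 / 4) * ∫ x, f (s θ * x) ∂(gaussianReal 0 1)) Pm := by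
    apply hgi.bdd_mul (c := A / (4 * A) + 3 / 4)
    · exact (((u.continuous.measurable.comp_aemeasurable hcm).div_const _).add_const _).aestronglyMeasurable
    · refine Eventually.of_forall fun θ => ?_
      rw [Real.norm_eq_abs]
      refine (abs_add_le _ _).trans ?_
      rw [abs_div, abs_of_pos (by positivity : (0 : ℝ) < 4 * A), abs_of_pos (by norm_num : (0 : ℝ) < 3 / 4)]
      gcongr
      exact huA _
  have e1 : 4 * A * ∫ θ, (u (cb ψ θ) / (4 * A) + 3 / 4) * ∫ x, f (s θ * x) ∂(gaussianReal 0 1) ∂Pm -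
      3 * A * ∫ θ, 1 * ∫ x, f (s θ * x) ∂(gaussianReal 0 1) ∂Pm =
      ∫ θ, u (cb ψ θ) * ∫ x, f (s θ * x) ∂(gaussianReal 0 1) ∂Pm := by
    rw [← integral_const_mul, ← integral_const_mul, ← integral_sub (hui.const_mul _)]
    · congr 1
      funext θ
      field_simp
      ring
    · simp only [one_mul]
      exact hgi.const_mul _
  rw [e1] at h3
  refine h3.congr fun n => ?_
  have e2 : ∑ z ∈ Zn d n, (u z / (4 * A) + 3 / 4) * f (Y n z) =
      (∑ z ∈ Zn d n, u z * f (Y n z)) / (4 * A) + 3 / 4 * ∑ z ∈ Zn d n, f (Y n z) := by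
    rw [Finset.mul_sum, Finset.sum_div, ← Finset.sum_add_distrib]
    apply Finset.sum_congr rfl
    intro z _
    field_simp
  rw [e2]
  simp only [one_mul]
  field_simp
  ring

end Pool.Agent.H439.MC
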