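import Mathlib
import Pool.Agent.H439.MC.Asm5

/-!
# The central limit theorem for the superattracting parameters
-/

set_option autoImplicit false

namespace Pool.Agent.H439.MC

open Complex Set Topology Filter Metric MeasureTheory N62a1eb23 Pool.Agent.H712R2
  Pool.Agent.H713R2 Pool.Agent.TH653.MB ProbabilityTheory BoundedContinuousFunction
open Pool.Agent.Y272.TY (Typ cc rl MM mm rl_pos rl_lt MM_ne_zero log_MM mm_eq)
open Pool.Agent.N772.TC (bd bd_spec hm bd_aem bd_eq hm_ball hm_univ)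

variable {d : ℕ} {β : ℂ → ℂ} {ψ : ℂ → ℂ}

/-- the landing points are unique -/
theorem lands_unique {c c' : ℝ → ℂ} (h : LandsAt ψ c) (h' : LandsAt ψ c') : ∀ᵐ θ : ℝ, c θ = c' θ := by
  filter_upwards [h, h'] with θ h1 h2
  exact tendsto_nhds_unique h1 h2

/-- **central limit theorem for the superattracting parameters** -/
theorem clt_cen (hd : 2 ≤ d) (hβ : IsBeta d β) :
    ∃ σ : ℝ → ℝ, Measurable σ ∧ (∀ θ, 0 ≤ σ θ) ∧
      IntervalIntegrable (fun θ => σ θ ^ 2) volume 0 (2 * Real.pi) ∧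
      0 < ∫ θ in (0 : ℝ)..2 * Real.pi, σ θ ∧
      ∀ ψ : ℂ → ℂ, IsExteriorMap (multibrotSet d) ψ → ∀ c : ℝ → ℂ, LandsAt ψ c →
      ∀ (u : ℂ →ᵇ ℝ) (f : ℝ →ᵇ ℝ),
      (∀ Y : ℕ → ℂ → ℝ, (∀ s : ℝ → ℝ, CLT d β s → LipLim d ψ s Y) →
        Tendsto (fun n : ℕ => (∑ z ∈ Zn d n, u z * f (Y n z)) / ((Zn d n).card : ℝ)) atTop
        (𝓝 ((2 * Real.pi)⁻¹ * ∫ θ in (0 : ℝ)..2 * Real.pi, u (c θ) * ∫ x, f (σ θ * x) ∂(gaussianReal 0 1)))) ∧
      Tendsto (fun n : ℕ => (2 * Real.pi)⁻¹ * ∫ θ in (0 : ℝ)..2 * Real.pi, u (c θ) * f (Xn d c n θ)) atTop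
        (𝓝 ((2 * Real.pi)⁻¹ * ∫ θ in (0 : ℝ)..2 * Real.pi, u (c θ) * ∫ x, f (σ θ * x) ∂(gaussianReal 0 1))) := by
  obtain ⟨s, hs, hs0, hs2, hpos, h⟩ := clt_dyn hd hβ
  have hpi := two_pi_pos'
  refine ⟨fun θ => s (2 * Real.pi - θ), hs.comp (measurable_const.sub measurable_id), fun θ => hs0 _, ?_, ?_, ?_⟩
  · rw [← integrable_Pm_iff]
    have h1 : Integrable (fun θ => s θ ^ 2) Pm := hs2.integrable_sq
    have h2 := reflect_int (integrable_Pm_iff.1 h1)
    exact h2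
  · have h1 := reflect s
    have h2 : ∫ θ, s (2 * Real.pi - θ) ∂Pm =
        (2 * Real.pi)⁻¹ * ∫ θ in (0 : ℝ)..2 * Real.pi, s (2 * Real.pi - θ) := by
      rw [integral_Pm, smul_eq_mul]
    rw [h2] at h1
    rw [← h1] at hpos
    exact pos_of_mul_pos_right hpos (by positivity)
  · intro ψ hψ c hc u f
    have e1 : ∀ g : ℝ → ℝ, ∫ θ, g θ ∂Pm =
        (2 * Real.pi)⁻¹ * ∫ θ in (0 : ℝ)..2 * Real.pi, g (2 * Real.pi - θ) := by
      intro g
      rw [← reflect g, integral_Pm, smul_eq_mul]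
    have e2 : ∀ θ : ℝ, 2 * Real.pi - (2 * Real.pi - θ) = θ := fun θ => by ring
    -- the landing points of the exterior map
    have hcb : ∀ᵐ θ : ℝ, c θ = cb ψ (2 * Real.pi - θ) := by
      filter_upwards [lands_unique hc (lands_bd hd hψ)] with θ hθ
      rw [hθ]
      unfold cb
      rw [e2]
    have e3 : ∀ g : ℝ → ℂ → ℝ, (2 * Real.pi)⁻¹ * ∫ θ in (0 : ℝ)..2 * Real.pi, g (2 * Real.pi - θ) (c θ) =
        ∫ θ, g θ (cb ψ θ) ∂Pm := by
      intro g
      rw [e1]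
      congr 1
      apply intervalIntegral.integral_congr_ae
      filter_upwards [hcb] with θ hθ _
      rw [hθ]
    have hT := aetyp_cb hd hβ hψ
    have hcm := c_meas hβ hT
    have e4 := e3 (fun θ z => u z * ∫ x, f (s θ * x) ∂(gaussianReal 0 1))
    rw [e4]
    constructor
    · intro Y hY
      exact lim_all hd hβ hψ hs h (hY s h) u f
    · have huI : Integrable (fun θ => u (cb ψ θ)) Pm := by
        apply Integrable.of_bound (u.continuous.measurable.comp_aemeasurable hcm).aestronglyMeasurable ‖u‖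
        exact Eventually.of_forall fun θ => u.norm_coe_le_norm _
      have h1 := h _ hT (Xn d (cb ψ)) (fun n => Xn_meas hβ hT n) (by simp) _ huI f
      refine h1.congr fun n => ?_
      have e5 := e3 (fun _ z => u z * f ((Real.log ‖MM d z (n + 1)‖ - n * Real.log d) / √n))
      exact e5.symm

end Pool.Agent.H439.MC
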