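import Mathlib
import Pool.Agent.H439.MC.Asm5

/-!
# The derivative of the critical polynomials at the superattracting parameters
-/

set_option autoImplicit false

namespace Pool.Agent.H439.MC

open Complex Set Topology Filter Metric MeasureTheory N62a1eb23 Pool.Agent.H712R2
  Pool.Agent.H713R2 Pool.Agent.TH653.MB ProbabilityTheory BoundedContinuousFunction
open Pool.Agent.Y272.TY (Typ cc rl MM mm rl_pos rl_lt MM_ne_zero log_MM mm_eq)
open Pool.Agent.N772.TC (bd bd_spec hm bd_aem bd_eq hm_ball hm_univ)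

variable {d : ℕ} {β : ℂ → ℂ} {ψ : ℂ → ℂ}

/-- the normalised logarithm of the derivative of the critical polynomial -/
noncomputable def Bc (d n : ℕ) (z : ℂ) : ℝ := (Real.log ‖deriv (P d n) z‖ - n * Real.log d) / √(n : ℝ)

theorem ratio_close (hd : 2 ≤ d) {z : ℂ} {K n : ℕ} (hK : 1 ≤ K) (hKn : K ≤ n) {Λ : ℝ} (hΛ : 0 < Λ)
    (h : ∀ j, K < j → j ≤ n → Λ ≤ ‖MM d z j‖) :
    ‖deriv (P d n) z / MM d z n - deriv (P d K) z / MM d z K‖ ≤ ((n : ℝ) - K) / Λ := by
  induction n, hKn using Nat.le_induction with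
  | base => simp
  | succ m hm ih =>
    have h1 := ih (fun j h1 h2 => h j h1 (by omega))
    have h2 := h (m + 1) (by omega) le_rfl
    have h3 : MM d z (m + 1) ≠ 0 := norm_pos_iff.1 (lt_of_lt_of_le hΛ h2)
    rw [ratio_succ hd (by omega) h3]
    have h4 : ‖1 / MM d z (m + 1)‖ ≤ 1 / Λ := by
      rw [norm_div, norm_one]
      exact one_div_le_one_div_of_le hΛ h2
    have e1 : deriv (P d m) z / MM d z m + 1 / MM d z (m + 1) - deriv (P d K) z / MM d z K =
        (deriv (P d m) z / MM d z m - deriv (P d K) z / MM d z K) + 1 / MM d z (m + 1) := by ring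
    rw [e1]
    refine (norm_add_le _ _).trans ((add_le_add h1 h4).trans (le_of_eq ?_))
    push_cast
    ring

/-- the fluctuation at the last times -/
noncomputable def Tz (d : ℕ) (ε : ℝ) (n : ℕ) (z : ℂ) : ℝ :=
  ∑ i ∈ Finset.Ico (ka d ε n) (n - 1), |Real.log ‖P d (i + 1) z‖|

theorem Tz_mean (hd : 2 ≤ d) {ε : ℝ} (hε : 0 < ε) : ∀ᶠ n : ℕ in atTop,
    ∑ z ∈ Zn d n, Tz d ε n z ≤ (d : ℝ) ^ (n - 1) *
      (2 * Real.log 2 * (2 * ε / Real.log d + 1) * √(n : ℝ)) := by
  have hld := logd_pos hd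
  have hl2 : 0 < Real.log 2 := Real.log_pos (by norm_num)
  obtain ⟨κ, hκ⟩ : ∃ κ : ℝ, κ = 2 * ε / Real.log d := ⟨_, rfl⟩
  have hκ0 : 0 < κ := by rw [hκ]; positivity
  rw [← hκ]
  filter_upwards [kk_bounds hκ0, ev_sqrt2 one_pos 1, eventually_ge_atTop 2] with n hk hn1 hn2
  rw [one_mul] at hn1
  obtain ⟨k1, k2, k3, k4⟩ := hk
  have hka : ka d ε n = kk κ n := by unfold ka; rw [hκ]
  have hcard := Zn_card hd (by omega : 1 ≤ n)
  unfold Tz
  rw [Finset.sum_comm]
  calc ∑ i ∈ Finset.Ico (ka d ε n) (n - 1), ∑ z ∈ Zn d n, |Real.log ‖P d (i + 1) z‖|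
      ≤ ∑ _i ∈ Finset.Ico (ka d ε n) (n - 1), 2 * Real.log 2 * ((Zn d n).card : ℝ) := by
        apply Finset.sum_le_sum
        intro i hi
        rw [Finset.mem_Ico] at hi
        exact sum_abs_log hd (by omega) (by omega) (fun c => Zn_iff hd (by omega) c)
    _ = ((n - 1 - ka d ε n : ℕ) : ℝ) * (2 * Real.log 2 * ((Zn d n).card : ℝ)) := by
        rw [Finset.sum_const, nsmul_eq_mul, Nat.card_Ico]
    _ ≤ ((κ + 1) * √(n : ℝ)) * (2 * Real.log 2 * (d : ℝ) ^ (n - 1)) := by
        gcongr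
        have h1 : ((n - 1 - ka d ε n : ℕ) : ℝ) ≤ (n : ℝ) - ka d ε n := by
          have h2 : n - 1 - ka d ε n ≤ n - ka d ε n := by omega
          have h3 : ((n - 1 - ka d ε n : ℕ) : ℝ) ≤ ((n - ka d ε n : ℕ) : ℝ) := by exact_mod_cast h2
          rwa [Nat.cast_sub (ka_le d ε n)] at h3
        refine h1.trans ?_
        rw [hka]
        linarith
    _ = _ := by ring

/-- the comparison at a regular parameter -/
theorem rgl_use (hd : 2 ≤ d) {ε : ℝ} (hε : 0 < ε) (B : ℝ) : ∀ᶠ n : ℕ in atTop, ∀ z ∈ Zn d n,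
    Rgl d ε n z → -B ≤ Xp d ε n z → Tz d ε n z ≤ Real.log d / (4 * ((d : ℝ) - 1)) * n →
    |Bc d n z - Yc d n z| ≤ 2 * ε := by
  have hld := logd_pos hd
  have hl2 : 0 < Real.log 2 := Real.log_pos (by norm_num)
  have hd1 : (1 : ℝ) ≤ (d : ℝ) - 1 := by
    have : (2 : ℝ) ≤ d := by exact_mod_cast hd
    linarith
  obtain ⟨κ, hκ⟩ : ∃ κ : ℝ, κ = 2 * ε / Real.log d := ⟨_, rfl⟩
  have hκ0 : 0 < κ := by rw [hκ]; positivity
  filter_upwards [kk_bounds hκ0, ev_sqrt2 (by positivity : 0 < Real.log d / 4) (κ * Real.log d + |B| + Real.log d),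
    ev_sqrt2 (by positivity : 0 < Real.log d / 2) (2 + ε + Real.log 2), ev_sqrt2 hε (Real.log 2), ev_sqrt2 hκ0 1,
    (kk_tendsto hκ0).eventually_ge_atTop 1, ev_sqrt2 one_pos 1,
    eventually_ge_atTop 2] with n hk hn1 hn2 hn5 hn6 hn7 hn8 hn9
  intro z hz hR hX hT
  rw [one_mul] at hn8
  obtain ⟨k1, k2, k3, k4⟩ := hk
  have hka : ka d ε n = kk κ n := by unfold ka; rw [hκ]
  have hn0 : (0 : ℝ) < n := by exact_mod_cast (by omega : 0 < n)
  have hq0 : 0 < √(n : ℝ) := by linarith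
  have hqq : √(n : ℝ) * √(n : ℝ) = n := Real.mul_self_sqrt hn0.le
  obtain ⟨K, hK⟩ : ∃ K, K = ka d ε n := ⟨_, rfl⟩
  have hK1 : 1 ≤ K := by rw [hK, hka]; exact hn7
  have hKn : K < n := by
    have h1 : ((K : ℕ) : ℝ) < n := by
      rw [hK, hka]
      linarith
    exact_mod_cast h1
  have hP : ∀ j, 1 ≤ j → j < n → P d j z ≠ 0 := fun j h1 h2 => Zn_P hd (by omega) hz h1 h2
  -- the derivatives at the last times are large
  have hbig : ∀ j, K < j → j ≤ n → Real.exp (Real.log d / 2 * n) ≤ ‖MM d z j‖ := by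
    intro j hj1 hj2
    obtain ⟨m, rfl⟩ : ∃ m, j = m + 1 := ⟨j - 1, by omega⟩
    have hKm : K ≤ m := by omega
    have hPm : ∀ l < m, P d (l + 1) z ≠ 0 := fun l hl => hP (l + 1) (by omega) (by omega)
    have hM0 : 0 < ‖MM d z (m + 1)‖ := norm_pos_iff.2 (MM_ne_zero hd z m hPm)
    rw [← Real.exp_log hM0]
    apply Real.exp_le_exp.2
    rw [log_MM hd z m hPm, ← Finset.sum_range_add_sum_Ico _ hKm]
    have h1 : Xp d ε n z * √(n : ℝ) = ((d : ℝ) - 1) * ∑ i ∈ Finset.range K, Real.log ‖P d (i + 1) z‖ := by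
      rw [Xp_eq hd (fun l hl => hP (l + 1) (by omega) (by omega)), ← hK]
      field_simp
    have h2 : |∑ i ∈ Finset.Ico K m, Real.log ‖P d (i + 1) z‖| ≤ Tz d ε n z := by
      refine (Finset.abs_sum_le_sum_abs _ _).trans ?_
      unfold Tz
      rw [← hK]
      apply Finset.sum_le_sum_of_subset_of_nonneg
      · apply Finset.Ico_subset_Ico le_rfl
        omega
      · intro i _ _
        exact abs_nonneg _
    have h3 : ((d : ℝ) - 1) * Tz d ε n z ≤ Real.log d / 4 * n := by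
      calc ((d : ℝ) - 1) * Tz d ε n z ≤ ((d : ℝ) - 1) * (Real.log d / (4 * ((d : ℝ) - 1)) * n) := by gcongr
        _ = Real.log d / 4 * n := by
            have : (d : ℝ) - 1 ≠ 0 := by linarith
            field_simp
    have h4 := (abs_le.1 h2).1
    have h5 := mul_le_mul_of_nonneg_left h4 (by linarith : 0 ≤ (d : ℝ) - 1)
    have h6 : -|B| * √(n : ℝ) ≤ Xp d ε n z * √(n : ℝ) := by
      apply mul_le_mul_of_nonneg_right _ hq0.le
      linarith [le_abs_self B]
    have h7 : ((K : ℕ) : ℝ) * Real.log d ≤ m * Real.log d := by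
      apply mul_le_mul_of_nonneg_right _ hld.le
      exact_mod_cast hKm
    have h8 : (n - κ * √(n : ℝ) - 1) * Real.log d ≤ ((K : ℕ) : ℝ) * Real.log d := by
      apply mul_le_mul_of_nonneg_right _ hld.le
      rw [hK, hka]
      exact k2
    have h9 := mul_le_mul_of_nonneg_right hn1.le hq0.le
    have h10 : Real.log d / 4 * √(n : ℝ) * √(n : ℝ) = Real.log d / 4 * n := by rw [mul_assoc, hqq]
    rw [h10] at h9
    have h11 : Real.log d ≤ Real.log d * √(n : ℝ) := by nlinarith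
    nlinarith
  have hclose := ratio_close hd hK1 hKn.le (Real.exp_pos _) hbig
  have hsmall : ((n : ℝ) - K) / Real.exp (Real.log d / 2 * n) ≤ 1 / 2 * Real.exp (-(ε * √(n : ℝ))) := by
    rw [div_le_iff₀ (Real.exp_pos _)]
    have h1 : (n : ℝ) ≤ Real.exp (2 * √(n : ℝ)) := by
      have h2 : √(n : ℝ) ≤ Real.exp (√(n : ℝ)) := by
        have := Real.add_one_le_exp (√(n : ℝ))
        linarith
      calc (n : ℝ) = √(n : ℝ) * √(n : ℝ) := hqq.symm
        _ ≤ Real.exp (√(n : ℝ)) * Real.exp (√(n : ℝ)) := by gcongr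
        _ = _ := by rw [← Real.exp_add]; congr 1; ring
    have h2 : 2 * Real.exp (2 * √(n : ℝ)) ≤ Real.exp (-(ε * √(n : ℝ))) * Real.exp (Real.log d / 2 * n) := by
      rw [← Real.exp_add, ← Real.exp_log (by norm_num : (0 : ℝ) < 2), ← Real.exp_add]
      apply Real.exp_le_exp.2
      rw [Real.exp_log (by norm_num : (0 : ℝ) < 2)]
      have h3 := mul_le_mul_of_nonneg_right hn2.le hq0.le
      have h4 : Real.log d / 2 * √(n : ℝ) * √(n : ℝ) = Real.log d / 2 * n := by rw [mul_assoc, hqq]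
      rw [h4] at h3
      nlinarith
    have h3 : (0 : ℝ) ≤ K := Nat.cast_nonneg K
    linarith
  obtain ⟨hM0, hlo, hup⟩ := hR
  rw [← hK] at hM0 hlo hup
  have hMK : 0 < ‖MM d z K‖ := norm_pos_iff.2 hM0
  have hMn : 0 < ‖MM d z n‖ := lt_of_lt_of_le (Real.exp_pos _) (hbig n hKn le_rfl)
  obtain ⟨q, hq⟩ : ∃ q, q = ‖deriv (P d n) z / MM d z n‖ := ⟨_, rfl⟩
  obtain ⟨p, hp⟩ : ∃ p, p = ‖deriv (P d K) z / MM d z K‖ := ⟨_, rfl⟩
  have hp1 : Real.exp (-(ε * √(n : ℝ))) ≤ p := by
    rw [hp, norm_div, le_div_iff₀ hMK]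
    exact hlo
  have hp2 : p ≤ Real.exp (ε * √(n : ℝ)) := by
    rw [hp, norm_div, div_le_iff₀ hMK]
    exact hup
  have hqp : |q - p| ≤ 1 / 2 * Real.exp (-(ε * √(n : ℝ))) := by
    rw [hq, hp]
    exact (abs_norm_sub_norm_le _ _).trans (hclose.trans hsmall)
  have hq1 : 1 / 2 * Real.exp (-(ε * √(n : ℝ))) ≤ q := by
    have := (abs_le.1 hqp).1
    linarith
  have hq2 : q ≤ 2 * Real.exp (ε * √(n : ℝ)) := by
    have h1 := (abs_le.1 hqp).2
    have h2 : Real.exp (-(ε * √(n : ℝ))) ≤ Real.exp (ε * √(n : ℝ)) := by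
      apply Real.exp_le_exp.2
      have : 0 < ε * √(n : ℝ) := by positivity
      linarith
    linarith
  have hq3 : 0 < q := lt_of_lt_of_le (by positivity) hq1
  have hlq : |Real.log q| ≤ 2 * ε * √(n : ℝ) := by
    have e1 : Real.log (1 / 2 * Real.exp (-(ε * √(n : ℝ)))) = -Real.log 2 - ε * √(n : ℝ) := by
      rw [Real.log_mul (by norm_num) (Real.exp_pos _).ne', Real.log_exp, one_div, Real.log_inv]
      ring
    have e2 : Real.log (2 * Real.exp (ε * √(n : ℝ))) = Real.log 2 + ε * √(n : ℝ) := by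
      rw [Real.log_mul (by norm_num) (Real.exp_pos _).ne', Real.log_exp]
    have h1 := Real.log_le_log (by positivity) hq1
    have h2 := Real.log_le_log hq3 hq2
    rw [e1] at h1
    rw [e2] at h2
    rw [abs_le]
    constructor <;> linarith
  have hPn : 0 < ‖deriv (P d n) z‖ := by
    have h1 : ‖deriv (P d n) z‖ = q * ‖MM d z n‖ := by
      rw [hq, norm_div]
      field_simp
    rw [h1]
    positivity
  have e1 : Bc d n z - Yc d n z = Real.log q / √(n : ℝ) := by
    unfold Bc Yc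
    rw [← sub_div, hq, norm_div, Real.log_div hPn.ne' hMn.ne']
    congr 1
    ring
  rw [e1, abs_div, abs_of_pos hq0, div_le_iff₀ hq0]
  exact hlq

open scoped Classical in
/-- **the two derivatives agree for most superattracting parameters** -/
theorem BY_close (hd : 2 ≤ d) (hβ : IsBeta d β) (hψ : IsExteriorMap (multibrotSet d) ψ) {τ : ℝ} (hτ : 0 < τ) :
    Tendsto (fun n : ℕ => (((Zn d n).filter (fun z => τ < |Bc d n z - Yc d n z|)).card : ℝ) /
      (d : ℝ) ^ (n - 1)) atTop (𝓝 0) := by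
  have hld := logd_pos hd
  have hl2 : 0 < Real.log 2 := Real.log_pos (by norm_num)
  have hd1 : (1 : ℝ) ≤ (d : ℝ) - 1 := by
    have : (2 : ℝ) ≤ d := by exact_mod_cast hd
    linarith
  have hd0 : (0 : ℝ) < d := by linarith
  obtain ⟨ε, hεe⟩ : ∃ ε, ε = τ / 2 := ⟨_, rfl⟩
  have hε : 0 < ε := by rw [hεe]; positivity
  have hc := aetyp_cb hd hβ hψ
  obtain ⟨C, hC, hCt⟩ := tail_prob hd hβ
  rw [Metric.tendsto_nhds]
  intro e he
  obtain ⟨B, hB⟩ : ∃ B : ℝ, B = 8 * C / e + 1 := ⟨_, rfl⟩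
  have hB1 : 1 ≤ B := by
    rw [hB]
    have : 0 < 8 * C / e := by positivity
    linarith
  have hBe : C / B ^ 2 ≤ e / 8 := by
    rw [div_le_iff₀ (by positivity)]
    have h1 : B ≤ B ^ 2 := by nlinarith
    have h2 : e / 8 * B = C + e / 8 := by rw [hB]; field_simp
    have h3 := mul_le_mul_of_nonneg_left h1 (by positivity : 0 ≤ e / 8)
    linarith
  obtain ⟨F, hF⟩ : ∃ F : ℝ → ℝ, ∀ x, F x = max 0 (min 1 (-B - x)) := ⟨_, fun _ => rfl⟩
  have hFm : Measurable F := by
    have : F = fun x => max 0 (min 1 (-B - x)) := funext hF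
    rw [this]
    fun_prop
  have hF0 : ∀ x, 0 ≤ F x := fun x => by rw [hF]; exact le_max_left _ _
  have hF1 : ∀ x, F x ≤ 1 := fun x => by rw [hF]; exact max_le zero_le_one (min_le_left _ _)
  have hFL : ∀ x y, |F x - F y| ≤ 1 * |x - y| := by
    intro x y
    rw [hF, hF, one_mul, max_comm (0 : ℝ) (min 1 (-B - x)), max_comm (0 : ℝ) (min 1 (-B - y))]
    refine (abs_max_sub_max_le_abs (min 1 (-B - x)) (min 1 (-B - y)) 0).trans ?_
    rcases le_total 1 (-B - x) with h1 | h1 <;> rcases le_total 1 (-B - y) with h2 | h2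
    · rw [min_eq_left h1, min_eq_left h2]
      simp
    · rw [min_eq_left h1, min_eq_right h2, abs_of_nonneg (by linarith), abs_sub_comm,
        abs_of_nonneg (by linarith : 0 ≤ y - x)]
      linarith
    · rw [min_eq_right h1, min_eq_left h2, abs_of_nonpos (by linarith),
        abs_of_nonneg (by linarith : 0 ≤ x - y)]
      linarith
    · rw [min_eq_right h1, min_eq_right h2]
      rw [show -B - x - (-B - y) = -(x - y) by ring, abs_neg]
  have l1 := both_u hd hβ hψ hε (u := fun _ => 1) continuous_const (fun _ => zero_le_one) (fun _ => le_rfl)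
    hFm hF0 hF1 zero_le_one hFL (by positivity : 0 < e / 8)
  have l2 := rgl_most hd hβ hψ hε (by positivity : 0 < e / 4)
  have l3 := rgl_use hd hε (B + 1)
  have l4 := Tz_mean hd hε
  obtain ⟨τ', hτ'⟩ : ∃ τ' : ℝ, τ' = Real.log d / (4 * ((d : ℝ) - 1)) := ⟨_, rfl⟩
  have hτ0 : 0 < τ' := by rw [hτ']; positivity
  filter_upwards [l1, l2, l3, l4, eventually_ge_atTop 1, ev_sqrt2 (by positivity : 0 < e / 4 * τ')
    (2 * Real.log 2 * (2 * ε / Real.log d + 1))] with n h1 h2 h3 h4 hn1 h5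
  have hn0 : (0 : ℝ) < n := by exact_mod_cast hn1
  have hq0 : 0 < √(n : ℝ) := Real.sqrt_pos.2 hn0
  have hqq : √(n : ℝ) * √(n : ℝ) = n := Real.mul_self_sqrt hn0.le
  have hD : (0 : ℝ) < (d : ℝ) ^ (n - 1) := by positivity
  rw [Real.dist_eq, sub_zero, abs_of_nonneg (by positivity), div_lt_iff₀ hD]
  -- the three exceptional sets
  have hsub : (Zn d n).filter (fun z => τ < |Bc d n z - Yc d n z|) ⊆
      ((Zn d n).filter (fun z => ¬ Rgl d ε n z) ∪ (Zn d n).filter (fun z => Xp d ε n z < -(B + 1))) ∪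
        (Zn d n).filter (fun z => τ' * n < Tz d ε n z) := by
    intro z hz
    rw [Finset.mem_filter] at hz
    rw [Finset.mem_union, Finset.mem_union, Finset.mem_filter, Finset.mem_filter, Finset.mem_filter]
    by_contra hcon
    push Not at hcon
    obtain ⟨⟨c1, c2⟩, c3⟩ := hcon
    have h6 := h3 z hz.1 (c1 hz.1) (c2 hz.1) (by rw [← hτ']; exact c3 hz.1)
    have h7 := hz.2
    rw [hεe] at h6
    linarith
  have hcard := (Finset.card_le_card hsub).trans ((Finset.card_union_le _ _).trans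
    (add_le_add (Finset.card_union_le _ _) le_rfl))
  have hcard' : (((Zn d n).filter (fun z => τ < |Bc d n z - Yc d n z|)).card : ℝ) ≤
      (((Zn d n).filter (fun z => ¬ Rgl d ε n z)).card : ℝ) +
      (((Zn d n).filter (fun z => Xp d ε n z < -(B + 1))).card : ℝ) +
      (((Zn d n).filter (fun z => τ' * n < Tz d ε n z)).card : ℝ) := by exact_mod_cast hcard
  -- the second set
  have hset2 : (((Zn d n).filter (fun z => Xp d ε n z < -(B + 1))).card : ℝ) ≤ e / 4 * (d : ℝ) ^ (n - 1) := by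
    have g1 : (((Zn d n).filter (fun z => Xp d ε n z < -(B + 1))).card : ℝ) ≤ ∑ z ∈ Zn d n, 1 * F (Xp d ε n z) := by
      rw [Finset.card_eq_sum_ones, Finset.sum_filter]
      push_cast
      apply Finset.sum_le_sum
      intro z _
      split_ifs with h
      · rw [hF, min_eq_left (by linarith)]
        simp
      · rw [one_mul]
        exact hF0 _
    have g2 : ∫ θ, 1 * F (Xp d ε n (cb ψ θ)) ∂Pm ≤ e / 8 := by
      have hX := Xp_meas hβ hc ε n
      have hset : NullMeasurableSet {θ | B < |Xp d ε n (cb ψ θ)|} Pm := nullMeasurableSet_lt aemeasurable_const hX.abs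
      have g3 : ∫ θ, 1 * F (Xp d ε n (cb ψ θ)) ∂Pm ≤
          ∫ θ, {θ | B < |Xp d ε n (cb ψ θ)|}.indicator (fun _ => (1 : ℝ)) θ ∂Pm := by
        apply integral_mono_of_nonneg
        · exact Eventually.of_forall fun θ => by
            change 0 ≤ 1 * F _
            rw [one_mul]
            exact hF0 _
        · exact (integrable_const (1 : ℝ)).indicator₀ hset
        · refine Eventually.of_forall fun θ => ?_
          change 1 * F (Xp d ε n (cb ψ θ)) ≤ {θ | B < |Xp d ε n (cb ψ θ)|}.indicator (fun _ => (1 : ℝ)) θ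
          by_cases h : B < |Xp d ε n (cb ψ θ)|
          · rw [Set.indicator_of_mem (show θ ∈ {θ | B < |Xp d ε n (cb ψ θ)|} from h), one_mul]
            exact hF1 _
          · rw [Set.indicator_of_notMem (show θ ∉ {θ | B < |Xp d ε n (cb ψ θ)|} from h), one_mul, hF]
            push Not at h
            have h7 := (abs_le.1 h).1
            apply max_le le_rfl
            refine (min_le_right _ _).trans ?_
            linarith
      rw [integral_indicator₀ hset, setIntegral_const, smul_eq_mul, mul_one] at g3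
      exact g3.trans ((hCt _ hc ε B n (by linarith) hn1).trans hBe)
    have g4 := (abs_le.1 h1).2
    have g5 : (∑ z ∈ Zn d n, 1 * F (Xp d ε n z)) / (d : ℝ) ^ (n - 1) ≤ e / 4 := by linarith
    rw [div_le_iff₀ hD] at g5
    exact g1.trans g5
  -- the third set
  have hset3 : (((Zn d n).filter (fun z => τ' * n < Tz d ε n z)).card : ℝ) ≤ e / 4 * (d : ℝ) ^ (n - 1) := by
    have g1 : (((Zn d n).filter (fun z => τ' * n < Tz d ε n z)).card : ℝ) * (τ' * n) ≤ ∑ z ∈ Zn d n, Tz d ε n z := by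
      rw [← nsmul_eq_mul, ← Finset.sum_const, Finset.sum_filter]
      apply Finset.sum_le_sum
      intro z _
      split_ifs with h
      · exact h.le
      · exact Finset.sum_nonneg fun i _ => abs_nonneg _
    have g2 := g1.trans h4
    have g3 : (d : ℝ) ^ (n - 1) * (2 * Real.log 2 * (2 * ε / Real.log d + 1) * √(n : ℝ)) ≤
        e / 4 * (d : ℝ) ^ (n - 1) * (τ' * n) := by
      have g4 := mul_le_mul_of_nonneg_right h5.le hq0.le
      have g5 : e / 4 * τ' * √(n : ℝ) * √(n : ℝ) = e / 4 * (τ' * n) := by rw [mul_assoc, hqq]; ring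
      rw [g5] at g4
      calc _ ≤ (d : ℝ) ^ (n - 1) * (e / 4 * (τ' * n)) := by gcongr
        _ = _ := by ring
    exact le_of_mul_le_mul_right (g2.trans g3) (by positivity)
  have h8 : 0 < e / 4 * (d : ℝ) ^ (n - 1) := by positivity
  linarith

end Pool.Agent.H439.MC
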