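import Mathlib
import Pool.Agent.H439.MC.Asm7
import Pool.Agent.H439.MC.Asm6

/-!
# The central limit theorem for the sizes of the hyperbolic components
-/

set_option autoImplicit false

namespace Pool.Agent.H439.MC

open Complex Set Topology Filter Metric MeasureTheory N62a1eb23 Pool.Agent.H712R2
  Pool.Agent.H713R2 Pool.Agent.TH653.MB ProbabilityTheory BoundedContinuousFunction
open Pool.Agent.Y272.TY (Typ cc rl MM mm rl_pos rl_lt MM_ne_zero log_MM mm_eq)
open Pool.Agent.N772.TC (bd bd_spec hm bd_aem bd_eq hm_ball hm_univ)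

variable {d : ℕ} {β : ℂ → ℂ} {ψ : ℂ → ℂ}

open scoped Classical in
/-- asymptotically equal statistics have the same limit -/
theorem LipLim.close (hd : 2 ≤ d) {s : ℝ → ℝ} {Y Y' : ℕ → ℂ → ℝ} (h : LipLim d ψ s Y)
    (hc : ∀ τ : ℝ, 0 < τ → Tendsto (fun n : ℕ => (((Zn d n).filter (fun z => τ < |Y' n z - Y n z|)).card : ℝ) /
      (d : ℝ) ^ (n - 1)) atTop (𝓝 0)) : LipLim d ψ s Y' := by
  intro u hu hu0 hu1 F hF0 hF1 L hL hFL
  have h1 := h u hu hu0 hu1 F hF0 hF1 L hL hFL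
  have hd0 : (0 : ℝ) < d := by
    have : (2 : ℝ) ≤ d := by exact_mod_cast hd
    linarith
  rw [Metric.tendsto_nhds]
  intro e he
  obtain ⟨τ, hτ⟩ : ∃ τ, τ = e / (4 * (L + 1)) := ⟨_, rfl⟩
  have hτ0 : 0 < τ := by rw [hτ]; positivity
  filter_upwards [h1.eventually (Metric.ball_mem_nhds _ (by positivity : 0 < e / 4)),
    (hc τ hτ0).eventually (gt_mem_nhds (by positivity : 0 < e / 4)), eventually_ge_atTop 1] with n g1 g2 hn1
  have hD : (0 : ℝ) < (d : ℝ) ^ (n - 1) := by positivity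
  rw [Real.dist_eq] at g1 ⊢
  rw [div_lt_iff₀ hD] at g2
  have hcard := Zn_card hd hn1
  have h5 : |(∑ z ∈ Zn d n, u z * F (Y' n z)) / (d : ℝ) ^ (n - 1) -
      (∑ z ∈ Zn d n, u z * F (Y n z)) / (d : ℝ) ^ (n - 1)| ≤ e / 2 := by
    rw [← sub_div, abs_div, abs_of_pos hD, div_le_iff₀ hD, ← Finset.sum_sub_distrib]
    refine (Finset.abs_sum_le_sum_abs _ _).trans ?_
    have h6 : ∀ z ∈ Zn d n, |u z * F (Y' n z) - u z * F (Y n z)| ≤
        e / 4 + if τ < |Y' n z - Y n z| then 1 else 0 := by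
      intro z _
      rw [← mul_sub, abs_mul, abs_of_nonneg (hu0 z)]
      have h7 : u z * |F (Y' n z) - F (Y n z)| ≤ |F (Y' n z) - F (Y n z)| := by
        calc u z * |F (Y' n z) - F (Y n z)| ≤ 1 * |F (Y' n z) - F (Y n z)| := by
              gcongr
              exact hu1 z
          _ = _ := one_mul _
      refine h7.trans ?_
      split_ifs with hlt
      · have h8 : |F (Y' n z) - F (Y n z)| ≤ 1 := by
          rw [abs_le]
          constructor <;> linarith [hF0 (Y' n z), hF1 (Y' n z), hF0 (Y n z), hF1 (Y n z)]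
        linarith
      · push Not at hlt
        have h8 := hFL (Y' n z) (Y n z)
        have h9 : L * |Y' n z - Y n z| ≤ L * τ := mul_le_mul_of_nonneg_left hlt hL
        have h10 : L * τ ≤ e / 4 := by
          rw [hτ]
          have e1 : L * (e / (4 * (L + 1))) = e / 4 * (L / (L + 1)) := by field_simp
          rw [e1]
          have h11 : L / (L + 1) ≤ 1 := by
            rw [div_le_one (by linarith)]
            linarith
          have h12 := mul_le_mul_of_nonneg_left h11 (by positivity : 0 ≤ e / 4)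
          linarith
        linarith
    refine (Finset.sum_le_sum h6).trans ?_
    rw [Finset.sum_add_distrib, Finset.sum_const, nsmul_eq_mul, ← Finset.sum_filter, Finset.sum_const,
      nsmul_eq_mul, mul_one]
    have h7 : ((Zn d n).card : ℝ) * (e / 4) ≤ (d : ℝ) ^ (n - 1) * (e / 4) := by gcongr
    linarith
  rw [abs_le] at h5
  rw [abs_lt] at g1 ⊢
  constructor <;> linarith [h5.1, h5.2, g1.1, g1.2]

/-- the normalised logarithm of the inverse of the size -/
noncomputable def Sc (d n : ℕ) (z : ℂ) : ℝ :=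
  ((1 - 1 / (d : ℝ)) * (Real.log ‖deriv (P d n) z‖ + Real.log ‖MM d z n‖ / ((d : ℝ) - 1)) -
    n * Real.log d) / √(n : ℝ)

theorem Sc_eq (hd : 2 ≤ d) (n : ℕ) (z : ℂ) :
    Sc d n z - Yc d n z = (1 - 1 / (d : ℝ)) * (Bc d n z - Yc d n z) := by
  have hd1 : (1 : ℝ) ≤ (d : ℝ) - 1 := by
    have : (2 : ℝ) ≤ d := by exact_mod_cast hd
    linarith
  have hd0 : (0 : ℝ) < d := by linarith
  unfold Sc Bc Yc
  obtain ⟨a, ha⟩ : ∃ a, a = Real.log ‖deriv (P d n) z‖ := ⟨_, rfl⟩
  obtain ⟨b, hb⟩ : ∃ b, b = Real.log ‖MM d z n‖ := ⟨_, rfl⟩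
  rw [← ha, ← hb]
  have e1 : (1 - 1 / (d : ℝ)) * (a + b / ((d : ℝ) - 1)) = (1 - 1 / (d : ℝ)) * a + b / d := by
    have : (d : ℝ) - 1 ≠ 0 := by linarith
    field_simp
  rw [e1]
  ring

open scoped Classical in
theorem SY_close (hd : 2 ≤ d) (hβ : IsBeta d β) (hψ : IsExteriorMap (multibrotSet d) ψ) {τ : ℝ} (hτ : 0 < τ) :
    Tendsto (fun n : ℕ => (((Zn d n).filter (fun z => τ < |Sc d n z - Yc d n z|)).card : ℝ) /
      (d : ℝ) ^ (n - 1)) atTop (𝓝 0) := by
  have hd2 : (2 : ℝ) ≤ d := by exact_mod_cast hd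
  apply squeeze_zero (fun n => by positivity) _ (BY_close hd hβ hψ hτ)
  intro n
  have hd0 : (0 : ℝ) < d := by linarith
  have hD : (0 : ℝ) < (d : ℝ) ^ (n - 1) := by positivity
  apply div_le_div_of_nonneg_right _ hD.le
  have h1 : (Zn d n).filter (fun z => τ < |Sc d n z - Yc d n z|) ⊆
      (Zn d n).filter (fun z => τ < |Bc d n z - Yc d n z|) := by
    intro z hz
    rw [Finset.mem_filter] at hz ⊢
    refine ⟨hz.1, lt_of_lt_of_le hz.2 ?_⟩
    rw [Sc_eq hd, abs_mul]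
    have h2 : |1 - 1 / (d : ℝ)| ≤ 1 := by
      have h3 : 1 / (d : ℝ) ≤ 1 := by
        rw [div_le_one hd0]
        linarith
      have h4 : 0 < 1 / (d : ℝ) := by positivity
      rw [abs_of_nonneg (by linarith)]
      linarith
    calc |1 - 1 / (d : ℝ)| * |Bc d n z - Yc d n z| ≤ 1 * |Bc d n z - Yc d n z| := by gcongr
      _ = _ := one_mul _
  exact_mod_cast Finset.card_le_card h1

theorem lipLim_Bc (hd : 2 ≤ d) (hβ : IsBeta d β) (hψ : IsExteriorMap (multibrotSet d) ψ)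
    {s : ℝ → ℝ} (hclt : CLT d β s) : LipLim d ψ s (Bc d) :=
  (lipLim_Yc hd hβ hψ hclt).close hd fun _ hτ => BY_close hd hβ hψ hτ

theorem lipLim_Sc (hd : 2 ≤ d) (hβ : IsBeta d β) (hψ : IsExteriorMap (multibrotSet d) ψ)
    {s : ℝ → ℝ} (hclt : CLT d β s) : LipLim d ψ s (Sc d) :=
  (lipLim_Yc hd hβ hψ hclt).close hd fun _ hτ => SY_close hd hβ hψ hτ

end Pool.Agent.H439.MC
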