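import Mathlib
import Pool.Graph.R_pool_sql_team_seeded_63374d34.Results.MP_fcb70f_an.PerfectCopies
import Pool.Graph.R_pool_sql_team_seeded_63374d34.N228.DQ.Hyp
import Pool.Agent.H206.ThinI

/-!
# The distance of a superattracting parameter to the complement of the Multibrot set
-/

set_option autoImplicit false

namespace Pool.Agent.H439.MC

open Filter Topology Set Metric MeasureTheory
open N62a1eb23
open Pool.Agent.H712R2 (P fc)
open Pool.Agent.N772.TC Pool.Agent.N772.PC Pool.Agent.H206.Hair Pool.Agent.H206.Thin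
open Pool.Agent.Results.MP_fcb70f_an (PerfectCopies.consequences PerfectCopies.log_near')

/-- the distance to the complement is comparable to the scale of the small copy -/
def Inr (d n : ℕ) (C : ℝ) (c : ℂ) : Prop :=
  ∃ l m : ℂ, l ≠ 0 ∧ m ≠ 0 ∧ m ^ (d - 1) * deriv ((fc d c)^[n - 1]) c = 1 ∧ l * deriv (P d n) c = m ∧
    ‖l‖ / C ≤ infDist c (multibrotSet d)ᶜ ∧ infDist c (multibrotSet d)ᶜ ≤ C * ‖l‖

theorem zero_hyp {d : ℕ} (hd : 2 ≤ d) : (0 : ℂ) ∈ Pool.Agent.N228.DQ.hyp d := by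
  refine ⟨1, 0, one_pos, ?_, ?_, ?_⟩
  · unfold Function.IsPeriodicPt Function.IsFixedPt
    rw [Function.iterate_one, zero_pow (by omega), add_zero]
  · rw [Function.iterate_one]
    fun_prop
  · rw [Function.iterate_one]
    have h1 : deriv (fun z : ℂ => z ^ d + 0) 0 = 0 := by
      simp only [add_zero]
      rw [deriv_pow_field, zero_pow (by omega), mul_zero]
    rw [h1, norm_zero]
    exact one_pos

theorem inr_near {d : ℕ} (hd : 2 ≤ d) : ∃ C : ℝ, 1 ≤ C ∧ ∀ (χ : ℝ) (c₀ : ℂ), Pool.Agent.Y298.CA.Lyap d χ c₀ →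
    ∃ δ : ℝ, 0 < δ ∧ ∀ᶠ n : ℕ in atTop, ∀ c ∈ Cn d n,
      ‖c - c₀‖ ≤ Real.exp (-((χ - δ) * n)) → Inr d n C c := by
  have hdR : (2 : ℝ) ≤ d := by exact_mod_cast hd
  have hd1 : (0 : ℝ) < (d : ℝ) - 1 := by linarith
  obtain ⟨r₀, hr₀, hball⟩ := Metric.isOpen_iff.1 (Pool.Agent.N228.DQ.isOpen_hyp hd) 0 (zero_hyp hd)
  have hM2 : multibrotSet d ⊆ closedBall 0 2 := by
    intro κ hκ
    have h2 := (Pool.Agent.H712R2.mem_multibrot_iff hd κ).1 hκ 1
    rwa [Pool.Agent.H712R2.P_one hd, ← dist_zero_right] at h2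
  obtain ⟨C, hC⟩ : ∃ C : ℝ, C = max 4 (2 / r₀) := ⟨_, rfl⟩
  have hC4 : 4 ≤ C := by rw [hC]; exact le_max_left _ _
  have hCr : 2 / r₀ ≤ C := by rw [hC]; exact le_max_right _ _
  refine ⟨C, by linarith, ?_⟩
  intro χ c₀ h
  have hχ := h.1
  have hY : 0 < χ / (d - 1) := by positivity
  -- the region outside
  obtain ⟨V, hV⟩ : ∃ V : Set ℂ, V = ball (7 / 2 : ℂ) (1 / 2) := ⟨_, rfl⟩
  have hVn : ∀ κ ∈ V, 3 < ‖κ‖ ∧ ‖κ‖ ≤ 4 := by
    intro κ hκ
    rw [hV, mem_ball, dist_eq_norm] at hκ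
    have h7 : ‖(7 / 2 : ℂ)‖ = 7 / 2 := by
      rw [show (7 / 2 : ℂ) = ((7 / 2 : ℝ) : ℂ) by push_cast; ring, Complex.norm_real, Real.norm_eq_abs,
        abs_of_pos (by norm_num)]
    have h8 := abs_norm_sub_norm_le κ (7 / 2 : ℂ)
    rw [h7] at h8
    have h9 := abs_le.1 h8
    constructor <;> linarith [h9.1, h9.2]
  have hV0 : 0 < volume V := by
    rw [hV]
    exact measure_ball_pos _ _ (by norm_num)
  have hVt : volume V ≠ ⊤ := by
    rw [hV]
    exact measure_ball_lt_top.ne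
  obtain ⟨η, hη⟩ : ∃ η : ℝ, η = (volume V).toReal / 2 := ⟨_, rfl⟩
  have hVr : 0 < (volume V).toReal := ENNReal.toReal_pos hV0.ne' hVt
  have hη0 : 0 < η := by rw [hη]; positivity
  obtain ⟨e, he⟩ : ∃ e : ℝ, e = min (1 / 2) (r₀ / 2) := ⟨_, rfl⟩
  have he0 : 0 < e := by rw [he]; exact lt_min (by norm_num) (by positivity)
  have he1 : e ≤ 1 / 2 := by rw [he]; exact min_le_left _ _
  have he2 : e ≤ r₀ / 2 := by rw [he]; exact min_le_right _ _
  obtain ⟨δ₀, hδ₀, H₀⟩ := thin_k hd h he0 (show (0 : ℝ) < 4 by norm_num) hη0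
  obtain ⟨ε₁, hε₁⟩ : ∃ ε₁ : ℝ, ε₁ = min (δ₀ / 4) (min (e / 2) (χ / (d - 1) / 2)) := ⟨_, rfl⟩
  have h1 : 0 < ε₁ := by rw [hε₁]; positivity
  have h2 : ε₁ ≤ e / 2 := by rw [hε₁]; exact (min_le_right _ _).trans (min_le_left _ _)
  have h3 : ε₁ ≤ χ / (d - 1) / 2 := by
    rw [hε₁]; exact (min_le_right _ _).trans (min_le_right _ _)
  have h4 : ε₁ ≤ δ₀ / 4 := by rw [hε₁]; exact min_le_left _ _
  obtain ⟨δ, hδ, H⟩ := uni_near hd h h1
  refine ⟨min δ δ₀, lt_min hδ hδ₀, ?_⟩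
  filter_upwards [H, PerfectCopies.consequences hd hχ he0 (by linarith : ε₁ < e) (by linarith),
    eventually_ge_atTop 1, H₀] with n hn1 hn2 hn hn3 c hc hcc
  have hn0 : (0 : ℝ) < n := by exact_mod_cast hn
  have hexp' : ∀ {a b : ℝ}, b ≤ a → Real.exp (-(a * n)) ≤ Real.exp (-(b * n)) := by
    intro a b hab
    gcongr
  have hP : Pool.Agent.H712R2.P d n c = 0 := Pool.Agent.N896.MB.per_zero hc
  obtain ⟨l, m, hl, hm, a1, a2, ⟨a3, a4⟩, ⟨a5, a6⟩, hU⟩ := hn1 c hP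
    (hcc.trans (hexp' (by linarith [min_le_left δ δ₀])))
  obtain ⟨-, -, ⟨-, b1, -, b3⟩, -, -⟩ := hn2 c l m hl hm hP hU
  have hvol := hn3 c l m hl hm
    (hcc.trans (hexp' (by linarith [min_le_right δ δ₀])))
    (a4.trans (hexp' (by linarith))) (le_trans (hexp' (by linarith)) a5)
    (a6.trans (hexp' (by linarith))) (Un_mono hU (by gcongr))
  have hln : 0 < ‖l‖ := norm_pos_iff.2 hl
  refine ⟨l, m, hl, hm, a1, a2, ?_, ?_⟩
  · -- a disc of parameters with attracting cycles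
    have hne : (multibrotSet d)ᶜ.Nonempty := by
      refine ⟨3, fun h3 => ?_⟩
      have h4 := hM2 h3
      rw [mem_closedBall, dist_zero_right] at h4
      have h5 : ‖(3 : ℂ)‖ = 3 := by simp
      linarith
    rw [le_infDist hne]
    intro b hb
    by_contra hcon
    push Not at hcon
    apply hb
    obtain ⟨κ, hκ⟩ : ∃ κ, κ = (b - c) / l := ⟨_, rfl⟩
    have hbκ : b = c + l * κ := by
      rw [hκ]
      field_simp
      ring
    have hκn : ‖κ‖ < r₀ / 2 := by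
      rw [hκ, norm_div, div_lt_iff₀ hln, ← dist_eq_norm, dist_comm]
      have h5 : ‖l‖ / C ≤ r₀ / 2 * ‖l‖ := by
        rw [div_le_iff₀ (by linarith)]
        have h6 : 1 ≤ r₀ / 2 * C := by
          have h7 := mul_le_mul_of_nonneg_left hCr (by positivity : 0 ≤ r₀ / 2)
          have h8 : r₀ / 2 * (2 / r₀) = 1 := by field_simp
          linarith
        calc ‖l‖ = 1 * ‖l‖ := (one_mul _).symm
          _ ≤ (r₀ / 2 * C) * ‖l‖ := by gcongr
          _ = _ := by ring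
      linarith
    have hsub : ball κ e ⊆ Pool.Agent.N228.DQ.hyp d := by
      refine subset_trans (ball_subset_ball' ?_) hball
      rw [dist_zero_right]
      linarith
    obtain ⟨_, h7⟩ := b3 κ hsub
    rw [hbκ]
    exact interior_subset (Pool.Agent.R240.Alm.att_interior hd h7)
  · -- a parameter in the complement
    by_contra hcon
    push Not at hcon
    have hall : ∀ κ ∈ V, c + l * κ ∈ multibrotSet d := by
      intro κ hκ
      by_contra h5
      have h6 : infDist c (multibrotSet d)ᶜ ≤ dist c (c + l * κ) := infDist_le_dist_of_mem h5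
      have h7 : dist c (c + l * κ) ≤ C * ‖l‖ := by
        rw [dist_comm, dist_eq_norm, add_sub_cancel_left, norm_mul, mul_comm]
        have := (hVn κ hκ).2
        gcongr
        linarith
      linarith
    have hsub : V ⊆ {κ : ℂ | ‖κ‖ ≤ 4 ∧ κ ∉ thickening e (multibrotSet d) ∧ c + l * κ ∈ multibrotSet d} := by
      intro κ hκ
      refine ⟨(hVn κ hκ).2, fun h5 => ?_, hall κ hκ⟩
      obtain ⟨y, hy, hyκ⟩ := mem_thickening_iff.1 h5
      have h8 := hM2 hy
      rw [mem_closedBall, dist_zero_right] at h8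
      have h9 : ‖κ‖ ≤ ‖κ - y‖ + ‖y‖ := by
        have := norm_add_le (κ - y) y
        rwa [sub_add_cancel] at this
      rw [dist_eq_norm] at hyκ
      have := (hVn κ hκ).1
      linarith
    have h5 := (measure_mono hsub).trans hvol
    have h6 := ENNReal.toReal_mono ENNReal.ofReal_ne_top h5
    rw [ENNReal.toReal_ofReal hη0.le, hη] at h6
    linarith

/-- **most superattracting parameters** -/
theorem inr_most {d : ℕ} (hd : 2 ≤ d) {ψ : ℂ → ℂ} (hψ : Pool.Agent.H713R2.IsExteriorMap (multibrotSet d) ψ) :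
    ∃ C : ℝ, 1 ≤ C ∧ Tendsto (fun n : ℕ => ({c | c ∈ Cn d n ∧ Inr d n C c}.ncard : ℝ) / (Cn d n).ncard)
      atTop (𝓝 1) := by
  obtain ⟨C, hC, h⟩ := inr_near hd
  refine ⟨C, hC, ?_⟩
  apply most_tendsto hd hψ (fun n c => Inr d n C c)
  filter_upwards [ae_lyap hd hψ] with θ hθ
  exact h _ _ hθ

end Pool.Agent.H439.MC
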