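import Mathlib
import Pool.Agent.H439.MC.Asm8
import Pool.Agent.H439.MC.Inr

/-!
# The law of the distance of a superattracting parameter to the complement of the Multibrot set
-/

set_option autoImplicit false

namespace Pool.Agent.H439.MC

open Complex Set Topology Filter Metric MeasureTheory N62a1eb23 Pool.Agent.H712R2
  Pool.Agent.H713R2 Pool.Agent.TH653.MB ProbabilityTheory BoundedContinuousFunction
open Pool.Agent.Y272.TY (Typ cc rl MM mm rl_pos rl_lt MM_ne_zero log_MM mm_eq)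

variable {d : ℕ} {β : ℂ → ℂ} {ψ : ℂ → ℂ}

/-- the normalised logarithm of the inverse of the distance to the complement -/
noncomputable def Rc (d n : ℕ) (z : ℂ) : ℝ :=
  ((1 - 1 / (d : ℝ)) * Real.log (1 / infDist z (multibrotSet d)ᶜ) - n * Real.log d) / √(n : ℝ)

theorem inr_log (hd : 2 ≤ d) {n : ℕ} (hn : 1 ≤ n) {C : ℝ} (hC : 1 ≤ C) {z : ℂ} (h : Inr d n C z) :
    |Real.log (1 / infDist z (multibrotSet d)ᶜ) -
      (Real.log ‖deriv (P d n) z‖ + Real.log ‖MM d z n‖ / ((d : ℝ) - 1))| ≤ Real.log C := by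
  have hd1 : (1 : ℝ) ≤ (d : ℝ) - 1 := by
    have : (2 : ℝ) ≤ d := by exact_mod_cast hd
    linarith
  obtain ⟨l, m, hl, hm, h1, h2, h3, h4⟩ := h
  obtain ⟨k, rfl⟩ : ∃ k, n = k + 1 := ⟨n - 1, by omega⟩
  have hM : deriv ((fc d z)^[k + 1 - 1]) z = MM d z (k + 1) := by
    rw [Nat.add_sub_cancel]
    exact deriv_fc_iter hd z k
  rw [hM] at h1
  have hl0 : 0 < ‖l‖ := norm_pos_iff.2 hl
  have hm0 : 0 < ‖m‖ := norm_pos_iff.2 hm
  have hMM0 : MM d z (k + 1) ≠ 0 := by
    intro h0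
    rw [h0, mul_zero] at h1
    exact zero_ne_one h1
  have hP0 : deriv (P d (k + 1)) z ≠ 0 := by
    intro h0
    rw [h0, mul_zero] at h2
    exact hm h2.symm
  have e1 : ((d : ℝ) - 1) * Real.log ‖m‖ + Real.log ‖MM d z (k + 1)‖ = 0 := by
    have h5 := congrArg (fun w : ℂ => Real.log ‖w‖) h1
    simp only [norm_mul, norm_pow, norm_one, Real.log_one] at h5
    rw [Real.log_mul (by positivity) (norm_ne_zero_iff.2 hMM0), Real.log_pow,
      Nat.cast_sub (by omega : 1 ≤ d), Nat.cast_one] at h5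
    exact h5
  have e2 : Real.log ‖l‖ + Real.log ‖deriv (P d (k + 1)) z‖ = Real.log ‖m‖ := by
    rw [← Real.log_mul hl0.ne' (norm_ne_zero_iff.2 hP0), ← norm_mul, h2]
  have e3 : Real.log ‖deriv (P d (k + 1)) z‖ + Real.log ‖MM d z (k + 1)‖ / ((d : ℝ) - 1) = -Real.log ‖l‖ := by
    have : (d : ℝ) - 1 ≠ 0 := by linarith
    have h5 : Real.log ‖MM d z (k + 1)‖ / ((d : ℝ) - 1) = -Real.log ‖m‖ := by
      rw [div_eq_iff this]
      linarith
    rw [h5]
    linarith
  rw [e3]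
  have hC0 : 0 < C := by linarith
  have hr0 : 0 < infDist z (multibrotSet d)ᶜ := lt_of_lt_of_le (by positivity) h3
  rw [one_div, Real.log_inv]
  have k1 := Real.log_le_log (by positivity) h3
  have k2 := Real.log_le_log hr0 h4
  rw [Real.log_div hl0.ne' hC0.ne'] at k1
  rw [Real.log_mul hC0.ne' hl0.ne'] at k2
  rw [abs_le]
  constructor <;> linarith

open scoped Classical in
theorem RS_close (hd : 2 ≤ d) (hβ : IsBeta d β) (hψ : IsExteriorMap (multibrotSet d) ψ)
    {s : ℝ → ℝ} (hclt : CLT d β s) {τ : ℝ} (hτ : 0 < τ) :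
    Tendsto (fun n : ℕ => (((Zn d n).filter (fun z => τ < |Rc d n z - Sc d n z|)).card : ℝ) /
      (d : ℝ) ^ (n - 1)) atTop (𝓝 0) := by
  have hd2 : (2 : ℝ) ≤ d := by exact_mod_cast hd
  have hd0 : (0 : ℝ) < d := by linarith
  obtain ⟨C, hC, h1⟩ := inr_most hd hψ
  have hlC : 0 ≤ Real.log C := Real.log_nonneg hC
  have h2 : Tendsto (fun n : ℕ => 1 - ({c | c ∈ Pool.Agent.N772.TC.Cn d n ∧ Inr d n C c}.ncard : ℝ) /
      (Pool.Agent.N772.TC.Cn d n).ncard) atTop (𝓝 0) := by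
    have := h1.const_sub 1
    rwa [sub_self] at this
  have hcard := card_lim hd hβ hψ hclt
  apply squeeze_zero' (Eventually.of_forall fun n => by positivity) _ h2
  filter_upwards [eventually_ge_atTop 1, ev_sqrt2 hτ (Real.log C), ev_sqrt2 one_pos 0,
    hcard.eventually (lt_mem_nhds one_pos)] with n hn hn2 hn3 hn4
  rw [one_mul] at hn3
  have hD : (0 : ℝ) < (d : ℝ) ^ (n - 1) := by positivity
  have hZ : (0 : ℝ) < ((Zn d n).card : ℝ) := by rwa [lt_div_iff₀ hD, zero_mul] at hn4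
  have hle := Zn_card hd hn
  -- the sets as finite sets
  have e1 : Pool.Agent.N772.TC.Cn d n = ((Zn d n : Finset ℂ) : Set ℂ) := by
    ext z
    rw [Finset.mem_coe, mem_Zn hd hn]
    rfl
  have e2 : {c | c ∈ Pool.Agent.N772.TC.Cn d n ∧ Inr d n C c} =
      (((Zn d n).filter (fun z => Inr d n C z) : Finset ℂ) : Set ℂ) := by
    ext z
    rw [Finset.mem_coe, Finset.mem_filter, mem_Zn hd hn]
    rfl
  rw [e2, e1, ncard_coe_finset, ncard_coe_finset]
  have h3 := Finset.card_filter_add_card_filter_not (s := Zn d n) (fun z => Inr d n C z)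
  have h4 : (((Zn d n).filter (fun z => Inr d n C z)).card : ℝ) +
      (((Zn d n).filter (fun z => ¬ Inr d n C z)).card : ℝ) = ((Zn d n).card : ℝ) := by exact_mod_cast h3
  have h5 : (Zn d n).filter (fun z => τ < |Rc d n z - Sc d n z|) ⊆ (Zn d n).filter (fun z => ¬ Inr d n C z) := by
    intro z hz
    rw [Finset.mem_filter] at hz ⊢
    refine ⟨hz.1, fun hI => ?_⟩
    have h6 := inr_log hd hn hC hI
    have h7 : |Rc d n z - Sc d n z| ≤ τ := by
      unfold Rc Sc
      rw [← sub_div, abs_div, abs_of_pos hn3, div_le_iff₀ hn3, sub_sub_sub_cancel_right, ← mul_sub, abs_mul]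
      have h8 : |1 - 1 / (d : ℝ)| ≤ 1 := by
        have h9 : 1 / (d : ℝ) ≤ 1 := by
          rw [div_le_one hd0]
          linarith
        have h10 : 0 < 1 / (d : ℝ) := by positivity
        rw [abs_of_nonneg (by linarith)]
        linarith
      calc _ ≤ 1 * Real.log C := mul_le_mul h8 h6 (abs_nonneg _) zero_le_one
        _ ≤ _ := by linarith
    linarith [hz.2]
  have h6 : (((Zn d n).filter (fun z => τ < |Rc d n z - Sc d n z|)).card : ℝ) ≤
      (((Zn d n).filter (fun z => ¬ Inr d n C z)).card : ℝ) := by exact_mod_cast Finset.card_le_card h5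
  have h7 : 1 - (((Zn d n).filter (fun z => Inr d n C z)).card : ℝ) / ((Zn d n).card : ℝ) =
      (((Zn d n).filter (fun z => ¬ Inr d n C z)).card : ℝ) / ((Zn d n).card : ℝ) := by
    rw [eq_div_iff hZ.ne', sub_mul, div_mul_cancel₀ _ hZ.ne']
    linarith
  rw [h7]
  calc _ ≤ (((Zn d n).filter (fun z => ¬ Inr d n C z)).card : ℝ) / (d : ℝ) ^ (n - 1) := by gcongr
    _ ≤ _ := by gcongr

theorem lipLim_Rc (hd : 2 ≤ d) (hβ : IsBeta d β) (hψ : IsExteriorMap (multibrotSet d) ψ)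
    {s : ℝ → ℝ} (hclt : CLT d β s) : LipLim d ψ s (Rc d) :=
  (lipLim_Sc hd hβ hψ hclt).close hd fun _ hτ => RS_close hd hβ hψ hclt hτ

end Pool.Agent.H439.MC
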