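import Mathlib
import Pool.Agent.H439.MC.Prob

/-!
# Packing of angles
-/

set_option autoImplicit false

namespace Pool.Agent.H439.MC

open Complex Set Topology Filter Metric MeasureTheory N62a1eb23 Pool.Agent.H712R2
  Pool.Agent.H713R2 Pool.Agent.TH653.MB
open Pool.Agent.Y272.TY (Typ cc rl MM mm rl_pos rl_lt MM_ne_zero log_MM mm_eq one_sub_rl_pos
  rl_ge_half one_sub_exp_ge)
open Pool.Agent.W677.Mar (pt)
open scoped ENNReal

variable {d : ℕ} {β : ℂ → ℂ}

/-- separated points in a disc -/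
theorem pack_sep {ι : Type*} (F : Finset ι) (p : ι → ℂ) (z : ℂ) {s R : ℝ} (hs : 0 < s) (hR : 0 ≤ R)
    (hp : ∀ i ∈ F, ‖p i - z‖ ≤ R) (hsep : ∀ i ∈ F, ∀ j ∈ F, i ≠ j → s ≤ ‖p i - p j‖) :
    (F.card : ℝ) ≤ (1 + 2 * R / s) ^ 2 := by
  have hpi := Real.pi_pos
  have hdisj : (F : Set ι).PairwiseDisjoint (fun i => ball (p i) (s / 2)) := by
    intro i hi j hj hij
    change Disjoint (ball (p i) (s / 2)) (ball (p j) (s / 2))
    apply ball_disjoint_ball
    rw [dist_eq_norm]
    have := hsep i hi j hj hij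
    linarith
  have h2 := measure_biUnion_finset (μ := (volume : Measure ℂ)) hdisj (fun i _ => measurableSet_ball)
  have h3 : volume (⋃ i ∈ F, ball (p i) (s / 2)) ≤ volume (ball z (R + s / 2)) := by
    apply measure_mono
    apply iUnion₂_subset
    intro i hi
    apply ball_subset_ball'
    rw [dist_eq_norm]
    have := hp i hi
    linarith
  rw [h2] at h3
  simp only [Complex.volume_ball, Finset.sum_const, nsmul_eq_mul] at h3
  have h4 := ENNReal.toReal_mono (by finiteness) h3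
  rw [ENNReal.toReal_mul, ENNReal.toReal_mul, ENNReal.toReal_mul, ENNReal.toReal_pow, ENNReal.toReal_pow,
    ENNReal.toReal_ofReal (by positivity), ENNReal.toReal_ofReal (by positivity), ENNReal.toReal_natCast] at h4
  have h5 : ((NNReal.pi : ℝ≥0∞)).toReal = Real.pi := rfl
  rw [h5, ← mul_assoc] at h4
  have h6 := le_of_mul_le_mul_right h4 hpi
  have e1 : (1 + 2 * R / s) ^ 2 = (R + s / 2) ^ 2 / (s / 2) ^ 2 := by
    rw [← div_pow]
    congr 1
    field_simp
    ring
  rw [e1, le_div_iff₀ (by positivity)]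
  exact h6

/-- the angles of the points of the circle near a given one -/
theorem arc_meas {b η : ℝ} (hb : b ∈ Ioc 0 (2 * Real.pi)) (hη : 0 ≤ η) :
    Pm {θ | ‖exp (θ * I) - exp (b * I)‖ ≤ η} ≤ ENNReal.ofReal (2 * η) := by
  have hpi := Real.pi_pos
  set δ : ℝ := Real.pi * η / 2 with hδ
  have hsub : {θ : ℝ | ‖exp (θ * I) - exp (b * I)‖ ≤ η} ∩ Ioc 0 (2 * Real.pi) ⊆
      Icc (b - δ) (b + δ) ∪ (Icc (b + 2 * Real.pi - δ) (b + 2 * Real.pi + δ) ∪
        Icc (b - 2 * Real.pi - δ) (b - 2 * Real.pi + δ)) := by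
    rintro θ ⟨h1, h2⟩
    have h3 : ‖exp (θ * I) - exp (b * I)‖ = ‖2 * Real.sin ((θ - b) / 2)‖ := by
      rw [← Complex.norm_exp_I_mul_ofReal_sub_one]
      have e1 : exp (θ * I) - exp (b * I) = exp (b * I) * (exp (I * ((θ - b : ℝ) : ℂ)) - 1) := by
        rw [mul_sub, ← Complex.exp_add, mul_one]
        congr 2
        push_cast
        ring
      rw [e1, norm_mul, norm_exp_ofReal_mul_I, one_mul]
    have h4 : ‖exp (θ * I) - exp (b * I)‖ ≤ η := h1
    rw [h3, norm_mul, Real.norm_of_nonneg (by norm_num : (0 : ℝ) ≤ 2), Real.norm_eq_abs] at h4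
    set x := (θ - b) / 2 with hx
    have hxθ : θ = b + 2 * x := by rw [hx]; ring
    have hx1 : x < Real.pi := by rw [hx]; linarith [h2.2, hb.1]
    have hx2 : -Real.pi < x := by rw [hx]; linarith [h2.1, hb.2]
    rcases le_or_gt |x| (Real.pi / 2) with h5 | h5
    · left
      have h6 := Real.mul_abs_le_abs_sin h5
      have h7 : |x| ≤ δ / 2 := by
        have h8 : 2 / Real.pi * |x| ≤ η / 2 := by linarith
        rw [div_mul_eq_mul_div, div_le_iff₀ hpi] at h8
        rw [hδ]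
        linarith
      obtain ⟨h8, h9⟩ := abs_le.1 h7
      exact ⟨by linarith, by linarith⟩
    · right
      rcases le_or_gt 0 x with h6 | h6
      · left
        rw [abs_of_nonneg h6] at h5
        have h7 : |Real.pi - x| ≤ Real.pi / 2 := by
          rw [abs_of_nonneg (by linarith)]
          linarith
        have h8 := Real.mul_abs_le_abs_sin h7
        rw [Real.sin_pi_sub, abs_of_nonneg (by linarith : 0 ≤ Real.pi - x)] at h8
        have h9 : 2 / Real.pi * (Real.pi - x) ≤ η / 2 := by linarith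
        rw [div_mul_eq_mul_div, div_le_iff₀ hpi] at h9
        have h10 : 0 ≤ δ := by rw [hδ]; positivity
        constructor
        · rw [hδ]; linarith
        · linarith
      · right
        rw [abs_of_neg h6] at h5
        have h7 : |Real.pi + x| ≤ Real.pi / 2 := by
          rw [abs_of_nonneg (by linarith)]
          linarith
        have h8 := Real.mul_abs_le_abs_sin h7
        have h11 : |Real.sin (Real.pi + x)| = |Real.sin x| := by
          rw [add_comm, Real.sin_add_pi, abs_neg]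
        rw [h11, abs_of_nonneg (by linarith : 0 ≤ Real.pi + x)] at h8
        have h9 : 2 / Real.pi * (Real.pi + x) ≤ η / 2 := by linarith
        rw [div_mul_eq_mul_div, div_le_iff₀ hpi] at h9
        have h10 : 0 ≤ δ := by rw [hδ]; positivity
        constructor
        · linarith
        · rw [hδ]; linarith
  have hδ0 : 0 ≤ δ := by rw [hδ]; positivity
  unfold Pm
  rw [Measure.smul_apply, Measure.restrict_apply₀' measurableSet_Ioc.nullMeasurableSet, smul_eq_mul]
  calc (ENNReal.ofReal (2 * Real.pi))⁻¹ * volume ({θ : ℝ | ‖exp (θ * I) - exp (b * I)‖ ≤ η} ∩ Ioc 0 (2 * Real.pi))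
      ≤ (ENNReal.ofReal (2 * Real.pi))⁻¹ * (ENNReal.ofReal (2 * δ) + (ENNReal.ofReal (2 * δ) + ENNReal.ofReal (2 * δ))) := by
        gcongr
        refine (measure_mono hsub).trans ((measure_union_le _ _).trans ?_)
        refine add_le_add ?_ ((measure_union_le _ _).trans (add_le_add ?_ ?_))
        · rw [Real.volume_Icc]
          apply ENNReal.ofReal_le_ofReal
          linarith
        · rw [Real.volume_Icc]
          apply ENNReal.ofReal_le_ofReal
          linarith
        · rw [Real.volume_Icc]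
          apply ENNReal.ofReal_le_ofReal
          linarith
    _ ≤ ENNReal.ofReal (2 * η) := by
        rw [← ENNReal.ofReal_add (by positivity) (by positivity), ← ENNReal.ofReal_add (by positivity) (by positivity),
          ← ENNReal.ofReal_inv_of_pos (by positivity), ← ENNReal.ofReal_mul (by positivity)]
        apply ENNReal.ofReal_le_ofReal
        have e1 : (2 * Real.pi)⁻¹ * (2 * δ + (2 * δ + 2 * δ)) = 3 / 2 * η := by
          rw [hδ]
          field_simp
          ring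
        rw [e1]
        linarith

/-- **packing of angles** -/
theorem pack_angles (hd : 2 ≤ d) (hβ : IsBeta d β) : ∃ C : ℝ, 0 < C ∧ ∀ k : ℕ, 3 ≤ k →
    ∀ (E : Set ℝ) (z : ℂ) (m R : ℝ), 0 < m → 0 ≤ R → E ⊆ Ioc 0 (2 * Real.pi) →
    (∀ θ ∈ E, ‖cc β (pt (rl d k) θ) - z‖ ≤ R ∧ m ≤ ‖deriv (cc β) (pt (rl d k) θ)‖) →
    Pm E ≤ ENNReal.ofReal ((1 + C * R * (d : ℝ) ^ k / m) ^ 2 * (C / (d : ℝ) ^ k)) := by
  obtain ⟨c0, hc0, hkoebe⟩ := Pool.Agent.Helper265.Br.koebe_omit
  refine ⟨max 20 (4 / c0), by positivity, ?_⟩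
  intro k hk E z m R hm hR hE hgood
  set C : ℝ := max 20 (4 / c0) with hC
  have hC20 : 20 ≤ C := le_max_left _ _
  have hCc : 4 / c0 ≤ C := le_max_right _ _
  have hd1 : (1 : ℝ) ≤ d := by exact_mod_cast (by omega : 1 ≤ d)
  have hd2 : (2 : ℝ) ≤ d := by exact_mod_cast hd
  have hp : (0 : ℝ) < (d : ℝ) ^ k := by positivity
  have hp8 : (8 : ℝ) ≤ (d : ℝ) ^ k := by
    calc (8 : ℝ) = 2 ^ 3 := by norm_num
      _ ≤ 2 ^ k := pow_le_pow_right₀ (by norm_num) hk
      _ ≤ (d : ℝ) ^ k := pow_le_pow_left₀ (by norm_num) hd2 k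
  set ρ : ℝ := 1 / (2 * (d : ℝ) ^ k) with hρ
  have hρ0 : 0 < ρ := by positivity
  have hρ16 : ρ ≤ 1 / 16 := by
    rw [hρ]
    apply one_div_le_one_div_of_le (by norm_num)
    linarith
  have hrge : 4 / (d : ℝ) ^ k / 5 ≤ 1 - rl d k := by
    apply one_sub_exp_ge (by positivity)
    rw [div_le_iff₀ hp]
    linarith
  have hρr : ρ < 1 - rl d k := by
    refine lt_of_lt_of_le ?_ hrge
    have e1 : ρ = (1 / 2) / (d : ℝ) ^ k := by rw [hρ]; field_simp
    have e2 : 4 / (d : ℝ) ^ k / 5 = (4 / 5) / (d : ℝ) ^ k := by field_simp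
    rw [e1, e2]
    apply div_lt_div_of_pos_right _ hp
    norm_num
  have hhalf := rl_ge_half hd hk
  set x : ℝ → ℂ := fun θ => pt (rl d k) θ with hx
  have hxn : ∀ θ, ‖x θ‖ = rl d k := fun θ => Pool.Agent.W677.Mar.norm_pt _ θ (rl_pos d k).le
  have hsub : ∀ θ, ball (x θ) ρ ⊆ ball (0 : ℂ) 1 \ {0} := by
    intro θ y hy
    rw [mem_ball, dist_eq_norm] at hy
    have h1 := hxn θ
    constructor
    · rw [mem_ball_zero_iff]
      calc ‖y‖ = ‖(y - x θ) + x θ‖ := by ring_nf
        _ ≤ ‖y - x θ‖ + ‖x θ‖ := norm_add_le _ _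
        _ < 1 := by linarith
    · rintro (rfl : y = 0)
      rw [zero_sub, norm_neg, h1] at hy
      linarith
  obtain ⟨u, hu1, hu2, hu3⟩ := Vitali.exists_disjoint_subfamily_covering_enlargement_closedBall
    E x (fun _ => ρ) ρ (fun _ _ => le_rfl) 5 (by norm_num)
  have hcount : u.Countable := by
    apply hu2.countable_of_nonempty_interior
    intro θ _
    refine ⟨x θ, ?_⟩
    exact ball_subset_interior_closedBall (mem_ball_self hρ0)
  -- the separation of the images
  set s : ℝ := c0 * ρ * m with hs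
  have hs0 : 0 < s := by positivity
  have hsep : ∀ a ∈ u, ∀ b ∈ u, a ≠ b → s ≤ ‖cc β (x a) - cc β (x b)‖ := by
    intro a ha b hb hab
    have hdiff : DifferentiableOn ℂ (cc β) (ball (x a) ρ) := fun y hy =>
      (cc_diffAt hβ (hsub a hy).1 (hsub a hy).2).differentiableWithinAt
    have hinj : InjOn (cc β) (ball (x a) ρ) := fun y hy y' hy' h =>
      hβ.inj y (hsub a hy).1 y' (hsub a hy').1 (hsub a hy).2 (hsub a hy').2 h
    have hnot : cc β (x b) ∉ cc β '' ball (x a) ρ := by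
      rintro ⟨y, hy, hyb⟩
      have hb1 : x b ∈ ball (x b) ρ := mem_ball_self hρ0
      have h1 : y = x b := hβ.inj y (hsub a hy).1 (x b) (hsub b hb1).1 (hsub a hy).2 (hsub b hb1).2 hyb
      rw [h1] at hy
      exact Set.disjoint_left.1 (hu2 ha hb hab) (ball_subset_closedBall hy) (mem_closedBall_self hρ0.le)
    have h1 := hkoebe (cc β) (x a) ρ hρ0 hdiff hinj _ hnot
    refine le_trans ?_ h1
    rw [hs]
    have := (hgood a (hu1 ha)).2
    gcongr
  have hcard : ∀ F : Finset u, (F.card : ℝ) ≤ (1 + 2 * R / s) ^ 2 := by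
    intro F
    apply pack_sep F (fun a => cc β (x a)) z hs0 hR
    · intro a _
      exact (hgood a (hu1 a.2)).1
    · intro a _ b _ hab
      exact hsep a a.2 b b.2 (fun h => hab (Subtype.ext h))
  -- the cover
  have hcov : E ⊆ ⋃ b : u, {θ | ‖exp (θ * I) - exp (((b : ℝ) : ℂ) * I)‖ ≤ 10 * ρ} := by
    intro θ hθ
    obtain ⟨b, hb, hsubb⟩ := hu3 θ hθ
    refine mem_iUnion.2 ⟨⟨b, hb⟩, ?_⟩
    have h1 := hsubb (mem_closedBall_self hρ0.le)
    rw [mem_closedBall, dist_eq_norm] at h1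
    have e1 : x θ - x b = (rl d k : ℂ) * (exp (θ * I) - exp (b * I)) := by
      rw [hx]
      simp only [pt, circleMap, zero_add]
      ring
    rw [e1, norm_mul, Complex.norm_real, Real.norm_eq_abs, abs_of_pos (rl_pos d k)] at h1
    change ‖exp (θ * I) - exp (b * I)‖ ≤ 10 * ρ
    nlinarith [norm_nonneg (exp ((θ : ℂ) * I) - exp ((b : ℂ) * I))]
  have : Countable u := hcount.to_subtype
  have h1 : Pm E ≤ ∑' b : u, Pm {θ | ‖exp (θ * I) - exp (((b : ℝ) : ℂ) * I)‖ ≤ 10 * ρ} :=
    (measure_mono hcov).trans (measure_iUnion_le _)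
  have h2 : ∀ b : u, Pm {θ | ‖exp (θ * I) - exp (((b : ℝ) : ℂ) * I)‖ ≤ 10 * ρ} ≤ ENNReal.ofReal (20 * ρ) := by
    intro b
    refine (arc_meas (hE (hu1 b.2)) (by positivity)).trans ?_
    apply ENNReal.ofReal_le_ofReal
    linarith
  refine h1.trans ((ENNReal.tsum_le_tsum h2).trans ?_)
  rw [ENNReal.tsum_eq_iSup_sum]
  apply iSup_le
  intro F
  rw [Finset.sum_const, nsmul_eq_mul, ← ENNReal.ofReal_natCast, ← ENNReal.ofReal_mul (by positivity)]
  apply ENNReal.ofReal_le_ofReal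
  have h3 := hcard F
  have h4 : 2 * R / s ≤ C * R * (d : ℝ) ^ k / m := by
    have e1 : 2 * R / s = (4 / c0) * R * (d : ℝ) ^ k / m := by
      rw [hs, hρ]
      field_simp
      ring
    rw [e1]
    gcongr
  have h5 : 20 * ρ ≤ C / (d : ℝ) ^ k := by
    rw [hρ]
    have e1 : 20 * (1 / (2 * (d : ℝ) ^ k)) = 10 / (d : ℝ) ^ k := by
      field_simp
      norm_num
    rw [e1]
    gcongr
    linarith
  calc (F.card : ℝ) * (20 * ρ) ≤ (1 + 2 * R / s) ^ 2 * (C / (d : ℝ) ^ k) := by gcongr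
    _ ≤ (1 + C * R * (d : ℝ) ^ k / m) ^ 2 * (C / (d : ℝ) ^ k) := by gcongr

end Pool.Agent.H439.MC
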