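import Mathlib
import Pool.Agent.H439.MC.Hmu1

/-!
# The harmonic measure of small discs is not too large
-/

set_option autoImplicit false

namespace Pool.Agent.H439.MC

open Complex Set Topology Filter Metric MeasureTheory N62a1eb23 Pool.Agent.H712R2
  Pool.Agent.H713R2 Pool.Agent.TH653.MB
open Pool.Agent.Y272.TY (Typ cc rl MM mm rl_pos rl_lt MM_ne_zero log_MM mm_eq one_sub_rl_pos
  rl_ge_half one_sub_exp_ge)
open Pool.Agent.W677.Mar (pt)
open scoped ENNReal

variable {d : ℕ} {β : ℂ → ℂ}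

/-- **one class of angles** -/
theorem class_bound (hd : 2 ≤ d) (hβ : IsBeta d β) : ∃ C : ℝ, 0 < C ∧ ∀ c : ℝ → ℂ, AEMeasurable c Pm →
    ∀ k : ℕ, 3 ≤ k → ∀ h w r τ : ℝ, 1 ≤ h → 0 < w → 0 < r → r ≤ h * w → 0 < τ →
    ∀ E : Set ℝ, E ⊆ Ioc 0 (2 * Real.pi) → (∀ θ ∈ E, ‖cc β (pt (rl d k) θ) - c θ‖ ≤ h * (h * w) ∧
      (d : ℝ) ^ k * w / h ≤ ‖deriv (cc β) (pt (rl d k) θ)‖ ∧ τ ≤ (Pm {t | ‖c t - c θ‖ ≤ r}).toReal) →
    Pm E ≤ ENNReal.ofReal (C * h ^ 6 / (τ * (d : ℝ) ^ k)) := by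
  obtain ⟨C, hC, hpack⟩ := pack_angles hd hβ
  have hd1 : (1 : ℝ) ≤ d := by exact_mod_cast (by omega : 1 ≤ d)
  refine ⟨(1 + C * 6) ^ 2 * C, by positivity, ?_⟩
  intro c hcm k hk h w r τ hh hw hr hrw hτ E hE hgood
  have hp : (0 : ℝ) < (d : ℝ) ^ k := by positivity
  have hh0 : 0 < h := by linarith
  obtain ⟨u, hu1, hu2, hu3⟩ := Vitali.exists_disjoint_subfamily_covering_enlargement_closedBall
    E c (fun _ => r) r (fun _ _ => le_rfl) 5 (by norm_num)
  have hcount : u.Countable := by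
    apply hu2.countable_of_nonempty_interior
    intro θ _
    refine ⟨c θ, ?_⟩
    exact ball_subset_interior_closedBall (mem_ball_self hr)
  have : Countable u := hcount.to_subtype
  -- the number of the balls
  have hcard : ∀ F : Finset u, (F.card : ℝ) ≤ 1 / τ := by
    intro F
    have hm : ∀ b : u, NullMeasurableSet {t | ‖c t - c b‖ ≤ r} Pm := fun b =>
      nullMeasurableSet_le (hcm.sub_const _).norm aemeasurable_const
    have h1 := sum_measure_le_measure_univ (μ := Pm) (s := F) (t := fun b : u => {t | ‖c t - c b‖ ≤ r})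
      (fun b _ => hm b) (by
        intro a _ b _ hab
        apply Disjoint.aedisjoint
        rw [Set.disjoint_left]
        intro t ht1 ht2
        have h2 : Disjoint (closedBall (c a) r) (closedBall (c b) r) := hu2 a.2 b.2 (fun h => hab (Subtype.ext h))
        exact Set.disjoint_left.1 h2 (mem_closedBall.2 (by rw [dist_eq_norm]; exact ht1))
          (mem_closedBall.2 (by rw [dist_eq_norm]; exact ht2)))
    have h2 : ∑ b ∈ F, Pm {t | ‖c t - c b‖ ≤ r} ≤ 1 := h1.trans prob_le_one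
    have h3 : ∑ b ∈ F, ENNReal.ofReal τ ≤ ∑ b ∈ F, Pm {t | ‖c t - c b‖ ≤ r} := by
      apply Finset.sum_le_sum
      intro b _
      exact ENNReal.ofReal_le_of_le_toReal (hgood b (hu1 b.2)).2.2
    have h4 := h3.trans h2
    rw [Finset.sum_const, nsmul_eq_mul, ← ENNReal.ofReal_natCast, ← ENNReal.ofReal_mul (by positivity),
      ENNReal.ofReal_le_one] at h4
    rw [le_div_iff₀ hτ]
    exact h4
  -- the cover
  have hcov : E ⊆ ⋃ b : u, E ∩ {θ | ‖c θ - c b‖ ≤ 5 * r} := by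
    intro θ hθ
    obtain ⟨b, hb, hsubb⟩ := hu3 θ hθ
    refine mem_iUnion.2 ⟨⟨b, hb⟩, hθ, ?_⟩
    have h1 := hsubb (mem_closedBall_self hr.le)
    rw [mem_closedBall, dist_eq_norm] at h1
    exact h1
  have hpiece : ∀ b : u, Pm (E ∩ {θ | ‖c θ - c b‖ ≤ 5 * r}) ≤
      ENNReal.ofReal ((1 + C * 6) ^ 2 * C * h ^ 6 / (d : ℝ) ^ k) := by
    intro b
    have h1 := hpack k hk (E ∩ {θ | ‖c θ - c b‖ ≤ 5 * r}) (c b) ((d : ℝ) ^ k * w / h) (6 * h ^ 2 * w)
      (by positivity) (by positivity) (inter_subset_left.trans hE) (by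
        rintro θ ⟨hθ, hθ2⟩
        obtain ⟨g1, g2, _⟩ := hgood θ hθ
        have g3 : ‖c θ - c b‖ ≤ 5 * r := hθ2
        refine ⟨?_, g2⟩
        have h2 : 5 * r ≤ 5 * (h * (h * w)) := by
          have : h * w ≤ h * (h * w) := le_mul_of_one_le_left (by positivity) hh
          linarith
        calc ‖cc β (pt (rl d k) θ) - c b‖ = ‖(cc β (pt (rl d k) θ) - c θ) + (c θ - c b)‖ := by ring_nf
          _ ≤ ‖cc β (pt (rl d k) θ) - c θ‖ + ‖c θ - c b‖ := norm_add_le _ _
          _ ≤ h * (h * w) + 5 * (h * (h * w)) := by linarith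
          _ = 6 * h ^ 2 * w := by ring)
    refine h1.trans (ENNReal.ofReal_le_ofReal ?_)
    have e1 : C * (6 * h ^ 2 * w) * (d : ℝ) ^ k / ((d : ℝ) ^ k * w / h) = C * 6 * h ^ 3 := by
      field_simp
    rw [e1]
    have h2 : 1 + C * 6 * h ^ 3 ≤ (1 + C * 6) * h ^ 3 := by
      have : 1 ≤ h ^ 3 := one_le_pow₀ hh
      nlinarith
    calc (1 + C * 6 * h ^ 3) ^ 2 * (C / (d : ℝ) ^ k) ≤ ((1 + C * 6) * h ^ 3) ^ 2 * (C / (d : ℝ) ^ k) := by gcongr
      _ = (1 + C * 6) ^ 2 * C * h ^ 6 / (d : ℝ) ^ k := by ring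
  refine (measure_mono hcov).trans ((measure_iUnion_le _).trans ((ENNReal.tsum_le_tsum hpiece).trans ?_))
  rw [ENNReal.tsum_eq_iSup_sum]
  apply iSup_le
  intro F
  rw [Finset.sum_const, nsmul_eq_mul, ← ENNReal.ofReal_natCast, ← ENNReal.ofReal_mul (by positivity)]
  apply ENNReal.ofReal_le_ofReal
  calc (F.card : ℝ) * ((1 + C * 6) ^ 2 * C * h ^ 6 / (d : ℝ) ^ k) ≤
        1 / τ * ((1 + C * 6) ^ 2 * C * h ^ 6 / (d : ℝ) ^ k) := by
        gcongr
        exact hcard F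
    _ = _ := by field_simp

/-- the normalised logarithm is bounded with large probability -/
theorem xn_tight (hd : 2 ≤ d) (hβ : IsBeta d β) : ∃ C : ℝ, 0 < C ∧ ∀ c : ℝ → ℂ, AETyp d β c → ∀ A : ℝ, 0 < A →
    ∀ k : ℕ, 1 ≤ k → Pm {θ | A < |Xn d c k θ|} ≤ ENNReal.ofReal (C / A ^ 2) := by
  obtain ⟨C, hC, hstep⟩ := step_prob hd hβ
  refine ⟨C, hC, ?_⟩
  intro c hc A hA k hk
  have hk0 : (0 : ℝ) < k := by exact_mod_cast hk
  have hq : 0 < √(k : ℝ) := Real.sqrt_pos.2 hk0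
  have h1 := hstep c hc (Finset.range k) (A * √(k : ℝ)) (by positivity)
  refine le_trans (measure_mono_ae ?_) (h1.trans (ENNReal.ofReal_le_ofReal ?_))
  · filter_upwards [hc] with θ hθ hX
    obtain ⟨A', R, hT⟩ := hθ
    have hX' : A < |Xn d c k θ| := hX
    change A * √(k : ℝ) < |((d : ℝ) - 1) * ∑ i ∈ Finset.range k, Real.log ‖P d (i + 1) (c θ)‖|
    unfold Xn at hX'
    rw [log_MM hd (c θ) k (fun j _ => hT.P_ne j), add_sub_cancel_left, abs_div, abs_of_pos hq,
      lt_div_iff₀ hq] at hX'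
    exact hX'
  · rw [Finset.card_range, mul_pow, Real.sq_sqrt hk0.le]
    apply le_of_eq
    field_simp

/-- **the upper bound for the harmonic measure of small discs**, with probability close to one -/
theorem upper_prob (hd : 2 ≤ d) (hβ : IsBeta d β) {c : ℝ → ℂ} (hc : AETyp d β c) {ε : ℝ} (hε : 0 < ε) :
    Tendsto (fun k : ℕ => Pm {θ | ¬ ((Pm {t | ‖c t - c θ‖ ≤
      Real.exp (-(ε * √(k : ℝ))) / ‖MM d (c θ) (k + 1)‖}).toReal ≤ Real.exp (ε * √(k : ℝ)) / (d : ℝ) ^ k)}) atTop (𝓝 0) := by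
  have hd0 : (0 : ℝ) < d := by exact_mod_cast (by omega : 0 < d)
  have hcm := c_meas hβ hc
  obtain ⟨C, hC, hclass⟩ := class_bound hd hβ
  obtain ⟨C2, hC2, htight⟩ := xn_tight hd hβ
  set e : ℝ := ε / 8 with he
  have he0 : 0 < e := by positivity
  rw [ENNReal.tendsto_nhds_zero]
  intro η hη
  -- reduce to a real number
  obtain ⟨η', hη'0, hη'⟩ : ∃ η' : ℝ, 0 < η' ∧ ENNReal.ofReal η' ≤ η := by
    rcases eq_or_ne η ⊤ with h | h
    · exact ⟨1, one_pos, by rw [h]; exact le_top⟩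
    · exact ⟨η.toReal, ENNReal.toReal_pos hη.ne' h, by rw [ENNReal.ofReal_toReal h]⟩
  -- the bound for `Xn`
  obtain ⟨A, hA0, hA⟩ : ∃ A : ℝ, 0 < A ∧ C2 / A ^ 2 ≤ η' / 4 := by
    refine ⟨√(4 * C2 / η'), by positivity, ?_⟩
    rw [Real.sq_sqrt (by positivity)]
    apply le_of_eq
    field_simp
  obtain ⟨J, hJ⟩ := exists_nat_ge (A / e + 1)
  -- the good angles
  have hG1 := (rate_prob hd hβ hc he0).eventually_le_const (u := ENNReal.ofReal (η' / 4))
    (ENNReal.ofReal_pos.2 (by positivity))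
  have hG2 := (simi_prob hd hβ hc he0).eventually_le_const (u := ENNReal.ofReal (η' / 4))
    (ENNReal.ofReal_pos.2 (by positivity))
  have hlim : Tendsto (fun k : ℕ => ((2 * J + 1 : ℕ) : ℝ) * (C * Real.exp (-(2 * e * √(k : ℝ))))) atTop
      (𝓝 (((2 * J + 1 : ℕ) : ℝ) * (C * 0))) := by
    apply Tendsto.const_mul
    apply Tendsto.const_mul
    exact Real.tendsto_exp_neg_atTop_nhds_zero.comp (sqrt_n_tendsto.const_mul_atTop (by positivity))
  rw [mul_zero, mul_zero] at hlim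
  have hG3 := hlim.eventually_le_const (u := η' / 4) (by positivity)
  filter_upwards [hG1, hG2, hG3, eventually_ge_atTop 3] with k g1 g2 g3 hk3
  have hk1 : 1 ≤ k := by omega
  have hk0 : (0 : ℝ) < k := by exact_mod_cast hk1
  set q := √(k : ℝ) with hq
  have hq0 : 0 < q := Real.sqrt_pos.2 hk0
  have hp : (0 : ℝ) < (d : ℝ) ^ k := by positivity
  have edk : (d : ℝ) ^ k = Real.exp (k * Real.log d) := by rw [Real.exp_nat_mul, Real.exp_log hd0]
  set h : ℝ := Real.exp (e * q) with hh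
  have hh1 : 1 ≤ h := Real.one_le_exp (by positivity)
  have hh0 : 0 < h := by linarith
  set τ : ℝ := Real.exp (ε * q) / (d : ℝ) ^ k with hτ
  have hτ0 : 0 < τ := by positivity
  -- the classes
  set w : ℤ → ℝ := fun j => Real.exp (j * (e * q)) / (d : ℝ) ^ k with hw
  have hw0 : ∀ j, 0 < w j := fun j => by rw [hw]; positivity
  set Ej : ℤ → Set ℝ := fun j => {θ | θ ∈ Ioc 0 (2 * Real.pi) ∧
    ‖cc β (pt (rl d k) θ) - c θ‖ ≤ h * (h * w j) ∧ (d : ℝ) ^ k * w j / h ≤ ‖deriv (cc β) (pt (rl d k) θ)‖ ∧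
    τ ≤ (Pm {t | ‖c t - c θ‖ ≤ h⁻¹ * w j}).toReal} with hEj
  have hEjb : ∀ j, Pm (Ej j) ≤ ENNReal.ofReal (C * Real.exp (-(2 * e * q))) := by
    intro j
    have h1 := hclass c hcm k hk3 h (w j) (h⁻¹ * w j) τ hh1 (hw0 j) (mul_pos (inv_pos.2 hh0) (hw0 j)) (by
      have h2 : h⁻¹ ≤ h := (inv_le_one_of_one_le₀ hh1).trans hh1
      have := hw0 j
      gcongr) hτ0 (Ej j) (fun θ hθ => hθ.1) (fun θ hθ => hθ.2)
    refine h1.trans (ENNReal.ofReal_le_ofReal (le_of_eq ?_))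
    have e1 : τ * (d : ℝ) ^ k = Real.exp (ε * q) := by rw [hτ]; field_simp
    rw [e1, hh, ← Real.exp_nat_mul, mul_div_assoc, ← Real.exp_sub]
    congr 2
    rw [he]
    push_cast
    ring
  have hcover : ∀ᵐ θ ∂Pm, ¬ ((Pm {t | ‖c t - c θ‖ ≤ Real.exp (-(ε * q)) / ‖MM d (c θ) (k + 1)‖}).toReal ≤
      Real.exp (ε * q) / (d : ℝ) ^ k) → θ ∈ (({θ | ¬ Rate d β c e k θ} ∪ {θ | ¬ Simi d β c e k θ}) ∪
      {θ | A < |Xn d c k θ|}) ∪ ⋃ j ∈ Finset.Icc (-(J : ℤ)) J, Ej j := by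
    filter_upwards [hc, ae_Pm] with θ hθ hI hbad'
    obtain ⟨A', R, hT⟩ := hθ
    by_cases h1 : Rate d β c e k θ
    swap
    · exact Or.inl (Or.inl (Or.inl h1))
    by_cases h2 : Simi d β c e k θ
    swap
    · exact Or.inl (Or.inl (Or.inr h2))
    by_cases h3 : A < |Xn d c k θ|
    · exact Or.inl (Or.inr h3)
    right
    push Not at h3 hbad'
    have hM : 0 < ‖MM d (c θ) (k + 1)‖ := norm_pos_iff.2 (MM_ne_zero hd _ k (fun j _ => hT.P_ne j))
    obtain ⟨hx1, hx0⟩ := pt_mem (rl_pos d k) (rl_lt hd k) θ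
    have hD := cc_deriv_pos hβ hx1 hx0
    set X := Xn d c k θ with hX
    have hlogM : Real.log ‖MM d (c θ) (k + 1)‖ = k * Real.log d + X * q := by
      rw [hX]
      unfold Xn
      rw [div_mul_cancel₀ _ hq0.ne']
      ring
    have hW : 1 / ‖MM d (c θ) (k + 1)‖ = Real.exp (-(X * q)) / (d : ℝ) ^ k := by
      rw [edk, ← Real.exp_sub, one_div, ← Real.exp_log hM, ← Real.exp_neg, hlogM]
      congr 1
      ring
    set j : ℤ := ⌊-X / e⌋ with hj
    have hj1 : (j : ℝ) * e ≤ -X := by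
      have := Int.floor_le (-X / e)
      rw [← hj, le_div_iff₀ he0] at this
      exact this
    have hj2 : -X < ((j : ℝ) + 1) * e := by
      have := Int.lt_floor_add_one (-X / e)
      rw [← hj, div_lt_iff₀ he0] at this
      exact this
    have hXA := abs_le.1 h3
    have hwl : w j ≤ 1 / ‖MM d (c θ) (k + 1)‖ := by
      rw [hW]
      apply div_le_div_of_nonneg_right _ hp.le
      apply Real.exp_le_exp.2
      nlinarith
    have hwu : 1 / ‖MM d (c θ) (k + 1)‖ ≤ h * w j := by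
      have e1 : h * w j = Real.exp (((j : ℝ) + 1) * e * q) / (d : ℝ) ^ k := by
        rw [hw, hh]
        simp only
        rw [← mul_div_assoc, ← Real.exp_add]
        congr 2
        ring
      rw [hW, e1]
      apply div_le_div_of_nonneg_right _ hp.le
      apply Real.exp_le_exp.2
      nlinarith
    have hJm : j ∈ Finset.Icc (-(J : ℤ)) J := by
      rw [Finset.mem_Icc]
      have hAe : A / e + 1 ≤ J := hJ
      have hAe' : A ≤ ((J : ℝ) - 1) * e := by
        rw [← div_le_iff₀ he0]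
        linarith
      constructor
      · have : (-(J : ℝ)) ≤ j := by
          by_contra hcon
          push Not at hcon
          have h7 : (j : ℝ) + 1 ≤ -J + 1 := by linarith
          have h8 : ((j : ℝ) + 1) * e ≤ (-J + 1) * e := by gcongr
          nlinarith [hXA.1, hXA.2]
        exact_mod_cast this
      · have : (j : ℝ) ≤ J := by
          by_contra hcon
          push Not at hcon
          have h8 : (J : ℝ) * e < j * e := by gcongr
          nlinarith [hXA.1, hXA.2]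
        exact_mod_cast this
    rw [mem_iUnion₂]
    refine ⟨j, hJm, hI, ?_, ?_, ?_⟩
    · have g4 : ‖cc β (pt (rl d k) θ) - c θ‖ ≤ Real.exp (e * √(k : ℝ)) / ‖MM d (c θ) (k + 1)‖ := h1
      refine g4.trans ?_
      rw [← hq, ← hh, div_eq_mul_one_div]
      gcongr
    · have g4 : |Real.log ‖MM d (c θ) (k + 1)‖ - k * Real.log d + Real.log ‖deriv (cc β) (pt (rl d k) θ)‖| ≤
        e * √(k : ℝ) := h2
      have g5 := (abs_le.1 g4).1
      rw [← hq] at g5
      have g6 : (d : ℝ) ^ k * (1 / ‖MM d (c θ) (k + 1)‖) / h ≤ ‖deriv (cc β) (pt (rl d k) θ)‖ := by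
        rw [hh, ← Real.exp_log hD, one_div, ← Real.exp_log hM, ← Real.exp_neg, edk, ← Real.exp_add, ← Real.exp_sub]
        apply Real.exp_le_exp.2
        linarith
      refine le_trans ?_ g6
      gcongr
    · refine hbad'.le.trans ?_
      apply ENNReal.toReal_mono (measure_ne_top _ _)
      apply measure_mono
      intro t ht
      have ht' : ‖c t - c θ‖ ≤ Real.exp (-(ε * q)) / ‖MM d (c θ) (k + 1)‖ := ht
      change ‖c t - c θ‖ ≤ h⁻¹ * w j
      refine ht'.trans ?_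
      have e1 : Real.exp (-(ε * q)) ≤ h⁻¹ * h⁻¹ := by
        rw [hh, ← Real.exp_neg, ← Real.exp_add]
        apply Real.exp_le_exp.2
        rw [he]
        nlinarith
      calc Real.exp (-(ε * q)) / ‖MM d (c θ) (k + 1)‖ = Real.exp (-(ε * q)) * (1 / ‖MM d (c θ) (k + 1)‖) := by ring
        _ ≤ (h⁻¹ * h⁻¹) * (h * w j) := by gcongr
        _ = h⁻¹ * w j := by field_simp
  refine (measure_mono_ae hcover).trans ?_
  refine (measure_union_le _ _).trans ?_
  have hsum : Pm (⋃ j ∈ Finset.Icc (-(J : ℤ)) J, Ej j) ≤ ENNReal.ofReal (η' / 4) := by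
    refine (measure_biUnion_finset_le _ _).trans ?_
    refine (Finset.sum_le_sum fun j _ => hEjb j).trans ?_
    rw [Finset.sum_const, nsmul_eq_mul, ← ENNReal.ofReal_natCast, ← ENNReal.ofReal_mul (by positivity)]
    apply ENNReal.ofReal_le_ofReal
    refine le_trans (le_of_eq ?_) g3
    congr 2
    rw [Int.card_Icc]
    have : ((J : ℤ) + 1 - (-(J : ℤ))).toNat = 2 * J + 1 := by omega
    rw [this]
  have hX := (htight c hc A hA0 k hk1).trans (ENNReal.ofReal_le_ofReal hA)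
  calc Pm (({θ | ¬ Rate d β c e k θ} ∪ {θ | ¬ Simi d β c e k θ}) ∪ {θ | A < |Xn d c k θ|}) +
        Pm (⋃ j ∈ Finset.Icc (-(J : ℤ)) J, Ej j)
      ≤ ((ENNReal.ofReal (η' / 4) + ENNReal.ofReal (η' / 4)) + ENNReal.ofReal (η' / 4)) + ENNReal.ofReal (η' / 4) := by
        refine add_le_add ((measure_union_le _ _).trans (add_le_add ((measure_union_le _ _).trans
          (add_le_add g1 g2)) hX)) hsum
    _ = ENNReal.ofReal η' := by
        rw [← ENNReal.ofReal_add (by positivity) (by positivity), ← ENNReal.ofReal_add (by positivity) (by positivity),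
          ← ENNReal.ofReal_add (by positivity) (by positivity)]
        congr 1
        ring
    _ ≤ η := hη'

end Pool.Agent.H439.MC
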