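import Mathlib
import Pool.Agent.H439.MC.Hmu2

/-!
# The harmonic measure of discs of a fixed radius
-/

set_option autoImplicit false

namespace Pool.Agent.H439.MC

open Complex Set Topology Filter Metric MeasureTheory N62a1eb23 Pool.Agent.H712R2
  Pool.Agent.H713R2 Pool.Agent.TH653.MB
open Pool.Agent.Y272.TY (Typ cc rl MM mm rl_pos rl_lt MM_ne_zero log_MM mm_eq one_sub_rl_pos
  rl_ge_half one_sub_exp_ge)
open Pool.Agent.W677.Mar (pt)
open scoped ENNReal

variable {d : ℕ} {β : ℂ → ℂ}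

/-- the harmonic measure of the disc of radius `r` about `c θ` -/
noncomputable def hmr (c : ℝ → ℂ) (θ r : ℝ) : ℝ := (Pm {t | ‖c t - c θ‖ ≤ r}).toReal

/-- the logarithm of the normalised derivative -/
noncomputable def Sm (d : ℕ) (c : ℝ → ℂ) (m : ℕ) (θ : ℝ) : ℝ :=
  Real.log ‖MM d (c θ) (m + 1)‖ - m * Real.log d

theorem Sm_eq {c : ℝ → ℂ} {k : ℕ} (hk : 1 ≤ k) (θ : ℝ) : Sm d c k θ = Xn d c k θ * √(k : ℝ) := by
  have hq : 0 < √(k : ℝ) := Real.sqrt_pos.2 (by exact_mod_cast hk)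
  unfold Sm Xn
  rw [div_mul_cancel₀ _ hq.ne']

/-- the good event at one level -/
def Lev (d : ℕ) (c : ℝ → ℂ) (ε : ℝ) (k m : ℕ) (θ : ℝ) : Prop :=
  MM d (c θ) (m + 1) ≠ 0 ∧
  1 / (64 * (d : ℝ) ^ m) ≤ hmr c θ (Real.exp (ε * √(m : ℝ)) / ‖MM d (c θ) (m + 1)‖) ∧
  hmr c θ (Real.exp (-(ε * √(m : ℝ))) / ‖MM d (c θ) (m + 1)‖) ≤ Real.exp (ε * √(m : ℝ)) / (d : ℝ) ^ m ∧
  |Sm d c m θ - Sm d c k θ| ≤ ε * √(k : ℝ)

theorem hmr_mono {c : ℝ → ℂ} (θ : ℝ) {r s : ℝ} (h : r ≤ s) : hmr c θ r ≤ hmr c θ s :=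
  ENNReal.toReal_mono (measure_ne_top _ _) (measure_mono fun _ ht => le_trans ht h)

/-- the elementary part -/
theorem dens_det (hd : 2 ≤ d) {c : ℝ → ℂ} {θ' ε δ A X q : ℝ} (hε : 0 < ε) (hδ : 0 < δ) {L k : ℕ} (hk : 1 ≤ k)
    (hq : q = √(k : ℝ)) (hX : Xn d c k θ' = X) (hXA : |X| ≤ A) (hL : (A + 3 * ε) / (δ * Real.log d) + 1 ≤ L)
    (hbig1 : (L : ℝ) * δ * q + 1 ≤ k) (hbig2 : 4 * Real.log d ≤ ε * q) (hbig3 : Real.log 64 ≤ ε * q)
    (hlev : ∀ l : ℤ, -(L : ℤ) ≤ l → l ≤ L → Lev d c ε k ((k : ℤ) + ⌊(l : ℝ) * δ * q⌋).toNat θ')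
    {r : ℝ} (hr0 : 0 < r) (hr1 : Real.log r ≤ -(k * Real.log d)) (hr2 : -((k + 1) * Real.log d) ≤ Real.log r) :
    |Real.log (hmr c θ' r) - (X * q - k * Real.log d)| ≤ (6 * ε + δ * Real.log d) * q := by
  have hd0 : (0 : ℝ) < d := by exact_mod_cast (by omega : 0 < d)
  have hld := logd_pos hd
  have hk0 : (0 : ℝ) < k := by exact_mod_cast hk
  have hq0 : 0 < q := by rw [hq]; exact Real.sqrt_pos.2 hk0
  have hqq : q * q = k := by rw [hq]; exact Real.mul_self_sqrt hk0.le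
  have hXA' := abs_le.1 hXA
  have hδl : 0 < δ * Real.log d := by positivity
  have hSk : Sm d c k θ' = X * q := by rw [Sm_eq hk, hX, hq]
  have hL' : A + 3 * ε ≤ ((L : ℝ) - 1) * (δ * Real.log d) := by
    rw [← div_le_iff₀ hδl]
    linarith
  -- facts for one level
  have hone : ∀ l : ℤ, -(L : ℤ) ≤ l → l ≤ L → ∃ m : ℕ, Lev d c ε k m θ' ∧ (m : ℝ) ≤ k + l * δ * q ∧
      k + l * δ * q - 1 ≤ m ∧ √(m : ℝ) ≤ 3 / 2 * q := by
    intro l hl1 hl2
    refine ⟨((k : ℤ) + ⌊(l : ℝ) * δ * q⌋).toNat, hlev l hl1 hl2, ?_⟩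
    have h1 : (l : ℝ) ≤ L := by exact_mod_cast hl2
    have h2 : -(L : ℝ) ≤ l := by exact_mod_cast hl1
    have h3 : (l : ℝ) * δ * q ≤ (L : ℝ) * δ * q := by gcongr
    have h4 : -((L : ℝ) * δ * q) ≤ (l : ℝ) * δ * q := by
      have : (-(L : ℝ)) * δ * q ≤ (l : ℝ) * δ * q := by gcongr
      linarith
    have h5 := Int.floor_le ((l : ℝ) * δ * q)
    have h6 := Int.sub_one_lt_floor ((l : ℝ) * δ * q)
    have h7 : (0 : ℤ) ≤ (k : ℤ) + ⌊(l : ℝ) * δ * q⌋ := by
      have : (0 : ℝ) ≤ (k : ℝ) + ⌊(l : ℝ) * δ * q⌋ := by linarith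
      exact_mod_cast this
    have h8 : ((((k : ℤ) + ⌊(l : ℝ) * δ * q⌋).toNat : ℕ) : ℝ) = k + ⌊(l : ℝ) * δ * q⌋ := by
      have h9 : ((((k : ℤ) + ⌊(l : ℝ) * δ * q⌋).toNat : ℕ) : ℤ) = k + ⌊(l : ℝ) * δ * q⌋ := Int.toNat_of_nonneg h7
      exact_mod_cast h9
    refine ⟨by rw [h8]; linarith, by rw [h8]; linarith, ?_⟩
    rw [h8]
    have h10 : (k : ℝ) + ⌊(l : ℝ) * δ * q⌋ ≤ (3 / 2 * q) ^ 2 := by nlinarith
    calc √((k : ℝ) + ⌊(l : ℝ) * δ * q⌋) ≤ √((3 / 2 * q) ^ 2) := Real.sqrt_le_sqrt h10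
      _ = 3 / 2 * q := Real.sqrt_sq (by positivity)
  -- the lower bound
  have hlow : X * q - k * Real.log d - (6 * ε + δ * Real.log d) * q ≤ Real.log (hmr c θ' r) ∧ 0 < hmr c θ' r := by
    set l : ℤ := ⌈(-X + 3 * ε) / (δ * Real.log d)⌉ with hl
    have hl1 : -X + 3 * ε ≤ l * (δ * Real.log d) := by
      rw [← div_le_iff₀ hδl]
      exact Int.le_ceil _
    have hl2 : (l : ℝ) * (δ * Real.log d) ≤ -X + 3 * ε + δ * Real.log d := by
      have h1 := (Int.ceil_lt_add_one ((-X + 3 * ε) / (δ * Real.log d))).le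
      rw [← hl, ← sub_le_iff_le_add, le_div_iff₀ hδl] at h1
      linarith
    have hlL : l ≤ L := by
      have : (l : ℝ) ≤ L := by
        by_contra hcon
        push Not at hcon
        have : (L : ℝ) * (δ * Real.log d) < l * (δ * Real.log d) := by gcongr
        nlinarith [hXA'.1]
      exact_mod_cast this
    have hlL' : -(L : ℤ) ≤ l := by
      have : -(L : ℝ) ≤ l := by
        by_contra hcon
        push Not at hcon
        have : (l : ℝ) * (δ * Real.log d) < -(L : ℝ) * (δ * Real.log d) := by gcongr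
        nlinarith [hXA'.2]
      exact_mod_cast this
    obtain ⟨m, ⟨hM0, hm1, hm2, hm3⟩, hm4, hm5, hm6⟩ := hone l hlL' hlL
    have hM : 0 < ‖MM d (c θ') (m + 1)‖ := norm_pos_iff.2 hM0
    have hS := abs_le.1 hm3
    rw [hSk] at hS
    have hSm : Real.log ‖MM d (c θ') (m + 1)‖ = Sm d c m θ' + m * Real.log d := by unfold Sm; ring
    have hrad : Real.exp (ε * √(m : ℝ)) / ‖MM d (c θ') (m + 1)‖ ≤ r := by
      rw [← Real.exp_log hM, ← Real.exp_sub, ← Real.exp_log hr0]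
      apply Real.exp_le_exp.2
      rw [hSm]
      have h1 : (k + l * δ * q - 1) * Real.log d ≤ m * Real.log d := by gcongr
      have h2 : (-X + 3 * ε) * q ≤ l * (δ * Real.log d) * q := by gcongr
      have h3 : ε * √(m : ℝ) ≤ ε * (3 / 2 * q) := by gcongr
      rw [← hq] at hS
      nlinarith [hS.1]
    have h1 := hm1.trans (hmr_mono θ' hrad)
    have h2 : 0 < 1 / (64 * (d : ℝ) ^ m) := by positivity
    refine ⟨?_, h2.trans_le h1⟩
    have h3 := Real.log_le_log h2 h1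
    refine le_trans ?_ h3
    rw [one_div, Real.log_inv, Real.log_mul (by norm_num) (by positivity), Real.log_pow]
    have h4 : m * Real.log d ≤ (k + l * δ * q) * Real.log d := by gcongr
    have h5 : (l : ℝ) * (δ * Real.log d) * q ≤ (-X + 3 * ε + δ * Real.log d) * q := by gcongr
    nlinarith
  -- the upper bound
  have hupp : Real.log (hmr c θ' r) ≤ X * q - k * Real.log d + (6 * ε + δ * Real.log d) * q := by
    set l : ℤ := ⌊(-X - 3 * ε) / (δ * Real.log d)⌋ with hl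
    have hl1 : (l : ℝ) * (δ * Real.log d) ≤ -X - 3 * ε := by
      rw [← le_div_iff₀ hδl]
      exact Int.floor_le _
    have hl2 : -X - 3 * ε - δ * Real.log d ≤ (l : ℝ) * (δ * Real.log d) := by
      have h1 := (Int.lt_floor_add_one ((-X - 3 * ε) / (δ * Real.log d))).le
      rw [← hl, div_le_iff₀ hδl] at h1
      linarith
    have hlL : l ≤ L := by
      have : (l : ℝ) ≤ L := by
        by_contra hcon
        push Not at hcon
        have : (L : ℝ) * (δ * Real.log d) < l * (δ * Real.log d) := by gcongr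
        nlinarith [hXA'.1]
      exact_mod_cast this
    have hlL' : -(L : ℤ) ≤ l := by
      have : -(L : ℝ) ≤ l := by
        by_contra hcon
        push Not at hcon
        have : (l : ℝ) * (δ * Real.log d) < -(L : ℝ) * (δ * Real.log d) := by gcongr
        nlinarith [hXA'.2]
      exact_mod_cast this
    obtain ⟨m, ⟨hM0, hm1, hm2, hm3⟩, hm4, hm5, hm6⟩ := hone l hlL' hlL
    have hM : 0 < ‖MM d (c θ') (m + 1)‖ := norm_pos_iff.2 hM0
    have hS := abs_le.1 hm3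
    rw [hSk] at hS
    have hSm : Real.log ‖MM d (c θ') (m + 1)‖ = Sm d c m θ' + m * Real.log d := by unfold Sm; ring
    have hrad : r ≤ Real.exp (-(ε * √(m : ℝ))) / ‖MM d (c θ') (m + 1)‖ := by
      rw [← Real.exp_log hM, ← Real.exp_sub, ← Real.exp_log hr0]
      apply Real.exp_le_exp.2
      rw [hSm]
      have h1 : m * Real.log d ≤ (k + l * δ * q) * Real.log d := by gcongr
      have h2 : l * (δ * Real.log d) * q ≤ (-X - 3 * ε) * q := by gcongr
      have h3 : ε * √(m : ℝ) ≤ ε * (3 / 2 * q) := by gcongr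
      rw [← hq] at hS
      nlinarith [hS.2]
    have h1 := (hmr_mono θ' hrad).trans hm2
    have h3 := Real.log_le_log hlow.2 h1
    refine h3.trans ?_
    rw [Real.log_div (Real.exp_pos _).ne' (by positivity), Real.log_exp, Real.log_pow]
    have h4 : (k + l * δ * q - 1) * Real.log d ≤ m * Real.log d := by gcongr
    have h5 : (-X - 3 * ε - δ * Real.log d) * q ≤ (l : ℝ) * (δ * Real.log d) * q := by gcongr
    have h6 : ε * √(m : ℝ) ≤ ε * (3 / 2 * q) := by gcongr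
    nlinarith
  rw [abs_le]
  constructor
  · linarith [hlow.1]
  · linarith

end Pool.Agent.H439.MC
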