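import Mathlib
import Pool.Agent.H439.MC.Asm5

/-!
# Oscillation along the critical orbit of a random boundary parameter
-/

set_option autoImplicit false

namespace Pool.Agent.H439.MC

open Complex Set Topology Filter Metric MeasureTheory N62a1eb23 Pool.Agent.H712R2
  Pool.Agent.H713R2 Pool.Agent.TH653.MB ProbabilityTheory BoundedContinuousFunction
open Pool.Agent.Y272.TY (Typ cc rl MM mm rl_pos rl_lt MM_ne_zero log_MM mm_eq)
open scoped ENNReal

variable {d : ℕ} {β : ℂ → ℂ}

/-- a continuous function between the indicators of `[A + 1, ∞)` and `[A, ∞)` -/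
noncomputable def ramp (A : ℝ) : ℝ →ᵇ ℝ :=
  BoundedContinuousFunction.ofNormedAddCommGroup (fun x => max 0 (min 1 (x - A))) (by fun_prop) 1 (fun x => by
    rw [Real.norm_eq_abs, abs_of_nonneg (le_max_left _ _)]
    exact max_le zero_le_one (min_le_left _ _))

theorem ramp_apply (A x : ℝ) : ramp A x = max 0 (min 1 (x - A)) := rfl

theorem ramp_nonneg (A x : ℝ) : 0 ≤ ramp A x := le_max_left _ _

theorem ramp_pos {A x : ℝ} (h : A < x) : 0 < ramp A x := by
  rw [ramp_apply]
  exact lt_max_of_lt_right (lt_min one_pos (by linarith))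

theorem ramp_zero {A x : ℝ} (h : x ≤ A) : ramp A x = 0 := by
  rw [ramp_apply]
  exact max_eq_left ((min_le_right _ _).trans (by linarith))

/-- the Gaussian mean of a positive continuous function is positive -/
theorem gauss_pos {g : ℝ →ᵇ ℝ} (h0 : ∀ x, 0 ≤ g x) {x₀ : ℝ} (h1 : 0 < g x₀) {t : ℝ} (ht : 0 < t) :
    0 < ∫ x, g (t * x) ∂(gaussianReal 0 1) := by
  have hc : Continuous fun x => g (t * x) := g.continuous.comp (continuous_const.mul continuous_id)
  have hi : Integrable (fun x => g (t * x)) (gaussianReal 0 1) := by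
    apply Integrable.of_bound hc.aestronglyMeasurable ‖g‖
    exact Eventually.of_forall fun x => g.norm_coe_le_norm _
  rw [integral_pos_iff_support_of_nonneg (fun x => h0 _) hi]
  have hopen : IsOpen (Function.support fun x => g (t * x)) := hc.isOpen_support
  have hne : (Function.support fun x => g (t * x)).Nonempty := by
    refine ⟨x₀ / t, ?_⟩
    rw [Function.mem_support, mul_div_cancel₀ _ ht.ne']
    exact h1.ne'
  have h2 : 0 < volume (Function.support fun x => g (t * x)) := hopen.measure_pos _ hne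
  by_contra h3
  push Not at h3
  have h4 : gaussianReal 0 1 (Function.support fun x => g (t * x)) = 0 := le_antisymm h3 (zero_le)
  have h5 := (gaussianReal_absolutelyContinuous' 0 (v := 1) one_ne_zero) h4
  exact h2.ne' h5

/-- **oscillation**, upwards, for every test function -/
theorem osc_test (hβ : IsBeta d β) {s : ℝ → ℝ} (hs : Measurable s) (hclt : CLT d β s) {c : ℝ → ℂ}
    (hc : AETyp d β c) {g : ℝ →ᵇ ℝ} (h0 : ∀ x, 0 ≤ g x) {x₀ : ℝ} (h1 : 0 < g x₀) {k : ℕ → ℕ}
    (hk : Tendsto k atTop atTop) :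
    ∀ᵐ θ ∂Pm, 0 < s θ → ∃ᶠ j in atTop, 0 < g (Xn d c (k j) θ) := by
  have hX := Xn_meas hβ hc
  -- the exceptional sets
  have key : ∀ J : ℕ, Pm {θ | 0 < s θ ∧ ∀ j ≥ J, g (Xn d c (k j) θ) = 0} = 0 := by
    intro J
    obtain ⟨F, hF⟩ : ∃ F : Set ℝ, F = {θ | 0 < s θ ∧ ∀ j ≥ J, g (Xn d c (k j) θ) = 0} := ⟨_, rfl⟩
    rw [← hF]
    have hFm : NullMeasurableSet F Pm := by
      have e1 : F = {θ | 0 < s θ} ∩ ⋂ j : ℕ, ⋂ _ : j ≥ J, {θ | g (Xn d c (k j) θ) = 0} := by
        rw [hF]
        ext θ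
        simp only [mem_ofPred_eq, mem_inter_iff, mem_iInter]
      rw [e1]
      apply (measurableSet_lt measurable_const hs).nullMeasurableSet.inter
      refine NullMeasurableSet.iInter fun j => NullMeasurableSet.iInter fun _ => ?_
      exact nullMeasurableSet_eq_fun (g.continuous.measurable.comp_aemeasurable (hX (k j))) aemeasurable_const
    have hφ : Integrable (F.indicator fun _ => (1 : ℝ)) Pm := (integrable_const (1 : ℝ)).indicator₀ hFm
    have h2 := (hclt c hc (Xn d c) hX (by simp) _ hφ g).comp hk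
    have h3 : Tendsto (fun _ : ℕ => (0 : ℝ)) atTop (𝓝 (∫ θ, F.indicator (fun _ => (1 : ℝ)) θ *
        ∫ x, g (s θ * x) ∂(gaussianReal 0 1) ∂Pm)) := by
      refine h2.congr' ?_
      filter_upwards [eventually_ge_atTop J] with j hj
      have h4 : ∀ θ, F.indicator (fun _ => (1 : ℝ)) θ * g (Xn d c (k j) θ) = 0 := by
        intro θ
        by_cases hθ : θ ∈ F
        · have h5 := hθ
          rw [hF] at h5
          rw [h5.2 j hj, mul_zero]
        · rw [Set.indicator_of_notMem hθ, zero_mul]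
      simp only [Function.comp_apply, h4, integral_zero]
    have h5 := tendsto_nhds_unique tendsto_const_nhds h3
    have hgm : Measurable fun θ => ∫ x, g (s θ * x) ∂(gaussianReal 0 1) := by
      have h1 : StronglyMeasurable (Function.uncurry fun (θ : ℝ) (w : ℝ) => g (s θ * w)) := by
        apply Measurable.stronglyMeasurable
        exact g.continuous.measurable.comp ((hs.comp measurable_fst).mul measurable_snd)
      exact h1.integral_prod_right.measurable
    have hgb : ∀ θ, ‖∫ x, g (s θ * x) ∂(gaussianReal 0 1)‖ ≤ ‖g‖ := by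
      intro θ
      refine (norm_integral_le_of_norm_le_const (C := ‖g‖) (Eventually.of_forall fun w => g.norm_coe_le_norm _)).trans ?_
      simp
    have hi : Integrable (fun θ => F.indicator (fun _ => (1 : ℝ)) θ * ∫ x, g (s θ * x) ∂(gaussianReal 0 1)) Pm :=
      hφ.mul_bdd hgm.aestronglyMeasurable (Eventually.of_forall hgb)
    have hnn : 0 ≤ᵐ[Pm] fun θ => F.indicator (fun _ => (1 : ℝ)) θ * ∫ x, g (s θ * x) ∂(gaussianReal 0 1) :=
      Eventually.of_forall fun θ => mul_nonneg (Set.indicator_nonneg (fun _ _ => zero_le_one) θ)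
        (integral_nonneg fun x => h0 _)
    have h6 := (integral_eq_zero_iff_of_nonneg_ae hnn hi).1 h5.symm
    rw [measure_eq_zero_iff_ae_notMem]
    filter_upwards [h6] with θ hθ hmem
    have h7 := hmem
    rw [hF] at h7
    have h8 := gauss_pos h0 h1 h7.1
    have h9 : F.indicator (fun _ => (1 : ℝ)) θ * ∫ x, g (s θ * x) ∂(gaussianReal 0 1) = 0 := hθ
    rw [Set.indicator_of_mem hmem, one_mul] at h9
    exact h8.ne' h9
  have h2 : ∀ᵐ θ ∂Pm, ∀ J : ℕ, θ ∉ {θ | 0 < s θ ∧ ∀ j ≥ J, g (Xn d c (k j) θ) = 0} := by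
    rw [ae_all_iff]
    intro J
    exact measure_eq_zero_iff_ae_notMem.1 (key J)
  filter_upwards [h2] with θ hθ hpos
  rw [Filter.frequently_atTop]
  intro J
  by_contra hcon
  push Not at hcon
  exact hθ J ⟨hpos, fun j hj => le_antisymm (hcon j hj) (h0 _)⟩

/-- **oscillation with a good event** -/
theorem osc_good (hβ : IsBeta d β) {s : ℝ → ℝ} (hs : Measurable s) (hclt : CLT d β s) {c : ℝ → ℂ}
    (hc : AETyp d β c) {g : ℝ →ᵇ ℝ} (h0 : ∀ x, 0 ≤ g x) {x₀ : ℝ} (h1 : 0 < g x₀) {G : ℕ → ℝ → Prop}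
    (hG : Tendsto (fun k => Pm {θ | ¬ G k θ}) atTop (𝓝 0)) :
    ∀ᵐ θ ∂Pm, 0 < s θ → ∃ᶠ n in atTop, 0 < g (Xn d c n θ) ∧ G n θ := by
  -- a subsequence with summable exceptional probabilities
  have h2 : ∀ j : ℕ, ∃ n, j ≤ n ∧ Pm {θ | ¬ G n θ} < (2 : ℝ≥0∞)⁻¹ ^ j := by
    intro j
    have h3 : (0 : ℝ≥0∞) < (2 : ℝ≥0∞)⁻¹ ^ j := by
      apply ENNReal.pow_pos
      exact ENNReal.inv_pos.2 (by finiteness)
    obtain ⟨n, hn1, hn2⟩ := ((hG.eventually (gt_mem_nhds h3)).and (eventually_ge_atTop j)).exists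
    exact ⟨n, hn2, hn1⟩
  choose k hk1 hk2 using h2
  have hk : Tendsto k atTop atTop := tendsto_atTop_mono hk1 tendsto_id
  have hsum : ∑' j, Pm {θ | ¬ G (k j) θ} ≠ ⊤ := by
    refine ne_top_of_le_ne_top ?_ (ENNReal.tsum_le_tsum fun j => (hk2 j).le)
    rw [ENNReal.tsum_geometric]
    rw [ENNReal.one_sub_inv_two]
    simp
  have hBC := ae_eventually_notMem hsum
  filter_upwards [hBC, osc_test hβ hs hclt hc h0 h1 hk] with θ hθ1 hθ2 hpos
  have h3 := (hθ2 hpos).and_eventually hθ1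
  rw [Filter.frequently_atTop] at h3 ⊢
  intro N
  obtain ⟨M, hM⟩ := (tendsto_atTop.1 hk N).exists_forall_of_atTop
  obtain ⟨j, hj, hj1, hj2⟩ := h3 M
  refine ⟨k j, hM j hj, hj1, ?_⟩
  by_contra hcon
  exact hj2 hcon

end Pool.Agent.H439.MC
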