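import Mathlib
import Pool.Agent.H439.MC.Osc1

/-!
# Oscillation of the rate of landing, of the derivative and of harmonic measure
-/

set_option autoImplicit false

namespace Pool.Agent.H439.MC

open Complex Set Topology Filter Metric MeasureTheory N62a1eb23 Pool.Agent.H712R2
  Pool.Agent.H713R2 Pool.Agent.TH653.MB ProbabilityTheory BoundedContinuousFunction
open Pool.Agent.Y272.TY (Typ cc rl MM mm rl_pos rl_lt MM_ne_zero log_MM mm_eq one_sub_rl_le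
  rl_ge_half one_sub_exp_ge)
open Pool.Agent.W677.Mar (pt)
open scoped ENNReal

variable {d : ℕ} {β : ℂ → ℂ}

theorem ramp_imp {A x : ℝ} (h : 0 < ramp A x) : A < x := by
  by_contra h1
  push Not at h1
  rw [ramp_zero h1] at h
  exact lt_irrefl _ h

/-- the reflected test function -/
noncomputable def nramp (A : ℝ) : ℝ →ᵇ ℝ := (ramp A).compContinuous ⟨fun x => -x, continuous_neg⟩

theorem nramp_apply (A x : ℝ) : nramp A x = ramp A (-x) := rfl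

theorem mm_ge (hd : 2 ≤ d) {c : ℝ → ℂ} {n : ℕ} (hn : 1 ≤ n) {θ A : ℝ} (hA : 0 ≤ A) (h : A < Xn d c n θ) :
    (d : ℝ) ^ n * Real.exp (A * √(n : ℝ)) ≤ ‖MM d (c θ) (n + 1)‖ := by
  have hd0 : (0 : ℝ) < d := by exact_mod_cast (by omega : 0 < d)
  have hq : 0 < √(n : ℝ) := Real.sqrt_pos.2 (by exact_mod_cast hn)
  have hl := logd_pos hd
  unfold Xn at h
  rw [lt_div_iff₀ hq] at h
  have hM : 0 < ‖MM d (c θ) (n + 1)‖ := by
    rcases (norm_nonneg (MM d (c θ) (n + 1))).eq_or_lt with h1 | h1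
    · exfalso
      rw [← h1, Real.log_zero] at h
      have h2 : 0 ≤ (n : ℝ) * Real.log d := by positivity
      have h3 : 0 ≤ A * √(n : ℝ) := by positivity
      linarith
    · exact h1
  rw [← Real.exp_log hM]
  have e1 : (d : ℝ) ^ n = Real.exp (n * Real.log d) := by rw [Real.exp_nat_mul, Real.exp_log hd0]
  rw [e1, ← Real.exp_add]
  apply Real.exp_le_exp.2
  linarith

theorem near_of {M q x : ℝ} {n : ℕ} (hd : 2 ≤ d) (h : (d : ℝ) ^ n * Real.exp ((x + 1) * q) ≤ M) :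
    Real.exp (1 * q) / M ≤ Real.exp (-(x * q)) / (d : ℝ) ^ n := by
  have hd0 : (0 : ℝ) < d := by exact_mod_cast (by omega : 0 < d)
  have hp : 0 < (d : ℝ) ^ n := by positivity
  have hM : 0 < M := lt_of_lt_of_le (by positivity) h
  rw [div_le_div_iff₀ hM hp]
  calc Real.exp (1 * q) * (d : ℝ) ^ n = Real.exp (-(x * q)) * ((d : ℝ) ^ n * Real.exp ((x + 1) * q)) := by
        have : Real.exp (1 * q) = Real.exp (-(x * q)) * Real.exp ((x + 1) * q) := by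
          rw [← Real.exp_add]
          congr 1
          ring
        rw [this]
        ring
    _ ≤ Real.exp (-(x * q)) * M := by gcongr

theorem osc_near (hd : 2 ≤ d) (hβ : IsBeta d β) {s : ℝ → ℝ} (hs : Measurable s) (hclt : CLT d β s) {c : ℝ → ℂ}
    (hc : AETyp d β c) : ∀ᵐ θ ∂Pm, 0 < s θ → ∀ j : ℕ, ∃ᶠ n : ℕ in atTop,
    ‖cc β (pt (rl d n) θ) - c θ‖ ≤ Real.exp (-(j * √(n : ℝ))) / (d : ℝ) ^ n := by
  have h1 : ∀ j : ℕ, ∀ᵐ θ ∂Pm, 0 < s θ → ∃ᶠ n : ℕ in atTop,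
      0 < ramp ((j : ℝ) + 1) (Xn d c n θ) ∧ Rate d β c 1 n θ := fun j =>
    osc_good hβ hs hclt hc (fun x => ramp_nonneg _ x) (ramp_pos (by linarith : (j : ℝ) + 1 < (j : ℝ) + 2))
      (rate_prob hd hβ hc one_pos)
  filter_upwards [ae_all_iff.2 h1] with θ hθ hpos j
  refine ((hθ j hpos).and_eventually (eventually_ge_atTop 1)).mono ?_
  rintro n ⟨⟨g1, g2⟩, hn⟩
  have g3 := mm_ge hd hn (by positivity) (ramp_imp g1)
  have g4 : ‖cc β (pt (rl d n) θ) - c θ‖ ≤ Real.exp (1 * √(n : ℝ)) / ‖MM d (c θ) (n + 1)‖ := g2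
  exact g4.trans (near_of hd g3)

theorem osc_far (hd : 2 ≤ d) (hβ : IsBeta d β) {s : ℝ → ℝ} (hs : Measurable s) (hclt : CLT d β s) {c : ℝ → ℂ}
    (hc : AETyp d β c) : ∀ᵐ θ ∂Pm, 0 < s θ → ∀ j : ℕ, ∃ᶠ n : ℕ in atTop,
    Real.exp (j * √(n : ℝ)) ≤ ‖deriv (cc β) (pt (rl d n) θ)‖ := by
  have h1 : ∀ j : ℕ, ∀ᵐ θ ∂Pm, 0 < s θ → ∃ᶠ n : ℕ in atTop,
      0 < nramp ((j : ℝ) + 1) (Xn d c n θ) ∧ Simi d β c 1 n θ := fun j =>
    osc_good (x₀ := -((j : ℝ) + 2)) hβ hs hclt hc (fun x => by rw [nramp_apply]; exact ramp_nonneg _ _)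
      (by rw [nramp_apply, neg_neg]; exact ramp_pos (by linarith : (j : ℝ) + 1 < (j : ℝ) + 2))
      (simi_prob hd hβ hc one_pos)
  filter_upwards [ae_all_iff.2 h1] with θ hθ hpos j
  refine ((hθ j hpos).and_eventually (eventually_ge_atTop 1)).mono ?_
  rintro n ⟨⟨g1, g2⟩, hn⟩
  rw [nramp_apply] at g1
  have g3 := ramp_imp g1
  have hq : 0 < √(n : ℝ) := Real.sqrt_pos.2 (by exact_mod_cast hn)
  unfold Xn at g3
  rw [← neg_div, lt_div_iff₀ hq] at g3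
  have g4 : |Real.log ‖MM d (c θ) (n + 1)‖ - n * Real.log d + Real.log ‖deriv (cc β) (pt (rl d n) θ)‖| ≤
    1 * √(n : ℝ) := g2
  obtain ⟨hx1, hx0⟩ := pt_mem (rl_pos d n) (rl_lt hd n) θ
  have hD := cc_deriv_pos hβ hx1 hx0
  rw [← Real.exp_log hD]
  apply Real.exp_le_exp.2
  have := (abs_le.1 g4).1
  linarith

theorem osc_hm (hd : 2 ≤ d) (hβ : IsBeta d β) {s : ℝ → ℝ} (hs : Measurable s) (hclt : CLT d β s) {c : ℝ → ℂ}
    (hc : AETyp d β c) : ∀ᵐ θ ∂Pm, 0 < s θ → ∀ j : ℕ, ∃ᶠ n : ℕ in atTop,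
    1 / (64 * (d : ℝ) ^ n) ≤ (Pm {t | ‖c t - c θ‖ ≤ Real.exp (-(j * √(n : ℝ))) / (d : ℝ) ^ n}).toReal := by
  have h1 : ∀ j : ℕ, ∀ᵐ θ ∂Pm, 0 < s θ → ∃ᶠ n : ℕ in atTop,
      0 < ramp ((j : ℝ) + 1) (Xn d c n θ) ∧ 1 / (64 * (d : ℝ) ^ n) ≤
      (Pm {t | ‖c t - c θ‖ < Real.exp (1 * √(n : ℝ)) / ‖MM d (c θ) (n + 1)‖}).toReal := fun j =>
    osc_good (G := fun n θ => 1 / (64 * (d : ℝ) ^ n) ≤
      (Pm {t | ‖c t - c θ‖ < Real.exp (1 * √(n : ℝ)) / ‖MM d (c θ) (n + 1)‖}).toReal)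
      hβ hs hclt hc (fun x => ramp_nonneg _ x) (ramp_pos (by linarith : (j : ℝ) + 1 < (j : ℝ) + 2))
      (hm_prob hd hβ hc one_pos)
  filter_upwards [ae_all_iff.2 h1] with θ hθ hpos j
  refine ((hθ j hpos).and_eventually (eventually_ge_atTop 1)).mono ?_
  rintro n ⟨⟨g1, g2⟩, hn⟩
  have g3 := mm_ge hd hn (by positivity) (ramp_imp g1)
  refine g2.trans ?_
  apply ENNReal.toReal_mono (measure_ne_top _ _)
  apply measure_mono
  intro t ht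
  exact (le_of_lt ht).trans (near_of hd g3)

theorem osc_lyap (hβ : IsBeta d β) {s : ℝ → ℝ} (hs : Measurable s) (hclt : CLT d β s) {c : ℝ → ℂ}
    (hc : AETyp d β c) : ∀ᵐ θ ∂Pm, 0 < s θ → ∀ j : ℕ,
    (∃ᶠ n : ℕ in atTop, n * Real.log d + j * √(n : ℝ) ≤ Real.log ‖MM d (c θ) (n + 1)‖) ∧
    ∃ᶠ n : ℕ in atTop, Real.log ‖MM d (c θ) (n + 1)‖ ≤ n * Real.log d - j * √(n : ℝ) := by
  have h1 : ∀ j : ℕ, ∀ᵐ θ ∂Pm, 0 < s θ → ∃ᶠ n : ℕ in atTop, 0 < ramp (j : ℝ) (Xn d c (id n) θ) := fun j =>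
    osc_test hβ hs hclt hc (fun x => ramp_nonneg _ x) (ramp_pos (by linarith : (j : ℝ) < (j : ℝ) + 1)) tendsto_id
  have h2 : ∀ j : ℕ, ∀ᵐ θ ∂Pm, 0 < s θ → ∃ᶠ n : ℕ in atTop, 0 < nramp (j : ℝ) (Xn d c (id n) θ) := fun j =>
    osc_test (x₀ := -((j : ℝ) + 1)) hβ hs hclt hc (fun x => by rw [nramp_apply]; exact ramp_nonneg _ _)
      (by rw [nramp_apply, neg_neg]; exact ramp_pos (by linarith : (j : ℝ) < (j : ℝ) + 1)) tendsto_id
  filter_upwards [ae_all_iff.2 h1, ae_all_iff.2 h2] with θ hθ1 hθ2 hpos j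
  constructor
  · refine ((hθ1 j hpos).and_eventually (eventually_ge_atTop 1)).mono ?_
    rintro n ⟨g1, hn⟩
    have g3 := ramp_imp g1
    have hq : 0 < √(n : ℝ) := Real.sqrt_pos.2 (by exact_mod_cast hn)
    unfold Xn at g3
    rw [lt_div_iff₀ (by simpa using hq)] at g3
    simp only [id] at g3
    linarith
  · refine ((hθ2 j hpos).and_eventually (eventually_ge_atTop 1)).mono ?_
    rintro n ⟨g1, hn⟩
    rw [nramp_apply] at g1
    have g3 := ramp_imp g1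
    have hq : 0 < √(n : ℝ) := Real.sqrt_pos.2 (by exact_mod_cast hn)
    unfold Xn at g3
    rw [← neg_div, lt_div_iff₀ (by simpa using hq)] at g3
    simp only [id] at g3
    linarith

end Pool.Agent.H439.MC
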