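import Mathlib

/-!
# Hausdorff measures for gauges `t exp (A √log (1/t))`
-/

set_option autoImplicit false

namespace Pool.Agent.H439.MC

open Complex Set Topology Filter Metric MeasureTheory
open scoped ENNReal

/-- the gaugeFn function `t * exp (A * √(log (1/t)))` -/
noncomputable def gaugeFn (A : ℝ) (t : ℝ≥0∞) : ℝ≥0∞ :=
  t * ENNReal.ofReal (Real.exp (A * √(Real.log (1 / t.toReal))))

/-- the points with infinitely often large density, on every scale -/
def HighDens (d : ℕ) (μ : Measure ℂ) : Set ℂ :=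
  {x | ∀ j : ℕ, ∃ᶠ n : ℕ in atTop, ENNReal.ofReal (1 / (64 * (d : ℝ) ^ n)) ≤
    μ (closedBall x (Real.exp (-(j * √(n : ℝ))) / (d : ℝ) ^ n))}

theorem meas_ball_meas (μ : Measure ℂ) [SFinite μ] (ρ : ℝ) : Measurable fun x => μ (closedBall x ρ) := by
  have h1 : MeasurableSet {p : ℂ × ℂ | dist p.2 p.1 ≤ ρ} :=
    (isClosed_le (continuous_snd.dist continuous_fst) continuous_const).measurableSet
  exact measurable_measure_prodMk_left h1

theorem dense_meas (d : ℕ) (μ : Measure ℂ) [SFinite μ] : MeasurableSet (HighDens d μ) := by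
  have e1 : HighDens d μ = ⋂ j : ℕ, ⋂ N : ℕ, ⋃ n : ℕ, ⋃ _ : n ≥ N,
      {x | ENNReal.ofReal (1 / (64 * (d : ℝ) ^ n)) ≤
        μ (closedBall x (Real.exp (-(j * √(n : ℝ))) / (d : ℝ) ^ n))} := by
    ext x
    simp only [HighDens, frequently_atTop, mem_iInter, mem_iUnion, Set.mem_ofPred_eq, exists_prop]
  rw [e1]
  refine MeasurableSet.iInter fun j => MeasurableSet.iInter fun N => MeasurableSet.iUnion fun n =>
    MeasurableSet.iUnion fun _ => ?_
  exact measurableSet_le measurable_const (meas_ball_meas μ _)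

theorem ediam_ball (x : ℂ) {r : ℝ} (hr : 0 ≤ r) : ediam (closedBall x r) = ENNReal.ofReal (2 * r) := by
  have h1 := Metric.diam_closedBall_eq x hr
  have h2 : ediam (closedBall x r) ≠ ⊤ := isBounded_closedBall.ediam_ne_top
  rw [← h1]
  unfold Metric.diam
  rw [ENNReal.ofReal_toReal h2]

/-- the elementary estimate -/
theorem gauge_le {d : ℕ} (hd : 2 ≤ d) {A : ℝ} (hA : 0 ≤ A) {κ : ℝ} (hκ : 1 ≤ κ) {j n : ℕ} (hj : A * √(Real.log d + 1) + 1 ≤ j)
    (hn : j ^ 2 ≤ n) (hn1 : 1 ≤ n) {r : ℝ} (hr : r = Real.exp (-(j * √(n : ℝ))) / (d : ℝ) ^ n) :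
    κ * r * Real.exp (A * √(Real.log (1 / (κ * r)))) ≤ 64 * κ * Real.exp (-√(n : ℝ)) * (1 / (64 * (d : ℝ) ^ n)) := by
  have hd0 : (0 : ℝ) < d := by exact_mod_cast (by omega : 0 < d)
  have hld : 0 ≤ Real.log d := Real.log_nonneg (by exact_mod_cast (by omega : 1 ≤ d))
  set q := √(n : ℝ) with hq
  have hq0 : 0 ≤ q := Real.sqrt_nonneg _
  have hqq : q * q = n := Real.mul_self_sqrt (Nat.cast_nonneg n)
  have hp : 0 < (d : ℝ) ^ n := by positivity
  have hr0 : 0 < r := by rw [hr]; positivity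
  have hjq : (j : ℝ) ≤ q := by
    rw [hq]
    apply Real.le_sqrt_of_sq_le
    exact_mod_cast hn
  have e1 : Real.log (1 / (κ * r)) ≤ (Real.log d + 1) * n := by
    have h1 : Real.log (1 / (κ * r)) ≤ Real.log (1 / r) := by
      apply Real.log_le_log (by have := hκ; positivity)
      apply one_div_le_one_div_of_le hr0
      nlinarith
    have h2 : Real.log (1 / r) = n * Real.log d + j * q := by
      rw [one_div, Real.log_inv, hr, Real.log_div (Real.exp_pos _).ne' hp.ne', Real.log_exp, Real.log_pow]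
      ring
    have h3 : (j : ℝ) * q ≤ n := by
      rw [← hqq]
      gcongr
    rw [h2] at h1
    linarith
  have e2 : √(Real.log (1 / (κ * r))) ≤ √(Real.log d + 1) * q := by
    calc √(Real.log (1 / (κ * r))) ≤ √((Real.log d + 1) * n) := Real.sqrt_le_sqrt e1
      _ = √(Real.log d + 1) * q := Real.sqrt_mul (by linarith) _
  have e3 : A * √(Real.log (1 / (κ * r))) ≤ (j - 1) * q := by
    calc A * √(Real.log (1 / (κ * r))) ≤ A * (√(Real.log d + 1) * q) := by gcongr
      _ = (A * √(Real.log d + 1)) * q := by ring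
      _ ≤ (j - 1) * q := by
        apply mul_le_mul_of_nonneg_right _ hq0
        linarith
  calc κ * r * Real.exp (A * √(Real.log (1 / (κ * r)))) ≤ κ * r * Real.exp ((j - 1) * q) := by gcongr
    _ = κ * (Real.exp (-(j * q)) * Real.exp ((j - 1) * q)) / (d : ℝ) ^ n := by rw [hr]; ring
    _ = κ * Real.exp (-q) / (d : ℝ) ^ n := by
      rw [← Real.exp_add]
      congr 3
      ring
    _ = _ := by
      field_simp

/-- **the set of infinitely often large density is null for every gaugeFn** -/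
theorem gauge_null {d : ℕ} (hd : 2 ≤ d) {μ : Measure ℂ} (hμ : μ univ ≤ 1) {A : ℝ} (hA : 0 ≤ A) :
    Measure.mkMetric (gaugeFn A) (HighDens d μ) = 0 := by
  have hd0 : (0 : ℝ) < d := by exact_mod_cast (by omega : 0 < d)
  obtain ⟨j, hj⟩ := exists_nat_ge (A * √(Real.log d + 1) + 1)
  -- the covers
  have key : ∀ N : ℕ, ∃ (u : Set ℂ) (r : ℂ → ℝ), u.Countable ∧ (∀ x ∈ u, 0 ≤ r x ∧ r x ≤ 1 / (2 : ℝ) ^ N) ∧
      HighDens d μ ⊆ (⋃ x ∈ u, closedBall x (5 * r x)) ∧
      ∑' x : u, gaugeFn A (ENNReal.ofReal (10 * r x)) ≤ ENNReal.ofReal (640 * Real.exp (-√(N : ℝ))) := by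
    intro N
    have h1 : ∀ x ∈ HighDens d μ, ∃ n : ℕ, N + j ^ 2 + 1 ≤ n ∧ ENNReal.ofReal (1 / (64 * (d : ℝ) ^ n)) ≤
        μ (closedBall x (Real.exp (-(j * √(n : ℝ))) / (d : ℝ) ^ n)) := by
      intro x hx
      exact (frequently_atTop.1 (hx j)) (N + j ^ 2 + 1)
    choose! n hn1 hn2 using h1
    set r : ℂ → ℝ := fun x => Real.exp (-(j * √(n x : ℝ))) / (d : ℝ) ^ n x with hr
    have hr0 : ∀ x, 0 < r x := fun x => by rw [hr]; positivity
    have hr1 : ∀ x ∈ HighDens d μ, r x ≤ 1 / (2 : ℝ) ^ N := by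
      intro x hx
      have h2 : N ≤ n x := by have := hn1 x hx; omega
      have h3 : Real.exp (-(j * √(n x : ℝ))) ≤ 1 := Real.exp_le_one_iff.2 (neg_nonpos.2 (by positivity))
      have h4 : (2 : ℝ) ^ N ≤ (d : ℝ) ^ n x := by
        calc (2 : ℝ) ^ N ≤ (2 : ℝ) ^ n x := pow_le_pow_right₀ (by norm_num) h2
          _ ≤ (d : ℝ) ^ n x := by
            apply pow_le_pow_left₀ (by norm_num)
            exact_mod_cast hd
      exact div_le_div₀ zero_le_one h3 (by positivity) h4
    obtain ⟨u, hu1, hu2, hu3⟩ := Vitali.exists_disjoint_subfamily_covering_enlargement_closedBall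
      (HighDens d μ) (fun x => x) r (1 / (2 : ℝ) ^ N) hr1 5 (by norm_num)
    have hcount : u.Countable := by
      apply hu2.countable_of_nonempty_interior
      intro x _
      refine ⟨x, ?_⟩
      exact ball_subset_interior_closedBall (mem_ball_self (hr0 x))
    refine ⟨u, r, hcount, fun x hx => ⟨(hr0 x).le, hr1 x (hu1 hx)⟩, ?_, ?_⟩
    · intro x hx
      obtain ⟨b, hb, hsub⟩ := hu3 x hx
      exact mem_iUnion₂.2 ⟨b, hb, hsub (mem_closedBall_self (hr0 x).le)⟩
    · have h2 : ∀ x : u, gaugeFn A (ENNReal.ofReal (10 * r x)) ≤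
          ENNReal.ofReal (640 * Real.exp (-√(N : ℝ))) * μ (closedBall (x : ℂ) (r x)) := by
        intro x
        have hx := hu1 x.2
        have k1 := hn1 x hx
        have k2 := hn2 x hx
        have k3 := gauge_le hd hA (by norm_num : (1 : ℝ) ≤ 10) (n := n x) hj (by omega) (by omega) (r := r x) rfl
        unfold gaugeFn
        rw [ENNReal.toReal_ofReal (by have := hr0 x; positivity), ← ENNReal.ofReal_mul (by have := hr0 x; positivity)]
        calc ENNReal.ofReal (10 * r x * Real.exp (A * √(Real.log (1 / (10 * r x))))) ≤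
              ENNReal.ofReal (640 * Real.exp (-√(n x : ℝ)) * (1 / (64 * (d : ℝ) ^ n x))) := by
              apply ENNReal.ofReal_le_ofReal
              refine k3.trans (le_of_eq ?_)
              norm_num
          _ = ENNReal.ofReal (640 * Real.exp (-√(n x : ℝ))) * ENNReal.ofReal (1 / (64 * (d : ℝ) ^ n x)) :=
              ENNReal.ofReal_mul (by positivity)
          _ ≤ ENNReal.ofReal (640 * Real.exp (-√(N : ℝ))) * μ (closedBall (x : ℂ) (r x)) := by
              apply mul_le_mul' _ k2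
              apply ENNReal.ofReal_le_ofReal
              have : √(N : ℝ) ≤ √(n x : ℝ) := by
                apply Real.sqrt_le_sqrt
                exact_mod_cast (by omega : N ≤ n x)
              gcongr
      have : Countable u := hcount.to_subtype
      calc ∑' x : u, gaugeFn A (ENNReal.ofReal (10 * r x)) ≤
            ∑' x : u, ENNReal.ofReal (640 * Real.exp (-√(N : ℝ))) * μ (closedBall (x : ℂ) (r x)) :=
            ENNReal.tsum_le_tsum h2
        _ = ENNReal.ofReal (640 * Real.exp (-√(N : ℝ))) * ∑' x : u, μ (closedBall (x : ℂ) (r x)) :=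
            ENNReal.tsum_mul_left
        _ ≤ ENNReal.ofReal (640 * Real.exp (-√(N : ℝ))) * 1 := by
            gcongr
            refine le_trans (tsum_measure_le_measure_univ (fun x => isClosed_closedBall.measurableSet.nullMeasurableSet) ?_) hμ
            intro x y hxy
            exact (hu2 x.2 y.2 (fun h => hxy (Subtype.ext h))).aedisjoint
        _ = _ := mul_one _
  choose u r hu1 hu2 hu3 hu4 using key
  have : ∀ N, Countable (u N) := fun N => (hu1 N).to_subtype
  have hr : Tendsto (fun N : ℕ => ENNReal.ofReal (10 * (1 / (2 : ℝ) ^ N))) atTop (𝓝 0) := by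
    have h1 : Tendsto (fun N : ℕ => 10 * (1 / (2 : ℝ) ^ N)) atTop (𝓝 (10 * 0)) := by
      apply Tendsto.const_mul
      have h2 := tendsto_pow_atTop_nhds_zero_of_lt_one (by norm_num : (0 : ℝ) ≤ 1 / 2) (by norm_num)
      refine h2.congr fun N => ?_
      rw [div_pow, one_pow]
    rw [mul_zero] at h1
    have h3 := (ENNReal.continuous_ofReal.tendsto 0).comp h1
    rw [ENNReal.ofReal_zero] at h3
    exact h3
  have hdiam : ∀ N, ∀ x : u N, ediam (closedBall (x : ℂ) (5 * r N x)) = ENNReal.ofReal (10 * r N x) := by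
    intro N x
    rw [ediam_ball _ (by have := (hu2 N x x.2).1; positivity)]
    congr 1
    ring
  have hmain := Measure.mkMetric_le_liminf_tsum (HighDens d μ) (l := atTop) _ hr
    (fun N (x : u N) => closedBall (x : ℂ) (5 * r N x)) (Eventually.of_forall fun N x => by
      rw [hdiam N x]
      apply ENNReal.ofReal_le_ofReal
      have := (hu2 N x x.2).2
      linarith) (Eventually.of_forall fun N => by
      intro y hy
      obtain ⟨x, hx, hyx⟩ := mem_iUnion₂.1 (hu3 N hy)
      exact mem_iUnion.2 ⟨⟨x, hx⟩, hyx⟩) (gaugeFn A)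
  refine le_antisymm (hmain.trans ?_) (zero_le)
  have h5 : Tendsto (fun N : ℕ => ENNReal.ofReal (640 * Real.exp (-√(N : ℝ)))) atTop (𝓝 0) := by
    have h6 : Tendsto (fun N : ℕ => 640 * Real.exp (-√(N : ℝ))) atTop (𝓝 (640 * 0)) := by
      apply Tendsto.const_mul
      exact Real.tendsto_exp_neg_atTop_nhds_zero.comp (Real.tendsto_sqrt_atTop.comp tendsto_natCast_atTop_atTop)
    rw [mul_zero] at h6
    have h3 := (ENNReal.continuous_ofReal.tendsto 0).comp h6
    rw [ENNReal.ofReal_zero] at h3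
    exact h3
  have h7 : Tendsto (fun N : ℕ => ∑' x : u N, gaugeFn A (ediam (closedBall (x : ℂ) (5 * r N x)))) atTop (𝓝 0) := by
    apply tendsto_of_tendsto_of_tendsto_of_le_of_le tendsto_const_nhds h5
    · intro N
      exact zero_le
    · intro N
      simp only [hdiam]
      exact hu4 N
  exact h7.liminf_eq.le

end Pool.Agent.H439.MC
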