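import Mathlib
import Pool.Agent.H439.MC.Osc2
import Pool.Agent.H439.MC.Osc3
import Pool.Agent.H439.MC.Cell1

/-!
# Oscillation of the exterior map and of harmonic measure
-/

set_option autoImplicit false

namespace Pool.Agent.H439.MC

open Complex Set Topology Filter Metric MeasureTheory N62a1eb23 Pool.Agent.H712R2
  Pool.Agent.H713R2 Pool.Agent.TH653.MB ProbabilityTheory BoundedContinuousFunction
open Pool.Agent.Y272.TY (Typ cc rl MM mm rl_pos rl_lt MM_ne_zero log_MM mm_eq one_sub_rl_le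
  rl_ge_half one_sub_exp_ge)
open Pool.Agent.W677.Mar (pt)
open scoped ENNReal

variable {d : ℕ} {β : ℂ → ℂ}

/-- the radius -/
noncomputable def Rl (d n : ℕ) : ℝ := (rl d n)⁻¹

theorem Rl_tendsto (hd : 2 ≤ d) : Tendsto (Rl d) atTop (𝓝[>] 1) := tendsto_inv_one.comp (rl_tendsto hd)

theorem Rl_sub_ge (d n : ℕ) (hd : 2 ≤ d) : 1 / (d : ℝ) ^ n ≤ Rl d n - 1 := by
  have hd0 : (0 : ℝ) < d := by exact_mod_cast (by omega : 0 < d)
  have h1 : Rl d n = Real.exp (4 / (d : ℝ) ^ n) := by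
    unfold Rl rl
    rw [← Real.exp_neg, neg_neg]
  have h2 := Real.add_one_le_exp (4 / (d : ℝ) ^ n)
  have h3 : 1 / (d : ℝ) ^ n ≤ 4 / (d : ℝ) ^ n := by gcongr; norm_num
  rw [h1]
  linarith

/-- the exponents -/
theorem exp_compare (hd : 2 ≤ d) (n : ℕ) {A : ℝ} {j : ℝ} (hj : |A| * √(Real.log d) ≤ j) :
    Real.exp (-(j * √(n : ℝ))) ≤ Real.exp (-(A * √(Real.log (1 / (Rl d n - 1))))) ∧
    Real.exp (A * √(Real.log (1 / (Rl d n - 1)))) ≤ Real.exp (j * √(n : ℝ)) := by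
  have hd0 : (0 : ℝ) < d := by exact_mod_cast (by omega : 0 < d)
  have hld : 0 ≤ Real.log d := Real.log_nonneg (by exact_mod_cast (by omega : 1 ≤ d))
  have h1 := Rl_sub_ge d n hd
  have hp : 0 < (d : ℝ) ^ n := by positivity
  have h0 : 0 < Rl d n - 1 := lt_of_lt_of_le (by positivity) h1
  have h2 : Real.log (1 / (Rl d n - 1)) ≤ Real.log d * n := by
    have h3 : 1 / (Rl d n - 1) ≤ (d : ℝ) ^ n := by
      rw [div_le_iff₀ h0]
      rw [div_le_iff₀ hp] at h1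
      linarith
    have h4 := Real.log_le_log (by positivity) h3
    rw [Real.log_pow] at h4
    linarith
  have h3 : √(Real.log (1 / (Rl d n - 1))) ≤ √(Real.log d) * √(n : ℝ) := by
    calc √(Real.log (1 / (Rl d n - 1))) ≤ √(Real.log d * n) := Real.sqrt_le_sqrt h2
      _ = _ := Real.sqrt_mul hld _
  have h4 : A * √(Real.log (1 / (Rl d n - 1))) ≤ j * √(n : ℝ) := by
    calc A * √(Real.log (1 / (Rl d n - 1))) ≤ |A| * √(Real.log (1 / (Rl d n - 1))) := by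
          gcongr
          exact le_abs_self A
      _ ≤ |A| * (√(Real.log d) * √(n : ℝ)) := by gcongr
      _ = (|A| * √(Real.log d)) * √(n : ℝ) := by ring
      _ ≤ j * √(n : ℝ) := by gcongr
  constructor
  · apply Real.exp_le_exp.2
    linarith
  · exact Real.exp_le_exp.2 h4

theorem psi_Rl (hd : 2 ≤ d) (hβ : IsBeta d β) {ψ : ℂ → ℂ} (hψ : IsExteriorMap (multibrotSet d) ψ) (n : ℕ) (θ : ℝ) :
    ψ ((Rl d n : ℝ) * exp (((2 * Real.pi - θ : ℝ) : ℂ) * I)) = cc β (pt (rl d n) θ) ∧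
    ‖deriv ψ ((Rl d n : ℝ) * exp (((2 * Real.pi - θ : ℝ) : ℂ) * I))‖ =
      (rl d n) ^ 2 * ‖deriv (cc β) (pt (rl d n) θ)‖ := by
  have h3 := rl_pos d n
  have h4 := rl_lt hd n
  have hx := circleMap_mem h3 h4 θ
  have hx0 := circleMap_ne h3 θ
  have e1 : ((Rl d n : ℝ) : ℂ) * exp (((2 * Real.pi - θ : ℝ) : ℂ) * I) = (circleMap 0 (rl d n) θ)⁻¹ := by
    unfold circleMap Rl
    rw [zero_add, mul_inv, ← Complex.exp_neg, Complex.ofReal_inv]
    congr 1
    have h6 : ((2 * Real.pi - θ : ℝ) : ℂ) * I = -(θ * I) + 2 * Real.pi * I := by push_cast; ring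
    rw [h6, Complex.exp_add, Complex.exp_two_pi_mul_I, mul_one]
  have e2 : pt (rl d n) θ = circleMap 0 (rl d n) θ := rfl
  rw [e1]
  constructor
  · rw [exteriorMap_unique hβ hψ (one_lt_norm_inv hx hx0), inv_inv]
    rfl
  · rw [deriv_ext hβ hψ (one_lt_norm_inv hx hx0), inv_inv, e2, deriv_cc hβ hx hx0, norm_mul, norm_neg, norm_inv,
      norm_pow, norm_circleMap_zero, abs_of_pos h3, ← mul_assoc, mul_inv_cancel₀ (by positivity), one_mul]

/-- the pushforward of the normalised measure on the angles -/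
noncomputable def hmeas (c : ℝ → ℂ) : Measure ℂ := Pm.map fun θ => c (2 * Real.pi - θ)

theorem hmeas_univ (hd : 2 ≤ d) (hβ : IsBeta d β) {ψ : ℂ → ℂ} (hψ : IsExteriorMap (multibrotSet d) ψ)
    {c : ℝ → ℂ} (hc : LandsAt ψ c) : hmeas c univ ≤ 1 := by
  unfold hmeas
  rw [Measure.map_apply_of_aemeasurable (c_meas hβ (aetyp_of_lands hd hβ hψ hc)) MeasurableSet.univ]
  exact prob_le_one

instance (c : ℝ → ℂ) : IsFiniteMeasure (hmeas c) := by unfold hmeas; infer_instance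

theorem hmeas_ball (hd : 2 ≤ d) (hβ : IsBeta d β) {ψ : ℂ → ℂ} (hψ : IsExteriorMap (multibrotSet d) ψ)
    {c : ℝ → ℂ} (hc : LandsAt ψ c) (x : ℂ) (r : ℝ) :
    hmeas c (closedBall x r) = Pm {θ | ‖c (2 * Real.pi - θ) - x‖ ≤ r} := by
  unfold hmeas
  rw [Measure.map_apply_of_aemeasurable (c_meas hβ (aetyp_of_lands hd hβ hψ hc)) isClosed_closedBall.measurableSet]
  congr 1
  ext θ
  rw [mem_preimage, mem_closedBall, dist_eq_norm]
  rfl

theorem Pm_refl (A : Set ℝ) : Pm {θ | 2 * Real.pi - θ ∈ A} =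
    (ENNReal.ofReal (2 * Real.pi))⁻¹ * volume (Ioc 0 (2 * Real.pi) ∩ A) := by
  have e : {θ | 2 * Real.pi - θ ∈ A} = (fun θ => 2 * Real.pi - θ) ⁻¹' A := rfl
  unfold Pm
  rw [Measure.smul_apply, Measure.restrict_apply₀' measurableSet_Ioc.nullMeasurableSet, smul_eq_mul,
    e, inter_comm, reflect_set]

/-- the oscillation at the angle `θ` -/
def OscAt (d : ℕ) (ψ : ℂ → ℂ) (c : ℝ → ℂ) (θ : ℝ) : Prop :=
  Tendsto (fun r : ℝ => ψ (r * exp (θ * I))) (𝓝[>] 1) (𝓝 (c θ)) ∧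
  c θ ∈ HighDens d (hmeas c) ∩ frontier (multibrotSet d) ∧
  ∀ A : ℝ, (∃ᶠ R : ℝ in 𝓝[>] 1, ‖ψ (R * exp (θ * I)) - c θ‖ ≤
      (R - 1) * Real.exp (-(A * √(Real.log (1 / (R - 1)))))) ∧
    (∃ᶠ R : ℝ in 𝓝[>] 1, (R - 1) * Real.exp (A * √(Real.log (1 / (R - 1)))) ≤
      infDist (ψ (R * exp (θ * I))) (multibrotSet d)) ∧
    (∃ᶠ n : ℕ in atTop, n * Real.log d + A * √(n : ℝ) ≤ Real.log ‖deriv ((fun z : ℂ => z ^ d + c θ)^[n]) (c θ)‖) ∧
    ∃ᶠ n : ℕ in atTop, Real.log ‖deriv ((fun z : ℂ => z ^ d + c θ)^[n]) (c θ)‖ ≤ n * Real.log d - A * √(n : ℝ)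

/-- everything we need, in the reflected coordinate -/
theorem osc_of_clt (hd : 2 ≤ d) (hβ : IsBeta d β) {s : ℝ → ℝ} (hs : Measurable s) (hclt : CLT d β s)
    {ψ : ℂ → ℂ} (hψ : IsExteriorMap (multibrotSet d) ψ) {c : ℝ → ℂ} (hc : LandsAt ψ c) :
    ∀ᵐ θ ∂Pm, 0 < s θ → OscAt d ψ c (2 * Real.pi - θ) := by
  have hd0 : (0 : ℝ) < d := by exact_mod_cast (by omega : 0 < d)
  obtain ⟨c0, hc0, hdist⟩ := dist_bounds hd hβ
  have hA := aetyp_of_lands hd hβ hψ hc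
  have hland : ∀ᵐ θ ∂Pm, Tendsto (fun r : ℝ => ψ (r * exp (((2 * Real.pi - θ : ℝ) : ℂ) * I))) (𝓝[>] 1)
      (𝓝 (c (2 * Real.pi - θ))) :=
    Pm_ac.ae_le ((Measure.measurePreserving_sub_left (volume : Measure ℝ) (2 * Real.pi)).quasiMeasurePreserving.ae hc)
  have hclosed : IsClosed (multibrotSet d) := (isCompact_multibrot hd).isClosed
  filter_upwards [hA, hland, osc_near hd hβ hs hclt hA, osc_far hd hβ hs hclt hA, osc_hm hd hβ hs hclt hA,
    osc_lyap hβ hs hclt hA] with θ hT hl h1 h2 h3 hly hpos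
  obtain ⟨A0, R0, hT⟩ := hT
  have hmem : c (2 * Real.pi - θ) ∈ multibrotSet d := hT.mem hd hβ
  refine ⟨hl, ⟨?_, ?_⟩, ?_⟩
  · intro j
    refine (h3 hpos j).mono ?_
    intro n hn
    rw [hmeas_ball hd hβ hψ hc]
    exact ENNReal.ofReal_le_of_le_toReal hn
  · rw [hclosed.frontier_eq]
    refine ⟨hmem, ?_⟩
    intro hint
    have h4 : ∀ᶠ r : ℝ in 𝓝[>] 1, ψ (r * exp (((2 * Real.pi - θ : ℝ) : ℂ) * I)) ∈ interior (multibrotSet d) :=
      hl.eventually (isOpen_interior.mem_nhds hint)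
    obtain ⟨r, h5, h6⟩ := (h4.and self_mem_nhdsWithin).exists
    have h7 : 1 < ‖(r : ℂ) * exp (((2 * Real.pi - θ : ℝ) : ℂ) * I)‖ := one_lt_norm_pt h6 _
    have h8 := (hdist ψ hψ _ h7).2.2
    rw [infDist_zero_of_mem (interior_subset h5)] at h8
    exact lt_irrefl _ h8
  · intro A
    obtain ⟨j, hj⟩ := exists_nat_ge (|A| * √(Real.log d))
    refine ⟨?_, ?_, ?_, ?_⟩
    · apply (Rl_tendsto hd).frequently
      refine (h1 hpos j).mono ?_
      intro n hn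
      rw [(psi_Rl hd hβ hψ n θ).1]
      refine hn.trans ?_
      have h4 := (exp_compare hd n (A := A) hj).1
      have h5 := Rl_sub_ge d n hd
      have h50 : 0 < Rl d n - 1 := lt_of_lt_of_le (by positivity) h5
      calc Real.exp (-(j * √(n : ℝ))) / (d : ℝ) ^ n = 1 / (d : ℝ) ^ n * Real.exp (-(j * √(n : ℝ))) := by ring
        _ ≤ (Rl d n - 1) * Real.exp (-(A * √(Real.log (1 / (Rl d n - 1))))) := by gcongr
    · apply (Rl_tendsto hd).frequently
      have hbig : ∀ᶠ n : ℕ in atTop, 4 / c0 ≤ Real.exp (√(n : ℝ)) :=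
        (Real.tendsto_exp_atTop.comp (Real.tendsto_sqrt_atTop.comp tendsto_natCast_atTop_atTop)).eventually_ge_atTop _
      refine ((h2 hpos (j + 1)).and_eventually ((eventually_ge_atTop 3).and hbig)).mono ?_
      rintro n ⟨hn, hn3, hn4⟩
      have h4 := (exp_compare hd n (A := A) hj).2
      have h5 := Rl_sub_ge d n hd
      have h50 : 0 < Rl d n - 1 := lt_of_lt_of_le (by positivity) h5
      have h6 : 1 < ‖((Rl d n : ℝ) : ℂ) * exp (((2 * Real.pi - θ : ℝ) : ℂ) * I)‖ := one_lt_norm_pt (by linarith) _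
      have h7 := (hdist ψ hψ _ h6).1
      rw [norm_pt' (by linarith) (2 * Real.pi - θ), (psi_Rl hd hβ hψ n θ).2] at h7
      refine le_trans ?_ h7
      have h8 := rl_ge_half hd hn3
      have h9 : (1 : ℝ) / 4 ≤ rl d n ^ 2 := by nlinarith
      have h10 : Real.exp (((j + 1 : ℕ) : ℝ) * √(n : ℝ)) = Real.exp (√(n : ℝ)) * Real.exp (j * √(n : ℝ)) := by
        rw [← Real.exp_add]
        congr 1
        push_cast
        ring
      have h11 : 1 ≤ c0 * (1 / 4 * Real.exp (√(n : ℝ))) := by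
        rw [div_le_iff₀ hc0] at hn4
        linarith
      calc (Rl d n - 1) * Real.exp (A * √(Real.log (1 / (Rl d n - 1)))) ≤
            (Rl d n - 1) * Real.exp (j * √(n : ℝ)) := by gcongr
        _ ≤ (Rl d n - 1) * Real.exp (j * √(n : ℝ)) * (c0 * (1 / 4 * Real.exp (√(n : ℝ)))) :=
            le_mul_of_one_le_right (by positivity) h11
        _ = c0 * ((Rl d n - 1) * (1 / 4 * (Real.exp (√(n : ℝ)) * Real.exp (j * √(n : ℝ))))) := by ring
        _ ≤ c0 * ((Rl d n - 1) * (rl d n ^ 2 * ‖deriv (cc β) (pt (rl d n) θ)‖)) := by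
            rw [← h10]
            gcongr
    · obtain ⟨i, hi⟩ := exists_nat_ge A
      refine (hly hpos i).1.mono fun n hn => ?_
      rw [deriv_fc_iter hd]
      refine le_trans ?_ hn
      have := mul_le_mul_of_nonneg_right hi (Real.sqrt_nonneg (n : ℝ))
      linarith
    · obtain ⟨i, hi⟩ := exists_nat_ge A
      refine (hly hpos i).2.mono fun n hn => ?_
      rw [deriv_fc_iter hd]
      refine hn.trans ?_
      have := mul_le_mul_of_nonneg_right hi (Real.sqrt_nonneg (n : ℝ))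
      linarith

theorem pos_of_integral {s : ℝ → ℝ} (hs0 : ∀ θ, 0 ≤ s θ) (hspos : 0 < ∫ θ, s θ ∂Pm) : 0 < Pm {θ | 0 < s θ} := by
  by_contra hcon
  push Not at hcon
  have h1 : Pm {θ | 0 < s θ} = 0 := le_antisymm hcon zero_le
  have h2 : s =ᵐ[Pm] 0 := by
    have h3 : ∀ᵐ θ ∂Pm, ¬ 0 < s θ := by
      rw [ae_iff]
      simpa using h1
    filter_upwards [h3] with θ hθ
    exact le_antisymm (not_lt.1 hθ) (hs0 θ)
  rw [integral_congr_ae h2] at hspos
  simp at hspos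

theorem osc_all (hd : 2 ≤ d) (hβ : IsBeta d β) : ∃ s : ℝ → ℝ, Measurable s ∧ 0 < Pm {θ | 0 < s θ} ∧
    ∀ ψ : ℂ → ℂ, IsExteriorMap (multibrotSet d) ψ → ∀ c : ℝ → ℂ, LandsAt ψ c →
    ∀ᵐ θ ∂Pm, 0 < s θ →
      OscAt d ψ c (2 * Real.pi - θ) := by
  obtain ⟨s, hs, hs0, hs2, hspos, hclt⟩ := clt_dyn hd hβ
  exact ⟨s, hs, pos_of_integral hs0 hspos, fun ψ hψ c hc => osc_of_clt hd hβ hs hclt hψ hc⟩

/-- points of high density have many angles nearby -/
theorem dens_freq (hd : 2 ≤ d) (hβ : IsBeta d β) {ψ : ℂ → ℂ} (hψ : IsExteriorMap (multibrotSet d) ψ)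
    {c : ℝ → ℂ} (hc : LandsAt ψ c) {x : ℂ} (hx : x ∈ HighDens d (hmeas c)) (A : ℝ) :
    ∃ᶠ r : ℝ in 𝓝[>] 0, ENNReal.ofReal (r * Real.exp (A * √(Real.log (1 / r)))) ≤
      volume {θ ∈ Ioc 0 (2 * Real.pi) | ‖c θ - x‖ ≤ r} := by
  have hd0 : (0 : ℝ) < d := by exact_mod_cast (by omega : 0 < d)
  have hpi := Real.pi_gt_three
  obtain ⟨j, hj⟩ := exists_nat_ge (|A| * √(Real.log d + 1) + 1)
  have hr : Tendsto (fun n : ℕ => Real.exp (-(j * √(n : ℝ))) / (d : ℝ) ^ n) atTop (𝓝[>] 0) := by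
    apply tendsto_nhdsWithin_of_tendsto_nhds_of_eventually_within
    · have h2 := tendsto_pow_atTop_nhds_zero_of_lt_one (by norm_num : (0 : ℝ) ≤ 1 / 2) (by norm_num)
      refine squeeze_zero (fun n => by positivity) (fun n => ?_) h2
      rw [div_pow, one_pow]
      have h3 : Real.exp (-(j * √(n : ℝ))) ≤ 1 := Real.exp_le_one_iff.2 (neg_nonpos.2 (by positivity))
      have h4 : (2 : ℝ) ^ n ≤ (d : ℝ) ^ n := by
        apply pow_le_pow_left₀ (by norm_num)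
        exact_mod_cast hd
      exact div_le_div₀ zero_le_one h3 (by positivity) h4
    · refine Eventually.of_forall fun n => ?_
      rw [mem_Ioi]
      positivity
  apply hr.frequently
  have hbig : ∀ᶠ n : ℕ in atTop, 64 ≤ Real.exp (√(n : ℝ)) :=
    (Real.tendsto_exp_atTop.comp (Real.tendsto_sqrt_atTop.comp tendsto_natCast_atTop_atTop)).eventually_ge_atTop _
  refine ((hx j).and_eventually ((eventually_ge_atTop (j ^ 2 + 1)).and hbig)).mono ?_
  rintro n ⟨hn, hn3, hn4⟩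
  obtain ⟨r, hr⟩ : ∃ r : ℝ, r = Real.exp (-(j * √(n : ℝ))) / (d : ℝ) ^ n := ⟨_, rfl⟩
  rw [← hr] at hn ⊢
  have hr0 : 0 < r := by rw [hr]; positivity
  have h1 := gauge_le hd (abs_nonneg A) le_rfl hj (by omega) (by omega) hr
  rw [one_mul, mul_one] at h1
  have h2 : r * Real.exp (A * √(Real.log (1 / r))) ≤ 1 / (64 * (d : ℝ) ^ n) := by
    calc r * Real.exp (A * √(Real.log (1 / r))) ≤ r * Real.exp (|A| * √(Real.log (1 / r))) := by
          gcongr
          exact le_abs_self A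
      _ ≤ 64 * Real.exp (-√(n : ℝ)) * (1 / (64 * (d : ℝ) ^ n)) := h1
      _ ≤ 1 * (1 / (64 * (d : ℝ) ^ n)) := by
          gcongr
          rw [Real.exp_neg]
          rw [← div_eq_mul_inv, div_le_one (Real.exp_pos _)]
          exact hn4
      _ = _ := one_mul _
  refine (ENNReal.ofReal_le_ofReal h2).trans (hn.trans ?_)
  rw [hmeas_ball hd hβ hψ hc]
  have e1 : {θ | ‖c (2 * Real.pi - θ) - x‖ ≤ r} = {θ | 2 * Real.pi - θ ∈ {t | ‖c t - x‖ ≤ r}} := rfl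
  rw [e1, Pm_refl]
  have e2 : Ioc 0 (2 * Real.pi) ∩ {t | ‖c t - x‖ ≤ r} = {θ ∈ Ioc 0 (2 * Real.pi) | ‖c θ - x‖ ≤ r} := rfl
  rw [e2]
  have h3 : (ENNReal.ofReal (2 * Real.pi))⁻¹ ≤ 1 := by
    rw [ENNReal.inv_le_one, ← ENNReal.ofReal_one]
    apply ENNReal.ofReal_le_ofReal
    linarith
  calc _ ≤ 1 * volume {θ ∈ Ioc 0 (2 * Real.pi) | ‖c θ - x‖ ≤ r} := by gcongr
    _ = _ := one_mul _

/-- points of high density, normalised form -/
theorem dens_freq2 (hd : 2 ≤ d) {c : ℝ → ℂ} {x : ℂ} (hx : x ∈ HighDens d (hmeas c)) (A : ℝ) :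
    ∃ᶠ r : ℝ in 𝓝[>] 0, r * Real.exp (A * √(Real.log (1 / r))) ≤ (hmeas c (closedBall x r)).toReal := by
  have hd0 : (0 : ℝ) < d := by exact_mod_cast (by omega : 0 < d)
  obtain ⟨j, hj⟩ := exists_nat_ge (|A| * √(Real.log d + 1) + 1)
  have hr : Tendsto (fun n : ℕ => Real.exp (-(j * √(n : ℝ))) / (d : ℝ) ^ n) atTop (𝓝[>] 0) := by
    apply tendsto_nhdsWithin_of_tendsto_nhds_of_eventually_within
    · have h2 := tendsto_pow_atTop_nhds_zero_of_lt_one (by norm_num : (0 : ℝ) ≤ 1 / 2) (by norm_num)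
      refine squeeze_zero (fun n => by positivity) (fun n => ?_) h2
      rw [div_pow, one_pow]
      have h3 : Real.exp (-(j * √(n : ℝ))) ≤ 1 := Real.exp_le_one_iff.2 (neg_nonpos.2 (by positivity))
      have h4 : (2 : ℝ) ^ n ≤ (d : ℝ) ^ n := by
        apply pow_le_pow_left₀ (by norm_num)
        exact_mod_cast hd
      exact div_le_div₀ zero_le_one h3 (by positivity) h4
    · refine Eventually.of_forall fun n => ?_
      rw [mem_Ioi]
      positivity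
  apply hr.frequently
  have hbig : ∀ᶠ n : ℕ in atTop, 64 ≤ Real.exp (√(n : ℝ)) :=
    (Real.tendsto_exp_atTop.comp (Real.tendsto_sqrt_atTop.comp tendsto_natCast_atTop_atTop)).eventually_ge_atTop _
  refine ((hx j).and_eventually ((eventually_ge_atTop (j ^ 2 + 1)).and hbig)).mono ?_
  rintro n ⟨hn, hn3, hn4⟩
  obtain ⟨r, hr⟩ : ∃ r : ℝ, r = Real.exp (-(j * √(n : ℝ))) / (d : ℝ) ^ n := ⟨_, rfl⟩
  rw [← hr] at hn ⊢
  have hr0 : 0 < r := by rw [hr]; positivity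
  have h1 := gauge_le hd (abs_nonneg A) le_rfl hj (by omega) (by omega) hr
  rw [one_mul, mul_one] at h1
  have h2 : r * Real.exp (A * √(Real.log (1 / r))) ≤ 1 / (64 * (d : ℝ) ^ n) := by
    calc r * Real.exp (A * √(Real.log (1 / r))) ≤ r * Real.exp (|A| * √(Real.log (1 / r))) := by
          gcongr
          exact le_abs_self A
      _ ≤ 64 * Real.exp (-√(n : ℝ)) * (1 / (64 * (d : ℝ) ^ n)) := h1
      _ ≤ 1 * (1 / (64 * (d : ℝ) ^ n)) := by
          gcongr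
          rw [Real.exp_neg]
          rw [← div_eq_mul_inv, div_le_one (Real.exp_pos _)]
          exact hn4
      _ = _ := one_mul _
  refine h2.trans ?_
  have h3 := ENNReal.toReal_mono (measure_ne_top _ _) hn
  rwa [ENNReal.toReal_ofReal (by positivity)] at h3

/-- **the final form** -/
theorem osc_final (hd : 2 ≤ d) (hβ : IsBeta d β) {ψ : ℂ → ℂ} (hψ : IsExteriorMap (multibrotSet d) ψ)
    {c : ℝ → ℂ} (hc : LandsAt ψ c) :
    ∃ E : Set ℝ, MeasurableSet E ∧ E ⊆ Ioc 0 (2 * Real.pi) ∧ 0 < volume E ∧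
    ∃ K : Set ℂ, MeasurableSet K ∧ K ⊆ frontier (multibrotSet d) ∧
      (∀ θ ∈ E, c θ ∈ K ∧ Tendsto (fun r : ℝ => ψ (r * exp (θ * I))) (𝓝[>] 1) (𝓝 (c θ)) ∧
        ∀ A : ℝ, (∃ᶠ R : ℝ in 𝓝[>] 1, ‖ψ (R * exp (θ * I)) - c θ‖ ≤
          (R - 1) * Real.exp (-(A * √(Real.log (1 / (R - 1)))))) ∧
        (∃ᶠ R : ℝ in 𝓝[>] 1, (R - 1) * Real.exp (A * √(Real.log (1 / (R - 1)))) ≤
          infDist (ψ (R * exp (θ * I))) (multibrotSet d)) ∧
        (∃ᶠ n : ℕ in atTop, n * Real.log d + A * √(n : ℝ) ≤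
          Real.log ‖deriv ((fun z : ℂ => z ^ d + c θ)^[n]) (c θ)‖) ∧
        ∃ᶠ n : ℕ in atTop, Real.log ‖deriv ((fun z : ℂ => z ^ d + c θ)^[n]) (c θ)‖ ≤
          n * Real.log d - A * √(n : ℝ)) ∧
      (∀ x ∈ K, ∀ A : ℝ, ∃ᶠ r : ℝ in 𝓝[>] 0, ENNReal.ofReal (r * Real.exp (A * √(Real.log (1 / r)))) ≤
        volume {θ ∈ Ioc 0 (2 * Real.pi) | ‖c θ - x‖ ≤ r}) ∧
      ∀ A : ℝ, 0 ≤ A → Measure.mkMetric (gaugeFn A) K = 0 := by
  have hpi := Real.pi_pos
  obtain ⟨s, hs, hspos, hall⟩ := osc_all hd hβ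
  have h1 := hall ψ hψ c hc
  rw [ae_iff] at h1
  obtain ⟨Bad, hBad⟩ : ∃ Bad : Set ℝ, Bad = toMeasurable Pm {θ | ¬ (0 < s θ →
      OscAt d ψ c (2 * Real.pi - θ))} := ⟨_, rfl⟩
  have hB0 : Pm Bad = 0 := by rw [hBad, measure_toMeasurable, h1]
  have hBm : MeasurableSet Bad := by rw [hBad]; exact measurableSet_toMeasurable _ _
  have hgood : ∀ θ, θ ∉ Bad → 0 < s θ → OscAt d ψ c (2 * Real.pi - θ) := by
    intro θ hθ
    by_contra hcon
    exact hθ (by rw [hBad]; exact subset_toMeasurable _ _ hcon)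
  set E' : Set ℝ := {θ | 0 < s θ} \ Bad with hE'
  have hE'm : MeasurableSet E' := (measurableSet_lt measurable_const hs).diff hBm
  have hE'pos : 0 < Pm E' := by
    rw [hE', measure_sdiff_null hB0]
    exact hspos
  refine ⟨Ioc 0 (2 * Real.pi) ∩ (fun θ => 2 * Real.pi - θ) ⁻¹' E', ?_, inter_subset_left, ?_,
    HighDens d (hmeas c) ∩ frontier (multibrotSet d), ?_, inter_subset_right, ?_, ?_, ?_⟩
  · exact measurableSet_Ioc.inter ((measurable_const.sub measurable_id) hE'm)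
  · rw [reflect_set]
    by_contra hcon
    push Not at hcon
    have h2 : volume (Ioc 0 (2 * Real.pi) ∩ E') = 0 := le_antisymm hcon zero_le
    have h3 : Pm E' = 0 := by
      unfold Pm
      rw [Measure.smul_apply, Measure.restrict_apply hE'm, inter_comm, h2, smul_zero]
    exact hE'pos.ne' h3
  · exact (dense_meas d _).inter isClosed_frontier.measurableSet
  · rintro θ ⟨_, h2⟩
    have h3 : 2 * Real.pi - θ ∈ E' := h2
    have h4 := hgood _ h3.2 h3.1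
    rw [show 2 * Real.pi - (2 * Real.pi - θ) = θ by ring] at h4
    exact ⟨h4.2.1, h4.1, h4.2.2⟩
  · intro x hx A
    exact dens_freq hd hβ hψ hc hx.1 A
  · intro A hA
    exact measure_mono_null inter_subset_left (gauge_null hd (hmeas_univ hd hβ hψ hc) hA)

end Pool.Agent.H439.MC
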