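import Mathlib
import Pool.Agent.H439.MC.Hmu3
import Pool.Agent.H439.MC.Osc4

/-!
# The central limit theorem for the harmonic measure of discs
-/

set_option autoImplicit false

namespace Pool.Agent.H439.MC

open Complex Set Topology Filter Metric MeasureTheory N62a1eb23 Pool.Agent.H712R2
  Pool.Agent.H713R2 Pool.Agent.TH653.MB ProbabilityTheory BoundedContinuousFunction
open Pool.Agent.Y272.TY (Typ cc rl MM mm rl_pos rl_lt MM_ne_zero log_MM mm_eq one_sub_rl_pos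
  rl_ge_half one_sub_exp_ge)
open Pool.Agent.W677.Mar (pt)
open scoped ENNReal

variable {d : ℕ} {β : ℂ → ℂ}

/-- the levels near `k` -/
noncomputable def ml (δ : ℝ) (l : ℤ) (k : ℕ) : ℕ := ((k : ℤ) + ⌊(l : ℝ) * δ * √(k : ℝ)⌋).toNat

theorem ml_bounds {δ : ℝ} (l : ℤ) {k : ℕ} (h : |(l : ℝ) * δ * √(k : ℝ)| + 1 ≤ k) :
    (ml δ l k : ℝ) ≤ k + |(l : ℝ) * δ * √(k : ℝ)| ∧ (k : ℝ) - |(l : ℝ) * δ * √(k : ℝ)| - 1 ≤ ml δ l k := by
  have h5 := Int.floor_le ((l : ℝ) * δ * √(k : ℝ))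
  have h6 := Int.sub_one_lt_floor ((l : ℝ) * δ * √(k : ℝ))
  have h3 := le_abs_self ((l : ℝ) * δ * √(k : ℝ))
  have h4 := neg_abs_le ((l : ℝ) * δ * √(k : ℝ))
  have h7 : (0 : ℤ) ≤ (k : ℤ) + ⌊(l : ℝ) * δ * √(k : ℝ)⌋ := by
    have : (0 : ℝ) ≤ (k : ℝ) + ⌊(l : ℝ) * δ * √(k : ℝ)⌋ := by linarith
    exact_mod_cast this
  have h8 : (ml δ l k : ℝ) = k + ⌊(l : ℝ) * δ * √(k : ℝ)⌋ := by
    have h9 : ((ml δ l k : ℕ) : ℤ) = k + ⌊(l : ℝ) * δ * √(k : ℝ)⌋ := Int.toNat_of_nonneg h7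
    exact_mod_cast h9
  rw [h8]
  constructor <;> linarith

/-- `a √k + b` is small compared with `k` -/
theorem ev_small_sqrt (a b : ℝ) : ∀ᶠ k : ℕ in atTop, a * √(k : ℝ) + b ≤ (k : ℝ) / 2 := by
  filter_upwards [(sqrt_n_tendsto).eventually_ge_atTop (2 * |a| + 2 * |b| + 1)] with k hk
  have h0 : (0 : ℝ) ≤ k := Nat.cast_nonneg k
  have hqq : √(k : ℝ) * √(k : ℝ) = k := Real.mul_self_sqrt h0
  have h1 : 1 ≤ √(k : ℝ) := by have := abs_nonneg a; have := abs_nonneg b; linarith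
  have h2 := le_abs_self a
  have h3 := le_abs_self b
  have h4 := abs_nonneg a
  have h5 := abs_nonneg b
  have h6 : a * √(k : ℝ) ≤ |a| * √(k : ℝ) := by gcongr
  have h7 : |b| ≤ |b| * √(k : ℝ) := le_mul_of_one_le_right h5 h1
  have h8 : (2 * |a| + 2 * |b|) * √(k : ℝ) ≤ √(k : ℝ) * √(k : ℝ) := by gcongr; linarith
  linarith

theorem ml_tendsto (δ : ℝ) (l : ℤ) : Tendsto (ml δ l) atTop atTop := by
  rw [Filter.tendsto_atTop]
  intro N
  filter_upwards [ev_small_sqrt (|(l : ℝ) * δ|) 1, eventually_ge_atTop (2 * N)] with k hk1 hk2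
  have h1 : |(l : ℝ) * δ * √(k : ℝ)| = |(l : ℝ) * δ| * √(k : ℝ) := by
    rw [abs_mul, abs_of_nonneg (Real.sqrt_nonneg _)]
  have h0 : (0 : ℝ) ≤ k := Nat.cast_nonneg k
  have h2 := (ml_bounds (δ := δ) l (k := k) (by rw [h1]; linarith)).2
  rw [h1] at h2
  have h3 : ((2 * N : ℕ) : ℝ) ≤ k := by exact_mod_cast hk2
  push_cast at h3
  have h4 : (N : ℝ) ≤ ml δ l k := by linarith
  exact_mod_cast h4

/-- the increments are small -/
theorem inc_prob (hd : 2 ≤ d) (hβ : IsBeta d β) {c : ℝ → ℂ} (hc : AETyp d β c) {ε : ℝ} (hε : 0 < ε) (δ : ℝ) (l : ℤ) :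
    Tendsto (fun k : ℕ => Pm {θ | ¬ (|Sm d c (ml δ l k) θ - Sm d c k θ| ≤ ε * √(k : ℝ))}) atTop (𝓝 0) := by
  obtain ⟨C, hC, hstep⟩ := step_prob hd hβ
  have hlim : Tendsto (fun k : ℕ => ENNReal.ofReal (C * (|(l : ℝ) * δ| * √(k : ℝ) + 1) / (ε * √(k : ℝ)) ^ 2)) atTop (𝓝 0) := by
    have h1 : Tendsto (fun k : ℕ => C * (|(l : ℝ) * δ| * √(k : ℝ) + 1) / (ε * √(k : ℝ)) ^ 2) atTop (𝓝 0) := by
      have g1 : Tendsto (fun k : ℕ => (√(k : ℝ))⁻¹) atTop (𝓝 0) := sqrt_n_tendsto.inv_tendsto_atTop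
      have g2 := ((g1.const_mul (|(l : ℝ) * δ|)).add (g1.mul g1)).const_mul (C / ε ^ 2)
      rw [mul_zero, mul_zero, add_zero, mul_zero] at g2
      refine g2.congr' ?_
      filter_upwards [eventually_ge_atTop 1] with k hk
      have hq : 0 < √(k : ℝ) := Real.sqrt_pos.2 (by exact_mod_cast hk)
      field_simp
    have h2 := (ENNReal.continuous_ofReal.tendsto 0).comp h1
    rw [ENNReal.ofReal_zero] at h2
    exact h2
  apply tendsto_of_tendsto_of_tendsto_of_le_of_le' tendsto_const_nhds hlim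
  · exact Eventually.of_forall fun k => zero_le
  filter_upwards [ev_small_sqrt (|(l : ℝ) * δ|) 1, eventually_ge_atTop 1] with k hk1 hk2
  have hk0 : (0 : ℝ) < k := by exact_mod_cast hk2
  have hq : 0 < √(k : ℝ) := Real.sqrt_pos.2 hk0
  have h1 : |(l : ℝ) * δ * √(k : ℝ)| = |(l : ℝ) * δ| * √(k : ℝ) := by
    rw [abs_mul, abs_of_nonneg (Real.sqrt_nonneg _)]
  obtain ⟨h2, h3⟩ := ml_bounds (δ := δ) l (k := k) (by rw [h1]; linarith)
  rw [h1] at h2 h3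
  obtain ⟨m, hm⟩ : ∃ m, m = ml δ l k := ⟨_, rfl⟩
  rw [← hm] at h2 h3 ⊢
  -- the sum over the levels in between
  have hsum : ∀ a b : ℕ, a ≤ b → ∀ θ, (∀ j, P d (j + 1) (c θ) ≠ 0) → Sm d c b θ - Sm d c a θ =
      ((d : ℝ) - 1) * ∑ i ∈ Finset.Ico a b, Real.log ‖P d (i + 1) (c θ)‖ := by
    intro a b hab θ hθ
    unfold Sm
    rw [log_MM hd (c θ) b (fun j _ => hθ j), log_MM hd (c θ) a (fun j _ => hθ j),
      ← Finset.sum_range_add_sum_Ico _ hab]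
    ring
  have hb : ∀ I : Finset ℕ, (I.card : ℝ) ≤ |(l : ℝ) * δ| * √(k : ℝ) + 1 →
      Pm {θ | ε * √(k : ℝ) < |((d : ℝ) - 1) * ∑ i ∈ I, Real.log ‖P d (i + 1) (c θ)‖|} ≤
      ENNReal.ofReal (C * (|(l : ℝ) * δ| * √(k : ℝ) + 1) / (ε * √(k : ℝ)) ^ 2) := by
    intro I hI
    refine (hstep c hc I _ (by positivity)).trans (ENNReal.ofReal_le_ofReal ?_)
    gcongr
  rcases le_total m k with hmk | hmk
  · refine le_trans (measure_mono_ae ?_) (hb (Finset.Ico m k) ?_)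
    · filter_upwards [hc] with θ hθ hbad
      obtain ⟨A', R, hT⟩ := hθ
      have h4 := hsum m k hmk θ (fun j => hT.P_ne j)
      change ε * √(k : ℝ) < |((d : ℝ) - 1) * ∑ i ∈ Finset.Ico m k, Real.log ‖P d (i + 1) (c θ)‖|
      rw [← h4, abs_sub_comm]
      exact not_le.1 hbad
    · rw [Nat.card_Ico, Nat.cast_sub hmk]
      linarith
  · refine le_trans (measure_mono_ae ?_) (hb (Finset.Ico k m) ?_)
    · filter_upwards [hc] with θ hθ hbad
      obtain ⟨A', R, hT⟩ := hθ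
      have h4 := hsum k m hmk θ (fun j => hT.P_ne j)
      change ε * √(k : ℝ) < |((d : ℝ) - 1) * ∑ i ∈ Finset.Ico k m, Real.log ‖P d (i + 1) (c θ)‖|
      rw [← h4]
      exact not_le.1 hbad
    · rw [Nat.card_Ico, Nat.cast_sub hmk]
      linarith

/-- the good event has probability close to one -/
theorem lev_prob (hd : 2 ≤ d) (hβ : IsBeta d β) {c : ℝ → ℂ} (hc : AETyp d β c) {ε : ℝ} (hε : 0 < ε) (δ : ℝ) (l : ℤ) :
    Tendsto (fun k : ℕ => Pm {θ | ¬ Lev d c ε k (ml δ l k) θ}) atTop (𝓝 0) := by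
  have h1 := (hm_prob hd hβ hc hε).comp (ml_tendsto δ l)
  have h2 := (upper_prob hd hβ hc hε).comp (ml_tendsto δ l)
  have h3 := inc_prob hd hβ hc hε δ l
  have h4 := (h1.add h2).add h3
  rw [add_zero, add_zero] at h4
  apply tendsto_of_tendsto_of_tendsto_of_le_of_le tendsto_const_nhds h4
  · intro k
    exact zero_le
  · intro k
    refine le_trans (measure_mono_ae ?_) ((measure_union_le _ _).trans (add_le_add (measure_union_le _ _) le_rfl))
    filter_upwards [hc] with θ hθ hbad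
    obtain ⟨A', R, hT⟩ := hθ
    have hM : MM d (c θ) (ml δ l k + 1) ≠ 0 := MM_ne_zero hd _ _ (fun j _ => hT.P_ne j)
    by_cases g1 : 1 / (64 * (d : ℝ) ^ (ml δ l k)) ≤ (Pm {t | ‖c t - c θ‖ <
      Real.exp (ε * √((ml δ l k : ℕ) : ℝ)) / ‖MM d (c θ) (ml δ l k + 1)‖}).toReal
    swap
    · exact Or.inl (Or.inl g1)
    by_cases g2 : (Pm {t | ‖c t - c θ‖ ≤
      Real.exp (-(ε * √((ml δ l k : ℕ) : ℝ))) / ‖MM d (c θ) (ml δ l k + 1)‖}).toReal ≤
      Real.exp (ε * √((ml δ l k : ℕ) : ℝ)) / (d : ℝ) ^ (ml δ l k)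
    swap
    · exact Or.inl (Or.inr g2)
    right
    intro g3
    apply hbad
    refine ⟨hM, g1.trans ?_, g2, g3⟩
    apply ENNReal.toReal_mono (measure_ne_top _ _)
    apply measure_mono
    intro t ht
    have ht' : ‖c t - c θ‖ < Real.exp (ε * √((ml δ l k : ℕ) : ℝ)) / ‖MM d (c θ) (ml δ l k + 1)‖ := ht
    exact ht'.le

/-- **the harmonic measure of a disc of fixed radius** -/
theorem dens_prob (hd : 2 ≤ d) (hβ : IsBeta d β) {c : ℝ → ℂ} (hc : AETyp d β c) {κ η : ℝ} (hκ : 0 < κ) (hη : 0 < η) :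
    ∀ᶠ k : ℕ in atTop, ∀ r : ℝ, 0 < r → Real.log r ≤ -(k * Real.log d) → -((k + 1) * Real.log d) ≤ Real.log r →
      (Pm {θ | κ * √(k : ℝ) < |Real.log (hmr c θ r) - (Xn d c k θ * √(k : ℝ) - k * Real.log d)|}).toReal ≤ η := by
  have hld := logd_pos hd
  obtain ⟨C2, hC2, htight⟩ := xn_tight hd hβ
  set ε : ℝ := κ / 12 with hε
  set δ : ℝ := κ / (2 * Real.log d) with hδ
  have hε0 : 0 < ε := by positivity
  have hδ0 : 0 < δ := by positivity
  obtain ⟨A, hA0, hA⟩ : ∃ A : ℝ, 0 < A ∧ C2 / A ^ 2 ≤ η / 2 := by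
    refine ⟨√(2 * C2 / η), by positivity, ?_⟩
    rw [Real.sq_sqrt (by positivity)]
    apply le_of_eq
    field_simp
  obtain ⟨L, hL⟩ := exists_nat_ge ((A + 3 * ε) / (δ * Real.log d) + 1)
  have hbad : Tendsto (fun k : ℕ => ∑ l ∈ Finset.Icc (-(L : ℤ)) L, Pm {θ | ¬ Lev d c ε k (ml δ l k) θ}) atTop (𝓝 0) := by
    have h1 := tendsto_finsetSum (Finset.Icc (-(L : ℤ)) L) (fun l _ => lev_prob hd hβ hc hε0 δ l)
    rw [Finset.sum_const_zero] at h1
    exact h1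
  have hbad' := hbad.eventually_le_const (u := ENNReal.ofReal (η / 2)) (ENNReal.ofReal_pos.2 (by positivity))
  filter_upwards [hbad', eventually_ge_atTop 1, ev_small_sqrt ((L : ℝ) * δ) 1, ev_sqrt2 hε0 (4 * Real.log d),
    ev_sqrt2 hε0 (Real.log 64)] with k g1 hk g2 g3 g4
  intro r hr0 hr1 hr2
  have hk0 : (0 : ℝ) < k := by exact_mod_cast hk
  have hsub : {θ | κ * √(k : ℝ) < |Real.log (hmr c θ r) - (Xn d c k θ * √(k : ℝ) - k * Real.log d)|} ⊆
      {θ | A < |Xn d c k θ|} ∪ ⋃ l ∈ Finset.Icc (-(L : ℤ)) L, {θ | ¬ Lev d c ε k (ml δ l k) θ} := by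
    intro θ hθ
    by_contra hcon
    rw [mem_union, not_or, mem_iUnion₂, not_exists] at hcon
    obtain ⟨h1, h2⟩ := hcon
    have h1' : |Xn d c k θ| ≤ A := not_lt.1 h1
    have h2' : ∀ l : ℤ, -(L : ℤ) ≤ l → l ≤ L → Lev d c ε k (ml δ l k) θ := by
      intro l hl1 hl2
      by_contra h3
      exact h2 l ⟨Finset.mem_Icc.2 ⟨hl1, hl2⟩, h3⟩
    have h3 := dens_det hd hε0 hδ0 hk rfl rfl h1' hL (by linarith) g3.le g4.le h2' hr0 hr1 hr2
    have h4 : (6 * ε + δ * Real.log d) * √(k : ℝ) = κ * √(k : ℝ) := by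
      rw [hε, hδ]
      field_simp
      ring
    rw [h4] at h3
    have hθ' : κ * √(k : ℝ) < |Real.log (hmr c θ r) - (Xn d c k θ * √(k : ℝ) - k * Real.log d)| := hθ
    linarith
  have h5 : Pm {θ | κ * √(k : ℝ) < |Real.log (hmr c θ r) - (Xn d c k θ * √(k : ℝ) - k * Real.log d)|} ≤
      ENNReal.ofReal η := by
    refine (measure_mono hsub).trans ((measure_union_le _ _).trans ?_)
    calc Pm {θ | A < |Xn d c k θ|} + Pm (⋃ l ∈ Finset.Icc (-(L : ℤ)) L, {θ | ¬ Lev d c ε k (ml δ l k) θ})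
        ≤ ENNReal.ofReal (η / 2) + ENNReal.ofReal (η / 2) := by
          refine add_le_add ((htight c hc A hA0 k hk).trans (ENNReal.ofReal_le_ofReal hA)) ?_
          exact (measure_biUnion_finset_le _ _).trans g1
      _ = ENNReal.ofReal η := by
          rw [← ENNReal.ofReal_add (by positivity) (by positivity)]
          congr 1
          ring
  exact ENNReal.toReal_le_of_le_ofReal hη.le h5

end Pool.Agent.H439.MC
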