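import Mathlib
import Pool.Agent.H439.MC.Hmu4

/-!
# The central limit theorem for the harmonic measure of discs: conclusion
-/

set_option autoImplicit false

namespace Pool.Agent.H439.MC

open Complex Set Topology Filter Metric MeasureTheory N62a1eb23 Pool.Agent.H712R2
  Pool.Agent.H713R2 Pool.Agent.TH653.MB ProbabilityTheory BoundedContinuousFunction
open Pool.Agent.Y272.TY (Typ cc rl MM mm rl_pos rl_lt MM_ne_zero log_MM mm_eq one_sub_rl_pos
  rl_ge_half one_sub_exp_ge)
open Pool.Agent.W677.Mar (pt)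
open scoped ENNReal

variable {d : ℕ} {β : ℂ → ℂ}

/-- the level of a radius -/
noncomputable def kr (d : ℕ) (r : ℝ) : ℕ := ⌊Real.log (1 / r) / Real.log d⌋₊

/-- the normalised logarithm of the harmonic measure of a disc -/
noncomputable def Dn (c : ℝ → ℂ) (r θ : ℝ) : ℝ :=
  (Real.log (hmr c θ r) - Real.log r) / √(Real.log (1 / r))

theorem kr_bounds (hd : 2 ≤ d) {r : ℝ} (hr0 : 0 < r) (hr1 : r < 1) :
    Real.log r ≤ -(kr d r * Real.log d) ∧ -((kr d r + 1) * Real.log d) ≤ Real.log r := by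
  have hld := logd_pos hd
  have h1 : Real.log (1 / r) = -Real.log r := by rw [one_div, Real.log_inv]
  have h2 : 0 ≤ Real.log (1 / r) / Real.log d := by
    rw [h1]
    have := Real.log_neg hr0 hr1
    have h3 : 0 ≤ -Real.log r := by linarith
    positivity
  have h3 := Nat.floor_le h2
  have h4 := Nat.lt_floor_add_one (Real.log (1 / r) / Real.log d)
  change (kr d r : ℝ) ≤ _ at h3
  change Real.log (1 / r) / Real.log d < (kr d r : ℝ) + 1 at h4
  rw [le_div_iff₀ hld, h1] at h3
  rw [div_lt_iff₀ hld, h1] at h4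
  constructor <;> linarith

theorem kr_tendsto (hd : 2 ≤ d) : Tendsto (kr d) (𝓝[>] 0) atTop := by
  have hld := logd_pos hd
  have h1 : Tendsto (fun r : ℝ => Real.log (1 / r)) (𝓝[>] 0) atTop := by
    have h2 := Real.tendsto_log_atTop.comp (tendsto_inv_nhdsGT_zero (𝕜 := ℝ))
    refine h2.congr fun r => ?_
    simp only [Function.comp_apply, one_div]
  exact tendsto_nat_floor_atTop.comp (h1.atTop_div_const hld)

/-- the normalised logarithm of the harmonic measure is close to the one of the derivative -/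
theorem norm_prob (hd : 2 ≤ d) (hβ : IsBeta d β) {c : ℝ → ℂ} (hc : AETyp d β c) {κ η : ℝ} (hκ : 0 < κ) (hη : 0 < η) :
    ∀ᶠ k : ℕ in atTop, ∀ r : ℝ, 0 < r → r < 1 → kr d r = k →
      (Pm {θ | κ < |√(Real.log d) * Dn c r θ - Xn d c k θ|}).toReal ≤ η := by
  have hld := logd_pos hd
  obtain ⟨C2, hC2, htight⟩ := xn_tight hd hβ
  obtain ⟨A, hA0, hA⟩ : ∃ A : ℝ, 0 < A ∧ C2 / A ^ 2 ≤ η / 2 := by
    refine ⟨√(2 * C2 / η), by positivity, ?_⟩
    rw [Real.sq_sqrt (by positivity)]
    apply le_of_eq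
    field_simp
  filter_upwards [dens_prob hd hβ hc (half_pos hκ) (half_pos hη), eventually_ge_atTop 1,
    ev_sqrt2 (show 0 < κ / 4 by positivity) (Real.log d), ev_sqrt2 (show 0 < κ / 4 by positivity) A] with k g1 hk g2 g3
  intro r hr0 hr1 hkr
  obtain ⟨b1, b2⟩ := kr_bounds hd hr0 hr1
  rw [hkr] at b1 b2
  have hk0 : (0 : ℝ) < k := by exact_mod_cast hk
  have hk1 : (1 : ℝ) ≤ k := by exact_mod_cast hk
  have g4 := g1 r hr0 b1 b2
  obtain ⟨q, hq⟩ : ∃ q, q = √(k : ℝ) := ⟨_, rfl⟩
  rw [← hq] at g2 g3 g4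
  have hq0 : 0 < q := by rw [hq]; exact Real.sqrt_pos.2 hk0
  have hqq : q * q = k := by rw [hq]; exact Real.mul_self_sqrt hk0.le
  have hq1 : 1 ≤ q := by nlinarith
  have hT : Real.log (1 / r) = -Real.log r := by rw [one_div, Real.log_inv]
  obtain ⟨a, ha⟩ : ∃ a, a = √(Real.log d) * q := ⟨_, rfl⟩
  have hsd : 0 < √(Real.log d) := Real.sqrt_pos.2 hld
  have hsdd : √(Real.log d) * √(Real.log d) = Real.log d := Real.mul_self_sqrt hld.le
  have ha0 : 0 < a := by rw [ha]; positivity
  have haa : a * a = k * Real.log d := by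
    rw [ha]
    calc √(Real.log d) * q * (√(Real.log d) * q) = (√(Real.log d) * √(Real.log d)) * (q * q) := by ring
      _ = k * Real.log d := by rw [hsdd, hqq]; ring
  obtain ⟨b, hb⟩ : ∃ b, b = √(Real.log (1 / r)) := ⟨_, rfl⟩
  have hab : a ≤ b := by
    rw [hb]
    apply Real.le_sqrt_of_sq_le
    rw [hT, sq, haa]
    linarith
  have hb0 : 0 < b := lt_of_lt_of_le ha0 hab
  have hba : b ≤ a * (1 + 1 / k) := by
    rw [hb]
    apply Real.sqrt_le_iff.2
    refine ⟨by positivity, ?_⟩
    rw [hT]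
    have e1 : (a * (1 + 1 / k)) ^ 2 = (a * a) * (1 + 1 / k) ^ 2 := by ring
    rw [e1, haa]
    have e2 : (k : ℝ) * Real.log d * (1 + 1 / k) ^ 2 = (k + 2 + 1 / k) * Real.log d := by
      field_simp
      ring
    rw [e2]
    have : 0 < 1 / (k : ℝ) := by positivity
    nlinarith
  have hsub : {θ | κ < |√(Real.log d) * Dn c r θ - Xn d c k θ|} ⊆
      {θ | κ / 2 * q < |Real.log (hmr c θ r) - (Xn d c k θ * q - k * Real.log d)|} ∪ {θ | A < |Xn d c k θ|} := by
    intro θ hθ
    by_contra hcon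
    rw [mem_union, not_or] at hcon
    obtain ⟨h1, h2⟩ := hcon
    have h1' : |Real.log (hmr c θ r) - (Xn d c k θ * q - k * Real.log d)| ≤ κ / 2 * q := not_lt.1 h1
    have h2' : |Xn d c k θ| ≤ A := not_lt.1 h2
    have hθ' : κ < |√(Real.log d) * Dn c r θ - Xn d c k θ| := hθ
    set X := Xn d c k θ with hX
    set N := Real.log (hmr c θ r) - Real.log r with hN
    have hDn : Dn c r θ = N / b := by rw [hb]; rfl
    have h3 : |N - X * q| ≤ κ / 2 * q + Real.log d := by
      have e1 : N - X * q = (Real.log (hmr c θ r) - (X * q - k * Real.log d)) + (-Real.log r - k * Real.log d) := by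
        rw [hN]; ring
      rw [e1]
      refine (abs_add_le _ _).trans (add_le_add h1' ?_)
      rw [abs_le]
      constructor <;> linarith
    have e2 : √(Real.log d) * Dn c r θ - X = √(Real.log d) * (N - X * q) / b + X * (a / b - 1) := by
      rw [hDn, ha]
      field_simp
      ring
    have h4 : |√(Real.log d) * (N - X * q) / b| ≤ κ / 2 + Real.log d / q := by
      rw [abs_div, abs_mul, abs_of_pos hsd, abs_of_pos hb0, div_le_iff₀ hb0]
      have e3 : κ / 2 * q + Real.log d = (κ / 2 + Real.log d / q) * q := by field_simp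
      calc √(Real.log d) * |N - X * q| ≤ √(Real.log d) * ((κ / 2 + Real.log d / q) * q) := by
            rw [← e3]
            gcongr
        _ = (κ / 2 + Real.log d / q) * a := by rw [ha]; ring
        _ ≤ (κ / 2 + Real.log d / q) * b := by gcongr
    have h5 : |a / b - 1| ≤ 1 / k := by
      have e3 : a / b - 1 = -((b - a) / b) := by field_simp; ring
      rw [e3, abs_neg, abs_of_nonneg (div_nonneg (by linarith) hb0.le), div_le_iff₀ hb0]
      have h6 : b - a ≤ 1 / k * a := by linarith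
      calc b - a ≤ 1 / k * a := h6
        _ ≤ 1 / k * b := by gcongr
    have h6 : |X * (a / b - 1)| ≤ A * (1 / k) := by
      rw [abs_mul]
      exact mul_le_mul h2' h5 (abs_nonneg _) hA0.le
    have h7 : Real.log d / q ≤ κ / 4 := by
      rw [div_le_iff₀ hq0]
      exact g2.le
    have h8 : A * (1 / k) ≤ κ / 4 := by
      rw [mul_one_div, div_le_iff₀ hk0]
      have : κ / 4 * q ≤ κ / 4 * k := by
        gcongr
        rw [← hqq]
        nlinarith
      linarith
    have h9 := abs_add_le (√(Real.log d) * (N - X * q) / b) (X * (a / b - 1))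
    rw [← e2] at h9
    linarith
  have h1 : Pm {θ | κ < |√(Real.log d) * Dn c r θ - Xn d c k θ|} ≤ ENNReal.ofReal η := by
    refine (measure_mono hsub).trans ((measure_union_le _ _).trans ?_)
    calc Pm {θ | κ / 2 * q < |Real.log (hmr c θ r) - (Xn d c k θ * q - k * Real.log d)|} + Pm {θ | A < |Xn d c k θ|}
        ≤ ENNReal.ofReal (η / 2) + ENNReal.ofReal (η / 2) := by
          refine add_le_add ?_ ((htight c hc A hA0 k hk).trans (ENNReal.ofReal_le_ofReal hA))
          rw [← ENNReal.ofReal_toReal (measure_ne_top Pm _)]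
          exact ENNReal.ofReal_le_ofReal g4
      _ = ENNReal.ofReal η := by
          rw [← ENNReal.ofReal_add (by positivity) (by positivity)]
          congr 1
          ring
  exact ENNReal.toReal_le_of_le_ofReal hη.le h1

theorem mean_min_le {Y : ℝ → ℝ} (hY : AEMeasurable Y Pm) {κ : ℝ} (hκ : 0 ≤ κ) :
    ∫ θ, min 1 |Y θ| ∂Pm ≤ κ + (Pm {θ | κ < |Y θ|}).toReal := by
  have hm : NullMeasurableSet {θ | κ < |Y θ|} Pm := nullMeasurableSet_lt aemeasurable_const hY.abs
  have h1 : ∀ θ, min 1 |Y θ| ≤ κ + ({θ | κ < |Y θ|}).indicator (fun _ => (1 : ℝ)) θ := by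
    intro θ
    by_cases h : θ ∈ {θ | κ < |Y θ|}
    · rw [Set.indicator_of_mem h]
      exact (min_le_left _ _).trans (by linarith)
    · rw [Set.indicator_of_notMem h, add_zero]
      exact (min_le_right _ _).trans (not_lt.1 h)
  have i1 : Integrable (fun θ => min 1 |Y θ|) Pm := by
    apply Integrable.of_bound (aemeasurable_const.min hY.abs).aestronglyMeasurable 1
    refine Eventually.of_forall fun θ => ?_
    rw [Real.norm_of_nonneg (le_min zero_le_one (abs_nonneg _))]
    exact min_le_left _ _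
  have i2 : Integrable (({θ | κ < |Y θ|}).indicator (fun _ => (1 : ℝ))) Pm :=
    (integrable_const (1 : ℝ)).indicator₀ hm
  calc ∫ θ, min 1 |Y θ| ∂Pm ≤ ∫ θ, (κ + ({θ | κ < |Y θ|}).indicator (fun _ => (1 : ℝ)) θ) ∂Pm :=
        integral_mono i1 ((integrable_const κ).add i2) h1
    _ = κ + (Pm {θ | κ < |Y θ|}).toReal := by
        rw [integral_add (integrable_const κ) i2, integral_indicator₀ hm]
        simp [Measure.real]

theorem Dn_meas {c : ℝ → ℂ} (hcm : AEMeasurable c Pm) (r : ℝ) : AEMeasurable (Dn c r) Pm := by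
  have h1 : ∀ θ, hmr c θ r = ((Pm.map c) (closedBall (c θ) r)).toReal := by
    intro θ
    unfold hmr
    rw [Measure.map_apply_of_aemeasurable hcm isClosed_closedBall.measurableSet]
    congr 2
    ext t
    rw [mem_preimage, mem_closedBall, dist_eq_norm]
    rfl
  have h2 : Measurable fun x : ℂ => ((Pm.map c) (closedBall x r)).toReal :=
    (meas_ball_meas (Pm.map c) r).ennreal_toReal
  have h3 : AEMeasurable (fun θ => hmr c θ r) Pm := by
    have : (fun θ => hmr c θ r) = (fun x : ℂ => ((Pm.map c) (closedBall x r)).toReal) ∘ c := by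
      funext θ
      exact h1 θ
    rw [this]
    exact h2.comp_aemeasurable hcm
  unfold Dn
  exact ((Real.measurable_log.comp_aemeasurable h3).sub_const _).div_const _

/-- **the central limit theorem for the harmonic measure of discs** -/
theorem clt_dens (hd : 2 ≤ d) (hβ : IsBeta d β) {s : ℝ → ℝ} (hclt : CLT d β s) {c : ℝ → ℂ} (hc : AETyp d β c)
    {φ : ℝ → ℝ} (hφ : Integrable φ Pm) (f : ℝ →ᵇ ℝ) :
    Tendsto (fun r => ∫ θ, φ θ * f (Dn c r θ) ∂Pm) (𝓝[>] 0)
      (𝓝 (∫ θ, φ θ * ∫ x, f (s θ / √(Real.log d) * x) ∂(gaussianReal 0 1) ∂Pm)) := by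
  have hld := logd_pos hd
  have hcm := c_meas hβ hc
  have hsd : 0 < √(Real.log d) := Real.sqrt_pos.2 hld
  apply tendsto_of_subseq_tendsto
  intro ns hns
  have hns0 : ∀ᶠ i in atTop, 0 < ns i ∧ ns i < 1 := by
    have h1 : ∀ᶠ r : ℝ in 𝓝[>] 0, 0 < r ∧ r < 1 := by
      filter_upwards [self_mem_nhdsWithin, nhdsWithin_le_nhds (gt_mem_nhds (one_pos : (0 : ℝ) < 1))] with r h1 h2
      exact ⟨h1, h2⟩
    exact hns.eventually h1
  obtain ⟨i0, hi0⟩ := eventually_atTop.1 hns0
  have hns' : Tendsto (fun i => kr d (ns (i + i0))) atTop atTop :=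
    ((kr_tendsto hd).comp hns).comp (tendsto_add_atTop_nat i0)
  obtain ⟨ms, hms, hmono⟩ := strictMono_subseq_of_tendsto_atTop hns'
  refine ⟨fun i => ms i + i0, ?_⟩
  set a : ℕ → ℕ := fun i => kr d (ns (ms i + i0)) with ha
  have hainj : Function.Injective a := hmono.injective
  set X : ℕ → ℝ → ℝ := Function.extend a (fun i θ => √(Real.log d) * Dn c (ns (ms i + i0)) θ) (Xn d c) with hX
  have hX1 : ∀ i, X (a i) = fun θ => √(Real.log d) * Dn c (ns (ms i + i0)) θ := fun i => hainj.extend_apply _ _ _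
  have hX2 : ∀ n, (¬ ∃ i, a i = n) → X n = Xn d c n := fun n hn => Function.extend_apply' _ _ _ hn
  have hXm : ∀ n, AEMeasurable (X n) Pm := by
    intro n
    by_cases hn : ∃ i, a i = n
    · obtain ⟨i, rfl⟩ := hn
      rw [hX1]
      exact (Dn_meas hcm _).const_mul _
    · rw [hX2 n hn]
      exact Xn_meas hβ hc n
  have hclose : Tendsto (fun n => ∫ θ, min 1 |X n θ - Xn d c n θ| ∂Pm) atTop (𝓝 0) := by
    rw [Metric.tendsto_atTop]
    intro η hη
    obtain ⟨K, hK⟩ := eventually_atTop.1 (norm_prob hd hβ hc (show 0 < η / 4 by positivity) (show 0 < η / 4 by positivity))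
    refine ⟨K, fun n hn => ?_⟩
    rw [Real.dist_eq, sub_zero, abs_of_nonneg (integral_nonneg fun θ => le_min zero_le_one (abs_nonneg _))]
    by_cases hin : ∃ i, a i = n
    · obtain ⟨i, hi⟩ := hin
      have h1 := hi0 (ms i + i0) (by omega)
      have h2 := hK n hn (ns (ms i + i0)) h1.1 h1.2 hi
      have h3 := mean_min_le (Y := fun θ => X n θ - Xn d c n θ) ((hXm n).sub (Xn_meas hβ hc n)) (show 0 ≤ η / 4 by positivity)
      have h4 : X n = fun θ => √(Real.log d) * Dn c (ns (ms i + i0)) θ := by rw [← hi]; exact hX1 i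
      rw [h4] at h3 ⊢
      linarith
    · have h1 : ∀ θ, X n θ - Xn d c n θ = 0 := fun θ => by rw [hX2 n hin, sub_self]
      simp only [h1, abs_zero]
      rw [min_eq_right zero_le_one, integral_zero]
      exact hη
  set g : ℝ →ᵇ ℝ := f.compContinuous ⟨fun x => x / √(Real.log d), by fun_prop⟩ with hg
  have hgx : ∀ x, g x = f (x / √(Real.log d)) := fun x => rfl
  have h1 := (hclt c hc X hXm hclose φ hφ g).comp hmono.tendsto_atTop
  have e1 : (fun θ => φ θ * ∫ x, g (s θ * x) ∂(gaussianReal 0 1)) =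
      fun θ => φ θ * ∫ x, f (s θ / √(Real.log d) * x) ∂(gaussianReal 0 1) := by
    funext θ
    congr 1
    apply integral_congr_ae
    refine Eventually.of_forall fun x => ?_
    change g (s θ * x) = f (s θ / √(Real.log d) * x)
    rw [hgx]
    congr 1
    ring
  rw [e1] at h1
  refine h1.congr fun i => ?_
  change ∫ θ, φ θ * g (X (a i) θ) ∂Pm = ∫ θ, φ θ * f (Dn c (ns (ms i + i0)) θ) ∂Pm
  rw [hX1]
  apply integral_congr_ae
  refine Eventually.of_forall fun θ => ?_
  change φ θ * g (√(Real.log d) * Dn c (ns (ms i + i0)) θ) = φ θ * f (Dn c (ns (ms i + i0)) θ)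
  rw [hgx, mul_div_cancel_left₀ _ hsd.ne']

end Pool.Agent.H439.MC
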