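import Mathlib
import Pool.Agent.H439.MC.Hmu5

/-!
# Fluctuations of harmonic measure: final form
-/

set_option autoImplicit false

namespace Pool.Agent.H439.MC

open Complex Set Topology Filter Metric MeasureTheory N62a1eb23 Pool.Agent.H712R2
  Pool.Agent.H713R2 Pool.Agent.TH653.MB ProbabilityTheory BoundedContinuousFunction
open Pool.Agent.Y272.TY (Typ cc rl MM mm rl_pos rl_lt MM_ne_zero log_MM mm_eq one_sub_rl_pos
  rl_ge_half one_sub_exp_ge)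
open Pool.Agent.W677.Mar (pt)
open scoped ENNReal

variable {d : ℕ} {β : ℂ → ℂ}

/-- discs of small harmonic measure -/
theorem osc_hm2 (hd : 2 ≤ d) (hβ : IsBeta d β) {s : ℝ → ℝ} (hs : Measurable s) (hclt : CLT d β s) {c : ℝ → ℂ}
    (hc : AETyp d β c) : ∀ᵐ θ ∂Pm, 0 < s θ → ∀ j : ℕ, ∃ᶠ n : ℕ in atTop,
    hmr c θ (Real.exp (j * √(n : ℝ)) / (d : ℝ) ^ n) ≤ Real.exp (√(n : ℝ)) / (d : ℝ) ^ n := by
  have hd0 : (0 : ℝ) < d := by exact_mod_cast (by omega : 0 < d)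
  have h1 : ∀ j : ℕ, ∀ᵐ θ ∂Pm, 0 < s θ → ∃ᶠ n : ℕ in atTop,
      0 < nramp ((j : ℝ) + 1) (Xn d c n θ) ∧ ((Pm {t | ‖c t - c θ‖ ≤
      Real.exp (-(1 * √(n : ℝ))) / ‖MM d (c θ) (n + 1)‖}).toReal ≤ Real.exp (1 * √(n : ℝ)) / (d : ℝ) ^ n) := fun j =>
    osc_good (x₀ := -((j : ℝ) + 2)) (G := fun n θ => ((Pm {t | ‖c t - c θ‖ ≤
      Real.exp (-(1 * √(n : ℝ))) / ‖MM d (c θ) (n + 1)‖}).toReal ≤ Real.exp (1 * √(n : ℝ)) / (d : ℝ) ^ n))
      hβ hs hclt hc (fun x => by rw [nramp_apply]; exact ramp_nonneg _ _)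
      (by rw [nramp_apply, neg_neg]; exact ramp_pos (by linarith : (j : ℝ) + 1 < (j : ℝ) + 2))
      (upper_prob hd hβ hc one_pos)
  filter_upwards [ae_all_iff.2 h1, hc] with θ hθ hT hpos j
  obtain ⟨A0, R0, hT⟩ := hT
  refine ((hθ j hpos).and_eventually (eventually_ge_atTop 1)).mono ?_
  rintro n ⟨⟨g1, g2⟩, hn⟩
  rw [nramp_apply] at g1
  have g3 := ramp_imp g1
  have hq : 0 < √(n : ℝ) := Real.sqrt_pos.2 (by exact_mod_cast hn)
  unfold Xn at g3
  rw [← neg_div, lt_div_iff₀ hq] at g3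
  have hM : 0 < ‖MM d (c θ) (n + 1)‖ := norm_pos_iff.2 (MM_ne_zero hd _ n (fun j _ => hT.P_ne j))
  have edk : (d : ℝ) ^ n = Real.exp (n * Real.log d) := by rw [Real.exp_nat_mul, Real.exp_log hd0]
  have h2 : Real.exp (j * √(n : ℝ)) / (d : ℝ) ^ n ≤ Real.exp (-(1 * √(n : ℝ))) / ‖MM d (c θ) (n + 1)‖ := by
    rw [edk, ← Real.exp_log hM, ← Real.exp_sub, ← Real.exp_sub]
    apply Real.exp_le_exp.2
    linarith
  exact (hmr_mono θ h2).trans (g2.trans (le_of_eq (by rw [one_mul])))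

/-- from the levels to the radii -/
theorem small_freq (hd : 2 ≤ d) {c : ℝ → ℂ} {θ : ℝ} (h : ∀ j : ℕ, ∃ᶠ n : ℕ in atTop,
    hmr c θ (Real.exp (j * √(n : ℝ)) / (d : ℝ) ^ n) ≤ Real.exp (√(n : ℝ)) / (d : ℝ) ^ n) (A : ℝ) :
    ∃ᶠ r : ℝ in 𝓝[>] 0, hmr c θ r ≤ r * Real.exp (-(A * √(Real.log (1 / r)))) := by
  have hd0 : (0 : ℝ) < d := by exact_mod_cast (by omega : 0 < d)
  have hld := logd_pos hd
  obtain ⟨j, hj⟩ := exists_nat_ge (|A| * √(Real.log d) + 1)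
  have edk : ∀ n : ℕ, (d : ℝ) ^ n = Real.exp (n * Real.log d) := fun n => by
    rw [Real.exp_nat_mul, Real.exp_log hd0]
  have hr : Tendsto (fun n : ℕ => Real.exp (j * √(n : ℝ)) / (d : ℝ) ^ n) atTop (𝓝[>] 0) := by
    apply tendsto_nhdsWithin_of_tendsto_nhds_of_eventually_within
    · have h1 : Tendsto (fun n : ℕ => Real.exp (-((1 / 8 : ℝ) * n))) atTop (𝓝 0) :=
        Real.tendsto_exp_neg_atTop_nhds_zero.comp (tendsto_natCast_atTop_atTop.const_mul_atTop (by norm_num))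
      refine squeeze_zero' (Eventually.of_forall fun n => by positivity) ?_ h1
      filter_upwards [ev_small_sqrt (j : ℝ) 0] with n hn
      rw [edk, ← Real.exp_sub]
      apply Real.exp_le_exp.2
      have h2 : Real.log 2 ≤ Real.log d := Real.log_le_log (by norm_num) (by exact_mod_cast hd)
      have h3 := Real.log_two_gt_d9
      have h4 : (0 : ℝ) ≤ n := Nat.cast_nonneg n
      have h5 : (5 / 8 : ℝ) * n ≤ Real.log d * n := by
        gcongr
        linarith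
      linarith
    · refine Eventually.of_forall fun n => ?_
      rw [mem_Ioi]
      positivity
  apply hr.frequently
  refine (h j).mono ?_
  intro n hn
  refine hn.trans ?_
  obtain ⟨r, hr⟩ : ∃ r : ℝ, r = Real.exp (j * √(n : ℝ)) / (d : ℝ) ^ n := ⟨_, rfl⟩
  have hr' : r = Real.exp (j * √(n : ℝ) - n * Real.log d) := by rw [hr, edk, ← Real.exp_sub]
  rw [← hr]
  have h1 : √(Real.log (1 / r)) ≤ √(Real.log d) * √(n : ℝ) := by
    have h2 : Real.log (1 / r) ≤ Real.log d * n := by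
      rw [one_div, Real.log_inv, hr', Real.log_exp]
      have : 0 ≤ (j : ℝ) * √(n : ℝ) := by positivity
      linarith
    calc √(Real.log (1 / r)) ≤ √(Real.log d * n) := Real.sqrt_le_sqrt h2
      _ = _ := Real.sqrt_mul hld.le _
  have h2 : A * √(Real.log (1 / r)) ≤ (j - 1) * √(n : ℝ) := by
    calc A * √(Real.log (1 / r)) ≤ |A| * √(Real.log (1 / r)) := by
          gcongr
          exact le_abs_self A
      _ ≤ |A| * (√(Real.log d) * √(n : ℝ)) := by gcongr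
      _ = (|A| * √(Real.log d)) * √(n : ℝ) := by ring
      _ ≤ (j - 1) * √(n : ℝ) := by
        gcongr
        linarith
  rw [edk, ← Real.exp_sub, hr', ← Real.exp_add]
  apply Real.exp_le_exp.2
  rw [← hr']
  linarith

/-- the normalised harmonic measure of the disc of centre `x` and radius `r` -/
noncomputable def harm (c : ℝ → ℂ) (x : ℂ) (r : ℝ) : ℝ :=
  (2 * Real.pi)⁻¹ * volume.real {t ∈ Ioc 0 (2 * Real.pi) | ‖c t - x‖ ≤ r}

theorem harm_eq (c : ℝ → ℂ) (x : ℂ) (r : ℝ) :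
    (Pm {θ | ‖c (2 * Real.pi - θ) - x‖ ≤ r}).toReal = harm c x r := by
  have e1 : {θ | ‖c (2 * Real.pi - θ) - x‖ ≤ r} = {θ | 2 * Real.pi - θ ∈ {t | ‖c t - x‖ ≤ r}} := rfl
  have hpi := two_pi_pos'
  rw [e1, Pm_refl, ENNReal.toReal_mul, ENNReal.toReal_inv, ENNReal.toReal_ofReal hpi.le]
  rfl

theorem hmr_refl (c : ℝ → ℂ) (θ r : ℝ) :
    hmr (fun θ => c (2 * Real.pi - θ)) θ r = harm c (c (2 * Real.pi - θ)) r := harm_eq c _ r

theorem hmeas_toReal (hd : 2 ≤ d) (hβ : IsBeta d β) {ψ : ℂ → ℂ} (hψ : IsExteriorMap (multibrotSet d) ψ)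
    {c : ℝ → ℂ} (hc : LandsAt ψ c) (x : ℂ) (r : ℝ) : (hmeas c (closedBall x r)).toReal = harm c x r := by
  rw [hmeas_ball hd hβ hψ hc, harm_eq]

theorem ae_reflect {P : ℝ → Prop} (h : ∀ᵐ θ ∂Pm, P (2 * Real.pi - θ)) :
    ∀ᵐ θ : ℝ, θ ∈ Ioc 0 (2 * Real.pi) → P θ := by
  rw [ae_iff] at h ⊢
  have h1 : {θ | ¬ P (2 * Real.pi - θ)} = {θ | 2 * Real.pi - θ ∈ {t | ¬ P t}} := rfl
  rw [h1, Pm_refl] at h
  have h2 : volume (Ioc 0 (2 * Real.pi) ∩ {t | ¬ P t}) = 0 := by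
    rcases mul_eq_zero.1 h with h3 | h3
    · exact absurd h3 (ENNReal.inv_ne_zero.2 ENNReal.ofReal_ne_top)
    · exact h3
  refine measure_mono_null ?_ h2
  intro t ht
  have ht' : ¬ (t ∈ Ioc 0 (2 * Real.pi) → P t) := ht
  rw [Classical.not_imp] at ht'
  exact ht'

/-- **fluctuations of harmonic measure** -/
theorem hm_final (hd : 2 ≤ d) (hβ : IsBeta d β) :
    ∃ σ : ℝ → ℝ, Measurable σ ∧ (∀ θ, 0 ≤ σ θ) ∧
      IntervalIntegrable (fun θ => σ θ ^ 2) volume 0 (2 * Real.pi) ∧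
      0 < ∫ θ in (0 : ℝ)..2 * Real.pi, σ θ ∧
      ∀ ψ : ℂ → ℂ, IsExteriorMap (multibrotSet d) ψ → ∀ c : ℝ → ℂ, LandsAt ψ c →
      (∀ φ : ℝ → ℝ, IntervalIntegrable φ volume 0 (2 * Real.pi) → ∀ f : ℝ →ᵇ ℝ,
        Tendsto (fun r : ℝ => ∫ θ in (0 : ℝ)..2 * Real.pi,
          φ θ * f ((Real.log (harm c (c θ) r) - Real.log r) / √(Real.log (1 / r)))) (𝓝[>] 0)
          (𝓝 (∫ θ in (0 : ℝ)..2 * Real.pi, φ θ * ∫ x, f (σ θ * x) ∂(gaussianReal 0 1)))) ∧
      (∀ᵐ θ : ℝ, θ ∈ Ioc 0 (2 * Real.pi) → 0 < σ θ → OscAt d ψ c θ ∧ ∀ A : ℝ,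
        (∃ᶠ r : ℝ in 𝓝[>] 0, r * Real.exp (A * √(Real.log (1 / r))) ≤ harm c (c θ) r) ∧
        ∃ᶠ r : ℝ in 𝓝[>] 0, harm c (c θ) r ≤ r * Real.exp (-(A * √(Real.log (1 / r))))) ∧
      (∀ A : ℝ, 0 ≤ A → Measure.mkMetric (gaugeFn A) (HighDens d (hmeas c)) = 0) ∧
      MeasurableSet (HighDens d (hmeas c)) := by
  have hld := logd_pos hd
  have hsd : 0 < √(Real.log d) := Real.sqrt_pos.2 hld
  obtain ⟨s, hs, hs0, hs2, hpos, hclt⟩ := clt_dyn hd hβ
  have hpi := two_pi_pos'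
  have hs2' : MemLp (fun θ => (√(Real.log d))⁻¹ * s θ) 2 Pm := hs2.const_mul _
  refine ⟨fun θ => (√(Real.log d))⁻¹ * s (2 * Real.pi - θ),
    (hs.comp (measurable_const.sub measurable_id)).const_mul _, fun θ => mul_nonneg (by positivity) (hs0 _), ?_, ?_, ?_⟩
  · rw [← integrable_Pm_iff]
    have h1 : Integrable (fun θ => ((√(Real.log d))⁻¹ * s θ) ^ 2) Pm := hs2'.integrable_sq
    have h2 := reflect_int (integrable_Pm_iff.1 h1)
    exact h2
  · have h1 := reflect s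
    have h2 : ∫ θ, s (2 * Real.pi - θ) ∂Pm =
        (2 * Real.pi)⁻¹ * ∫ θ in (0 : ℝ)..2 * Real.pi, s (2 * Real.pi - θ) := by
      rw [integral_Pm, smul_eq_mul]
    rw [h2] at h1
    rw [← h1] at hpos
    have h3 := pos_of_mul_pos_right hpos (by positivity)
    rw [intervalIntegral.integral_const_mul]
    positivity
  intro ψ hψ c hc
  have hT := aetyp_of_lands hd hβ hψ hc
  set c' : ℝ → ℂ := fun θ => c (2 * Real.pi - θ) with hc'
  have e2 : ∀ θ : ℝ, 2 * Real.pi - (2 * Real.pi - θ) = θ := fun θ => by ring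
  refine ⟨?_, ?_, fun A hA => gauge_null hd (hmeas_univ hd hβ hψ hc) hA, dense_meas d _⟩
  · intro φ hφ f
    have e1 : ∀ g : ℝ → ℝ, 2 * Real.pi * ∫ θ, g θ ∂Pm = ∫ θ in (0 : ℝ)..2 * Real.pi, g (2 * Real.pi - θ) := by
      intro g
      rw [← reflect g, integral_Pm, smul_eq_mul]
      field_simp
    have e3 : ∀ r θ, Dn c' r (2 * Real.pi - θ) =
        (Real.log (harm c (c θ) r) - Real.log r) / √(Real.log (1 / r)) := by
      intro r θ
      unfold Dn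
      rw [hc', hmr_refl, e2]
    have h1 := (clt_dens hd hβ hclt hT (reflect_int hφ) f).const_mul (2 * Real.pi)
    simp only [e1, e2, e3] at h1
    have e4 : ∀ θ x : ℝ, s (2 * Real.pi - θ) / √(Real.log d) * x = (√(Real.log d))⁻¹ * s (2 * Real.pi - θ) * x := by
      intro θ x
      ring
    simp only [e4] at h1
    exact h1
  · apply ae_reflect
    filter_upwards [osc_of_clt hd hβ hs hclt hψ hc, osc_hm2 hd hβ hs hclt hT] with θ h1 h2 h3
    have h4 : 0 < s θ := by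
      rw [e2] at h3
      exact pos_of_mul_pos_right h3 (by positivity)
    refine ⟨h1 h4, ?_⟩
    intro A
    constructor
    · have h5 := dens_freq2 hd (h1 h4).2.1.1 A
      refine h5.mono fun r hr => ?_
      rwa [hmeas_toReal hd hβ hψ hc] at hr
    · refine (small_freq hd (h2 h4) A).mono fun r hr => ?_
      rwa [hmr_refl] at hr

end Pool.Agent.H439.MC
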