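import Mathlib
import Pool.Agent.H439.MC.Fin

/-!
# Convergence for test functions of Gaussian growth
-/

set_option autoImplicit false

namespace Pool.Agent.H439.MC

open Complex Set Topology Filter Metric MeasureTheory ProbabilityTheory BoundedContinuousFunction

/-- truncation -/
noncomputable def trc (K : ℝ) (x : ℝ) : ℝ := max (-K) (min K x)

theorem trc_abs {K : ℝ} (hK : 0 < K) (x : ℝ) : |trc K x| ≤ K := by
  unfold trc
  rw [abs_le]
  exact ⟨le_max_left _ _, max_le (by linarith) (min_le_left _ _)⟩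

theorem trc_diff {K : ℝ} (hK : 0 < K) (x : ℝ) : |x - trc K x| ≤ x ^ 2 / K := by
  unfold trc
  rcases le_total x K with h | h
  · rw [min_eq_right h]
    rcases le_total (-K) x with h' | h'
    · rw [max_eq_right h', sub_self, abs_zero]
      positivity
    · rw [max_eq_left h', abs_le, le_div_iff₀ hK, ← neg_le_neg_iff, neg_neg, ← sub_nonneg]
      constructor
      · have : -(x - -K) ≤ x ^ 2 / K := by
          rw [le_div_iff₀ hK]
          nlinarith
        linarith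
      · nlinarith [sq_nonneg x]
  · rw [min_eq_left h, max_eq_right (by linarith), abs_of_nonneg (by linarith), le_div_iff₀ hK]
    nlinarith

theorem trc_cont (K : ℝ) : Continuous (trc K) := by
  unfold trc
  fun_prop

variable {s : ℝ → ℝ} {ι : Type*} {l : Filter ι} {W : ι → ℝ → ℂ}

theorem smul_meas (hs : Measurable s) : Measurable fun p : ℝ × ℂ => s p.1 • p.2 :=
  (hs.comp measurable_fst).smul measurable_snd

/-- bounded functions on the product -/
theorem prod_bdd (hs : Measurable s) {φ : ℝ → ℝ} (hφm : Measurable φ) {Φ : ℝ} (hφ : ∀ θ, |φ θ| ≤ Φ)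
    (f : ℂ →ᵇ ℝ) : Integrable (fun p : ℝ × ℂ => φ p.1 * f (s p.1 • p.2)) (Pm.prod cg) ∧
      ∫ p, φ p.1 * f (s p.1 • p.2) ∂(Pm.prod cg) = ∫ θ, φ θ * ∫ w, f (s θ • w) ∂cg ∂Pm := by
  have h1 : Integrable (fun p : ℝ × ℂ => φ p.1 * f (s p.1 • p.2)) (Pm.prod cg) := by
    apply Integrable.of_bound (C := Φ * ‖f‖)
    · exact ((hφm.comp measurable_fst).mul
        (f.continuous.measurable.comp (smul_meas hs))).aestronglyMeasurable
    · refine Eventually.of_forall fun p => ?_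
      rw [norm_mul, Real.norm_eq_abs]
      have h2 := f.norm_coe_le_norm (s p.1 • p.2)
      have h3 := hφ p.1
      have h4 : 0 ≤ Φ := (abs_nonneg _).trans h3
      gcongr
  refine ⟨h1, ?_⟩
  rw [integral_prod _ h1]
  congr 1
  funext θ
  exact MeasureTheory.integral_const_mul (φ θ) (fun w : ℂ => f (s θ • w))

/-- the exponential moments of the limit -/
theorem exp_lim (hs : Measurable s) [l.NeBot]
    (hlim : ∀ φ : ℝ → ℝ, Integrable φ Pm → ∀ f : ℂ →ᵇ ℝ,
      Tendsto (fun i => ∫ θ, φ θ * f (W i θ) ∂Pm) l (𝓝 (∫ θ, φ θ * ∫ w, f (s θ • w) ∂cg ∂Pm)))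
    {c M : ℝ}
    (hexp : ∀ᶠ i in l, Integrable (fun θ => Real.exp (c * ‖W i θ‖ ^ 2)) Pm ∧
      ∫ θ, Real.exp (c * ‖W i θ‖ ^ 2) ∂Pm ≤ M) (hW : ∀ᶠ i in l, AEMeasurable (W i) Pm) :
    Integrable (fun p : ℝ × ℂ => Real.exp (c * ‖s p.1 • p.2‖ ^ 2)) (Pm.prod cg) ∧
      ∫ p, Real.exp (c * ‖s p.1 • p.2‖ ^ 2) ∂(Pm.prod cg) ≤ M := by
  have hgc : ∀ K : ℕ, Continuous fun w : ℂ => min (Real.exp (c * ‖w‖ ^ 2)) (K : ℝ) := by
    intro K
    fun_prop
  set g : ℕ → ℂ →ᵇ ℝ := fun K => BoundedContinuousFunction.ofNormedAddCommGroup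
    (fun w : ℂ => min (Real.exp (c * ‖w‖ ^ 2)) (K : ℝ)) (hgc K) K (fun w => by
      have h0 : 0 ≤ min (Real.exp (c * ‖w‖ ^ 2)) (K : ℝ) := le_min (Real.exp_pos _).le (Nat.cast_nonneg _)
      rw [Real.norm_of_nonneg h0]
      exact min_le_right _ _) with hg
  have hgv : ∀ K w, g K w = min (Real.exp (c * ‖w‖ ^ 2)) (K : ℝ) := fun K w => rfl
  have hg0 : ∀ K w, 0 ≤ g K w := fun K w => by
    rw [hgv]
    exact le_min (Real.exp_pos _).le (Nat.cast_nonneg _)
  have hM : ∀ K, ∫ p, g K (s p.1 • p.2) ∂(Pm.prod cg) ≤ M := by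
    intro K
    have h1 := hlim (fun _ => 1) (integrable_const _) (g K)
    have h2 := (prod_bdd hs (φ := fun _ => 1) measurable_const (Φ := 1) (by simp) (g K)).2
    simp only [one_mul] at h1 h2
    rw [← h2] at h1
    refine le_of_tendsto h1 ?_
    filter_upwards [hexp, hW] with i hi hWi
    refine le_trans ?_ hi.2
    apply integral_mono_of_nonneg (Eventually.of_forall fun θ => hg0 _ _) hi.1
    refine Eventually.of_forall fun θ => ?_
    change g K (W i θ) ≤ _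
    rw [hgv]
    exact min_le_left _ _
  have hM0 : 0 ≤ M := (integral_nonneg fun p => hg0 0 _).trans (hM 0)
  have hmeas : Measurable fun p : ℝ × ℂ => Real.exp (c * ‖s p.1 • p.2‖ ^ 2) :=
    (((smul_meas hs).norm.pow_const 2).const_mul c).exp
  have hle : ∫⁻ p, ENNReal.ofReal (Real.exp (c * ‖s p.1 • p.2‖ ^ 2)) ∂(Pm.prod cg) ≤ ENNReal.ofReal M := by
    have h1 : ∀ p : ℝ × ℂ, Tendsto (fun K : ℕ => ENNReal.ofReal (g K (s p.1 • p.2))) atTop
        (𝓝 (ENNReal.ofReal (Real.exp (c * ‖s p.1 • p.2‖ ^ 2)))) := by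
      intro p
      apply tendsto_const_nhds.congr'
      obtain ⟨K0, hK0⟩ := exists_nat_ge (Real.exp (c * ‖s p.1 • p.2‖ ^ 2))
      filter_upwards [eventually_ge_atTop K0] with K hK
      rw [hgv, min_eq_left (hK0.trans (by exact_mod_cast hK))]
    have h2 : ∫⁻ p, ENNReal.ofReal (Real.exp (c * ‖s p.1 • p.2‖ ^ 2)) ∂(Pm.prod cg) =
        ∫⁻ p, liminf (fun K : ℕ => ENNReal.ofReal (g K (s p.1 • p.2))) atTop ∂(Pm.prod cg) := by
      congr 1
      funext p
      exact (h1 p).liminf_eq.symm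
    rw [h2]
    refine (lintegral_liminf_le fun K => ?_).trans ?_
    · exact ((g K).continuous.measurable.comp (smul_meas hs)).ennreal_ofReal
    · refine liminf_le_of_le (by isBoundedDefault) fun b hb => ?_
      obtain ⟨K, hK⟩ := hb.exists
      refine hK.trans ?_
      have h3 := (prod_bdd hs (φ := fun _ => 1) measurable_const (Φ := 1) (by simp) (g K)).1
      simp only [one_mul] at h3
      rw [← ofReal_integral_eq_lintegral_ofReal h3 (Eventually.of_forall fun p => hg0 _ _)]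
      exact ENNReal.ofReal_le_ofReal (hM K)
  have hint : Integrable (fun p : ℝ × ℂ => Real.exp (c * ‖s p.1 • p.2‖ ^ 2)) (Pm.prod cg) := by
    refine ⟨hmeas.aestronglyMeasurable, ?_⟩
    rw [hasFiniteIntegral_iff_ofReal (Eventually.of_forall fun p => (Real.exp_pos _).le)]
    exact hle.trans_lt ENNReal.ofReal_lt_top
  refine ⟨hint, ?_⟩
  rw [integral_eq_lintegral_of_nonneg_ae (Eventually.of_forall fun p => (Real.exp_pos _).le)
    hmeas.aestronglyMeasurable]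
  exact ENNReal.toReal_le_of_le_ofReal hM0 hle

/-- **test functions of Gaussian growth** -/
theorem grow (hs : Measurable s) [l.NeBot]
    (hlim : ∀ φ : ℝ → ℝ, Integrable φ Pm → ∀ f : ℂ →ᵇ ℝ,
      Tendsto (fun i => ∫ θ, φ θ * f (W i θ) ∂Pm) l (𝓝 (∫ θ, φ θ * ∫ w, f (s θ • w) ∂cg ∂Pm)))
    {c M : ℝ} (hc : 0 < c)
    (hexp : ∀ᶠ i in l, Integrable (fun θ => Real.exp (c * ‖W i θ‖ ^ 2)) Pm ∧
      ∫ θ, Real.exp (c * ‖W i θ‖ ^ 2) ∂Pm ≤ M) (hW : ∀ᶠ i in l, AEMeasurable (W i) Pm)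
    {φ : ℝ → ℝ} (hφm : Measurable φ) {Φ : ℝ} (hφ : ∀ θ, |φ θ| ≤ Φ) {f : ℂ → ℝ} (hf : Continuous f)
    {C : ℝ} (hfC : ∀ w, |f w| ≤ C * Real.exp (c / 2 * ‖w‖ ^ 2)) :
    Integrable (fun p : ℝ × ℂ => φ p.1 * f (s p.1 • p.2)) (Pm.prod cg) ∧
    Integrable (fun p : ℝ × ℂ => f (s p.1 • p.2)) (Pm.prod cg) ∧
    Tendsto (fun i => ∫ θ, φ θ * f (W i θ) ∂Pm) l
      (𝓝 (∫ p, φ p.1 * f (s p.1 • p.2) ∂(Pm.prod cg))) := by
  obtain ⟨hE1, hE2⟩ := exp_lim hs hlim hexp hW
  have hΦ : 0 ≤ Φ := (abs_nonneg _).trans (hφ 0)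
  have hC0 : 0 ≤ C := by
    have h := hfC 0
    rw [norm_zero] at h
    simp at h
    exact (abs_nonneg _).trans h
  have hM0 : 0 ≤ M := (integral_nonneg fun p => (Real.exp_pos _).le).trans hE2
  have hexp2 : ∀ w : ℂ, Real.exp (c / 2 * ‖w‖ ^ 2) ≤ Real.exp (c * ‖w‖ ^ 2) := by
    intro w
    apply Real.exp_le_exp.2
    nlinarith [mul_nonneg hc.le (sq_nonneg ‖w‖)]
  have hsq : ∀ w : ℂ, f w ^ 2 ≤ C ^ 2 * Real.exp (c * ‖w‖ ^ 2) := by
    intro w
    have h1 : f w ^ 2 ≤ (C * Real.exp (c / 2 * ‖w‖ ^ 2)) ^ 2 := by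
      rw [← sq_abs]
      exact pow_le_pow_left₀ (abs_nonneg _) (hfC w) 2
    refine h1.trans (le_of_eq ?_)
    rw [mul_pow, ← Real.exp_nat_mul]
    congr 2
    push_cast
    ring
  have hdiff : ∀ (K : ℝ), 0 < K → ∀ w : ℂ, |f w - trc K (f w)| ≤ C ^ 2 / K * Real.exp (c * ‖w‖ ^ 2) := by
    intro K hK w
    refine (trc_diff hK _).trans ?_
    rw [div_mul_eq_mul_div]
    exact div_le_div_of_nonneg_right (hsq w) hK.le
  have hsm := smul_meas hs
  -- integrability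
  have iP : Integrable (fun p : ℝ × ℂ => f (s p.1 • p.2)) (Pm.prod cg) := by
    refine (hE1.const_mul C).mono' (hf.measurable.comp hsm).aestronglyMeasurable ?_
    refine Eventually.of_forall fun p => ?_
    rw [Real.norm_eq_abs]
    exact (hfC _).trans (mul_le_mul_of_nonneg_left (hexp2 _) hC0)
  have iPφ : Integrable (fun p : ℝ × ℂ => φ p.1 * f (s p.1 • p.2)) (Pm.prod cg) := by
    refine (iP.norm.const_mul Φ).mono' ((hφm.comp measurable_fst).mul
      (hf.measurable.comp hsm)).aestronglyMeasurable ?_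
    refine Eventually.of_forall fun p => ?_
    rw [norm_mul, Real.norm_eq_abs (φ p.1)]
    exact mul_le_mul_of_nonneg_right (hφ _) (norm_nonneg _)
  refine ⟨iPφ, iP, ?_⟩
  rw [Metric.tendsto_nhds]
  intro ε hε
  obtain ⟨K, hK⟩ := exists_gt (3 * (Φ * (C ^ 2 * M)) / ε)
  have hK0 : 0 < K := lt_of_le_of_lt (by positivity) hK
  have hKε : Φ * (C ^ 2 / K * M) < ε / 3 := by
    rw [div_lt_iff₀ hε] at hK
    have : Φ * (C ^ 2 / K * M) = Φ * (C ^ 2 * M) / K := by ring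
    rw [this, div_lt_iff₀ hK0]
    linarith
  set fK : ℂ →ᵇ ℝ := BoundedContinuousFunction.ofNormedAddCommGroup (fun w => trc K (f w))
    ((trc_cont K).comp hf) K (fun w => by rw [Real.norm_eq_abs]; exact trc_abs hK0 _) with hfK
  have hfKv : ∀ w, fK w = trc K (f w) := fun w => rfl
  have hφi : Integrable φ Pm := Integrable.of_bound hφm.aestronglyMeasurable Φ
    (Eventually.of_forall fun θ => by rw [Real.norm_eq_abs]; exact hφ θ)
  have h1 := hlim φ hφi fK
  obtain ⟨jK, eK⟩ := prod_bdd hs hφm hφ fK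
  rw [← eK] at h1
  have hR : |∫ p, φ p.1 * f (s p.1 • p.2) ∂(Pm.prod cg) - ∫ p, φ p.1 * fK (s p.1 • p.2) ∂(Pm.prod cg)| ≤
      Φ * (C ^ 2 / K * M) := by
    rw [← integral_sub iPφ jK, ← Real.norm_eq_abs]
    refine (norm_integral_le_integral_norm _).trans ?_
    have h2 : ∫ p, ‖φ p.1 * f (s p.1 • p.2) - φ p.1 * fK (s p.1 • p.2)‖ ∂(Pm.prod cg) ≤
        ∫ p, Φ * (C ^ 2 / K * Real.exp (c * ‖s p.1 • p.2‖ ^ 2)) ∂(Pm.prod cg) := by
      apply integral_mono (iPφ.sub jK).norm ((hE1.const_mul _).const_mul _)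
      intro p
      change ‖φ p.1 * f (s p.1 • p.2) - φ p.1 * fK (s p.1 • p.2)‖ ≤
        Φ * (C ^ 2 / K * Real.exp (c * ‖s p.1 • p.2‖ ^ 2))
      rw [← mul_sub, norm_mul, Real.norm_eq_abs, Real.norm_eq_abs, hfKv]
      exact mul_le_mul (hφ _) (hdiff K hK0 _) (abs_nonneg _) hΦ
    refine h2.trans ?_
    rw [integral_const_mul, integral_const_mul]
    gcongr
  filter_upwards [hexp, hW, Metric.tendsto_nhds.1 h1 (ε / 3) (by positivity)] with i hi hWi h3
  have iW : Integrable (fun θ => φ θ * f (W i θ)) Pm := by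
    refine (hi.1.const_mul (Φ * C)).mono' ?_ ?_
    · exact (hφm.aemeasurable.mul (hf.measurable.comp_aemeasurable hWi)).aestronglyMeasurable
    · refine Eventually.of_forall fun θ => ?_
      rw [norm_mul, Real.norm_eq_abs, Real.norm_eq_abs, mul_assoc]
      exact mul_le_mul (hφ _) ((hfC _).trans (mul_le_mul_of_nonneg_left (hexp2 _) hC0)) (abs_nonneg _) hΦ
  have iK : Integrable (fun θ => φ θ * fK (W i θ)) Pm := by
    apply Integrable.of_bound (C := Φ * K)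
    · exact (hφm.aemeasurable.mul (fK.continuous.measurable.comp_aemeasurable hWi)).aestronglyMeasurable
    · refine Eventually.of_forall fun θ => ?_
      rw [norm_mul, Real.norm_eq_abs, Real.norm_eq_abs, hfKv]
      exact mul_le_mul (hφ _) (trc_abs hK0 _) (abs_nonneg _) hΦ
  have hL : |∫ θ, φ θ * f (W i θ) ∂Pm - ∫ θ, φ θ * fK (W i θ) ∂Pm| ≤ Φ * (C ^ 2 / K * M) := by
    rw [← integral_sub iW iK, ← Real.norm_eq_abs]
    refine (norm_integral_le_integral_norm _).trans ?_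
    have h2 : ∫ θ, ‖φ θ * f (W i θ) - φ θ * fK (W i θ)‖ ∂Pm ≤
        ∫ θ, Φ * (C ^ 2 / K * Real.exp (c * ‖W i θ‖ ^ 2)) ∂Pm := by
      apply integral_mono (iW.sub iK).norm ((hi.1.const_mul _).const_mul _)
      intro θ
      change ‖φ θ * f (W i θ) - φ θ * fK (W i θ)‖ ≤ Φ * (C ^ 2 / K * Real.exp (c * ‖W i θ‖ ^ 2))
      rw [← mul_sub, norm_mul, Real.norm_eq_abs, Real.norm_eq_abs, hfKv]
      exact mul_le_mul (hφ _) (hdiff K hK0 _) (abs_nonneg _) hΦ
    refine h2.trans ?_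
    rw [integral_const_mul, integral_const_mul]
    have := hi.2
    gcongr
  rw [Real.dist_eq] at h3 ⊢
  rw [abs_le] at hR hL
  rw [abs_lt] at h3 ⊢
  constructor <;> linarith [hR.1, hR.2, hL.1, hL.2, h3.1, h3.2]

end Pool.Agent.H439.MC
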