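import Mathlib
import Pool.Graph.R_seed8.Y430.TY.Lil1
import Pool.Agent.H439.MC.Mom1
import Pool.Agent.H439.MC.KoebeD

/-!
# The central limit theorem for test functions of Gaussian growth
-/

set_option autoImplicit false

namespace Pool.Agent.H439.MC

open Complex Set Topology Filter Metric MeasureTheory N62a1eb23 Pool.Agent.H712R2
  Pool.Agent.H713R2 Pool.Agent.TH653.MB ProbabilityTheory BoundedContinuousFunction
open Pool.Agent.W677.Mar (Sg H_bloch bloch_exp lam lam_pos)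

variable {d : ℕ} {β : ℂ → ℂ}

theorem IsL.sg (hβ : IsBeta d β) {ℓ : ℂ → ℂ} (hℓ : IsL β ℓ) : Sg β ℓ := by
  obtain ⟨H, S⟩ := Pool.Agent.Y430.TY.exists_sg hβ
  exact ⟨S.G, hℓ.diff, hℓ.zero, hℓ.exp⟩

theorem lam_le_Lr {ρ : ℝ} (h0 : 2 / 3 < ρ) (h1 : ρ < 1) : lam (ρ ^ 2) ≤ Lr ρ := by
  have hρ : 0 < ρ := by linarith
  have h2 : 0 < 1 / ρ - 1 := by
    rw [sub_pos, lt_div_iff₀ hρ]
    linarith
  unfold lam Lr
  rw [one_div (1 / ρ - 1), Real.log_inv]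
  apply neg_le_neg
  apply Real.log_le_log h2
  have h3 : 1 / ρ - 1 = (1 - ρ) * (1 / ρ) := by field_simp
  have h4 : 1 / ρ ≤ 1 + ρ := by
    rw [div_le_iff₀ hρ]
    nlinarith
  rw [h3]
  nlinarith

/-- the exponential moments in the disc -/
theorem exp_Zc (hβ : IsBeta d β) {ℓ : ℂ → ℂ} (hℓ : IsL β ℓ) {ρ : ℝ} (h0 : 2 / 3 < ρ) (h1 : ρ < 1) :
    ∫ θ, Real.exp (1 / 150 * ‖Zc ℓ ρ θ‖ ^ 2) ∂Pm ≤ 25 := by
  have hρ : 0 < ρ := by linarith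
  have hpi := Real.pi_pos
  have hlam : 0 < lam (ρ ^ 2) := lam_pos (by positivity) (pow_lt_one₀ hρ.le h1 two_ne_zero)
  have hLr : 0 < Lr ρ := hlam.trans_le (lam_le_Lr h0 h1)
  have hB := bloch_exp (B := 6) hℓ.diff hℓ.zero (fun w hw => H_bloch (hℓ.sg hβ) hw) (c := 1 / 150)
    (by norm_num) (by norm_num) hρ h1
  have hc : Continuous fun θ => ℓ (circleMap 0 ρ θ) := comp_cont hℓ.diff hρ h1
  have hle : ∀ θ, Real.exp (1 / 150 * ‖Zc ℓ ρ θ‖ ^ 2) ≤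
      Real.exp (1 / 150 * ‖ℓ (circleMap 0 ρ θ)‖ ^ 2 / lam (ρ ^ 2)) := by
    intro θ
    apply Real.exp_le_exp.2
    have h2 : ‖Zc ℓ ρ θ‖ ^ 2 = ‖ℓ (circleMap 0 ρ θ)‖ ^ 2 / Lr ρ := by
      unfold Zc
      rw [norm_mul, Complex.norm_real, Real.norm_of_nonneg (by positivity), mul_pow, div_pow,
        Real.sq_sqrt hLr.le]
      ring
    rw [h2, mul_div_assoc]
    have h3 : 0 ≤ ‖ℓ (circleMap 0 ρ θ)‖ ^ 2 := by positivity
    have h4 := div_le_div_of_nonneg_left h3 hlam (lam_le_Lr h0 h1)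
    nlinarith
  have hZ : Continuous fun θ => Zc ℓ ρ θ := by
    unfold Zc
    exact continuous_const.mul hc
  have h2 : ∫ θ, Real.exp (1 / 150 * ‖Zc ℓ ρ θ‖ ^ 2) ∂Pm ≤
      ∫ θ, Real.exp (1 / 150 * ‖ℓ (circleMap 0 ρ θ)‖ ^ 2 / lam (ρ ^ 2)) ∂Pm := by
    apply integral_mono _ _ hle
    · exact Continuous.integrable_Pm (by fun_prop)
    · exact Continuous.integrable_Pm (((continuous_const.mul (hc.norm.pow 2)).div_const _).rexp)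
  refine h2.trans ?_
  rw [integral_Pm, smul_eq_mul]
  have h3 : ∫ θ in (0 : ℝ)..2 * Real.pi,
      Real.exp (1 / 150 * ‖ℓ (circleMap 0 ρ θ)‖ ^ 2 / lam (ρ ^ 2)) ≤ 2 * Real.pi * 25 := by
    refine hB.trans (le_of_eq ?_)
    norm_num
  calc (2 * Real.pi)⁻¹ * ∫ θ in (0 : ℝ)..2 * Real.pi,
      Real.exp (1 / 150 * ‖ℓ (circleMap 0 ρ θ)‖ ^ 2 / lam (ρ ^ 2)) ≤
      (2 * Real.pi)⁻¹ * (2 * Real.pi * 25) := mul_le_mul_of_nonneg_left h3 (by positivity)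
    _ = 25 := by field_simp

/-- the exponential moments outside the disc -/
theorem exp_Xe (hβ : IsBeta d β) {ψ : ℂ → ℂ} (hψ : IsExteriorMap (multibrotSet d) ψ) {L : ℂ → ℂ}
    (hL : IsLogDeriv ψ L) {R : ℝ} (h1 : 1 < R) (h2 : R < 3 / 2) :
    Integrable (fun θ => Real.exp (1 / 150 * ‖Xe L R θ‖ ^ 2)) Pm ∧
      ∫ θ, Real.exp (1 / 150 * ‖Xe L R θ‖ ^ 2) ∂Pm ≤ 25 := by
  constructor
  · have := Xe_cont hL.diff h1
    exact Continuous.integrable_Pm (by fun_prop)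
  · have h3 := exp_Zc hβ (hL.isL hβ hψ) (ρ := 1 / R) (by
      rw [lt_div_iff₀ (by linarith)]
      linarith) (by
      rw [div_lt_one (by linarith)]
      exact h1)
    rw [← reflect] at h3
    simp only [Zc_refl L h1] at h3
    exact h3

/-- expectations for `x + i y` as iterated integrals -/
theorem cg_iter {f : ℂ → ℝ} (hf : Continuous f) (c : ℝ) (hi : Integrable (fun w => f (c • w)) cg) :
    ∫ w, f (c • w) ∂cg =
    ∫ x, ∫ y, f ((c : ℂ) * ((x : ℂ) + y * I)) ∂(gaussianReal 0 1) ∂(gaussianReal 0 1) := by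
  have h0 : Continuous fun w : ℂ => f (c • w) := by fun_prop
  unfold cg at hi ⊢
  rw [integrable_map_measure h0.aestronglyMeasurable cg_meas.aemeasurable] at hi
  rw [integral_map cg_meas.aemeasurable h0.aestronglyMeasurable]
  have hi' : Integrable (fun p : ℝ × ℝ => f (c • ((p.1 : ℂ) + p.2 * I)))
      ((gaussianReal 0 1).prod (gaussianReal 0 1)) := hi
  rw [integral_prod _ hi']
  simp only [Complex.real_smul]

/-- **the central limit theorem** with test functions of Gaussian growth -/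
theorem clt_grow (hd : 2 ≤ d) (hβ : IsBeta d β) :
    ∃ σ : ℝ → ℝ, Measurable σ ∧ (∀ θ, 0 ≤ σ θ) ∧
      IntervalIntegrable (fun θ => σ θ ^ 2) volume 0 (2 * Real.pi) ∧
      0 < ∫ θ in (0 : ℝ)..2 * Real.pi, σ θ ∧
      ∀ ψ : ℂ → ℂ, IsExteriorMap (multibrotSet d) ψ → ∀ L : ℂ → ℂ, IsLogDeriv ψ L →
      (∀ φ : ℝ → ℝ, IntervalIntegrable φ volume 0 (2 * Real.pi) → ∀ f : ℂ →ᵇ ℝ,
      Tendsto (fun R : ℝ => ∫ θ in (0 : ℝ)..2 * Real.pi, φ θ * f (Xe L R θ)) (𝓝[>] 1)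
        (𝓝 (∫ θ in (0 : ℝ)..2 * Real.pi, φ θ *
          ∫ x, ∫ y, f (σ θ * (x + y * I)) ∂(gaussianReal 0 1) ∂(gaussianReal 0 1))) ∧
      Tendsto (fun R : ℝ => ∫ θ in (0 : ℝ)..2 * Real.pi, φ θ * f (Xd d ψ L R θ)) (𝓝[>] 1)
        (𝓝 (∫ θ in (0 : ℝ)..2 * Real.pi, φ θ *
          ∫ x, ∫ y, f (σ θ * (x + y * I)) ∂(gaussianReal 0 1) ∂(gaussianReal 0 1)))) ∧
      ∀ φ : ℝ → ℝ, Measurable φ → (∃ Φ : ℝ, ∀ θ, |φ θ| ≤ Φ) → ∀ f : ℂ → ℝ, Continuous f →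
        (∃ C : ℝ, ∀ w, |f w| ≤ C * Real.exp (‖w‖ ^ 2 / 300)) →
      Integrable (fun p : ℝ × ℂ => φ p.1 * f (σ p.1 • p.2)) (Pm.prod cg) ∧
      Tendsto (fun R : ℝ => ∫ θ in (0 : ℝ)..2 * Real.pi, φ θ * f (Xe L R θ)) (𝓝[>] 1)
        (𝓝 (∫ θ in (0 : ℝ)..2 * Real.pi, φ θ *
          ∫ x, ∫ y, f (σ θ * (x + y * I)) ∂(gaussianReal 0 1) ∂(gaussianReal 0 1))) := by
  obtain ⟨σ, h1, h2, h3, h4, h5⟩ := clt_both hd hβ
  refine ⟨σ, h1, h2, h3, h4, ?_⟩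
  intro ψ hψ L hL
  refine ⟨fun φ hφ f => h5 ψ hψ L hL φ hφ f, ?_⟩
  intro φ hφm hφb f hf hfC
  obtain ⟨Φ, hΦ⟩ := hφb
  obtain ⟨C, hC⟩ := hfC
  have hpi := two_pi_pos'
  have hlim : ∀ φ : ℝ → ℝ, Integrable φ Pm → ∀ f : ℂ →ᵇ ℝ,
      Tendsto (fun R : ℝ => ∫ θ, φ θ * f (Xe L R θ) ∂Pm) (𝓝[>] 1)
        (𝓝 (∫ θ, φ θ * ∫ w, f (σ θ • w) ∂cg ∂Pm)) := by
    intro φ hφ f
    have h6 := ((h5 ψ hψ L hL φ (integrable_Pm_iff.1 hφ) f).1).const_mul ((2 * Real.pi)⁻¹)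
    simp only [integral_Pm, smul_eq_mul, integral_cg]
    exact h6
  have hexp : ∀ᶠ R in 𝓝[>] (1 : ℝ), Integrable (fun θ => Real.exp (1 / 150 * ‖Xe L R θ‖ ^ 2)) Pm ∧
      ∫ θ, Real.exp (1 / 150 * ‖Xe L R θ‖ ^ 2) ∂Pm ≤ 25 := by
    filter_upwards [self_mem_nhdsWithin,
      nhdsWithin_le_nhds (gt_mem_nhds (by norm_num : (1 : ℝ) < 3 / 2))] with R hR1 hR2
    exact exp_Xe hβ hψ hL hR1 hR2
  have hW : ∀ᶠ R in 𝓝[>] (1 : ℝ), AEMeasurable (Xe L R) Pm := by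
    filter_upwards [self_mem_nhdsWithin] with R hR
    exact (Xe_cont hL.diff hR).aemeasurable
  obtain ⟨k1, k2, k3⟩ := grow h1 hlim (by norm_num : (0 : ℝ) < 1 / 150) hexp hW hφm hΦ hf (C := C) (by
    intro w
    have h6 : (1 / 150 / 2 : ℝ) * ‖w‖ ^ 2 = ‖w‖ ^ 2 / 300 := by ring
    rw [h6]
    exact hC w)
  refine ⟨k1, ?_⟩
  have h6 := k3.const_mul (2 * Real.pi)
  have e1 : ∀ g : ℝ → ℝ, 2 * Real.pi * ∫ θ, g θ ∂Pm = ∫ θ in (0 : ℝ)..2 * Real.pi, g θ := by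
    intro g
    rw [integral_Pm, smul_eq_mul]
    field_simp
  have e2 : ∫ p, φ p.1 * f (σ p.1 • p.2) ∂(Pm.prod cg) = ∫ θ, φ θ *
      ∫ x, ∫ y, f (σ θ * (x + y * I)) ∂(gaussianReal 0 1) ∂(gaussianReal 0 1) ∂Pm := by
    rw [integral_prod _ k1]
    apply integral_congr_ae
    filter_upwards [k2.prod_right_ae] with θ hθ
    have h7 : ∫ w, φ θ * f (σ θ • w) ∂cg = φ θ * ∫ w, f (σ θ • w) ∂cg :=
      MeasureTheory.integral_const_mul (φ θ) (fun w : ℂ => f (σ θ • w))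
    exact h7.trans (by rw [cg_iter hf (σ θ) hθ])
  rw [e2] at h6
  simp only [e1] at h6
  exact h6

end Pool.Agent.H439.MC
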