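import Mathlib
import Pool.Agent.H439.MC.Mom2

/-!
# The standard deviation is bounded
-/

set_option autoImplicit false

namespace Pool.Agent.H439.MC

open Complex Set Topology Filter Metric MeasureTheory N62a1eb23 Pool.Agent.H712R2
  Pool.Agent.H713R2 Pool.Agent.TH653.MB ProbabilityTheory BoundedContinuousFunction

variable {d : ℕ} {β : ℂ → ℂ}

theorem not_int_exp : ¬ Integrable (fun x : ℝ => Real.exp (x ^ 2 / 2)) (gaussianReal 0 1) := by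
  intro h
  rw [gaussianReal_of_var_ne_zero _ one_ne_zero] at h
  rw [integrable_withDensity_iff (measurable_gaussianPDF 0 1)
    (Eventually.of_forall fun x => gaussianPDF_lt_top)] at h
  have e1 : (fun x : ℝ => Real.exp (x ^ 2 / 2) * (gaussianPDF 0 1 x).toReal) =
      fun _ => (√(2 * Real.pi))⁻¹ := by
    funext x
    rw [toReal_gaussianPDF, gaussianPDFReal]
    have h2 : Real.exp (x ^ 2 / 2) * Real.exp (-(x - 0) ^ 2 / (2 * ((1 : NNReal) : ℝ))) = 1 := by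
      rw [← Real.exp_add, ← Real.exp_zero]
      congr 1
      push_cast
      ring
    calc _ = (√(2 * Real.pi * ((1 : NNReal) : ℝ)))⁻¹ *
        (Real.exp (x ^ 2 / 2) * Real.exp (-(x - 0) ^ 2 / (2 * ((1 : NNReal) : ℝ)))) := by ring
      _ = _ := by rw [h2]; simp
  rw [e1, integrable_const_iff] at h
  rcases h with h | h
  · have h3 : 0 < (√(2 * Real.pi))⁻¹ := by positivity
    exact h3.ne' h
  · have h4 := h.measure_univ_lt_top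
    rw [Real.volume_univ] at h4
    exact lt_irrefl _ h4

theorem not_int_cg {c : ℝ} (hc : 1 / 2 ≤ c) : ¬ Integrable (fun w : ℂ => Real.exp (c * ‖w‖ ^ 2)) cg := by
  intro h
  have h0 : Continuous fun w : ℂ => Real.exp (c * ‖w‖ ^ 2) := by fun_prop
  unfold cg at h
  rw [integrable_map_measure h0.aestronglyMeasurable cg_meas.aemeasurable] at h
  have h1 := h.prod_left_ae.exists
  obtain ⟨y, hy⟩ := h1
  apply not_int_exp
  refine hy.mono' (by fun_prop) (Eventually.of_forall fun x => ?_)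
  rw [Real.norm_of_nonneg (Real.exp_pos _).le]
  change Real.exp (x ^ 2 / 2) ≤ Real.exp (c * ‖(x : ℂ) + (y : ℂ) * I‖ ^ 2)
  apply Real.exp_le_exp.2
  rw [← Complex.normSq_eq_norm_sq, Complex.normSq_apply]
  simp
  nlinarith [sq_nonneg x, sq_nonneg y, mul_nonneg (by linarith : (0 : ℝ) ≤ c - 1 / 2) (sq_nonneg x),
    mul_nonneg (by linarith : (0 : ℝ) ≤ c) (sq_nonneg y)]

/-- the bound -/
theorem sig_lt {s : ℝ → ℝ}
    (h : Integrable (fun p : ℝ × ℂ => Real.exp (1 / 150 * ‖s p.1 • p.2‖ ^ 2)) (Pm.prod cg)) :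
    ∀ᵐ θ ∂Pm, s θ ^ 2 < 75 := by
  filter_upwards [h.prod_right_ae] with θ hθ
  by_contra hcon
  push Not at hcon
  apply not_int_cg (c := 1 / 150 * s θ ^ 2) (by linarith)
  refine hθ.congr (Eventually.of_forall fun w => ?_)
  change Real.exp (1 / 150 * ‖s θ • w‖ ^ 2) = Real.exp (1 / 150 * s θ ^ 2 * ‖w‖ ^ 2)
  rw [norm_smul, mul_pow, Real.norm_eq_abs, sq_abs]
  ring_nf

/-- **the central limit theorem**, complete form -/
theorem clt_full (hd : 2 ≤ d) (hβ : IsBeta d β) :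
    ∃ σ : ℝ → ℝ, Measurable σ ∧ (∀ θ, 0 ≤ σ θ) ∧
      (∀ᵐ θ ∂(volume.restrict (Ioc 0 (2 * Real.pi))), σ θ ^ 2 < 75) ∧
      0 < ∫ θ in (0 : ℝ)..2 * Real.pi, σ θ ∧
      ∀ ψ : ℂ → ℂ, IsExteriorMap (multibrotSet d) ψ → ∀ L : ℂ → ℂ, IsLogDeriv ψ L →
      (∀ φ : ℝ → ℝ, IntervalIntegrable φ volume 0 (2 * Real.pi) → ∀ f : ℂ →ᵇ ℝ,
      Tendsto (fun R : ℝ => ∫ θ in (0 : ℝ)..2 * Real.pi, φ θ * f (Xe L R θ)) (𝓝[>] 1)
        (𝓝 (∫ θ in (0 : ℝ)..2 * Real.pi, φ θ *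
          ∫ x, ∫ y, f (σ θ * (x + y * I)) ∂(gaussianReal 0 1) ∂(gaussianReal 0 1))) ∧
      Tendsto (fun R : ℝ => ∫ θ in (0 : ℝ)..2 * Real.pi, φ θ * f (Xd d ψ L R θ)) (𝓝[>] 1)
        (𝓝 (∫ θ in (0 : ℝ)..2 * Real.pi, φ θ *
          ∫ x, ∫ y, f (σ θ * (x + y * I)) ∂(gaussianReal 0 1) ∂(gaussianReal 0 1)))) ∧
      ∀ φ : ℝ → ℝ, Measurable φ → (∃ Φ : ℝ, ∀ θ, |φ θ| ≤ Φ) → ∀ f : ℂ → ℝ, Continuous f →
        (∃ C : ℝ, ∀ w, |f w| ≤ C * Real.exp (‖w‖ ^ 2 / 300)) →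
      Tendsto (fun R : ℝ => ∫ θ in (0 : ℝ)..2 * Real.pi, φ θ * f (Xe L R θ)) (𝓝[>] 1)
        (𝓝 (∫ θ in (0 : ℝ)..2 * Real.pi, φ θ *
          ∫ x, ∫ y, f (σ θ * (x + y * I)) ∂(gaussianReal 0 1) ∂(gaussianReal 0 1))) := by
  obtain ⟨σ, h1, h2, h3, h4, h5⟩ := clt_grow hd hβ
  refine ⟨σ, h1, h2, ?_, h4, fun ψ hψ L hL => ⟨(h5 ψ hψ L hL).1, fun φ hφ hb f hf hC =>
    ((h5 ψ hψ L hL).2 φ hφ hb f hf hC).2⟩⟩
  have hψ := exteriorMap_of_beta hβ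
  obtain ⟨L, hL⟩ := exists_isLogDeriv hβ hψ
  obtain ⟨h6, -⟩ := h5 _ hψ L hL
  have hlim : ∀ φ : ℝ → ℝ, Integrable φ Pm → ∀ f : ℂ →ᵇ ℝ,
      Tendsto (fun R : ℝ => ∫ θ, φ θ * f (Xe L R θ) ∂Pm) (𝓝[>] 1)
        (𝓝 (∫ θ, φ θ * ∫ w, f (σ θ • w) ∂cg ∂Pm)) := by
    intro φ hφ f
    have h7 := ((h6 φ (integrable_Pm_iff.1 hφ) f).1).const_mul ((2 * Real.pi)⁻¹)
    simp only [integral_Pm, smul_eq_mul, integral_cg]
    exact h7
  have hexp : ∀ᶠ R in 𝓝[>] (1 : ℝ), Integrable (fun θ => Real.exp (1 / 150 * ‖Xe L R θ‖ ^ 2)) Pm ∧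
      ∫ θ, Real.exp (1 / 150 * ‖Xe L R θ‖ ^ 2) ∂Pm ≤ 25 := by
    filter_upwards [self_mem_nhdsWithin,
      nhdsWithin_le_nhds (gt_mem_nhds (by norm_num : (1 : ℝ) < 3 / 2))] with R hR1 hR2
    exact exp_Xe hβ hψ hL hR1 hR2
  have hW : ∀ᶠ R in 𝓝[>] (1 : ℝ), AEMeasurable (Xe L R) Pm := by
    filter_upwards [self_mem_nhdsWithin] with R hR
    exact (Xe_cont hL.diff hR).aemeasurable
  have h8 := sig_lt (exp_lim h1 hlim hexp hW).1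
  unfold Pm at h8
  rwa [Measure.ae_ennreal_smul_measure_iff (ENNReal.inv_ne_zero.2 ENNReal.ofReal_ne_top)] at h8

end Pool.Agent.H439.MC
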