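import Mathlib
import Pool.Agent.H439.MC.Mom3

/-!
# The central limit theorem for test functions of Gaussian growth, and for the distance
-/

set_option autoImplicit false

namespace Pool.Agent.H439.MC

open Complex Set Topology Filter Metric MeasureTheory N62a1eb23 Pool.Agent.H712R2
  Pool.Agent.H713R2 Pool.Agent.TH653.MB ProbabilityTheory BoundedContinuousFunction

variable {d : ℕ} {β : ℂ → ℂ}

theorem Xd_near (hd : 2 ≤ d) (hβ : IsBeta d β) {ψ L : ℂ → ℂ} (hψ : IsExteriorMap (multibrotSet d) ψ)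
    (hL : IsLogDeriv ψ L) : ∀ᶠ R in 𝓝[>] (1 : ℝ), ∀ θ, ‖Xd d ψ L R θ - Xe L R θ‖ ≤ 1 := by
  obtain ⟨c, hc, h⟩ := dist_bounds hd hβ
  filter_upwards [self_mem_nhdsWithin, sqrtL_tendsto.eventually_ge_atTop (|Real.log c| + 1)] with R hR hs
  have hR1 : (1 : ℝ) < R := hR
  have hs0 : 0 < √(Real.log (1 / (R - 1))) := lt_of_lt_of_le (by positivity) hs
  intro θ
  have hz := one_lt_norm_pt hR1 θ
  have hn := norm_pt' hR1 θ
  set z : ℂ := (R : ℂ) * exp (θ * I) with hz'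
  obtain ⟨k1, k2, k3⟩ := h ψ hψ z hz
  rw [hn] at k1 k2
  have k4 : 0 < R - 1 := by linarith
  have k5 : 0 < ‖deriv ψ z‖ := norm_pos_iff.2 (deriv_ext_ne hβ hψ hz)
  have k6 : (L z).re = Real.log ‖deriv ψ z‖ := by
    rw [← hL.exp z hz, Complex.norm_exp, Real.log_exp]
  have k7 : |Real.log (infDist (ψ z) (multibrotSet d) / (R - 1)) - (L z).re| ≤ |Real.log c| := by
    rw [k6, ← Real.log_div (by positivity) k5.ne']
    have g1 : c ≤ infDist (ψ z) (multibrotSet d) / (R - 1) / ‖deriv ψ z‖ := by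
      rw [div_div, le_div_iff₀ (by positivity)]
      exact k1
    have g2 : infDist (ψ z) (multibrotSet d) / (R - 1) / ‖deriv ψ z‖ ≤ c⁻¹ := by
      rw [div_div, div_le_iff₀ (by positivity), le_inv_mul_iff₀ hc]
      exact k2
    have g3 := Real.log_le_log hc g1
    have g4 := Real.log_le_log (by positivity) g2
    rw [Real.log_inv] at g4
    rw [abs_le]
    constructor
    · linarith [neg_abs_le (Real.log c)]
    · linarith [neg_abs_le (Real.log c)]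
  have e1 : Xd d ψ L R θ - Xe L R θ =
      (((Real.log (infDist (ψ z) (multibrotSet d) / (R - 1)) - (L z).re) / √(Real.log (1 / (R - 1))) : ℝ) : ℂ) := by
    unfold Xd Xe
    rw [← hz']
    nth_rewrite 2 [← Complex.re_add_im (L z)]
    push_cast
    ring
  rw [e1, Complex.norm_real, Real.norm_eq_abs, abs_div, abs_of_pos hs0, div_le_one hs0]
  linarith

/-- **the central limit theorem** for test functions of Gaussian growth -/
theorem clt_full2 (hd : 2 ≤ d) (hβ : IsBeta d β) :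
    ∃ σ : ℝ → ℝ, Measurable σ ∧ (∀ θ, 0 ≤ σ θ) ∧
      (∀ᵐ θ ∂(volume.restrict (Ioc 0 (2 * Real.pi))), σ θ ^ 2 < 75) ∧
      0 < ∫ θ in (0 : ℝ)..2 * Real.pi, σ θ ∧
      ∀ ψ : ℂ → ℂ, IsExteriorMap (multibrotSet d) ψ → ∀ L : ℂ → ℂ, IsLogDeriv ψ L →
      (∀ φ : ℝ → ℝ, IntervalIntegrable φ volume 0 (2 * Real.pi) → ∀ f : ℂ →ᵇ ℝ,
      Tendsto (fun R : ℝ => ∫ θ in (0 : ℝ)..2 * Real.pi, φ θ * f (Xe L R θ)) (𝓝[>] 1)
        (𝓝 (∫ θ in (0 : ℝ)..2 * Real.pi, φ θ *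
          ∫ x, ∫ y, f (σ θ * (x + y * I)) ∂(gaussianReal 0 1) ∂(gaussianReal 0 1))) ∧
      Tendsto (fun R : ℝ => ∫ θ in (0 : ℝ)..2 * Real.pi, φ θ * f (Xd d ψ L R θ)) (𝓝[>] 1)
        (𝓝 (∫ θ in (0 : ℝ)..2 * Real.pi, φ θ *
          ∫ x, ∫ y, f (σ θ * (x + y * I)) ∂(gaussianReal 0 1) ∂(gaussianReal 0 1)))) ∧
      ∀ φ : ℝ → ℝ, Measurable φ → (∃ Φ : ℝ, ∀ θ, |φ θ| ≤ Φ) → ∀ f : ℂ → ℝ, Continuous f →
        (∃ C : ℝ, ∀ w, |f w| ≤ C * Real.exp (‖w‖ ^ 2 / 600)) →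
      Tendsto (fun R : ℝ => ∫ θ in (0 : ℝ)..2 * Real.pi, φ θ * f (Xe L R θ)) (𝓝[>] 1)
        (𝓝 (∫ θ in (0 : ℝ)..2 * Real.pi, φ θ *
          ∫ x, ∫ y, f (σ θ * (x + y * I)) ∂(gaussianReal 0 1) ∂(gaussianReal 0 1))) ∧
      Tendsto (fun R : ℝ => ∫ θ in (0 : ℝ)..2 * Real.pi, φ θ * f (Xd d ψ L R θ)) (𝓝[>] 1)
        (𝓝 (∫ θ in (0 : ℝ)..2 * Real.pi, φ θ *
          ∫ x, ∫ y, f (σ θ * (x + y * I)) ∂(gaussianReal 0 1) ∂(gaussianReal 0 1))) := by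
  obtain ⟨σ, h1, h2, h3, h4, h5⟩ := clt_full hd hβ
  refine ⟨σ, h1, h2, h3, h4, ?_⟩
  intro ψ hψ L hL
  obtain ⟨h6, h7⟩ := h5 ψ hψ L hL
  refine ⟨h6, ?_⟩
  intro φ hφm hφb f hf hfC
  obtain ⟨C, hC⟩ := hfC
  have hC0 : 0 ≤ C := by
    have h := hC 0
    rw [norm_zero] at h
    simp at h
    exact (abs_nonneg _).trans h
  refine ⟨h7 φ hφm hφb f hf ⟨C, fun w => (hC w).trans (mul_le_mul_of_nonneg_left
    (Real.exp_le_exp.2 (by nlinarith [sq_nonneg ‖w‖])) hC0)⟩, ?_⟩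
  obtain ⟨Φ, hΦ⟩ := hφb
  have hpi := two_pi_pos'
  have hlim : ∀ φ : ℝ → ℝ, Integrable φ Pm → ∀ f : ℂ →ᵇ ℝ,
      Tendsto (fun R : ℝ => ∫ θ, φ θ * f (Xd d ψ L R θ) ∂Pm) (𝓝[>] 1)
        (𝓝 (∫ θ, φ θ * ∫ w, f (σ θ • w) ∂cg ∂Pm)) := by
    intro φ hφ f
    have h8 := ((h6 φ (integrable_Pm_iff.1 hφ) f).2).const_mul ((2 * Real.pi)⁻¹)
    simp only [integral_Pm, smul_eq_mul, integral_cg]
    exact h8
  have hW : ∀ᶠ R in 𝓝[>] (1 : ℝ), AEMeasurable (Xd d ψ L R) Pm := by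
    filter_upwards [self_mem_nhdsWithin] with R hR
    exact (Xd_meas hψ hL hR).aemeasurable
  have hexp : ∀ᶠ R in 𝓝[>] (1 : ℝ), Integrable (fun θ => Real.exp (1 / 300 * ‖Xd d ψ L R θ‖ ^ 2)) Pm ∧
      ∫ θ, Real.exp (1 / 300 * ‖Xd d ψ L R θ‖ ^ 2) ∂Pm ≤ Real.exp (1 / 150) * 25 := by
    filter_upwards [self_mem_nhdsWithin,
      nhdsWithin_le_nhds (gt_mem_nhds (by norm_num : (1 : ℝ) < 3 / 2)), Xd_near hd hβ hψ hL] with R hR1 hR2 hR3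
    obtain ⟨g1, g2⟩ := exp_Xe hβ hψ hL hR1 hR2
    have g3 : ∀ θ, Real.exp (1 / 300 * ‖Xd d ψ L R θ‖ ^ 2) ≤
        Real.exp (1 / 150) * Real.exp (1 / 150 * ‖Xe L R θ‖ ^ 2) := by
      intro θ
      rw [← Real.exp_add]
      apply Real.exp_le_exp.2
      have g4 : ‖Xd d ψ L R θ‖ ≤ ‖Xe L R θ‖ + 1 := by
        have g5 : Xd d ψ L R θ = Xe L R θ + (Xd d ψ L R θ - Xe L R θ) := by ring
        rw [g5]
        refine (norm_add_le _ _).trans ?_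
        linarith [hR3 θ]
      nlinarith [norm_nonneg (Xd d ψ L R θ), norm_nonneg (Xe L R θ), sq_nonneg (‖Xe L R θ‖ - 1)]
    have g6 : Integrable (fun θ => Real.exp (1 / 300 * ‖Xd d ψ L R θ‖ ^ 2)) Pm := by
      refine (g1.const_mul (Real.exp (1 / 150))).mono' ?_ ?_
      · exact (((Xd_meas hψ hL hR1).norm.pow_const 2).const_mul (1 / 300)).exp.aestronglyMeasurable
      · refine Eventually.of_forall fun θ => ?_
        rw [Real.norm_of_nonneg (Real.exp_pos _).le]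
        exact g3 θ
    refine ⟨g6, ?_⟩
    refine (integral_mono g6 (g1.const_mul _) g3).trans ?_
    rw [MeasureTheory.integral_const_mul]
    exact mul_le_mul_of_nonneg_left g2 (Real.exp_pos _).le
  obtain ⟨k1, k2, k3⟩ := grow h1 hlim (by norm_num : (0 : ℝ) < 1 / 300) hexp hW hφm hΦ hf (C := C) (by
    intro w
    have h8 : (1 / 300 / 2 : ℝ) * ‖w‖ ^ 2 = ‖w‖ ^ 2 / 600 := by ring
    rw [h8]
    exact hC w)
  have h9 := k3.const_mul (2 * Real.pi)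
  have e1 : ∀ g : ℝ → ℝ, 2 * Real.pi * ∫ θ, g θ ∂Pm = ∫ θ in (0 : ℝ)..2 * Real.pi, g θ := by
    intro g
    rw [integral_Pm, smul_eq_mul]
    field_simp
  have e2 : ∫ p, φ p.1 * f (σ p.1 • p.2) ∂(Pm.prod cg) = ∫ θ, φ θ *
      ∫ x, ∫ y, f (σ θ * (x + y * I)) ∂(gaussianReal 0 1) ∂(gaussianReal 0 1) ∂Pm := by
    rw [integral_prod _ k1]
    apply integral_congr_ae
    filter_upwards [k2.prod_right_ae] with θ hθ
    have h8 : ∫ w, φ θ * f (σ θ • w) ∂cg = φ θ * ∫ w, f (σ θ • w) ∂cg :=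
      MeasureTheory.integral_const_mul (φ θ) (fun w : ℂ => f (σ θ • w))
    exact h8.trans (by rw [cg_iter hf (σ θ) hθ])
  rw [e2] at h9
  simp only [e1] at h9
  exact h9

end Pool.Agent.H439.MC
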